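import Pool.Agent.R989.Det2

/-! The limiting argument for one sample path (helper989). -/

set_option autoImplicit false

open MeasureTheory Filter Topology Complex ProbabilityTheory
open scoped ENNReal

namespace Pool.Agent.R989.Det

open Pool.Agent.W745.RW
open Pool.Agent.Results.MP_6b977f_mp.FourPointFunctions (cov gauss parallel)
open Pool.Agent.Results.MP_6b977f_mp.PlanckScaleMass (mean)

/-- a limit from uniform approximations -/
theorem approx {a : ℕ → ℝ} {L C : ℝ} (hC : 0 ≤ C)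
    (h : ∀ ε : ℝ, 0 < ε → ∃ (b : ℕ → ℝ) (L' : ℝ), (∀ᶠ n in atTop, |a n - b n| ≤ C * ε) ∧
      Tendsto b atTop (𝓝 L') ∧ |L - L'| ≤ C * ε) : Tendsto a atTop (𝓝 L) := by
  rw [Metric.tendsto_nhds]
  intro η hη
  have hε : 0 < η / (3 * (C + 1)) := by positivity
  obtain ⟨b, L', h1, h2, h3⟩ := h _ hε
  have h4 : C * (η / (3 * (C + 1))) < η / 3 := by
    rw [mul_div_assoc', div_lt_div_iff₀ (by positivity) (by norm_num)]
    nlinarith
  filter_upwards [h1, (Metric.tendsto_nhds.1 h2) (η / 3) (by positivity)] with n k1 k2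
  rw [Real.dist_eq] at k2 ⊢
  have e : a n - L = (a n - b n) + (b n - L') + -(L - L') := by ring
  rw [e]
  refine (abs_add_three _ _ _).trans_lt ?_
  rw [abs_neg]
  linarith

theorem eq_of_small {x y C : ℝ} (h : ∀ ε : ℝ, 0 < ε → |x - y| ≤ C * ε) : x = y := by
  by_contra hne
  have h1 : 0 < |x - y| := abs_pos.2 (sub_ne_zero.2 hne)
  have h2 := h (|x - y| / (2 * (|C| + 1))) (by positivity)
  have h3 : C * (|x - y| / (2 * (|C| + 1))) ≤ |C| * (|x - y| / (2 * (|C| + 1))) :=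
    mul_le_mul_of_nonneg_right (le_abs_self C) (by positivity)
  have h4 : |C| * (|x - y| / (2 * (|C| + 1))) < |x - y| := by
    rw [mul_div_assoc', div_lt_iff₀ (by positivity)]
    nlinarith [abs_nonneg C]
  linarith

variable {f : ℂ → ℝ} {t : ℕ → ℝ} {m : ℝ} {ν : Measure ℝ} [IsProbabilityMeasure ν]

/-- continuity of the local mean -/
theorem mean_cont {f : ℂ → ℝ} (hf : Continuous f) {R : ℝ} :
    Continuous fun z => mean R (fun w => f w ^ 2) z := by
  have h0 : ∀ z, mean R (fun w => f w ^ 2) z =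
      1 / (Real.pi * R ^ 2) * ∫ w in Metric.ball (0 : ℂ) R, f (z + w) ^ 2 := by
    intro z
    unfold mean
    congr 1
    have hmp := measurePreserving_add_left (volume : Measure ℂ) z
    have hme : MeasurableEmbedding fun w : ℂ => z + w := measurableEmbedding_addLeft z
    rw [← hmp.setIntegral_preimage_emb hme (fun w => f w ^ 2)]
    congr 2
    ext w
    simp
  simp only [h0]
  refine continuous_const.mul ?_
  have h1 : ∀ z, ∫ w in Metric.ball (0 : ℂ) R, f (z + w) ^ 2 =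
      ∫ w in Metric.closedBall (0 : ℂ) R, f (z + w) ^ 2 := fun z =>
    setIntegral_congr_set (ae_eq_of_subset_of_measure_ge Metric.ball_subset_closedBall
      (Measure.addHaar_closedBall_eq_addHaar_ball volume 0 R).le
      measurableSet_ball.nullMeasurableSet (isCompact_closedBall _ _).measure_lt_top.ne)
  simp only [h1]
  refine continuous_parametric_integral_of_continuous ?_ (isCompact_closedBall _ _)
  have : Continuous fun p : ℂ × ℂ => f (p.1 + p.2) ^ 2 := (hf.comp (by fun_prop)).pow 2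
  exact this

/-- **The fourth moment of one sample path.** -/
theorem fin_B (H : Dat f t m ν) (K : Set ℂ) (hK : IsCompact K) (φ : ℂ → ℝ)
    (hφ : TF (interior K) φ) (hφ1 : 0 < ∫ z, φ z) (B : ℝ)
    (hB : Tendsto (fun n => ∫ z, φ z * f ((t n : ℂ) * z) ^ 4) atTop (𝓝 ((∫ z, φ z) * B)))
    (hKb : ∃ C : ℝ, ∀ᶠ n in atTop, ∫ z in K, f ((t n : ℂ) * z) ^ 4 ≤ C)
    (hmass : ∀ ε : ℝ≥0∞, 0 < ε → ∀ R0 : ℝ, ∃ R : ℝ, R0 ≤ R ∧ ∃ᶠ n in atTop,
      ∫⁻ z, ‖φ z‖ₑ * ‖mean R (fun w => f w ^ 2) ((t n : ℂ) * z) ^ 2 - m ^ 2‖ₑ < ε) :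
    B = m ^ 2 * (3 - 3 / 2 * parallel ν) := by
  obtain ⟨C, hC⟩ := hKb
  have hC0 : 0 ≤ C := by
    obtain ⟨n, hn⟩ := hC.exists
    refine le_trans ?_ hn
    exact setIntegral_nonneg hK.measurableSet fun z _ => by positivity
  set c := ∫ z, φ z with hc
  have hfc : Continuous f := H.sf.continuous
  -- the fourth moment
  have hB3 : c * B = c * (m ^ 2 * (3 - 3 / 2 * parallel ν)) := by
    refine eq_of_small (C := 3 / 2 * (3 + C)) fun ε hε => ?_
    obtain ⟨R0, hR0, key⟩ := mass H K hK φ hφ ε hε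
    obtain ⟨R, hR, hfr⟩ := hmass (ENNReal.ofReal ε) (by simpa using hε) R0
    have hRp : 0 < R := lt_of_lt_of_le hR0 hR
    have hBn : ∀ᶠ n in atTop, |(∫ z, φ z * f ((t n : ℂ) * z) ^ 4) - c * B| < ε := by
      have := (Metric.tendsto_nhds.1 hB) ε hε
      simpa only [Real.dist_eq] using this
    obtain ⟨n, hn1, ⟨hn2, hn3⟩, hn4⟩ := (hfr.and_eventually (((key R hR).and hC).and hBn)).exists
    -- the deviation of the mass
    have hcm : Continuous fun z : ℂ => mean R (fun w => f w ^ 2) ((t n : ℂ) * z) :=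
      (mean_cont hfc).comp (by fun_prop)
    have i1 : Integrable fun z => φ z * mean R (fun w => f w ^ 2) ((t n : ℂ) * z) ^ 2 :=
      (hφ.1.continuous.mul (hcm.pow 2)).integrable_of_hasCompactSupport hφ.2.1.mul_right
    have i2 : Integrable fun z => φ z * m ^ 2 :=
      (hφ.1.continuous.mul continuous_const).integrable_of_hasCompactSupport hφ.2.1.mul_right
    have e1 : (∫ z, φ z * mean R (fun w => f w ^ 2) ((t n : ℂ) * z) ^ 2) - c * m ^ 2 =
        ∫ z, φ z * (mean R (fun w => f w ^ 2) ((t n : ℂ) * z) ^ 2 - m ^ 2) := by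
      rw [hc, ← integral_mul_const, ← integral_sub i1 i2]
      exact integral_congr_ae (Eventually.of_forall fun z => by ring)
    have e2 : |(∫ z, φ z * mean R (fun w => f w ^ 2) ((t n : ℂ) * z) ^ 2) - c * m ^ 2| ≤ ε := by
      rw [e1, ← Real.norm_eq_abs]
      have k1 : ‖∫ z, φ z * (mean R (fun w => f w ^ 2) ((t n : ℂ) * z) ^ 2 - m ^ 2)‖ₑ ≤
          ENNReal.ofReal ε := by
        refine (enorm_integral_le_lintegral_enorm _).trans (le_trans (le_of_eq ?_) hn1.le)
        exact lintegral_congr fun z => enorm_mul _ _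
      rw [← ofReal_norm] at k1
      exact (ENNReal.ofReal_le_ofReal_iff hε.le).1 k1
    have e3 : ε * (1 + ∫ z in K, f ((t n : ℂ) * z) ^ 4) ≤ ε * (1 + C) :=
      mul_le_mul_of_nonneg_left (by linarith) hε.le
    rw [abs_le] at e2 hn2 ⊢
    rw [abs_lt] at hn4
    obtain ⟨a1, a2⟩ := e2
    obtain ⟨a3, a4⟩ := hn2
    obtain ⟨a5, a6⟩ := hn4
    constructor
    · nlinarith
    · nlinarith
  exact mul_left_cancel₀ hφ1.ne' hB3

/-- **The four point function of one sample path.** -/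
theorem fin_s (H : Dat f t m ν) (hpar : parallel ν = 0) (K : Set ℂ) (hK : IsCompact K) (φ : ℂ → ℝ)
    (hφ : TF (interior K) φ) (hφ0 : ∀ z, 0 ≤ φ z) (hφ1 : 0 < ∫ z, φ z) (B : ℝ)
    (hB : Tendsto (fun n => ∫ z, φ z * f ((t n : ℂ) * z) ^ 4) atTop (𝓝 ((∫ z, φ z) * B)))
    (hKb : ∃ C : ℝ, ∀ᶠ n in atTop, ∫ z in K, f ((t n : ℂ) * z) ^ 4 ≤ C)
    (hBv : B = m ^ 2 * (3 - 3 / 2 * parallel ν))
    (w : Fin 4 → ℂ) (A : ℝ)
    (hA : Tendsto (fun n => ∫ z, φ z * ∏ i, f ((t n : ℂ) * z + w i)) atTop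
      (𝓝 ((∫ z, φ z) * A))) : A = m ^ 2 * gauss ν w := by
  obtain ⟨C, hC⟩ := hKb
  set c := ∫ z, φ z with hc
  have hB3 : c * B = 3 * (c * m ^ 2) := by
    rw [hBv, hpar]
    ring
  -- the four point function
  have h1 : c * A = c * (m ^ 2 * gauss ν w) := by
    refine eq_of_small (C := 1 + C) fun ε hε => ?_
    have key := four H hpar K hK φ hφ hφ0 w ε hε
    have l1 : Tendsto (fun n => |(∫ z, φ z * ∏ i, f ((t n : ℂ) * z + w i)) -
        c * (m ^ 2 * gauss ν w)|) atTop (𝓝 |c * A - c * (m ^ 2 * gauss ν w)|) :=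
      (hA.sub_const _).abs
    have l2 : Tendsto (fun n => (∫ z, φ z * f ((t n : ℂ) * z) ^ 4) - 3 * (c * m ^ 2) +
        ε * (1 + C)) atTop (𝓝 (c * B - 3 * (c * m ^ 2) + ε * (1 + C))) :=
      (hB.sub_const _).add_const _
    have l3 := le_of_tendsto_of_tendsto l1 l2 (by
      filter_upwards [key, hC] with n k1 k2
      refine k1.trans ?_
      have := mul_le_mul_of_nonneg_left (show 1 + ∫ z in K, f ((t n : ℂ) * z) ^ 4 ≤ 1 + C by
        linarith) hε.le
      linarith)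
    rw [hB3] at l3
    linarith
  exact mul_left_cancel₀ hφ1.ne' h1

end Pool.Agent.R989.Det
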