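import Pool.Agent.R989.Mass
import Pool.Agent.R989.Lim

/-! The conditional four point function of a stationary wave: assembly (helper989). -/

set_option autoImplicit false

open MeasureTheory Filter Topology Complex ProbabilityTheory
open scoped ENNReal

namespace Pool.Agent.R989.Asm

open Pool.Agent.W745.RW Pool.Agent.R989.Erg Pool.Agent.R989.Det Pool.Agent.R989.Der
open Pool.Agent.Results.MP_6b977f_mp.FourPointFunctions (cov gauss parallel)
open Pool.Agent.Results.MP_6b977f_mp.PlanckScaleMass (mean)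

/-- rational point -/
noncomputable def pt (a : ℚ × ℚ) : ℂ := (a.1 : ℂ) + (a.2 : ℂ) * I

/-- products of two values -/
def XW (w : ℂ) (ω : ℂ → ℝ) : ℝ := ω 0 * ω w
/-- their absolute values -/
def AXW (w : ℂ) (ω : ℂ → ℝ) : ℝ := |ω 0 * ω w|
/-- fourth power of the value -/
def X4 (ω : ℂ → ℝ) : ℝ := ω 0 ^ 4
/-- products of four values -/
def XA (w : Fin 4 → ℂ) (ω : ℂ → ℝ) : ℝ := ∏ i, ω (w i)

theorem XW_meas (w : ℂ) : Measurable (XW w) := (measurable_pi_apply 0).mul (measurable_pi_apply w)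
theorem AXW_meas (w : ℂ) : Measurable (AXW w) := (XW_meas w).abs
theorem X4_meas : Measurable X4 := (measurable_pi_apply 0).pow_const 4
theorem XA_meas (w : Fin 4 → ℂ) : Measurable (XA w) :=
  Finset.measurable_prod _ fun i _ => measurable_pi_apply (w i)

/-- the indicator of the disc of radius `N` -/
noncomputable def ind (N : ℕ) : ℂ → ℝ := (Metric.closedBall (0 : ℂ) N).indicator fun _ => 1

theorem ind_meas (N : ℕ) : Measurable (ind N) := measurable_const.indicator measurableSet_closedBall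

theorem ind_int (N : ℕ) : Integrable (ind N) := by
  unfold ind
  rw [integrable_indicator_iff measurableSet_closedBall]
  exact integrableOn_const (isCompact_closedBall _ _).measure_lt_top.ne

theorem V_ind {S : Type*} (F : S → ℂ → ℝ) (N : ℕ) (t : ℝ) (x : (ℂ → ℝ) → ℝ) (s : S) :
    V F (ind N) t x s = ∫ z in Metric.closedBall (0 : ℂ) N, x (sh (t * z) (F s)) := by
  unfold V ind
  rw [← integral_indicator measurableSet_closedBall]
  refine integral_congr_ae (Eventually.of_forall fun z => ?_)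
  simp only [Set.indicator]
  split_ifs <;> simp

theorem lim_of_tendsto {a : ℕ → ℝ} {L : ℝ} (h : Tendsto a atTop (𝓝 L)) :
    ∀ᶠ n in atTop, a n ≤ |L| + 1 := by
  have h1 := (Metric.tendsto_nhds.1 h) 1 one_pos
  filter_upwards [h1] with n hn
  rw [Real.dist_eq] at hn
  have := (abs_lt.1 hn).2
  linarith [le_abs_self L]

section
variable {S : Type*} [MeasurableSpace S] {P : Measure S} [IsProbabilityMeasure P]
  {F : S → ℂ → ℝ}

/-- deterministic extension to all test functions -/
theorem two_ext {f : ℂ → ℝ} (hf : Continuous f) {t : ℕ → ℝ} {T : ℕ × ℕ → ℂ → ℝ}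
    (hT : ∀ i, TF Set.univ (T i))
    (hd : ∀ φ, TF Set.univ φ → ∃ N : ℕ, (∀ z ∉ Metric.closedBall (0 : ℂ) N, φ z = 0) ∧
      ∀ ε : ℝ, 0 < ε → ∃ i, (∀ z, |φ z - T i z| ≤ ε) ∧
        ∀ z ∉ Metric.closedBall (0 : ℂ) N, T i z = 0) (w : ℂ) (c : ℝ)
    (h1 : ∀ i, Tendsto (fun n => ∫ z, T i z * (f ((t n : ℂ) * z) * f ((t n : ℂ) * z + w))) atTop
      (𝓝 ((∫ z, T i z) * c)))
    (h2 : ∀ N : ℕ, ∃ C : ℝ, ∀ᶠ n in atTop, ∫ z in Metric.closedBall (0 : ℂ) N,
      |f ((t n : ℂ) * z) * f ((t n : ℂ) * z + w)| ≤ C) (φ : ℂ → ℝ) (hφ : TF Set.univ φ) :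
    Tendsto (fun n => ∫ z, φ z * (f ((t n : ℂ) * z) * f ((t n : ℂ) * z + w))) atTop
      (𝓝 ((∫ z, φ z) * c)) := by
  obtain ⟨N, hN, key⟩ := hd φ hφ
  obtain ⟨C, hC⟩ := h2 N
  set v : ℝ := (volume (Metric.closedBall (0 : ℂ) N)).toReal with hv
  refine approx (C := |C| + v * |c|) (by positivity) fun ε hε => ?_
  obtain ⟨i, hi1, hi2⟩ := key ε hε
  refine ⟨_, _, ?_, h1 i, ?_⟩
  · filter_upwards [hC] with n hn
    have cg : Continuous fun z : ℂ => f ((t n : ℂ) * z) * f ((t n : ℂ) * z + w) :=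
      (hf.comp (by fun_prop)).mul (hf.comp (by fun_prop))
    have i1 : Integrable fun z => φ z * (f ((t n : ℂ) * z) * f ((t n : ℂ) * z + w)) :=
      (hφ.1.continuous.mul cg).integrable_of_hasCompactSupport hφ.2.1.mul_right
    have i2 : Integrable fun z => T i z * (f ((t n : ℂ) * z) * f ((t n : ℂ) * z + w)) :=
      ((hT i).1.continuous.mul cg).integrable_of_hasCompactSupport (hT i).2.1.mul_right
    rw [← integral_sub i1 i2]
    have e1 : ∫ z, (φ z * (f ((t n : ℂ) * z) * f ((t n : ℂ) * z + w)) -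
        T i z * (f ((t n : ℂ) * z) * f ((t n : ℂ) * z + w))) =
        ∫ z in Metric.closedBall (0 : ℂ) N, (φ z * (f ((t n : ℂ) * z) * f ((t n : ℂ) * z + w)) -
        T i z * (f ((t n : ℂ) * z) * f ((t n : ℂ) * z + w))) :=
      (setIntegral_eq_integral_of_forall_compl_eq_zero fun z hz => by
        rw [hN z hz, hi2 z hz]
        ring).symm
    rw [e1, ← Real.norm_eq_abs]
    refine (norm_integral_le_integral_norm _).trans ?_
    have hcb : IsCompact (Metric.closedBall (0 : ℂ) N) := isCompact_closedBall _ _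
    have h3 : ∫ z in Metric.closedBall (0 : ℂ) N,
        ‖φ z * (f ((t n : ℂ) * z) * f ((t n : ℂ) * z + w)) -
        T i z * (f ((t n : ℂ) * z) * f ((t n : ℂ) * z + w))‖ ≤
        ∫ z in Metric.closedBall (0 : ℂ) N, ε * |f ((t n : ℂ) * z) * f ((t n : ℂ) * z + w)| := by
      refine setIntegral_mono_on (i1.sub i2).norm.integrableOn
        ((continuous_const.mul cg.abs).continuousOn.integrableOn_compact hcb)
        measurableSet_closedBall fun z _ => ?_
      rw [← sub_mul, norm_mul, Real.norm_eq_abs, Real.norm_eq_abs]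
      exact mul_le_mul_of_nonneg_right (hi1 z) (abs_nonneg _)
    refine h3.trans ?_
    rw [integral_const_mul]
    have h4 : ε * (∫ z in Metric.closedBall (0 : ℂ) N,
        |f ((t n : ℂ) * z) * f ((t n : ℂ) * z + w)|) ≤ ε * |C| :=
      mul_le_mul_of_nonneg_left (hn.trans (le_abs_self C)) hε.le
    have h5 : 0 ≤ v * |c| * ε := by positivity
    nlinarith
  · have i1 : Integrable φ := hφ.1.continuous.integrable_of_hasCompactSupport hφ.2.1
    have i2 : Integrable (T i) := (hT i).1.continuous.integrable_of_hasCompactSupport (hT i).2.1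
    rw [← sub_mul, ← integral_sub i1 i2, abs_mul]
    have e1 : ∫ z, (φ z - T i z) = ∫ z in Metric.closedBall (0 : ℂ) N, (φ z - T i z) :=
      (setIntegral_eq_integral_of_forall_compl_eq_zero fun z hz => by
        rw [hN z hz, hi2 z hz]
        ring).symm
    have h3 : |∫ z in Metric.closedBall (0 : ℂ) N, (φ z - T i z)| ≤ ε * v := by
      rw [← Real.norm_eq_abs]
      have := norm_setIntegral_le_of_norm_le_const (μ := (volume : Measure ℂ))
        (s := Metric.closedBall (0 : ℂ) N) (f := fun z => φ z - T i z) (C := ε)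
        (isCompact_closedBall _ _).measure_lt_top (fun z _ => hi1 z)
      exact this
    rw [e1]
    have h4 : |∫ z in Metric.closedBall (0 : ℂ) N, (φ z - T i z)| * |c| ≤ ε * v * |c| :=
      mul_le_mul_of_nonneg_right h3 (abs_nonneg _)
    have h5 : 0 ≤ |C| * ε := by positivity
    nlinarith

end

end Pool.Agent.R989.Asm
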