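import Mathlib

/-!
Lower bound for a polynomial on a real segment when its critical points stay at distance about
one from the zero `a` (helper file for `MP_8e1908_an`).
-/

open Finset

namespace Pool.Agent.R989.Crit

lemma nsq (z : ℂ) : ‖z‖^2 = z.re^2 + z.im^2 := by
  rw [Complex.sq_norm, Complex.normSq_apply]; ring

lemma nsq_sub_real (t : ℝ) (z : ℂ) : ‖(t:ℂ) - z‖^2 = (t - z.re)^2 + z.im^2 := by
  rw [nsq]; simp

lemma exp_sq_ge (lam : ℝ) : 1 - 2*lam ≤ Real.exp (-lam)^2 := by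
  have h2 : Real.exp (-lam)^2 = Real.exp (-(2*lam)) := by rw [← Real.exp_nat_mul]; ring_nf
  rw [h2]
  have := Real.add_one_le_exp (-(2*lam)); linarith

lemma re_le {a lam : ℝ} (ha : 0 < a) {z : ℂ} (hz : ‖z‖ ≤ 1)
    (hd : Real.exp (-lam) ≤ ‖(a:ℂ) - z‖) : z.re ≤ a/2 + lam/a := by
  have h1 : Real.exp (-lam)^2 ≤ ‖(a:ℂ) - z‖^2 := pow_le_pow_left₀ (Real.exp_pos _).le hd 2
  have h3 := exp_sq_ge lam
  rw [nsq_sub_real] at h1
  have h4 : ‖z‖^2 ≤ 1 := by nlinarith [norm_nonneg z]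
  rw [nsq] at h4
  have h5 : 2*a*z.re ≤ a^2 + 2*lam := by nlinarith
  have h6 : z.re = (2*a*z.re)/(2*a) := by field_simp
  rw [h6, div_le_iff₀ (by linarith)]
  have : (a/2 + lam/a)*(2*a) = a^2 + 2*lam := by field_simp
  linarith

/-- decay of the distances along the segment -/
lemma dist_decay {a lam t : ℝ} (ha : 0 < a) (ha1 : a < 1) {z : ℂ} (hz : ‖z‖ ≤ 1)
    (hd : Real.exp (-lam) ≤ ‖(a:ℂ) - z‖) (ht : 4*lam/a ≤ t) (hta : t ≤ a) (ht0 : 0 ≤ t) :
    ‖(t:ℂ) - z‖ ≤ ‖(a:ℂ) - z‖ * Real.exp (-((a-t)*t/16)) := by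
  have hre := re_le ha hz hd
  have h1 : ‖(t:ℂ) - z‖^2 = ‖(a:ℂ) - z‖^2 - (a-t)*(a+t-2*z.re) := by
    rw [nsq_sub_real, nsq_sub_real]; ring
  have h2 : t/2 ≤ a + t - 2*z.re := by
    have : 4*lam/a = 4*(lam/a) := by ring
    rw [this] at ht
    linarith
  have h3 : ‖(a:ℂ) - z‖ ≤ 2 := by
    have h := norm_sub_le (a:ℂ) z
    have h' : ‖(a:ℂ)‖ = a := by rw [Complex.norm_real, Real.norm_of_nonneg ha.le]
    linarith
  have h4 : ‖(a:ℂ) - z‖^2 ≤ 4 := by nlinarith [norm_nonneg ((a:ℂ) - z)]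
  have h5 : 0 ≤ (a-t)*t := mul_nonneg (by linarith) ht0
  have h6 : ‖(t:ℂ) - z‖^2 ≤ ‖(a:ℂ) - z‖^2 * (1 - (a-t)*t/8) := by
    rw [h1]
    have h7 : (a-t)*(t/2) ≤ (a-t)*(a+t-2*z.re) := mul_le_mul_of_nonneg_left h2 (by linarith)
    nlinarith [mul_le_mul_of_nonneg_right h4 h5]
  have h7 : 1 - (a-t)*t/8 ≤ Real.exp (-((a-t)*t/8)) := by
    have := Real.add_one_le_exp (-((a-t)*t/8)); linarith
  have h8 : ‖(t:ℂ) - z‖^2 ≤ (‖(a:ℂ) - z‖ * Real.exp (-((a-t)*t/16)))^2 := by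
    have h9 : (‖(a:ℂ) - z‖ * Real.exp (-((a-t)*t/16)))^2
        = ‖(a:ℂ) - z‖^2 * Real.exp (-((a-t)*t/8)) := by
      rw [mul_pow, ← Real.exp_nat_mul]
      congr 2
      push_cast; ring
    rw [h9]
    exact h6.trans (mul_le_mul_of_nonneg_left h7 (sq_nonneg _))
  exact (pow_le_pow_iff_left₀ (norm_nonneg _)
    (mul_nonneg (norm_nonneg _) (Real.exp_pos _).le) two_ne_zero).mp h8

noncomputable section

variable {m : ℕ}

/-- the monic polynomial with zeros `z i`, as a function -/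
def pf (z : Fin m → ℂ) (s : ℂ) : ℂ := ∏ i, (s - z i)

/-- its logarithmic derivative -/
def qf (z : Fin m → ℂ) (s : ℂ) : ℂ := ∑ i, (s - z i)⁻¹

/-- minus the derivative of the logarithmic derivative -/
def rf (z : Fin m → ℂ) (s : ℂ) : ℂ := ∑ i, ((s - z i)^2)⁻¹

lemma pf_deriv (z : Fin m → ℂ) (s : ℂ) (hs : ∀ i, s - z i ≠ 0) :
    HasDerivAt (pf z) (pf z s * qf z s) s := by
  have h := HasDerivAt.fun_finsetProd (u := (Finset.univ : Finset (Fin m)))
    (f := fun i x => x - z i) (f' := fun _ => (1:ℂ)) (x := s)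
    (fun i _ => (hasDerivAt_id s).sub_const (z i))
  have he : (∑ i : Fin m, (∏ j ∈ Finset.univ.erase i, (s - z j)) • (1:ℂ))
      = pf z s * qf z s := by
    unfold pf qf
    rw [Finset.mul_sum]
    apply Finset.sum_congr rfl
    intro i hi
    rw [← Finset.mul_prod_erase Finset.univ (fun j => s - z j) hi, smul_eq_mul, mul_one]
    field_simp [hs i]
  rw [he] at h
  exact h

lemma qf_deriv (z : Fin m → ℂ) (s : ℂ) (hs : ∀ i, s - z i ≠ 0) :
    HasDerivAt (qf z) (- rf z s) s := by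
  have h : HasDerivAt (fun x => ∑ i : Fin m, (x - z i)⁻¹)
      (∑ i : Fin m, (-(1:ℂ) / (s - z i)^2)) s := by
    apply HasDerivAt.fun_sum
    intro i _
    exact ((hasDerivAt_id s).sub_const (z i)).inv (hs i)
  have he : (∑ i : Fin m, (-(1:ℂ) / (s - z i)^2)) = - rf z s := by
    unfold rf
    rw [← Finset.sum_neg_distrib]
    apply Finset.sum_congr rfl
    intro i _
    rw [neg_div, one_div]
  rw [he] at h
  exact h

lemma norm_pf (z : Fin m → ℂ) (s : ℂ) : ‖pf z s‖ = ∏ i, ‖s - z i‖ := by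
  unfold pf; rw [norm_prod]

/-- the standing assumptions on the critical points -/
structure Far (a lam : ℝ) (z : Fin m → ℂ) : Prop where
  a0 : 0 < a
  a1 : a < 1
  l0 : 0 ≤ lam
  l1 : lam ≤ a^2/8
  l2 : lam ≤ 1/2
  z1 : ∀ i, ‖z i‖ ≤ 1
  far : ∀ i, Real.exp (-lam) ≤ ‖(a:ℂ) - z i‖

variable {a lam : ℝ} {z : Fin m → ℂ}

lemma Far.pf_decay (H : Far a lam z) {t : ℝ} (ht : 4*lam/a ≤ t) (hta : t ≤ a) (ht0 : 0 ≤ t) :
    ‖pf z t‖ ≤ ‖pf z a‖ * Real.exp (-((m:ℝ) * ((a-t)*t/16))) := by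
  rw [norm_pf, norm_pf]
  have h : ∏ i, ‖(t:ℂ) - z i‖ ≤ ∏ i, (‖(a:ℂ) - z i‖ * Real.exp (-((a-t)*t/16))) := by
    apply Finset.prod_le_prod
    · intro i _; exact norm_nonneg _
    · intro i _; exact dist_decay H.a0 H.a1 (H.z1 i) (H.far i) ht hta ht0
  refine h.trans (le_of_eq ?_)
  rw [Finset.prod_mul_distrib, Finset.prod_const, Finset.card_univ, Fintype.card_fin,
    ← Real.exp_nat_mul]
  ring_nf

lemma Far.re (H : Far a lam z) (i : Fin m) : (z i).re ≤ a/2 + a/8 := by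
  have h := re_le H.a0 (H.z1 i) (H.far i)
  have : lam/a ≤ a/8 := by
    rw [div_le_iff₀ H.a0]
    have := H.l1
    nlinarith
  linarith

lemma Far.pf_le (H : Far a lam z) {t : ℝ} (ht : 4*lam/a ≤ t) (hta : t ≤ a) (ht0 : 0 ≤ t) :
    ‖pf z t‖ ≤ ‖pf z a‖ := by
  refine (H.pf_decay ht hta ht0).trans ?_
  have : Real.exp (-((m:ℝ) * ((a-t)*t/16))) ≤ 1 := by
    apply Real.exp_le_one_iff.mpr
    have : 0 ≤ (m:ℝ) * ((a-t)*t/16) := by
      apply mul_nonneg (Nat.cast_nonneg m)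
      have := mul_nonneg (sub_nonneg.mpr hta) ht0
      linarith
    linarith
  calc ‖pf z a‖ * Real.exp (-((m:ℝ) * ((a-t)*t/16))) ≤ ‖pf z a‖ * 1 :=
        mul_le_mul_of_nonneg_left this (norm_nonneg _)
    _ = ‖pf z a‖ := mul_one _

lemma Far.dist_lower (H : Far a lam z) {s : ℝ} (hs : 3*a/4 ≤ s) (i : Fin m) :
    a/8 ≤ ‖(s:ℂ) - z i‖ := by
  have h1 := H.re i
  have h2 : ((s:ℂ) - z i).re ≤ ‖(s:ℂ) - z i‖ := Complex.re_le_norm _
  have h3 : ((s:ℂ) - z i).re = s - (z i).re := by simp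
  rw [h3] at h2
  linarith

lemma Far.ne (H : Far a lam z) {s : ℝ} (hs : 3*a/4 ≤ s) (i : Fin m) : (s:ℂ) - z i ≠ 0 := by
  have h := H.dist_lower hs i
  have h0 := H.a0
  intro h'
  rw [h', norm_zero] at h
  linarith

lemma Far.dist_upper (H : Far a lam z) {s : ℝ} (hs0 : 0 ≤ s) (hs : s ≤ a) (i : Fin m) :
    ‖(s:ℂ) - z i‖ ≤ 2 := by
  have h := norm_sub_le (s:ℂ) (z i)
  have h' : ‖(s:ℂ)‖ = s := by rw [Complex.norm_real, Real.norm_of_nonneg hs0]
  have := H.z1 i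
  have := H.a1
  linarith

lemma Far.qf_lower (H : Far a lam z) {s : ℝ} (hs : 3*a/4 ≤ s) (hsa : s ≤ a) :
    (m:ℝ) * (a/32) ≤ ‖qf z s‖ := by
  have h0 := H.a0
  have h1 : (qf z s).re ≤ ‖qf z s‖ := Complex.re_le_norm _
  refine le_trans ?_ h1
  unfold qf
  rw [Complex.re_sum]
  have : (m:ℝ) * (a/32) = ∑ i : Fin m, (a/32) := by
    rw [Finset.sum_const, Finset.card_univ, Fintype.card_fin, nsmul_eq_mul]
  rw [this]
  apply Finset.sum_le_sum
  intro i _
  rw [Complex.inv_re, Complex.sub_re, Complex.ofReal_re]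
  have h3 : Complex.normSq ((s:ℂ) - z i) = ‖(s:ℂ) - z i‖^2 := (Complex.sq_norm _).symm
  rw [h3]
  have h4 := H.dist_lower hs i
  have h5 := H.dist_upper (by linarith) hsa i
  have h6 := H.re i
  have h7 : ‖(s:ℂ) - z i‖^2 ≤ 4 := by nlinarith [norm_nonneg ((s:ℂ) - z i)]
  rw [le_div_iff₀ (by nlinarith)]
  have h8 : a / 32 * ‖(s:ℂ) - z i‖^2 ≤ a / 32 * 4 :=
    mul_le_mul_of_nonneg_left h7 (by positivity)
  linarith

lemma Far.rf_upper (H : Far a lam z) {s : ℝ} (hs : 3*a/4 ≤ s) :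
    ‖rf z s‖ ≤ (m:ℝ) * (64/a^2) := by
  have h0 := H.a0
  unfold rf
  refine (norm_sum_le _ _).trans ?_
  have : (m:ℝ) * (64/a^2) = ∑ i : Fin m, (64/a^2) := by
    rw [Finset.sum_const, Finset.card_univ, Fintype.card_fin, nsmul_eq_mul]
  rw [this]
  apply Finset.sum_le_sum
  intro i _
  rw [norm_inv, norm_pow]
  have h4 := H.dist_lower hs i
  have h5 : (a/8)^2 ≤ ‖(s:ℂ) - z i‖^2 := pow_le_pow_left₀ (by linarith) h4 2
  have h6 : (‖(s:ℂ) - z i‖^2)⁻¹ ≤ ((a/8)^2)⁻¹ := inv_anti₀ (by positivity) h5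
  refine h6.trans (le_of_eq ?_)
  field_simp
  norm_num

lemma Far.qf_upper (H : Far a lam z) : ‖qf z a‖ ≤ 2 * (m:ℝ) := by
  unfold qf
  refine (norm_sum_le _ _).trans ?_
  have : 2 * (m:ℝ) = ∑ i : Fin m, (2:ℝ) := by
    rw [Finset.sum_const, Finset.card_univ, Fintype.card_fin, nsmul_eq_mul]; ring
  rw [this]
  apply Finset.sum_le_sum
  intro i _
  rw [norm_inv]
  have h1 := H.far i
  have h2 : (1:ℝ)/2 ≤ Real.exp (-lam) := by
    have := Real.add_one_le_exp (-lam)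
    have := H.l2
    linarith
  have h3 : ‖(a:ℂ) - z i‖⁻¹ ≤ (1/2:ℝ)⁻¹ := inv_anti₀ (by norm_num) (h2.trans h1)
  refine h3.trans (le_of_eq (by norm_num))

/-- Lower bound at `3a/4`. `F` is an antiderivative of `pf z` along the real axis vanishing at
`a`. -/
lemma Far.lower_mid (H : Far a lam z) (hm : 0 < m) (F : ℝ → ℂ)
    (hF : ∀ s : ℝ, HasDerivAt F (pf z (s:ℂ)) s) (hFa : F a = 0)
    (hbig : (65536/a^4) * (64/(3*a)) / m + (32/a) * Real.exp (-((m:ℝ) * (3*a^2/256))) ≤ 1/4) :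
    ‖pf z a‖ / (4*m) ≤ ‖F (3*a/4)‖ := by
  have ha0 := H.a0
  have hm' : (0:ℝ) < m := by exact_mod_cast hm
  set s0 : ℝ := 3*a/4 with hs0
  set c : ℝ := 3*a/64 with hc
  have hcpos : 0 < c := by positivity
  set K : ℝ := 65536/a^4 with hK
  have hKpos : 0 < K := by positivity
  have hqne : ∀ s : ℝ, s0 ≤ s → s ≤ a → qf z s ≠ 0 := by
    intro s h1 h2 h3
    have := H.qf_lower h1 h2
    rw [h3, norm_zero] at this
    have : 0 < (m:ℝ) * (a/32) := by positivity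
    linarith
  -- the corrected function
  let G : ℝ → ℂ := fun s => F s - pf z s / qf z s
  have hG : ∀ s : ℝ, s0 ≤ s → s ≤ a →
      HasDerivAt G (- (pf z s * rf z s / (qf z s)^2)) s := by
    intro s h1 h2
    have hne : ∀ i, (s:ℂ) - z i ≠ 0 := fun i => H.ne h1 i
    have hp : HasDerivAt (fun s : ℝ => pf z (s:ℂ)) (pf z s * qf z s) s :=
      (pf_deriv z s hne).comp_ofReal
    have hq : HasDerivAt (fun s : ℝ => qf z (s:ℂ)) (- rf z s) s :=
      (qf_deriv z s hne).comp_ofReal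
    have h := (hF s).sub (hp.div hq (hqne s h1 h2))
    convert! h using 1
    have := hqne s h1 h2
    field_simp
    ring
  let C0 : ℝ := ‖pf z a‖ * (K / (c * (m:ℝ)^2))
  let B : ℝ → ℝ := fun s => C0 * Real.exp (-((m:ℝ) * c * (a - s)))
  have hB : ∀ s, HasDerivAt B (‖pf z a‖ * (K / m) * Real.exp (-((m:ℝ) * c * (a - s)))) s := by
    intro s
    have h1 : HasDerivAt (fun s : ℝ => -((m:ℝ) * c * (a - s))) ((m:ℝ) * c) s := by
      have := (((hasDerivAt_id s).const_sub a).const_mul ((m:ℝ) * c)).neg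
      convert! this using 1
      ring
    have h2 := (h1.exp).const_mul C0
    convert! h2 using 1
    simp only [C0]
    field_simp
  have hbound : ∀ s ∈ Set.Ico s0 a, ‖- (pf z s * rf z s / (qf z s)^2)‖
      ≤ ‖pf z a‖ * (K / m) * Real.exp (-((m:ℝ) * c * (a - s))) := by
    intro s hs
    rw [norm_neg, norm_div, norm_mul, norm_pow]
    have h1 : ‖pf z s‖ ≤ ‖pf z a‖ * Real.exp (-((m:ℝ) * c * (a - s))) := by
      have h4l : 4*lam/a ≤ s := by
        refine le_trans ?_ hs.1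
        rw [div_le_iff₀ ha0]
        have := H.l1
        simp only [hs0]
        nlinarith
      refine (H.pf_decay h4l hs.2.le (by have := hs.1; linarith)).trans ?_
      apply mul_le_mul_of_nonneg_left _ (norm_nonneg _)
      apply Real.exp_le_exp.mpr
      apply neg_le_neg
      have h5 : c * (a - s) ≤ (a - s) * s / 16 := by
        have h6 : 0 ≤ a - s := by linarith [hs.2]
        have h7 : s0 ≤ s := hs.1
        simp only [hc]
        simp only [hs0] at h7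
        nlinarith
      calc (m:ℝ) * c * (a - s) = (m:ℝ) * (c * (a - s)) := by ring
        _ ≤ (m:ℝ) * ((a - s) * s / 16) := mul_le_mul_of_nonneg_left h5 hm'.le
    have h2 := H.rf_upper hs.1
    have h3 := H.qf_lower hs.1 hs.2.le
    have h4 : ((m:ℝ) * (a/32))^2 ≤ ‖qf z s‖^2 := pow_le_pow_left₀ (by positivity) h3 2
    have h5 : 0 < ((m:ℝ) * (a/32))^2 := by positivity
    have h6 : ‖pf z s‖ * ‖rf z s‖ / ‖qf z s‖^2
        ≤ (‖pf z a‖ * Real.exp (-((m:ℝ) * c * (a - s)))) * ((m:ℝ) * (64/a^2))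
          / ((m:ℝ) * (a/32))^2 := by
      apply div_le_div₀ (by positivity) _ h5 h4
      exact mul_le_mul h1 h2 (norm_nonneg _) (by positivity)
    refine h6.trans (le_of_eq ?_)
    simp only [hK]
    field_simp
    ring
  have hmain : ‖G a - G s0‖ ≤ C0 := by
    let f : ℝ → ℂ := fun s => G s - G s0
    have hs0a : s0 ≤ a := by simp only [hs0]; linarith
    have key := image_norm_le_of_norm_deriv_right_le_deriv_boundary
      (f := f) (f' := fun s : ℝ => - (pf z s * rf z s / (qf z s)^2)) (a := s0) (b := a)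
      (B := B) (B' := fun s => ‖pf z a‖ * (K / m) * Real.exp (-((m:ℝ) * c * (a - s))))
      (by
        intro s hs
        exact ((hG s hs.1 hs.2).sub_const _).continuousAt.continuousWithinAt)
      (by
        intro s hs
        exact ((hG s hs.1 hs.2.le).sub_const _).hasDerivWithinAt)
      (by
        simp only [f, sub_self, norm_zero, B, C0]
        positivity)
      hB hbound (Set.right_mem_Icc.mpr hs0a)
    simpa [f, B] using key
  -- conclusion
  have e1 : ‖pf z a‖ / (2*m) ≤ ‖G a‖ := by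
    have : G a = - (pf z a / qf z a) := by simp [G, hFa]
    rw [this, norm_neg, norm_div]
    have h1 := H.qf_upper
    have h2 : 0 < ‖qf z a‖ := norm_pos_iff.mpr (hqne a (by simp only [hs0]; linarith) le_rfl)
    exact div_le_div_of_nonneg_left (norm_nonneg _) h2 h1
  have e2 : ‖pf z s0 / qf z s0‖ ≤ ‖pf z a‖ * Real.exp (-((m:ℝ) * (3*a^2/256))) * (32/(m*a)) := by
    rw [norm_div]
    have h4l : 4*lam/a ≤ s0 := by
      rw [div_le_iff₀ ha0]
      have := H.l1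
      simp only [hs0]
      nlinarith
    have h1 := H.pf_decay h4l (by simp only [hs0]; linarith) (by positivity)
    have h2 : Real.exp (-((m:ℝ) * ((a - s0)*s0/16))) = Real.exp (-((m:ℝ) * (3*a^2/256))) := by
      simp only [hs0]
      ring_nf
    rw [h2] at h1
    have h3 := H.qf_lower (le_refl s0) (by simp only [hs0]; linarith)
    have h5 : 0 < (m:ℝ) * (a/32) := by positivity
    calc ‖pf z s0‖ / ‖qf z s0‖ ≤ (‖pf z a‖ * Real.exp (-((m:ℝ) * (3*a^2/256)))) / ((m:ℝ) * (a/32)) :=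
          div_le_div₀ (by positivity) h1 h5 h3
      _ = _ := by field_simp
  have e3 : ‖G s0‖ ≤ ‖F s0‖ + ‖pf z s0 / qf z s0‖ := norm_sub_le _ _
  have e4 : ‖G a‖ ≤ ‖G a - G s0‖ + ‖G s0‖ := by
    calc ‖G a‖ = ‖(G a - G s0) + G s0‖ := by rw [sub_add_cancel]
      _ ≤ _ := norm_add_le _ _
  have e5 : ‖pf z a‖ / (2*m) - C0 - ‖pf z a‖ * Real.exp (-((m:ℝ) * (3*a^2/256))) * (32/(m*a))
      ≤ ‖F s0‖ := by linarith
  refine le_trans ?_ e5
  have e6 : ‖pf z a‖ / (2*m) - C0 - ‖pf z a‖ * Real.exp (-((m:ℝ) * (3*a^2/256))) * (32/(m*a))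
      = ‖pf z a‖ / m * (1/2 - (K * (64/(3*a)) / m
          + (32/a) * Real.exp (-((m:ℝ) * (3*a^2/256))))) := by
    simp only [C0, hc]
    field_simp
    ring
  rw [e6]
  have e7 : ‖pf z a‖ / (4*m) = ‖pf z a‖ / m * (1/4) := by field_simp
  rw [e7]
  apply mul_le_mul_of_nonneg_left _ (by positivity)
  linarith

/-- Lower bound at every point between `y` and `3a/4`. -/
lemma Far.lower (H : Far a lam z) (hm : 0 < m) (F : ℝ → ℂ)
    (hF : ∀ s : ℝ, HasDerivAt F (pf z (s:ℂ)) s) (hFa : F a = 0) {y : ℝ} (hy : 4*lam/a ≤ y) (hy0 : 0 < y)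
    (hbig : (65536/a^4) * (64/(3*a)) / m + (32/a) * Real.exp (-((m:ℝ) * (3*a^2/256))) ≤ 1/4)
    (hbig2 : Real.exp (-((m:ℝ) * (a*y/64))) ≤ 1/(8*m)) {x : ℝ} (hx : y ≤ x) (hx2 : x ≤ 3*a/4) :
    ‖pf z a‖ / (8*m) ≤ ‖F x‖ := by
  have ha0 := H.a0
  have hm' : (0:ℝ) < m := by exact_mod_cast hm
  have h1 := H.lower_mid hm F hF hFa hbig
  have h2 : ‖F (3*a/4) - F x‖ ≤ (‖pf z a‖ * (1/(8*m))) * (3*a/4 - x) := by
    apply norm_image_sub_le_of_norm_deriv_right_le_segment (f := F) (f' := fun s : ℝ => pf z s)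
      (a := x) (b := 3*a/4) _ _ _ _ (Set.right_mem_Icc.mpr hx2)
    · intro s _
      exact (hF s).continuousAt.continuousWithinAt
    · intro s _
      exact (hF s).hasDerivWithinAt
    · intro s hs
      have hys : y ≤ s := hx.trans hs.1
      refine (H.pf_decay (hy.trans hys) (by linarith [hs.2]) (by linarith)).trans ?_
      apply mul_le_mul_of_nonneg_left _ (norm_nonneg _)
      refine le_trans ?_ hbig2
      apply Real.exp_le_exp.mpr
      apply neg_le_neg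
      apply mul_le_mul_of_nonneg_left _ hm'.le
      have h5 : a/4 ≤ a - s := by linarith [hs.2]
      have h6 : (a/4) * y ≤ (a - s) * s := mul_le_mul h5 hys hy0.le (by linarith)
      linarith
  have h3 : ‖F (3*a/4) - F x‖ ≤ ‖pf z a‖ * (1/(8*m)) := by
    refine h2.trans ?_
    have : 3*a/4 - x ≤ 1 := by have := H.a1; linarith
    have h0 : 0 ≤ ‖pf z a‖ * (1/(8*m)) := by positivity
    nlinarith
  have h4 : ‖F (3*a/4)‖ ≤ ‖F (3*a/4) - F x‖ + ‖F x‖ := by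
    calc ‖F (3*a/4)‖ = ‖(F (3*a/4) - F x) + F x‖ := by rw [sub_add_cancel]
      _ ≤ _ := norm_add_le _ _
  have h5 : ‖pf z a‖ / (4*m) = ‖pf z a‖ / (8*m) + ‖pf z a‖ * (1/(8*m)) := by
    field_simp; ring
  linarith

/-- Upper bound. -/
lemma Far.upper (H : Far a lam z) (F : ℝ → ℂ)
    (hF : ∀ s : ℝ, HasDerivAt F (pf z (s:ℂ)) s) (hFa : F a = 0) {x : ℝ} (hx : 4*lam/a ≤ x) (hx0 : 0 ≤ x)
    (hxa : x ≤ a) : ‖F x‖ ≤ ‖pf z a‖ := by
  have h2 : ‖F a - F x‖ ≤ ‖pf z a‖ * (a - x) := by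
    apply norm_image_sub_le_of_norm_deriv_right_le_segment (f := F) (f' := fun s : ℝ => pf z s)
      (a := x) (b := a) _ _ _ _ (Set.right_mem_Icc.mpr hxa)
    · intro s _
      exact (hF s).continuousAt.continuousWithinAt
    · intro s _
      exact (hF s).hasDerivWithinAt
    · intro s hs
      exact H.pf_le (hx.trans hs.1) hs.2.le (hx0.trans hs.1)
  rw [hFa, zero_sub, norm_neg] at h2
  have := H.a1
  have h0 : 0 ≤ ‖pf z a‖ := norm_nonneg _
  nlinarith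

end

end Pool.Agent.R989.Crit
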