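import Mathlib
import Pool.Agent.R989.CritA

/-!
Estimates for single zeros and single critical points (helper file for `MP_8e1908_an`).
-/

open Finset MeasureTheory

namespace Pool.Agent.R989.Crit

lemma nsq_one_sub (x : ℝ) (z : ℂ) : ‖1 - (x:ℂ) * z‖^2 = 1 - 2*x*z.re + x^2*(z.re^2 + z.im^2) := by
  rw [nsq]; simp; ring

/-- the basic identity for the disc -/
lemma disc_id (x : ℝ) (z : ℂ) :
    ‖1 - (x:ℂ) * z‖^2 = ‖(x:ℂ) - z‖^2 + (1 - x^2)*(1 - ‖z‖^2) := by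
  rw [nsq_one_sub, nsq_sub_real, nsq]; ring

lemma norm_one_sub_le {x : ℝ} (hx : 0 ≤ x) {z : ℂ} (hz : ‖z‖ ≤ 1) : ‖1 - (x:ℂ) * z‖ ≤ 1 + x := by
  refine (norm_sub_le _ _).trans ?_
  rw [norm_one, norm_mul, Complex.norm_real, Real.norm_of_nonneg hx]
  nlinarith

lemma norm_one_sub_ge {x : ℝ} (hx : 0 ≤ x) {z : ℂ} (hz : ‖z‖ ≤ 1) : 1 - x ≤ ‖1 - (x:ℂ) * z‖ := by
  have h := norm_sub_norm_le (1:ℂ) ((x:ℂ) * z)
  rw [norm_one, norm_mul, Complex.norm_real, Real.norm_of_nonneg hx] at h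
  nlinarith

lemma norm_one_sub_pos {x : ℝ} (hx : 0 ≤ x) (hx1 : x < 1) {z : ℂ} (hz : ‖z‖ ≤ 1) :
    0 < ‖1 - (x:ℂ) * z‖ := lt_of_lt_of_le (by linarith) (norm_one_sub_ge hx hz)

lemma norm_sq_le_one {z : ℂ} (hz : ‖z‖ ≤ 1) : ‖z‖^2 ≤ 1 := by nlinarith [norm_nonneg z]

lemma log_sq' (r : ℝ) : Real.log r = (1/2) * Real.log (r^2) := by
  rw [Real.log_pow]; push_cast; ring

/-- single zero, lower bound -/
lemma term_lower {x : ℝ} (hx : 0 ≤ x) (hx1 : x ≤ 1/3) {w : ℂ} (hw : ‖w‖ ≤ 1) (hne : (x:ℂ) ≠ w) :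
    (1/4) * (1 - ‖w‖^2) ≤ Real.log ‖1 - (x:ℂ) * w‖ - Real.log ‖(x:ℂ) - w‖ := by
  have hp := norm_one_sub_pos hx (by linarith) hw
  have hq : 0 < ‖(x:ℂ) - w‖ := norm_pos_iff.mpr (sub_ne_zero.mpr hne)
  have hid := disc_id x w
  have hw2 := norm_sq_le_one hw
  have hup := norm_one_sub_le hx hw
  have hup2 : ‖1 - (x:ℂ) * w‖^2 ≤ (1+x)^2 := pow_le_pow_left₀ hp.le hup 2
  have h1 : Real.log (‖(x:ℂ) - w‖^2 / ‖1 - (x:ℂ) * w‖^2)
      ≤ ‖(x:ℂ) - w‖^2 / ‖1 - (x:ℂ) * w‖^2 - 1 :=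
    Real.log_le_sub_one_of_pos (by positivity)
  rw [Real.log_div (by positivity) (by positivity)] at h1
  have h2 : ‖(x:ℂ) - w‖^2 / ‖1 - (x:ℂ) * w‖^2 - 1
      = - ((1 - x^2)*(1 - ‖w‖^2) / ‖1 - (x:ℂ) * w‖^2) := by
    have : ‖(x:ℂ) - w‖^2 = ‖1 - (x:ℂ) * w‖^2 - (1 - x^2)*(1 - ‖w‖^2) := by linarith
    rw [this]
    field_simp
    ring
  have h3 : (1/2) * (1 - ‖w‖^2) ≤ (1 - x^2)*(1 - ‖w‖^2) / ‖1 - (x:ℂ) * w‖^2 := by
    rw [le_div_iff₀ (by positivity)]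
    have h4 : (1/2) * (1 + x)^2 ≤ 1 - x^2 := by nlinarith
    have h5 : 0 ≤ 1 - ‖w‖^2 := by linarith
    calc (1/2) * (1 - ‖w‖^2) * ‖1 - (x:ℂ) * w‖^2 ≤ (1/2) * (1 - ‖w‖^2) * (1+x)^2 :=
          mul_le_mul_of_nonneg_left hup2 (by linarith)
      _ = ((1/2) * (1 + x)^2) * (1 - ‖w‖^2) := by ring
      _ ≤ (1 - x^2) * (1 - ‖w‖^2) := mul_le_mul_of_nonneg_right h4 h5
  have e1 := log_sq' ‖1 - (x:ℂ) * w‖
  have e2 := log_sq' ‖(x:ℂ) - w‖
  rw [e1, e2]
  linarith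

/-- single zero not in the small disc, pointwise upper bound -/
lemma term_upper {x : ℝ} (hx : 0 ≤ x) (hx1 : x ≤ 1/4) {w : ℂ} (hw : ‖w‖ ≤ 1)
    (hw' : 1/2 ≤ ‖w‖) :
    Real.log ‖1 - (x:ℂ) * w‖ - Real.log ‖(x:ℂ) - w‖ ≤ 8 * (1 - ‖w‖^2) := by
  have hp := norm_one_sub_pos hx (by linarith) hw
  have hq' : 1/4 ≤ ‖(x:ℂ) - w‖ := by
    have h := norm_sub_norm_le w (x:ℂ)
    rw [Complex.norm_real, Real.norm_of_nonneg hx, norm_sub_rev] at h
    linarith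
  have hq : 0 < ‖(x:ℂ) - w‖ := by linarith
  have hid := disc_id x w
  have hw2 := norm_sq_le_one hw
  have h1 : Real.log (‖1 - (x:ℂ) * w‖^2 / ‖(x:ℂ) - w‖^2)
      ≤ ‖1 - (x:ℂ) * w‖^2 / ‖(x:ℂ) - w‖^2 - 1 :=
    Real.log_le_sub_one_of_pos (by positivity)
  rw [Real.log_div (by positivity) (by positivity)] at h1
  have h2 : ‖1 - (x:ℂ) * w‖^2 / ‖(x:ℂ) - w‖^2 - 1
      = (1 - x^2)*(1 - ‖w‖^2) / ‖(x:ℂ) - w‖^2 := by
    rw [hid]
    field_simp
    ring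
  have h3 : (1 - x^2)*(1 - ‖w‖^2) / ‖(x:ℂ) - w‖^2 ≤ 16 * (1 - ‖w‖^2) := by
    rw [div_le_iff₀ (by positivity)]
    have h4 : (1/4)^2 ≤ ‖(x:ℂ) - w‖^2 := pow_le_pow_left₀ (by norm_num) hq' 2
    have h5 : 0 ≤ 1 - ‖w‖^2 := by linarith
    have h6 : (1 - x^2)*(1 - ‖w‖^2) ≤ 1 - ‖w‖^2 := by nlinarith [sq_nonneg x]
    nlinarith
  have e1 := log_sq' ‖1 - (x:ℂ) * w‖
  have e2 := log_sq' ‖(x:ℂ) - w‖
  rw [e1, e2]
  linarith

/-- `∫ log|x-r|` over `[h,2h]` is bounded below -/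
lemma int_log_lower {h r : ℝ} (hh : 0 < h) (hh1 : h ≤ 1/8) (hr : |r| ≤ 1/2) :
    -(2 + h) ≤ ∫ x in h..(2*h), Real.log (x - r) := by
  rw [intervalIntegral.integral_comp_sub_right (fun x => Real.log x) r, integral_log]
  have hb : ∀ t : ℝ, |t| ≤ 1 → |t * Real.log t| ≤ 1 := by
    intro t ht
    rcases eq_or_ne t 0 with h0 | h0
    · simp [h0]
    · have h1 : 0 < |t| := abs_pos.mpr h0
      have h2 := Real.abs_log_mul_self_lt |t| h1 ht
      rw [Real.log_abs, abs_mul, abs_abs] at h2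
      rw [abs_mul, mul_comm]
      exact h2.le
  have hr' := abs_le.mp hr
  have h1 := hb (2*h - r) (by rw [abs_le]; constructor <;> linarith)
  have h2 := hb (h - r) (by rw [abs_le]; constructor <;> linarith)
  have h1' := abs_le.mp h1
  have h2' := abs_le.mp h2
  linarith

/-- average bound for a single zero -/
lemma term_int {h : ℝ} (hh : 0 < h) (hh1 : h ≤ 1/8) {w : ℂ} (hw : ‖w‖ ≤ 1)
    (hne : ∀ x : ℝ, x ∈ Set.Icc h (2*h) → (x:ℂ) ≠ w) :
    ∫ x in h..(2*h), (Real.log ‖1 - (x:ℂ) * w‖ - Real.log ‖(x:ℂ) - w‖) ≤ 4 * (1 - ‖w‖^2) := by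
  have hle : h ≤ 2*h := by linarith
  have hw2 := norm_sq_le_one hw
  have c1 : ContinuousOn (fun x : ℝ => Real.log ‖1 - (x:ℂ) * w‖) (Set.Icc h (2*h)) := by
    apply ContinuousOn.log
    · fun_prop
    · intro x hx
      exact (norm_one_sub_pos (by linarith [hx.1]) (by linarith [hx.2]) hw).ne'
  have c2 : ContinuousOn (fun x : ℝ => Real.log ‖(x:ℂ) - w‖) (Set.Icc h (2*h)) := by
    apply ContinuousOn.log
    · fun_prop
    · intro x hx
      exact (norm_pos_iff.mpr (sub_ne_zero.mpr (hne x hx))).ne'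
  have i1 := c1.intervalIntegrable_of_Icc (μ := volume) hle
  have i2 := c2.intervalIntegrable_of_Icc (μ := volume) hle
  by_cases hw' : 1/2 ≤ ‖w‖
  · have h1 : ∫ x in h..(2*h), (Real.log ‖1 - (x:ℂ) * w‖ - Real.log ‖(x:ℂ) - w‖)
        ≤ ∫ x in h..(2*h), (8 * (1 - ‖w‖^2)) := by
      apply intervalIntegral.integral_mono_on hle (i1.sub i2) (by simp)
      intro x hx
      exact term_upper (by linarith [hx.1]) (by linarith [hx.2]) hw hw'
    rw [intervalIntegral.integral_const, smul_eq_mul] at h1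
    nlinarith
  · push Not at hw'
    rw [intervalIntegral.integral_sub i1 i2]
    have h1 : ∫ x in h..(2*h), Real.log ‖1 - (x:ℂ) * w‖ ≤ ∫ x in h..(2*h), (1/4:ℝ) := by
      apply intervalIntegral.integral_mono_on hle i1 (by simp)
      intro x hx
      have h2 := Real.log_le_sub_one_of_pos
        (norm_one_sub_pos (x := x) (by linarith [hx.1]) (by linarith [hx.2]) hw)
      have h3 := norm_one_sub_le (x := x) (by linarith [hx.1]) hw
      have := hx.2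
      linarith
    rw [intervalIntegral.integral_const, smul_eq_mul] at h1
    have hr : |w.re| ≤ 1/2 := (Complex.abs_re_le_norm w).trans hw'.le
    have h4 := int_log_lower hh hh1 hr
    have h5 : ∫ x in h..(2*h), Real.log (x - w.re) ≤ ∫ x in h..(2*h), Real.log ‖(x:ℂ) - w‖ := by
      have i3 : IntervalIntegrable (fun x => Real.log (x - w.re)) volume h (2*h) := by
        have := (intervalIntegral.intervalIntegrable_log' (a := h - w.re)
          (b := 2*h - w.re)).comp_sub_right w.re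
        simpa using this
      apply intervalIntegral.integral_mono_ae hle i3 i2
      have hae : ∀ᵐ x : ℝ, x ≠ w.re := by
        rw [ae_iff]
        simp
      filter_upwards [hae] with x hx
      have h6 : |x - w.re| ≤ ‖(x:ℂ) - w‖ := by
        have := Complex.abs_re_le_norm ((x:ℂ) - w)
        simpa using this
      have h7 : 0 < |x - w.re| := abs_pos.mpr (sub_ne_zero.mpr hx)
      rw [← Real.log_abs (x - w.re)]
      exact Real.log_le_log h7 h6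
    have h8 : ‖w‖^2 ≤ 1/4 := by nlinarith [norm_nonneg w]
    linarith

/-- existence of a good point -/
lemma exists_good {k : ℕ} (w : Fin k → ℂ) (hw : ∀ j, ‖w j‖ ≤ 1) {h : ℝ} (hh : 0 < h)
    (hh1 : h ≤ 1/8) (hne : ∀ x : ℝ, x ∈ Set.Icc h (2*h) → ∀ j, (x:ℂ) ≠ w j) :
    ∃ x ∈ Set.Icc h (2*h), ∑ j, (Real.log ‖1 - (x:ℂ) * w j‖ - Real.log ‖(x:ℂ) - w j‖)
      ≤ (4/h) * ∑ j, (1 - ‖w j‖^2) := by
  by_contra hcon
  push Not at hcon
  have hle : h ≤ 2*h := by linarith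
  have hc : ∀ j, ContinuousOn (fun x : ℝ => Real.log ‖1 - (x:ℂ) * w j‖
      - Real.log ‖(x:ℂ) - w j‖) (Set.Icc h (2*h)) := by
    intro j
    apply ContinuousOn.sub
    · apply ContinuousOn.log
      · fun_prop
      · intro x hx
        exact (norm_one_sub_pos (by linarith [hx.1]) (by linarith [hx.2]) (hw j)).ne'
    · apply ContinuousOn.log
      · fun_prop
      · intro x hx
        exact (norm_pos_iff.mpr (sub_ne_zero.mpr (hne x hx j))).ne'
  have h1 : ∫ x in h..(2*h), ∑ j, (Real.log ‖1 - (x:ℂ) * w j‖ - Real.log ‖(x:ℂ) - w j‖)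
      ≤ ∑ j, 4 * (1 - ‖w j‖^2) := by
    rw [intervalIntegral.integral_finsetSum
      (fun j _ => (hc j).intervalIntegrable_of_Icc (μ := volume) hle)]
    apply Finset.sum_le_sum
    intro j _
    exact term_int hh hh1 (hw j) (fun x hx => hne x hx j)
  have h2 : ∫ x in h..(2*h), ((4/h) * ∑ j, (1 - ‖w j‖^2))
      < ∫ x in h..(2*h), ∑ j, (Real.log ‖1 - (x:ℂ) * w j‖ - Real.log ‖(x:ℂ) - w j‖) := by
    apply intervalIntegral.integral_lt_integral_of_continuousOn_of_le_of_exists_lt (by linarith)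
      continuousOn_const
    · apply continuousOn_finsetSum
      intro j _
      exact hc j
    · intro x hx
      exact (hcon x ⟨hx.1.le, hx.2⟩).le
    · exact ⟨h, ⟨le_rfl, hle⟩, hcon h ⟨le_rfl, hle⟩⟩
  rw [intervalIntegral.integral_const, smul_eq_mul] at h2
  rw [← Finset.mul_sum] at h1
  have h3 : (2*h - h) * ((4/h) * ∑ j, (1 - ‖w j‖^2)) = 4 * ∑ j, (1 - ‖w j‖^2) := by
    field_simp
    ring
  linarith

/-- upper bound for a single critical point -/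
lemma crit_upper {x : ℝ} (hx : 0 ≤ x) (hx1 : x < 1) {z : ℂ} (hz : ‖z‖ ≤ 1) :
    Real.log ‖1 - (x:ℂ) * z‖ ≤ -x * z.re + x^2/2 := by
  have hp := norm_one_sub_pos hx hx1 hz
  have h1 := Real.log_le_sub_one_of_pos (show 0 < ‖1 - (x:ℂ) * z‖^2 by positivity)
  have e := log_sq' ‖1 - (x:ℂ) * z‖
  rw [e]
  rw [nsq_one_sub] at h1 ⊢
  have h2 := norm_sq_le_one hz
  rw [nsq] at h2
  nlinarith [mul_le_mul_of_nonneg_left h2 (sq_nonneg x)]

/-- lower bound for a single critical point -/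
lemma crit_lower {x : ℝ} (hx : 0 ≤ x) (hx1 : x ≤ 1/6) {z : ℂ} (hz : ‖z‖ ≤ 1) :
    -2*x*z.re + x^2*(‖z‖^2 - 2*z.re^2) - 60*x^3 ≤ 2 * Real.log ‖1 - (x:ℂ) * z‖ := by
  have hz2 := norm_sq_le_one hz
  set X := z.re with hX
  set N := ‖z‖^2 with hN
  have hNn : N = X^2 + z.im^2 := nsq z
  have hX2 : X^2 ≤ N := by nlinarith [sq_nonneg z.im]
  have hN0 : 0 ≤ N := by positivity
  have hXa : |X| ≤ 1 := by
    rw [abs_le]; constructor <;> nlinarith
  have hXb := abs_le.mp hXa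
  set y : ℝ := -2*x*X + x^2*N with hy
  have hyeq : ‖1 - (x:ℂ) * z‖^2 = 1 + y := by
    rw [nsq_one_sub, hy, hNn]; ring
  have hya : |y| ≤ 3*x := by
    rw [abs_le]
    constructor <;> nlinarith [mul_nonneg hx hx, mul_nonneg (mul_nonneg hx hx) hN0]
  have hy1 : |y| ≤ 1/2 := by linarith
  have hlog := Real.abs_log_sub_add_sum_range_le (x := -y) (by rw [abs_neg]; linarith) 2
  rw [abs_neg] at hlog
  have h1 : (∑ i ∈ Finset.range 2, (-y)^(i+1)/((i:ℝ)+1)) = -y + y^2/2 := by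
    simp [Finset.sum_range_succ]
    ring
  rw [h1, sub_neg_eq_add] at hlog
  have h2 : |y|^(2+1)/(1 - |y|) ≤ 2*|y|^3 := by
    rw [div_le_iff₀ (by linarith)]
    have h0 : 0 ≤ |y|^3 := by positivity
    have h0' : |y|^(2+1) = |y|^3 := by norm_num
    rw [h0']
    nlinarith [mul_nonneg h0 (show 0 ≤ 1 - 2*|y| by linarith)]
  have h3 : |y|^3 ≤ (3*x)^3 := pow_le_pow_left₀ (abs_nonneg _) hya 3
  have h4 := (abs_le.mp (hlog.trans h2)).1
  have h5 : y^2/2 ≤ 2*x^2*X^2 + 3*x^3 := by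
    have : y^2/2 = 2*x^2*X^2 - 2*x^3*(X*N) + x^4*N^2/2 := by rw [hy]; ring
    rw [this]
    have h6 : -(X*N) ≤ 1 := by nlinarith
    have h7 : x^4*N^2/2 ≤ x^3 := by
      have : N^2 ≤ 1 := by nlinarith
      have hx3 : 0 ≤ x^3 := by positivity
      have : x^4 * N^2 ≤ x^4 * 1 := mul_le_mul_of_nonneg_left this (by positivity)
      nlinarith
    have hx3 : 0 ≤ x^3 := by positivity
    nlinarith [mul_le_mul_of_nonneg_left h6 hx3]
  have h8 : 2 * Real.log ‖1 - (x:ℂ) * z‖ = Real.log (1 + y) := by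
    rw [← hyeq, Real.log_pow]; push_cast; ring
  rw [h8]
  have hx3 : 0 ≤ x^3 := by positivity
  nlinarith

/-- distance defect of a critical point -/
noncomputable def tau (a : ℝ) (z : ℂ) : ℝ := ‖(a:ℂ) - z‖^2 - 1

lemma tau_ineq {a : ℝ} (ha : 0 < a) (ha1 : a < 1) {z : ℂ} (hz : ‖z‖ ≤ 1) :
    (1 - a) + (2 - a)*z.re - (3/a)*|tau a z| ≤ ‖z‖^2 - 2*z.re^2 := by
  have hz2 := norm_sq_le_one hz
  have hX : |z.re| ≤ 1 := (Complex.abs_re_le_norm z).trans hz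
  have hXb := abs_le.mp hX
  have ht : tau a z = ‖z‖^2 - 2*a*z.re + a^2 - 1 := by
    unfold tau; rw [nsq_sub_real, nsq]; ring
  set X := z.re with hXdef
  set N := ‖z‖^2 with hN
  set t := tau a z with htdef
  have hta : -1 ≤ t := by rw [htdef]; unfold tau; nlinarith [sq_nonneg ‖(a:ℂ) - z‖]
  have hq1 : (a/2 - X) = (1 - N + t)/(2*a) := by
    rw [ht]; field_simp; ring
  have hq2 : -(t/2) ≤ X + 1 - a := by
    have h1 : (a - X)^2 ≤ 1 + t := by
      have : 1 + t = (a - X)^2 + z.im^2 := by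
        rw [htdef]; unfold tau; rw [nsq_sub_real]; ring
      nlinarith [sq_nonneg z.im]
    nlinarith [sq_nonneg (t/2)]
  have hinv : 1 ≤ 1/a := by rw [le_div_iff₀ ha]; linarith
  have hprod : -(|t|/a) ≤ (a/2 - X)*(X + 1 - a) := by
    rcases le_total 0 t with h0 | h0
    · rw [abs_of_nonneg h0]
      have h1 : 0 ≤ a/2 - X := by
        rw [hq1]; apply div_nonneg <;> linarith
      have h2 : a/2 - X ≤ 2 := by linarith
      have h3 : t ≤ t/a := by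
        rw [le_div_iff₀ ha]; nlinarith
      have h4 : (a/2 - X) * (-(t/2)) ≤ (a/2 - X)*(X + 1 - a) := mul_le_mul_of_nonneg_left hq2 h1
      nlinarith
    · rw [abs_of_nonpos h0]
      have h1 : t/(2*a) ≤ a/2 - X := by
        rw [hq1]; apply div_le_div_of_nonneg_right _ (by linarith); linarith
      have h2 : 0 ≤ X + 1 - a := by linarith
      have h3 : X + 1 - a ≤ 2 := by linarith
      have h4 : t/(2*a) * (X + 1 - a) ≤ (a/2 - X)*(X + 1 - a) := mul_le_mul_of_nonneg_right h1 h2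
      have h5 : t/(2*a) ≤ 0 := div_nonpos_of_nonpos_of_nonneg h0 (by linarith)
      have h6 : t/(2*a) * 2 ≤ t/(2*a) * (X + 1 - a) := mul_le_mul_of_nonpos_left h3 h5
      have h7 : t/(2*a)*2 = t/a := by field_simp
      have h8 : -(-t/a) = t/a := by ring
      rw [h8]
      linarith
  have h9 : N - 2*X^2 = (1 - a) + (2 - a)*X + t + 2*((a/2 - X)*(X + 1 - a)) := by
    rw [ht]; ring
  have h10 : (3/a)*|t| = |t|/a + 2*(|t|/a) := by ring
  have h11 : |t| ≤ |t|/a := by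
    rw [le_div_iff₀ ha]; nlinarith [abs_nonneg t]
  have h12 := neg_abs_le t
  rw [h9, h10]
  linarith

lemma tau_log {a lam : ℝ} (ha : 0 < a) (ha1 : a < 1) (hl : 0 ≤ lam) {z : ℂ} (hz : ‖z‖ ≤ 1)
    (hd : Real.exp (-lam) ≤ ‖(a:ℂ) - z‖) :
    |tau a z| ≤ 8 * Real.log ‖(a:ℂ) - z‖ + 10*lam := by
  have hpos : 0 < ‖(a:ℂ) - z‖ := lt_of_lt_of_le (Real.exp_pos _) hd
  have h1 : Real.exp (-lam)^2 ≤ ‖(a:ℂ) - z‖^2 := pow_le_pow_left₀ (Real.exp_pos _).le hd 2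
  have h3 := exp_sq_ge lam
  have hlog : -lam ≤ Real.log ‖(a:ℂ) - z‖ := by
    rw [Real.le_log_iff_exp_le hpos]; exact hd
  have hle : ‖(a:ℂ) - z‖ ≤ 2 := by
    have h := norm_sub_le (a:ℂ) z
    have h' : ‖(a:ℂ)‖ = a := by rw [Complex.norm_real, Real.norm_of_nonneg ha.le]
    linarith
  rcases le_total 0 (tau a z) with h0 | h0
  · rw [abs_of_nonneg h0]
    have h4 : ‖(a:ℂ) - z‖^2 = 1 + tau a z := by unfold tau; ring
    have h5 := Real.one_sub_inv_le_log_of_pos (show 0 < ‖(a:ℂ) - z‖^2 by positivity)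
    rw [Real.log_pow, h4] at h5
    push_cast at h5
    have h6 : 1 + tau a z ≤ 4 := by rw [← h4]; nlinarith
    have h7 : tau a z / 4 ≤ 1 - (1 + tau a z)⁻¹ := by
      have : 1 - (1 + tau a z)⁻¹ = tau a z / (1 + tau a z) := by
        field_simp; ring
      rw [this]
      exact div_le_div_of_nonneg_left h0 (by linarith) h6
    linarith
  · rw [abs_of_nonpos h0]
    unfold tau
    linarith

end Pool.Agent.R989.Crit
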