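import Mathlib
import Pool.Agent.R989.CritB

/-!
The core argument for families of zeros and critical points (helper file for `MP_8e1908_an`).
-/

open Finset MeasureTheory

namespace Pool.Agent.R989.Crit

noncomputable section

variable {m : ℕ}

/-- `w` are the zeros and `z` the critical points of a monic polynomial of degree `m+1`. -/
def IsCrit (w : Fin (m+1) → ℂ) (z : Fin m → ℂ) : Prop :=
  ∀ b : ℂ, HasDerivAt (pf w) (((m:ℂ)+1) * pf z b) b

lemma IsCrit.rel {w : Fin (m+1) → ℂ} {z : Fin m → ℂ} (H : IsCrit w z) {b : ℂ}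
    (hb : ∀ j, b - w j ≠ 0) : ((m:ℂ)+1) * pf z b = pf w b * qf w b :=
  (H b).unique (pf_deriv w b hb)

lemma pf_inv {k : ℕ} (z : Fin k → ℂ) {x : ℝ} (hx : 0 < x) :
    ‖pf z ((1/x : ℝ) : ℂ)‖ = (∏ i, ‖1 - (x:ℂ) * z i‖) / x^k := by
  rw [norm_pf]
  have : ∀ i, ‖((1/x : ℝ) : ℂ) - z i‖ = ‖1 - (x:ℂ) * z i‖ / x := by
    intro i
    have h1 : ((1/x : ℝ) : ℂ) - z i = (1 - (x:ℂ) * z i) / x := by
      have : (x:ℂ) ≠ 0 := by exact_mod_cast hx.ne'
      push_cast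
      field_simp
    rw [h1, norm_div, Complex.norm_real, Real.norm_of_nonneg hx.le]
  simp_rw [this]
  rw [Finset.prod_div_distrib, Finset.prod_const, Finset.card_univ, Fintype.card_fin]

lemma inv_re_lower {b : ℝ} (hb : 1 < b) {w : ℂ} (hw : ‖w‖ ≤ 1) :
    1/(b+1) ≤ (((b:ℂ) - w)⁻¹).re := by
  rw [Complex.inv_re, Complex.sub_re, Complex.ofReal_re]
  have h3 : Complex.normSq ((b:ℂ) - w) = (b - w.re)^2 + w.im^2 := by
    rw [← Complex.sq_norm, nsq_sub_real]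
  rw [h3]
  have h4 : |w.re| ≤ 1 := (Complex.abs_re_le_norm w).trans hw
  have h5 := abs_le.mp h4
  have h6 := norm_sq_le_one hw
  rw [nsq] at h6
  have h7 : 0 < (b - w.re)^2 + w.im^2 := by
    have : 0 < b - w.re := by linarith
    positivity
  rw [div_le_div_iff₀ (by linarith) h7]
  nlinarith [mul_nonneg (show 0 ≤ b - 1 by linarith) (show 0 ≤ 1 + w.re by linarith)]

lemma inv_norm_upper {b : ℝ} (hb : 1 < b) {w : ℂ} (hw : ‖w‖ ≤ 1) :
    ‖((b:ℂ) - w)⁻¹‖ ≤ 1/(b-1) := by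
  rw [norm_inv, one_div]
  apply inv_anti₀ (by linarith)
  have h := norm_sub_norm_le (b:ℂ) w
  rw [Complex.norm_real, Real.norm_of_nonneg (by linarith)] at h
  linarith

/-- The two comparison inequalities between zeros and critical points. -/
lemma IsCrit.compare {w : Fin (m+1) → ℂ} {z : Fin m → ℂ} (H : IsCrit w z)
    (hw : ∀ j, ‖w j‖ ≤ 1) (hz : ∀ i, ‖z i‖ ≤ 1) {x : ℝ} (hx : 0 < x) (hx1 : x < 1) :
    (∑ j, Real.log ‖1 - (x:ℂ) * w j‖) - Real.log (1 + x) ≤ ∑ i, Real.log ‖1 - (x:ℂ) * z i‖ ∧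
    ∑ i, Real.log ‖1 - (x:ℂ) * z i‖ ≤ (∑ j, Real.log ‖1 - (x:ℂ) * w j‖) - Real.log (1 - x) := by
  set b : ℝ := 1/x with hb
  have hb1 : 1 < b := by rw [hb, lt_div_iff₀ hx]; linarith
  have hne : ∀ j, (b:ℂ) - w j ≠ 0 := by
    intro j h0
    have h := norm_sub_norm_le (b:ℂ) (w j)
    rw [h0, norm_zero, Complex.norm_real, Real.norm_of_nonneg (by linarith)] at h
    linarith [hw j]
  have hrel := H.rel hne
  have hpw : ∀ j, 0 < ‖1 - (x:ℂ) * w j‖ := fun j => norm_one_sub_pos hx.le hx1 (hw j)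
  have hpz : ∀ i, 0 < ‖1 - (x:ℂ) * z i‖ := fun i => norm_one_sub_pos hx.le hx1 (hz i)
  have hPW : 0 < ∏ j, ‖1 - (x:ℂ) * w j‖ := Finset.prod_pos (fun j _ => hpw j)
  have hPZ : 0 < ∏ i, ‖1 - (x:ℂ) * z i‖ := Finset.prod_pos (fun i _ => hpz i)
  have hm1 : (0:ℝ) < (m:ℝ) + 1 := by positivity
  have hnorm : ((m:ℝ)+1) * ((∏ i, ‖1 - (x:ℂ) * z i‖) / x^m)
      = ((∏ j, ‖1 - (x:ℂ) * w j‖) / x^(m+1)) * ‖qf w (b:ℂ)‖ := by
    rw [← pf_inv z hx, ← pf_inv w hx, ← norm_mul, ← hb, ← hrel, norm_mul]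
    congr 1
    have : ((m:ℂ)+1) = (((m:ℝ)+1 : ℝ) : ℂ) := by push_cast; rfl
    rw [this, Complex.norm_real, Real.norm_of_nonneg hm1.le]
  have hq1 : ((m:ℝ)+1) * (1/(b+1)) ≤ ‖qf w (b:ℂ)‖ := by
    refine le_trans ?_ (Complex.re_le_norm _)
    unfold qf
    rw [Complex.re_sum]
    have : ((m:ℝ)+1) * (1/(b+1)) = ∑ j : Fin (m+1), (1/(b+1)) := by
      rw [Finset.sum_const, Finset.card_univ, Fintype.card_fin, nsmul_eq_mul]; push_cast; ring
    rw [this]
    exact Finset.sum_le_sum (fun j _ => inv_re_lower hb1 (hw j))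
  have hq2 : ‖qf w (b:ℂ)‖ ≤ ((m:ℝ)+1) * (1/(b-1)) := by
    unfold qf
    refine (norm_sum_le _ _).trans ?_
    have : ((m:ℝ)+1) * (1/(b-1)) = ∑ j : Fin (m+1), (1/(b-1)) := by
      rw [Finset.sum_const, Finset.card_univ, Fintype.card_fin, nsmul_eq_mul]; push_cast; ring
    rw [this]
    exact Finset.sum_le_sum (fun j _ => inv_norm_upper hb1 (hw j))
  have hPZeq : (∏ i, ‖1 - (x:ℂ) * z i‖)
      = (∏ j, ‖1 - (x:ℂ) * w j‖) * (‖qf w (b:ℂ)‖ / (((m:ℝ)+1) * x)) := by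
    have hxm : x^m ≠ 0 := by positivity
    have h1 : (∏ i, ‖1 - (x:ℂ) * z i‖) = (((m:ℝ)+1) * ((∏ i, ‖1 - (x:ℂ) * z i‖) / x^m))
        * (x^m / ((m:ℝ)+1)) := by
      field_simp
    rw [h1, hnorm, pow_succ]
    field_simp
  have hb' : b + 1 = (1+x)/x := by rw [hb]; field_simp
  have hb'' : b - 1 = (1-x)/x := by rw [hb]; field_simp
  have hx1' : 0 < 1 - x := by linarith
  constructor
  · rw [← Real.log_prod (fun j _ => (hpw j).ne'), ← Real.log_prod (fun i _ => (hpz i).ne'),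
      ← Real.log_div hPW.ne' (by linarith)]
    apply Real.log_le_log (by positivity)
    rw [hPZeq, div_eq_mul_one_div]
    apply mul_le_mul_of_nonneg_left _ hPW.le
    rw [le_div_iff₀ (by positivity)]
    refine le_trans (le_of_eq ?_) hq1
    rw [hb']
    field_simp
  · rw [← Real.log_prod (fun j _ => (hpw j).ne'), ← Real.log_prod (fun i _ => (hpz i).ne'),
      ← Real.log_div hPW.ne' (by linarith)]
    apply Real.log_le_log hPZ
    rw [hPZeq, div_eq_mul_one_div (∏ j, ‖1 - (x:ℂ) * w j‖) (1 - x)]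
    apply mul_le_mul_of_nonneg_left _ hPW.le
    rw [div_le_iff₀ (by positivity)]
    refine hq2.trans (le_of_eq ?_)
    rw [hb'']
    field_simp

/-- The largeness conditions on the number of critical points. -/
structure Big (a y : ℝ) (m : ℕ) : Prop where
  pos : 0 < m
  c1 : (65536/a^4) * (64/(3*a)) / m + (32/a) * Real.exp (-((m:ℝ) * (3*a^2/256))) ≤ 1/4
  c2 : Real.exp (-((m:ℝ) * (a*y/64))) ≤ 1/(8*m)
  c3 : Real.log 8 ≤ m * y^2
  c4 : Real.log ((m:ℝ)+1) ≤ m * y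
  c5 : 1 ≤ m * y^2

/-- smallness conditions on `h` and `y` -/
structure Small (a h y lam : ℝ) : Prop where
  hh : 0 < h
  h1 : h ≤ 3*a/8
  h2 : h ≤ 1/12
  h3 : h ≤ (1-a)/240
  hy : 0 < y
  yh : y ≤ h
  ya : y ≤ a/4
  yl : lam ≤ y^2
  hc : y * (18 + 128/h + 102/a) < h^2*(1-a)/2

/-- the numerical part -/
theorem numeric {a h y lam m A SS M1 T x LWy LZy Uy LWx LZx Ux : ℝ} (ha0 : 0 < a) (ha1 : a < 1)
    (hmpos : 0 < m) (hm1 : 1 ≤ m) (hl0 : 0 ≤ lam) (S : Small a h y lam)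
    (hc3 : Real.log 8 ≤ m * y^2) (hc4 : Real.log (m+1) ≤ m * y) (hc5 : 1 ≤ m * y^2)
    (hxy : y ≤ x) (hhx : h ≤ x) (hx2h : x ≤ 2*h) (hx16 : x ≤ 1/6)
    (F1 : A - Real.log 8 ≤ Uy) (F2 : Ux ≤ A + Real.log (m+1)) (h0 : 0 ≤ SS)
    (F3 : -(m*lam) ≤ A) (F4 : (1/4)*SS ≤ LWy - Uy) (F4' : LWy ≤ (m+1)*y)
    (F5y : LWy - Real.log (1+y) ≤ LZy) (F6 : LWx ≤ Ux + (4/h)*SS)
    (F5x : LZx ≤ LWx - Real.log (1-x)) (F7 : LZy ≤ -y*M1 + m*y^2/2)
    (F8 : -2*x*M1 + x^2*((1-a)*m + (2-a)*M1 - (3/a)*T) - 60*x^3*m ≤ 2*LZx)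
    (F9 : T ≤ 8*A + 10*(m*lam)) : False := by
  have hh := S.hh
  have hy0 := S.hy
  have hx0 : 0 < x := lt_of_lt_of_le hy0 hxy
  have hy1 : y ≤ 1/12 := S.yh.trans S.h2
  have hmy : 0 < m * y := mul_pos hmpos hy0
  have hmy2' : m * y^2 ≤ (1/12)*(m*y) := by
    have e : m * y^2 = y*(m*y) := by ring
    rw [e]
    exact mul_le_mul_of_nonneg_right hy1 hmy.le
  have hmy2 : m * y^2 ≤ m * y := by linarith
  have hmlam : m * lam ≤ m * y^2 := mul_le_mul_of_nonneg_left S.yl hmpos.le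
  have hyle : y ≤ m * y := by nlinarith only [hm1, hy0]
  have hlogy : Real.log (1 + y) ≤ y := by
    have := Real.log_le_sub_one_of_pos (show 0 < 1 + y by linarith); linarith
  have e2y : (m+1) * y = m*y + y := by ring
  have n1 : A ≤ 3*(m*y) := by linarith
  have n2 : SS ≤ 16*(m*y) := by linarith
  have n3 : y*M1 ≤ y*(4*(m*y)) := by
    have h3 : Uy ≤ LWy := by linarith
    have h4 : y*M1 ≤ m*y^2/2 + m*lam + Real.log 8 + y := by linarith
    have h5 : y ≤ m*y^2 := by linarith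
    have h6 : y*(4*(m*y)) = 4*(m*y^2) := by ring
    rw [h6]
    linarith
  have n3' : M1 ≤ 4*(m*y) := le_of_mul_le_mul_left n3 hy0
  have n4 : T ≤ 34*(m*y) := by linarith
  have hlogx : -Real.log (1 - x) ≤ 2*x := by
    have h1 := Real.one_sub_inv_le_log_of_pos (show 0 < 1 - x by linarith)
    have h2 : (1-x)⁻¹ ≤ 1 + 2*x := by
      rw [inv_le_iff_one_le_mul₀ (by linarith)]
      nlinarith only [hx16, hx0]
    linarith
  have n5 : LZx ≤ (5 + 64/h)*(m*y) := by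
    have h2 : (4/h) * SS ≤ (4/h) * (16*(m*y)) := mul_le_mul_of_nonneg_left n2 (by positivity)
    have h3 : (4/h) * (16*(m*y)) = (64/h)*(m*y) := by ring
    have h4 : (5 + 64/h)*(m*y) = 5*(m*y) + (64/h)*(m*y) := by ring
    rw [h4]
    have h5 : 2*x ≤ m*y := by linarith
    linarith
  have hxsq : 0 < x^2 := by positivity
  have n6 : M1 * (2*x - x^2*(2-a)) ≤ 8*(m*y) := by
    have h1 : 0 ≤ 2*x - x^2*(2-a) := by
      have e : 2*x - x^2*(2-a) = x*(2*(1-x) + x*a) := by ring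
      rw [e]
      have : 0 ≤ x*a := by positivity
      exact mul_nonneg hx0.le (by linarith)
    have h2 : 2*x - x^2*(2-a) ≤ 2*x := by
      have : 0 ≤ x^2*(2-a) := mul_nonneg hxsq.le (by linarith)
      linarith
    have h3 : M1 * (2*x - x^2*(2-a)) ≤ (4*(m*y)) * (2*x - x^2*(2-a)) :=
      mul_le_mul_of_nonneg_right n3' h1
    have h4 : (4*(m*y)) * (2*x - x^2*(2-a)) ≤ (4*(m*y)) * 2 :=
      mul_le_mul_of_nonneg_left (by linarith) (by positivity)
    linarith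
  have n7 : x^2*((3/a)*T) ≤ (102/a)*(m*y) := by
    have h1 : (3/a)*T ≤ (3/a)*(34*(m*y)) := mul_le_mul_of_nonneg_left n4 (by positivity)
    have h2 : (3/a)*(34*(m*y)) = (102/a)*(m*y) := by ring
    have h3 : 0 ≤ (102/a)*(m*y) := by positivity
    have h4 : x^2 ≤ 1 := by nlinarith only [hx0, hx16]
    calc x^2*((3/a)*T) ≤ x^2*((102/a)*(m*y)) := by
          rw [← h2]; exact mul_le_mul_of_nonneg_left h1 hxsq.le
      _ ≤ 1*((102/a)*(m*y)) := mul_le_mul_of_nonneg_right h4 h3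
      _ = _ := one_mul _
  have n8 : 60*x^3*m ≤ x^2*(1-a)/2*m := by
    have h1 : 60*x ≤ (1-a)/2 := by linarith [S.h3]
    have h2 : 60*x^3 ≤ x^2*(1-a)/2 := by
      have e : 60*x^3 = x^2*(60*x) := by ring
      have e' : x^2*(1-a)/2 = x^2*((1-a)/2) := by ring
      rw [e, e']
      exact mul_le_mul_of_nonneg_left h1 hxsq.le
    exact mul_le_mul_of_nonneg_right h2 hmpos.le
  have n9 : x^2*(1-a)/2*m ≤ (18 + 128/h + 102/a)*(m*y) := by
    have e1 : x^2*((1-a)*m + (2-a)*M1 - (3/a)*T)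
        = x^2*(1-a)*m + x^2*(2-a)*M1 - x^2*((3/a)*T) := by ring
    rw [e1] at F8
    have e2 : M1 * (2*x - x^2*(2-a)) = 2*x*M1 - x^2*(2-a)*M1 := by ring
    rw [e2] at n6
    have e3 : (18 + 128/h + 102/a)*(m*y) = 8*(m*y) + 2*((5+64/h)*(m*y)) + (102/a)*(m*y) := by
      ring
    rw [e3]
    linarith
  have n10 : h^2*(1-a)/2 ≤ x^2*(1-a)/2 := by
    have h1 : h^2 ≤ x^2 := pow_le_pow_left₀ hh.le hhx 2
    have h2 : 0 ≤ (1-a)/2 := by linarith
    have h3 := mul_le_mul_of_nonneg_right h1 h2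
    linarith
  have n11 : h^2*(1-a)/2*m ≤ (18 + 128/h + 102/a)*y*m := by
    have h1 := mul_le_mul_of_nonneg_right n10 hmpos.le
    have h2 : (18 + 128/h + 102/a)*(m*y) = (18 + 128/h + 102/a)*y*m := by ring
    linarith
  have n12 := le_of_mul_le_mul_right n11 hmpos
  have := S.hc
  linarith

/-- Core contradiction. -/
theorem core {a h y lam : ℝ} {w : Fin (m+1) → ℂ} {z : Fin m → ℂ} (H : Far a lam z)
    (C : IsCrit w z) (hw : ∀ j, ‖w j‖ ≤ 1) (hwa : ∃ j, w j = (a:ℂ)) (B : Big a y m)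
    (S : Small a h y lam) : False := by
  have ha0 := H.a0
  have ha1 := H.a1
  have hl0 := H.l0
  have hh := S.hh
  have hy0 := S.hy
  have hmpos : (0:ℝ) < m := by exact_mod_cast B.pos
  have hm1 : (1:ℝ) ≤ m := by exact_mod_cast B.pos
  have hlam4 : 4*lam/a ≤ y := by
    rw [div_le_iff₀ ha0]
    nlinarith [S.yl, S.ya]
  -- the antiderivative
  let F : ℝ → ℂ := fun s => pf w s / ((m:ℂ)+1)
  have hm1c : ((m:ℂ)+1) ≠ 0 := by exact_mod_cast Nat.succ_ne_zero m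
  have hF : ∀ s : ℝ, HasDerivAt F (pf z (s:ℂ)) s := by
    intro s
    have h1 := ((C (s:ℂ)).comp_ofReal).div_const ((m:ℂ)+1)
    convert! h1 using 1
    field_simp
  have hFa : F a = 0 := by
    obtain ⟨j, hj⟩ := hwa
    have : pf w (a:ℂ) = 0 := by
      unfold pf
      apply Finset.prod_eq_zero (Finset.mem_univ j)
      rw [hj, sub_self]
    simp [F, this]
  have hFn : ∀ s : ℝ, ‖F s‖ = ‖pf w s‖ / ((m:ℝ)+1) := by
    intro s
    simp only [F]
    rw [norm_div]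
    congr 1
    have : ((m:ℂ)+1) = (((m:ℝ)+1 : ℝ) : ℂ) := by push_cast; rfl
    rw [this, Complex.norm_real, Real.norm_of_nonneg (by positivity)]
  have hpa : 0 < ‖pf z a‖ := by
    rw [norm_pf]
    exact Finset.prod_pos (fun i _ => lt_of_lt_of_le (Real.exp_pos _) (H.far i))
  -- (F1)
  have f1 : ∀ x, y ≤ x → x ≤ 3*a/4 → ‖pf z a‖ / 8 ≤ ‖pf w x‖ := by
    intro x h1 h2
    have h3 := H.lower B.pos F hF hFa hlam4 hy0 B.c1 B.c2 h1 h2
    rw [hFn, div_le_div_iff₀ (by positivity) (by positivity)] at h3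
    have h4 : ‖pf z a‖ * m ≤ ‖pf z a‖ * ((m:ℝ)+1) :=
      mul_le_mul_of_nonneg_left (by linarith) hpa.le
    rw [div_le_iff₀ (by norm_num)]
    have h5 : ‖pf z a‖ * m ≤ (‖pf w x‖ * 8) * m := by nlinarith
    exact le_of_mul_le_mul_right h5 hmpos
  -- (F2)
  have f2 : ∀ x, y ≤ x → x ≤ a → ‖pf w x‖ ≤ ((m:ℝ)+1) * ‖pf z a‖ := by
    intro x h1 h2
    have h3 := H.upper F hF hFa (hlam4.trans h1) (hy0.le.trans h1) h2
    rw [hFn, div_le_iff₀ (by positivity)] at h3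
    linarith
  have hwne : ∀ x : ℝ, y ≤ x → x ≤ 3*a/4 → ∀ j, (x:ℂ) ≠ w j := by
    intro x h1 h2 j hj
    have h3 := f1 x h1 h2
    have : pf w (x:ℂ) = 0 := by
      unfold pf
      apply Finset.prod_eq_zero (Finset.mem_univ j)
      rw [hj, sub_self]
    rw [this, norm_zero] at h3
    linarith
  set A : ℝ := ∑ i, Real.log ‖(a:ℂ) - z i‖ with hA
  have hAeq : Real.log ‖pf z a‖ = A := by
    rw [norm_pf, Real.log_prod]
    intro i _
    exact (lt_of_lt_of_le (Real.exp_pos _) (H.far i)).ne'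
  set U : ℝ → ℝ := fun x => ∑ j, Real.log ‖(x:ℂ) - w j‖ with hU
  have hUeq : ∀ x : ℝ, y ≤ x → x ≤ 3*a/4 → Real.log ‖pf w x‖ = U x := by
    intro x h1 h2
    rw [norm_pf, Real.log_prod]
    intro j _
    exact (norm_pos_iff.mpr (sub_ne_zero.mpr (hwne x h1 h2 j))).ne'
  have F1 : ∀ x, y ≤ x → x ≤ 3*a/4 → A - Real.log 8 ≤ U x := by
    intro x h1 h2
    rw [← hUeq x h1 h2, ← hAeq, ← Real.log_div hpa.ne' (by norm_num)]
    exact Real.log_le_log (by positivity) (f1 x h1 h2)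
  have F2 : ∀ x, y ≤ x → x ≤ 3*a/4 → U x ≤ A + Real.log ((m:ℝ)+1) := by
    intro x h1 h2
    rw [← hUeq x h1 h2, ← hAeq, add_comm (Real.log ‖pf z a‖), ← Real.log_mul (by positivity) hpa.ne']
    have h3 := f1 x h1 h2
    exact Real.log_le_log (by linarith) (f2 x h1 (by linarith))
  have F3 : -(m * lam) ≤ A := by
    have : -(m * lam) = ∑ i : Fin m, (-lam) := by
      rw [Finset.sum_const, Finset.card_univ, Fintype.card_fin, nsmul_eq_mul]; ring
    rw [this]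
    apply Finset.sum_le_sum
    intro i _
    rw [Real.le_log_iff_exp_le (lt_of_lt_of_le (Real.exp_pos _) (H.far i))]
    exact H.far i
  set LW : ℝ → ℝ := fun x => ∑ j, Real.log ‖1 - (x:ℂ) * w j‖ with hLW
  set LZ : ℝ → ℝ := fun x => ∑ i, Real.log ‖1 - (x:ℂ) * z i‖ with hLZ
  set SS : ℝ := ∑ j, (1 - ‖w j‖^2) with hSS
  have hya : y ≤ 3*a/4 := by linarith [S.ya]
  have hy13 : y ≤ 1/3 := by linarith [S.yh, S.h2]
  have F4 : (1/4) * SS ≤ LW y - U y := by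
    rw [hSS, Finset.mul_sum, hLW, hU]
    simp only
    rw [← Finset.sum_sub_distrib]
    apply Finset.sum_le_sum
    intro j _
    exact term_lower hy0.le hy13 (hw j) (hwne y le_rfl hya j)
  have F4' : LW y ≤ ((m:ℝ)+1) * y := by
    have : ((m:ℝ)+1) * y = ∑ j : Fin (m+1), y := by
      rw [Finset.sum_const, Finset.card_univ, Fintype.card_fin, nsmul_eq_mul]; push_cast; ring
    rw [this]
    apply Finset.sum_le_sum
    intro j _
    have h2 := Real.log_le_sub_one_of_pos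
      (norm_one_sub_pos (x := y) hy0.le (by linarith) (hw j))
    have h3 := norm_one_sub_le (x := y) hy0.le (hw j)
    linarith
  have F5y := (C.compare hw H.z1 hy0 (by linarith : y < 1)).1
  -- a good point
  obtain ⟨x, hx, hgood⟩ := exists_good w hw hh (by linarith [S.h2])
    (fun x hx j => hwne x (S.yh.trans hx.1) (by linarith [hx.2, S.h1]) j)
  rw [Finset.sum_sub_distrib] at hgood
  have hxy : y ≤ x := S.yh.trans hx.1
  have hxa : x ≤ 3*a/4 := by linarith [hx.2, S.h1]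
  have hx16 : x ≤ 1/6 := by linarith [hx.2, S.h2]
  have hx0 : 0 < x := by linarith [hx.1]
  have F6 : LW x ≤ U x + (4/h) * SS := by
    simp only [hLW, hU]; linarith
  have F5x := (C.compare hw H.z1 hx0 (by linarith : x < 1)).2
  set M1 : ℝ := ∑ i, (z i).re with hM1
  have F7 : LZ y ≤ -y * M1 + m * y^2/2 := by
    have : -y * M1 + m * y^2/2 = ∑ i : Fin m, (-y * (z i).re + y^2/2) := by
      rw [Finset.sum_add_distrib, Finset.sum_const, Finset.card_univ, Fintype.card_fin,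
        nsmul_eq_mul, ← Finset.mul_sum]; ring
    rw [this]
    apply Finset.sum_le_sum
    intro i _
    exact crit_upper hy0.le (by linarith) (H.z1 i)
  set T : ℝ := ∑ i, |tau a (z i)| with hT
  have F8 : -2*x*M1 + x^2*((1-a)*m + (2-a)*M1 - (3/a)*T) - 60*x^3*m ≤ 2 * LZ x := by
    have : -2*x*M1 + x^2*((1-a)*m + (2-a)*M1 - (3/a)*T) - 60*x^3*m
        = ∑ i : Fin m, (-2*x*(z i).re + x^2*((1-a) + (2-a)*(z i).re - (3/a)*|tau a (z i)|)
            - 60*x^3) := by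
      rw [Finset.sum_sub_distrib, Finset.sum_add_distrib, ← Finset.mul_sum, ← Finset.mul_sum,
        Finset.sum_sub_distrib, Finset.sum_add_distrib, ← Finset.mul_sum, ← Finset.mul_sum,
        Finset.sum_const, Finset.sum_const, Finset.card_univ, Fintype.card_fin,
        nsmul_eq_mul, nsmul_eq_mul]
      ring
    rw [this, hLZ]
    simp only
    rw [Finset.mul_sum]
    apply Finset.sum_le_sum
    intro i _
    have h1 := crit_lower hx0.le hx16 (H.z1 i)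
    have h2 := tau_ineq ha0 ha1 (H.z1 i)
    have h3 : x^2*((1-a) + (2-a)*(z i).re - (3/a)*|tau a (z i)|)
        ≤ x^2*(‖z i‖^2 - 2*(z i).re^2) := mul_le_mul_of_nonneg_left h2 (sq_nonneg x)
    linarith
  have F9 : T ≤ 8*A + 10*(m*lam) := by
    have : 8*A + 10*(m*lam) = ∑ i : Fin m, (8 * Real.log ‖(a:ℂ) - z i‖ + 10*lam) := by
      rw [Finset.sum_add_distrib, Finset.sum_const, Finset.card_univ, Fintype.card_fin,
        nsmul_eq_mul, ← Finset.mul_sum]; ring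
    rw [this]
    apply Finset.sum_le_sum
    intro i _
    exact tau_log ha0 ha1 hl0 (H.z1 i) (H.far i)
  exact numeric ha0 ha1 hmpos hm1 hl0 S B.c3 B.c4 B.c5 hxy hx.1 hx.2 hx16
    (F1 y le_rfl hya) (F2 x hxy hxa) (Finset.sum_nonneg (fun j _ => by
      linarith [norm_sq_le_one (hw j)])) F3 F4 F4' F5y F6 F5x F7 F8 F9

end

end Pool.Agent.R989.Crit
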