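import Mathlib
import Pool.Agent.R989.CritC

/-!
From families to polynomials, and choice of the parameters (helper file for `MP_8e1908_an`).
-/

open Finset Filter Topology Polynomial

namespace Pool.Agent.R989.Crit

noncomputable section

lemma exists_family (Q : ℂ[X]) (k : ℕ) (hk : Q.natDegree = k) :
    ∃ z : Fin k → ℂ, ∀ b : ℂ, Q.eval b = Q.leadingCoeff * pf z b := by
  have hs : Splits Q := IsAlgClosed.splits Q
  have hcard : Q.roots.toList.length = k := by
    rw [Multiset.length_toList, ← hs.natDegree_eq_card_roots, hk]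
  subst hcard
  refine ⟨fun i => Q.roots.toList[i.1], fun b => ?_⟩
  rw [hs.eval_eq_prod_roots]
  congr 1
  unfold pf
  rw [Fin.prod_univ_fun_getElem Q.roots.toList (fun x => b - x)]
  conv_lhs => rw [← Multiset.coe_toList Q.roots]
  rw [Multiset.map_coe, Multiset.prod_coe]

lemma pf_zero {k : ℕ} (z : Fin k → ℂ) (i : Fin k) : pf z (z i) = 0 := by
  unfold pf
  exact Finset.prod_eq_zero (Finset.mem_univ i) (sub_self _)

lemma isCrit_of {m : ℕ} (P : ℂ[X]) (hP : P.natDegree = m+1) {w : Fin (m+1) → ℂ} {z : Fin m → ℂ}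
    (hw : ∀ b : ℂ, P.eval b = P.leadingCoeff * pf w b)
    (hz : ∀ b : ℂ, P.derivative.eval b = P.derivative.leadingCoeff * pf z b) : IsCrit w z := by
  intro b
  have hP0 : P ≠ 0 := by rintro rfl; simp at hP
  have hlc : P.leadingCoeff ≠ 0 := leadingCoeff_ne_zero.mpr hP0
  have h1 : HasDerivAt (fun x => P.eval x) (P.derivative.eval b) b := P.hasDerivAt b
  have h2 : HasDerivAt (fun x => P.leadingCoeff⁻¹ * P.eval x)
      (P.leadingCoeff⁻¹ * P.derivative.eval b) b := h1.const_mul _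
  have h3 : (fun x => P.leadingCoeff⁻¹ * P.eval x) = pf w := by
    funext x
    rw [hw x]
    field_simp
  rw [h3, hz b, leadingCoeff_derivative, hP] at h2
  convert! h2 using 1
  push_cast
  field_simp

lemma crit_in_disc (P : ℂ[X]) (hP : 0 < P.natDegree) (h : ∀ z, P.eval z = 0 → ‖z‖ ≤ 1) {c : ℂ}
    (hc : P.derivative.eval c = 0) : ‖c‖ ≤ 1 := by
  have hdeg : 0 < P.degree := natDegree_pos_iff_degree_pos.mp hP
  have hP' : P.derivative ≠ 0 := derivative_ne_zero.mpr hP.ne'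
  have h1 : c ∈ P.derivative.rootSet ℂ := by
    rw [mem_rootSet]
    exact ⟨hP', by rw [coe_aeval_eq_eval]; exact hc⟩
  have h2 := rootSet_derivative_subset_convexHull_rootSet hdeg h1
  have h3 : convexHull ℝ (P.rootSet ℂ) ⊆ Metric.closedBall (0:ℂ) 1 := by
    apply convexHull_min _ (convex_closedBall _ _)
    intro z hz
    rw [mem_rootSet, coe_aeval_eq_eval] at hz
    rw [mem_closedBall_zero_iff]
    exact h z hz.2
  have h4 := h3 h2
  rwa [mem_closedBall_zero_iff] at h4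

lemma exists_small {a : ℝ} (ha : 0 < a) (ha1 : a < 1) :
    ∃ h y : ℝ, Small a h y (y^2) := by
  set h : ℝ := min (3*a/8) (min (1/12) ((1-a)/240)) with hh
  have h0 : 0 < h := by
    apply lt_min (by positivity) (lt_min (by norm_num) (by linarith))
  set D : ℝ := 18 + 128/h + 102/a with hD
  have hD0 : 0 < D := by positivity
  set y : ℝ := min h (min (a/4) (h^2*(1-a)/(4*D))) with hy
  have h1a : 0 < 1 - a := by linarith
  have hy0 : 0 < y := lt_min h0 (lt_min (by positivity) (by positivity))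
  refine ⟨h, y, h0, min_le_left _ _, (min_le_right _ _).trans (min_le_left _ _),
    (min_le_right _ _).trans (min_le_right _ _), hy0, min_le_left _ _,
    (min_le_right _ _).trans (min_le_left _ _), le_rfl, ?_⟩
  have h1 : y ≤ h^2*(1-a)/(4*D) := (min_le_right _ _).trans (min_le_right _ _)
  have h2 : y * D ≤ h^2*(1-a)/4 := by
    have := mul_le_mul_of_nonneg_right h1 hD0.le
    refine this.trans (le_of_eq ?_)
    field_simp
  have h3 : 0 < h^2*(1-a) := by positivity
  calc y * D ≤ h^2*(1-a)/4 := h2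
    _ < h^2*(1-a)/2 := by linarith

lemma eventually_big {a y : ℝ} (ha : 0 < a) (hy : 0 < y) : ∀ᶠ m : ℕ in atTop, Big a y m := by
  have hT : ∀ R : ℝ, ∀ᶠ m : ℕ in atTop, R ≤ (m:ℝ) := fun R =>
    tendsto_natCast_atTop_atTop.eventually_ge_atTop R
  set K : ℝ := (65536/a^4) * (64/(3*a)) with hK
  have hK0 : 0 < K := by positivity
  set c : ℝ := 3*a^2/256 with hc
  have hc0 : 0 < c := by positivity
  set d : ℝ := a*y/64 with hd
  have hd0 : 0 < d := by positivity
  filter_upwards [hT 1, hT (8*K), hT (256/(a*c)), hT (16/d^2), hT (Real.log 8/y^2), hT (2/y^2),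
    hT (1/y^2)] with m h1 h2 h3 h4 h5 h6 h7
  have hm : (0:ℝ) < m := by linarith
  have hmn : 0 < m := by exact_mod_cast hm
  have hy2 : 0 < y^2 := by positivity
  refine ⟨hmn, ?_, ?_, ?_, ?_, ?_⟩
  · have e1 : K / m ≤ 1/8 := by
      rw [div_le_iff₀ hm]; linarith
    have e2 : (32/a) * Real.exp (-((m:ℝ) * c)) ≤ 1/8 := by
      rw [Real.exp_neg]
      have e3 : (m:ℝ) * c ≤ Real.exp ((m:ℝ)*c) := by
        have := Real.add_one_le_exp ((m:ℝ)*c); linarith
      have e4 : 256/a ≤ (m:ℝ) * c := by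
        rw [div_le_iff₀ (by positivity)] at h3
        rw [div_le_iff₀ ha]
        linarith
      have e5 : 256/a ≤ Real.exp ((m:ℝ)*c) := e4.trans e3
      have e6 : (Real.exp ((m:ℝ)*c))⁻¹ ≤ (256/a)⁻¹ := inv_anti₀ (by positivity) e5
      calc (32/a) * (Real.exp ((m:ℝ)*c))⁻¹ ≤ (32/a) * (256/a)⁻¹ :=
            mul_le_mul_of_nonneg_left e6 (by positivity)
        _ = 1/8 := by field_simp; norm_num
    linarith
  · have e1 := Real.quadratic_le_exp_of_nonneg (show 0 ≤ (m:ℝ)*d by positivity)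
    have e2 : 8*(m:ℝ) ≤ Real.exp ((m:ℝ)*d) := by
      rw [div_le_iff₀ (by positivity)] at h4
      have e3 : 16*(m:ℝ) ≤ ((m:ℝ)*d)^2 := by
        have : ((m:ℝ)*d)^2 = (m:ℝ)*((m:ℝ)*d^2) := by ring
        rw [this]
        nlinarith
      have : 0 ≤ (m:ℝ)*d := by positivity
      linarith
    rw [Real.exp_neg, one_div]
    exact inv_anti₀ (by positivity) e2
  · rw [div_le_iff₀ hy2] at h5
    exact h5
  · rw [Real.log_le_iff_le_exp (by positivity)]
    have e1 := Real.quadratic_le_exp_of_nonneg (show 0 ≤ (m:ℝ)*y by positivity)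
    rw [div_le_iff₀ hy2] at h6
    have e3 : 2*(m:ℝ) ≤ ((m:ℝ)*y)^2 := by
      have : ((m:ℝ)*y)^2 = (m:ℝ)*((m:ℝ)*y^2) := by ring
      rw [this]
      nlinarith
    have : 0 ≤ (m:ℝ)*y := by positivity
    linarith
  · rw [div_le_iff₀ hy2] at h7
    exact h7

/-- The polynomial form of the theorem. -/
theorem poly_main {a : ℝ} (ha : 0 < a) (ha1 : a < 1) :
    ∃ ε : ℝ, 0 < ε ∧ ∀ᶠ n : ℕ in atTop, ∀ P : ℂ[X], P.natDegree = n → P.eval (a:ℂ) = 0 →
      (∀ z, P.eval z = 0 → ‖z‖ ≤ 1) → ∃ c : ℂ, P.derivative.eval c = 0 ∧ ‖c - a‖ ≤ 1 - ε := by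
  obtain ⟨h, y, S⟩ := exists_small ha ha1
  have hy0 := S.hy
  have hy2 : 0 < y^2 := by positivity
  have hylt : y ≤ a/4 := S.ya
  refine ⟨1 - Real.exp (-(y^2)), ?_, ?_⟩
  · have : Real.exp (-(y^2)) < 1 := Real.exp_lt_one_iff.mpr (by linarith)
    linarith
  have hb := eventually_big ha hy0
  have hb' : ∀ᶠ n : ℕ in atTop, Big a y (n-1) := (tendsto_sub_atTop_nat 1).eventually hb
  filter_upwards [hb', eventually_ge_atTop 1] with n hn hn1
  intro P hPn hPa hPz
  obtain ⟨m, rfl⟩ : ∃ m, n = m + 1 := ⟨n-1, by omega⟩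
  rw [Nat.add_sub_cancel] at hn
  by_contra hcon
  push Not at hcon
  have hP0 : P ≠ 0 := by rintro rfl; simp at hPn
  have hlc : P.leadingCoeff ≠ 0 := leadingCoeff_ne_zero.mpr hP0
  obtain ⟨w, hw⟩ := exists_family P (m+1) hPn
  obtain ⟨z, hz⟩ := exists_family P.derivative m (by rw [natDegree_derivative, hPn]; rfl)
  have hwr : ∀ j, P.eval (w j) = 0 := fun j => by rw [hw, pf_zero, mul_zero]
  have hzr : ∀ i, P.derivative.eval (z i) = 0 := fun i => by rw [hz, pf_zero, mul_zero]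
  have hz1 : ∀ i, ‖z i‖ ≤ 1 := fun i => crit_in_disc P (by omega) hPz (hzr i)
  have hwa : ∃ j, w j = (a:ℂ) := by
    have h1 := hw a
    rw [hPa] at h1
    have h2 : pf w (a:ℂ) = 0 := by
      rcases mul_eq_zero.mp h1.symm with h | h
      · exact absurd h hlc
      · exact h
    unfold pf at h2
    obtain ⟨j, _, hj⟩ := Finset.prod_eq_zero_iff.mp h2
    exact ⟨j, (sub_eq_zero.mp hj).symm⟩
  have hFar : Far a (y^2) z := by
    refine ⟨ha, ha1, hy2.le, ?_, ?_, hz1, ?_⟩
    · nlinarith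
    · nlinarith
    · intro i
      have h1 := hcon (z i) (hzr i)
      rw [norm_sub_rev] at h1
      linarith
  exact core hFar (isCrit_of P hPn hw hz) (fun j => hPz _ (hwr j)) hwa hn S

end

end Pool.Agent.R989.Crit
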