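import Pool.Agent.TH294.RS.Sys

/-! Displacement pairings of sequences of solutions and their derivatives (helper989). -/

set_option autoImplicit false

open MeasureTheory Filter Topology Complex
open scoped ContDiff

namespace Pool.Agent.R989.Der

open Pool.Agent.W745.RW Pool.Agent.TH294.RS

noncomputable section

/-- the displacement pairing -/
def PR (φ : ℂ → ℝ) (h : ℕ → ℝ) (u G : ℕ → ℂ → ℂ) (n : ℕ) (w : ℂ) : ℂ :=
  ∫ z, (φ z : ℂ) * (u n z * G n (z + (h n : ℂ) * w))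

/-- differentiation of a parametric integral -/
theorem dpar {P : ℂ → ℂ} (hP : Continuous P) (hc : HasCompactSupport P) {G : ℂ → ℂ}
    (hG : ContDiff ℝ ∞ G) (h : ℝ) (w v : ℂ) (τ : ℝ) :
    HasDerivAt (fun τ : ℝ => ∫ z, P z * G (z + (h : ℂ) * (w + τ * v)))
      (∫ z, P z * ((h : ℂ) * fderiv ℝ G (z + (h : ℂ) * (w + τ * v)) v)) τ := by
  have hGc : Continuous G := hG.continuous
  have hdc : Continuous fun z => fderiv ℝ G z v :=
    (hG.continuous_fderiv (by simp)).clm_apply continuous_const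
  have hK : IsCompact (tsupport P ×ˢ Metric.closedBall τ 1) :=
    hc.isCompact.prod (isCompact_closedBall τ 1)
  have hjc : Continuous fun p : ℂ × ℝ => fderiv ℝ G (p.1 + (h : ℂ) * (w + p.2 * v)) v :=
    hdc.comp (by fun_prop)
  obtain ⟨C, hC⟩ := hK.exists_bound_of_continuousOn hjc.continuousOn
  have hint : ∀ σ : ℝ, Continuous fun z => P z * G (z + (h : ℂ) * (w + σ * v)) := fun σ =>
    hP.mul (hGc.comp (by fun_prop))
  refine (hasDerivAt_integral_of_dominated_loc_of_deriv_le (μ := volume)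
    (F := fun (τ : ℝ) z => P z * G (z + (h : ℂ) * (w + τ * v)))
    (F' := fun (τ : ℝ) z => P z * ((h : ℂ) * fderiv ℝ G (z + (h : ℂ) * (w + τ * v)) v))
    (bound := fun z => ‖P z‖ * (|h| * C)) (s := Metric.ball τ 1)
    (Metric.ball_mem_nhds τ one_pos) ?_ ?_ ?_ ?_ ?_ ?_).2
  · exact Eventually.of_forall fun σ => (hint σ).aestronglyMeasurable
  · exact (hint τ).integrable_of_hasCompactSupport hc.mul_right
  · refine Continuous.aestronglyMeasurable ?_
    exact hP.mul (continuous_const.mul (hdc.comp (by fun_prop)))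
  · refine Eventually.of_forall fun z σ hσ => ?_
    by_cases hz : z ∈ tsupport P
    · have h1 := hC (z, σ) ⟨hz, Metric.ball_subset_closedBall hσ⟩
      rw [norm_mul, norm_mul, Complex.norm_real, Real.norm_eq_abs]
      exact mul_le_mul_of_nonneg_left (mul_le_mul_of_nonneg_left h1 (abs_nonneg _)) (norm_nonneg _)
    · rw [image_eq_zero_of_notMem_tsupport hz]
      simp
  · exact (hP.norm.mul continuous_const).integrable_of_hasCompactSupport hc.norm.mul_right
  · refine Eventually.of_forall fun z σ _ => ?_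
    have h1 : HasDerivAt (fun τ : ℝ => z + (h : ℂ) * (w + τ * v)) ((h : ℂ) * v) σ := by
      have h2 : HasDerivAt (fun τ : ℝ => (τ : ℂ)) 1 σ := Complex.ofRealCLM.hasDerivAt
      have h3 := (((h2.mul_const v).const_add w).const_mul (h : ℂ)).const_add z
      rw [one_mul] at h3
      exact h3
    have h4 : HasFDerivAt G (fderiv ℝ G (z + (h : ℂ) * (w + σ * v)))
        (z + (h : ℂ) * (w + σ * v)) := ((hG.differentiable (by simp)) _).hasFDerivAt
    have h5 := h4.comp_hasDerivAt σ h1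
    have h6 : fderiv ℝ G (z + (h : ℂ) * (w + σ * v)) ((h : ℂ) * v) =
        (h : ℂ) * fderiv ℝ G (z + (h : ℂ) * (w + σ * v)) v := by
      rw [show ((h : ℂ) * v) = h • v from (Complex.real_smul).symm, map_smul, Complex.real_smul]
    rw [h6] at h5
    exact h5.const_mul (P z)

/-- the derivative of the pairing -/
theorem PR_deriv {φ : ℂ → ℝ} (hφ : TF Set.univ φ) {h : ℕ → ℝ} {u G : ℕ → ℂ → ℂ} (n : ℕ)
    (hu : ContDiff ℝ ∞ (u n)) (hG : ContDiff ℝ ∞ (G n)) (w v : ℂ) (τ : ℝ) :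
    HasDerivAt (fun τ : ℝ => PR φ h u G n (w + τ * v)) (PR φ h u (hd h v G) n (w + τ * v)) τ := by
  have hP : Continuous fun z => (φ z : ℂ) * u n z :=
    (Complex.continuous_ofReal.comp hφ.1.continuous).mul hu.continuous
  have hc : HasCompactSupport fun z => (φ z : ℂ) * u n z := by
    have : HasCompactSupport fun z => (φ z : ℂ) := hφ.2.1.comp_left Complex.ofReal_zero
    exact this.mul_right
  have h1 := dpar hP hc hG (h n) w v τ
  have e1 : (fun τ : ℝ => PR φ h u G n (w + τ * v)) =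
      fun τ : ℝ => ∫ z, (φ z : ℂ) * u n z * G n (z + (h n : ℂ) * (w + τ * v)) := by
    funext σ
    unfold PR
    exact integral_congr_ae (Eventually.of_forall fun z => by ring)
  have e2 : PR φ h u (hd h v G) n (w + τ * v) =
      ∫ z, (φ z : ℂ) * u n z * ((h n : ℂ) * fderiv ℝ (G n) (z + (h n : ℂ) * (w + τ * v)) v) := by
    unfold PR hd
    exact integral_congr_ae (Eventually.of_forall fun z => by ring)
  rw [e1, e2]
  exact h1

/-- bounds for the pairing -/
theorem PR_bd {φ : ℂ → ℝ} (hφ : TF Set.univ φ) {h : ℕ → ℝ} (hh : Tendsto h atTop (𝓝 0))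
    {u G : ℕ → ℂ → ℂ} (hu : LB Set.univ 2 u) (hG : LB Set.univ 2 G) (W : ℝ) :
    ∃ C : ℝ, ∀ᶠ n in atTop, ∀ w : ℂ, ‖w‖ ≤ W → ‖PR φ h u G n w‖ ≤ C := by
  set K := tsupport φ with hKd
  have hK : IsCompact K := hφ.2.1
  set K' := Metric.cthickening 1 K with hK'd
  have hK' : IsCompact K' := hK.cthickening
  obtain ⟨M, hM⟩ := hK.exists_bound_of_continuousOn hφ.1.continuous.continuousOn
  obtain ⟨C1, hC1⟩ := hu.bd K hK (Set.subset_univ _)
  obtain ⟨C2, hC2⟩ := hG.bd K' hK' (Set.subset_univ _)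
  have hsmall : ∀ᶠ n in atTop, |h n| * |W| ≤ 1 := by
    have h1 : Tendsto (fun n => |h n| * |W|) atTop (𝓝 (|0| * |W|)) := hh.abs.mul_const _
    rw [abs_zero, zero_mul] at h1
    exact h1.eventually (eventually_le_nhds one_pos)
  refine ⟨|M| * (C1 + C2), ?_⟩
  filter_upwards [hC1, hC2, hsmall] with n h1 h2 h3 w hw
  have cu : Continuous (u n) := continuousOn_univ.1 (hu.co n)
  have cG : Continuous (G n) := continuousOn_univ.1 (hG.co n)
  set a : ℂ := (h n : ℂ) * w with ha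
  have ha1 : ‖a‖ ≤ 1 := by
    rw [ha, norm_mul, Complex.norm_real, Real.norm_eq_abs]
    exact (mul_le_mul_of_nonneg_left (hw.trans (le_abs_self W)) (abs_nonneg _)).trans h3
  have h0 : ∀ z, z ∉ K → (φ z : ℂ) * (u n z * G n (z + a)) = 0 := by
    intro z hz
    rw [image_eq_zero_of_notMem_tsupport hz]
    simp
  have e0 : PR φ h u G n w = ∫ z in K, (φ z : ℂ) * (u n z * G n (z + a)) :=
    (setIntegral_eq_integral_of_forall_compl_eq_zero h0).symm
  rw [e0]
  have cF : Continuous fun z => (φ z : ℂ) * (u n z * G n (z + a)) :=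
    (Complex.continuous_ofReal.comp hφ.1.continuous).mul
      (cu.mul (cG.comp (continuous_id.add continuous_const)))
  have cGa : Continuous fun z => ‖G n (z + a)‖ ^ 2 :=
    ((cG.comp (continuous_id.add continuous_const)).norm).pow 2
  have h4 : ∫ z in K, ‖G n (z + a)‖ ^ 2 ≤ C2 := by
    refine le_trans ?_ h2
    have e1 : ∫ z in K, ‖G n (z + a)‖ ^ 2 = ∫ z in (fun z => z + a) '' K, ‖G n z‖ ^ 2 := by
      have hmp := measurePreserving_add_right (volume : Measure ℂ) a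
      have hme : MeasurableEmbedding fun z : ℂ => z + a := measurableEmbedding_addRight a
      rw [← hmp.setIntegral_preimage_emb hme (fun z => ‖G n z‖ ^ 2),
        Set.preimage_image_eq _ (add_left_injective a)]
    rw [e1]
    refine setIntegral_mono_set ?_ ?_ ?_
    · exact ((cG.norm.pow 2).continuousOn).integrableOn_compact hK'
    · exact Eventually.of_forall fun z => by positivity
    · refine (Set.image_subset_iff.2 fun z hz => ?_).eventuallyLE
      refine Metric.mem_cthickening_of_dist_le (z + a) z 1 K hz ?_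
      rw [dist_eq_norm]
      simpa using ha1
  refine (norm_integral_le_integral_norm _).trans ?_
  have h5 := intK_lin hK (abs_nonneg M) (F := fun z => ‖(φ z : ℂ) * (u n z * G n (z + a))‖)
    (G1 := fun z => ‖u n z‖ ^ 2) (G2 := fun z => ‖G n (z + a)‖ ^ 2) cF.norm.continuousOn
    (cu.norm.pow 2).continuousOn cGa.continuousOn (fun z hz => by
      rw [norm_mul, norm_mul, Complex.norm_real]
      have k1 : ‖φ z‖ ≤ |M| := (hM z hz).trans (le_abs_self M)
      have k2 : ‖u n z‖ * ‖G n (z + a)‖ ≤ ‖u n z‖ ^ 2 + ‖G n (z + a)‖ ^ 2 := by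
        nlinarith [sq_nonneg (‖u n z‖ - ‖G n (z + a)‖), sq_nonneg ‖u n z‖,
          sq_nonneg ‖G n (z + a)‖]
      exact mul_le_mul k1 k2 (by positivity) (abs_nonneg M)) h1 h4
  exact h5

/-- limits of derivatives -/
theorem lim_deriv {f f' f'' : ℕ → ℝ → ℂ} (h1 : ∀ n τ, HasDerivAt (f n) (f' n τ) τ)
    (h2 : ∀ n τ, HasDerivAt (f' n) (f'' n τ) τ) {C : ℝ}
    (h3 : ∀ᶠ n in atTop, ∀ τ ∈ Set.Icc (0 : ℝ) 1, ‖f'' n τ‖ ≤ C) {g : ℝ → ℂ}
    (h4 : ∀ k : ℕ, Tendsto (fun n => f n (1 / ((k : ℝ) + 1))) atTop (𝓝 (g (1 / ((k : ℝ) + 1)))))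
    (h40 : Tendsto (fun n => f n 0) atTop (𝓝 (g 0))) {d : ℂ} (h5 : HasDerivAt g d 0) :
    Tendsto (fun n => f' n 0) atTop (𝓝 d) := by
  have tay : ∀ n, (∀ τ ∈ Set.Icc (0 : ℝ) 1, ‖f'' n τ‖ ≤ C) → ∀ τ ∈ Set.Icc (0 : ℝ) 1,
      ‖f n τ - f n 0 - τ * f' n 0‖ ≤ C * τ * τ := by
    intro n hn τ hτ
    have k1 : ∀ σ ∈ Set.Icc (0 : ℝ) τ, ‖f' n σ - f' n 0‖ ≤ C * τ := by
      intro σ hσ
      have := Convex.norm_image_sub_le_of_norm_hasDerivWithin_le (f := f' n) (f' := f'' n)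
        (s := Set.Icc (0 : ℝ) τ) (C := C) (fun x _ => (h2 n x).hasDerivWithinAt)
        (fun x hx => hn x ⟨hx.1, hx.2.trans hτ.2⟩) (convex_Icc 0 τ)
        (Set.left_mem_Icc.2 hτ.1) hσ
      refine this.trans ?_
      have hC0 : 0 ≤ C := (norm_nonneg _).trans (hn 0 ⟨le_rfl, zero_le_one⟩)
      rw [sub_zero, Real.norm_eq_abs, abs_of_nonneg hσ.1]
      exact mul_le_mul_of_nonneg_left hσ.2 hC0
    have k2 : ∀ σ ∈ Set.Icc (0 : ℝ) τ, HasDerivWithinAt (fun σ : ℝ => f n σ - σ * f' n 0)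
        (f' n σ - f' n 0) (Set.Icc 0 τ) σ := by
      intro σ _
      have h6 : HasDerivAt (fun σ : ℝ => (σ : ℂ)) 1 σ := Complex.ofRealCLM.hasDerivAt
      have h7 := (h1 n σ).sub (h6.mul_const (f' n 0))
      rw [one_mul] at h7
      exact h7.hasDerivWithinAt
    have := Convex.norm_image_sub_le_of_norm_hasDerivWithin_le (C := C * τ) k2 k1
      (convex_Icc 0 τ) (Set.left_mem_Icc.2 hτ.1) (Set.right_mem_Icc.2 hτ.1)
    rw [sub_zero, Real.norm_eq_abs, abs_of_nonneg hτ.1] at this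
    refine le_trans (le_of_eq ?_) this
    congr 1
    push_cast
    ring
  rw [Metric.tendsto_atTop']
  intro ε hε
  -- choose `k`
  have k0 : Tendsto (fun k : ℕ => 1 / ((k : ℝ) + 1)) atTop (𝓝 0) :=
    tendsto_one_div_add_atTop_nhds_zero_nat
  have k1 : Tendsto (fun k : ℕ => (|C| + 1) * (1 / ((k : ℝ) + 1))) atTop (𝓝 ((|C| + 1) * 0)) :=
    k0.const_mul _
  rw [mul_zero] at k1
  have k2 : Tendsto (fun k : ℕ => (((k : ℝ) + 1 : ℝ) : ℂ) * (g (1 / ((k : ℝ) + 1)) - g 0)) atTop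
      (𝓝 d) := by
    have h6 := (hasDerivAt_iff_tendsto_slope.1 h5)
    have h7 : Tendsto (fun k : ℕ => 1 / ((k : ℝ) + 1)) atTop (𝓝[≠] 0) := by
      refine tendsto_nhdsWithin_iff.2 ⟨k0, Eventually.of_forall fun k => ?_⟩
      have : (0 : ℝ) < 1 / ((k : ℝ) + 1) := by positivity
      exact this.ne'
    refine (h6.comp h7).congr fun k => ?_
    simp only [Function.comp_apply, slope, sub_zero, vsub_eq_sub, one_div, inv_inv]
    rw [Complex.real_smul]
  have k3 := (Metric.tendsto_nhds.1 k2) (ε / 3) (by positivity)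
  obtain ⟨k, hk1, hk2⟩ := ((k1.eventually (gt_mem_nhds (show (0 : ℝ) < ε / 3 by positivity))).and
    k3).exists
  set τ : ℝ := 1 / ((k : ℝ) + 1) with hτ
  have hτ0 : 0 < τ := by positivity
  have hτ1 : τ ≤ 1 := by
    rw [hτ, div_le_one (by positivity)]
    have : (0 : ℝ) ≤ k := Nat.cast_nonneg k
    linarith
  have hτi : (((k : ℝ) + 1 : ℝ) : ℂ) = (τ : ℂ)⁻¹ := by
    rw [hτ]
    push_cast
    field_simp
  have k4 := ((h4 k).sub (h40)).const_mul ((((k : ℝ) + 1 : ℝ) : ℂ))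
  have k5 := (Metric.tendsto_nhds.1 k4) (ε / 3) (by positivity)
  obtain ⟨N, hN⟩ := (k5.and h3).exists_forall_of_atTop
  refine ⟨N, fun n hn => ?_⟩
  obtain ⟨m1, m2⟩ := hN n hn.le
  have m3 := tay n m2 τ ⟨hτ0.le, hτ1⟩
  have hτc : (τ : ℂ) ≠ 0 := by exact_mod_cast hτ0.ne'
  have m4 : ‖f' n 0 - (((k : ℝ) + 1 : ℝ) : ℂ) * (f n τ - f n 0)‖ ≤ C * τ := by
    rw [hτi]
    have e1 : f' n 0 - (τ : ℂ)⁻¹ * (f n τ - f n 0) =
        -((τ : ℂ)⁻¹ * (f n τ - f n 0 - τ * f' n 0)) := by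
      field_simp
      ring
    rw [e1, norm_neg, norm_mul, norm_inv, Complex.norm_real, Real.norm_eq_abs, abs_of_pos hτ0]
    calc τ⁻¹ * ‖f n τ - f n 0 - τ * f' n 0‖ ≤ τ⁻¹ * (C * τ * τ) :=
          mul_le_mul_of_nonneg_left m3 (by positivity)
      _ = C * τ := by field_simp
  have m5 : C * τ < ε / 3 := by
    refine lt_of_le_of_lt ?_ hk1
    exact mul_le_mul_of_nonneg_right ((le_abs_self C).trans (by linarith)) hτ0.le
  rw [dist_eq_norm] at m1 hk2 ⊢
  have e2 : f' n 0 - d = (f' n 0 - (((k : ℝ) + 1 : ℝ) : ℂ) * (f n τ - f n 0)) +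
      ((((k : ℝ) + 1 : ℝ) : ℂ) * (f n τ - f n 0) - (((k : ℝ) + 1 : ℝ) : ℂ) * (g τ - g 0)) +
      ((((k : ℝ) + 1 : ℝ) : ℂ) * (g τ - g 0) - d) := by ring
  rw [e2]
  refine (norm_add₃_le).trans_lt ?_
  linarith

end

end Pool.Agent.R989.Der
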