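import Pool.Agent.R989.Der

/-! Limits of pairings of a sequence of solutions with its derivatives (helper989). -/

set_option autoImplicit false

open MeasureTheory Filter Topology Complex
open scoped ContDiff

namespace Pool.Agent.R989.Der

open Pool.Agent.W745.RW Pool.Agent.TH294.RS

noncomputable section

/-- rational points of the plane -/
def Rt : Set ℂ := {w | ∃ p q : ℚ, w = (p : ℂ) + (q : ℂ) * I}

theorem Rt_zero : (0 : ℂ) ∈ Rt := ⟨0, 0, by simp⟩

theorem Rt_add {a b : ℂ} (ha : a ∈ Rt) (hb : b ∈ Rt) : a + b ∈ Rt := by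
  obtain ⟨p, q, rfl⟩ := ha
  obtain ⟨p', q', rfl⟩ := hb
  exact ⟨p + p', q + q', by push_cast; ring⟩

theorem Rt_smul {a : ℂ} (ha : a ∈ Rt) (r : ℚ) : (r : ℂ) * a ∈ Rt := by
  obtain ⟨p, q, rfl⟩ := ha
  exact ⟨r * p, r * q, by push_cast; ring⟩

theorem Rt_one : (1 : ℂ) ∈ Rt := ⟨1, 0, by simp⟩
theorem Rt_I : (I : ℂ) ∈ Rt := ⟨0, 1, by simp⟩

/-- the phase -/
def rr (w : ℂ) (α : ℝ) : ℝ := w.re * Real.cos α + w.im * Real.sin α

theorem rr_cont (w : ℂ) : Continuous (rr w) := by unfold rr; fun_prop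

theorem rr_add (w v : ℂ) (τ α : ℝ) : rr (w + τ * v) α = rr w α + τ * rr v α := by
  simp only [rr, add_re, add_im, re_ofReal_mul, im_ofReal_mul]
  ring

theorem rr_bd (w : ℂ) (α : ℝ) : |rr w α| ≤ |w.re| + |w.im| := by
  unfold rr
  refine (abs_add_le _ _).trans (add_le_add ?_ ?_)
  · rw [abs_mul]
    exact mul_le_of_le_one_right (abs_nonneg _) (Real.abs_cos_le_one α)
  · rw [abs_mul]
    exact mul_le_of_le_one_right (abs_nonneg _) (Real.abs_sin_le_one α)

/-- plane wave -/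
def pw (w : ℂ) (α : ℝ) : ℂ := Complex.exp (rr w α * I)

theorem pw_cont (w : ℂ) : Continuous (pw w) := by
  unfold pw
  exact Complex.continuous_exp.comp
    ((Complex.continuous_ofReal.comp (rr_cont w)).mul continuous_const)

theorem pw_norm (w : ℂ) (α : ℝ) : ‖pw w α‖ = 1 := Complex.norm_exp_ofReal_mul_I _

variable (h : ℕ → ℝ) (u : ℕ → ℂ → ℂ) (m : ℝ) (ν : Measure ℝ)

/-- the sequence `G` of derivatives has the symbol `c` -/
structure PP (G : ℕ → ℂ → ℂ) (c : ℝ → ℂ) : Prop where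
  mc : MC Set.univ h G
  cc : Continuous c
  cb : ∃ C, ∀ α, ‖c α‖ ≤ C
  lim : ∀ φ, TF Set.univ φ → ∀ w ∈ Rt, Tendsto (fun n => PR φ h u G n w) atTop
    (𝓝 (((∫ z, φ z : ℝ) : ℂ) * ((m : ℂ) * ∫ α, c α * pw w α ∂ν)))

variable {h u m ν} [IsProbabilityMeasure ν]

theorem gd {c : ℝ → ℂ} (cc : Continuous c) (cb : ∃ C, ∀ α, ‖c α‖ ≤ C) (w v : ℂ) :
    HasDerivAt (fun τ : ℝ => ∫ α, c α * pw (w + τ * v) α ∂ν)
      (∫ α, c α * (rr v α * I) * pw w α ∂ν) 0 := by
  obtain ⟨C, hC⟩ := cb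
  have hC0 : 0 ≤ C := (norm_nonneg _).trans (hC 0)
  have hpc : ∀ τ : ℝ, Continuous fun α => c α * pw (w + τ * v) α := fun τ => cc.mul (pw_cont _)
  have hd : ∀ τ : ℝ, Continuous fun α => c α * (rr v α * I) * pw (w + τ * v) α := fun τ =>
    (cc.mul ((Complex.continuous_ofReal.comp (rr_cont v)).mul continuous_const)).mul (pw_cont _)
  have key := (hasDerivAt_integral_of_dominated_loc_of_deriv_le (μ := ν)
    (F := fun (τ : ℝ) α => c α * pw (w + τ * v) α)
    (F' := fun (τ : ℝ) α => c α * (rr v α * I) * pw (w + τ * v) α)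
    (x₀ := 0) (bound := fun _ => C * (|v.re| + |v.im|)) (s := Set.univ) Filter.univ_mem
    (Eventually.of_forall fun τ => (hpc τ).aestronglyMeasurable) ?_
    (hd 0).aestronglyMeasurable ?_ (integrable_const _) ?_).2
  · simpa using key
  · refine Integrable.mono' (integrable_const C) (hpc 0).aestronglyMeasurable
      (Eventually.of_forall fun α => ?_)
    rw [norm_mul, pw_norm, mul_one]
    exact hC α
  · refine Eventually.of_forall fun α τ _ => ?_
    rw [norm_mul, norm_mul, norm_mul, pw_norm, mul_one, Complex.norm_real, Real.norm_eq_abs,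
      Complex.norm_I, mul_one]
    exact mul_le_mul (hC α) (rr_bd v α) (abs_nonneg _) hC0
  · refine Eventually.of_forall fun α τ _ => ?_
    have h2 : HasDerivAt (fun τ : ℝ => (τ : ℂ)) 1 τ := Complex.ofRealCLM.hasDerivAt
    have h3 : HasDerivAt (fun τ : ℝ => ((rr w α : ℂ) + τ * rr v α) * I) ((rr v α : ℂ) * I) τ := by
      have := ((h2.mul_const (rr v α : ℂ)).const_add (rr w α : ℂ)).mul_const I
      rwa [one_mul] at this
    have h4 := (h3.cexp).const_mul (c α)
    have e1 : (fun τ : ℝ => c α * pw (w + τ * v) α) =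
        fun τ : ℝ => c α * Complex.exp (((rr w α : ℂ) + τ * rr v α) * I) := by
      funext σ
      unfold pw
      rw [rr_add]
      push_cast
      rfl
    rw [e1]
    refine h4.congr_deriv ?_
    unfold pw
    rw [rr_add]
    push_cast
    ring

theorem MC.lb2 {G : ℕ → ℂ → ℂ} (H : MC Set.univ h G) : LB Set.univ 2 G :=
  LB.low (p := 2) (H 0)

theorem MC.hd1 {G : ℕ → ℂ → ℂ} (H : MC Set.univ h G) : MC Set.univ h (hd h 1 G) :=
  fun k => (H (k + 1)).2.1
theorem MC.hdI {G : ℕ → ℂ → ℂ} (H : MC Set.univ h G) : MC Set.univ h (hd h I G) :=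
  fun k => (H (k + 1)).2.2

theorem step (hh : Tendsto h atTop (𝓝 0)) (hu : LB Set.univ 2 u) {G : ℕ → ℂ → ℂ} {c : ℝ → ℂ}
    (H : PP h u m ν G c) {v : ℂ} (hv : v ∈ Rt) (h1 : MC Set.univ h (hd h v G))
    (h2 : MC Set.univ h (hd h v (hd h v G))) :
    PP h u m ν (hd h v G) (fun α => c α * (rr v α * I)) := by
  obtain ⟨C, hC⟩ := H.cb
  have hC0 : 0 ≤ C := (norm_nonneg _).trans (hC 0)
  have smu : ∀ n, ContDiff ℝ ∞ (u n) := fun n => contDiffOn_univ.1 (hu.sm n)
  refine ⟨h1, H.cc.mul ((Complex.continuous_ofReal.comp (rr_cont v)).mul continuous_const),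
    ⟨C * (|v.re| + |v.im|), fun α => ?_⟩, fun φ hφ w hw => ?_⟩
  · rw [norm_mul, norm_mul, Complex.norm_real, Real.norm_eq_abs, Complex.norm_I, mul_one]
    exact mul_le_mul (hC α) (rr_bd v α) (abs_nonneg _) hC0
  · obtain ⟨D, hD⟩ := PR_bd hφ hh hu (MC.lb2 h2) (‖w‖ + ‖v‖)
    have hg := (((gd (ν := ν) H.cc H.cb w v).const_mul (m : ℂ)).const_mul
      (((∫ z, φ z : ℝ) : ℂ)))
    have sG : ∀ n, ContDiff ℝ ∞ (G n) := fun n => contDiffOn_univ.1 ((H.mc 0).sm n)
    have sG1 : ∀ n, ContDiff ℝ ∞ (hd h v G n) := fun n => contDiffOn_univ.1 ((h1 0).sm n)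
    have key := lim_deriv (f := fun n (τ : ℝ) => PR φ h u G n (w + τ * v))
      (f' := fun n (τ : ℝ) => PR φ h u (hd h v G) n (w + τ * v))
      (f'' := fun n (τ : ℝ) => PR φ h u (hd h v (hd h v G)) n (w + τ * v))
      (fun n τ => PR_deriv hφ n (smu n) (sG n) w v τ)
      (fun n τ => PR_deriv hφ n (smu n) (sG1 n) w v τ) (C := D) ?_
      (fun k => ?_) ?_ hg
    · simpa using key
    · filter_upwards [hD] with n hn τ hτ
      refine hn _ ((norm_add_le _ _).trans (add_le_add le_rfl ?_))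
      rw [norm_mul, Complex.norm_real, Real.norm_eq_abs, abs_of_nonneg hτ.1]
      exact mul_le_of_le_one_left (norm_nonneg _) hτ.2
    · refine H.lim φ hφ _ (Rt_add hw ?_)
      have := Rt_smul hv (1 / ((k : ℚ) + 1))
      push_cast at this ⊢
      exact this
    · refine H.lim φ hφ _ ?_
      simpa using hw

theorem PR_sub {φ : ℂ → ℝ} (hφ : TF Set.univ φ) {G G' : ℕ → ℂ → ℂ} (n : ℕ)
    (hu : Continuous (u n)) (hG : Continuous (G n)) (hG' : Continuous (G' n)) (w : ℂ) :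
    PR φ h u (fun n z => G n z - I * G' n z) n w = PR φ h u G n w - I * PR φ h u G' n w := by
  have hs : HasCompactSupport fun z => (φ z : ℂ) := hφ.2.1.comp_left Complex.ofReal_zero
  have hc : Continuous fun z => (φ z : ℂ) := Complex.continuous_ofReal.comp hφ.1.continuous
  have i : ∀ {g : ℂ → ℂ}, Continuous g →
      Integrable fun z => (φ z : ℂ) * (u n z * g (z + (h n : ℂ) * w)) := fun {g} hg =>
    (hc.mul (hu.mul (hg.comp (continuous_id.add continuous_const)))).integrable_of_hasCompactSupport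
      hs.mul_right
  unfold PR
  rw [← integral_const_mul, ← integral_sub (i hG) ((i hG').const_mul I)]
  exact integral_congr_ae (Eventually.of_forall fun z => by ring)

/-- the symbol -/
def sy (α : ℝ) : ℂ := I * Complex.exp (-(α : ℂ) * I)

theorem sy_cont : Continuous sy := by
  unfold sy
  fun_prop

theorem sy_norm (α : ℝ) : ‖sy α‖ = 1 := by
  unfold sy
  rw [norm_mul, Complex.norm_I, one_mul, show -(α : ℂ) * I = ((-α : ℝ) : ℂ) * I by push_cast; ring]
  exact Complex.norm_exp_ofReal_mul_I _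

theorem sy_eq (α : ℝ) : (rr 1 α : ℂ) * I - I * ((rr I α : ℂ) * I) = sy α := by
  unfold sy rr
  rw [show -(α : ℂ) * I = ((-α : ℝ) : ℂ) * I by push_cast; ring, Complex.exp_mul_I]
  push_cast
  rw [Complex.cos_neg, Complex.sin_neg]
  simp only [one_re, one_im, I_re, I_im, ofReal_one, ofReal_zero]
  ring

/-- the operator on sequences -/
def SD (h : ℕ → ℝ) (G : ℕ → ℂ → ℂ) (n : ℕ) (z : ℂ) : ℂ := hd h 1 G n z - I * hd h I G n z

theorem stepD (hh : Tendsto h atTop (𝓝 0)) (hu : LB Set.univ 2 u) {G : ℕ → ℂ → ℂ} {c : ℝ → ℂ}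
    (H : PP h u m ν G c) : PP h u m ν (SD h G) (fun α => c α * sy α) := by
  have a1 := MC.hd1 H.mc
  have aI := MC.hdI H.mc
  have p1 := step hh hu H Rt_one a1 (MC.hd1 a1)
  have pI := step hh hu H Rt_I aI (MC.hdI aI)
  obtain ⟨C, hC⟩ := H.cb
  refine ⟨?_, H.cc.mul sy_cont, ⟨C, fun α => ?_⟩, fun φ hφ w hw => ?_⟩
  · exact MC.sub isOpen_univ hh a1 (MC.cmul isOpen_univ hh aI I)
  · rw [norm_mul, sy_norm, mul_one]
    exact hC α
  · have cu : ∀ n, Continuous (u n) := fun n => continuousOn_univ.1 (hu.co n)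
    have c1 : ∀ n, Continuous (hd h 1 G n) := fun n => continuousOn_univ.1 ((a1 0).co n)
    have cI : ∀ n, Continuous (hd h I G n) := fun n => continuousOn_univ.1 ((aI 0).co n)
    have e1 : ∀ n, PR φ h u (SD h G) n w =
        PR φ h u (hd h 1 G) n w - I * PR φ h u (hd h I G) n w := fun n =>
      PR_sub hφ n (cu n) (c1 n) (cI n) w
    have l1 := (p1.lim φ hφ w hw).sub ((pI.lim φ hφ w hw).const_mul I)
    have i : ∀ {g : ℝ → ℂ}, Continuous g → (∃ D, ∀ α, ‖g α‖ ≤ D) →
        Integrable (fun α => g α * pw w α) ν := by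
      intro g hg ⟨D, hD⟩
      refine Integrable.mono' (integrable_const D) (hg.mul (pw_cont w)).aestronglyMeasurable
        (Eventually.of_forall fun α => ?_)
      rw [norm_mul, pw_norm, mul_one]
      exact hD α
    have e2 : (((∫ z, φ z : ℝ) : ℂ) * ((m : ℂ) * ∫ α, c α * (rr 1 α * I) * pw w α ∂ν)) -
        I * (((∫ z, φ z : ℝ) : ℂ) * ((m : ℂ) * ∫ α, c α * (rr I α * I) * pw w α ∂ν)) =
        ((∫ z, φ z : ℝ) : ℂ) * ((m : ℂ) * ∫ α, c α * sy α * pw w α ∂ν) := by
      have e3 : ∫ α, c α * sy α * pw w α ∂ν = (∫ α, c α * (rr 1 α * I) * pw w α ∂ν) -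
          I * ∫ α, c α * (rr I α * I) * pw w α ∂ν := by
        rw [← integral_const_mul, ← integral_sub (i p1.cc p1.cb) ((i pI.cc pI.cb).const_mul I)]
        refine integral_congr_ae (Eventually.of_forall fun α => ?_)
        simp only
        rw [← sy_eq]
        ring
      rw [e3]
      ring
    rw [e2] at l1
    exact l1.congr fun n => (e1 n).symm

theorem iterD (hh : Tendsto h atTop (𝓝 0)) (hu : LB Set.univ 2 u)
    (H : PP h u m ν u (fun _ => 1)) (k : ℕ) : PP h u m ν ((SD h)^[k] u) (fun α => sy α ^ k) := by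
  induction k with
  | zero => simpa using H
  | succ k ih =>
    rw [Function.iterate_succ_apply']
    have := stepD hh hu ih
    simpa only [pow_succ] using this

end

end Pool.Agent.R989.Der
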