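import Pool.Agent.R989.Der2
import Pool.Agent.Results.MP_6b977f_mp.FourPointFunctions
import Pool.Agent.Results.MP_6b977f_mp.PlanckScaleMass

/-! Four point functions of one solution on the whole plane along dilations (helper989). -/

set_option autoImplicit false

open MeasureTheory Filter Topology Complex ProbabilityTheory
open scoped ContDiff ENNReal

namespace Pool.Agent.R989.Det

open Pool.Agent.W745.RW Pool.Agent.TH294.RS Pool.Agent.R989.Der
open Pool.Agent.Results.MP_6b977f_mp.FourPointFunctions (cov gauss parallel)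

noncomputable section

/-- the symmetrised law of the direction -/
def sm (ν : Measure ℝ) : Measure ℝ := (1 / 2 : ℝ≥0∞) • (ν + ν.map (fun α => α + Real.pi))

theorem add_pi_meas : Measurable fun α : ℝ => α + Real.pi := measurable_id.add_const _

instance (ν : Measure ℝ) [IsProbabilityMeasure ν] : IsProbabilityMeasure (sm ν) := by
  have h1 : IsProbabilityMeasure (ν.map fun α => α + Real.pi) :=
    Measure.isProbabilityMeasure_map add_pi_meas.aemeasurable
  refine ⟨?_⟩
  unfold sm
  rw [Measure.smul_apply, Measure.add_apply, measure_univ, measure_univ, smul_eq_mul, one_div,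
    one_add_one_eq_two]
  exact ENNReal.inv_mul_cancel (by norm_num) (by norm_num)

theorem sm_int (ν : Measure ℝ) [IsProbabilityMeasure ν] {f : ℝ → ℂ} (hf : Continuous f)
    (hb : ∃ C, ∀ α, ‖f α‖ ≤ C) : ∫ α, f α ∂(sm ν) = ∫ α, (f α + f (α + Real.pi)) / 2 ∂ν := by
  obtain ⟨C, hC⟩ := hb
  have h1 : IsProbabilityMeasure (ν.map fun α => α + Real.pi) :=
    Measure.isProbabilityMeasure_map add_pi_meas.aemeasurable
  have i : ∀ (μ : Measure ℝ) [IsProbabilityMeasure μ], Integrable f μ := fun μ _ =>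
    Integrable.mono' (integrable_const C) hf.aestronglyMeasurable (Eventually.of_forall hC)
  have i2 : Integrable (fun α => f (α + Real.pi)) ν :=
    Integrable.mono' (integrable_const C) (hf.comp (by fun_prop)).aestronglyMeasurable
      (Eventually.of_forall fun α => hC _)
  unfold sm
  rw [integral_smul_measure, integral_add_measure (i ν) (i _),
    integral_map add_pi_meas.aemeasurable hf.aestronglyMeasurable, integral_div,
    integral_add (i ν) i2]
  simp only [one_div, ENNReal.toReal_inv, ENNReal.toReal_ofNat, Complex.real_smul]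
  push_cast
  ring

theorem rr_pi (w : ℂ) (α : ℝ) : rr w (α + Real.pi) = -rr w α := by
  unfold rr
  rw [Real.cos_add_pi, Real.sin_add_pi]
  ring

theorem sm_pw (ν : Measure ℝ) [IsProbabilityMeasure ν] (w : ℂ) :
    ∫ α, pw w α ∂(sm ν) = ((cov ν w : ℝ) : ℂ) := by
  rw [sm_int ν (pw_cont w) ⟨1, fun α => (pw_norm w α).le⟩]
  unfold cov
  rw [← integral_complex_ofReal]
  refine integral_congr_ae (Eventually.of_forall fun α => ?_)
  simp only [pw]
  rw [rr_pi]
  have h1 : Complex.exp (((-rr w α : ℝ) : ℂ) * I) = Complex.exp (-((rr w α : ℂ) * I)) := by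
    congr 1
    push_cast
    ring
  rw [h1]
  push_cast
  rw [Complex.cos]
  unfold rr
  push_cast
  ring_nf

theorem sm_cov (ν : Measure ℝ) [IsProbabilityMeasure ν] (w : ℂ) : cov (sm ν) w = cov ν w := by
  have h1 := sm_int ν (f := fun α => ((Real.cos (rr w α) : ℝ) : ℂ))
    (Complex.continuous_ofReal.comp (Real.continuous_cos.comp (rr_cont w)))
    ⟨1, fun α => by
      rw [Complex.norm_real]
      exact Real.abs_cos_le_one _⟩
  rw [integral_complex_ofReal] at h1
  have h2 : ((cov (sm ν) w : ℝ) : ℂ) = ((cov ν w : ℝ) : ℂ) := by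
    unfold cov
    refine h1.trans ?_
    rw [← integral_complex_ofReal]
    refine integral_congr_ae (Eventually.of_forall fun α => ?_)
    simp only
    rw [rr_pi, Real.cos_neg]
    unfold rr
    ring
  exact_mod_cast h2

theorem sm_gauss (ν : Measure ℝ) [IsProbabilityMeasure ν] (w : Fin 4 → ℂ) :
    gauss (sm ν) w = gauss ν w := by
  simp only [gauss, sm_cov]

theorem par_meas : MeasurableSet {p : ℝ × ℝ | Real.sin (p.1 - p.2) = 0} :=
  measurableSet_eq_fun (Real.continuous_sin.comp (by fun_prop)).measurable measurable_const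

theorem sm_apply (ν : Measure ℝ) (A : Set ℝ) (hA : MeasurableSet A)
    (h : ∀ α, α + Real.pi ∈ A ↔ α ∈ A) : sm ν A = ν A := by
  unfold sm
  rw [Measure.smul_apply, Measure.add_apply, Measure.map_apply add_pi_meas hA]
  have h1 : (fun α => α + Real.pi) ⁻¹' A = A := by
    ext α
    exact h α
  rw [h1, smul_eq_mul, ← two_mul, ← mul_assoc, one_div, ENNReal.inv_mul_cancel (by norm_num)
    (by norm_num), one_mul]

theorem sm_lint (ν : Measure ℝ) (g : ℝ → ℝ≥0∞) (hg : Measurable g)
    (h : ∀ α, g (α + Real.pi) = g α) : ∫⁻ α, g α ∂(sm ν) = ∫⁻ α, g α ∂ν := by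
  unfold sm
  rw [lintegral_smul_measure, lintegral_add_measure, lintegral_map hg add_pi_meas]
  simp only [h]
  rw [smul_eq_mul, ← two_mul, ← mul_assoc, one_div, ENNReal.inv_mul_cancel (by norm_num)
    (by norm_num), one_mul]

theorem sm_par (ν : Measure ℝ) [IsProbabilityMeasure ν] : parallel (sm ν) = parallel ν := by
  unfold parallel
  rw [measureReal_def, measureReal_def]
  congr 1
  have hs : ∀ α : ℝ, MeasurableSet {β : ℝ | Real.sin (α - β) = 0} := fun α =>
    measurableSet_eq_fun (Real.continuous_sin.comp (by fun_prop)).measurable measurable_const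
  rw [Measure.prod_apply par_meas, Measure.prod_apply par_meas]
  have e1 : ∀ α : ℝ, sm ν (Prod.mk α ⁻¹' {p : ℝ × ℝ | Real.sin (p.1 - p.2) = 0}) =
      ν (Prod.mk α ⁻¹' {p : ℝ × ℝ | Real.sin (p.1 - p.2) = 0}) := by
    intro α
    refine sm_apply ν _ (hs α) fun β => ?_
    simp only [Set.mem_preimage, Set.mem_ofPred_eq]
    rw [← sub_sub, Real.sin_sub_pi, neg_eq_zero]
  have e2 : ∀ α : ℝ, (Prod.mk (α + Real.pi) ⁻¹' {p : ℝ × ℝ | Real.sin (p.1 - p.2) = 0}) =
      (Prod.mk α ⁻¹' {p : ℝ × ℝ | Real.sin (p.1 - p.2) = 0}) := by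
    intro α
    ext β
    simp only [Set.mem_preimage, Set.mem_ofPred_eq]
    rw [show α + Real.pi - β = α - β + Real.pi by ring, Real.sin_add_pi, neg_eq_zero]
  simp only [e1]
  exact sm_lint ν _ (measurable_measure_prodMk_left par_meas) fun α => by rw [e2]

/-! ### dilations -/

theorem fd_dil {g : ℂ → ℝ} (hg : Differentiable ℝ g) (t : ℝ) (z v : ℂ) :
    fderiv ℝ (fun z => g ((t : ℂ) * z)) z v = t * fderiv ℝ g ((t : ℂ) * z) v := by
  have h1 : HasFDerivAt (fun z : ℂ => (t : ℂ) * z) (t • ContinuousLinearMap.id ℝ ℂ) z := by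
    have e : (fun z : ℂ => (t : ℂ) * z) = fun z : ℂ => t • z := by
      funext z
      rw [Complex.real_smul]
    rw [e]
    exact (hasFDerivAt_id z).const_smul t
  have h2 := ((hg ((t : ℂ) * z)).hasFDerivAt.comp z h1).fderiv
  have h3 : fderiv ℝ (fun z => g ((t : ℂ) * z)) z =
      (fderiv ℝ g ((t : ℂ) * z)).comp (t • ContinuousLinearMap.id ℝ ℂ) := h2
  rw [h3]
  simp

theorem lap_dil {f : ℂ → ℝ} (hf : ContDiff ℝ ∞ f) (t : ℝ) (z : ℂ) :
    lap (fun z => f ((t : ℂ) * z)) z = t ^ 2 * lap f ((t : ℂ) * z) := by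
  have hd : Differentiable ℝ f := hf.differentiable (by simp)
  have hs : ∀ v, ContDiff ℝ ∞ fun z => fderiv ℝ f z v := fun v =>
    (hf.fderiv_right (by simp)).clm_apply contDiff_const
  have h1 : ∀ v, (fun z => fderiv ℝ (fun z => f ((t : ℂ) * z)) z v) =
      fun z => t * fderiv ℝ f ((t : ℂ) * z) v := fun v => by
    funext z
    exact fd_dil hd t z v
  have h2 : ∀ v, fderiv ℝ (fun z => fderiv ℝ (fun z => f ((t : ℂ) * z)) z v) z v =
      t ^ 2 * fderiv ℝ (fun z => fderiv ℝ f z v) ((t : ℂ) * z) v := by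
    intro v
    rw [h1 v, fderiv_const_mul]
    · have h3 := fd_dil ((hs v).differentiable (by simp)) t z v
      simp only [smul_apply, smul_eq_mul]
      rw [h3]
      ring
    · exact ((hs v).differentiable (by simp)).differentiableAt.comp z (by fun_prop)
  show fderiv ℝ (fun z => fderiv ℝ (fun z => f ((t : ℂ) * z)) z 1) z 1 +
    fderiv ℝ (fun z => fderiv ℝ (fun z => f ((t : ℂ) * z)) z I) z I = _
  rw [h2, h2]
  unfold lap dx dy
  ring

end

end Pool.Agent.R989.Det
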