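import Pool.Agent.R989.Det

/-! Four point functions of one solution on the whole plane along dilations: main statements
(helper989). -/

set_option autoImplicit false

open MeasureTheory Filter Topology Complex ProbabilityTheory
open scoped ContDiff ENNReal Pointwise

namespace Pool.Agent.R989.Det

open Pool.Agent.W745.RW Pool.Agent.TH294.RS Pool.Agent.R989.Der
open Pool.Agent.Results.MP_6b977f_mp.FourPointFunctions (cov gauss parallel)

noncomputable section

/-- the data: a solution `f` on the plane, dilations `t n`, and its two point functions -/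
structure Dat (f : ℂ → ℝ) (t : ℕ → ℝ) (m : ℝ) (ν : Measure ℝ) : Prop where
  sf : ContDiff ℝ ∞ f
  eq : ∀ z, lap f z + f z = 0
  tp : ∀ n, 0 < t n
  tl : Tendsto t atTop atTop
  bd : ∀ N : ℕ, ∃ C : ℝ, ∀ᶠ n in atTop,
    ∫ z in Metric.closedBall (0 : ℂ) N, f ((t n : ℂ) * z) ^ 4 ≤ C
  two : ∀ φ, TF Set.univ φ → ∀ w ∈ Rt, Tendsto
    (fun n => ∫ z, φ z * (f ((t n : ℂ) * z) * f ((t n : ℂ) * z + w))) atTop
    (𝓝 ((∫ z, φ z) * (m * cov ν w)))

set_option linter.unusedSectionVars false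

variable {f : ℂ → ℝ} {t : ℕ → ℝ} {m : ℝ} {ν : Measure ℝ} [IsProbabilityMeasure ν]

/-- the sequence of dilated functions -/
def du (f : ℂ → ℝ) (t : ℕ → ℝ) (n : ℕ) (z : ℂ) : ℝ := f ((t n : ℂ) * z)
/-- its complex version -/
def dc (f : ℂ → ℝ) (t : ℕ → ℝ) (n : ℕ) (z : ℂ) : ℂ := ((du f t n z : ℝ) : ℂ)

theorem du_sm (H : Dat f t m ν) (n : ℕ) : ContDiff ℝ ∞ (du f t n) :=
  H.sf.comp (contDiff_const.mul contDiff_id)

theorem dc_sm (H : Dat f t m ν) (n : ℕ) : ContDiff ℝ ∞ (dc f t n) :=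
  ofRealCLM.contDiff.comp (du_sm H n)

theorem du_eq (H : Dat f t m ν) (n : ℕ) (z : ℂ) :
    lap (du f t n) z + (t n) ^ 2 * du f t n z = 0 := by
  have h1 := lap_dil H.sf (t n) z
  have h2 := H.eq ((t n : ℂ) * z)
  have h3 : lap (du f t n) z = (t n) ^ 2 * lap f ((t n : ℂ) * z) := h1
  rw [h3]
  unfold du
  linear_combination (t n) ^ 2 * h2

theorem hh (H : Dat f t m ν) : Tendsto (fun n => 1 / t n) atTop (𝓝 0) := by
  simp only [one_div]
  exact H.tl.inv_tendsto_atTop

theorem dlb (H : Dat f t m ν) : LB Set.univ 4 (dc f t) := by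
  refine ⟨fun n => (dc_sm H n).contDiffOn, fun K hK _ => ?_⟩
  obtain ⟨r, hr⟩ := hK.isBounded.subset_closedBall (0 : ℂ)
  obtain ⟨N, hN⟩ := exists_nat_ge r
  obtain ⟨C, hC⟩ := H.bd N
  refine ⟨C, hC.mono fun n hn => ?_⟩
  refine le_trans ?_ hn
  have e1 : ∫ z in K, ‖dc f t n z‖ ^ 4 = ∫ z in K, du f t n z ^ 4 := by
    refine setIntegral_congr_fun hK.measurableSet fun z _ => ?_
    simp only [dc, Complex.norm_real, Real.norm_eq_abs]
    rw [Even.pow_abs (by decide)]
  rw [e1]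
  refine setIntegral_mono_set ?_ ?_ ?_
  · exact ((du_sm H n).continuous.pow 4).continuousOn.integrableOn_compact (isCompact_closedBall _ _)
  · exact Eventually.of_forall fun z => by
      show 0 ≤ du f t n z ^ 4
      positivity
  · exact (hr.trans (Metric.closedBall_subset_closedBall hN)).eventuallyLE

theorem dmc (H : Dat f t m ν) : MC Set.univ (fun n => 1 / t n) (dc f t) := by
  intro k
  refine MK.sol isOpen_univ (fun n => div_pos one_pos (H.tp n)) (hh H) (dlb H)
    (ρ := fun _ => 1) contDiffOn_const (fun n z _ => ?_) k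
  have h1 : lap (dc f t n) z = ((lap (du f t n) z : ℝ) : ℂ) :=
    lap_re isOpen_univ (du_sm H n).contDiffOn (Set.mem_univ z)
  have h2 := du_eq H n z
  have h3 : lap (du f t n) z = -((t n) ^ 2 * du f t n z) := by linarith
  have h4 := (H.tp n).ne'
  simp only [hL]
  rw [h1, h3, ← Complex.ofReal_pow, ← Complex.ofReal_mul]
  simp only [dc, one_mul]
  rw [← Complex.ofReal_neg]
  congr 1
  field_simp

theorem dpp (H : Dat f t m ν) :
    PP (fun n => 1 / t n) (dc f t) m (sm ν) (dc f t) (fun _ => 1) := by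
  refine ⟨dmc H, continuous_const, ⟨1, fun α => by simp⟩, fun φ hφ w hw => ?_⟩
  have e1 : ∀ n, PR φ (fun n => 1 / t n) (dc f t) (dc f t) n w =
      ((∫ z, φ z * (f ((t n : ℂ) * z) * f ((t n : ℂ) * z + w)) : ℝ) : ℂ) := by
    intro n
    unfold PR
    rw [← integral_complex_ofReal]
    refine integral_congr_ae (Eventually.of_forall fun z => ?_)
    simp only [dc, du]
    have h4 : ((t n : ℝ) : ℂ) ≠ 0 := by exact_mod_cast (H.tp n).ne'
    have h5 : ((t n : ℝ) : ℂ) * (z + ((1 / t n : ℝ) : ℂ) * w) = (t n : ℂ) * z + w := by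
      push_cast
      field_simp
    rw [h5]
    push_cast
    ring
  have e2 : ((∫ z, φ z : ℝ) : ℂ) * ((m : ℂ) * ∫ α, (1 : ℂ) * pw w α ∂(sm ν)) =
      (((∫ z, φ z) * (m * cov ν w) : ℝ) : ℂ) := by
    simp only [one_mul]
    rw [sm_pw]
    push_cast
    ring
  rw [e2]
  refine ((Complex.continuous_ofReal.tendsto _).comp (H.two φ hφ w hw)).congr fun n => ?_
  exact (e1 n).symm

theorem iter_eq (t : ℕ → ℝ) (ht : ∀ n, 0 < t n) (G : ℕ → ℂ → ℂ) (k n : ℕ) :
    (SD (fun n => 1 / t n))^[k] G n =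
      (Pool.Agent.Results.MP_6b977f_mp.FourPointFunctions.D ((t n) ^ 2))^[k] (G n) := by
  induction k with
  | zero => rfl
  | succ k ih =>
    rw [Function.iterate_succ_apply', Function.iterate_succ_apply']
    funext z
    rw [← ih]
    simp only [SD, hd, Pool.Agent.Results.MP_6b977f_mp.FourPointFunctions.D, dx, dy]
    rw [Real.sqrt_sq (ht n).le]
    ring

theorem hsc (H : Dat f t m ν) (φ : ℂ → ℝ) (hφ : TF Set.univ φ) (k : ℕ) :
    Tendsto (fun n => ∫ z, (φ z : ℂ) * ((du f t n z : ℂ) *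
      (Pool.Agent.Results.MP_6b977f_mp.FourPointFunctions.D ((t n) ^ 2))^[k]
        (fun w => (du f t n w : ℂ)) z)) atTop
      (𝓝 (∫ z, (φ z : ℂ) * ((m : ℂ) *
        ∫ α, Pool.Agent.Results.MP_6b977f_mp.FourPointFunctions.sym α ^ k ∂(sm ν)))) := by
  have h1 := (iterD (hh H) (MC.lb2 (dmc H)) (dpp H) k).lim φ hφ 0 Rt_zero
  have e1 : ((∫ z, φ z : ℝ) : ℂ) * ((m : ℂ) * ∫ α, sy α ^ k * pw 0 α ∂(sm ν)) =
      ∫ z, (φ z : ℂ) * ((m : ℂ) *
        ∫ α, Pool.Agent.Results.MP_6b977f_mp.FourPointFunctions.sym α ^ k ∂(sm ν)) := by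
    rw [integral_mul_const, integral_complex_ofReal]
    congr 2
    refine integral_congr_ae (Eventually.of_forall fun α => ?_)
    simp only [pw, rr, zero_re, zero_im, zero_mul, add_zero, Complex.ofReal_zero, Complex.exp_zero,
      mul_one]
    rfl
  rw [e1] at h1
  refine h1.congr fun n => ?_
  unfold PR
  refine integral_congr_ae (Eventually.of_forall fun z => ?_)
  simp only [mul_zero, add_zero]
  rw [iter_eq t H.tp]
  rfl

theorem mean_dil (f : ℂ → ℝ) {t R : ℝ} (ht : 0 < t) (hR : 0 < R) (z : ℂ) :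
    Pool.Agent.Results.MP_6b977f_mp.PlanckScaleMass.mean (R / t) (fun w => f ((t : ℂ) * w) ^ 2) z =
      Pool.Agent.Results.MP_6b977f_mp.PlanckScaleMass.mean R (fun w => f w ^ 2) ((t : ℂ) * z) := by
  unfold Pool.Agent.Results.MP_6b977f_mp.PlanckScaleMass.mean
  have e1 : ∫ w in Metric.ball z (R / t), f ((t : ℂ) * w) ^ 2 =
      (t ^ 2)⁻¹ * ∫ w in Metric.ball ((t : ℂ) * z) R, f w ^ 2 := by
    have h1 := Measure.setIntegral_comp_smul_of_pos (volume : Measure ℂ) (fun w => f w ^ 2)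
      (Metric.ball z (R / t)) ht
    rw [Complex.finrank_real_complex] at h1
    have h2 : t • Metric.ball z (R / t) = Metric.ball ((t : ℂ) * z) R := by
      rw [smul_ball ht.ne', Real.norm_eq_abs, abs_of_pos ht, Complex.real_smul]
      congr 1
      field_simp
    rw [h2, smul_eq_mul] at h1
    rw [← h1]
    refine setIntegral_congr_fun measurableSet_ball fun w _ => ?_
    simp only [Complex.real_smul]
  rw [e1]
  field_simp

/-- **The four point function along dilations.** -/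
theorem four (H : Dat f t m ν) (hpar : parallel ν = 0) (K : Set ℂ) (hK : IsCompact K) (φ : ℂ → ℝ)
    (hφ : TF (interior K) φ) (hφ0 : ∀ z, 0 ≤ φ z) (w : Fin 4 → ℂ) (ε : ℝ) (hε : 0 < ε) :
    ∀ᶠ n in atTop, |(∫ z, φ z * ∏ i, f ((t n : ℂ) * z + w i)) -
        (∫ z, φ z) * (m ^ 2 * gauss ν w)| ≤
      (∫ z, φ z * f ((t n : ℂ) * z) ^ 4) - 3 * ((∫ z, φ z) * m ^ 2) +
        ε * (1 + ∫ z in K, f ((t n : ℂ) * z) ^ 4) := by
  have key := Pool.Agent.Results.MP_6b977f_mp.FourPointFunctions.result Set.univ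
    (fun n => (t n) ^ 2) (fun n => pow_pos (H.tp n) 2)
    ((tendsto_pow_atTop (by norm_num)).comp H.tl) (du f t) (fun n => (du_sm H n).contDiffOn)
    (fun n z _ => du_eq H n z) (fun _ => m) (fun K hK _ => by
      have : IsFiniteMeasure (volume.restrict K) := ⟨by
        rw [Measure.restrict_apply_univ]
        exact hK.measure_lt_top⟩
      exact memLp_const m) (Kernel.const ℂ (sm ν)) (fun φ hφ k => by
      have := hsc H φ hφ k
      simpa only [Kernel.const_apply] using this)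
    (Eventually.of_forall fun z => by
      rw [Kernel.const_apply]
      exact (sm_par ν).trans hpar) K hK (Set.subset_univ _) φ hφ hφ0 w ε hε
  refine key.mono fun n hn => ?_
  have h4 : ((t n : ℝ) : ℂ) ≠ 0 := by exact_mod_cast (H.tp n).ne'
  have h5 : ∀ (z : ℂ) (i : Fin 4), du f t n (z + ((1 / √((t n) ^ 2) : ℝ) : ℂ) * w i) =
      f ((t n : ℂ) * z + w i) := by
    intro z i
    rw [Real.sqrt_sq (H.tp n).le]
    unfold du
    congr 1
    push_cast
    field_simp
  simp only [h5, Kernel.const_apply, sm_gauss, integral_mul_const] at hn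
  exact hn

/-- **The local mass along dilations.** -/
theorem mass (H : Dat f t m ν) (K : Set ℂ) (hK : IsCompact K) (φ : ℂ → ℝ)
    (hφ : TF (interior K) φ) (ε : ℝ) (hε : 0 < ε) : ∃ R0 : ℝ, 0 < R0 ∧ ∀ R : ℝ, R0 ≤ R →
    ∀ᶠ n in atTop, |(∫ z, φ z *
        Pool.Agent.Results.MP_6b977f_mp.PlanckScaleMass.mean R (fun w => f w ^ 2)
          ((t n : ℂ) * z) ^ 2) -
        (2 / 3 * (∫ z, φ z * f ((t n : ℂ) * z) ^ 4) - (∫ z, φ z) * (m ^ 2 * (1 - parallel ν)))| ≤
      ε * (1 + ∫ z in K, f ((t n : ℂ) * z) ^ 4) := by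
  have key := (Pool.Agent.Results.MP_6b977f_mp.PlanckScaleMass.result Set.univ isOpen_univ
    (fun n => (t n) ^ 2) (fun n => pow_pos (H.tp n) 2)
    ((tendsto_pow_atTop (by norm_num)).comp H.tl) (du f t) (fun n => (du_sm H n).contDiffOn)
    (fun n z _ => du_eq H n z) (fun _ => m) (fun K hK _ => by
      have : IsFiniteMeasure (volume.restrict K) := ⟨by
        rw [Measure.restrict_apply_univ]
        exact hK.measure_lt_top⟩
      exact memLp_const m) (Kernel.const ℂ (sm ν)) (fun φ hφ k => by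
      have := hsc H φ hφ k
      simp only [Kernel.const_apply]
      exact this) K hK (Set.subset_univ _) φ hφ).2 ε hε
  obtain ⟨R0, hR0, key⟩ := key
  refine ⟨R0, hR0, fun R hR => (key R hR).mono fun n hn => ?_⟩
  have h5 : ∀ z, Pool.Agent.Results.MP_6b977f_mp.PlanckScaleMass.mean (R / √((t n) ^ 2))
      (fun w => du f t n w ^ 2) z =
      Pool.Agent.Results.MP_6b977f_mp.PlanckScaleMass.mean R (fun w => f w ^ 2)
        ((t n : ℂ) * z) := by
    intro z
    rw [Real.sqrt_sq (H.tp n).le]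
    exact mean_dil f (H.tp n) (lt_of_lt_of_le hR0 hR) z
  have h6 : Pool.Agent.Results.MP_6b977f_mp.PlanckScaleMass.parallel (sm ν) = parallel ν := sm_par ν
  simp only [h5, Kernel.const_apply, h6, integral_mul_const] at hn
  exact hn

end

end Pool.Agent.R989.Det
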