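import Pool.Agent.H4R2.AE.Goodt

/-! The effective band edge for a single-site law of mean zero is of second order (helper989). -/

set_option autoImplicit false

open scoped BigOperators
open MeasureTheory

namespace Pool.Agent.R989.En

open Pool.Agent.H4R2
open Pool.Agent.H4R2.AE (T LapW IsSol beta)
open Pool.Agent.H4R2.AE.Good (W clamp)

theorem pw (a b : ℝ) (ha : |a| ≤ 1 / 4) (hb : |b| ≤ 1 / 4) :
    1 / 2 * (b - a) ^ 2 ≤ a * (1 - Real.exp (b - a)) + b * (1 - Real.exp (a - b)) := by
  obtain ⟨a1, a2⟩ := abs_le.1 ha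
  obtain ⟨b1, b2⟩ := abs_le.1 hb
  have h1 : |b - a| ≤ 1 := by rw [abs_le]; constructor <;> linarith
  have h2 : |a - b| ≤ 1 := by rw [abs_sub_comm]; exact h1
  have e1 := abs_le.1 (Real.abs_exp_sub_one_sub_id_le h1)
  have e2 := abs_le.1 (Real.abs_exp_sub_one_sub_id_le h2)
  have e3 := Real.add_one_le_exp (b - a)
  have e4 := Real.add_one_le_exp (a - b)
  have hab : a - b = -(b - a) := by ring
  set D := b - a with hD
  rw [hab] at e2 e4 ⊢
  set P := Real.exp D with hP
  set N := Real.exp (-D) with hN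
  have hs : D ^ 2 ≤ D / 2 * (P - N) := by
    have hsinh : Real.sinh D = (P - N) / 2 := Real.sinh_eq D
    rcases le_total 0 D with h | h
    · have := Real.self_le_sinh_iff.2 h
      rw [hsinh] at this
      nlinarith
    · have := Real.sinh_le_self_iff.2 h
      rw [hsinh] at this
      nlinarith
  have hm : a * (1 - P) + b * (1 - N) = -((a + b) / 2) * (P + N - 2) + D / 2 * (P - N) := by
    rw [hD]
    ring
  rw [hm]
  have h5 : 0 ≤ P + N - 2 := by linarith
  have h6 : P + N - 2 ≤ 2 * D ^ 2 := by nlinarith [e1.2, e2.2]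
  have h7 : (a + b) / 2 ≤ 1 / 4 := by linarith
  have h8 : (a + b) / 2 * (P + N - 2) ≤ 1 / 4 * (P + N - 2) := mul_le_mul_of_nonneg_right h7 h5
  linarith

theorem beta_mul (lam δ κ : ℝ) (hlam : 0 < lam) (hδ : 0 < δ) (hκ : 0 < κ) (s : ℝ) :
    0 ≤ beta lam δ κ s * s := by
  rcases le_total 0 s with h | h
  · have h1 := AE.Cmp.beta_mono lam δ κ hlam hδ s 0 h
    rw [AE.Cmp.beta_zero lam δ κ hδ] at h1
    have : 0 ≤ κ * (s - 0) := mul_nonneg hκ.le (by linarith)
    exact mul_nonneg (by linarith) h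
  · have h1 := AE.Cmp.beta_mono lam δ κ hlam hδ 0 s h
    rw [AE.Cmp.beta_zero lam δ κ hδ] at h1
    have : 0 ≤ κ * (0 - s) := mul_nonneg hκ.le (by linarith)
    exact mul_nonneg_of_nonpos_of_nonpos (by linarith) h

variable {d L : ℕ} [NeZero L]

/-- the deterministic energy estimate -/
theorem quad (lam δ κ E : ℝ) (hlam : 0 < lam) (hδ : 0 < δ) (hδ' : δ ≤ 1 / 8) (hκ : 0 < κ)
    (hE : |E| ≤ lam) (V w : T d L → ℝ) (hV : ∀ x, |V x| ≤ 1) (hw : IsSol lam δ κ V E w) :
    1 / 2 * ∑ x, ∑ i : Fin d, (w (x + Pi.single i 1) - w x) ^ 2 ≤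
      -lam * ∑ x, V x * w x + E * ∑ x, w x := by
  have hb := AE.Cmp.bound lam δ κ E hlam hδ hκ hE V w hV hw
  have hb4 : ∀ x, |w x| ≤ 1 / 4 := fun x => (hb x).trans (by linarith)
  have h1 : ∑ x, w x * (∑ i : Fin d, ((1 - Real.exp (w (x + Pi.single i 1) - w x)) +
      (1 - Real.exp (w (x - Pi.single i 1) - w x))) + lam * V x - E + beta lam δ κ (w x)) = 0 := by
    refine Finset.sum_eq_zero fun x _ => ?_
    rw [hw x, mul_zero]
  have h2 : ∑ x, w x * (∑ i : Fin d, ((1 - Real.exp (w (x + Pi.single i 1) - w x)) +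
      (1 - Real.exp (w (x - Pi.single i 1) - w x))) + lam * V x - E + beta lam δ κ (w x)) =
      ∑ x, ∑ i : Fin d, (w x * (1 - Real.exp (w (x + Pi.single i 1) - w x)) +
        w (x + Pi.single i 1) * (1 - Real.exp (w x - w (x + Pi.single i 1)))) +
      lam * ∑ x, V x * w x - E * ∑ x, w x + ∑ x, beta lam δ κ (w x) * w x := by
    have e1 : ∑ x, ∑ i : Fin d, w (x + Pi.single i 1) *
        (1 - Real.exp (w x - w (x + Pi.single i 1))) =
        ∑ x, ∑ i : Fin d, w x * (1 - Real.exp (w (x - Pi.single i 1) - w x)) := by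
      rw [Finset.sum_comm]
      conv_rhs => rw [Finset.sum_comm]
      refine Finset.sum_congr rfl fun i _ => ?_
      have := AE.Lin.shift_sum (fun x => w (x + Pi.single i 1) *
        (1 - Real.exp (w x - w (x + Pi.single i 1)))) (Pi.single i 1)
      rw [← this]
      refine Finset.sum_congr rfl fun x _ => ?_
      simp
    simp only [Finset.sum_add_distrib]
    rw [e1, ← Finset.sum_add_distrib, Finset.mul_sum, Finset.mul_sum, ← Finset.sum_add_distrib,
      ← Finset.sum_sub_distrib, ← Finset.sum_add_distrib]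
    refine Finset.sum_congr rfl fun x _ => ?_
    rw [← Finset.mul_sum, ← Finset.mul_sum]
    ring
  have h3 : 1 / 2 * ∑ x, ∑ i : Fin d, (w (x + Pi.single i 1) - w x) ^ 2 ≤
      ∑ x, ∑ i : Fin d, (w x * (1 - Real.exp (w (x + Pi.single i 1) - w x)) +
        w (x + Pi.single i 1) * (1 - Real.exp (w x - w (x + Pi.single i 1)))) := by
    rw [Finset.mul_sum]
    refine Finset.sum_le_sum fun x _ => ?_
    rw [Finset.mul_sum]
    exact Finset.sum_le_sum fun i _ => pw _ _ (hb4 x) (hb4 _)
  have h4 : 0 ≤ ∑ x, beta lam δ κ (w x) * w x :=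
    Finset.sum_nonneg fun x _ => beta_mul lam δ κ hlam hδ hκ _
  rw [h2] at h1
  linarith

/-- translation invariance -/
theorem int_shift (μ : Measure ℝ) [IsProbabilityMeasure μ] (a : T d L) (F : (T d L → ℝ) → ℝ)
    (hF : Measurable F) :
    ∫ V, F (fun y => V (y + a)) ∂(Measure.pi fun _ : T d L => μ) =
      ∫ V, F V ∂(Measure.pi fun _ : T d L => μ) := by
  have hmp := AE.Good.good_mp (L := L) μ a
  have h2 := integral_map (μ := Measure.pi fun _ : T d L => μ) hmp.measurable.aemeasurable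
    (f := F) hF.aestronglyMeasurable
  rw [hmp.map_eq] at h2
  exact h2.symm

section
variable (lam δ κ E : ℝ) (hlam : 0 < lam) (hδ : 0 < δ) (hδ' : δ ≤ 1 / 8) (hκ : 0 < κ)
  (hE : |E| ≤ lam) (μ : Measure ℝ) [IsProbabilityMeasure μ]

/-- the expected energy per site -/
noncomputable def S (lam δ κ E : ℝ) (μ : Measure ℝ) (d L : ℕ) [NeZero L] : ℝ :=
  ∑ i : Fin d, ∫ V, (W (d := d) (L := L) lam δ κ E V (Pi.single i 1) -
    W (d := d) (L := L) lam δ κ E V 0) ^ 2 ∂(Measure.pi fun _ : T d L => μ)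

include hlam hδ hκ hE in
theorem W_meas (x : T d L) : Measurable fun V : T d L → ℝ => W lam δ κ E V x :=
  (AE.Good.good_cont lam δ κ E hlam hδ hκ hE x).measurable

omit [NeZero L] in
theorem clamp_meas (x : T d L) : Measurable fun V : T d L → ℝ => clamp V x := by
  unfold AE.Good.clamp
  fun_prop

include hlam hδ hκ hE in
theorem S_at (x : T d L) : ∑ i : Fin d, ∫ V, (W (d := d) (L := L) lam δ κ E V (x + Pi.single i 1) -
    W (d := d) (L := L) lam δ κ E V x) ^ 2 ∂(Measure.pi fun _ : T d L => μ) =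
    S lam δ κ E μ d L := by
  unfold S
  refine Finset.sum_congr rfl fun i _ => ?_
  have h1 := int_shift μ x (fun V : T d L → ℝ => (W (d := d) (L := L) lam δ κ E V (Pi.single i 1) -
    W (d := d) (L := L) lam δ κ E V 0) ^ 2)
    (((W_meas lam δ κ E hlam hδ hκ hE _).sub (W_meas lam δ κ E hlam hδ hκ hE _)).pow_const 2)
  rw [← h1]
  refine integral_congr_ae (Filter.Eventually.of_forall fun V => ?_)
  simp only
  rw [AE.Good.good_shift lam δ κ E hlam hδ hκ hE V x, AE.Good.good_shift lam δ κ E hlam hδ hκ hE V x,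
    zero_add, add_comm]

include hlam hδ hκ hE in
theorem cov_at (x : T d L) : ∫ V, clamp V x * W (d := d) (L := L) lam δ κ E V x
      ∂(Measure.pi fun _ : T d L => μ) =
    ∫ V, clamp V 0 * W (d := d) (L := L) lam δ κ E V 0 ∂(Measure.pi fun _ : T d L => μ) := by
  have h1 := int_shift μ x (fun V : T d L → ℝ => clamp V 0 * W (d := d) (L := L) lam δ κ E V 0)
    ((clamp_meas 0).mul (W_meas lam δ κ E hlam hδ hκ hE _))
  rw [← h1]
  refine integral_congr_ae (Filter.Eventually.of_forall fun V => ?_)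
  simp only
  rw [AE.Good.good_shift lam δ κ E hlam hδ hκ hE V x, zero_add]
  unfold AE.Good.clamp
  simp only [zero_add]

theorem int_of_bd {F : (T d L → ℝ) → ℝ} (hF : Measurable F) (C : ℝ) (h : ∀ V, |F V| ≤ C) :
    Integrable F (Measure.pi fun _ : T d L => μ) :=
  Integrable.of_bound hF.aestronglyMeasurable C
    (Filter.Eventually.of_forall fun V => by rw [Real.norm_eq_abs]; exact h V)

include hlam hδ hδ' hκ hE in
theorem S_le (hE0 : ∫ V, W (d := d) (L := L) lam δ κ E V 0 ∂(Measure.pi fun _ : T d L => μ) = 0) :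
    1 / 2 * S lam δ κ E μ d L ≤
      -lam * ∫ V, clamp V 0 * W (d := d) (L := L) lam δ κ E V 0
        ∂(Measure.pi fun _ : T d L => μ) := by
  have hbd : ∀ (V : T d L → ℝ) x, |W lam δ κ E V x| ≤ 1 / 4 := fun V x =>
    (AE.Good.good_bound lam δ κ E hlam hδ hκ hE V x).trans (by linarith)
  have mW : ∀ x : T d L, Measurable fun V : T d L → ℝ => W lam δ κ E V x := fun x =>
    W_meas lam δ κ E hlam hδ hκ hE x
  have i1 : ∀ (x : T d L) (i : Fin d), Integrable (fun V : T d L → ℝ =>
      (W lam δ κ E V (x + Pi.single i 1) - W lam δ κ E V x) ^ 2)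
      (Measure.pi fun _ : T d L => μ) := fun x i =>
    int_of_bd μ (((mW _).sub (mW _)).pow_const 2) 1 (fun V => by
      obtain ⟨a1, a2⟩ := abs_le.1 (hbd V (x + Pi.single i 1))
      obtain ⟨b1, b2⟩ := abs_le.1 (hbd V x)
      rw [abs_of_nonneg (sq_nonneg _)]
      nlinarith)
  have i2 : ∀ x : T d L, Integrable (fun V : T d L → ℝ => clamp V x * W lam δ κ E V x)
      (Measure.pi fun _ : T d L => μ) := fun x =>
    int_of_bd μ ((clamp_meas x).mul (mW x)) 1 (fun V => by
      rw [abs_mul]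
      have := AE.Good.good_clamp_le V x
      have := hbd V x
      have := abs_nonneg (clamp V x)
      have := abs_nonneg (W lam δ κ E V x)
      nlinarith)
  have i3 : ∀ x : T d L, Integrable (fun V : T d L → ℝ => W lam δ κ E V x)
      (Measure.pi fun _ : T d L => μ) := fun x => int_of_bd μ (mW x) _ fun V => hbd V x
  have h1 : ∫ V : T d L → ℝ, (1 / 2 * ∑ x, ∑ i : Fin d,
      (W lam δ κ E V (x + Pi.single i 1) - W lam δ κ E V x) ^ 2)
        ∂(Measure.pi fun _ : T d L => μ) ≤
      ∫ V : T d L → ℝ, (-lam * ∑ x, clamp V x * W lam δ κ E V x + E * ∑ x, W lam δ κ E V x)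
        ∂(Measure.pi fun _ : T d L => μ) := by
    refine integral_mono ?_ ?_ fun V => quad lam δ κ E hlam hδ hδ' hκ hE (clamp V) _
      (AE.Good.good_clamp_le V) (AE.Good.good_W lam δ κ E V hlam hδ hκ hE)
    · exact (integrable_finsetSum _ fun x _ => integrable_finsetSum _ fun i _ => i1 x i).const_mul _
    · exact ((integrable_finsetSum _ fun x _ => i2 x).const_mul _).add
        ((integrable_finsetSum _ fun x _ => i3 x).const_mul _)
  rw [integral_const_mul, integral_finsetSum _ fun x _ => integrable_finsetSum _ fun i _ => i1 x i,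
    integral_add ((integrable_finsetSum _ fun x _ => i2 x).const_mul _)
        ((integrable_finsetSum _ fun x _ => i3 x).const_mul _), integral_const_mul,
    integral_const_mul, integral_finsetSum _ fun x _ => i2 x,
    integral_finsetSum _ fun x _ => i3 x] at h1
  have h2 : ∀ x : T d L, ∫ V : T d L → ℝ, ∑ i : Fin d,
      (W lam δ κ E V (x + Pi.single i 1) - W lam δ κ E V x) ^ 2
        ∂(Measure.pi fun _ : T d L => μ) = S lam δ κ E μ d L := by
    intro x
    rw [integral_finsetSum _ fun i _ => i1 x i]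
    exact S_at lam δ κ E hlam hδ hκ hE μ x
  have h3 : ∀ x : T d L, ∫ V : T d L → ℝ, W lam δ κ E V x ∂(Measure.pi fun _ : T d L => μ) = 0 := by
    intro x
    rw [AE.Good.good_mean lam δ κ E hlam hδ hκ hE μ x]
    exact hE0
  rw [Finset.sum_congr rfl fun x _ => h2 x, Finset.sum_congr rfl fun x _ => h3 x,
    Finset.sum_congr rfl fun x _ => cov_at lam δ κ E hlam hδ hκ hE μ x, Finset.sum_const,
    Finset.sum_const, Finset.sum_const_zero, mul_zero, add_zero, nsmul_eq_mul, nsmul_eq_mul] at h1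
  have hN : (0 : ℝ) < (Finset.univ : Finset (T d L)).card := by
    have : 0 < (Finset.univ : Finset (T d L)).card := Finset.card_pos.2 Finset.univ_nonempty
    exact_mod_cast this
  have h4 : (Finset.univ : Finset (T d L)).card * (1 / 2 * S lam δ κ E μ d L) ≤
      (Finset.univ : Finset (T d L)).card * (-lam * ∫ V, clamp V 0 * W (d := d) (L := L) lam δ κ E V 0
        ∂(Measure.pi fun _ : T d L => μ)) := by
    linarith
  exact le_of_mul_le_mul_left h4 hN

include hlam hδ hδ' hκ hE in
/-- influence of the potential at the site on the solution there -/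
theorem cov_le (hμ0 : ∫ t, max (-1) (min 1 t) ∂μ = 0) (Gm : ℝ)
    (hGm : ∀ (u Gr : T d L → ℝ) (x0 : T d L), (∀ x, 1 / 2 ≤ u x) → (∀ x, 0 ≤ Gr x) →
      (∀ x, LapW u Gr x + κ * Real.exp (-(4 * δ)) * Gr x = if x = x0 then 1 else 0) →
      Gr x0 ≤ Gm) :
    |∫ V, clamp V 0 * W (d := d) (L := L) lam δ κ E V 0 ∂(Measure.pi fun _ : T d L => μ)| ≤
      6 * lam * Gm := by
  have hbd : ∀ (V : T d L → ℝ) x, |W lam δ κ E V x| ≤ 1 / 4 := fun V x =>
    (AE.Good.good_bound lam δ κ E hlam hδ hκ hE V x).trans (by linarith)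
  have mW : ∀ x : T d L, Measurable fun V : T d L → ℝ => W lam δ κ E V x := fun x =>
    W_meas lam δ κ E hlam hδ hκ hE x
  have h1 := AE.Ent.en_resample μ (0 : T d L)
    (fun V : T d L → ℝ => clamp V 0 * W (d := d) (L := L) lam δ κ E V 0)
    ((clamp_meas 0).mul (mW 0)) 1 (fun V => by
      rw [abs_mul]
      have := AE.Good.good_clamp_le V 0
      have := hbd V 0
      have := abs_nonneg (clamp V 0)
      have := abs_nonneg (W lam δ κ E V 0)
      nlinarith)
  rw [h1]
  have h2 : ∀ V : T d L → ℝ, |∫ t, clamp (Function.update V 0 t) 0 *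
      W (d := d) (L := L) lam δ κ E (Function.update V 0 t) 0 ∂μ| ≤ 6 * lam * Gm := by
    intro V
    have hw := AE.Good.good_W lam δ κ E V hlam hδ hκ hE
    have bw := AE.Cmp.bound lam δ κ E hlam hδ hκ hE (clamp V) _ (AE.Good.good_clamp_le V) hw
    obtain ⟨Gr, hGr⟩ := AE.Lin.solve (fun y => Real.exp (W lam δ κ E V y))
      (fun _ : T d L => κ * Real.exp (-(4 * δ))) (fun y => if y = 0 then (1 : ℝ) else 0)
      (fun y => Real.exp_pos _) (fun _ => by positivity)
    have hGr0 : ∀ y, 0 ≤ Gr y :=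
      AE.Lin.nonneg (fun y => Real.exp (W lam δ κ E V y)) (fun _ => κ * Real.exp (-(4 * δ))) Gr
        (fun y => Real.exp_pos _) (fun _ => by positivity) (by
        intro y; rw [hGr y]; split_ifs <;> norm_num)
    have hu : ∀ y, 1 / 2 ≤ Real.exp (W lam δ κ E V y) := by
      intro y
      have h1 := (abs_le.1 (bw y)).1
      have h2 := Real.add_one_le_exp (W lam δ κ E V y)
      linarith
    have hG0 := hGm _ Gr 0 hu hGr0 hGr
    have he : Real.exp 1 ≤ 3 := by
      have := Real.exp_one_lt_d9; linarith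
    have hdiff : ∀ t, |W lam δ κ E (Function.update V 0 t) 0 - W lam δ κ E V 0| ≤
        6 * lam * Gm := by
      intro t
      have hc := AE.Sens.claim lam δ κ E hlam hδ hδ' hκ hE (clamp V) _
        (clamp (Function.update V 0 t)) _ (AE.Good.good_clamp_le V) (AE.Good.good_clamp_le _) hw
        (AE.Good.good_W lam δ κ E (Function.update V 0 t) hlam hδ hκ hE) 0 0
        (fun y hy => by unfold AE.Good.clamp; rw [Function.update_of_ne hy]) Gr hGr hGr0
      refine hc.trans ?_
      have h0 := hGr0 0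
      have h3 : 0 ≤ lam * Gr 0 := mul_nonneg hlam.le h0
      have h4 : lam * Gr 0 ≤ lam * Gm := mul_le_mul_of_nonneg_left hG0 hlam.le
      nlinarith
    have hcl : ∀ t, clamp (Function.update V 0 t) 0 = max (-1) (min 1 t) := by
      intro t
      unfold AE.Good.clamp
      rw [Function.update_self]
    have mcl : Measurable fun t : ℝ => max (-1) (min 1 t) := by fun_prop
    have bcl : ∀ t : ℝ, |max (-1) (min 1 t)| ≤ 1 := by
      intro t
      rw [abs_le]
      exact ⟨le_max_left _ _, max_le (by norm_num) (min_le_left _ _)⟩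
    have mWt : Measurable fun t : ℝ => W lam δ κ E (Function.update V 0 t) 0 :=
      (mW 0).comp (measurable_update V)
    have icl : Integrable (fun t : ℝ => max (-1) (min 1 t)) μ :=
      Integrable.of_bound mcl.aestronglyMeasurable 1
        (Filter.Eventually.of_forall fun t => by rw [Real.norm_eq_abs]; exact bcl t)
    have i1 : Integrable (fun t : ℝ => max (-1) (min 1 t) *
        W lam δ κ E (Function.update V 0 t) 0) μ :=
      Integrable.of_bound (mcl.mul mWt).aestronglyMeasurable 1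
        (Filter.Eventually.of_forall fun t => by
          rw [Real.norm_eq_abs, abs_mul]
          have := bcl t
          have := hbd (Function.update V 0 t) 0
          have := abs_nonneg (max (-1) (min 1 t))
          have := abs_nonneg (W lam δ κ E (Function.update V 0 t) 0)
          nlinarith)
    have h5 : ∫ t, clamp (Function.update V 0 t) 0 *
        W (d := d) (L := L) lam δ κ E (Function.update V 0 t) 0 ∂μ =
        ∫ t, max (-1) (min 1 t) *
          (W lam δ κ E (Function.update V 0 t) 0 - W lam δ κ E V 0) ∂μ := by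
      have h6 : ∫ t, max (-1) (min 1 t) *
          (W lam δ κ E (Function.update V 0 t) 0 - W lam δ κ E V 0) ∂μ =
          ∫ t, max (-1) (min 1 t) * W lam δ κ E (Function.update V 0 t) 0 ∂μ -
            ∫ t, max (-1) (min 1 t) * W lam δ κ E V 0 ∂μ := by
        rw [← integral_sub i1 (icl.mul_const _)]
        exact integral_congr_ae (Filter.Eventually.of_forall fun t => by ring)
      rw [h6, integral_mul_const, hμ0, zero_mul, sub_zero]
      exact integral_congr_ae (Filter.Eventually.of_forall fun t => by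
        simp only
        rw [hcl t])
    rw [h5]
    have h7 := norm_integral_le_of_norm_le_const (μ := μ)
      (f := fun t : ℝ => max (-1) (min 1 t) *
          (W lam δ κ E (Function.update V 0 t) 0 - W lam δ κ E V 0))
      (C := 6 * lam * Gm) (Filter.Eventually.of_forall fun t => by
        rw [Real.norm_eq_abs, abs_mul]
        have a1 := bcl t
        have a2 := hdiff t
        have a3 := abs_nonneg (max (-1) (min 1 t))
        have a4 := abs_nonneg (W lam δ κ E (Function.update V 0 t) 0 - W lam δ κ E V 0)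
        nlinarith)
    rw [Real.norm_eq_abs, probReal_univ, mul_one] at h7
    exact h7
  have h8 := norm_integral_le_of_norm_le_const (μ := Measure.pi fun _ : T d L => μ)
    (f := fun V : T d L → ℝ => ∫ t, clamp (Function.update V 0 t) 0 *
      W (d := d) (L := L) lam δ κ E (Function.update V 0 t) 0 ∂μ)
    (C := 6 * lam * Gm) (Filter.Eventually.of_forall fun V => by
      rw [Real.norm_eq_abs]
      exact h2 V)
  rw [Real.norm_eq_abs, probReal_univ, mul_one] at h8
  exact h8

theorem beta_diff (hδ : 0 < δ) (hlam : 0 < lam) (s : ℝ) (hs : |s| ≤ 2 * δ) :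
    |beta lam δ κ s - κ * s| ≤ if δ ≤ |s| then 2 * lam else 0 := by
  obtain ⟨s1, s2⟩ := abs_le.1 hs
  unfold AE.beta
  split_ifs with h
  · have e : κ * s + 2 * lam / δ * (max (s - δ) 0 - max (-s - δ) 0) - κ * s =
        2 * lam / δ * (max (s - δ) 0 - max (-s - δ) 0) := by ring
    rw [e, abs_mul, abs_of_pos (by positivity : 0 < 2 * lam / δ)]
    have h1 : |max (s - δ) 0 - max (-s - δ) 0| ≤ δ := by
      rw [abs_le]
      rcases le_total 0 s with h0 | h0
      · have h2 : max (-s - δ) 0 = 0 := max_eq_right (by linarith)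
        rw [h2]
        have h3 := le_max_right (s - δ) 0
        have h4 : max (s - δ) 0 ≤ δ := max_le (by linarith) hδ.le
        constructor <;> linarith
      · have h2 : max (s - δ) 0 = 0 := max_eq_right (by linarith)
        rw [h2]
        have h3 := le_max_right (-s - δ) 0
        have h4 : max (-s - δ) 0 ≤ δ := max_le (by linarith) hδ.le
        constructor <;> linarith
    calc 2 * lam / δ * |max (s - δ) 0 - max (-s - δ) 0| ≤ 2 * lam / δ * δ :=
          mul_le_mul_of_nonneg_left h1 (by positivity)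
      _ = 2 * lam := by field_simp
  · push Not at h
    obtain ⟨h1, h2⟩ := abs_lt.1 h
    rw [max_eq_right (by linarith : s - δ ≤ 0), max_eq_right (by linarith : -s - δ ≤ 0)]
    simp

include hlam hδ hδ' hκ hE in
/-- the integrated equation -/
theorem E_le (hμ0 : ∫ t, max (-1) (min 1 t) ∂μ = 0)
    (hE0 : ∫ V, W (d := d) (L := L) lam δ κ E V 0 ∂(Measure.pi fun _ : T d L => μ) = 0) :
    |E| ≤ 2 * S lam δ κ E μ d L + 2 * lam * (Measure.pi fun _ : T d L => μ).real
      {V | δ ≤ |W (d := d) (L := L) lam δ κ E V 0|} := by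
  have hbd : ∀ (V : T d L → ℝ) x, |W lam δ κ E V x| ≤ 1 / 4 := fun V x =>
    (AE.Good.good_bound lam δ κ E hlam hδ hκ hE V x).trans (by linarith)
  have mW : ∀ x : T d L, Measurable fun V : T d L → ℝ => W lam δ κ E V x := fun x =>
    W_meas lam δ κ E hlam hδ hκ hE x
  have i1 : ∀ x : T d L, Integrable (fun V : T d L → ℝ =>
      (W lam δ κ E V x - W lam δ κ E V 0) ^ 2)
      (Measure.pi fun _ : T d L => μ) := fun x =>
    int_of_bd μ (((mW _).sub (mW _)).pow_const 2) 1 (fun V => by
      obtain ⟨a1, a2⟩ := abs_le.1 (hbd V x)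
      obtain ⟨b1, b2⟩ := abs_le.1 (hbd V 0)
      rw [abs_of_nonneg (sq_nonneg _)]
      nlinarith)
  have i3 : ∀ x : T d L, Integrable (fun V : T d L → ℝ => W lam δ κ E V x)
      (Measure.pi fun _ : T d L => μ) := fun x => int_of_bd μ (mW x) _ fun V => hbd V x
  have icl : Integrable (fun V : T d L → ℝ => clamp V 0) (Measure.pi fun _ : T d L => μ) :=
    int_of_bd μ (clamp_meas 0) 1 fun V => AE.Good.good_clamp_le V 0
  have hmean : ∀ x : T d L, ∫ V : T d L → ℝ, W lam δ κ E V x ∂(Measure.pi fun _ : T d L => μ) = 0 := by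
    intro x
    rw [AE.Good.good_mean lam δ κ E hlam hδ hκ hE μ x]
    exact hE0
  have hcl0 : ∫ V : T d L → ℝ, clamp V 0 ∂(Measure.pi fun _ : T d L => μ) = 0 := by
    have h := integral_comp_eval (μ := fun _ : T d L => μ) (i := (0 : T d L))
      (f := fun t : ℝ => max (-1) (min 1 t)) (by fun_prop)
    rw [hμ0] at h
    exact h
  have hms : MeasurableSet {V : T d L → ℝ | δ ≤ |W lam δ κ E V 0|} :=
    measurableSet_le measurable_const (mW 0).abs
  -- pointwise
  have hpt : ∀ V : T d L → ℝ, |E + ∑ i : Fin d, ((W lam δ κ E V (Pi.single i 1) - W lam δ κ E V 0) +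
      (W lam δ κ E V (-Pi.single i 1) - W lam δ κ E V 0)) - lam * clamp V 0 -
        κ * W lam δ κ E V 0| ≤
      ∑ i : Fin d, ((W lam δ κ E V (Pi.single i 1) - W lam δ κ E V 0) ^ 2 +
        (W lam δ κ E V (-Pi.single i 1) - W lam δ κ E V 0) ^ 2) +
      Set.indicator {V : T d L → ℝ | δ ≤ |W lam δ κ E V 0|} (fun _ => 2 * lam) V := by
    intro V
    have h1 := AE.Good.good_W lam δ κ E V hlam hδ hκ hE 0
    simp only [zero_add, zero_sub] at h1
    have h2 : E + ∑ i : Fin d, ((W lam δ κ E V (Pi.single i 1) - W lam δ κ E V 0) +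
        (W lam δ κ E V (-Pi.single i 1) - W lam δ κ E V 0)) - lam * clamp V 0 -
          κ * W lam δ κ E V 0 =
        -(∑ i : Fin d, ((Real.exp (W lam δ κ E V (Pi.single i 1) - W lam δ κ E V 0) - 1 -
            (W lam δ κ E V (Pi.single i 1) - W lam δ κ E V 0)) +
          (Real.exp (W lam δ κ E V (-Pi.single i 1) - W lam δ κ E V 0) - 1 -
            (W lam δ κ E V (-Pi.single i 1) - W lam δ κ E V 0)))) +
        (beta lam δ κ (W lam δ κ E V 0) - κ * W lam δ κ E V 0) := by
      have h3 : ∑ i : Fin d, ((Real.exp (W lam δ κ E V (Pi.single i 1) - W lam δ κ E V 0) - 1 -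
            (W lam δ κ E V (Pi.single i 1) - W lam δ κ E V 0)) +
          (Real.exp (W lam δ κ E V (-Pi.single i 1) - W lam δ κ E V 0) - 1 -
            (W lam δ κ E V (-Pi.single i 1) - W lam δ κ E V 0))) =
          -∑ i : Fin d, ((1 - Real.exp (W lam δ κ E V (Pi.single i 1) - W lam δ κ E V 0)) +
            (1 - Real.exp (W lam δ κ E V (-Pi.single i 1) - W lam δ κ E V 0))) -
          ∑ i : Fin d, ((W lam δ κ E V (Pi.single i 1) - W lam δ κ E V 0) +
            (W lam δ κ E V (-Pi.single i 1) - W lam δ κ E V 0)) := by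
        rw [← Finset.sum_neg_distrib, ← Finset.sum_sub_distrib]
        exact Finset.sum_congr rfl fun i _ => by ring
      rw [h3]
      linarith
    rw [h2]
    refine (abs_add_le _ _).trans (add_le_add ?_ ?_)
    · rw [abs_neg]
      refine (Finset.abs_sum_le_sum_abs _ _).trans (Finset.sum_le_sum fun i _ => ?_)
      refine (abs_add_le _ _).trans (add_le_add ?_ ?_)
      · refine Real.abs_exp_sub_one_sub_id_le ?_
        obtain ⟨a1, a2⟩ := abs_le.1 (hbd V (Pi.single i 1))
        obtain ⟨b1, b2⟩ := abs_le.1 (hbd V 0)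
        rw [abs_le]
        constructor <;> linarith
      · refine Real.abs_exp_sub_one_sub_id_le ?_
        obtain ⟨a1, a2⟩ := abs_le.1 (hbd V (-Pi.single i 1))
        obtain ⟨b1, b2⟩ := abs_le.1 (hbd V 0)
        rw [abs_le]
        constructor <;> linarith
    · refine (beta_diff lam δ κ hδ hlam _
        (AE.Good.good_bound lam δ κ E hlam hδ hκ hE V 0)).trans (le_of_eq ?_)
      by_cases hV : δ ≤ |W lam δ κ E V 0|
      · rw [if_pos hV, Set.indicator_of_mem (by exact hV)]
      · rw [if_neg hV, Set.indicator_of_notMem (by exact hV)]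
  -- integrate
  have i5 : Integrable (fun V : T d L → ℝ => ∑ i : Fin d,
      ((W lam δ κ E V (Pi.single i 1) - W lam δ κ E V 0) +
      (W lam δ κ E V (-Pi.single i 1) - W lam δ κ E V 0))) (Measure.pi fun _ : T d L => μ) :=
    integrable_finsetSum _ fun i _ => ((i3 _).sub (i3 _)).add ((i3 _).sub (i3 _))
  have i6 : Integrable (fun V : T d L → ℝ => ∑ i : Fin d,
      ((W lam δ κ E V (Pi.single i 1) - W lam δ κ E V 0) ^ 2 +
        (W lam δ κ E V (-Pi.single i 1) - W lam δ κ E V 0) ^ 2))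
      (Measure.pi fun _ : T d L => μ) :=
    integrable_finsetSum _ fun i _ => (i1 _).add (i1 _)
  have i7 : Integrable (fun V : T d L → ℝ =>
      Set.indicator {V : T d L → ℝ | δ ≤ |W lam δ κ E V 0|} (fun _ => 2 * lam) V)
      (Measure.pi fun _ : T d L => μ) := (integrable_const _).indicator hms
  have h1 : ∫ V : T d L → ℝ, (E + ∑ i : Fin d, ((W lam δ κ E V (Pi.single i 1) -
      W lam δ κ E V 0) + (W lam δ κ E V (-Pi.single i 1) - W lam δ κ E V 0)) - lam * clamp V 0 -
        κ * W lam δ κ E V 0) ∂(Measure.pi fun _ : T d L => μ) = E := by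
    have j1 : Integrable (fun V : T d L → ℝ => E + ∑ i : Fin d,
      ((W lam δ κ E V (Pi.single i 1) - W lam δ κ E V 0) +
      (W lam δ κ E V (-Pi.single i 1) - W lam δ κ E V 0))) (Measure.pi fun _ : T d L => μ) :=
      (integrable_const _).add i5
    have j2 : Integrable (fun V : T d L → ℝ => E + ∑ i : Fin d,
      ((W lam δ κ E V (Pi.single i 1) - W lam δ κ E V 0) +
      (W lam δ κ E V (-Pi.single i 1) - W lam δ κ E V 0)) - lam * clamp V 0)
      (Measure.pi fun _ : T d L => μ) := j1.sub (icl.const_mul _)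
    have j3 : ∀ i : Fin d, Integrable (fun V : T d L → ℝ =>
      ((W lam δ κ E V (Pi.single i 1) - W lam δ κ E V 0) +
      (W lam δ κ E V (-Pi.single i 1) - W lam δ κ E V 0))) (Measure.pi fun _ : T d L => μ) :=
      fun i => ((i3 _).sub (i3 _)).add ((i3 _).sub (i3 _))
    rw [integral_sub j2 ((i3 0).const_mul _),
      integral_sub j1 (icl.const_mul _),
      integral_add (integrable_const _) i5, integral_const_mul, integral_const_mul, hmean, hcl0,
      integral_finsetSum _ fun i _ => j3 i]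
    have h2 : ∀ i : Fin d, ∫ V : T d L → ℝ, ((W lam δ κ E V (Pi.single i 1) -
        W lam δ κ E V 0) + (W lam δ κ E V (-Pi.single i 1) - W lam δ κ E V 0))
          ∂(Measure.pi fun _ : T d L => μ) = 0 := by
      intro i
      have j4 : ∀ y : T d L, Integrable (fun V : T d L → ℝ => W lam δ κ E V y -
        W lam δ κ E V 0) (Measure.pi fun _ : T d L => μ) := fun y => (i3 _).sub (i3 _)
      rw [integral_add (j4 _) (j4 _), integral_sub (i3 _) (i3 _),
        integral_sub (i3 _) (i3 _), hmean, hmean, hmean]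
      ring
    rw [Finset.sum_congr rfl fun i _ => h2 i]
    simp
  have h3 : |E| ≤ ∫ V : T d L → ℝ, (∑ i : Fin d,
      ((W lam δ κ E V (Pi.single i 1) - W lam δ κ E V 0) ^ 2 +
        (W lam δ κ E V (-Pi.single i 1) - W lam δ κ E V 0) ^ 2) +
      Set.indicator {V : T d L → ℝ | δ ≤ |W lam δ κ E V 0|} (fun _ => 2 * lam) V)
        ∂(Measure.pi fun _ : T d L => μ) := by
    conv_lhs => rw [← h1]
    refine (abs_integral_le_integral_abs).trans ?_
    refine integral_mono ?_ (i6.add i7) hpt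
    exact ((((integrable_const _).add i5).sub (icl.const_mul _)).sub ((i3 0).const_mul _)).abs
  have j5 : ∀ i : Fin d, Integrable (fun V : T d L → ℝ =>
      (W lam δ κ E V (Pi.single i 1) - W lam δ κ E V 0) ^ 2 +
      (W lam δ κ E V (-Pi.single i 1) - W lam δ κ E V 0) ^ 2) (Measure.pi fun _ : T d L => μ) :=
      fun i => (i1 _).add (i1 _)
  rw [integral_add i6 i7, integral_finsetSum _ fun i _ => j5 i,
    integral_indicator_const _ hms, smul_eq_mul] at h3
  have h4 : ∀ i : Fin d, ∫ V : T d L → ℝ, ((W lam δ κ E V (Pi.single i 1) - W lam δ κ E V 0) ^ 2 +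
        (W lam δ κ E V (-Pi.single i 1) - W lam δ κ E V 0) ^ 2)
        ∂(Measure.pi fun _ : T d L => μ) = 2 *
      ∫ V : T d L → ℝ, (W lam δ κ E V (Pi.single i 1) - W lam δ κ E V 0) ^ 2
        ∂(Measure.pi fun _ : T d L => μ) := by
    intro i
    rw [integral_add (i1 _) (i1 _)]
    have h5 := int_shift μ (-Pi.single i 1) (fun V : T d L → ℝ =>
      (W (d := d) (L := L) lam δ κ E V (Pi.single i 1) - W (d := d) (L := L) lam δ κ E V 0) ^ 2)
      (((mW _).sub (mW _)).pow_const 2)
    have h6 : ∫ V : T d L → ℝ, (W lam δ κ E V (-Pi.single i 1) - W lam δ κ E V 0) ^ 2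
        ∂(Measure.pi fun _ : T d L => μ) =
        ∫ V : T d L → ℝ, (W lam δ κ E V (Pi.single i 1) - W lam δ κ E V 0) ^ 2
        ∂(Measure.pi fun _ : T d L => μ) := by
      rw [← h5]
      refine integral_congr_ae (Filter.Eventually.of_forall fun V => ?_)
      simp only
      rw [AE.Good.good_shift lam δ κ E hlam hδ hκ hE V, AE.Good.good_shift lam δ κ E hlam hδ hκ hE V,
        zero_add, add_neg_cancel]
      ring
    rw [h6]
    ring
  rw [Finset.sum_congr rfl fun i _ => h4 i, ← Finset.mul_sum] at h3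
  unfold S
  linarith

end

/-- the good event for a law of mean zero -/
theorem good (d L : ℕ) [NeZero L] (κ : ℝ) (hκ : 0 < κ) (p R Gm : ℝ) (hp : 1 < p)
    (hR : 0 ≤ R) (μ : Measure ℝ) [IsProbabilityMeasure μ]
    (hμ0 : ∫ t, max (-1) (min 1 t) ∂μ = 0) (lam δ : ℝ) (hlam : 0 < lam)
    (hδ : 0 < δ) (hδ' : δ ≤ 1 / 8)
    (hG : ∀ (u Gr : T d L → ℝ) (x0 : T d L), (∀ x, 1 / 2 ≤ u x) → (∀ x, 0 ≤ Gr x) →
      (∀ x, LapW u Gr x + κ * Real.exp (-(4 * δ)) * Gr x = if x = x0 then 1 else 0) →
      ∀ θ : ℝ, 0 < θ → ∑ z, min ((θ * Gr z) ^ 2) (θ * Gr z) ≤ R * θ ^ p)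
    (hGm : ∀ (u Gr : T d L → ℝ) (x0 : T d L), (∀ x, 1 / 2 ≤ u x) → (∀ x, 0 ≤ Gr x) →
      (∀ x, LapW u Gr x + κ * Real.exp (-(4 * δ)) * Gr x = if x = x0 then 1 else 0) →
      Gr x0 ≤ Gm)
    (θ : ℝ) (hθ : 0 < θ) :
    ∃ E : ℝ, |E| ≤ 24 * lam ^ 2 * Gm +
        4 * lam * Real.exp (-(θ * δ) + R * (6 * lam * θ) ^ p / (p - 1)) ∧
      ∃ G : Set (T d L → ℝ), MeasurableSet G ∧
      (Measure.pi fun _ : T d L => μ).real Gᶜ ≤
        (L : ℝ) ^ d * (2 * Real.exp (-(θ * δ) + R * (6 * lam * θ) ^ p / (p - 1))) ∧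
      ∀ V ∈ G, (∀ x, |V x| ≤ 1) → ∃ w : T d L → ℝ, (∀ x, |w x| ≤ δ) ∧
        ∀ x, ∑ i : Fin d, ((1 - Real.exp (w (x + Pi.single i 1) - w x)) +
          (1 - Real.exp (w (x - Pi.single i 1) - w x))) + lam * V x - E + κ * w x = 0 := by
  obtain ⟨E, hE, hE0⟩ := AE.Good.good_E (d := d) (L := L) lam δ κ hlam hδ hκ μ
  have hone := AE.Goodt.goodt_tail κ hκ p R hp hR μ lam δ hlam hδ hδ' hG θ hθ E hE hE0
  refine ⟨E, ?_, {V | ∀ x, |W lam δ κ E V x| < δ}, ?_, ?_, ?_⟩
  · have h1 := E_le lam δ κ E hlam hδ hδ' hκ hE μ hμ0 hE0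
    have h2 := S_le lam δ κ E hlam hδ hδ' hκ hE μ hE0
    have h3 := (abs_le.1 (cov_le lam δ κ E hlam hδ hδ' hκ hE μ hμ0 Gm hGm)).1
    have h4 := hone 0
    have h5 : -lam * ∫ V, clamp V 0 * W (d := d) (L := L) lam δ κ E V 0
        ∂(Measure.pi fun _ : T d L => μ) ≤ lam * (6 * lam * Gm) := by nlinarith
    have h6 : 2 * lam * (Measure.pi fun _ : T d L => μ).real
        {V | δ ≤ |W (d := d) (L := L) lam δ κ E V 0|} ≤
        2 * lam * (2 * Real.exp (-(θ * δ) + R * (6 * lam * θ) ^ p / (p - 1))) :=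
      mul_le_mul_of_nonneg_left h4 (by positivity)
    nlinarith
  · have : {V : T d L → ℝ | ∀ x, |W lam δ κ E V x| < δ}
        = ⋂ x, {V : T d L → ℝ | |W lam δ κ E V x| < δ} := by
      ext V; simp
    rw [this]
    refine MeasurableSet.iInter fun x => ?_
    exact measurableSet_lt ((AE.Good.good_cont lam δ _ E hlam hδ hκ hE x).abs.measurable)
      measurable_const
  · have hc : {V : T d L → ℝ | ∀ x, |W lam δ κ E V x| < δ}ᶜ
        = ⋃ x, {V : T d L → ℝ | δ ≤ |W lam δ κ E V x|} := by
      ext V; simp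
    rw [hc]
    refine (measureReal_iUnion_fintype_le _).trans ?_
    refine (Finset.sum_le_sum fun x _ => hone x).trans ?_
    rw [Finset.sum_const, nsmul_eq_mul, Finset.card_univ, AE.Sens.card_T]
  · intro V hV hV1
    refine ⟨W lam δ κ E V, fun x => (hV x).le, ?_⟩
    intro x
    have h := AE.Good.good_W lam δ _ E V hlam hδ hκ hE
    rw [AE.Good.good_clamp_eq V hV1] at h
    have hx := h x
    rw [AE.Good.good_beta lam δ _ _ (hV x).le] at hx
    exact hx

end Pool.Agent.R989.En
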