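import Mathlib

/-! The mean ergodic theorem for stationary random fields on the plane, along dilations of a fixed
weight, with the conditional expectation on the invariant sets as limit (helper989). -/

set_option autoImplicit false

open MeasureTheory Filter Topology
open scoped ENNReal

namespace Pool.Agent.R989.Erg

/-- the shift of a path -/
def sh (z : ℂ) (ω : ℂ → ℝ) : ℂ → ℝ := fun y => ω (y + z)

theorem sh_meas (z : ℂ) : Measurable (sh z) :=
  measurable_pi_iff.2 fun y => measurable_pi_apply (y + z)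

theorem sh_sh (a b : ℂ) (ω : ℂ → ℝ) : sh a (sh b ω) = sh (a + b) ω := by
  funext y
  simp only [sh, add_assoc]

/-- the σ-algebra of invariant sets (up to null sets) of the law `μ` -/
@[reducible] def inv (μ : Measure (ℂ → ℝ)) : MeasurableSpace (ℂ → ℝ) where
  MeasurableSet' A := MeasurableSet A ∧ ∀ z, sh z ⁻¹' A =ᵐ[μ] A
  measurableSet_empty := ⟨MeasurableSet.empty, fun _ =>
    Filter.EventuallyEq.of_eq Set.preimage_empty⟩
  measurableSet_compl A hA := ⟨hA.1.compl, fun z => by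
    rw [Set.preimage_compl]
    exact (hA.2 z).compl⟩
  measurableSet_iUnion A hA := ⟨MeasurableSet.iUnion fun i => (hA i).1, fun z => by
    rw [Set.preimage_iUnion]
    exact Filter.EventuallyEq.countable_iUnion fun i => (hA i).2 z⟩

theorem inv_le (μ : Measure (ℂ → ℝ)) : inv μ ≤ MeasurableSpace.pi := fun _ hA => hA.1

section
variable {S : Type*} [MeasurableSpace S] (P : Measure S) [IsProbabilityMeasure P] (F : S → ℂ → ℝ)

/-- the weighted spatial average of the functional `x` -/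
noncomputable def V (φ : ℂ → ℝ) (t : ℝ) (x : (ℂ → ℝ) → ℝ) (s : S) : ℝ :=
  ∫ z, φ z * x (sh (t * z) (F s))

variable {P F} (hF : Measurable fun p : S × ℂ => F p.1 p.2)
  (hst : ∀ a : ℂ, P.map (fun s => sh a (F s)) = P.map F)

include hF in
theorem F_meas : Measurable F :=
  measurable_pi_iff.2 fun y => hF.comp (measurable_id.prodMk measurable_const)

include hF in
theorem joint (t : ℝ) : Measurable fun p : S × ℂ => sh (t * p.2) (F p.1) := by
  refine measurable_pi_iff.2 fun y => ?_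
  have : Measurable fun p : S × ℂ => (p.1, y + (t : ℂ) * p.2) := by fun_prop
  exact hF.comp this

include hF hst in
theorem mp (a : ℂ) : MeasurePreserving (fun s => sh a (F s)) P (P.map F) :=
  ⟨(sh_meas a).comp (F_meas hF), hst a⟩

include hF in
theorem mp0 : MeasurePreserving F P (P.map F) := ⟨F_meas hF, rfl⟩

include hF hst in
theorem mps (a : ℂ) : MeasurePreserving (sh a) (P.map F) (P.map F) := by
  refine ⟨sh_meas a, ?_⟩
  rw [Measure.map_map (sh_meas a) (F_meas hF)]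
  exact hst a

include hF in
theorem law_prob : IsProbabilityMeasure (P.map F) :=
  Measure.isProbabilityMeasure_map (F_meas hF).aemeasurable

/-! ### norm bounds -/

theorem V_le (φ : ℂ → ℝ) (t : ℝ) (x : (ℂ → ℝ) → ℝ) (s : S) :
    ‖V F φ t x s‖ₑ ≤ ∫⁻ z, ‖φ z‖ₑ * ‖x (sh (t * z) (F s))‖ₑ := by
  refine (enorm_integral_le_lintegral_enorm _).trans (le_of_eq ?_)
  exact lintegral_congr fun z => enorm_mul _ _

include hF hst in
theorem tonelli (φ : ℂ → ℝ) (hφ : Measurable φ) (t : ℝ) (g : (ℂ → ℝ) → ℝ≥0∞) (hg : Measurable g) :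
    ∫⁻ s, (∫⁻ z, ‖φ z‖ₑ * g (sh (t * z) (F s))) ∂P = (∫⁻ z, ‖φ z‖ₑ) * ∫⁻ ω, g ω ∂(P.map F) := by
  have hm : Measurable fun p : S × ℂ => ‖φ p.2‖ₑ * g (sh (t * p.2) (F p.1)) :=
    (hφ.comp measurable_snd).enorm.mul (hg.comp (joint hF t))
  rw [lintegral_lintegral_swap hm.aemeasurable]
  have h1 : ∀ z : ℂ, ∫⁻ s, ‖φ z‖ₑ * g (sh (t * z) (F s)) ∂P = ‖φ z‖ₑ * ∫⁻ ω, g ω ∂(P.map F) := by
    intro z
    have hm2 : Measurable fun s => g (sh (t * z) (F s)) := hg.comp ((sh_meas _).comp (F_meas hF))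
    rw [lintegral_const_mul _ hm2]
    congr 1
    exact (mp hF hst (t * z)).lintegral_comp hg
  simp only [h1]
  rw [lintegral_mul_const _ hφ.enorm]

include hF hst in
theorem bound1 (φ : ℂ → ℝ) (hφ : Measurable φ) (t : ℝ) (x : (ℂ → ℝ) → ℝ) (hx : Measurable x) :
    eLpNorm (V F φ t x) 1 P ≤ (∫⁻ z, ‖φ z‖ₑ) * eLpNorm x 1 (P.map F) := by
  rw [eLpNorm_one_eq_lintegral_enorm, eLpNorm_one_eq_lintegral_enorm]
  rw [← tonelli hF hst φ hφ t (fun ω => ‖x ω‖ₑ) hx.enorm]
  exact lintegral_mono fun s => V_le φ t x s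

theorem cs (ν : Measure ℂ) (f : ℂ → ℝ≥0∞) (hf : Measurable f) :
    (∫⁻ z, f z ∂ν) ^ (2 : ℝ) ≤ ν Set.univ * ∫⁻ z, f z ^ (2 : ℝ) ∂ν := by
  have h := ENNReal.lintegral_mul_le_Lp_mul_Lq ν Real.HolderConjugate.two_two
    hf.aemeasurable (g := fun _ => 1) aemeasurable_const
  have h1 : ∫⁻ z, (f * (fun _ => 1 : ℂ → ℝ≥0∞)) z ∂ν = ∫⁻ z, f z ∂ν := by
    refine lintegral_congr fun z => ?_
    rw [Pi.mul_apply, mul_one]
  rw [h1] at h
  have h2 := ENNReal.rpow_le_rpow h (z := 2) (by norm_num)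
  refine h2.trans (le_of_eq ?_)
  rw [ENNReal.mul_rpow_of_nonneg _ _ (by norm_num), ← ENNReal.rpow_mul, ← ENNReal.rpow_mul]
  norm_num
  rw [mul_comm]

include hF hst in
theorem bound2 (φ : ℂ → ℝ) (hφ : Measurable φ) (t : ℝ) (x : (ℂ → ℝ) → ℝ) (hx : Measurable x) :
    eLpNorm (V F φ t x) 2 P ≤ (∫⁻ z, ‖φ z‖ₑ) * eLpNorm x 2 (P.map F) := by
  rw [eLpNorm_eq_lintegral_rpow_enorm_toReal (by norm_num) (by norm_num),
    eLpNorm_eq_lintegral_rpow_enorm_toReal (by norm_num) (by norm_num)]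
  simp only [ENNReal.toReal_ofNat]
  have h1 : ∫⁻ s, ‖V F φ t x s‖ₑ ^ (2 : ℝ) ∂P ≤
      (∫⁻ z, ‖φ z‖ₑ) * ((∫⁻ z, ‖φ z‖ₑ) * ∫⁻ ω, ‖x ω‖ₑ ^ (2 : ℝ) ∂(P.map F)) := by
    have h2 : ∀ s, ‖V F φ t x s‖ₑ ^ (2 : ℝ) ≤
        (∫⁻ z, ‖φ z‖ₑ) * ∫⁻ z, ‖φ z‖ₑ * ‖x (sh (t * z) (F s))‖ₑ ^ (2 : ℝ) := by
      intro s
      have hm : Measurable fun z : ℂ => ‖x (sh (t * z) (F s))‖ₑ :=
        (hx.comp ((joint hF t).comp (measurable_const.prodMk measurable_id))).enorm
      have h3 := cs (volume.withDensity fun z => ‖φ z‖ₑ) _ hm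
      rw [lintegral_withDensity_eq_lintegral_mul _ hφ.enorm hm,
        lintegral_withDensity_eq_lintegral_mul _ hφ.enorm (hm.pow_const _),
        withDensity_apply _ MeasurableSet.univ, Measure.restrict_univ] at h3
      exact (ENNReal.rpow_le_rpow (V_le φ t x s) (by norm_num)).trans h3
    refine (lintegral_mono h2).trans (le_of_eq ?_)
    rw [lintegral_const_mul]
    · rw [tonelli hF hst φ hφ t (fun ω => ‖x ω‖ₑ ^ (2 : ℝ)) (hx.enorm.pow_const _)]
    · have hm : Measurable fun p : S × ℂ => ‖φ p.2‖ₑ * ‖x (sh (t * p.2) (F p.1))‖ₑ ^ (2 : ℝ) :=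
        (hφ.comp measurable_snd).enorm.mul ((hx.comp (joint hF t)).enorm.pow_const _)
      exact hm.lintegral_prod_right'
  refine (ENNReal.rpow_le_rpow h1 (by norm_num)).trans (le_of_eq ?_)
  rw [← mul_assoc, ENNReal.mul_rpow_of_nonneg _ _ (by norm_num), ← sq, ← ENNReal.rpow_natCast,
    ← ENNReal.rpow_mul]
  norm_num

/-! ### algebra of the averages -/

include hF hst in
theorem V_congr (φ : ℂ → ℝ) (t : ℝ) (x x' : (ℂ → ℝ) → ℝ) (hx : Measurable x) (hx' : Measurable x')
    (h : x =ᵐ[P.map F] x') : V F φ t x =ᵐ[P] V F φ t x' := by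
  have hD : MeasurableSet {p : S × ℂ | x (sh (t * p.2) (F p.1)) = x' (sh (t * p.2) (F p.1))} :=
    measurableSet_eq_fun (hx.comp (joint hF t)) (hx'.comp (joint hF t))
  have h1 : ∀ᵐ p ∂(P.prod (volume : Measure ℂ)),
      x (sh (t * p.2) (F p.1)) = x' (sh (t * p.2) (F p.1)) := by
    have h2 : ∀ᵐ z ∂(volume : Measure ℂ), ∀ᵐ s ∂P,
        x (sh (t * z) (F s)) = x' (sh (t * z) (F s)) :=
      Filter.Eventually.of_forall fun z => (mp hF hst (t * z)).quasiMeasurePreserving.ae h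
    have h3 : ∀ᵐ q ∂((volume : Measure ℂ).prod P),
        x (sh (t * q.1) (F q.2)) = x' (sh (t * q.1) (F q.2)) := by
      rw [Measure.ae_prod_iff_ae_ae]
      · exact h2
      · exact hD.preimage measurable_swap
    have h4 := (Measure.measurePreserving_swap (μ := P) (ν := (volume : Measure ℂ))).quasiMeasurePreserving.ae h3
    exact h4
  have h2 := Measure.ae_ae_of_ae_prod h1
  filter_upwards [h2] with s hs
  unfold V
  refine integral_congr_ae ?_
  filter_upwards [hs] with z hz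
  rw [hz]

include hF hst in
theorem V_int (φ : ℂ → ℝ) (hφ : Measurable φ) (hφi : Integrable φ) (t : ℝ) (x : (ℂ → ℝ) → ℝ)
    (hx : Measurable x) (hxi : Integrable x (P.map F)) :
    ∀ᵐ s ∂P, Integrable (fun z => φ z * x (sh (t * z) (F s))) := by
  have h1 := tonelli hF hst φ hφ t (fun ω => ‖x ω‖ₑ) hx.enorm
  have h2 : (∫⁻ z, ‖φ z‖ₑ) * ∫⁻ ω, ‖x ω‖ₑ ∂(P.map F) ≠ ∞ :=
    ENNReal.mul_ne_top hφi.2.ne hxi.2.ne
  have hm : Measurable fun p : S × ℂ => ‖φ p.2‖ₑ * ‖x (sh (t * p.2) (F p.1))‖ₑ :=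
    (hφ.comp measurable_snd).enorm.mul (hx.comp (joint hF t)).enorm
  have h3 := ae_lt_top hm.lintegral_prod_right' (by rw [h1]; exact h2)
  filter_upwards [h3] with s hs
  refine ⟨?_, ?_⟩
  · exact (hφ.mul (hx.comp ((joint hF t).comp
      (measurable_const.prodMk measurable_id)))).aestronglyMeasurable
  · unfold HasFiniteIntegral
    refine lt_of_le_of_lt (le_of_eq ?_) hs
    exact lintegral_congr fun z => enorm_mul _ _

include hF hst in
theorem V_add (φ : ℂ → ℝ) (hφ : Measurable φ) (hφi : Integrable φ) (t : ℝ)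
    (x y : (ℂ → ℝ) → ℝ) (hx : Measurable x) (hxi : Integrable x (P.map F)) (hy : Measurable y)
    (hyi : Integrable y (P.map F)) :
    V F φ t (fun ω => x ω + y ω) =ᵐ[P] fun s => V F φ t x s + V F φ t y s := by
  filter_upwards [V_int hF hst φ hφ hφi t x hx hxi, V_int hF hst φ hφ hφi t y hy hyi] with s h1 h2
  unfold V
  rw [← integral_add h1 h2]
  exact integral_congr_ae (Filter.Eventually.of_forall fun z => by ring)

theorem V_smul (φ : ℂ → ℝ) (t : ℝ) (c : ℝ) (x : (ℂ → ℝ) → ℝ) (s : S) :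
    V F φ t (fun ω => c * x ω) s = c * V F φ t x s := by
  unfold V
  rw [← integral_const_mul]
  exact integral_congr_ae (Filter.Eventually.of_forall fun z => by ring)

include hF in
theorem V_meas (φ : ℂ → ℝ) (hφ : Measurable φ) (t : ℝ) (x : (ℂ → ℝ) → ℝ) (hx : Measurable x) :
    Measurable (V F φ t x) := by
  have hm : StronglyMeasurable fun p : S × ℂ => φ p.2 * x (sh (t * p.2) (F p.1)) :=
    ((hφ.comp measurable_snd).mul (hx.comp (joint hF t))).stronglyMeasurable
  exact hm.integral_prod_right'.measurable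

/-! ### invariant functions and coboundaries -/

include hF hst in
/-- invariant functionals -/
theorem V_inv (φ : ℂ → ℝ) (t : ℝ) (y : (ℂ → ℝ) → ℝ) (hy : Measurable y)
    (h : ∀ z, (fun ω => y (sh z ω)) =ᵐ[P.map F] y) :
    V F φ t y =ᵐ[P] fun s => (∫ z, φ z) * y (F s) := by
  have hD : MeasurableSet {p : S × ℂ | y (sh (t * p.2) (F p.1)) = y (F p.1)} :=
    measurableSet_eq_fun (hy.comp (joint hF t)) (hy.comp ((F_meas hF).comp measurable_fst))
  have h1 : ∀ᵐ p ∂(P.prod (volume : Measure ℂ)), y (sh (t * p.2) (F p.1)) = y (F p.1) := by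
    have h2 : ∀ᵐ z ∂(volume : Measure ℂ), ∀ᵐ s ∂P, y (sh (t * z) (F s)) = y (F s) :=
      Filter.Eventually.of_forall fun z => (mp0 hF).quasiMeasurePreserving.ae (h (t * z))
    have h3 : ∀ᵐ q ∂((volume : Measure ℂ).prod P), y (sh (t * q.1) (F q.2)) = y (F q.2) := by
      rw [Measure.ae_prod_iff_ae_ae]
      · exact h2
      · exact hD.preimage measurable_swap
    exact (Measure.measurePreserving_swap (μ := P)
      (ν := (volume : Measure ℂ))).quasiMeasurePreserving.ae h3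
  have h2 := Measure.ae_ae_of_ae_prod h1
  filter_upwards [h2] with s hs
  unfold V
  rw [← integral_mul_const]
  refine integral_congr_ae ?_
  filter_upwards [hs] with z hz
  rw [hz]

/-- continuity of translations in `L¹` -/
theorem trans_cont (φ : ℂ → ℝ) (hφ : Integrable φ) :
    Tendsto (fun b : ℂ => ∫⁻ z, ‖φ (z - b) - φ z‖ₑ) (𝓝 0) (𝓝 0) := by
  have hmp : ∀ b : ℂ, MeasurePreserving (fun z : ℂ => z - b) volume volume := fun b =>
    measurePreserving_sub_right volume b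
  let f : Lp ℝ 1 (volume : Measure ℂ) := (memLp_one_iff_integrable.2 hφ).toLp φ
  have h1 : Tendsto (fun b : ℂ => Lp.compMeasurePreserving (fun z : ℂ => z - b) (hmp b) f) (𝓝 0)
      (𝓝 (Lp.compMeasurePreserving (fun z : ℂ => z - 0) (hmp 0) f)) := by
    have hg : Tendsto (fun b : ℂ => (⟨fun z : ℂ => z - b, by fun_prop⟩ : C(ℂ, ℂ))) (𝓝 0)
        (𝓝 ⟨fun z : ℂ => z - 0, by fun_prop⟩) := by
      have hc : Continuous fun b : ℂ => (⟨fun z : ℂ => z - b, by fun_prop⟩ : C(ℂ, ℂ)) := by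
        refine ContinuousMap.continuous_of_continuous_uncurry _ ?_
        show Continuous fun p : ℂ × ℂ => p.2 - p.1
        fun_prop
      exact hc.tendsto 0
    exact Filter.Tendsto.compMeasurePreservingLp (tendsto_const_nhds (x := f)) hg hmp (hmp 0)
      (by norm_num)
  have h2 : Lp.compMeasurePreserving (fun z : ℂ => z - 0) (hmp 0) f = f := by
    apply Lp.ext
    refine (Lp.coeFn_compMeasurePreserving f (hmp 0)).trans ?_
    refine Filter.Eventually.of_forall fun z => ?_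
    simp
  rw [h2] at h1
  have h3 := (tendsto_iff_edist_tendsto_0.1 h1)
  refine h3.congr fun b => ?_
  rw [Lp.edist_def, eLpNorm_one_eq_lintegral_enorm]
  refine lintegral_congr_ae ?_
  have h4 := Lp.coeFn_compMeasurePreserving f (hmp b)
  have h5 := (memLp_one_iff_integrable.2 hφ).coeFn_toLp
  have h6 := (hmp b).quasiMeasurePreserving.ae h5
  filter_upwards [h4, h5, h6] with z k4 k5 k6
  simp only [Pi.sub_apply, k4, Function.comp_apply]
  rw [k6, k5]

include hF hst in
/-- averages of coboundaries -/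
theorem V_cobt (φ : ℂ → ℝ) (hφ : Measurable φ) (hφi : Integrable φ) (a : ℂ)
    (w : (ℂ → ℝ) → ℝ) (hw : Measurable w) (hw2 : MemLp w 2 (P.map F)) (t : ℝ) (ht : 0 < t) :
    eLpNorm (V F φ t fun ω => w (sh a ω) - w ω) 2 P ≤
      (∫⁻ z, ‖φ (z - a / t) - φ z‖ₑ) * eLpNorm w 2 (P.map F) := by
  have hlp := law_prob (P := P) hF
  have hwi : Integrable w (P.map F) := hw2.integrable (by norm_num)
  have hwai : Integrable (fun ω => w (sh a ω)) (P.map F) :=
    (mps hF hst a).integrable_comp_of_integrable hwi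
  have htc : (t : ℂ) ≠ 0 := by exact_mod_cast ht.ne'
  have h2 : V F φ t (fun ω => w (sh a ω) - w ω) =ᵐ[P] V F (fun z => φ (z - a / t) - φ z) t w := by
    filter_upwards [V_int hF hst φ hφ hφi t w hw hwi,
      V_int hF hst φ hφ hφi t _ (hw.comp (sh_meas a)) hwai] with s k1 k2'
    have k2 : Integrable fun z => φ z * w (sh a (sh (t * z) (F s))) := k2'
    unfold V
    have e1 : ∫ z, φ z * (w (sh a (sh (t * z) (F s))) - w (sh (t * z) (F s))) =
        (∫ z, φ z * w (sh a (sh (t * z) (F s)))) - ∫ z, φ z * w (sh (t * z) (F s)) := by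
      rw [← integral_sub k2 k1]
      exact integral_congr_ae (Filter.Eventually.of_forall fun z => by
        simp only
        ring)
    have e2 : ∫ z, φ z * w (sh a (sh (t * z) (F s))) =
        ∫ z, φ (z - a / t) * w (sh (t * z) (F s)) := by
      rw [← integral_sub_right_eq_self (fun z => φ z * w (sh a (sh (t * z) (F s)))) (a / t)]
      refine integral_congr_ae (Filter.Eventually.of_forall fun z => ?_)
      simp only
      rw [sh_sh]
      congr 3
      field_simp
      ring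
    have k3 : Integrable fun z => φ (z - a / t) * w (sh (t * z) (F s)) := by
      have := k2.comp_sub_right (a / t)
      refine this.congr (Filter.Eventually.of_forall fun z => ?_)
      simp only [Function.comp_apply]
      rw [sh_sh]
      congr 3
      field_simp
      ring
    rw [e1, e2, ← integral_sub k3 k1]
    exact integral_congr_ae (Filter.Eventually.of_forall fun z => by ring)
  rw [eLpNorm_congr_ae h2]
  refine bound2 hF hst _ ?_ t w hw
  exact (hφ.comp (measurable_id.sub_const _)).sub hφ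

theorem V_rate (φ : ℂ → ℝ) (hφi : Integrable φ) (a : ℂ) (c : ℝ≥0∞) (hc : c ≠ ∞) :
    Tendsto (fun t : ℝ => (∫⁻ z, ‖φ (z - a / t) - φ z‖ₑ) * c) atTop (𝓝 0) := by
  have h2 : Tendsto (fun t : ℝ => a / (t : ℂ)) atTop (𝓝 0) := by
    have h3 : Tendsto (fun t : ℝ => a * ((t⁻¹ : ℝ) : ℂ)) atTop (𝓝 (a * ((0 : ℝ) : ℂ))) := by
      refine Tendsto.const_mul a ?_
      exact (Complex.continuous_ofReal.tendsto 0).comp tendsto_inv_atTop_zero
    simp only [Complex.ofReal_zero, mul_zero] at h3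
    refine h3.congr fun t => ?_
    rw [Complex.ofReal_inv, div_eq_mul_inv]
  have h3 := (trans_cont φ hφi).comp h2
  have h4 : Tendsto (fun t : ℝ => (∫⁻ z, ‖φ (z - a / t) - φ z‖ₑ) * c) atTop (𝓝 (0 * c)) :=
    ENNReal.Tendsto.mul_const h3 (Or.inr hc)
  rwa [zero_mul] at h4

end

end Pool.Agent.R989.Erg
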