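import Pool.Agent.R989.Erg

/-! The mean ergodic theorem for stationary random fields on the plane: main statements, uniform
over all fields with the same law (helper989). -/

set_option autoImplicit false

open MeasureTheory Filter Topology
open scoped ENNReal

namespace Pool.Agent.R989.Erg

section
variable {μ : Measure (ℂ → ℝ)} [IsProbabilityMeasure μ] (hμ : ∀ a, MeasurePreserving (sh a) μ μ)

/-- the Koopman isometry -/
noncomputable def K (a : ℂ) : Lp ℝ 2 μ →ₗᵢ[ℝ] Lp ℝ 2 μ :=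
  Lp.compMeasurePreservingₗᵢ ℝ (sh a) (hμ a)

/-- the span of the coboundaries -/
noncomputable def M : Submodule ℝ (Lp ℝ 2 μ) :=
  Submodule.span ℝ {h | ∃ (a : ℂ) (w : Lp ℝ 2 μ), h = K hμ a w - w}

theorem K_fix (g : Lp ℝ 2 μ) (hg : g ∈ (M hμ)ᗮ) (a : ℂ) : K hμ a g = g := by
  have h1 : inner ℝ (K hμ a g - g) g = 0 :=
    (Submodule.mem_orthogonal _ _).1 hg _ (Submodule.subset_span ⟨a, g, rfl⟩)
  rw [inner_sub_left] at h1
  have h2 : ‖K hμ a g - g‖ ^ 2 = 0 := by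
    rw [@norm_sub_sq_real, (K hμ a).norm_map]
    have h3 : inner ℝ g g = ‖g‖ ^ 2 := real_inner_self_eq_norm_sq g
    linarith
  have h3 : ‖K hμ a g - g‖ = 0 := by simpa using h2
  exact sub_eq_zero.1 (norm_eq_zero.1 h3)

theorem K_coe (g : Lp ℝ 2 μ) (a : ℂ) : K hμ a g =ᵐ[μ] fun ω => g (sh a ω) :=
  Lp.coeFn_compMeasurePreserving g (hμ a)

theorem fix_meas (g : Lp ℝ 2 μ) (hg : ∀ a, K hμ a g = g) :
    Measurable[inv μ] (g : (ℂ → ℝ) → ℝ) := by
  intro B hB
  refine ⟨(Lp.stronglyMeasurable g).measurable hB, fun z => ?_⟩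
  have h1 := K_coe hμ g z
  rw [hg z] at h1
  filter_upwards [h1] with ω hω
  have e : (g (sh z ω) ∈ B) = (g ω ∈ B) := by rw [← hω]
  exact e

omit [IsProbabilityMeasure μ] in
theorem inv_fix (y : (ℂ → ℝ) → ℝ) (hy : Measurable[inv μ] y) (z : ℂ) :
    (fun ω => y (sh z ω)) =ᵐ[μ] y := by
  have h1 : ∀ q : ℚ, ∀ᵐ ω ∂μ, (y (sh z ω) ∈ Set.Iio (q : ℝ)) = (y ω ∈ Set.Iio (q : ℝ)) :=
    fun q => (hy measurableSet_Iio).2 z
  filter_upwards [ae_all_iff.2 h1] with ω hω
  apply le_antisymm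
  · by_contra hc
    push Not at hc
    obtain ⟨q, h2, h3⟩ := exists_rat_btwn hc
    have h4 := hω q
    have h5 : y ω ∈ Set.Iio (q : ℝ) := h2
    rw [← h4] at h5
    exact absurd h5 (not_lt.2 h3.le)
  · by_contra hc
    push Not at hc
    obtain ⟨q, h2, h3⟩ := exists_rat_btwn hc
    have h4 := hω q
    have h5 : y (sh z ω) ∈ Set.Iio (q : ℝ) := h2
    rw [h4] at h5
    exact absurd h5 (not_lt.2 h3.le)

variable {S : Type*} [MeasurableSpace S] {P : Measure S} [IsProbabilityMeasure P]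

/-- fields with law `μ` -/
structure Fld (P : Measure S) (μ : Measure (ℂ → ℝ)) (F : S → ℂ → ℝ) : Prop where
  meas : Measurable fun p : S × ℂ => F p.1 p.2
  law : P.map F = μ

include hμ in
theorem Fld.st {F : S → ℂ → ℝ} (h : Fld P μ F) (a : ℂ) :
    P.map (fun s => sh a (F s)) = P.map F := by
  have h1 := Measure.map_map (μ := P) (sh_meas a) (F_meas h.meas)
  rw [h.law, (hμ a).map_eq] at h1
  rw [h.law, h1]
  rfl

include hμ in
/-- averages of elements of the span -/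
theorem V_M (φ : ℂ → ℝ) (hφ : Measurable φ) (hφi : Integrable φ) (h : Lp ℝ 2 μ)
    (hh : h ∈ M hμ) : ∀ ε : ℝ≥0∞, 0 < ε → ∀ᶠ t : ℝ in atTop, ∀ F : S → ℂ → ℝ, Fld P μ F →
      eLpNorm (V F φ t h) 2 P ≤ ε := by
  have hm : ∀ g : Lp ℝ 2 μ, Measurable (g : (ℂ → ℝ) → ℝ) := fun g =>
    (Lp.stronglyMeasurable g).measurable
  have hi : ∀ g : Lp ℝ 2 μ, Integrable (g : (ℂ → ℝ) → ℝ) μ := fun g =>
    (Lp.memLp g).integrable (by norm_num)
  unfold M at hh
  induction hh using Submodule.span_induction with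
  | mem h hh =>
    obtain ⟨a, w, rfl⟩ := hh
    intro ε hε
    filter_upwards [(ENNReal.tendsto_nhds_zero.1 (V_rate φ hφi a (eLpNorm w 2 μ)
      (Lp.memLp w).2.ne)) ε hε, eventually_gt_atTop 0] with t ht ht0 F hF
    refine le_trans ?_ ht
    have hst := hF.st hμ
    have h1 := V_cobt hF.meas hst φ hφ hφi a w (hm w) (by rw [hF.law]; exact Lp.memLp w) t ht0
    rw [hF.law] at h1
    refine le_trans (le_of_eq ?_) h1
    refine eLpNorm_congr_ae (V_congr hF.meas hst φ t _ _ (hm _) ?_ ?_)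
    · exact ((hm w).comp (sh_meas a)).sub (hm w)
    · rw [hF.law]
      filter_upwards [Lp.coeFn_sub (K hμ a w) w, K_coe hμ w a] with ω h1 h2
      rw [h1, Pi.sub_apply, h2]
  | zero =>
    intro ε hε
    refine Filter.Eventually.of_forall fun t F hF => ?_
    have h1 : V F φ t ((0 : Lp ℝ 2 μ) : (ℂ → ℝ) → ℝ) =ᵐ[P] V F φ t fun _ => 0 :=
      V_congr hF.meas (hF.st hμ) φ t _ _ (hm _) measurable_const (by
        rw [hF.law]
        exact Lp.coeFn_zero ℝ 2 _)
    rw [eLpNorm_congr_ae h1]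
    have h2 : V F φ t (fun _ => 0) = 0 := by
      funext s
      simp [V]
    rw [h2, eLpNorm_zero]
    exact zero_le
  | add x y _ _ hx hy =>
    intro ε hε
    filter_upwards [hx (ε / 2) (ENNReal.half_pos hε.ne'), hy (ε / 2) (ENNReal.half_pos hε.ne')]
      with t k1 k2 F hF
    have hst := hF.st hμ
    have h2 : V F φ t ((x + y : Lp ℝ 2 μ) : (ℂ → ℝ) → ℝ) =ᵐ[P]
        fun s => V F φ t x s + V F φ t y s := by
      refine (V_congr hF.meas hst φ t _ (fun ω => x ω + y ω) (hm _) ((hm x).add (hm y))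
        (by rw [hF.law]; exact Lp.coeFn_add x y)).trans ?_
      exact V_add hF.meas hst φ hφ hφi t x y (hm x) (by rw [hF.law]; exact hi x) (hm y)
        (by rw [hF.law]; exact hi y)
    rw [eLpNorm_congr_ae h2]
    refine (eLpNorm_add_le (V_meas hF.meas φ hφ t x (hm x)).aestronglyMeasurable
      (V_meas hF.meas φ hφ t y (hm y)).aestronglyMeasurable (by norm_num)).trans ?_
    refine (add_le_add (k1 F hF) (k2 F hF)).trans ?_
    rw [ENNReal.add_halves]
  | smul c x _ hx =>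
    intro ε hε
    have hε' : 0 < ε / (‖c‖ₑ + 1) := ENNReal.div_pos hε.ne' (by finiteness)
    filter_upwards [hx _ hε'] with t k1 F hF
    have hst := hF.st hμ
    have h2 : V F φ t ((c • x : Lp ℝ 2 μ) : (ℂ → ℝ) → ℝ) =ᵐ[P] c • V F φ t x := by
      refine (V_congr hF.meas hst φ t _ (fun ω => c * x ω) (hm _) ((hm x).const_mul c)
        (by rw [hF.law]; exact Lp.coeFn_smul c x)).trans ?_
      refine Filter.Eventually.of_forall fun s => ?_
      rw [V_smul φ t c x s]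
      rfl
    rw [eLpNorm_congr_ae h2, eLpNorm_const_smul]
    calc ‖c‖ₑ * eLpNorm (V F φ t x) 2 P ≤ (‖c‖ₑ + 1) * (ε / (‖c‖ₑ + 1)) :=
          mul_le_mul' le_self_add (k1 F hF)
      _ ≤ ε := ENNReal.mul_div_le

include hμ in
/-- the mean ergodic theorem in `L²` -/
theorem L2 (φ : ℂ → ℝ) (hφ : Measurable φ) (hφi : Integrable φ) (x : (ℂ → ℝ) → ℝ)
    (hx : Measurable x) (hx2 : MemLp x 2 μ) : ∀ ε : ℝ≥0∞, 0 < ε → ∀ᶠ t : ℝ in atTop,
    ∀ F : S → ℂ → ℝ, Fld P μ F →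
      eLpNorm (fun s => V F φ t x s - (∫ z, φ z) * (μ[x | inv μ]) (F s)) 2 P ≤ ε := by
  have hxi : Integrable x μ := hx2.integrable (by norm_num)
  have hm : ∀ g : Lp ℝ 2 μ, Measurable (g : (ℂ → ℝ) → ℝ) := fun g =>
    (Lp.stronglyMeasurable g).measurable
  have hi : ∀ g : Lp ℝ 2 μ, Integrable (g : (ℂ → ℝ) → ℝ) μ := fun g =>
    (Lp.memLp g).integrable (by norm_num)
  set y : (ℂ → ℝ) → ℝ := μ[x | inv μ] with hy
  have hyinv : Measurable[inv μ] y := stronglyMeasurable_condExp.measurable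
  have hym : Measurable y := hyinv.mono (inv_le _) le_rfl
  have hyi : Integrable y μ := integrable_condExp
  set X : Lp ℝ 2 μ := hx2.toLp x with hX
  set Y0 := condExpL2 ℝ ℝ (inv_le μ) X with hY0
  have hYy : ((Y0 : Lp ℝ 2 μ) : (ℂ → ℝ) → ℝ) =ᵐ[μ] y :=
    MemLp.condExpL2_ae_eq_condExp (inv_le μ) hx2
  -- `X - Y0` is in the closure of the coboundaries
  have hcl : X - (Y0 : Lp ℝ 2 μ) ∈ (M hμ).topologicalClosure := by
    rw [← Submodule.orthogonal_orthogonal_eq_closure, Submodule.mem_orthogonal]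
    intro g hg
    have hgm : g ∈ lpMeas ℝ ℝ (inv μ) 2 μ := by
      rw [mem_lpMeas_iff_aestronglyMeasurable]
      exact (fix_meas hμ g (K_fix hμ g hg)).stronglyMeasurable.aestronglyMeasurable
    have h1 := inner_condExpL2_eq_inner_fun (E := ℝ) (𝕜 := ℝ) (inv_le μ) X g
      ((mem_lpMeas_iff_aestronglyMeasurable).1 hgm)
    rw [real_inner_comm, inner_sub_left]
    have h2 : inner ℝ ((Y0 : Lp ℝ 2 μ)) g = inner ℝ X g := h1
    rw [h2, sub_self]
  intro ε hε
  by_cases hεt : ε = ∞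
  · exact Filter.Eventually.of_forall fun _ _ _ => hεt ▸ le_top
  -- choose an approximation
  set c : ℝ≥0∞ := ∫⁻ z, ‖φ z‖ₑ with hc
  have hct : c ≠ ∞ := hφi.2.ne
  obtain ⟨η, hη0, hη⟩ : ∃ η : ℝ, 0 < η ∧ c * ENNReal.ofReal η ≤ ε / 2 := by
    refine ⟨(ε / 2 / (c + 1)).toReal, ?_, ?_⟩
    · apply ENNReal.toReal_pos
      · exact (ENNReal.div_pos (ENNReal.half_pos hε.ne').ne' (by finiteness)).ne'
      · exact ENNReal.div_ne_top (ENNReal.div_ne_top hεt (by norm_num)) (by simp)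
    · rw [ENNReal.ofReal_toReal (ENNReal.div_ne_top (ENNReal.div_ne_top hεt (by norm_num))
        (by simp))]
      calc c * (ε / 2 / (c + 1)) ≤ (c + 1) * (ε / 2 / (c + 1)) := by
            gcongr
            exact le_self_add
        _ ≤ ε / 2 := ENNReal.mul_div_le
  obtain ⟨m, hmM, hmd⟩ := Metric.mem_closure_iff.1 hcl η hη0
  set r : Lp ℝ 2 μ := X - (Y0 : Lp ℝ 2 μ) - m with hr
  have hrn : eLpNorm (r : (ℂ → ℝ) → ℝ) 2 μ ≤ ENNReal.ofReal η := by
    rw [dist_eq_norm] at hmd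
    have h1 : ‖r‖ₑ ≤ ENNReal.ofReal η := by
      rw [← ofReal_norm_eq_enorm]
      exact ENNReal.ofReal_le_ofReal hmd.le
    rwa [Lp.enorm_def] at h1
  have e1 : x =ᵐ[μ] fun ω => y ω + (m ω + r ω) := by
    filter_upwards [hx2.coeFn_toLp, hYy, Lp.coeFn_sub (X - (Y0 : Lp ℝ 2 μ)) m,
      Lp.coeFn_sub X (Y0 : Lp ℝ 2 μ)] with ω k1 k2 k3 k4
    have k3' : r ω = (X - (Y0 : Lp ℝ 2 μ) : Lp ℝ 2 μ) ω - m ω := k3
    rw [Pi.sub_apply] at k4
    rw [k3', k4, k2]
    have k1' : X ω = x ω := k1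
    rw [k1']
    ring
  filter_upwards [V_M (S := S) (P := P) hμ φ hφ hφi m hmM (ε / 2) (ENNReal.half_pos hε.ne')]
    with t ht F hF
  have hst := hF.st hμ
  have h1 : (fun s => V F φ t x s - (∫ z, φ z) * y (F s)) =ᵐ[P]
      fun s => V F φ t m s + V F φ t r s := by
    have e2 := V_congr hF.meas hst φ t x (fun ω => y ω + (m ω + r ω)) hx
      (hym.add ((hm m).add (hm r))) (by rw [hF.law]; exact e1)
    have e3 := V_add hF.meas hst φ hφ hφi t y (fun ω => m ω + r ω) hym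
      (by rw [hF.law]; exact hyi)
      ((hm m).add (hm r)) (by rw [hF.law]; exact ((hi m).add (hi r)))
    have e4 := V_add hF.meas hst φ hφ hφi t m r (hm m) (by rw [hF.law]; exact hi m) (hm r)
      (by rw [hF.law]; exact hi r)
    have e5 := V_inv hF.meas hst φ t y hym (by rw [hF.law]; exact inv_fix y hyinv)
    filter_upwards [e2, e3, e4, e5] with s k2 k3 k4 k5
    rw [k2, k3, k4, k5]
    ring
  rw [eLpNorm_congr_ae h1]
  refine (eLpNorm_add_le (V_meas hF.meas φ hφ t m (hm m)).aestronglyMeasurable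
    (V_meas hF.meas φ hφ t r (hm r)).aestronglyMeasurable (by norm_num)).trans ?_
  have h2 : eLpNorm (V F φ t r) 2 P ≤ ε / 2 := by
    refine (bound2 hF.meas hst φ hφ t r (hm r)).trans ?_
    rw [hF.law]
    exact (mul_le_mul_right hrn _).trans hη
  refine (add_le_add (ht F hF) h2).trans ?_
  rw [ENNReal.add_halves]

include hμ in
/-- the mean ergodic theorem in `L¹` -/
theorem L1 (φ : ℂ → ℝ) (hφ : Measurable φ) (hφi : Integrable φ) (x : (ℂ → ℝ) → ℝ)
    (hx : Measurable x) (hxi : Integrable x μ) : ∀ ε : ℝ≥0∞, 0 < ε → ∀ᶠ t : ℝ in atTop,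
    ∀ F : S → ℂ → ℝ, Fld P μ F →
      eLpNorm (fun s => V F φ t x s - (∫ z, φ z) * (μ[x | inv μ]) (F s)) 1 P ≤ ε := by
  intro ε hε
  by_cases hεt : ε = ∞
  · exact Filter.Eventually.of_forall fun _ _ _ => hεt ▸ le_top
  set c : ℝ≥0∞ := ∫⁻ z, ‖φ z‖ₑ with hc
  set c' : ℝ≥0∞ := ‖∫ z, φ z‖ₑ with hc'
  have hct : c ≠ ∞ := hφi.2.ne
  have hε2 : ε / 2 ≠ ∞ := ENNReal.div_ne_top hεt (by norm_num)
  set η : ℝ≥0∞ := ε / 2 / (c + c' + 1) with hη
  have hη0 : η ≠ 0 := (ENNReal.div_pos (ENNReal.half_pos hε.ne').ne' (by finiteness)).ne'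
  have hηc : (c + c') * η ≤ ε / 2 := by
    calc (c + c') * (ε / 2 / (c + c' + 1)) ≤ (c + c' + 1) * (ε / 2 / (c + c' + 1)) :=
          mul_le_mul_left le_self_add _
      _ ≤ ε / 2 := ENNReal.mul_div_le
  obtain ⟨g, hg, hg1⟩ := (memLp_one_iff_integrable.2 hxi).exists_simpleFunc_eLpNorm_sub_lt
    (by norm_num) hη0
  have hg2 : MemLp (g : (ℂ → ℝ) → ℝ) 2 μ := g.memLp_of_isFiniteMeasure 2 _
  have hgi : Integrable (g : (ℂ → ℝ) → ℝ) μ := memLp_one_iff_integrable.1 hg1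
  have hgm : Measurable (g : (ℂ → ℝ) → ℝ) := g.measurable
  set y : (ℂ → ℝ) → ℝ := μ[x | inv μ] with hy
  set y' : (ℂ → ℝ) → ℝ := μ[(g : (ℂ → ℝ) → ℝ) | inv μ] with hy'
  have hym : Measurable y := stronglyMeasurable_condExp.measurable.mono (inv_le _) le_rfl
  have hym' : Measurable y' := stronglyMeasurable_condExp.measurable.mono (inv_le _) le_rfl
  have hyy : eLpNorm (fun ω => y' ω - y ω) 1 μ ≤ η := by
    have h1 : (fun ω => y' ω - y ω) =ᵐ[μ] μ[(fun ω => g ω - x ω) | inv μ] :=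
      (condExp_sub hgi hxi _).symm
    rw [eLpNorm_congr_ae h1]
    refine (eLpNorm_condExp_le_eLpNorm _ le_rfl).trans ?_
    have h2 : (fun ω => g ω - x ω) = -(x - (g : (ℂ → ℝ) → ℝ)) := by
      funext ω
      simp
    rw [h2, eLpNorm_neg]
    exact hg.le
  filter_upwards [L2 (S := S) (P := P) hμ φ hφ hφi g hgm hg2 (ε / 2) (ENNReal.half_pos hε.ne')]
    with t ht F hF
  have hst := hF.st hμ
  have hxi' : Integrable x (P.map F) := by rw [hF.law]; exact hxi
  have hgi' : Integrable (g : (ℂ → ℝ) → ℝ) (P.map F) := by rw [hF.law]; exact hgi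
  have h1 : (fun s => V F φ t x s - (∫ z, φ z) * y (F s)) =ᵐ[P]
      (fun s => V F φ t (fun ω => x ω - g ω) s) +
        ((fun s => V F φ t g s - (∫ z, φ z) * y' (F s)) +
        fun s => (∫ z, φ z) * (y' (F s) - y (F s))) := by
    have e1 := V_add hF.meas hst φ hφ hφi t (fun ω => x ω - g ω) g (hx.sub hgm) (hxi'.sub hgi')
      hgm hgi'
    filter_upwards [e1] with s k1
    simp only [Pi.add_apply]
    have e2 : V F φ t x s = V F φ t (fun ω => x ω - g ω + g ω) s := by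
      congr 1
      funext ω
      ring
    rw [e2, k1]
    ring
  rw [eLpNorm_congr_ae h1]
  have m1 := V_meas hF.meas φ hφ t (fun ω => x ω - g ω) (hx.sub hgm)
  have m2 : Measurable fun s => V F φ t g s - (∫ z, φ z) * y' (F s) :=
    (V_meas hF.meas φ hφ t g hgm).sub ((hym'.comp (F_meas hF.meas)).const_mul _)
  have m3 : Measurable fun s => (∫ z, φ z) * (y' (F s) - y (F s)) :=
    ((hym'.comp (F_meas hF.meas)).sub (hym.comp (F_meas hF.meas))).const_mul _
  refine (eLpNorm_add_le m1.aestronglyMeasurable (m2.add m3).aestronglyMeasurable le_rfl).trans ?_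
  have b1 : eLpNorm (fun s => V F φ t (fun ω => x ω - g ω) s) 1 P ≤ c * η := by
    refine (bound1 hF.meas hst φ hφ t _ (hx.sub hgm)).trans ?_
    rw [hF.law]
    exact mul_le_mul_right hg.le _
  have b2 : eLpNorm (fun s => (∫ z, φ z) * (y' (F s) - y (F s))) 1 P ≤ c' * η := by
    have e1 : (fun s => (∫ z, φ z) * (y' (F s) - y (F s))) =
        (∫ z, φ z) • fun s => (y' (F s) - y (F s)) := by
      funext s
      simp
    rw [e1, eLpNorm_const_smul]
    refine mul_le_mul_right ?_ _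
    have e2 := eLpNorm_comp_measurePreserving (p := 1) (hym'.sub hym).aestronglyMeasurable
      (mp0 (P := P) hF.meas)
    rw [hF.law] at e2
    refine (le_of_eq ?_).trans hyy
    exact e2
  have b3 : eLpNorm ((fun s => V F φ t g s - (∫ z, φ z) * y' (F s)) +
      fun s => (∫ z, φ z) * (y' (F s) - y (F s))) 1 P ≤ ε / 2 + c' * η := by
    refine (eLpNorm_add_le m2.aestronglyMeasurable m3.aestronglyMeasurable le_rfl).trans ?_
    refine add_le_add ?_ b2
    exact (eLpNorm_le_eLpNorm_of_exponent_le (by norm_num) m2.aestronglyMeasurable).trans (ht F hF)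
  calc _ ≤ c * η + (ε / 2 + c' * η) := add_le_add b1 b3
    _ = ε / 2 + (c + c') * η := by ring
    _ ≤ ε / 2 + ε / 2 := add_le_add le_rfl hηc
    _ = ε := ENNReal.add_halves ε

end

end Pool.Agent.R989.Erg
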