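import Pool.Agent.H4R2.AE.Sob
import Pool.Agent.H4R2.AE.Lin

/-! Massive Green functions on the two dimensional torus: exponential tails of the level sets,
`ℓ²` bound and logarithmic bound on the diagonal (helper989). -/

set_option autoImplicit false

open scoped BigOperators

namespace Pool.Agent.R989.G2

open Pool.Agent.H4R2
open Pool.Agent.H4R2.AE (T LapW)

/-- the truncation `min (·) t - min (·) s` -/
noncomputable def tr (s t y : ℝ) : ℝ := min y t - min y s

theorem tr_nonneg {s t : ℝ} (hst : s ≤ t) (y : ℝ) : 0 ≤ tr s t y := by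
  unfold tr
  have : min y s ≤ min y t := min_le_min le_rfl hst
  linarith

theorem tr_le {s t : ℝ} (y : ℝ) (hst : s ≤ t) : tr s t y ≤ t - s := by
  unfold tr
  rcases le_total y s with h | h
  · rw [min_eq_left h, min_eq_left (h.trans hst)]
    linarith
  · rw [min_eq_right h]
    have := min_le_right y t
    linarith

theorem tr_zero {s t y : ℝ} (hst : s ≤ t) (h : y ≤ s) : tr s t y = 0 := by
  unfold tr
  rw [min_eq_left h, min_eq_left (h.trans hst)]
  ring

theorem tr_top {s t y : ℝ} (hst : s ≤ t) (h : t ≤ y) : tr s t y = t - s := by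
  unfold tr
  rw [min_eq_right h, min_eq_right (hst.trans h)]

theorem tr_self {s t y : ℝ} (hs : 0 ≤ s) (hy : 0 ≤ y) : tr s t y ≤ y := by
  unfold tr
  have h1 := min_le_left y t
  have h2 : 0 ≤ min y s := le_min hy hs
  linarith

theorem tr_mono {s t : ℝ} (hst : s ≤ t) {x y : ℝ} (hxy : x ≤ y) :
    0 ≤ tr s t y - tr s t x ∧ tr s t y - tr s t x ≤ y - x := by
  unfold tr
  rcases le_total y s with h1 | h1
  · rw [min_eq_left h1, min_eq_left (h1.trans hst), min_eq_left (hxy.trans h1),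
      min_eq_left ((hxy.trans h1).trans hst)]
    constructor <;> linarith
  · rw [min_eq_right h1]
    rcases le_total x s with h2 | h2
    · rw [min_eq_left h2, min_eq_left (h2.trans hst)]
      have h3 := min_le_left y t
      have h4 : s ≤ min y t := le_min h1 hst
      constructor <;> linarith
    · rw [min_eq_right h2]
      rcases le_total y t with h3 | h3
      · rw [min_eq_left h3, min_eq_left (hxy.trans h3)]
        constructor <;> linarith
      · rw [min_eq_right h3]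
        rcases le_total x t with h4 | h4
        · rw [min_eq_left h4]
          constructor <;> linarith
        · rw [min_eq_right h4]
          constructor <;> linarith

theorem tr_sq {s t : ℝ} (hst : s ≤ t) (x y : ℝ) :
    (tr s t x - tr s t y) ^ 2 ≤ (tr s t x - tr s t y) * (x - y) := by
  rcases le_total x y with h | h
  · obtain ⟨h1, h2⟩ := tr_mono hst h
    nlinarith
  · obtain ⟨h1, h2⟩ := tr_mono hst h
    nlinarith

section
variable {L : ℕ} [NeZero L]

/-- energy identity for the truncation -/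
theorem energy (u h : T 2 L → ℝ) (k' : ℝ) (hk : 0 ≤ k') (z : T 2 L) (hu : ∀ x, 1 / 2 ≤ u x)
    (hh : ∀ x, 0 ≤ h x) (heq : ∀ x, LapW u h x + k' * h x = if x = z then 1 else 0)
    (s t : ℝ) (hs : 0 ≤ s) (hst : s ≤ t) :
    1 / 4 * ∑ x, ∑ i : Fin 2, (tr s t (h x) - tr s t (h (x + Pi.single i 1))) ^ 2 +
      k' * ∑ x, tr s t (h x) ^ 2 ≤ t - s := by
  have e1 : ∑ x, tr s t (h x) * (LapW u h x + k' * h x) = tr s t (h z) := by
    simp only [heq]
    simp
  have e2 : ∑ x, tr s t (h x) * (LapW u h x + k' * h x) =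
      ∑ x, tr s t (h x) * LapW u h x + ∑ x, k' * (tr s t (h x) * h x) := by
    rw [← Finset.sum_add_distrib]
    exact Finset.sum_congr rfl fun x _ => by ring
  have e3 := AE.Lin.bilin u (fun x => tr s t (h x)) h
  have e4 : 1 / 4 * ∑ x, ∑ i : Fin 2, (tr s t (h x) - tr s t (h (x + Pi.single i 1))) ^ 2 ≤
      ∑ x, ∑ i : Fin 2, u x * u (x + Pi.single i 1) *
        ((tr s t (h x) - tr s t (h (x + Pi.single i 1))) * (h x - h (x + Pi.single i 1))) := by
    rw [Finset.mul_sum]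
    refine Finset.sum_le_sum fun x _ => ?_
    rw [Finset.mul_sum]
    refine Finset.sum_le_sum fun i _ => ?_
    have h1 : 1 / 4 ≤ u x * u (x + Pi.single i 1) := by
      have a1 := hu x
      have a2 := hu (x + Pi.single i 1)
      nlinarith
    have h2 := tr_sq hst (h x) (h (x + Pi.single i 1))
    have h3 : 0 ≤ (tr s t (h x) - tr s t (h (x + Pi.single i 1))) ^ 2 := sq_nonneg _
    calc 1 / 4 * (tr s t (h x) - tr s t (h (x + Pi.single i 1))) ^ 2
        ≤ u x * u (x + Pi.single i 1) * (tr s t (h x) - tr s t (h (x + Pi.single i 1))) ^ 2 :=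
          mul_le_mul_of_nonneg_right h1 h3
      _ ≤ _ := mul_le_mul_of_nonneg_left h2 (by linarith)
  have e5 : k' * ∑ x, tr s t (h x) ^ 2 ≤ ∑ x, k' * (tr s t (h x) * h x) := by
    rw [Finset.mul_sum]
    refine Finset.sum_le_sum fun x _ => ?_
    refine mul_le_mul_of_nonneg_left ?_ hk
    rw [sq]
    exact mul_le_mul_of_nonneg_left (tr_self hs (hh x)) (tr_nonneg hst _)
  have e6 := tr_le (h z) hst
  linarith

/-- the number of points above a level -/
noncomputable def lev (h : T 2 L → ℝ) (s : ℝ) : ℝ :=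
  ((Finset.univ.filter fun x => s < h x).card : ℝ)

theorem lev_nonneg (h : T 2 L → ℝ) (s : ℝ) : 0 ≤ lev h s := Nat.cast_nonneg _

theorem lev_eq (h : T 2 L → ℝ) (s : ℝ) : lev h s = ∑ x, if s < h x then (1 : ℝ) else 0 := by
  unfold lev
  rw [Finset.sum_boole]

/-- Cauchy-Schwarz on the level set -/
theorem cs (h : T 2 L → ℝ) (s t : ℝ) (hst : s ≤ t) :
    (∑ x, tr s t (h x)) ^ 2 ≤ lev h s * ∑ x, tr s t (h x) ^ 2 := by
  have h1 : ∑ x, tr s t (h x) = ∑ x, (if s < h x then (1 : ℝ) else 0) * tr s t (h x) := by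
    refine Finset.sum_congr rfl fun x _ => ?_
    split_ifs with hx
    · ring
    · rw [tr_zero hst (not_lt.1 hx)]; ring
  rw [h1]
  refine (Finset.sum_mul_sq_le_sq_mul_sq _ _ _).trans (le_of_eq ?_)
  rw [lev_eq]
  congr 1
  refine Finset.sum_congr rfl fun x _ => ?_
  split_ifs <;> norm_num

theorem cs_grad (h : T 2 L → ℝ) (s t : ℝ) (hst : s ≤ t) :
    (∑ i : Fin 2, ∑ x, |tr s t (h (x + Pi.single i 1)) - tr s t (h x)|) ^ 2 ≤
      4 * lev h s * ∑ x, ∑ i : Fin 2, (tr s t (h x) - tr s t (h (x + Pi.single i 1))) ^ 2 := by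
  have h1 : ∑ i : Fin 2, ∑ x, |tr s t (h (x + Pi.single i 1)) - tr s t (h x)| =
      ∑ y : Fin 2 × T 2 L, (if s < h y.2 ∨ s < h (y.2 + Pi.single y.1 1) then (1 : ℝ) else 0) *
        |tr s t (h (y.2 + Pi.single y.1 1)) - tr s t (h y.2)| := by
    rw [← Finset.univ_product_univ, Finset.sum_product]
    refine Finset.sum_congr rfl fun i _ => Finset.sum_congr rfl fun x _ => ?_
    split_ifs with hx
    · simp
    · push Not at hx
      simp only at hx
      rw [tr_zero hst hx.1, tr_zero hst hx.2]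
      simp
  rw [h1]
  refine (Finset.sum_mul_sq_le_sq_mul_sq _ _ _).trans ?_
  have h2 : ∑ y : Fin 2 × T 2 L, |tr s t (h (y.2 + Pi.single y.1 1)) - tr s t (h y.2)| ^ 2 =
      ∑ x, ∑ i : Fin 2, (tr s t (h x) - tr s t (h (x + Pi.single i 1))) ^ 2 := by
    rw [← Finset.univ_product_univ, Finset.sum_product, Finset.sum_comm]
    refine Finset.sum_congr rfl fun x _ => Finset.sum_congr rfl fun i _ => ?_
    rw [sq_abs]
    ring
  have h3 : ∑ y : Fin 2 × T 2 L,
      (if s < h y.2 ∨ s < h (y.2 + Pi.single y.1 1) then (1 : ℝ) else 0) ^ 2 ≤ 4 * lev h s := by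
    rw [← Finset.univ_product_univ, Finset.sum_product]
    have h4 : ∀ i : Fin 2, ∑ x : T 2 L,
        (if s < h x ∨ s < h (x + Pi.single i 1) then (1 : ℝ) else 0) ^ 2 ≤ 2 * lev h s := by
      intro i
      have h5 : ∑ x : T 2 L, (if s < h (x + Pi.single i 1) then (1 : ℝ) else 0) = lev h s := by
        rw [lev_eq]
        exact Fintype.sum_equiv (Equiv.addRight (Pi.single i 1)) _ _ fun _ => rfl
      have h6 : ∑ x : T 2 L, (if s < h x ∨ s < h (x + Pi.single i 1) then (1 : ℝ) else 0) ^ 2 ≤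
          ∑ x : T 2 L, ((if s < h x then (1 : ℝ) else 0) +
            if s < h (x + Pi.single i 1) then (1 : ℝ) else 0) := by
        refine Finset.sum_le_sum fun x _ => ?_
        by_cases a1 : s < h x <;> by_cases a2 : s < h (x + Pi.single i 1) <;> simp [a1, a2]
      rw [Finset.sum_add_distrib, h5, ← lev_eq] at h6
      linarith
    calc _ ≤ ∑ _i : Fin 2, 2 * lev h s := Finset.sum_le_sum fun i _ => h4 i
      _ = 4 * lev h s := by
        rw [Finset.sum_const, Finset.card_univ, Fintype.card_fin, nsmul_eq_mul]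
        push_cast
        ring
  rw [h2]
  exact mul_le_mul_of_nonneg_right h3
    (Finset.sum_nonneg fun x _ => Finset.sum_nonneg fun i _ => sq_nonneg _)

theorem L_pos : (0 : ℝ) < L := by exact_mod_cast Nat.pos_of_ne_zero (NeZero.ne L)

theorem sob2 (g : T 2 L → ℝ) (hg : ∀ x, 0 ≤ g x) :
    ∑ x, g x ^ 2 ≤ (∑ i : Fin 2, ∑ x, |g (x + Pi.single i 1) - g x| + 2 / (L : ℝ) * ∑ x, g x) ^ 2 := by
  have h1 := AE.Sob.sobolev 2 L le_rfl g hg
  have e1 : (((2 : ℕ) : ℝ) / (((2 : ℕ) : ℝ) - 1)) = ((2 : ℕ) : ℝ) := by norm_num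
  have e2 : ((((2 : ℕ) : ℝ) - 1) / ((2 : ℕ) : ℝ)) = 1 / 2 := by norm_num
  rw [e1, e2] at h1
  simp only [Real.rpow_natCast] at h1
  rw [← Real.sqrt_eq_rpow] at h1
  have h2 : 0 ≤ ∑ x, g x ^ 2 := Finset.sum_nonneg fun x _ => sq_nonneg _
  have h3 := pow_le_pow_left₀ (Real.sqrt_nonneg _) h1 2
  rw [Real.sq_sqrt h2] at h3
  exact_mod_cast h3

/-- the level sets shrink -/
theorem shrink0 (u h : T 2 L → ℝ) (k' : ℝ) (hk : 1 / (8 * (L : ℝ) ^ 2) ≤ k') (z : T 2 L)
    (hu : ∀ x, 1 / 2 ≤ u x)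
    (hh : ∀ x, 0 ≤ h x) (heq : ∀ x, LapW u h x + k' * h x = if x = z then 1 else 0)
    (s t : ℝ) (hs : 0 ≤ s) (hst : s ≤ t) :
    ∑ x, tr s t (h x) ^ 2 ≤ 64 * lev h s * (t - s) := by
  have hL := L_pos (L := L)
  have hk0 : 0 < k' := lt_of_lt_of_le (by positivity) hk
  have e1 := energy u h k' hk0.le z hu hh heq s t hs hst
  have e2 := cs h s t hst
  have e3 := cs_grad h s t hst
  have e4 : ∑ x, tr s t (h x) ^ 2 ≤ (∑ i : Fin 2, ∑ x, |tr s t (h (x + Pi.single i 1)) -
      tr s t (h x)| + 2 / (L : ℝ) * ∑ x, tr s t (h x)) ^ 2 :=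
    sob2 (fun x => tr s t (h x)) fun x => tr_nonneg hst _
  have hl := lev_nonneg h s
  set D := ∑ x, ∑ i : Fin 2, (tr s t (h x) - tr s t (h (x + Pi.single i 1))) ^ 2 with hD
  set Q := ∑ x, tr s t (h x) ^ 2 with hQ
  set M := ∑ x, tr s t (h x) with hM
  set Gd := ∑ i : Fin 2, ∑ x, |tr s t (h (x + Pi.single i 1)) - tr s t (h x)| with hGd
  have hD0 : 0 ≤ D := Finset.sum_nonneg fun x _ => Finset.sum_nonneg fun i _ => sq_nonneg _
  have hQ0 : 0 ≤ Q := Finset.sum_nonneg fun x _ => sq_nonneg _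
  have h1 : (Gd + 2 / (L : ℝ) * M) ^ 2 ≤ 2 * Gd ^ 2 + 2 * (2 / (L : ℝ) * M) ^ 2 := by
    nlinarith [sq_nonneg (Gd - 2 / (L : ℝ) * M)]
  have h2 : (2 / (L : ℝ) * M) ^ 2 ≤ 32 * lev h s * (k' * Q) := by
    have h3 : 4 / (L : ℝ) ^ 2 ≤ 32 * k' := by
      have : 4 / (L : ℝ) ^ 2 = 32 * (1 / (8 * (L : ℝ) ^ 2)) := by
        field_simp
        norm_num
      rw [this]
      linarith
    calc (2 / (L : ℝ) * M) ^ 2 = 4 / (L : ℝ) ^ 2 * M ^ 2 := by ring
      _ ≤ 4 / (L : ℝ) ^ 2 * (lev h s * Q) := mul_le_mul_of_nonneg_left e2 (by positivity)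
      _ ≤ 32 * k' * (lev h s * Q) := mul_le_mul_of_nonneg_right h3 (mul_nonneg hl hQ0)
      _ = _ := by ring
  calc Q ≤ (Gd + 2 / (L : ℝ) * M) ^ 2 := e4
    _ ≤ 2 * Gd ^ 2 + 2 * (2 / (L : ℝ) * M) ^ 2 := h1
    _ ≤ 2 * (4 * lev h s * D) + 2 * (32 * lev h s * (k' * Q)) := by linarith
    _ ≤ 64 * lev h s * (1 / 4 * D + k' * Q) := by nlinarith [mul_nonneg hl hD0]
    _ ≤ 64 * lev h s * (t - s) := mul_le_mul_of_nonneg_left e1 (by positivity)

theorem shrink (u h : T 2 L → ℝ) (k' : ℝ) (hk : 1 / (8 * (L : ℝ) ^ 2) ≤ k') (z : T 2 L)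
    (hu : ∀ x, 1 / 2 ≤ u x)
    (hh : ∀ x, 0 ≤ h x) (heq : ∀ x, LapW u h x + k' * h x = if x = z then 1 else 0)
    (s : ℝ) (hs : 0 ≤ s) : lev h (s + 512) ≤ lev h s / 8 := by
  have e1 := shrink0 u h k' hk z hu hh heq s (s + 512) hs (by linarith)
  have e2 : 512 ^ 2 * lev h (s + 512) ≤ ∑ x, tr s (s + 512) (h x) ^ 2 := by
    rw [lev_eq, Finset.mul_sum]
    refine Finset.sum_le_sum fun x _ => ?_
    split_ifs with hx
    · rw [tr_top (by linarith) hx.le]
      have : s + 512 - s = 512 := by ring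
      rw [this]
      norm_num
    · rw [mul_zero]
      exact sq_nonneg _
  have : s + 512 - s = 512 := by ring
  rw [this] at e1
  linarith

theorem lev_pow (u h : T 2 L → ℝ) (k' : ℝ) (hk : 1 / (8 * (L : ℝ) ^ 2) ≤ k') (z : T 2 L)
    (hu : ∀ x, 1 / 2 ≤ u x)
    (hh : ∀ x, 0 ≤ h x) (heq : ∀ x, LapW u h x + k' * h x = if x = z then 1 else 0)
    (j : ℕ) : lev h (1 + 512 * j) ≤ (1 / 8) ^ j * (1 / k') := by
  have hL := L_pos (L := L)
  have hk0 : 0 < k' := lt_of_lt_of_le (by positivity) hk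
  induction j with
  | zero =>
    have h3 : ∑ x, (LapW u h x + k' * h x) = 1 := by
      rw [Finset.sum_congr rfl fun x _ => heq x]
      simp
    rw [Finset.sum_add_distrib, AE.Lin.sum_lapW, zero_add, ← Finset.mul_sum] at h3
    have h4 : ∑ x, h x = 1 / k' := by
      field_simp
      linarith
    rw [pow_zero, one_mul, ← h4, lev_eq]
    refine Finset.sum_le_sum fun x _ => ?_
    split_ifs with hx
    · push_cast at hx
      linarith
    · exact hh x
  | succ j ih =>
    have h1 := shrink u h k' hk z hu hh heq (1 + 512 * j) (by positivity)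
    have h2 : (1 : ℝ) + 512 * ((j + 1 : ℕ) : ℝ) = 1 + 512 * j + 512 := by
      push_cast
      ring
    rw [h2, pow_succ]
    calc _ ≤ lev h (1 + 512 * j) / 8 := h1
      _ ≤ (1 / 8) ^ j * (1 / k') / 8 := by linarith
      _ = _ := by ring

/-- logarithmic bound -/
theorem sup_bound (u h : T 2 L → ℝ) (k' : ℝ) (hk : 1 / (8 * (L : ℝ) ^ 2) ≤ k') (hk1 : k' ≤ 1)
    (z : T 2 L) (hu : ∀ x, 1 / 2 ≤ u x)
    (hh : ∀ x, 0 ≤ h x) (heq : ∀ x, LapW u h x + k' * h x = if x = z then 1 else 0)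
    (x : T 2 L) : h x ≤ 1025 + 512 * Real.log (1 / k') := by
  have hL := L_pos (L := L)
  have hk0 : 0 < k' := lt_of_lt_of_le (by positivity) hk
  have hlog : 0 ≤ Real.log (1 / k') := Real.log_nonneg (by rw [le_div_iff₀ hk0]; linarith)
  set j : ℕ := ⌈Real.log (1 / k')⌉₊ + 1 with hj
  have hj1 : Real.log (1 / k') < j := by
    rw [hj]
    push_cast
    have := Nat.le_ceil (Real.log (1 / k'))
    linarith
  have hj2 : (j : ℝ) ≤ Real.log (1 / k') + 2 := by
    rw [hj]
    push_cast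
    have := Nat.ceil_lt_add_one hlog
    linarith
  by_contra hc
  push Not at hc
  have h1 : 1 + 512 * (j : ℝ) < h x := by linarith
  have h2 : 1 ≤ lev h (1 + 512 * j) := by
    unfold lev
    have : 0 < (Finset.univ.filter fun x => 1 + 512 * (j : ℝ) < h x).card :=
      Finset.card_pos.2 ⟨x, by simp [h1]⟩
    exact_mod_cast this
  have h3 := h2.trans (lev_pow u h k' hk z hu hh heq j)
  have h4 : 1 / k' < 8 ^ j := by
    have h5 : 1 / k' = Real.exp (Real.log (1 / k')) := (Real.exp_log (by positivity)).symm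
    rw [h5]
    calc Real.exp (Real.log (1 / k')) < Real.exp j := Real.exp_lt_exp.2 hj1
      _ = Real.exp 1 ^ j := by rw [← Real.exp_nat_mul, mul_one]
      _ ≤ 8 ^ j := by
        apply pow_le_pow_left₀ (Real.exp_pos 1).le
        have := Real.exp_one_lt_d9
        linarith
  have h6 : (1 / 8 : ℝ) ^ j * (1 / k') < 1 := by
    have h7 : (0 : ℝ) < 8 ^ j := by positivity
    have h8 : (1 / 8 : ℝ) ^ j * (1 / k') = (1 / k') / 8 ^ j := by
      rw [one_div_pow]
      ring
    rw [h8, div_lt_one h7]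
    exact h4
  linarith

/-- `ℓ²` bound -/
theorem l2_bound (u h : T 2 L → ℝ) (k' : ℝ) (hk : 1 / (8 * (L : ℝ) ^ 2) ≤ k')
    (z : T 2 L) (hu : ∀ x, 1 / 2 ≤ u x)
    (hh : ∀ x, 0 ≤ h x) (heq : ∀ x, LapW u h x + k' * h x = if x = z then 1 else 0) :
    ∑ x, h x ^ 2 ≤ 600000 / k' := by
  have hL := L_pos (L := L)
  have hk0 : 0 < k' := lt_of_lt_of_le (by positivity) hk
  have h3 : ∑ x, (LapW u h x + k' * h x) = 1 := by
    rw [Finset.sum_congr rfl fun x _ => heq x]
    simp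
  rw [Finset.sum_add_distrib, AE.Lin.sum_lapW, zero_add, ← Finset.mul_sum] at h3
  have h4 : ∑ x, h x = 1 / k' := by
    field_simp
    linarith
  obtain ⟨y, hy⟩ := Finite.exists_max h
  set N : ℕ := ⌈h y⌉₊ with hN
  have hN1 : ∀ x, h x ≤ N := fun x => (hy x).trans (Nat.le_ceil _)
  have key : ∀ x, h x ^ 2 ≤ h x + ∑ j ∈ Finset.range N,
      (if 1 + 512 * (j : ℝ) < h x then (1 : ℝ) else 0) * (513 ^ 2 * 4 ^ j) := by
    intro x
    by_cases hx : h x ≤ 1
    · have h5 : 0 ≤ ∑ j ∈ Finset.range N,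
          (if 1 + 512 * (j : ℝ) < h x then (1 : ℝ) else 0) * (513 ^ 2 * 4 ^ j) :=
        Finset.sum_nonneg fun j _ => by split_ifs <;> positivity
      have := hh x
      nlinarith
    · push Not at hx
      -- the largest `j`
      set j : ℕ := ⌈(h x - 1) / 512⌉₊ - 1 with hj
      have hc1 : 0 < ⌈(h x - 1) / 512⌉₊ := Nat.ceil_pos.2 (by
        apply div_pos <;> linarith)
      have hc2 : (⌈(h x - 1) / 512⌉₊ : ℝ) = j + 1 := by
        have : ⌈(h x - 1) / 512⌉₊ = j + 1 := by omega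
        rw [this]
        push_cast
        ring
      have hc3 : (h x - 1) / 512 ≤ j + 1 := by
        rw [← hc2]
        exact Nat.le_ceil _
      have hc4 : (j : ℝ) < (h x - 1) / 512 := by
        have h6 := Nat.ceil_lt_add_one (a := (h x - 1) / 512) (by
          apply div_nonneg <;> linarith)
        rw [hc2] at h6
        linarith
      rw [div_le_iff₀ (by norm_num)] at hc3
      rw [lt_div_iff₀ (by norm_num)] at hc4
      have hjN : j < N := by
        have h7 := hN1 x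
        have : (j : ℝ) < N := by
          have : (0 : ℝ) ≤ j := Nat.cast_nonneg _
          nlinarith
        exact_mod_cast this
      have h8 : (if 1 + 512 * (j : ℝ) < h x then (1 : ℝ) else 0) * (513 ^ 2 * 4 ^ j) ≤
          ∑ j ∈ Finset.range N,
          (if 1 + 512 * (j : ℝ) < h x then (1 : ℝ) else 0) * (513 ^ 2 * 4 ^ j) :=
        Finset.single_le_sum (f := fun j : ℕ =>
          (if 1 + 512 * (j : ℝ) < h x then (1 : ℝ) else 0) * (513 ^ 2 * 4 ^ j))
          (fun j _ => by split_ifs <;> positivity) (Finset.mem_range.2 hjN)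
      rw [if_pos (by linarith)] at h8
      have h9 : h x ≤ 513 * 2 ^ j := by
        have h10 : (j : ℝ) + 1 ≤ 2 ^ j := by
          have : j + 1 ≤ 2 ^ j := Nat.lt_two_pow_self
          exact_mod_cast this
        have h11 : (1 : ℝ) ≤ 2 ^ j := one_le_pow₀ (by norm_num)
        nlinarith
      have h12 : h x ^ 2 ≤ (513 * 2 ^ j) ^ 2 := pow_le_pow_left₀ (hh x) h9 2
      have h13 : ((513 : ℝ) * 2 ^ j) ^ 2 = 513 ^ 2 * 4 ^ j := by
        rw [mul_pow, ← pow_mul, mul_comm j 2, pow_mul]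
        norm_num
      have := hh x
      linarith
  have h5 : ∑ x, h x ^ 2 ≤ 1 / k' + ∑ j ∈ Finset.range N, lev h (1 + 512 * j) * (513 ^ 2 * 4 ^ j) := by
    refine (Finset.sum_le_sum fun x _ => key x).trans (le_of_eq ?_)
    rw [Finset.sum_add_distrib, h4, Finset.sum_comm]
    congr 1
    refine Finset.sum_congr rfl fun j _ => ?_
    rw [lev_eq, Finset.sum_mul]
  have h6 : ∑ j ∈ Finset.range N, lev h (1 + 512 * j) * (513 ^ 2 * 4 ^ j) ≤
      ∑ j ∈ Finset.range N, (1 / k') * 513 ^ 2 * (1 / 2) ^ j := by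
    refine Finset.sum_le_sum fun j _ => ?_
    calc lev h (1 + 512 * j) * (513 ^ 2 * 4 ^ j) ≤ (1 / 8) ^ j * (1 / k') * (513 ^ 2 * 4 ^ j) :=
          mul_le_mul_of_nonneg_right (lev_pow u h k' hk z hu hh heq j) (by positivity)
      _ = (1 / k') * 513 ^ 2 * ((1 / 8) ^ j * 4 ^ j) := by ring
      _ = _ := by
        rw [← mul_pow]
        norm_num
  have h7 : ∑ j ∈ Finset.range N, ((1 : ℝ) / 2) ^ j ≤ 2 := sum_geometric_two_le N
  rw [← Finset.mul_sum] at h6
  have h8 : (1 / k') * 513 ^ 2 * ∑ j ∈ Finset.range N, ((1 : ℝ) / 2) ^ j ≤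
      (1 / k') * 513 ^ 2 * 2 := mul_le_mul_of_nonneg_left h7 (by positivity)
  have h9 : (600000 : ℝ) / k' = 1 / k' * 600000 := by ring
  rw [h9]
  have h10 : 0 < 1 / k' := by positivity
  linarith

end

end Pool.Agent.R989.G2
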