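import Pool.Agent.H4R2.LO.Fin
import Pool.Agent.Y663.Mc
import Pool.Agent.Y663.Mf
import Pool.Agent.R989.G2
import Pool.Agent.R989.En

/-! Localization below the effective band edge in dimension two: assembly (helper989). -/

set_option autoImplicit false

open scoped BigOperators
open MeasureTheory

namespace Pool.Agent.R989.Fin2

open Pool.Agent.H4R2
open Pool.Agent.H4R2.AE (T LapW Hop)
open Pool.Agent.H4R2.LO (Zd)

theorem kexp (κ δ : ℝ) (hκ : 0 < κ) (hδ0 : 0 ≤ δ) (hδ : δ ≤ 1 / 8) :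
    κ / 2 ≤ κ * Real.exp (-(4 * δ)) ∧ κ * Real.exp (-(4 * δ)) ≤ κ := by
  have hexp : Real.exp (4 * δ) ≤ 2 := Pool.Agent.Y663.Mg.exp_le_two δ hδ
  have hexp' : 1 / 2 ≤ Real.exp (-(4 * δ)) := by
    rw [Real.exp_neg, ← one_div]
    exact one_div_le_one_div_of_le (Real.exp_pos _) hexp
  have h1 : Real.exp (-(4 * δ)) ≤ 1 := Real.exp_le_one_iff.2 (by linarith)
  constructor <;> nlinarith

/-- the good event, `d = 2` -/
theorem good2 : ∃ A : ℝ, 1 ≤ A ∧ ∀ (μ : Measure ℝ) [IsProbabilityMeasure μ],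
    μ (Set.Icc (-1) 1)ᶜ = 0 → ∫ t, t ∂μ = 0 →
    ∀ (lam δ κ : ℝ), 0 < lam → 0 < δ → δ ≤ 1 / 8 → 0 < κ → κ ≤ 1 →
    ∀ (L : ℕ) [NeZero L], 1 / (4 * (L : ℝ) ^ 2) ≤ κ →
    ∃ E : ℝ, |E| ≤ 24 * lam ^ 2 * (1537 + 512 * Real.log (1 / κ)) +
        4 * lam * Real.exp (-(δ ^ 2 * κ / (A * lam ^ 2))) ∧
      ∃ G : Set (T 2 L → ℝ), MeasurableSet G ∧
      1 - 2 * (L : ℝ) ^ 2 * Real.exp (-(δ ^ 2 * κ / (A * lam ^ 2))) ≤
        (Measure.pi fun _ : T 2 L => μ).real G ∧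
      ∀ V ∈ G, ∃ w : T 2 L → ℝ, (∀ x, |w x| ≤ δ) ∧
        ∀ x, ∑ i : Fin 2, ((1 - Real.exp (w (x + Pi.single i 1) - w x)) +
          (1 - Real.exp (w (x - Pi.single i 1) - w x))) + lam * V x - E + κ * w x = 0 := by
  refine ⟨144 * 1200000, by norm_num, ?_⟩
  intro μ _ hμ hμ0 lam δ κ hlam hδ hδ' hκ hκ1 L _ hκL
  have hL := G2.L_pos (L := L)
  obtain ⟨hk1, hk2⟩ := kexp κ δ hκ hδ.le hδ'
  set k' := κ * Real.exp (-(4 * δ)) with hk'
  have hk0 : 0 < k' := by positivity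
  have hkL : 1 / (8 * (L : ℝ) ^ 2) ≤ k' := by
    calc 1 / (8 * (L : ℝ) ^ 2) = 1 / (4 * (L : ℝ) ^ 2) * (1 / 2) := by field_simp; norm_num
      _ ≤ κ * (1 / 2) := by gcongr
      _ ≤ k' := by linarith
  set R : ℝ := 1200000 / κ with hR
  have hR0 : 0 < R := by positivity
  set θ : ℝ := δ / (72 * R * lam ^ 2) with hθ
  have hθ0 : 0 < θ := by positivity
  have hmean : ∫ t, max (-1) (min 1 t) ∂μ = 0 := by
    rw [← hμ0]
    have h1 : ∀ᵐ t ∂μ, t ∈ Set.Icc (-1 : ℝ) 1 := by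
      rw [ae_iff]
      exact hμ
    refine integral_congr_ae ?_
    filter_upwards [h1] with t ht
    rw [min_eq_right ht.2, max_eq_right ht.1]
  obtain ⟨E, hE, G, hGm, hP, hw⟩ := En.good 2 L κ hκ 2 R (1537 + 512 * Real.log (1 / κ))
    (by norm_num) hR0.le μ hmean lam δ hlam hδ hδ' (by
      intro u Gr x0 hu hGr hh θ hθ
      calc ∑ z, min ((θ * Gr z) ^ 2) (θ * Gr z) ≤ ∑ z, (θ * Gr z) ^ 2 :=
            Finset.sum_le_sum fun z _ => min_le_left _ _
        _ = θ ^ 2 * ∑ z, Gr z ^ 2 := by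
            rw [Finset.mul_sum]
            exact Finset.sum_congr rfl fun z _ => by ring
        _ ≤ θ ^ 2 * R := by
            refine mul_le_mul_of_nonneg_left ?_ (sq_nonneg _)
            refine (G2.l2_bound u Gr k' hkL x0 hu hGr hh).trans ?_
            rw [hR, div_le_div_iff₀ hk0 hκ]
            linarith
        _ = R * θ ^ (2 : ℝ) := by rw [Real.rpow_two]; ring) (by
      intro u Gr x0 hu hGr hh
      refine (G2.sup_bound u Gr k' hkL (hk2.trans hκ1) x0 hu hGr hh x0).trans ?_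
      have h1 : Real.log (1 / k') ≤ Real.log (1 / κ) + 1 := by
        have h2 : 1 / k' ≤ 2 * (1 / κ) := by
          rw [div_le_iff₀ hk0]
          have : 2 * (1 / κ) * k' = 2 * k' / κ := by ring
          rw [this, le_div_iff₀ hκ]
          linarith
        have h3 := Real.log_le_log (by positivity) h2
        rw [Real.log_mul (by norm_num) (by positivity)] at h3
        have h4 := Real.log_two_lt_d9
        linarith
      linarith) θ hθ0
  obtain ⟨G', hG', hP', hV'⟩ := AE.Arith.pi_real_inter μ hμ G hGm _ hP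
  have he : -(θ * δ) + R * (6 * lam * θ) ^ (2 : ℝ) / (2 - 1) =
      -(δ ^ 2 * κ / (144 * 1200000 * lam ^ 2)) := by
    rw [Real.rpow_two, hθ, hR]
    field_simp
    ring
  rw [he] at hP' hE
  refine ⟨E, hE, G', hG', ?_, fun V hV => hw V (hV' V hV).1 (hV' V hV).2⟩
  refine le_trans (le_of_eq ?_) hP'
  ring

/-- monotonicity of the form bound -/
theorem tb_mono {d L : ℕ} [NeZero L] (μ : Measure ℝ) (lam E E' ε0 : ℝ) (h : E' ≤ E)
    (hT : LO.TorusBound d L μ lam E ε0) : LO.TorusBound d L μ lam E' ε0 := by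
  obtain ⟨G, hG, hP, hf⟩ := hT
  refine ⟨G, hG, hP, fun V hV f => ?_⟩
  refine le_trans ?_ (hf V hV f)
  exact mul_le_mul_of_nonneg_right h (Finset.sum_nonneg fun x _ => sq_nonneg _)

theorem xstep (X N y lam : ℝ) (hX : 0 ≤ X) (hN : 0 ≤ N) (hNX : N ≤ 2 * X) (hy : 0 ≤ y)
    (h2 : X ^ 3 * y ≤ lam ^ 4) (hlam : 0 < lam) (hlam4 : lam ≤ 1 / 4) :
    X * (2 * N ^ 2 * y) ≤ lam := by
  have h1 : N ^ 2 ≤ (2 * X) ^ 2 := pow_le_pow_left₀ hN hNX 2
  have h5 : lam ^ 3 ≤ (1 / 4) ^ 3 := pow_le_pow_left₀ hlam.le hlam4 3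
  calc X * (2 * N ^ 2 * y) ≤ X * (2 * (2 * X) ^ 2 * y) := by gcongr
    _ = 8 * (X ^ 3 * y) := by ring
    _ ≤ 8 * lam ^ 4 := by linarith
    _ = 8 * lam ^ 3 * lam := by ring
    _ ≤ 8 * (1 / 4) ^ 3 * lam := by gcongr
    _ ≤ lam := by nlinarith

theorem fin2 (B : ℝ) (hB : 0 < B) :
    ∃ k K : ℝ, 0 < k ∧ k ≤ 1 / 4 ∧ 0 < K ∧
    ∀ (μ : Measure ℝ) [IsProbabilityMeasure μ], μ (Set.Icc (-1) 1)ᶜ = 0 → ∫ t, t ∂μ = 0 →
    LO.Reg B μ → ∀ lam : ℝ, 0 < lam → lam ≤ k →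
      ∀ κ : ℝ, K * lam ^ 2 * Real.log (1 / lam) ≤ κ → κ ≤ 1 →
        ∀ᵐ ω ∂(Measure.infinitePi fun _ : Zd 2 => μ),
          LO.Main.Dec 2 (-1) (fun x => lam * ω x) (Set.Iic (-κ - 2 * (2 : ℕ)))
            (k * Real.sqrt κ / Real.log (2 / (κ * lam))) := by
  obtain ⟨C, hC, Hb⟩ := LO.Main.below 2 (by norm_num) B hB
  obtain ⟨A, hA, HA⟩ := good2
  have hC0 : 0 < C := by linarith
  have hA0 : 0 < A := by linarith
  set K1 : ℝ := 64 * A * (9 * C + 4) + 1000000 with hK1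
  have hK10 : 1000000 ≤ K1 := by
    have : 0 ≤ 64 * A * (9 * C + 4) := by positivity
    linarith
  set k : ℝ := min (1 / 4) (1 / (4 * C)) with hk
  have hk0 : 0 < k := by positivity
  have hk4 : k ≤ 1 / 4 := min_le_left _ _
  have hkC : k ≤ 1 / (4 * C) := min_le_right _ _
  refine ⟨k, K1, hk0, hk4, by linarith, ?_⟩
  intro μ _ hμ hμ0 hreg lam hlam hlamk κ hκ hκ1
  have hlam4 : lam ≤ 1 / 4 := hlamk.trans hk4
  have hlam1 : lam ≤ 1 := by linarith
  set l : ℝ := Real.log (1 / lam) with hl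
  have hl1 : 1 ≤ l := by
    rw [hl, Real.le_log_iff_exp_le (by positivity)]
    have h1 := Real.exp_one_lt_d9
    rw [le_div_iff₀ hlam]
    nlinarith
  have hl0 : 0 < l := by linarith
  -- the massive torus
  set X : ℝ := lam ^ (-(3 * C)) with hX
  have hX1 : 1 ≤ X := Real.one_le_rpow_of_pos_of_le_one_of_nonpos hlam hlam1 (by linarith)
  set L0 : ℕ := ⌈X⌉₊ with hL0
  have hL0ge : X ≤ L0 := Nat.le_ceil X
  have hL0le : (L0 : ℝ) ≤ 2 * X := by
    have := Nat.ceil_lt_add_one (by linarith : 0 ≤ X)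
    linarith
  have hL0pos' : (0 : ℝ) < L0 := by linarith
  have hL0pos : 0 < L0 := by exact_mod_cast hL0pos'
  have : NeZero L0 := ⟨hL0pos.ne'⟩
  set κ0 : ℝ := K1 * lam ^ 2 * l with hκ0
  have hκ00 : 0 < κ0 := by positivity
  have hκ01 : κ0 ≤ 1 := hκ.trans hκ1
  have hκpos : 0 < κ := lt_of_lt_of_le hκ00 hκ
  have hX2 : lam⁻¹ ^ 3 ≤ X := by
    rw [hX, ← Real.rpow_natCast, ← Real.rpow_neg_one, ← Real.rpow_mul hlam.le]
    apply Real.rpow_le_rpow_of_exponent_ge hlam hlam1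
    push_cast
    linarith
  have hinv1 : 1 ≤ lam⁻¹ := (one_le_inv₀ hlam).2 hlam1
  have hκL0 : 1 / (4 * (L0 : ℝ) ^ 2) ≤ κ0 := by
    rw [div_le_iff₀ (by positivity)]
    have h1 : lam⁻¹ ^ 3 ≤ (L0 : ℝ) := hX2.trans hL0ge
    have h2 : (lam⁻¹ ^ 3) ^ 2 ≤ (L0 : ℝ) ^ 2 := pow_le_pow_left₀ (by positivity) h1 2
    have h3 : 1 ≤ lam ^ 2 * (lam⁻¹ ^ 3) ^ 2 := by
      have h4 : lam ^ 2 * (lam⁻¹ ^ 3) ^ 2 = lam⁻¹ ^ 4 := by
        field_simp
      rw [h4]
      exact one_le_pow₀ hinv1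
    have h5 : lam ^ 2 * (lam⁻¹ ^ 3) ^ 2 ≤ lam ^ 2 * (L0 : ℝ) ^ 2 := by gcongr
    have h6 : 1 ≤ K1 * l := by nlinarith
    have h7 : lam ^ 2 * (L0 : ℝ) ^ 2 ≤ (K1 * l) * (lam ^ 2 * (L0 : ℝ) ^ 2) :=
      le_mul_of_one_le_left (by positivity) h6
    have h8 : κ0 * (4 * (L0 : ℝ) ^ 2) = 4 * ((K1 * l) * (lam ^ 2 * (L0 : ℝ) ^ 2)) := by
      rw [hκ0]; ring
    rw [h8]
    linarith
  obtain ⟨Es, hEs, G0, hG0, hP0, hw0⟩ := HA μ hμ hμ0 lam (1 / 8) κ0 hlam (by norm_num) le_rfl hκ00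
    hκ01 L0 hκL0
  have hap0 : ∀ V ∈ G0, Pool.Agent.Y663.Mc.ApE lam (κ0 * (1 / 8)) Es V := by
    intro V hV
    obtain ⟨w, hw1, hw2⟩ := hw0 V hV
    exact Pool.Agent.Y663.Mc.of_sol lam κ0 (1 / 8) Es hκ00.le (by norm_num) V w hw1 hw2
  -- the probability
  set y : ℝ := Real.exp (-((1 / 8) ^ 2 * κ0 / (A * lam ^ 2))) with hy
  have hy0 : 0 < y := Real.exp_pos _
  have hyle : y ≤ lam ^ (9 * C + 4) := by
    rw [← Pool.Agent.Y663.Mf.exp_log lam _ hlam, ← hl, hy]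
    apply Real.exp_le_exp.2
    apply neg_le_neg
    rw [le_div_iff₀ (by positivity), hκ0, hK1]
    have h1 : (1 / 8 : ℝ) ^ 2 * ((64 * A * (9 * C + 4) + 1000000) * lam ^ 2 * l) =
        (9 * C + 4) * l * (A * lam ^ 2) + 15625 * (lam ^ 2 * l) := by ring
    rw [h1]
    have : 0 ≤ 15625 * (lam ^ 2 * l) := by positivity
    linarith
  have hyle4 : y ≤ lam ^ 4 := by
    refine hyle.trans ?_
    rw [← Real.rpow_natCast]
    apply Real.rpow_le_rpow_of_exponent_ge hlam hlam1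
    push_cast
    linarith
  set ε0 : ℝ := 2 * (L0 : ℝ) ^ 2 * y with hε0
  have hε00 : 0 ≤ ε0 := by positivity
  have hXpow : X * ε0 ≤ lam := by
    have h2 : X ^ 3 * y ≤ lam ^ (4 : ℕ) := by
      have h3 : X ^ 3 * lam ^ (9 * C + 4) = lam ^ (4 : ℕ) := by
        rw [hX, ← Real.rpow_natCast, ← Real.rpow_mul hlam.le, ← Real.rpow_add hlam,
          ← Real.rpow_natCast]
        congr 1
        push_cast
        ring
      rw [← h3]
      gcongr
    exact xstep X L0 _ lam (by linarith) hL0pos'.le hL0le hy0.le h2 hlam hlam4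
  -- size of the effective band edge
  have hEs2 : |Es| ≤ κ0 / 8 := by
    have h1 : Real.log (1 / κ0) ≤ 2 * l := by
      have h2 : 1 / κ0 ≤ (1 / lam) ^ 2 := by
        rw [div_le_iff₀ hκ00, hκ0]
        have h3 : (1 / lam) ^ 2 * (K1 * lam ^ 2 * l) = K1 * l := by field_simp
        rw [h3]
        nlinarith
      have h4 := Real.log_le_log (by positivity) h2
      rw [Real.log_pow] at h4
      push_cast at h4
      exact h4
    have h5 : 24 * lam ^ 2 * (1537 + 512 * Real.log (1 / κ0)) ≤ 24 * lam ^ 2 * (2561 * l) := by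
      have : 1537 + 512 * Real.log (1 / κ0) ≤ 2561 * l := by linarith
      gcongr
    have h6 : 4 * lam * y ≤ lam ^ 2 := by
      calc 4 * lam * y ≤ 4 * lam * lam ^ 4 := by gcongr
        _ = 4 * lam ^ 3 * lam ^ 2 := by ring
        _ ≤ 4 * (1 / 4) ^ 3 * lam ^ 2 := by gcongr
        _ ≤ lam ^ 2 := by nlinarith [sq_nonneg lam]
    have h7 : lam ^ 2 ≤ lam ^ 2 * l := le_mul_of_one_le_right (by positivity) hl1
    have h8 : 1000000 * (lam ^ 2 * l) ≤ κ0 := by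
      rw [hκ0, mul_assoc]
      gcongr
    have h9 : 0 < lam ^ 2 * l := by positivity
    linarith
  have hbase : 2 / (κ / 2 * lam) ≤ lam⁻¹ ^ 3 := by
    have h1 : 4 * lam ^ 2 ≤ κ := by
      refine le_trans ?_ hκ
      calc 4 * lam ^ 2 ≤ K1 * lam ^ 2 := by
            have : 0 < lam ^ 2 := by positivity
            nlinarith
        _ ≤ K1 * lam ^ 2 * l := le_mul_of_one_le_right (by positivity) hl1
    rw [div_le_iff₀ (by positivity)]
    have h3 : lam⁻¹ ^ 3 * (κ / 2 * lam) = κ / (2 * lam ^ 2) := by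
      field_simp
    rw [h3, le_div_iff₀ (by positivity)]
    linarith
  have hpow : (2 / (κ / 2 * lam)) ^ C ≤ X := by
    calc (2 / (κ / 2 * lam)) ^ C ≤ (lam⁻¹ ^ 3) ^ C :=
          Real.rpow_le_rpow (by positivity) hbase hC0.le
      _ = X := by
          rw [hX, ← Real.rpow_natCast, ← Real.rpow_neg_one, ← Real.rpow_mul hlam.le,
            ← Real.rpow_mul hlam.le]
          congr 1
          push_cast
          ring
  have hT := tb_mono μ lam _ (-(κ0 / 4)) ε0 (by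
    have := (abs_le.1 hEs2).1
    linarith) (Pool.Agent.Y663.Mc.torusBound μ lam (κ0 * (1 / 8)) Es ε0 G0 hG0 hP0 hap0)
  have hb := Hb μ hreg lam hlam hlam1 L0 (-(κ0 / 4)) ε0 hε00 hT (κ / 2) (by positivity)
    (by linarith) (hpow.trans hL0ge) (by
      calc (2 / (κ / 2 * lam)) ^ C * ε0 ≤ X * ε0 := by gcongr
        _ ≤ 1 := by linarith)
  filter_upwards [hb] with ω hω
  refine LO.Main.dec_mono _ _ _ _ _ _ hω ?_ ?_
  · apply Set.Iic_subset_Iic.2
    have : κ0 ≤ κ := hκ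
    push_cast
    linarith
  · -- rate
    have hbase : 2 ≤ 2 / (κ * lam) := by
      rw [le_div_iff₀ (by positivity)]
      have : κ * lam ≤ 1 := by nlinarith
      linarith
    have hX : 0 < Real.log (2 / (κ * lam)) := Real.log_pos (by linarith)
    have hX2 : Real.log (2 / (κ / 2 * lam)) ≤ 2 * Real.log (2 / (κ * lam)) := by
      have e1 : 2 / (κ / 2 * lam) = 2 * (2 / (κ * lam)) := by
        field_simp
      rw [e1, Real.log_mul (by norm_num) (by positivity)]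
      have e2 := Real.log_le_log (by norm_num) hbase
      linarith
    have hX2pos : 0 < Real.log (2 / (κ / 2 * lam)) := by
      apply Real.log_pos
      have e1 : 2 / (κ / 2 * lam) = 2 * (2 / (κ * lam)) := by
        field_simp
      rw [e1]
      linarith
    have hsq : Real.sqrt κ / 2 ≤ Real.sqrt (κ / 2) := by
      rw [Real.le_sqrt (by positivity) (by positivity), div_pow, Real.sq_sqrt hκpos.le]
      linarith
    have hkC' : k * (4 * C) ≤ 1 := by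
      rwa [le_div_iff₀ (by positivity)] at hkC
    rw [div_le_div_iff₀ hX (by positivity)]
    have e5 : k * Real.sqrt κ * (C * Real.log (2 / (κ / 2 * lam))) ≤
        k * Real.sqrt κ * (C * (2 * Real.log (2 / (κ * lam)))) := by
      have := Real.sqrt_nonneg κ
      gcongr
    refine e5.trans ?_
    have e6 : k * Real.sqrt κ * (C * (2 * Real.log (2 / (κ * lam)))) =
        (k * (4 * C)) * (Real.sqrt κ / 2) * Real.log (2 / (κ * lam)) := by ring
    rw [e6]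
    have h0 := Real.sqrt_nonneg κ
    calc (k * (4 * C)) * (Real.sqrt κ / 2) * Real.log (2 / (κ * lam))
        ≤ 1 * (Real.sqrt κ / 2) * Real.log (2 / (κ * lam)) := by gcongr
      _ ≤ Real.sqrt (κ / 2) * Real.log (2 / (κ * lam)) := by
          rw [one_mul]
          exact mul_le_mul_of_nonneg_right hsq hX.le

end Pool.Agent.R989.Fin2
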