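import Mathlib

set_option linter.style.haveILetI false

open MeasureTheory ProbabilityTheory Module
open scoped ENNReal RealInnerProductSpace

namespace Pool.Agent.R989.GauA

section RealPart

lemma int_sq : ∫⁻ x : ℝ, ENNReal.ofReal (x ^ 2) ∂(gaussianReal 0 1) = 1 := by
  have h1 : MemLp id 2 (gaussianReal 0 1) := memLp_id_gaussianReal 2
  have h2 := variance_id_gaussianReal (μ := 0) (v := 1)
  rw [variance_eq_sub h1] at h2
  have h3 : ∫ x : ℝ, x ^ 2 ∂(gaussianReal 0 1) = 1 := by
    have h4 : ∫ x : ℝ, x ∂(gaussianReal 0 1) = 0 := integral_id_gaussianReal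
    simpa [h4] using h2
  rw [← ofReal_integral_eq_lintegral_ofReal]
  · rw [h3]; simp
  · have := h1.integrable_sq
    simpa using this
  · exact Filter.Eventually.of_forall fun x => sq_nonneg x

lemma int_exp {t : ℝ} (ht : 0 ≤ t) :
    ∫ x : ℝ, Real.exp (-t * x ^ 2) ∂(gaussianReal 0 1) = (1 + 2 * t) ^ (-(1 / 2) : ℝ) := by
  rw [integral_gaussianReal_eq_integral_smul (by norm_num)]
  have h1 : ∀ x : ℝ, gaussianPDFReal 0 1 x • Real.exp (-t * x ^ 2) =
      (Real.sqrt (2 * Real.pi))⁻¹ * Real.exp (-(1 / 2 + t) * x ^ 2) := by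
    intro x
    rw [gaussianPDFReal, smul_eq_mul, mul_assoc, ← Real.exp_add]
    simp only [NNReal.coe_one, sub_zero, mul_one]
    congr 2
    ring
  simp_rw [h1]
  rw [integral_const_mul, integral_gaussian]
  have hp := Real.pi_pos
  have h2 : 0 < 1 + 2 * t := by linarith
  rw [Real.rpow_neg h2.le, ← Real.sqrt_eq_rpow, ← Real.sqrt_inv, ← Real.sqrt_inv,
    ← Real.sqrt_mul (by positivity)]
  congr 1
  field_simp
  try ring

variable {F : Type*} [NormedAddCommGroup F] [InnerProductSpace ℝ F] [FiniteDimensional ℝ F]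
  [MeasurableSpace F] [BorelSpace F]

lemma lintegral_std (f : F → ℝ≥0∞) (hf : Measurable f) :
    ∫⁻ x, f x ∂(stdGaussian F) = ∫⁻ x, f (∑ i, x i • stdOrthonormalBasis ℝ F i)
      ∂(Measure.pi (fun _ : Fin (finrank ℝ F) => gaussianReal 0 1)) := by
  rw [stdGaussian, lintegral_map hf (by fun_prop)]

omit [MeasurableSpace F] [BorelSpace F] in
lemma norm_sq_sum (x : Fin (finrank ℝ F) → ℝ) :
    ‖∑ i, x i • stdOrthonormalBasis ℝ F i‖ ^ 2 = ∑ i, (x i) ^ 2 := by
  have h := (stdOrthonormalBasis ℝ F).repr.symm.norm_map (WithLp.toLp 2 x)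
  have h2 : (stdOrthonormalBasis ℝ F).repr.symm (WithLp.toLp 2 x) =
      ∑ i, x i • stdOrthonormalBasis ℝ F i := by
    rw [← (stdOrthonormalBasis ℝ F).sum_repr_symm]
  rw [← h2, h, EuclideanSpace.real_norm_sq_eq]

lemma std_sq : ∫⁻ x, ENNReal.ofReal (‖x‖ ^ 2) ∂(stdGaussian F) = (finrank ℝ F : ℝ≥0∞) := by
  rw [lintegral_std _ (by fun_prop)]
  simp_rw [norm_sq_sum]
  have h1 : ∀ x : Fin (finrank ℝ F) → ℝ, ENNReal.ofReal (∑ i, (x i) ^ 2) =
      ∑ i, ENNReal.ofReal ((x i) ^ 2) := fun x =>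
    ENNReal.ofReal_sum_of_nonneg fun i _ => sq_nonneg _
  simp_rw [h1]
  rw [lintegral_finsetSum _ (by fun_prop)]
  have h2 : ∀ i : Fin (finrank ℝ F), ∫⁻ x : Fin (finrank ℝ F) → ℝ, ENNReal.ofReal ((x i) ^ 2)
      ∂(Measure.pi (fun _ : Fin (finrank ℝ F) => gaussianReal 0 1)) = 1 := by
    intro i
    have := (measurePreserving_eval (fun _ : Fin (finrank ℝ F) => gaussianReal 0 1) i).lintegral_comp
      (f := fun x : ℝ => ENNReal.ofReal (x ^ 2)) (by fun_prop)
    simp only [Function.eval] at this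
    rw [this, int_sq]
  simp [h2]

lemma std_exp {t : ℝ} (ht : 0 ≤ t) : ∫⁻ x, ENNReal.ofReal (Real.exp (-t * ‖x‖ ^ 2)) ∂(stdGaussian F) =
    ENNReal.ofReal ((1 + 2 * t) ^ (-(finrank ℝ F : ℝ) / 2)) := by
  rw [lintegral_std _ (by fun_prop)]
  simp_rw [norm_sq_sum]
  rw [← ofReal_integral_eq_lintegral_ofReal]
  · congr 1
    have h1 : ∀ x : Fin (finrank ℝ F) → ℝ, Real.exp (-t * ∑ i, (x i) ^ 2) =
        ∏ i, Real.exp (-t * (x i) ^ 2) := by
      intro x
      rw [Finset.mul_sum, Real.exp_sum]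
    simp_rw [h1]
    rw [integral_fintype_prod_eq_prod (f := fun _ x => Real.exp (-t * x ^ 2))]
    rw [int_exp ht, Finset.prod_const, ← Real.rpow_natCast, ← Real.rpow_mul (by linarith)]
    congr 1
    simp
    ring
  · apply Integrable.of_bound (C := 1) (Measurable.aestronglyMeasurable (by fun_prop))
    refine Filter.Eventually.of_forall fun x => ?_
    rw [Real.norm_eq_abs, Real.abs_exp, Real.exp_le_one_iff]
    have : 0 ≤ ∑ i, (x i) ^ 2 := Finset.sum_nonneg fun i _ => sq_nonneg _
    nlinarith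
  · exact Filter.Eventually.of_forall fun x => (Real.exp_pos _).le

end RealPart

section KPart

variable (K : Type*) [RCLike K] (E : Type*) [NormedAddCommGroup E] [InnerProductSpace K E]

/-- the real inner product space underlying a `K`-inner product space -/
@[reducible] noncomputable def realStr : InnerProductSpace ℝ E := InnerProductSpace.rclikeToReal K E

lemma towerK : letI := realStr K E; IsScalarTower ℝ K E := by
  letI := realStr K E
  refine ⟨fun r k x => ?_⟩
  change (r • k) • x = (algebraMap ℝ K r) • (k • x)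
  rw [smul_smul, Algebra.smul_def]

lemma finDimK [FiniteDimensional K E] : letI := realStr K E; FiniteDimensional ℝ E := by
  letI := realStr K E
  haveI := towerK K E
  exact FiniteDimensional.trans ℝ K E

lemma finrankK [FiniteDimensional K E] : letI := realStr K E; finrank ℝ E = finrank ℝ K * finrank K E := by
  letI := realStr K E
  haveI := towerK K E
  exact (Module.finrank_mul_finrank ℝ K E).symm

/-- the standard Gaussian measure on a finite dimensional `K`-inner product space -/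
noncomputable def gau [FiniteDimensional K E] [MeasurableSpace E] : Measure E :=
  letI := realStr K E
  haveI := finDimK K E
  stdGaussian E

variable [FiniteDimensional K E] [MeasurableSpace E] [BorelSpace E]

instance isProb_gau : IsProbabilityMeasure (gau K E) := by
  letI := realStr K E
  haveI := finDimK K E
  exact isProbabilityMeasure_stdGaussian

variable {K E}

lemma gau_sq : ∫⁻ x, ENNReal.ofReal (‖x‖ ^ 2) ∂(gau K E) =
    ((finrank ℝ K * finrank K E : ℕ) : ℝ≥0∞) := by
  letI := realStr K E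
  haveI := finDimK K E
  rw [← finrankK K E]
  exact std_sq

lemma gau_exp {t : ℝ} (ht : 0 ≤ t) :
    ∫⁻ x, ENNReal.ofReal (Real.exp (-t * ‖x‖ ^ 2)) ∂(gau K E) =
    ENNReal.ofReal ((1 + 2 * t) ^ (-((finrank ℝ K * finrank K E : ℕ) : ℝ) / 2)) := by
  letI := realStr K E
  haveI := finDimK K E
  rw [← finrankK K E]
  exact std_exp ht

lemma gau_char (t : E) : ∫ x, Complex.exp ((RCLike.re (inner K x t) : ℝ) * Complex.I) ∂(gau K E) =
    Complex.exp (-(‖t‖ ^ 2 / 2 : ℝ)) := by
  letI := realStr K E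
  haveI := finDimK K E
  have h := charFun_stdGaussian (E := E) t
  rw [charFun_apply] at h
  refine (show _ = _ from h).trans ?_
  congr 1
  push_cast
  ring

lemma ext_char {μ ν : Measure E} [IsFiniteMeasure μ] [IsFiniteMeasure ν]
    (h : ∀ t : E, ∫ x, Complex.exp ((RCLike.re (inner K x t) : ℝ) * Complex.I) ∂μ =
      ∫ x, Complex.exp ((RCLike.re (inner K x t) : ℝ) * Complex.I) ∂ν) : μ = ν := by
  letI := realStr K E
  haveI := finDimK K E
  haveI : ProperSpace E := FiniteDimensional.proper K E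
  apply Measure.ext_of_charFun
  funext t
  exact h t

variable {E₁ : Type*} [NormedAddCommGroup E₁] [InnerProductSpace K E₁] [FiniteDimensional K E₁]
  [MeasurableSpace E₁] [BorelSpace E₁]
variable {E₂ : Type*} [NormedAddCommGroup E₂] [InnerProductSpace K E₂] [FiniteDimensional K E₂]
  [MeasurableSpace E₂] [BorelSpace E₂]

lemma gau_map2 {A : E₁ → E} {B : E₂ → E} (A' : E → E₁) (B' : E → E₂) (hA : Measurable A)
    (hB : Measurable B) (hAA : ∀ u t, inner K (A u) t = inner K u (A' t))
    (hBB : ∀ u t, inner K (B u) t = inner K u (B' t))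
    (hn : ∀ t, ‖A' t‖ ^ 2 + ‖B' t‖ ^ 2 = ‖t‖ ^ 2) :
    ((gau K E₁).prod (gau K E₂)).map (fun p => A p.1 + B p.2) = gau K E := by
  haveI : ProperSpace E := FiniteDimensional.proper K E
  have hm : Measurable (fun p : E₁ × E₂ => A p.1 + B p.2) := by fun_prop
  haveI : IsProbabilityMeasure (((gau K E₁).prod (gau K E₂)).map (fun p => A p.1 + B p.2)) :=
    Measure.isProbabilityMeasure_map hm.aemeasurable
  apply ext_char (K := K)
  intro t
  have hm2 : Measurable (fun x : E => Complex.exp ((RCLike.re (inner K x t) : ℝ) * Complex.I)) := by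
    fun_prop
  rw [integral_map hm.aemeasurable hm2.aestronglyMeasurable, gau_char]
  have h1 : ∀ p : E₁ × E₂, Complex.exp ((RCLike.re (inner K (A p.1 + B p.2) t) : ℝ) * Complex.I) =
      Complex.exp ((RCLike.re (inner K p.1 (A' t)) : ℝ) * Complex.I) *
      Complex.exp ((RCLike.re (inner K p.2 (B' t)) : ℝ) * Complex.I) := by
    intro p
    rw [inner_add_left, hAA, hBB, ← Complex.exp_add]
    congr 1
    push_cast
    rw [map_add]
    push_cast
    ring
  simp_rw [h1]
  rw [integral_prod_mul (fun x : E₁ => Complex.exp ((RCLike.re (inner K x (A' t)) : ℝ) * Complex.I))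
    (fun x : E₂ => Complex.exp ((RCLike.re (inner K x (B' t)) : ℝ) * Complex.I)), gau_char, gau_char,
    ← Complex.exp_add]
  congr 1
  rw [← hn t]
  push_cast
  ring

lemma lint_gau2 {A : E₁ → E} {B : E₂ → E} (A' : E → E₁) (B' : E → E₂) (hA : Measurable A)
    (hB : Measurable B) (hAA : ∀ u t, inner K (A u) t = inner K u (A' t))
    (hBB : ∀ u t, inner K (B u) t = inner K u (B' t))
    (hn : ∀ t, ‖A' t‖ ^ 2 + ‖B' t‖ ^ 2 = ‖t‖ ^ 2) {f : E → ℝ≥0∞} (hf : Measurable f) :
    ∫⁻ x, f x ∂(gau K E) = ∫⁻ u, ∫⁻ v, f (A u + B v) ∂(gau K E₂) ∂(gau K E₁) := by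
  haveI : ProperSpace E := FiniteDimensional.proper K E
  have hm : Measurable (fun p : E₁ × E₂ => A p.1 + B p.2) := by fun_prop
  rw [← gau_map2 A' B' hA hB hAA hBB hn, lintegral_map hf hm, lintegral_prod]
  exact (hf.comp hm).aemeasurable

lemma gau_map1 {A : E₁ → E} (A' : E → E₁) (hA : Measurable A)
    (hAA : ∀ u t, inner K (A u) t = inner K u (A' t))
    (hn : ∀ t, ‖A' t‖ = ‖t‖) :
    (gau K E₁).map A = gau K E := by
  haveI : IsProbabilityMeasure ((gau K E₁).map A) := Measure.isProbabilityMeasure_map hA.aemeasurable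
  apply ext_char (K := K)
  intro t
  have hm2 : Measurable (fun x : E => Complex.exp ((RCLike.re (inner K x t) : ℝ) * Complex.I)) := by
    haveI : ProperSpace E := FiniteDimensional.proper K E
    fun_prop
  rw [integral_map hA.aemeasurable hm2.aestronglyMeasurable, gau_char]
  simp_rw [hAA]
  rw [gau_char, hn]

lemma lint_gau1 {A : E₁ → E} (A' : E → E₁) (hA : Measurable A)
    (hAA : ∀ u t, inner K (A u) t = inner K u (A' t))
    (hn : ∀ t, ‖A' t‖ = ‖t‖) {f : E → ℝ≥0∞} (hf : Measurable f) :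
    ∫⁻ x, f x ∂(gau K E) = ∫⁻ u, f (A u) ∂(gau K E₁) := by
  rw [← gau_map1 A' hA hAA hn, lintegral_map hf hA]

/-- the law of the norm of an orthogonal projection of a Gaussian vector -/
lemma gau_proj (S : Submodule K E) {f : ℝ → ℝ≥0∞} (hf : Measurable f) :
    ∫⁻ x, f ‖S.starProjection x‖ ∂(gau K E) = ∫⁻ y, f ‖y‖ ∂(gau K S) := by
  rw [lint_gau1 (E := S) (E₁ := E) (A := fun x => S.orthogonalProjectionOnto x) (fun y => (y : E))
    (by fun_prop) (fun u t => ?_) (fun t => rfl) (f := fun y => f ‖y‖) (by fun_prop)]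
  · rfl
  · rw [Submodule.inner_orthogonalProjectionOnto_eq_of_mem_right]

lemma gau_proj_sq (S : Submodule K E) :
    ∫⁻ x, ENNReal.ofReal (‖S.starProjection x‖ ^ 2) ∂(gau K E) =
    ((finrank ℝ K * finrank K S : ℕ) : ℝ≥0∞) := by
  rw [gau_proj S (f := fun s => ENNReal.ofReal (s ^ 2)) (by fun_prop), gau_sq]

/-- proper subspaces are null sets -/
lemma gau_null {T : Submodule K E} (hT : T ≠ ⊤) : gau K E (T : Set E) = 0 := by
  have hS : Tᗮ ≠ ⊥ := by
    intro h
    apply hT
    have := Submodule.orthogonal_orthogonal T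
    rw [h, Submodule.bot_orthogonal_eq_top] at this
    exact this.symm
  have hd : 0 < finrank K (Tᗮ : Submodule K E) := by
    rw [Module.finrank_pos_iff]
    exact Submodule.nontrivial_iff_ne_bot.mpr hS
  have hK : 0 < finrank ℝ K := Module.finrank_pos
  have key : ∀ t : ℝ, 0 ≤ t → gau K E (T : Set E) ≤
      ENNReal.ofReal ((1 + 2 * t) ^ (-((finrank ℝ K * finrank K (Tᗮ : Submodule K E) : ℕ) : ℝ) / 2)) := by
    intro t ht
    rw [← gau_exp ht, ← gau_proj (Tᗮ) (f := fun s => ENNReal.ofReal (Real.exp (-t * s ^ 2))) (by fun_prop)]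
    have hcl : IsClosed (T : Set E) := T.closed_of_finiteDimensional
    calc gau K E (T : Set E) = ∫⁻ x in (T : Set E), 1 ∂(gau K E) := by simp
      _ ≤ ∫⁻ x in (T : Set E), ENNReal.ofReal (Real.exp (-t * ‖(Tᗮ).starProjection x‖ ^ 2)) ∂(gau K E) := by
          apply setLIntegral_mono' hcl.measurableSet
          intro x hx
          have : (Tᗮ).starProjection x = 0 := by
            rw [Submodule.starProjection_apply_eq_zero_iff]
            rw [Submodule.orthogonal_orthogonal]
            exact hx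
          rw [this]
          simp
      _ ≤ _ := setLIntegral_le_lintegral _ _
  have hlim : Filter.Tendsto (fun t : ℝ => ENNReal.ofReal ((1 + 2 * t) ^
      (-((finrank ℝ K * finrank K (Tᗮ : Submodule K E) : ℕ) : ℝ) / 2))) Filter.atTop (nhds 0) := by
    rw [← ENNReal.ofReal_zero]
    apply ENNReal.tendsto_ofReal
    have h1 : Filter.Tendsto (fun t : ℝ => 1 + 2 * t) Filter.atTop Filter.atTop := by
      apply Filter.tendsto_atTop_add_const_left
      exact Filter.Tendsto.const_mul_atTop (by norm_num) Filter.tendsto_id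
    have h2 : 0 < ((finrank ℝ K * finrank K (Tᗮ : Submodule K E) : ℕ) : ℝ) / 2 := by
      positivity
    have h3 := (tendsto_rpow_neg_atTop h2).comp h1
    simpa [neg_div, Function.comp_def] using h3
  have := ge_of_tendsto hlim (Filter.eventually_atTop.mpr ⟨0, fun t ht => key t ht⟩)
  exact le_antisymm this bot_le

end KPart

end Pool.Agent.R989.GauA
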