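import Mathlib
import Pool.Agent.R989.GauA

set_option linter.style.haveILetI false

open MeasureTheory ProbabilityTheory Module
open scoped ENNReal

namespace Pool.Agent.R989.GauA

variable {K : Type*} [RCLike K] {E : Type*} [NormedAddCommGroup E] [InnerProductSpace K E]
  [FiniteDimensional K E] [MeasurableSpace E] [BorelSpace E]

/-! ### the inverse moment -/

lemma exp_int_le (s : ℝ) (hs : 0 ≤ s) :
    ∫⁻ t in Set.Ioi (0 : ℝ), ENNReal.ofReal (Real.exp (-t * s)) ≤ (ENNReal.ofReal s)⁻¹ := by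
  rcases hs.eq_or_lt with h | h
  · rw [← h]; simp
  have hd : ∀ x ∈ Set.Ici (0 : ℝ), HasDerivAt (fun t : ℝ => -(Real.exp (-t * s)) / s)
      (Real.exp (-x * s)) x := by
    intro x _
    have h1 : HasDerivAt (fun t : ℝ => -t * s) (-s) x := by
      simpa using ((hasDerivAt_id x).neg.mul_const s)
    have h2 : HasDerivAt (fun t : ℝ => -(Real.exp (-t * s)) / s)
        (-(Real.exp (-x * s) * (-s)) / s) x := h1.exp.neg.div_const s
    refine h2.congr_deriv ?_
    field_simp
  have hlim : Filter.Tendsto (fun t : ℝ => -(Real.exp (-t * s)) / s) Filter.atTop (nhds 0) := by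
    have h1 : Filter.Tendsto (fun t : ℝ => -t * s) Filter.atTop Filter.atBot := by
      have : (fun t : ℝ => -t * s) = fun t => (-s) * t := by funext t; ring
      rw [this]
      exact Filter.Tendsto.const_mul_atTop_of_neg (by linarith) Filter.tendsto_id
    have h2 := (Real.tendsto_exp_atBot.comp h1).neg.div_const s
    simpa using h2
  have hpos : ∀ x ∈ Set.Ioi (0 : ℝ), 0 ≤ Real.exp (-x * s) := fun x _ => (Real.exp_pos _).le
  have hint := integrableOn_Ioi_deriv_of_nonneg' hd hpos hlim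
  have hval := integral_Ioi_of_hasDerivAt_of_nonneg' hd hpos hlim
  rw [← ofReal_integral_eq_lintegral_ofReal hint
    ((ae_restrict_iff' measurableSet_Ioi).mpr (Filter.Eventually.of_forall hpos)), hval,
    ← ENNReal.ofReal_inv_of_pos h]
  apply ENNReal.ofReal_le_ofReal
  simp
  field_simp
  exact le_refl _

lemma rpow_int {m : ℝ} (hm : 2 < m) :
    ∫⁻ t in Set.Ioi (0 : ℝ), ENNReal.ofReal ((1 + 2 * t) ^ (-m / 2)) = ENNReal.ofReal (1 / (m - 2)) := by
  have hd : ∀ x ∈ Set.Ici (0 : ℝ), HasDerivAt (fun t : ℝ => -((1 + 2 * t) ^ (1 - m / 2)) / (m - 2))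
      ((1 + 2 * x) ^ (-m / 2)) x := by
    intro x hx
    have hx0 : 0 < 1 + 2 * x := by have := Set.mem_Ici.mp hx; linarith
    have h1 : HasDerivAt (fun t : ℝ => 1 + 2 * t) 2 x := by
      simpa using ((hasDerivAt_id x).const_mul (2 : ℝ)).const_add 1
    have h2 : HasDerivAt (fun t : ℝ => -((1 + 2 * t) ^ (1 - m / 2)) / (m - 2)) _ x :=
      ((h1.rpow_const (p := 1 - m / 2) (Or.inl hx0.ne')).neg.div_const (m - 2))
    refine h2.congr_deriv ?_
    have h3 : 1 - m / 2 - 1 = -m / 2 := by ring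
    rw [h3]
    have h4 : m - 2 ≠ 0 := by linarith
    field_simp
    ring
  have hlim : Filter.Tendsto (fun t : ℝ => -((1 + 2 * t) ^ (1 - m / 2)) / (m - 2)) Filter.atTop
      (nhds 0) := by
    have h1 : Filter.Tendsto (fun t : ℝ => 1 + 2 * t) Filter.atTop Filter.atTop := by
      apply Filter.tendsto_atTop_add_const_left
      exact Filter.Tendsto.const_mul_atTop (by norm_num) Filter.tendsto_id
    have h2 : 0 < m / 2 - 1 := by linarith
    have h3 := ((tendsto_rpow_neg_atTop h2).comp h1).neg.div_const (m - 2)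
    have h4 : -(m / 2 - 1) = 1 - m / 2 := by ring
    rw [h4] at h3
    simpa [Function.comp_def] using h3
  have hpos : ∀ x ∈ Set.Ioi (0 : ℝ), 0 ≤ (1 + 2 * x) ^ (-m / 2) := by
    intro x hx
    have hx0 : 0 < 1 + 2 * x := by have := Set.mem_Ioi.mp hx; linarith
    positivity
  have hint := integrableOn_Ioi_deriv_of_nonneg' hd hpos hlim
  have hval := integral_Ioi_of_hasDerivAt_of_nonneg' hd hpos hlim
  rw [← ofReal_integral_eq_lintegral_ofReal hint
    ((ae_restrict_iff' measurableSet_Ioi).mpr (Filter.Eventually.of_forall hpos)), hval]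
  congr 1
  simp
  have h4 : m - 2 ≠ 0 := by linarith
  field_simp

lemma gau_inv (hm : 2 < finrank ℝ K * finrank K E) :
    ENNReal.ofReal (1 / (((finrank ℝ K * finrank K E : ℕ) : ℝ) - 2)) ≤
    ∫⁻ x, (ENNReal.ofReal (‖x‖ ^ 2))⁻¹ ∂(gau K E) := by
  have hm' : (2 : ℝ) < ((finrank ℝ K * finrank K E : ℕ) : ℝ) := by exact_mod_cast hm
  haveI : ProperSpace E := FiniteDimensional.proper K E
  rw [← rpow_int hm']
  calc ∫⁻ t in Set.Ioi (0 : ℝ), ENNReal.ofReal ((1 + 2 * t) ^ (-((finrank ℝ K * finrank K E : ℕ) : ℝ) / 2))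
      = ∫⁻ t in Set.Ioi (0 : ℝ), ∫⁻ x, ENNReal.ofReal (Real.exp (-t * ‖x‖ ^ 2)) ∂(gau K E) := by
        apply setLIntegral_congr_fun measurableSet_Ioi
        intro t ht
        exact (gau_exp (le_of_lt ht)).symm
    _ = ∫⁻ x, (∫⁻ t in Set.Ioi (0 : ℝ), ENNReal.ofReal (Real.exp (-t * ‖x‖ ^ 2))) ∂(gau K E) := by
        apply lintegral_lintegral_swap
        apply Measurable.aemeasurable
        unfold Function.uncurry
        fun_prop
    _ ≤ _ := lintegral_mono fun x => exp_int_le _ (sq_nonneg _)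

lemma gau_proj_inv (S : Submodule K E) (hm : 2 < finrank ℝ K * finrank K S) :
    ENNReal.ofReal (1 / (((finrank ℝ K * finrank K S : ℕ) : ℝ) - 2)) ≤
    ∫⁻ x, (ENNReal.ofReal (‖S.starProjection x‖ ^ 2))⁻¹ ∂(gau K E) := by
  rw [gau_proj S (f := fun s => (ENNReal.ofReal (s ^ 2))⁻¹) (by fun_prop)]
  exact gau_inv hm

end Pool.Agent.R989.GauA
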