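import Mathlib
import Pool.Agent.R989.GauB

set_option linter.style.haveILetI false

open MeasureTheory ProbabilityTheory Module
open scoped ENNReal

namespace Pool.Agent.R989.GauA

variable {K : Type*} [RCLike K] {E : Type*} [NormedAddCommGroup E] [InnerProductSpace K E]
  [FiniteDimensional K E] [MeasurableSpace E] [BorelSpace E]

/-- `r`-tuples of vectors of `E`, with the Euclidean norm -/
abbrev HH (E : Type*) (r : ℕ) := PiLp 2 (fun _ : Fin r => E)

/-- pairs (coefficient vector, vector of `E`), with the Euclidean norm -/
abbrev GG (K E : Type*) (r : ℕ) := WithLp 2 (EuclideanSpace K (Fin r) × E)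

instance secE : SecondCountableTopology E := by
  haveI : ProperSpace E := FiniteDimensional.proper K E
  infer_instance

/-- put `s` at the place `j` -/
noncomputable def sing {r : ℕ} (j : Fin r) (s : E) : HH E r := WithLp.toLp 2 (fun i => if i = j then s else 0)

/-- erase the place `j` -/
noncomputable def eras {r : ℕ} (j : Fin r) (v : HH E r) : HH E r :=
  WithLp.toLp 2 (fun i => if i = j then 0 else v i)

omit [NormedAddCommGroup E] [FiniteDimensional K E] [BorelSpace E] [InnerProductSpace K E] in
lemma meas_comp {r : ℕ} (i : Fin r) : Measurable (fun v : HH E r => v i) :=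
  (measurable_pi_apply i).comp (WithLp.measurable_ofLp 2 _)

omit [InnerProductSpace K E] [FiniteDimensional K E] [BorelSpace E] in
lemma meas_sing {r : ℕ} (j : Fin r) : Measurable (sing (E := E) j) := by
  apply (WithLp.measurable_toLp 2 _).comp
  apply measurable_pi_lambda
  intro i
  by_cases h : i = j
  · simp only [h, if_true]; exact measurable_id
  · simp only [h, if_false]; exact measurable_const

omit [InnerProductSpace K E] [FiniteDimensional K E] [BorelSpace E] in
lemma meas_eras {r : ℕ} (j : Fin r) : Measurable (eras (E := E) j) := by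
  apply (WithLp.measurable_toLp 2 _).comp
  apply measurable_pi_lambda
  intro i
  by_cases h : i = j
  · simp only [h, if_true]; exact measurable_const
  · simp only [h, if_false]; exact meas_comp i

/-- integrate first over all coordinates but the `j`-th, then over the `j`-th -/
lemma split_coord {r : ℕ} (j : Fin r) {f : HH E r → ℝ≥0∞} (hf : Measurable f) :
    ∫⁻ y, f y ∂(gau K (HH E r)) =
      ∫⁻ v, ∫⁻ s, f (eras j v + sing j s) ∂(gau K E) ∂(gau K (HH E r)) := by
  apply lint_gau2 (eras j) (fun t => t j) (meas_eras j) (meas_sing j) _ _ _ hf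
  · intro u t
    simp only [PiLp.inner_apply]
    apply Finset.sum_congr rfl
    intro i _
    by_cases h : i = j
    · simp [eras, h]
    · simp [eras, h]
  · intro u t
    simp only [PiLp.inner_apply]
    rw [Finset.sum_eq_single j]
    · simp [sing]
    · intro i _ h
      simp [sing, h]
    · simp
  · intro t
    simp only [PiLp.norm_sq_eq_of_L2]
    rw [← Finset.sum_erase_add _ _ (Finset.mem_univ j), ← Finset.sum_erase_add _ _ (Finset.mem_univ j)]
    simp only [eras]
    rw [Finset.sum_congr rfl (g := fun i => ‖t i‖ ^ 2)]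
    · simp
    · intro i hi
      simp [Finset.ne_of_mem_erase hi]

lemma ae_indep_aux (W : Submodule K E) {r : ℕ} (hr : r ≤ finrank K W) (s : Finset (Fin r)) :
    ∀ᵐ y ∂(gau K (HH E r)), LinearIndepOn K (fun i => W.starProjection (y i)) (s : Set (Fin r)) := by
  classical
  induction s using Finset.induction_on with
  | empty =>
      refine Filter.Eventually.of_forall fun y => ?_
      simp
  | insert a s ha ih =>
      have hopen : IsOpen {y : HH E r | LinearIndepOn K (fun i => W.starProjection (y i))
          ((insert a s : Finset (Fin r)) : Set (Fin r))} := by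
        have h1 := isOpen_setOfPred_linearIndependent (𝕜 := K) (E := E)
          (ι := ((insert a s : Finset (Fin r)) : Set (Fin r)))
        have hc : Continuous (fun (y : HH E r) (i : ((insert a s : Finset (Fin r)) : Set (Fin r))) =>
          W.starProjection (y i)) := by fun_prop
        exact h1.preimage hc
      set D : Set (HH E r) := {y | ¬ LinearIndepOn K (fun i => W.starProjection (y i))
        ((insert a s : Finset (Fin r)) : Set (Fin r))} with hD
      have hDm : MeasurableSet D := by
        have : D = {y : HH E r | LinearIndepOn K (fun i => W.starProjection (y i))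
          ((insert a s : Finset (Fin r)) : Set (Fin r))}ᶜ := rfl
        rw [this]
        exact hopen.measurableSet.compl
      have hz : ∫⁻ y, D.indicator 1 y ∂(gau K (HH E r)) = 0 := by
        rw [split_coord a (measurable_one.indicator hDm)]
        rw [← lintegral_zero (μ := gau K (HH E r))]
        apply lintegral_congr_ae
        filter_upwards [ih] with v hv
        set T : Submodule K E := (Submodule.span K ((fun i => W.starProjection (v i)) '' (s : Set (Fin r)))).comap
          (W.starProjection : E →ₗ[K] E) with hT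
        have hTne : T ≠ ⊤ := by
          intro htop
          have hle : W ≤ Submodule.span K ((fun i => W.starProjection (v i)) '' (s : Set (Fin r))) := by
            intro w hw
            have : w ∈ T := by rw [htop]; trivial
            rw [hT, Submodule.mem_comap] at this
            have h2 : W.starProjection w = w := Submodule.starProjection_eq_self_iff.mpr hw
            simpa [h2] using this
          have h1 := Submodule.finrank_mono hle
          have h2 : finrank K (Submodule.span K ((fun i => W.starProjection (v i)) '' (s : Set (Fin r)))) ≤ s.card := by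
            rw [← Finset.coe_image]
            exact (finrank_span_finset_le_card _).trans Finset.card_image_le
          have h3 : (insert a s).card ≤ r := by
            simpa using Finset.card_le_univ (insert a s)
          rw [Finset.card_insert_of_notMem ha] at h3
          omega
        have hsub : ∀ u : E, D.indicator (1 : HH E r → ℝ≥0∞) (eras a v + sing a u) = (T : Set E).indicator 1 u := by
          intro u
          have hiff : (eras a v + sing a u ∈ D) ↔ u ∈ (T : Set E) := by
            rw [hD, Set.mem_ofPred_eq, Finset.coe_insert, linearIndepOn_insert (by simpa using ha)]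
            have e1 : LinearIndepOn K (fun i => W.starProjection ((eras a v + sing a u) i)) (s : Set (Fin r)) ↔
                LinearIndepOn K (fun i => W.starProjection (v i)) (s : Set (Fin r)) := by
              apply linearIndepOn_congr
              intro i hi
              have : i ≠ a := fun h => ha (h ▸ (by simpa using hi))
              simp [eras, sing, this]
            have e2 : (fun i => W.starProjection ((eras a v + sing a u) i)) '' (s : Set (Fin r)) =
                (fun i => W.starProjection (v i)) '' (s : Set (Fin r)) := by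
              apply Set.image_congr
              intro i hi
              have : i ≠ a := fun h => ha (h ▸ (by simpa using hi))
              simp [eras, sing, this]
            rw [e1, e2]
            have e3 : (eras a v + sing a u) a = u := by simp [eras, sing]
            rw [e3]
            simp only [hv, true_and, not_not]
            rfl
          by_cases hu : u ∈ (T : Set E)
          · rw [Set.indicator_of_mem hu, Set.indicator_of_mem (hiff.mpr hu)]; rfl
          · rw [Set.indicator_of_notMem hu, Set.indicator_of_notMem (fun h => hu (hiff.mp h))]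
        simp_rw [hsub]
        have hcl : IsClosed (T : Set E) := T.closed_of_finiteDimensional
        rw [lintegral_indicator_one hcl.measurableSet]
        exact gau_null hTne
      rw [lintegral_indicator_one hDm] at hz
      exact hz

lemma ae_indep (W : Submodule K E) {r : ℕ} (hr : r ≤ finrank K W) :
    ∀ᵐ y ∂(gau K (HH E r)), LinearIndependent K (fun i => W.starProjection (y i)) := by
  filter_upwards [ae_indep_aux W hr Finset.univ] with y hy
  simpa using hy

/-- second moment of a projected combination of independent Gaussian vectors -/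
lemma sum_sq (V : Submodule K E) {r : ℕ} (w : Fin r → K) :
    ∫⁻ t, ∫⁻ h, ENNReal.ofReal (‖V.starProjection (∑ j, w j • t j + h.snd)‖ ^ 2)
      ∂(gau K (GG K E r)) ∂(gau K (HH E r)) =
    ENNReal.ofReal (1 + ∑ j, ‖w j‖ ^ 2) * ((finrank ℝ K * finrank K V : ℕ) : ℝ≥0∞) := by
  have hpos : 0 < 1 + ∑ j, ‖w j‖ ^ 2 := by
    have : 0 ≤ ∑ j, ‖w j‖ ^ 2 := Finset.sum_nonneg fun i _ => sq_nonneg _
    linarith
  set ρ : ℝ := Real.sqrt (1 + ∑ j, ‖w j‖ ^ 2) with hρ
  have hρpos : 0 < ρ := Real.sqrt_pos.mpr hpos
  have hρsq : ρ ^ 2 = 1 + ∑ j, ‖w j‖ ^ 2 := Real.sq_sqrt hpos.le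
  have hρK : ((ρ : ℝ) : K) ≠ 0 := by exact_mod_cast hρpos.ne'
  have h := lint_gau2 (K := K) (E := E) (E₁ := HH E r) (E₂ := GG K E r)
    (A := fun t => ∑ j, ((ρ⁻¹ : ℝ) : K) • w j • t j) (B := fun h => ((ρ⁻¹ : ℝ) : K) • h.snd)
    (fun s => WithLp.toLp 2 (fun j => ((ρ⁻¹ : ℝ) : K) • (starRingEnd K) (w j) • s))
    (fun s => WithLp.toLp 2 (0, ((ρ⁻¹ : ℝ) : K) • s))
    (by fun_prop) (by fun_prop)
    (fun u t => ?_) (fun u t => ?_) (fun t => ?_)
    (f := fun x => ENNReal.ofReal (‖V.starProjection (((ρ : ℝ) : K) • x)‖ ^ 2)) (by fun_prop)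
  · have h1 : ∀ (t : HH E r) (h : GG K E r), ((ρ : ℝ) : K) • (∑ j, ((ρ⁻¹ : ℝ) : K) • w j • t j +
        ((ρ⁻¹ : ℝ) : K) • h.snd) = ∑ j, w j • t j + h.snd := by
      intro t h
      rw [← Finset.smul_sum, ← smul_add, smul_smul]
      push_cast
      rw [mul_inv_cancel₀ hρK, one_smul]
    simp_rw [h1] at h
    rw [← h]
    have h2 : ∀ x : E, ENNReal.ofReal (‖V.starProjection (((ρ : ℝ) : K) • x)‖ ^ 2) =
        ENNReal.ofReal (1 + ∑ j, ‖w j‖ ^ 2) * ENNReal.ofReal (‖V.starProjection x‖ ^ 2) := by
      intro x
      rw [map_smul, norm_smul, mul_pow, RCLike.norm_ofReal, sq_abs, hρsq, ENNReal.ofReal_mul hpos.le]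
    simp_rw [h2]
    rw [lintegral_const_mul _ (by fun_prop), gau_proj_sq]
  · simp only [sum_inner, PiLp.inner_apply, inner_smul_left, inner_smul_right, RCLike.conj_ofReal]
  · simp [WithLp.prod_inner_apply, inner_smul_left, inner_smul_right]
  · have e1 : ‖((ρ⁻¹ : ℝ) : K) • t‖ ^ 2 = ρ⁻¹ ^ 2 * ‖t‖ ^ 2 := by
      rw [norm_smul, mul_pow, RCLike.norm_ofReal, sq_abs]
    have e2 : ‖(WithLp.toLp 2 ((0 : EuclideanSpace K (Fin r)), ((ρ⁻¹ : ℝ) : K) • t) : GG K E r)‖ ^ 2 =
        ρ⁻¹ ^ 2 * ‖t‖ ^ 2 := by
      rw [WithLp.prod_norm_sq_eq_of_L2]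
      change ‖(0 : EuclideanSpace K (Fin r))‖ ^ 2 + ‖((ρ⁻¹ : ℝ) : K) • t‖ ^ 2 = _
      rw [e1, norm_zero]
      ring
    have e3 : ‖(WithLp.toLp 2 (fun j => ((ρ⁻¹ : ℝ) : K) • (starRingEnd K) (w j) • t) : HH E r)‖ ^ 2 =
        (∑ j, ‖w j‖ ^ 2) * (ρ⁻¹ ^ 2 * ‖t‖ ^ 2) := by
      rw [PiLp.norm_sq_eq_of_L2, Finset.sum_mul]
      apply Finset.sum_congr rfl
      intro j _
      change ‖((ρ⁻¹ : ℝ) : K) • (starRingEnd K) (w j) • t‖ ^ 2 = _
      rw [norm_smul, norm_smul, RCLike.norm_conj, RCLike.norm_ofReal, mul_pow, mul_pow, sq_abs]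
      ring
    rw [e2, e3]
    have : (∑ j, ‖w j‖ ^ 2) = ρ ^ 2 - 1 := by rw [hρsq]; ring
    rw [this]
    field_simp
    ring

end Pool.Agent.R989.GauA
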