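import Mathlib
import Pool.Agent.R989.GauC

set_option linter.style.haveILetI false

open MeasureTheory ProbabilityTheory Module
open scoped ENNReal

namespace Pool.Agent.R989.GauA

section refl

variable {K : Type*} [RCLike K] {E : Type*} [NormedAddCommGroup E] [InnerProductSpace K E]
  [FiniteDimensional K E] [MeasurableSpace E] [BorelSpace E]

/-- the reflection along `v` -/
noncomputable def refl (K : Type*) [RCLike K] {E : Type*} [NormedAddCommGroup E] [InnerProductSpace K E]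
    (v x : E) : E := x - (2 * (inner K v x / ((‖v‖ ^ 2 : ℝ) : K))) • v

omit [FiniteDimensional K E] [MeasurableSpace E] [BorelSpace E] in
lemma refl_eq (v x : E) : refl K v x = -((Submodule.span K {v}).reflection x) := by
  rw [Submodule.reflection_apply, Submodule.starProjection_singleton, refl]
  rw [two_smul, mul_smul, two_smul]
  abel

omit [FiniteDimensional K E] [MeasurableSpace E] [BorelSpace E] in
lemma refl_norm (v x : E) : ‖refl K v x‖ = ‖x‖ := by
  rw [refl_eq, norm_neg, LinearIsometryEquiv.norm_map]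

omit [FiniteDimensional K E] [MeasurableSpace E] [BorelSpace E] in
lemma refl_inner (v x y : E) : inner K (refl K v x) y = inner K x (refl K v y) := by
  rw [refl, refl, inner_sub_left, inner_sub_right, inner_smul_left, inner_smul_right, map_mul, map_div₀,
    inner_conj_symm, RCLike.conj_ofReal]
  have : (starRingEnd K) 2 = 2 := by
    have h : (2 : K) = ((2 : ℝ) : K) := by push_cast; rfl
    rw [h, RCLike.conj_ofReal]
  rw [this]
  ring

lemma lint_refl (v : E) {f : E → ℝ≥0∞} (hf : Measurable f) :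
    ∫⁻ x, f x ∂(gau K E) = ∫⁻ x, f (refl K v x) ∂(gau K E) := by
  apply lint_gau1 (K := K) (refl K v) _ (refl_inner v) (refl_norm v) hf
  unfold refl
  fun_prop

lemma coef_sq {v : E} (hv : v ≠ 0) :
    ∫⁻ x, ENNReal.ofReal (‖inner K v x / ((‖v‖ ^ 2 : ℝ) : K)‖ ^ 2) ∂(gau K E) =
    ENNReal.ofReal ((finrank ℝ K : ℝ) / ‖v‖ ^ 2) := by
  have hvn : 0 < ‖v‖ ^ 2 := by positivity
  have h1 := gau_proj_sq (K := K) (E := E) (Submodule.span K {v})
  rw [finrank_span_singleton hv, mul_one] at h1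
  have h2 : ∀ x : E, ENNReal.ofReal (‖(Submodule.span K {v}).starProjection x‖ ^ 2) =
      ENNReal.ofReal (‖inner K v x / ((‖v‖ ^ 2 : ℝ) : K)‖ ^ 2) * ENNReal.ofReal (‖v‖ ^ 2) := by
    intro x
    rw [Submodule.starProjection_singleton, norm_smul, mul_pow, ENNReal.ofReal_mul (by positivity)]
  simp_rw [h2] at h1
  rw [lintegral_mul_const _ (by fun_prop)] at h1
  rw [ENNReal.ofReal_div_of_pos hvn, ENNReal.eq_div_iff (by simpa using hvn.ne') ENNReal.ofReal_ne_top,
    mul_comm, h1]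
  simp

end refl

variable {K : Type*} [RCLike K] {E : Type*} [NormedAddCommGroup E] [InnerProductSpace K E]
  [FiniteDimensional K E] [MeasurableSpace E] [BorelSpace E]

/-- the observed vector -/
noncomputable def obs {r : ℕ} (W : Submodule K E) (y : Fin r → E) (σ : ℝ) (h : GG K E r) : E :=
  ∑ i, (((σ : ℝ) : K) * h.fst i) • y i + W.starProjection h.snd

lemma meas_obs {r : ℕ} (W : Submodule K E) (σ : ℝ) :
    Measurable (fun p : (Fin r → E) × GG K E r => obs W p.1 σ p.2) := by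
  unfold obs
  fun_prop

/-- the Bayes bound for one coordinate -/
lemma refl_bound {r : ℕ} (W : Submodule K E) (j : Fin r) (u : Fin r → K) (hu : u j = 1)
    (y : Fin r → E) (hy : ∀ i, W.starProjection (y i) = y i) {σ : ℝ} (hσ : 0 < σ)
    {g : E → K} (hg : Measurable g) :
    ENNReal.ofReal ((finrank ℝ K : ℝ) / (‖∑ i, u i • y i‖ ^ 2 + (∑ i, ‖u i‖ ^ 2) / σ ^ 2)) ≤
    ∫⁻ h, ENNReal.ofReal (‖((σ : ℝ) : K) * h.fst j - g (obs W y σ h)‖ ^ 2) ∂(gau K (GG K E r)) := by
  have hσK : ((σ : ℝ) : K) ≠ 0 := by exact_mod_cast hσ.ne'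
  set v : GG K E r := WithLp.toLp 2 (WithLp.toLp 2 (fun i => ((σ⁻¹ : ℝ) : K) * u i), -∑ i, u i • y i) with hv
  have hvn : ‖v‖ ^ 2 = ‖∑ i, u i • y i‖ ^ 2 + (∑ i, ‖u i‖ ^ 2) / σ ^ 2 := by
    rw [WithLp.prod_norm_sq_eq_of_L2, add_comm]
    change ‖-∑ i, u i • y i‖ ^ 2 + ‖(WithLp.toLp 2 (fun i => ((σ⁻¹ : ℝ) : K) * u i) : EuclideanSpace K (Fin r))‖ ^ 2 = _
    rw [norm_neg, EuclideanSpace.norm_sq_eq]
    congr 1
    rw [Finset.sum_div]
    apply Finset.sum_congr rfl
    intro i _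
    change ‖((σ⁻¹ : ℝ) : K) * u i‖ ^ 2 = _
    rw [norm_mul, mul_pow, RCLike.norm_ofReal, sq_abs]
    field_simp
  have hS : 0 < (∑ i, ‖u i‖ ^ 2) / σ ^ 2 := by
    apply div_pos _ (by positivity)
    apply Finset.sum_pos' (fun i _ => sq_nonneg _) ⟨j, Finset.mem_univ j, ?_⟩
    rw [hu]; simp
  have hvpos : 0 < ‖v‖ ^ 2 := by rw [hvn]; positivity
  have hv0 : v ≠ 0 := by
    intro h
    rw [h] at hvpos
    simp at hvpos
  have hobs : ∀ h : GG K E r, obs W y σ (refl K v h) = obs W y σ h := by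
    intro h
    have e1 : ∀ i, (refl K v h).fst i = h.fst i -
        (2 * (inner K v h / ((‖v‖ ^ 2 : ℝ) : K))) * (((σ⁻¹ : ℝ) : K) * u i) := fun i => rfl
    have e2 : (refl K v h).snd = h.snd + (2 * (inner K v h / ((‖v‖ ^ 2 : ℝ) : K))) • ∑ i, u i • y i := by
      change h.snd - (2 * (inner K v h / ((‖v‖ ^ 2 : ℝ) : K))) • (-∑ i, u i • y i) = _
      rw [smul_neg, sub_neg_eq_add]
    set c : K := 2 * (inner K v h / ((‖v‖ ^ 2 : ℝ) : K)) with hc
    have e4 : W.starProjection (∑ i, u i • y i) = ∑ i, u i • y i := by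
      rw [map_sum]
      exact Finset.sum_congr rfl fun i _ => by rw [map_smul, hy]
    unfold obs
    rw [e2, map_add, map_smul, e4]
    have e3 : ∀ i, (((σ : ℝ) : K) * (refl K v h).fst i) • y i =
        (((σ : ℝ) : K) * h.fst i) • y i - c • (u i • y i) := by
      intro i
      change (((σ : ℝ) : K) * (h.fst i - c * (((σ⁻¹ : ℝ) : K) * u i))) • y i = _
      rw [smul_smul, ← sub_smul]
      congr 1
      push_cast
      field_simp
    rw [Finset.sum_congr rfl (fun i _ => e3 i), Finset.sum_sub_distrib, ← Finset.smul_sum]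
    abel
  have hdiff : ∀ h : GG K E r, ((σ : ℝ) : K) * h.fst j - ((σ : ℝ) : K) * (refl K v h).fst j =
      2 * (inner K v h / ((‖v‖ ^ 2 : ℝ) : K)) := by
    intro h
    have e1 : (refl K v h).fst j = h.fst j -
        (2 * (inner K v h / ((‖v‖ ^ 2 : ℝ) : K))) * (((σ⁻¹ : ℝ) : K) * u j) := rfl
    rw [e1, hu]
    push_cast
    field_simp
    ring
  set F : GG K E r → K := fun h => ((σ : ℝ) : K) * h.fst j - g (obs W y σ h) with hF
  have hFm : Measurable F := by
    have h1 : Measurable (fun h : GG K E r => obs W y σ h) := by unfold obs; fun_prop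
    have h2 := hg.comp h1
    have h3 : Measurable (fun h : GG K E r => ((σ : ℝ) : K) * h.fst j) := by fun_prop
    exact h3.sub h2
  have hFm2 : Measurable (fun h => ENNReal.ofReal (‖F h‖ ^ 2)) := by fun_prop
  have hpt : ∀ h : GG K E r, 2 * ENNReal.ofReal (‖inner K v h / ((‖v‖ ^ 2 : ℝ) : K)‖ ^ 2) ≤
      ENNReal.ofReal (‖F h‖ ^ 2) + ENNReal.ofReal (‖F (refl K v h)‖ ^ 2) := by
    intro h
    have e1 : F h - F (refl K v h) = 2 * (inner K v h / ((‖v‖ ^ 2 : ℝ) : K)) := by
      rw [hF]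
      simp only [hobs]
      rw [← hdiff h]
      ring
    have e2 : ‖F h - F (refl K v h)‖ ≤ ‖F h‖ + ‖F (refl K v h)‖ := norm_sub_le _ _
    rw [e1, norm_mul, RCLike.norm_two] at e2
    have e0 : ∀ a : ℝ, 2 * ENNReal.ofReal a = ENNReal.ofReal (2 * a) := by
      intro a
      rw [ENNReal.ofReal_mul (by norm_num)]
      simp
    rw [e0, ← ENNReal.ofReal_add (by positivity) (by positivity)]
    apply ENNReal.ofReal_le_ofReal
    have e3 := norm_nonneg (inner K v h / ((‖v‖ ^ 2 : ℝ) : K))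
    nlinarith [norm_nonneg (F h), norm_nonneg (F (refl K v h)), sq_nonneg (‖F h‖ - ‖F (refl K v h)‖)]
  have hint := lintegral_mono (μ := gau K (GG K E r)) hpt
  rw [lintegral_const_mul _ (by fun_prop), coef_sq hv0, lintegral_add_left hFm2,
    ← lint_refl v hFm2, ← two_mul] at hint
  rw [hvn] at hint
  exact (ENNReal.mul_le_mul_iff_right (by norm_num) (by norm_num)).mp hint

end Pool.Agent.R989.GauA
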