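import Mathlib
import Pool.Agent.R989.GauD

set_option linter.style.haveILetI false

open MeasureTheory ProbabilityTheory Module Filter
open scoped ENNReal

namespace Pool.Agent.R989.GauA

variable {K : Type*} [RCLike K] {E : Type*} [NormedAddCommGroup E] [InnerProductSpace K E]
  [FiniteDimensional K E] [MeasurableSpace E] [BorelSpace E]

/-- error of the estimated coefficients -/
noncomputable def wv {r : ℕ} (W : Submodule K E) (f : (Fin r → E) × E → Fin r → K) (σ : ℝ)
    (y : HH E r) (h : GG K E r) (j : Fin r) : K :=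
  ((σ : ℝ) : K) * h.fst j -
    f (fun i => W.starProjection (y i), obs W (fun i => W.starProjection (y i)) σ h) j

lemma meas_wv {r : ℕ} (W : Submodule K E) {f : (Fin r → E) × E → Fin r → K} (hf : Measurable f)
    (σ : ℝ) (j : Fin r) : Measurable (fun p : HH E r × GG K E r => wv W f σ p.1 p.2 j) := by
  unfold wv
  have h1 : Measurable (fun p : HH E r × GG K E r => ((fun i => W.starProjection (p.1 i) : Fin r → E),
      obs W (fun i => W.starProjection (p.1 i)) σ p.2)) := by
    unfold obs
    fun_prop
  have h2 := (measurable_pi_apply j).comp (hf.comp h1)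
  have h3 : Measurable (fun p : HH E r × GG K E r => ((σ : ℝ) : K) * p.2.fst j) := by fun_prop
  exact h3.sub h2

/-- the risk of the `j`-th coefficient for given design `y` -/
noncomputable def risk {r : ℕ} (W : Submodule K E) (f : (Fin r → E) × E → Fin r → K) (σ : ℝ)
    (y : HH E r) (j : Fin r) : ℝ≥0∞ :=
  ∫⁻ h, ENNReal.ofReal (‖wv W f σ y h j‖ ^ 2) ∂(gau K (GG K E r))

lemma meas_risk {r : ℕ} (W : Submodule K E) {f : (Fin r → E) × E → Fin r → K} (hf : Measurable f)
    (σ : ℝ) (j : Fin r) : Measurable (fun y : HH E r => risk W f σ y j) := by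
  unfold risk
  apply Measurable.lintegral_prod_right' (f := fun p : HH E r × GG K E r =>
    ENNReal.ofReal (‖wv W f σ p.1 p.2 j‖ ^ 2))
  have := meas_wv W hf σ j
  fun_prop

lemma liminf_bound {r : ℕ} (W : Submodule K E) {f : (Fin r → E) × E → Fin r → K} (hf : Measurable f)
    (j : Fin r) (u : Fin r → K) (hu : u j = 1) (y : HH E r) :
    ENNReal.ofReal (finrank ℝ K : ℝ) * (ENNReal.ofReal (‖∑ i, u i • W.starProjection (y i)‖ ^ 2))⁻¹ ≤
    liminf (fun k : ℕ => risk W f ((k : ℝ) + 1) y j) atTop := by
  have hK : (0 : ℝ) < (finrank ℝ K : ℝ) := by exact_mod_cast (Module.finrank_pos : 0 < finrank ℝ K)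
  set a : ℝ := ‖∑ i, u i • W.starProjection (y i)‖ ^ 2 with ha
  set S : ℝ := ∑ i, ‖u i‖ ^ 2 with hS
  have hSpos : 0 < S := by
    apply Finset.sum_pos' (fun i _ => sq_nonneg _) ⟨j, Finset.mem_univ j, ?_⟩
    rw [hu]; simp
  have hg : Measurable (fun x : E => f (fun i => W.starProjection (y i), x) j) :=
    (measurable_pi_apply j).comp (hf.comp (by fun_prop))
  have hb : ∀ k : ℕ, ENNReal.ofReal (finrank ℝ K : ℝ) * (ENNReal.ofReal (a + S / ((k : ℝ) + 1) ^ 2))⁻¹ ≤
      risk W f ((k : ℝ) + 1) y j := by
    intro k
    have hk : (0 : ℝ) < (k : ℝ) + 1 := by positivity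
    have h1 := refl_bound W j u hu (fun i => W.starProjection (y i))
      (fun i => Submodule.starProjection_eq_self_iff.mpr (Submodule.starProjection_apply_mem W (y i))) hk hg
    have h2 : 0 < a + S / ((k : ℝ) + 1) ^ 2 := by positivity
    rw [ENNReal.ofReal_div_of_pos h2, div_eq_mul_inv] at h1
    exact h1
  have hlim : Tendsto (fun k : ℕ => ENNReal.ofReal (finrank ℝ K : ℝ) *
      (ENNReal.ofReal (a + S / ((k : ℝ) + 1) ^ 2))⁻¹) atTop
      (nhds (ENNReal.ofReal (finrank ℝ K : ℝ) * (ENNReal.ofReal a)⁻¹)) := by
    apply ENNReal.Tendsto.const_mul _ (Or.inr ENNReal.ofReal_ne_top)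
    apply tendsto_inv_iff.mpr
    apply ENNReal.tendsto_ofReal
    have h1 : Tendsto (fun k : ℕ => (k : ℝ) + 1) atTop atTop :=
      tendsto_atTop_add_const_right _ _ tendsto_natCast_atTop_atTop
    have h2 : Tendsto (fun k : ℕ => ((k : ℝ) + 1) ^ 2) atTop atTop :=
      (tendsto_pow_atTop (two_ne_zero)).comp h1
    have h3 := (h2.const_div_atTop S).const_add a
    simpa using h3
  rw [← hlim.liminf_eq]
  exact liminf_le_liminf (Eventually.of_forall hb)

omit [MeasurableSpace E] [BorelSpace E] in
/-- the projection on `Tᗮ ⊓ W` when `T ≤ W` -/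
lemma proj_inf {T W : Submodule K E} (hTW : T ≤ W) (s : E) :
    (Tᗮ ⊓ W).starProjection s = W.starProjection s - T.starProjection s := by
  apply Submodule.eq_starProjection_of_mem_orthogonal
  · constructor
    · have h1 : s - T.starProjection s ∈ Tᗮ := Submodule.sub_starProjection_mem_orthogonal s
      have h2 : s - W.starProjection s ∈ Tᗮ :=
        Submodule.orthogonal_le hTW (Submodule.sub_starProjection_mem_orthogonal s)
      have := Submodule.sub_mem _ h1 h2
      simpa using this
    · exact Submodule.sub_mem _ (Submodule.starProjection_apply_mem W s)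
        (hTW (Submodule.starProjection_apply_mem T s))
  · have h1 : s - W.starProjection s ∈ (Tᗮ ⊓ W)ᗮ :=
      Submodule.orthogonal_le inf_le_right (Submodule.sub_starProjection_mem_orthogonal s)
    have h2 : T.starProjection s ∈ (Tᗮ ⊓ W)ᗮ := by
      have h3 : (Tᗮ)ᗮ ≤ (Tᗮ ⊓ W)ᗮ := Submodule.orthogonal_le inf_le_left
      apply h3
      rw [Submodule.orthogonal_orthogonal]
      exact Submodule.starProjection_apply_mem T s
    have := Submodule.add_mem _ h1 h2
    convert this using 1
    abel

lemma bayes {r : ℕ} (W : Submodule K E) {f : (Fin r → E) × E → Fin r → K} (hf : Measurable f)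
    (hr : r ≤ finrank K W) (hm : 2 < finrank ℝ K * (finrank K W - r + 1)) (j : Fin r) :
    ENNReal.ofReal (finrank ℝ K : ℝ) *
      ENNReal.ofReal (1 / (((finrank ℝ K * (finrank K W - r + 1) : ℕ) : ℝ) - 2)) ≤
    ∫⁻ y, liminf (fun k : ℕ => risk W f ((k : ℝ) + 1) y j) atTop ∂(gau K (HH E r)) := by
  have hmeas : Measurable (fun y : HH E r => liminf (fun k : ℕ => risk W f ((k : ℝ) + 1) y j) atTop) :=
    Measurable.liminf (fun k => meas_risk W hf _ j)
  rw [split_coord j hmeas]
  set c : ℝ≥0∞ := ENNReal.ofReal (finrank ℝ K : ℝ) *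
      ENNReal.ofReal (1 / (((finrank ℝ K * (finrank K W - r + 1) : ℕ) : ℝ) - 2)) with hc
  have hconst : c = ∫⁻ _v : HH E r, c ∂(gau K (HH E r)) := by simp
  rw [hconst]
  apply lintegral_mono_ae
  filter_upwards [ae_indep W hr] with v hv
  classical
  set T : Submodule K E := Submodule.span K
    ((fun i => W.starProjection (v i)) '' ((Finset.univ.erase j : Finset (Fin r)) : Set (Fin r))) with hT
  have hTW : T ≤ W := by
    rw [hT, Submodule.span_le]
    rintro x ⟨i, _, rfl⟩
    exact Submodule.starProjection_apply_mem W _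
  have hTrank : finrank K T = r - 1 := by
    have h1 : LinearIndepOn K (fun i => W.starProjection (v i))
        ((Finset.univ.erase j : Finset (Fin r)) : Set (Fin r)) :=
      (linearIndepOn_univ_iff.mpr hv).mono (Set.subset_univ _)
    have h2 : T = Submodule.span K (Set.range (fun i : ((Finset.univ.erase j : Finset (Fin r)) : Set (Fin r)) =>
        W.starProjection (v i))) := by
      rw [hT, Set.image_eq_range]
    rw [h2, finrank_span_eq_card h1]
    simp
  have hrpos : 0 < r := Fin.pos j
  set S : Submodule K E := Tᗮ ⊓ W with hS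
  have hSrank : finrank K S = finrank K W - r + 1 := by
    have := Submodule.finrank_add_inf_finrank_orthogonal hTW
    rw [hTrank] at this
    rw [hS]
    omega
  calc c ≤ ENNReal.ofReal (finrank ℝ K : ℝ) *
        ∫⁻ s, (ENNReal.ofReal (‖S.starProjection s‖ ^ 2))⁻¹ ∂(gau K E) := by
        rw [hc]
        apply mul_le_mul_right
        have := gau_proj_inv (K := K) S (by rw [hSrank]; exact hm)
        rw [hSrank] at this
        exact this
    _ = ∫⁻ s, ENNReal.ofReal (finrank ℝ K : ℝ) * (ENNReal.ofReal (‖S.starProjection s‖ ^ 2))⁻¹ ∂(gau K E) := by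
        rw [lintegral_const_mul _ (by fun_prop)]
    _ ≤ _ := by
        apply lintegral_mono
        intro s
        have h1 : T.starProjection s ∈ T := Submodule.starProjection_apply_mem T s
        rw [hT, Submodule.mem_span_image_finset_iff_exists_fun] at h1
        obtain ⟨cc0, hcc0⟩ := h1
        obtain ⟨cc, hcc⟩ : ∃ cc : Fin r → K, ∑ i ∈ Finset.univ.erase j, cc i • W.starProjection (v i) =
            T.starProjection s := by
          refine ⟨fun i => if h : i ∈ Finset.univ.erase j then cc0 ⟨i, h⟩ else 0, ?_⟩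
          rw [hT, ← hcc0, ← Finset.sum_coe_sort]
          apply Finset.sum_congr rfl
          intro i _
          beta_reduce
          rw [dif_pos i.2]
        have h2 := liminf_bound W hf j (fun i => if i = j then 1 else - cc i) (by simp)
          (eras j v + sing j s)
        have h3 : ∑ i, (if i = j then (1 : K) else - cc i) • W.starProjection ((eras j v + sing j s) i) =
            S.starProjection s := by
          rw [proj_inf hTW, ← Finset.add_sum_erase _ _ (Finset.mem_univ j)]
          have e1 : (eras j v + sing j s) j = s := by simp [eras, sing]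
          rw [e1, if_pos rfl, one_smul, sub_eq_add_neg]
          congr 1
          rw [← hcc, ← Finset.sum_neg_distrib]
          apply Finset.sum_congr rfl
          intro i hi
          have hij : i ≠ j := Finset.ne_of_mem_erase hi
          have e2 : (eras j v + sing j s) i = v i := by simp [eras, sing, hij]
          rw [e2, if_neg hij, neg_smul]
        rw [h3] at h2
        exact h2

end Pool.Agent.R989.GauA
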