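import Mathlib
import Pool.Agent.R989.GauE

set_option linter.style.haveILetI false

open MeasureTheory ProbabilityTheory Module Filter
open scoped ENNReal

namespace Pool.Agent.R989.GauA

variable {K : Type*} [RCLike K] {E : Type*} [NormedAddCommGroup E] [InnerProductSpace K E]
  [FiniteDimensional K E] [MeasurableSpace E] [BorelSpace E]

/-- apply a projection to every component -/
noncomputable def pH {r : ℕ} (W : Submodule K E) (y : HH E r) : HH E r :=
  WithLp.toLp 2 (fun i => W.starProjection (y i))

lemma meas_pH {r : ℕ} (W : Submodule K E) : Measurable (pH (r := r) W) := by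
  apply (WithLp.measurable_toLp 2 _).comp
  have := fun i : Fin r => meas_comp (E := E) i
  fun_prop

/-- keep the coefficients, project the vector -/
noncomputable def pG {r : ℕ} (W : Submodule K E) (h : GG K E r) : GG K E r :=
  WithLp.toLp 2 (h.fst, W.starProjection h.snd)

/-- drop the coefficients, project the vector -/
noncomputable def qG {r : ℕ} (W : Submodule K E) (h : GG K E r) : GG K E r :=
  WithLp.toLp 2 (0, W.starProjection h.snd)

lemma meas_pG {r : ℕ} (W : Submodule K E) : Measurable (pG (r := r) W) := by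
  apply (WithLp.measurable_toLp 2 _).comp
  fun_prop

lemma meas_qG {r : ℕ} (W : Submodule K E) : Measurable (qG (r := r) W) := by
  apply (WithLp.measurable_toLp 2 _).comp
  fun_prop

omit [MeasurableSpace E] [BorelSpace E] in
lemma norm_split (W : Submodule K E) (x : E) :
    ‖W.starProjection x‖ ^ 2 + ‖(Wᗮ).starProjection x‖ ^ 2 = ‖x‖ ^ 2 := by
  exact (W.norm_sq_eq_add_norm_sq_starProjection x).symm

lemma split_H {r : ℕ} (W : Submodule K E) {f : HH E r → ℝ≥0∞} (hf : Measurable f) :
    ∫⁻ z, f z ∂(gau K (HH E r)) =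
      ∫⁻ y, ∫⁻ t, f (pH W y + pH Wᗮ t) ∂(gau K (HH E r)) ∂(gau K (HH E r)) := by
  apply lint_gau2 (pH W) (pH Wᗮ) (meas_pH W) (meas_pH Wᗮ) _ _ _ hf
  · intro u t
    simp only [PiLp.inner_apply, pH, Submodule.inner_starProjection_left_eq_right]
  · intro u t
    simp only [PiLp.inner_apply, pH, Submodule.inner_starProjection_left_eq_right]
  · intro t
    simp only [PiLp.norm_sq_eq_of_L2]
    rw [← Finset.sum_add_distrib]
    exact Finset.sum_congr rfl fun i _ => norm_split W (t i)

lemma split_G {r : ℕ} (W : Submodule K E) {f : GG K E r → ℝ≥0∞} (hf : Measurable f) :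
    ∫⁻ z, f z ∂(gau K (GG K E r)) =
      ∫⁻ y, ∫⁻ t, f (pG W y + qG Wᗮ t) ∂(gau K (GG K E r)) ∂(gau K (GG K E r)) := by
  apply lint_gau2 (pG W) (qG Wᗮ) (meas_pG W) (meas_qG Wᗮ) _ _ _ hf
  · intro u t
    simp only [WithLp.prod_inner_apply, pG]
    rw [Submodule.inner_starProjection_left_eq_right]
    rfl
  · intro u t
    simp only [WithLp.prod_inner_apply, qG]
    rw [Submodule.inner_starProjection_left_eq_right]
    simp
  · intro t
    simp only [WithLp.prod_norm_sq_eq_of_L2]
    change ‖t.fst‖ ^ 2 + ‖W.starProjection t.snd‖ ^ 2 + (‖(0 : EuclideanSpace K (Fin r))‖ ^ 2 +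
      ‖(Wᗮ).starProjection t.snd‖ ^ 2) = _
    rw [← norm_split W t.snd, norm_zero]
    ring

lemma lint_snd {r : ℕ} {f : E → ℝ≥0∞} (hf : Measurable f) :
    ∫⁻ h : GG K E r, f h.snd ∂(gau K (GG K E r)) = ∫⁻ a, f a ∂(gau K E) := by
  rw [lint_gau1 (K := K) (E := E) (E₁ := GG K E r) (A := fun h => h.snd)
    (fun t => WithLp.toLp 2 (0, t)) (by fun_prop) (fun u t => ?_) (fun t => ?_) hf]
  · simp [WithLp.prod_inner_apply]
  · rw [← sq_eq_sq₀ (norm_nonneg _) (norm_nonneg _), WithLp.prod_norm_sq_eq_of_L2]
    simp

/-- the fitted part of the residual -/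
lemma wpart {r : ℕ} (W : Submodule K E) (y : HH E r)
    (hy : LinearIndependent K (fun i => W.starProjection (y i))) (w : GG K E r → Fin r → K) :
    ((finrank ℝ K * (finrank K W - r) : ℕ) : ℝ≥0∞) ≤
    ∫⁻ h, ENNReal.ofReal (‖∑ j, w h j • W.starProjection (y j) + W.starProjection h.snd‖ ^ 2)
      ∂(gau K (GG K E r)) := by
  set T : Submodule K E := Submodule.span K (Set.range (fun i => W.starProjection (y i))) with hT
  have hTW : T ≤ W := by
    rw [hT, Submodule.span_le]
    rintro x ⟨i, rfl⟩
    exact Submodule.starProjection_apply_mem W _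
  have hTrank : finrank K T = r := by
    rw [hT, finrank_span_eq_card hy]
    simp
  set S : Submodule K E := Tᗮ ⊓ W with hS
  have hSrank : finrank K S = finrank K W - r := by
    have := Submodule.finrank_add_inf_finrank_orthogonal hTW
    rw [hTrank] at this
    rw [hS]
    omega
  have h1 := gau_proj_sq (K := K) S
  rw [hSrank, ← lint_snd (r := r) (by fun_prop)] at h1
  rw [← h1]
  apply lintegral_mono
  intro h
  apply ENNReal.ofReal_le_ofReal
  have e1 : S.starProjection (∑ j, w h j • W.starProjection (y j) + W.starProjection h.snd) =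
      S.starProjection h.snd := by
    rw [map_add, map_sum]
    have e2 : ∀ j, S.starProjection (w h j • W.starProjection (y j)) = 0 := by
      intro j
      rw [Submodule.starProjection_apply_eq_zero_iff]
      have h3 : (Tᗮ)ᗮ ≤ Sᗮ := Submodule.orthogonal_le inf_le_left
      apply h3
      rw [Submodule.orthogonal_orthogonal]
      exact Submodule.smul_mem _ _ (Submodule.subset_span ⟨j, rfl⟩)
    have e3 : S.starProjection (h.snd - W.starProjection h.snd) = 0 := by
      rw [Submodule.starProjection_apply_eq_zero_iff]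
      exact Submodule.orthogonal_le inf_le_right (Submodule.sub_starProjection_mem_orthogonal _)
    rw [map_sub, sub_eq_zero] at e3
    simp only [e2, Finset.sum_const_zero, zero_add]
    exact e3.symm
  rw [← e1]
  have := Submodule.norm_starProjection_apply_le S
    (∑ j, w h j • W.starProjection (y j) + W.starProjection h.snd)
  gcongr

/-- the squared residual -/
noncomputable def loss {r : ℕ} (W : Submodule K E) (f : (Fin r → E) × E → Fin r → K) (σ : ℝ)
    (z : HH E r) (h : GG K E r) : ℝ≥0∞ :=
  ENNReal.ofReal (‖∑ j, wv W f σ z h j • z j + h.snd‖ ^ 2)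

lemma meas_loss {r : ℕ} (W : Submodule K E) {f : (Fin r → E) × E → Fin r → K} (hf : Measurable f)
    (σ : ℝ) : Measurable (fun p : HH E r × GG K E r => loss W f σ p.1 p.2) := by
  unfold loss
  have h1 := fun j => meas_wv W hf σ j
  have h2 : ∀ j : Fin r, Measurable (fun p : HH E r × GG K E r => p.1 j) :=
    fun j => (meas_comp (E := E) j).comp measurable_fst
  fun_prop

omit [MeasurableSpace E] [BorelSpace E] in
lemma wv_split {r : ℕ} (W : Submodule K E) (f : (Fin r → E) × E → Fin r → K) (σ : ℝ)
    (y t : HH E r) (a c : GG K E r) (j : Fin r) :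
    wv W f σ (pH W y + pH Wᗮ t) (pG W a + qG Wᗮ c) j = wv W f σ y a j := by
  have e1 : ∀ i, W.starProjection ((pH W y + pH Wᗮ t) i) = W.starProjection (y i) := by
    intro i
    change W.starProjection (W.starProjection (y i) + (Wᗮ).starProjection (t i)) = _
    rw [map_add]
    have h1 : W.starProjection ((Wᗮ).starProjection (t i)) = 0 := by
      rw [Submodule.starProjection_apply_eq_zero_iff]
      exact Submodule.starProjection_apply_mem _ _
    rw [h1, add_zero, Submodule.starProjection_eq_self_iff]
    exact Submodule.starProjection_apply_mem _ _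
  have e2 : W.starProjection ((pG W a + qG Wᗮ c).snd) = W.starProjection a.snd := by
    change W.starProjection (W.starProjection a.snd + (Wᗮ).starProjection c.snd) = _
    rw [map_add]
    have h1 : W.starProjection ((Wᗮ).starProjection c.snd) = 0 := by
      rw [Submodule.starProjection_apply_eq_zero_iff]
      exact Submodule.starProjection_apply_mem _ _
    rw [h1, add_zero, Submodule.starProjection_eq_self_iff]
    exact Submodule.starProjection_apply_mem _ _
  have e3 : ∀ i, (pG W a + qG Wᗮ c).fst i = a.fst i := by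
    intro i
    change a.fst i + 0 = a.fst i
    rw [add_zero]
  unfold wv obs
  simp only [e1, e2, e3]

omit [MeasurableSpace E] [BorelSpace E] in
lemma loss_split {r : ℕ} (W : Submodule K E) (f : (Fin r → E) × E → Fin r → K) (σ : ℝ)
    (y t : HH E r) (a c : GG K E r) :
    loss W f σ (pH W y + pH Wᗮ t) (pG W a + qG Wᗮ c) =
      ENNReal.ofReal (‖∑ j, wv W f σ y a j • W.starProjection (y j) + W.starProjection a.snd‖ ^ 2) +
      ENNReal.ofReal (‖(Wᗮ).starProjection (∑ j, wv W f σ y a j • t j + c.snd)‖ ^ 2) := by
  unfold loss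
  simp only [wv_split]
  rw [← ENNReal.ofReal_add (by positivity) (by positivity)]
  congr 1
  have e1 : ∑ j, wv W f σ y a j • (pH W y + pH Wᗮ t) j + (pG W a + qG Wᗮ c).snd =
      (∑ j, wv W f σ y a j • W.starProjection (y j) + W.starProjection a.snd) +
      (Wᗮ).starProjection (∑ j, wv W f σ y a j • t j + c.snd) := by
    have e2 : ∀ j, (pH W y + pH Wᗮ t) j = W.starProjection (y j) + (Wᗮ).starProjection (t j) := fun j => rfl
    have e3 : (pG W a + qG Wᗮ c).snd = W.starProjection a.snd + (Wᗮ).starProjection c.snd := rfl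
    simp only [e2, e3, smul_add, Finset.sum_add_distrib, map_add, map_sum, map_smul]
    abel
  rw [e1]
  set X : E := ∑ j, wv W f σ y a j • W.starProjection (y j) + W.starProjection a.snd with hX
  set Y : E := (Wᗮ).starProjection (∑ j, wv W f σ y a j • t j + c.snd) with hY
  have hXW : X ∈ W := by
    apply Submodule.add_mem _ _ (Submodule.starProjection_apply_mem W _)
    exact Submodule.sum_mem _ fun j _ => Submodule.smul_mem _ _ (Submodule.starProjection_apply_mem W _)
  have hYW : Y ∈ Wᗮ := Submodule.starProjection_apply_mem _ _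
  have := norm_add_sq_eq_norm_sq_add_norm_sq_of_inner_eq_zero (𝕜 := K) X Y
    (Submodule.inner_right_of_mem_orthogonal hXW hYW)
  rw [sq, sq, sq]
  exact this

end Pool.Agent.R989.GauA
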