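import Mathlib
import Pool.Agent.R989.GauF

set_option linter.style.haveILetI false

open MeasureTheory ProbabilityTheory Module Filter
open scoped ENNReal

namespace Pool.Agent.R989.GauA

variable {K : Type*} [RCLike K] {E : Type*} [NormedAddCommGroup E] [InnerProductSpace K E]
  [FiniteDimensional K E] [MeasurableSpace E] [BorelSpace E]

attribute [local irreducible] loss pH pG qG wv gau

/-- the total risk for a fixed sketching subspace -/
noncomputable def total {r : ℕ} (W : Submodule K E) (f : (Fin r → E) × E → Fin r → K) (σ : ℝ) : ℝ≥0∞ :=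
  ∫⁻ z, ∫⁻ h, loss W f σ z h ∂(gau K (GG K E r)) ∂(gau K (HH E r))

lemma meas_loss_right {r : ℕ} (W : Submodule K E) {f : (Fin r → E) × E → Fin r → K} (hf : Measurable f)
    (σ : ℝ) (z : HH E r) : Measurable (fun h : GG K E r => loss W f σ z h) :=
  (meas_loss W hf σ).comp measurable_prodMk_left

lemma total_eq {r : ℕ} (W : Submodule K E) {f : (Fin r → E) × E → Fin r → K} (hf : Measurable f)
    (σ : ℝ) : total W f σ = ∫⁻ y, ∫⁻ a,
      (ENNReal.ofReal (‖∑ j, wv W f σ y a j • W.starProjection (y j) + W.starProjection a.snd‖ ^ 2) +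
      ENNReal.ofReal (1 + ∑ j, ‖wv W f σ y a j‖ ^ 2) *
        ((finrank ℝ K * finrank K (Wᗮ : Submodule K E) : ℕ) : ℝ≥0∞))
      ∂(gau K (GG K E r)) ∂(gau K (HH E r)) := by
  have hL := meas_loss W hf σ
  unfold total
  rw [split_H W (f := fun z => ∫⁻ h, loss W f σ z h ∂(gau K (GG K E r))) hL.lintegral_prod_right']
  apply lintegral_congr
  intro y
  have e1 : ∀ t : HH E r, ∫⁻ h, loss W f σ (pH W y + pH Wᗮ t) h ∂(gau K (GG K E r)) =
      ∫⁻ a, ∫⁻ c, loss W f σ (pH W y + pH Wᗮ t) (pG W a + qG Wᗮ c) ∂(gau K (GG K E r))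
        ∂(gau K (GG K E r)) := by
    intro t
    exact split_G W (meas_loss_right W hf σ (pH W y + pH Wᗮ t))
  simp_rw [e1]
  rw [lintegral_lintegral_swap]
  · apply lintegral_congr
    intro a
    simp_rw [loss_split]
    have e2 : ∀ t : HH E r, ∫⁻ c, (ENNReal.ofReal (‖∑ j, wv W f σ y a j • W.starProjection (y j) + W.starProjection a.snd‖ ^ 2) +
      ENNReal.ofReal (‖(Wᗮ).starProjection (∑ j, wv W f σ y a j • t j + c.snd)‖ ^ 2)) ∂(gau K (GG K E r)) =
      ENNReal.ofReal (‖∑ j, wv W f σ y a j • W.starProjection (y j) + W.starProjection a.snd‖ ^ 2) +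
      ∫⁻ c, ENNReal.ofReal (‖(Wᗮ).starProjection (∑ j, wv W f σ y a j • t j + c.snd)‖ ^ 2) ∂(gau K (GG K E r)) := by
      intro t
      rw [lintegral_add_left measurable_const]
      simp
    simp_rw [e2]
    rw [lintegral_add_left measurable_const, sum_sq]
    simp
  · apply Measurable.aemeasurable
    have h1 : Measurable (fun q : (HH E r × GG K E r) × GG K E r =>
        loss W f σ (pH W y + pH Wᗮ q.1.1) (pG W q.1.2 + qG Wᗮ q.2)) := by
      have h2 := meas_pH (E := E) (r := r) (Wᗮ)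
      have h3 := meas_pG (E := E) (r := r) W
      have h4 := meas_qG (E := E) (r := r) (Wᗮ)
      have h5 : Measurable (fun q : (HH E r × GG K E r) × GG K E r => pH W y + pH Wᗮ q.1.1) := by
        fun_prop
      have h6 : Measurable (fun q : (HH E r × GG K E r) × GG K E r => pG W q.1.2 + qG Wᗮ q.2) := by
        fun_prop
      exact hL.comp (h5.prodMk h6)
    exact h1.lintegral_prod_right'

lemma total_ge {r : ℕ} (W : Submodule K E) {f : (Fin r → E) × E → Fin r → K} (hf : Measurable f)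
    (hr : r ≤ finrank K W) (σ : ℝ) :
    ((finrank ℝ K * (finrank K W - r) : ℕ) : ℝ≥0∞) +
      ((finrank ℝ K * finrank K (Wᗮ : Submodule K E) : ℕ) : ℝ≥0∞) *
        (1 + ∑ j, ∫⁻ y, risk W f σ y j ∂(gau K (HH E r))) ≤ total W f σ := by
  rw [total_eq W hf σ]
  set κ : ℝ≥0∞ := ((finrank ℝ K * finrank K (Wᗮ : Submodule K E) : ℕ) : ℝ≥0∞) with hκ
  set α : ℝ≥0∞ := ((finrank ℝ K * (finrank K W - r) : ℕ) : ℝ≥0∞) with hα
  have hmw : ∀ (y : HH E r) (j : Fin r), Measurable (fun a : GG K E r => wv W f σ y a j) := by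
    intro y j
    exact (meas_wv W hf σ j).comp measurable_prodMk_left
  have e1 : ∀ y : HH E r, ∫⁻ a, ENNReal.ofReal (1 + ∑ j, ‖wv W f σ y a j‖ ^ 2) ∂(gau K (GG K E r)) =
      1 + ∑ j, risk W f σ y j := by
    intro y
    have e2 : ∀ a : GG K E r, ENNReal.ofReal (1 + ∑ j, ‖wv W f σ y a j‖ ^ 2) =
        1 + ∑ j, ENNReal.ofReal (‖wv W f σ y a j‖ ^ 2) := by
      intro a
      rw [ENNReal.ofReal_add (by norm_num) (Finset.sum_nonneg fun i _ => sq_nonneg _),
        ENNReal.ofReal_sum_of_nonneg fun i _ => sq_nonneg _]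
      simp
    simp_rw [e2]
    have hm2 : ∀ j, Measurable (fun a : GG K E r => ENNReal.ofReal (‖wv W f σ y a j‖ ^ 2)) := by
      intro j
      have := hmw y j
      fun_prop
    rw [lintegral_add_left measurable_const, lintegral_finsetSum _ (fun j _ => hm2 j)]
    simp [risk]
  have hm3 : ∀ y : HH E r, Measurable (fun a : GG K E r =>
      ENNReal.ofReal (‖∑ j, wv W f σ y a j • W.starProjection (y j) + W.starProjection a.snd‖ ^ 2)) := by
    intro y
    have := hmw y
    fun_prop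
  have hm4 : ∀ y : HH E r, Measurable (fun a : GG K E r =>
      ENNReal.ofReal (1 + ∑ j, ‖wv W f σ y a j‖ ^ 2)) := by
    intro y
    have := hmw y
    fun_prop
  have hmr : ∀ j, Measurable (fun y : HH E r => risk W f σ y j) := fun j => meas_risk W hf σ j
  calc α + κ * (1 + ∑ j, ∫⁻ y, risk W f σ y j ∂(gau K (HH E r)))
      = ∫⁻ y, (α + κ * (1 + ∑ j, risk W f σ y j)) ∂(gau K (HH E r)) := by
        rw [lintegral_add_left measurable_const, lintegral_const_mul _ (by fun_prop),
          lintegral_add_left measurable_const, lintegral_finsetSum _ (fun j _ => hmr j)]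
        simp
    _ ≤ _ := by
        apply lintegral_mono_ae
        filter_upwards [ae_indep W hr] with y hy
        rw [lintegral_add_left (hm3 y), lintegral_mul_const _ (hm4 y), e1 y, mul_comm κ]
        gcongr
        exact wpart W y hy (fun a j => wv W f σ y a j)

lemma sum_liminf_le {r : ℕ} (x : Fin r → ℕ → ℝ≥0∞) :
    ∑ j, liminf (x j) atTop ≤ liminf (fun k => ∑ j, x j k) atTop := by
  have h := lintegral_liminf_le (μ := Measure.count) (f := fun k (j : Fin r) => x j k) (u := atTop)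
    (fun k => measurable_of_finite _)
  simpa [lintegral_count, tsum_fintype] using h

/-- asymptotic lower bound of the total risk, for a fixed sketching subspace -/
theorem total_liminf {r : ℕ} (W : Submodule K E) {f : (Fin r → E) × E → Fin r → K} (hf : Measurable f)
    (hr : r ≤ finrank K W) (hm : 2 < finrank ℝ K * (finrank K W - r + 1)) :
    ((finrank ℝ K * (finrank K W - r) : ℕ) : ℝ≥0∞) +
      ((finrank ℝ K * finrank K (Wᗮ : Submodule K E) : ℕ) : ℝ≥0∞) *
        (1 + r * (ENNReal.ofReal (finrank ℝ K : ℝ) *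
      ENNReal.ofReal (1 / (((finrank ℝ K * (finrank K W - r + 1) : ℕ) : ℝ) - 2)))) ≤
    liminf (fun k : ℕ => total W f ((k : ℝ) + 1)) atTop := by
  set κ : ℝ≥0∞ := ((finrank ℝ K * finrank K (Wᗮ : Submodule K E) : ℕ) : ℝ≥0∞) with hκ
  set α : ℝ≥0∞ := ((finrank ℝ K * (finrank K W - r) : ℕ) : ℝ≥0∞) with hα
  set τ : ℝ≥0∞ := ENNReal.ofReal (finrank ℝ K : ℝ) *
      ENNReal.ofReal (1 / (((finrank ℝ K * (finrank K W - r + 1) : ℕ) : ℝ) - 2)) with hτ
  have h1 : ∀ j : Fin r, τ ≤ liminf (fun k : ℕ => ∫⁻ y, risk W f ((k : ℝ) + 1) y j ∂(gau K (HH E r))) atTop := by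
    intro j
    exact (bayes W hf hr hm j).trans (lintegral_liminf_le fun k => meas_risk W hf _ j)
  have h2 : (r : ℝ≥0∞) * τ ≤ liminf (fun k : ℕ => ∑ j, ∫⁻ y, risk W f ((k : ℝ) + 1) y j ∂(gau K (HH E r))) atTop := by
    refine le_trans ?_ (sum_liminf_le _)
    calc (r : ℝ≥0∞) * τ = ∑ _j : Fin r, τ := by simp
      _ ≤ _ := Finset.sum_le_sum fun j _ => h1 j
  have hmono : Monotone (fun s : ℝ≥0∞ => α + κ * (1 + s)) := by
    intro a b hab
    dsimp only
    gcongr
  have hcont : Continuous (fun s : ℝ≥0∞ => α + κ * (1 + s)) := by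
    have hκne : κ ≠ ⊤ := by rw [hκ]; exact ENNReal.natCast_ne_top _
    exact (continuous_const_add α).comp ((ENNReal.continuous_const_mul hκne).comp (continuous_const_add 1))
  have h3 := hmono.map_liminf_of_continuousAt
    (fun k : ℕ => ∑ j, ∫⁻ y, risk W f ((k : ℝ) + 1) y j ∂(gau K (HH E r))) (F := atTop) hcont.continuousAt
  calc α + κ * (1 + r * τ) ≤ α + κ * (1 + liminf (fun k : ℕ => ∑ j, ∫⁻ y, risk W f ((k : ℝ) + 1) y j ∂(gau K (HH E r))) atTop) :=
        hmono h2
    _ = _ := h3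
    _ ≤ _ := liminf_le_liminf (Eventually.of_forall fun k => total_ge W hf hr _)

end Pool.Agent.R989.GauA
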