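import Mathlib

open Matrix
open scoped ComplexOrder

namespace Pool.Agent.R989.Pinv

variable {K : Type*} [RCLike K] {n d : ℕ}

/-- `G` is a Moore-Penrose pseudoinverse of `A`: the four Penrose equations -/
def IsPinv (A : Matrix (Fin n) (Fin d) K) (G : Matrix (Fin d) (Fin n) K) : Prop :=
  A * G * A = A ∧ G * A * G = G ∧ (A * G)ᴴ = A * G ∧ (G * A)ᴴ = G * A

theorem exists_isPinv (A : Matrix (Fin n) (Fin d) K) : ∃ G, IsPinv A G := by
  have hH : (Aᴴ * A).IsHermitian := isHermitian_conjTranspose_mul_self A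
  set H : Matrix (Fin d) (Fin d) K := Aᴴ * A with hHdef
  set U : Matrix (Fin d) (Fin d) K := (hH.eigenvectorUnitary : Matrix (Fin d) (Fin d) K) with hU
  have hUU : star U * U = 1 := Matrix.mem_unitaryGroup_iff'.mp hH.eigenvectorUnitary.2
  set D : Matrix (Fin d) (Fin d) K := diagonal (RCLike.ofReal ∘ hH.eigenvalues) with hD
  have hHU : H = U * D * star U := by
    have := hH.spectral_theorem
    rw [Unitary.conjStarAlgAut_apply] at this
    exact this
  set D' : Matrix (Fin d) (Fin d) K := diagonal (fun i => ((hH.eigenvalues i : ℝ) : K)⁻¹) with hD'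
  set R : Matrix (Fin d) (Fin d) K := U * D' * star U with hR
  have hprod : ∀ X Y : Matrix (Fin d) (Fin d) K,
      (U * X * star U) * (U * Y * star U) = U * (X * Y) * star U := by
    intro X Y
    calc (U * X * star U) * (U * Y * star U) = U * X * (star U * U) * Y * star U := by
          simp only [Matrix.mul_assoc]
      _ = _ := by rw [hUU, Matrix.mul_one]; simp only [Matrix.mul_assoc]
  have hDD : D * D' * D = D := by
    rw [hD, hD', diagonal_mul_diagonal, diagonal_mul_diagonal]
    congr 1
    funext i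
    simp only [Function.comp_apply]
    by_cases h : ((hH.eigenvalues i : ℝ) : K) = 0
    · rw [h]; simp
    · field_simp
  have hDD' : D' * D * D' = D' := by
    rw [hD, hD', diagonal_mul_diagonal, diagonal_mul_diagonal]
    congr 1
    funext i
    simp only [Function.comp_apply]
    by_cases h : ((hH.eigenvalues i : ℝ) : K) = 0
    · rw [h]; simp
    · field_simp
  have hcomm : D * D' = D' * D := by
    rw [hD, hD', diagonal_mul_diagonal, diagonal_mul_diagonal]
    congr 1
    funext i
    rw [mul_comm]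
  have hRH : Rᴴ = R := by
    rw [hR, star_eq_conjTranspose, conjTranspose_mul, conjTranspose_mul, conjTranspose_conjTranspose,
      hD', diagonal_conjTranspose, ← Matrix.mul_assoc]
    congr 3
    funext i
    simp [RCLike.conj_ofReal]
  have h1 : H * R * H = H := by
    rw [hR]
    nth_rewrite 1 [hHU]
    rw [hprod]
    nth_rewrite 1 [hHU]
    rw [hprod, hDD, ← hHU]
  have h2 : R * H * R = R := by
    rw [hR]
    nth_rewrite 1 [hHU]
    rw [hprod, hprod, hDD']
  have h3 : H * R = R * H := by
    rw [hR]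
    nth_rewrite 1 [hHU]
    nth_rewrite 1 [hHU]
    rw [hprod, hprod, hcomm]
  have h4 : A * (R * H) = A := by
    have h5 : Aᴴ * A * (R * H - 1) = 0 := by
      rw [← hHdef, Matrix.mul_sub, Matrix.mul_one, ← Matrix.mul_assoc, h1, sub_self]
    rw [conjTranspose_mul_self_mul_eq_zero, Matrix.mul_sub, Matrix.mul_one, sub_eq_zero] at h5
    exact h5
  refine ⟨R * Aᴴ, ?_, ?_, ?_, ?_⟩
  · rw [Matrix.mul_assoc, Matrix.mul_assoc, ← hHdef, h4]
  · calc R * Aᴴ * A * (R * Aᴴ) = R * (Aᴴ * A) * R * Aᴴ := by simp only [Matrix.mul_assoc]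
      _ = _ := by rw [← hHdef, h2]
  · rw [conjTranspose_mul, conjTranspose_mul, conjTranspose_conjTranspose, hRH, Matrix.mul_assoc]
  · rw [Matrix.mul_assoc, ← hHdef, conjTranspose_mul, hRH, hH.eq, h3]

/-- the Moore-Penrose pseudoinverse -/
noncomputable def pinv (A : Matrix (Fin n) (Fin d) K) : Matrix (Fin d) (Fin n) K :=
  Classical.choose (exists_isPinv A)

theorem pinv_spec (A : Matrix (Fin n) (Fin d) K) : IsPinv A (pinv A) :=
  Classical.choose_spec (exists_isPinv A)

end Pool.Agent.R989.Pinv
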