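import Mathlib
import Pool.Agent.R989.GauG
import Pool.Agent.R989.Pinv

set_option linter.style.haveILetI false

open MeasureTheory ProbabilityTheory Module Filter Matrix
open scoped ENNReal

namespace Pool.Agent.R989.GauH

open Pool.Agent.R989.GauA Pool.Agent.R989.Pinv

variable {K : Type*} [RCLike K] {n l d p r : ℕ}

/-- squared Frobenius norm -/
noncomputable def frobSq {m n : ℕ} (M : Matrix (Fin m) (Fin n) K) : ℝ := ∑ i, ∑ j, ‖M i j‖ ^ 2

/-- matrices carry the product σ-algebra -/
instance matMeas {m n : ℕ} : MeasurableSpace (Matrix (Fin m) (Fin n) K) :=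
  inferInstanceAs (MeasurableSpace (Fin m → Fin n → K))

lemma frobSq_nonneg {m n : ℕ} (M : Matrix (Fin m) (Fin n) K) : 0 ≤ frobSq M :=
  Finset.sum_nonneg fun _ _ => Finset.sum_nonneg fun _ _ => sq_nonneg _

/-- the matrix with columns `w` (completed by zero columns) -/
noncomputable def zMat (d : ℕ) (w : Fin r → EuclideanSpace K (Fin n)) : Matrix (Fin n) (Fin d) K :=
  Matrix.of fun i j => if h : (j : ℕ) < r then w ⟨j, h⟩ i else 0

/-- the matrix with first column `b` (completed by zero columns) -/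
noncomputable def bMat (p : ℕ) (b : EuclideanSpace K (Fin n)) : Matrix (Fin n) (Fin p) K :=
  Matrix.of fun i j => if (j : ℕ) = 0 then b i else 0

/-- span of the columns -/
noncomputable def colSpan (Ω : Matrix (Fin n) (Fin l) K) : Submodule K (EuclideanSpace K (Fin n)) :=
  Submodule.span K (Set.range fun a : Fin l => (WithLp.toLp 2 (fun i => Ω i a) : EuclideanSpace K (Fin n)))

lemma finrank_colSpan (Ω : Matrix (Fin n) (Fin l) K) : finrank K (colSpan Ω) = Ω.rank := by
  rw [Matrix.rank_eq_finrank_span_cols]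
  have h : colSpan Ω = (Submodule.span K (Set.range Ω.col)).map
      ((WithLp.linearEquiv 2 K (Fin n → K)).symm : (Fin n → K) →ₗ[K] EuclideanSpace K (Fin n)) := by
    rw [Submodule.map_span, colSpan, ← Set.range_comp]
    rfl
  rw [h]
  exact LinearEquiv.finrank_map_eq _ _

lemma sum_castLE {M : Type*} [AddCommMonoid M] (hrd : r ≤ d) (F : Fin d → M)
    (h0 : ∀ j : Fin d, ¬ (j : ℕ) < r → F j = 0) : ∑ j, F j = ∑ a : Fin r, F (Fin.castLE hrd a) := by
  obtain ⟨d', rfl⟩ := Nat.exists_eq_add_of_le hrd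
  rw [Fin.sum_univ_add]
  have : ∑ i : Fin d', F (Fin.natAdd r i) = 0 := Finset.sum_eq_zero (fun i _ => h0 _ (by simp))
  rw [this, add_zero]
  rfl

lemma inner_col (Ω : Matrix (Fin n) (Fin l) K) (a : Fin l) (x : EuclideanSpace K (Fin n)) :
    inner K (WithLp.toLp 2 (fun i => Ω i a) : EuclideanSpace K (Fin n)) x = ∑ i, star (Ω i a) * x i := by
  rw [PiLp.inner_apply]
  apply Finset.sum_congr rfl
  intro i _
  simp [mul_comm]

lemma inner_col_proj (Ω : Matrix (Fin n) (Fin l) K) (a : Fin l) (x : EuclideanSpace K (Fin n)) :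
    ∑ i, star (Ω i a) * ((colSpan Ω).starProjection x) i = ∑ i, star (Ω i a) * x i := by
  rw [← inner_col, ← inner_col, ← Submodule.inner_starProjection_left_eq_right]
  congr 1
  rw [Submodule.starProjection_eq_self_iff]
  exact Submodule.subset_span ⟨a, rfl⟩

lemma mul_zMat_proj (Ω : Matrix (Fin n) (Fin l) K) (w : Fin r → EuclideanSpace K (Fin n)) :
    Ωᴴ * zMat d (fun i => (colSpan Ω).starProjection (w i)) = Ωᴴ * zMat d w := by
  ext a j
  rw [Matrix.mul_apply, Matrix.mul_apply]
  simp only [zMat, Matrix.of_apply, Matrix.conjTranspose_apply]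
  by_cases h : (j : ℕ) < r
  · simp only [dif_pos h]
    exact inner_col_proj Ω a (w ⟨j, h⟩)
  · simp [dif_neg h]

lemma mul_bMat_proj (Ω : Matrix (Fin n) (Fin l) K) (b : EuclideanSpace K (Fin n)) :
    Ωᴴ * bMat p ((colSpan Ω).starProjection b) = Ωᴴ * bMat p b := by
  ext a j
  rw [Matrix.mul_apply, Matrix.mul_apply]
  simp only [bMat, Matrix.of_apply, Matrix.conjTranspose_apply]
  by_cases h : (j : ℕ) = 0
  · simp only [if_pos h]
    exact inner_col_proj Ω a b
  · simp [if_neg h]

lemma frob_ge (hrd : r ≤ d) (hp : 0 < p) (w : Fin r → EuclideanSpace K (Fin n))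
    (b : EuclideanSpace K (Fin n)) (X : Matrix (Fin d) (Fin p) K) :
    ‖b - ∑ a, X (Fin.castLE hrd a) ⟨0, hp⟩ • w a‖ ^ 2 ≤ frobSq (bMat p b - zMat d w * X) := by
  rw [EuclideanSpace.norm_sq_eq, frobSq]
  apply Finset.sum_le_sum
  intro i _
  refine le_trans (le_of_eq ?_) (Finset.single_le_sum (f := fun j => ‖(bMat p b - zMat d w * X) i j‖ ^ 2)
    (fun j _ => sq_nonneg _) (Finset.mem_univ (⟨0, hp⟩ : Fin p)))
  simp only [Matrix.sub_apply, Matrix.mul_apply]
  congr 2
  rw [sum_castLE hrd]
  · simp only [PiLp.sub_apply, bMat, zMat, Matrix.of_apply, if_true]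
    congr 1
    simp only [WithLp.ofLp_sum, WithLp.ofLp_smul, Finset.sum_apply, Pi.smul_apply, smul_eq_mul]
    apply Finset.sum_congr rfl
    intro a _
    rw [dif_pos (by simp)]
    rw [mul_comm]
    rfl
  · intro j hj
    simp [zMat, dif_neg hj]

lemma colSpan_zMat (hrd : r ≤ d) (w : Fin r → EuclideanSpace K (Fin n)) :
    colSpan (zMat d w) = Submodule.span K (Set.range w) := by
  apply le_antisymm
  · rw [colSpan, Submodule.span_le]
    rintro x ⟨j, rfl⟩
    by_cases h : (j : ℕ) < r
    · apply Submodule.subset_span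
      refine ⟨⟨j, h⟩, ?_⟩
      ext i
      simp [zMat, dif_pos h]
    · have : (WithLp.toLp 2 (fun i => zMat d w i j) : EuclideanSpace K (Fin n)) = 0 := by
        ext i
        simp [zMat, dif_neg h]
      simp only [this]
      exact Submodule.zero_mem _
  · rw [Submodule.span_le]
    rintro x ⟨a, rfl⟩
    apply Submodule.subset_span
    refine ⟨Fin.castLE hrd a, ?_⟩
    ext i
    simp [zMat]

lemma rank_zMat (hrd : r ≤ d) {w : Fin r → EuclideanSpace K (Fin n)} (hw : LinearIndependent K w) :
    (zMat d w).rank = r := by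
  rw [← finrank_colSpan, colSpan_zMat hrd, finrank_span_eq_card hw]
  simp

/-- `A A⁺` is the orthogonal projection on the column span of `A` -/
lemma proj_pinv (A : Matrix (Fin n) (Fin d) K) (b : EuclideanSpace K (Fin n)) :
    (colSpan A).starProjection b = Matrix.toEuclideanLin (A * pinv A) b := by
  have hP := pinv_spec A
  apply Submodule.eq_starProjection_of_mem_orthogonal
  · rw [Matrix.toEuclideanLin_apply, ← Matrix.mulVec_mulVec]
    set x := pinv A *ᵥ b.ofLp with hx
    have : (WithLp.toLp 2 (A *ᵥ x) : EuclideanSpace K (Fin n)) =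
        ∑ j, x j • (WithLp.toLp 2 (fun i => A i j) : EuclideanSpace K (Fin n)) := by
      ext i
      simp [Matrix.mulVec, dotProduct, mul_comm]
    rw [this]
    exact Submodule.sum_mem _ fun j _ => Submodule.smul_mem _ _ (Submodule.subset_span ⟨j, rfl⟩)
  · rw [colSpan, Submodule.mem_orthogonal]
    intro u hu
    have hsym : (Matrix.toEuclideanLin (A * pinv A)).IsSymmetric :=
      Matrix.isHermitian_iff_isSymmetric.mp hP.2.2.1
    rw [inner_sub_right, sub_eq_zero, ← hsym]
    congr 1
    induction hu using Submodule.span_induction with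
    | mem u hu =>
        obtain ⟨j, rfl⟩ := hu
        rw [Matrix.toEuclideanLin_apply]
        ext i
        have h1 := congrFun (congrFun hP.1 i) j
        rw [Matrix.mul_apply] at h1
        simp only [Matrix.mulVec, dotProduct]
        exact h1.symm
    | zero => simp
    | add x y _ _ hx hy => rw [map_add, ← hx, ← hy]
    | smul c x _ hx => rw [map_smul, ← hx]

lemma resid (hp : 0 < p) (A : Matrix (Fin n) (Fin d) K) (b : EuclideanSpace K (Fin n)) :
    frobSq (bMat p b - A * pinv A * bMat p b) = ‖(colSpan A)ᗮ.starProjection b‖ ^ 2 := by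
  have h1 : (colSpan A)ᗮ.starProjection b = b - Matrix.toEuclideanLin (A * pinv A) b := by
    rw [← proj_pinv, Submodule.starProjection_orthogonal']
    rfl
  rw [h1, EuclideanSpace.norm_sq_eq, frobSq]
  apply Finset.sum_congr rfl
  intro i _
  rw [Finset.sum_eq_single (⟨0, hp⟩ : Fin p)]
  · congr 2
  · intro j _ hj
    have hj0 : ¬ (j : ℕ) = 0 := fun h => hj (Fin.ext h)
    simp [Matrix.mul_apply, bMat, hj0]
  · intro h
    exact absurd (Finset.mem_univ _) h

end Pool.Agent.R989.GauH
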