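import Mathlib
import Pool.Agent.R989.GauH

set_option linter.style.haveILetI false

open MeasureTheory ProbabilityTheory Module Filter Matrix
open scoped ENNReal

namespace Pool.Agent.R989.GauH

open Pool.Agent.R989.GauA Pool.Agent.R989.Pinv

variable {K : Type*} [RCLike K] {n l d p r : ℕ}

lemma meas_entry {m n : ℕ} (i : Fin m) (j : Fin n) :
    Measurable (fun M : Matrix (Fin m) (Fin n) K => M i j) :=
  (measurable_pi_apply j).comp (measurable_pi_apply (X := fun _ : Fin m => Fin n → K) i)

lemma meas_mk {X : Type*} [MeasurableSpace X] {m n : ℕ} {F : X → Matrix (Fin m) (Fin n) K}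
    (h : ∀ i j, Measurable (fun x => F x i j)) : Measurable F :=
  measurable_pi_lambda (X := fun _ : Fin m => Fin n → K) F
    (fun i => measurable_pi_lambda _ (fun j => h i j))

lemma meas_coord (i : Fin n) : Measurable (fun x : EuclideanSpace K (Fin n) => x i) :=
  (measurable_pi_apply i).comp (WithLp.measurable_ofLp 2 _)

lemma meas_mulz : Measurable (fun q : Matrix (Fin n) (Fin l) K × (Fin r → EuclideanSpace K (Fin n)) =>
    (q.1ᴴ * zMat d q.2 : Matrix (Fin l) (Fin d) K)) := by
  apply meas_mk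
  intro a j
  simp only [Matrix.mul_apply, zMat, Matrix.of_apply, Matrix.conjTranspose_apply]
  apply Finset.measurable_sum
  intro i _
  have h1 : Measurable (fun q : Matrix (Fin n) (Fin l) K × (Fin r → EuclideanSpace K (Fin n)) => q.1 i a) :=
    (meas_entry i a).comp measurable_fst
  by_cases h : (j : ℕ) < r
  · simp only [dif_pos h]
    have h2 : Measurable (fun q : Matrix (Fin n) (Fin l) K × (Fin r → EuclideanSpace K (Fin n)) => q.2 ⟨j, h⟩ i) :=
      (meas_coord i).comp ((measurable_pi_apply _).comp measurable_snd)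
    exact (RCLike.continuous_conj.measurable.comp h1).mul h2
  · simp only [dif_neg h, mul_zero]
    exact measurable_const

lemma meas_mulb : Measurable (fun q : Matrix (Fin n) (Fin l) K × EuclideanSpace K (Fin n) =>
    (q.1ᴴ * bMat p q.2 : Matrix (Fin l) (Fin p) K)) := by
  apply meas_mk
  intro a j
  simp only [Matrix.mul_apply, bMat, Matrix.of_apply, Matrix.conjTranspose_apply]
  apply Finset.measurable_sum
  intro i _
  have h1 : Measurable (fun q : Matrix (Fin n) (Fin l) K × EuclideanSpace K (Fin n) => q.1 i a) :=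
    (meas_entry i a).comp measurable_fst
  by_cases h : (j : ℕ) = 0
  · simp only [if_pos h]
    have h2 : Measurable (fun q : Matrix (Fin n) (Fin l) K × EuclideanSpace K (Fin n) => q.2 i) :=
      (meas_coord i).comp measurable_snd
    exact (RCLike.continuous_conj.measurable.comp h1).mul h2
  · simp only [if_neg h, mul_zero]
    exact measurable_const

/-- first `r` entries of the first column of the output -/
noncomputable def xhat (hrd : r ≤ d) (hp : 0 < p)
    (ALG : Matrix (Fin n) (Fin l) K → Matrix (Fin l) (Fin d) K → Matrix (Fin l) (Fin p) K →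
      Matrix (Fin d) (Fin p) K)
    (Ω : Matrix (Fin n) (Fin l) K) (q : (Fin r → EuclideanSpace K (Fin n)) × EuclideanSpace K (Fin n)) :
    Fin r → K :=
  fun a => ALG Ω (Ωᴴ * zMat d q.1) (Ωᴴ * bMat p q.2) (Fin.castLE hrd a) ⟨0, hp⟩

section

variable (hrd : r ≤ d) (hp : 0 < p)
    {ALG : Matrix (Fin n) (Fin l) K → Matrix (Fin l) (Fin d) K → Matrix (Fin l) (Fin p) K →
      Matrix (Fin d) (Fin p) K}
    (hALG : Measurable fun q : Matrix (Fin n) (Fin l) K × Matrix (Fin l) (Fin d) K × Matrix (Fin l) (Fin p) K =>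
      ALG q.1 q.2.1 q.2.2)

include hALG in
lemma meas_xhat (a : Fin r) : Measurable (fun q : Matrix (Fin n) (Fin l) K ×
    ((Fin r → EuclideanSpace K (Fin n)) × EuclideanSpace K (Fin n)) => xhat hrd hp ALG q.1 q.2 a) := by
  unfold xhat
  have h1 : Measurable (fun q : Matrix (Fin n) (Fin l) K ×
    ((Fin r → EuclideanSpace K (Fin n)) × EuclideanSpace K (Fin n)) =>
      (q.1ᴴ * zMat d q.2.1 : Matrix (Fin l) (Fin d) K)) :=
    meas_mulz.comp (measurable_fst.prodMk (measurable_fst.comp measurable_snd))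
  have h2 : Measurable (fun q : Matrix (Fin n) (Fin l) K ×
    ((Fin r → EuclideanSpace K (Fin n)) × EuclideanSpace K (Fin n)) =>
      (q.1ᴴ * bMat p q.2.2 : Matrix (Fin l) (Fin p) K)) :=
    meas_mulb.comp (measurable_fst.prodMk (measurable_snd.comp measurable_snd))
  have h3 := hALG.comp (measurable_fst.prodMk (h1.prodMk h2))
  exact (meas_entry (Fin.castLE hrd a) ⟨0, hp⟩).comp h3

/-- the right-hand side vector of the prior -/
noncomputable def bb (σ : ℝ) (z : HH (EuclideanSpace K (Fin n)) r) (h : GG K (EuclideanSpace K (Fin n)) r) :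
    EuclideanSpace K (Fin n) := ∑ i, (((σ : ℝ) : K) * h.fst i) • z i + h.snd

/-- squared residual norm of the estimate -/
noncomputable def gLoss (ALG : Matrix (Fin n) (Fin l) K → Matrix (Fin l) (Fin d) K → Matrix (Fin l) (Fin p) K →
      Matrix (Fin d) (Fin p) K) (σ : ℝ) (Ω : Matrix (Fin n) (Fin l) K)
    (z : HH (EuclideanSpace K (Fin n)) r) (h : GG K (EuclideanSpace K (Fin n)) r) : ℝ≥0∞ :=
  ENNReal.ofReal (‖bb σ z h - ∑ a, xhat hrd hp ALG Ω (z.ofLp, bb σ z h) a • z a‖ ^ 2)

lemma meas_bb (σ : ℝ) : Measurable (fun q : HH (EuclideanSpace K (Fin n)) r ×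
    GG K (EuclideanSpace K (Fin n)) r => bb σ q.1 q.2) := by
  unfold bb
  have h1 : ∀ i : Fin r, Measurable (fun q : HH (EuclideanSpace K (Fin n)) r ×
    GG K (EuclideanSpace K (Fin n)) r => q.1 i) := fun i => (meas_comp i).comp measurable_fst
  fun_prop

include hALG in
lemma meas_gLoss (σ : ℝ) : Measurable (fun q : Matrix (Fin n) (Fin l) K × (HH (EuclideanSpace K (Fin n)) r ×
    GG K (EuclideanSpace K (Fin n)) r) => gLoss hrd hp ALG σ q.1 q.2.1 q.2.2) := by
  unfold gLoss
  have h1 : Measurable (fun q : Matrix (Fin n) (Fin l) K × (HH (EuclideanSpace K (Fin n)) r ×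
    GG K (EuclideanSpace K (Fin n)) r) => bb σ q.2.1 q.2.2) := (meas_bb σ).comp measurable_snd
  have h2 : Measurable (fun q : Matrix (Fin n) (Fin l) K × (HH (EuclideanSpace K (Fin n)) r ×
    GG K (EuclideanSpace K (Fin n)) r) => (q.2.1.ofLp : Fin r → EuclideanSpace K (Fin n))) :=
    (WithLp.measurable_ofLp 2 _).comp (measurable_fst.comp measurable_snd)
  have h3 : ∀ a : Fin r, Measurable (fun q : Matrix (Fin n) (Fin l) K × (HH (EuclideanSpace K (Fin n)) r ×
    GG K (EuclideanSpace K (Fin n)) r) => xhat hrd hp ALG q.1 (q.2.1.ofLp, bb σ q.2.1 q.2.2) a) :=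
    fun a => (meas_xhat hrd hp hALG a).comp (measurable_fst.prodMk (h2.prodMk h1))
  have h4 : ∀ a : Fin r, Measurable (fun q : Matrix (Fin n) (Fin l) K × (HH (EuclideanSpace K (Fin n)) r ×
    GG K (EuclideanSpace K (Fin n)) r) => q.2.1 a) :=
    fun a => (meas_comp a).comp (measurable_fst.comp measurable_snd)
  have h5 : Measurable (fun q : Matrix (Fin n) (Fin l) K × (HH (EuclideanSpace K (Fin n)) r ×
    GG K (EuclideanSpace K (Fin n)) r) => bb σ q.2.1 q.2.2 -
      ∑ a, xhat hrd hp ALG q.1 (q.2.1.ofLp, bb σ q.2.1 q.2.2) a • q.2.1 a) := by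
    apply h1.sub
    apply Finset.measurable_sum
    intro a _
    exact (h3 a).smul (h4 a)
  exact ENNReal.measurable_ofReal.comp ((h5.norm).pow_const 2)

lemma gLoss_eq (σ : ℝ) (Ω : Matrix (Fin n) (Fin l) K)
    (z : HH (EuclideanSpace K (Fin n)) r) (h : GG K (EuclideanSpace K (Fin n)) r) :
    gLoss hrd hp ALG σ Ω z h = loss (colSpan Ω) (xhat hrd hp ALG Ω) σ z h := by
  unfold gLoss loss
  have e1 : obs (colSpan Ω) (fun i => (colSpan Ω).starProjection (z i)) σ h =
      (colSpan Ω).starProjection (bb σ z h) := by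
    unfold obs bb
    rw [map_add, map_sum]
    simp only [map_smul]
  have e2 : ∀ j, wv (colSpan Ω) (xhat hrd hp ALG Ω) σ z h j =
      ((σ : ℝ) : K) * h.fst j - xhat hrd hp ALG Ω (z.ofLp, bb σ z h) j := by
    intro j
    unfold wv
    rw [e1]
    congr 1
    unfold xhat
    simp only [mul_zMat_proj, mul_bMat_proj]
  simp only [e2, sub_smul, Finset.sum_sub_distrib]
  congr 3
  unfold bb
  abel

end

end Pool.Agent.R989.GauH
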