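import Mathlib
import Pool.Agent.R989.GauI

set_option linter.style.haveILetI false

open MeasureTheory ProbabilityTheory Module Filter Matrix
open scoped ENNReal

namespace Pool.Agent.R989.GauH

open Pool.Agent.R989.GauA Pool.Agent.R989.Pinv

variable {K : Type*} [RCLike K] {n l d p r : ℕ}

attribute [local irreducible] gLoss loss gau bb xhat wv

/-- the average over the prior, for fixed realisation of the embedding and fixed pair `(z,h)` -/
lemma upper (hrd : r ≤ d) (hp : 0 < p) (hrn : r < n)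
    (μ : Measure (Matrix (Fin n) (Fin l) K)) [IsProbabilityMeasure μ]
    (ALG : Matrix (Fin n) (Fin l) K → Matrix (Fin l) (Fin d) K → Matrix (Fin l) (Fin p) K →
      Matrix (Fin d) (Fin p) K)
    (s : ℝ≥0∞)
    (hs : ∀ (A : Matrix (Fin n) (Fin d) K) (B : Matrix (Fin n) (Fin p) K), A.rank = r →
      B ≠ A * pinv A * B →
      ∫⁻ Ω, ENNReal.ofReal (frobSq (B - A * ALG Ω (Ωᴴ * A) (Ωᴴ * B))) ∂μ ≤
        s * ENNReal.ofReal (frobSq (B - A * pinv A * B))) (σ : ℝ) :
    ∫⁻ z, ∫⁻ h, ∫⁻ Ω, gLoss hrd hp ALG σ Ω z h ∂μ ∂(gau K (GG K (EuclideanSpace K (Fin n)) r))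
      ∂(gau K (HH (EuclideanSpace K (Fin n)) r)) ≤ s * ((finrank ℝ K * (n - r) : ℕ) : ℝ≥0∞) := by
  have hconst : s * ((finrank ℝ K * (n - r) : ℕ) : ℝ≥0∞) =
      ∫⁻ _z : HH (EuclideanSpace K (Fin n)) r, s * ((finrank ℝ K * (n - r) : ℕ) : ℝ≥0∞)
        ∂(gau K (HH (EuclideanSpace K (Fin n)) r)) := by simp
  rw [hconst]
  apply lintegral_mono_ae
  have hr' : r ≤ finrank K (⊤ : Submodule K (EuclideanSpace K (Fin n))) := by
    rw [finrank_top]; simp; omega
  filter_upwards [ae_indep (K := K) (E := EuclideanSpace K (Fin n)) ⊤ hr'] with z hz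
  have hz' : LinearIndependent K z.ofLp := by
    have : (fun i => (⊤ : Submodule K (EuclideanSpace K (Fin n))).starProjection (z i)) = z.ofLp := by
      funext i
      exact Submodule.starProjection_eq_self_iff.mpr Submodule.mem_top
    rw [this] at hz
    exact hz
  have hrank := rank_zMat hrd hz'
  set T : Submodule K (EuclideanSpace K (Fin n)) := colSpan (zMat d z.ofLp) with hT
  have hTr : finrank K T = r := by rw [hT, finrank_colSpan, hrank]
  have hTo : finrank K (Tᗮ : Submodule K (EuclideanSpace K (Fin n))) = n - r := by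
    have := Submodule.finrank_add_finrank_orthogonal T
    rw [hTr] at this
    simp at this
    omega
  have hTne : T ≠ ⊤ := by
    intro h
    rw [h, finrank_top] at hTr
    simp at hTr
    omega
  have h1 := gau_proj_sq (K := K) (Tᗮ)
  rw [hTo, ← lint_snd (r := r) (by fun_prop)] at h1
  rw [← h1]
  have hmm : Measurable (fun h : GG K (EuclideanSpace K (Fin n)) r =>
      ENNReal.ofReal (‖(Tᗮ).starProjection h.snd‖ ^ 2)) := by fun_prop
  rw [← lintegral_const_mul _ hmm]
  apply lintegral_mono_ae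
  -- almost surely the right-hand side is not in the range
  have hae : ∀ᵐ h ∂(gau K (GG K (EuclideanSpace K (Fin n)) r)), h.snd ∉ T := by
    have hcl : IsClosed (T : Set (EuclideanSpace K (Fin n))) := T.closed_of_finiteDimensional
    have h2 : ∫⁻ h : GG K (EuclideanSpace K (Fin n)) r, (T : Set (EuclideanSpace K (Fin n))).indicator 1 h.snd
        ∂(gau K (GG K (EuclideanSpace K (Fin n)) r)) = 0 := by
      rw [lint_snd (f := (T : Set (EuclideanSpace K (Fin n))).indicator 1)
        (measurable_one.indicator hcl.measurableSet), lintegral_indicator_one hcl.measurableSet]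
      exact gau_null hTne
    rw [lintegral_eq_zero_iff] at h2
    · filter_upwards [h2] with h hh
      intro hmem
      rw [Set.indicator_of_mem (show h.snd ∈ (T : Set (EuclideanSpace K (Fin n))) from hmem)] at hh
      simp at hh
    · exact (measurable_one.indicator hcl.measurableSet).comp (by fun_prop)
  filter_upwards [hae] with h hh
  have e1 : (Tᗮ).starProjection (bb σ z h) = (Tᗮ).starProjection h.snd := by
    unfold bb
    rw [map_add, map_sum]
    have : ∀ i, (Tᗮ).starProjection ((((σ : ℝ) : K) * h.fst i) • z i) = 0 := by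
      intro i
      rw [Submodule.starProjection_apply_eq_zero_iff, Submodule.orthogonal_orthogonal]
      apply Submodule.smul_mem
      rw [hT, colSpan_zMat hrd]
      exact Submodule.subset_span ⟨i, rfl⟩
    simp only [this, Finset.sum_const_zero, zero_add]
  have e2 := resid hp (zMat d z.ofLp) (bb σ z h)
  rw [← hT, e1] at e2
  have hne : bMat p (bb σ z h) ≠ zMat d z.ofLp * pinv (zMat d z.ofLp) * bMat p (bb σ z h) := by
    intro heq
    rw [← heq, sub_self] at e2
    have h3 : (Tᗮ).starProjection h.snd = 0 := by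
      have h4 : frobSq (0 : Matrix (Fin n) (Fin p) K) = 0 := by simp [frobSq]
      rw [h4] at e2
      have := pow_eq_zero_iff (two_ne_zero) |>.mp e2.symm
      exact norm_eq_zero.mp this
    rw [Submodule.starProjection_apply_eq_zero_iff, Submodule.orthogonal_orthogonal] at h3
    exact hh h3
  have h5 := hs _ _ hrank hne
  rw [e2] at h5
  refine le_trans ?_ h5
  apply lintegral_mono
  intro Ω
  unfold gLoss
  apply ENNReal.ofReal_le_ofReal
  have h6 := frob_ge hrd hp z.ofLp (bb σ z h) (ALG Ω (Ωᴴ * zMat d z.ofLp) (Ωᴴ * bMat p (bb σ z h)))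
  refine le_trans (le_of_eq ?_) h6
  unfold xhat
  rfl

theorem main_ineq (hrd : r ≤ d) (hp : 0 < p) (hln : l ≤ n) (hrl : r < l)
    (hm : 2 < finrank ℝ K * (l - r + 1))
    (μ : Measure (Matrix (Fin n) (Fin l) K)) [IsProbabilityMeasure μ] (hμ : ∀ᵐ Ω ∂μ, Ω.rank = l)
    (ALG : Matrix (Fin n) (Fin l) K → Matrix (Fin l) (Fin d) K → Matrix (Fin l) (Fin p) K →
      Matrix (Fin d) (Fin p) K)
    (hALG : Measurable fun q : Matrix (Fin n) (Fin l) K × Matrix (Fin l) (Fin d) K × Matrix (Fin l) (Fin p) K =>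
      ALG q.1 q.2.1 q.2.2)
    (s : ℝ≥0∞)
    (hs : ∀ (A : Matrix (Fin n) (Fin d) K) (B : Matrix (Fin n) (Fin p) K), A.rank = r →
      B ≠ A * pinv A * B →
      ∫⁻ Ω, ENNReal.ofReal (frobSq (B - A * ALG Ω (Ωᴴ * A) (Ωᴴ * B))) ∂μ ≤
        s * ENNReal.ofReal (frobSq (B - A * pinv A * B))) :
    ((finrank ℝ K * (l - r) : ℕ) : ℝ≥0∞) + ((finrank ℝ K * (n - l) : ℕ) : ℝ≥0∞) *
        (1 + r * (ENNReal.ofReal (finrank ℝ K : ℝ) *
      ENNReal.ofReal (1 / (((finrank ℝ K * (l - r + 1) : ℕ) : ℝ) - 2)))) ≤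
      s * ((finrank ℝ K * (n - r) : ℕ) : ℝ≥0∞) := by
  set κ : ℝ≥0∞ := ((finrank ℝ K * (l - r) : ℕ) : ℝ≥0∞) + ((finrank ℝ K * (n - l) : ℕ) : ℝ≥0∞) *
        (1 + r * (ENNReal.ofReal (finrank ℝ K : ℝ) *
      ENNReal.ofReal (1 / (((finrank ℝ K * (l - r + 1) : ℕ) : ℝ) - 2)))) with hκ
  set π := (gau K (HH (EuclideanSpace K (Fin n)) r)).prod (gau K (GG K (EuclideanSpace K (Fin n)) r)) with hπ
  have hG := fun k : ℕ => meas_gLoss hrd hp hALG ((k : ℝ) + 1)
  have hL : ∀ k : ℕ, Measurable (fun Ω => ∫⁻ q, gLoss hrd hp ALG ((k : ℝ) + 1) Ω q.1 q.2 ∂π) :=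
    fun k => (hG k).lintegral_prod_right'
  have hL2 : ∀ (k : ℕ) (Ω : Matrix (Fin n) (Fin l) K), ∫⁻ q, gLoss hrd hp ALG ((k : ℝ) + 1) Ω q.1 q.2 ∂π =
      total (colSpan Ω) (xhat hrd hp ALG Ω) ((k : ℝ) + 1) := by
    intro k Ω
    have hm2 : Measurable (fun q : HH (EuclideanSpace K (Fin n)) r × GG K (EuclideanSpace K (Fin n)) r =>
        gLoss hrd hp ALG ((k : ℝ) + 1) Ω q.1 q.2) := (hG k).comp measurable_prodMk_left
    rw [hπ, lintegral_prod _ hm2.aemeasurable]
    unfold total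
    simp only [gLoss_eq]
  have hupper : ∀ k : ℕ, ∫⁻ Ω, ∫⁻ q, gLoss hrd hp ALG ((k : ℝ) + 1) Ω q.1 q.2 ∂π ∂μ ≤
      s * ((finrank ℝ K * (n - r) : ℕ) : ℝ≥0∞) := by
    intro k
    rw [lintegral_lintegral_swap (hG k).aemeasurable]
    have hm3 : Measurable (fun q : HH (EuclideanSpace K (Fin n)) r × GG K (EuclideanSpace K (Fin n)) r =>
        ∫⁻ Ω, gLoss hrd hp ALG ((k : ℝ) + 1) Ω q.1 q.2 ∂μ) := (hG k).lintegral_prod_left'
    rw [hπ, lintegral_prod _ hm3.aemeasurable]
    exact upper hrd hp (by omega) μ ALG s hs _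
  have hfatou := lintegral_liminf_le (μ := μ) (u := atTop) hL
  calc κ = ∫⁻ _Ω, κ ∂μ := by simp
    _ ≤ ∫⁻ Ω, liminf (fun k : ℕ => ∫⁻ q, gLoss hrd hp ALG ((k : ℝ) + 1) Ω q.1 q.2 ∂π) atTop ∂μ := by
        apply lintegral_mono_ae
        filter_upwards [hμ] with Ω hΩ
        simp only [hL2]
        have hfr : finrank K (colSpan Ω) = l := by rw [finrank_colSpan, hΩ]
        have hfo : finrank K ((colSpan Ω)ᗮ : Submodule K (EuclideanSpace K (Fin n))) = n - l := by
          have := Submodule.finrank_add_finrank_orthogonal (colSpan Ω)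
          rw [hfr] at this
          simp at this
          omega
        have hmf : Measurable (xhat hrd hp ALG Ω) := by
          apply measurable_pi_lambda
          intro a
          exact (meas_xhat hrd hp hALG a).comp measurable_prodMk_left
        have := total_liminf (colSpan Ω) hmf (by rw [hfr]; omega) (by rw [hfr]; exact hm)
        rw [hfr, hfo] at this
        exact this
    _ ≤ liminf (fun k : ℕ => ∫⁻ Ω, ∫⁻ q, gLoss hrd hp ALG ((k : ℝ) + 1) Ω q.1 q.2 ∂π ∂μ) atTop := hfatou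
    _ ≤ liminf (fun _k : ℕ => s * ((finrank ℝ K * (n - r) : ℕ) : ℝ≥0∞)) atTop :=
        liminf_le_liminf (Eventually.of_forall hupper)
    _ = _ := by simp

end Pool.Agent.R989.GauH
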