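import Mathlib

/-!
Norm forms of the cubics `t^3 - a t^2 + b t - 1` and reduction by the unit `t`
(helper file for `MP_d44d58_nt`).
-/

namespace Pool.Agent.R989.Hess

/-- The norm form of `A + B t + C t^2`, `t` a root of `t^3 - a t^2 + b t - 1`. -/
def Nf (a b A B C : ℤ) : ℤ :=
  A^3 + B^3 + C^3 + a*A^2*B + b*A*B^2 + (a^2-2*b)*A^2*C + (b^2-2*a)*A*C^2 + a*B^2*C + b*B*C^2
    + (a*b-3)*A*B*C

lemma Nf_swap (a b A B C : ℤ) : Nf b a C B A = Nf a b A B C := by unfold Nf; ring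

lemma Nf_mul (a b A B C : ℤ) : Nf a b C (A - b*C) (B + a*C) = Nf a b A B C := by
  unfold Nf; ring

lemma Nf_div (a b A B C : ℤ) : Nf a b (A*b + B) (C - a*A) A = Nf a b A B C := by
  unfold Nf; ring

lemma Nf_phi (k A B C : ℤ) :
    Nf (2*k) (k^2) (C - k*A) (A - k^2*C - k*B) (B + 2*k*C - k*C) = Nf (2*k) (k^2) A B C := by
  unfold Nf; ring

/-- the general norm identity -/
lemma norm_gen (th S T A B C e1 e2 e3 : ℝ) (h1 : e1 = th + S) (h2 : e2 = th*S + T)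
    (h3 : e3 = th*T) :
    A^3 + e3*B^3 + e3^2*C^3 + e1*A^2*B + e2*A*B^2 + (e1^2-2*e2)*A^2*C + (e2^2-2*e1*e3)*A*C^2
      + e1*e3*B^2*C + e2*e3*B*C^2 + (e1*e2-3*e3)*A*B*C
    = (A + B*th + C*th^2) * (A^2 + A*B*S + B^2*T + A*C*(S^2-2*T) + B*C*T*S + C^2*T^2) := by
  subst h1 h2 h3; ring

/-- the data of a real root `th` and of the quadratic factor `t^2 - S t + T` -/
structure Fac (a b : ℤ) (th S T : ℝ) : Prop where
  pos : 0 < th
  hT : th*T = 1
  ha : (a:ℝ) = th + S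
  hb : (b:ℝ) = th*S + T
  hE : S^2 < 4*T

variable {a b : ℤ} {th S T : ℝ}

lemma Fac.Tpos (H : Fac a b th S T) : 0 < T := by
  have h := H.hT
  have h0 := H.pos
  by_contra hc
  push Not at hc
  nlinarith

lemma Fac.norm (H : Fac a b th S T) (A B C : ℤ) :
    ((Nf a b A B C : ℤ) : ℝ) = ((A:ℝ) + B*th + C*th^2)
      * ((A:ℝ)^2 + A*B*S + B^2*T + A*C*(S^2-2*T) + B*C*T*S + C^2*T^2) := by
  have h := norm_gen th S T A B C a b 1 H.ha H.hb H.hT.symm
  rw [← h]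
  unfold Nf
  push_cast
  ring

lemma Fac.root (H : Fac a b th S T) : th^3 = a*th^2 - b*th + 1 := by
  rw [H.ha, H.hb]
  linear_combination H.hT

lemma Fac.Teq (H : Fac a b th S T) : T = th^2 - a*th + b := by
  rw [H.ha, H.hb]; ring

/-- solutions of the norm equation with odd coefficients -/
def Good (a b : ℤ) (th s : ℝ) : Prop :=
  ∃ A B C : ℤ, Odd A ∧ Odd B ∧ Odd C ∧ |Nf a b A B C| = 4 ∧ s = |(A:ℝ) + B*th + C*th^2|

lemma abs_mul_pos' (r : ℝ) {x : ℝ} (hx : 0 < x) : |r| * x = |r * x| := by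
  rw [abs_mul, abs_of_pos hx]

lemma Good.mul (H : Fac a b th S T) (ha : Even a) (hb : Even b) {s : ℝ} (h : Good a b th s) :
    Good a b th (s*th) := by
  obtain ⟨A, B, C, hA, hB, hC, hN, hs⟩ := h
  refine ⟨C, A - b*C, B + a*C, hC, ?_, ?_, by rw [Nf_mul]; exact hN, ?_⟩
  · exact hA.sub_even (hb.mul_right C)
  · exact hB.add_even (ha.mul_right C)
  · rw [hs]
    rw [abs_mul_pos' _ H.pos]
    congr 1
    have := H.root
    push_cast
    linear_combination (C:ℝ) * this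

lemma Good.div (H : Fac a b th S T) (ha : Even a) (hb : Even b) {s : ℝ} (h : Good a b th s) :
    Good a b th (s*T) := by
  obtain ⟨A, B, C, hA, hB, hC, hN, hs⟩ := h
  refine ⟨A*b + B, C - a*A, A, ?_, ?_, hA, by rw [Nf_div]; exact hN, ?_⟩
  · exact (hb.mul_left A).add_odd hB
  · exact hC.sub_even (ha.mul_right A)
  · rw [hs]
    rw [abs_mul_pos' _ H.Tpos]
    congr 1
    have h1 := H.Teq
    have h2 := H.hT
    push_cast
    linear_combination (A:ℝ) * h1 + ((B:ℝ) + C*th) * h2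

lemma Good.phi {k : ℤ} (hk : Even k) {ph : ℝ} (hph : 0 < ph) (hth : th = ph + k)
    (hroot : th * ph^2 = 1) {s : ℝ} (h : Good (2*k) (k^2) th s) :
    Good (2*k) (k^2) th (s*ph) := by
  obtain ⟨A, B, C, hA, hB, hC, hN, hs⟩ := h
  refine ⟨C - k*A, A - k^2*C - k*B, B + 2*k*C - k*C, ?_, ?_, ?_, by rw [Nf_phi]; exact hN, ?_⟩
  · exact hC.sub_even (hk.mul_right A)
  · exact (hA.sub_even ((hk.pow_of_ne_zero two_ne_zero).mul_right C)).sub_even (hk.mul_right B)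
  · have : B + 2*k*C - k*C = B + k*C := by ring
    rw [this]
    exact hB.add_even (hk.mul_right C)
  · rw [hs]
    rw [abs_mul_pos' _ hph]
    congr 1
    have e : ph = th - k := by rw [hth]; ring
    rw [e] at hroot ⊢
    push_cast
    linear_combination (C:ℝ) * hroot

lemma zpow_closed {P : ℝ → Prop} {x y : ℝ} (hxy : x*y = 1) (h1 : ∀ s, P s → P (s*x))
    (h2 : ∀ s, P s → P (s*y)) (n : ℤ) : ∀ s, P s → P (s*x^n) := by
  have hx : x ≠ 0 := left_ne_zero_of_mul_eq_one hxy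
  have hy : y = x⁻¹ := eq_inv_of_mul_eq_one_right hxy
  induction n using Int.induction_on with
  | zero => intro s hs; simpa using hs
  | succ n ih =>
    intro s hs
    have := h1 _ (ih s hs)
    rw [zpow_add_one₀ hx]
    simpa [mul_assoc] using this
  | pred n ih =>
    intro s hs
    have := h2 _ (ih s hs)
    rw [zpow_sub_one₀ hx, ← hy]
    simpa [mul_assoc] using this

/-- normalization -/
lemma normalize {P : ℝ → Prop} {x y : ℝ} (hy : 1 < y) (hxy : x*y = 1) (h1 : ∀ s, P s → P (s*x))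
    (h2 : ∀ s, P s → P (s*y)) {s : ℝ} (hs : 0 < s) (hP : P s) {L : ℝ} (hL : 0 < L) :
    ∃ s', L ≤ s' ∧ s' ≤ L*y ∧ P s' := by
  obtain ⟨n, hn1, hn2⟩ := exists_mem_Ico_zpow (div_pos hs hL) hy
  have hy0 : 0 < y := by linarith
  have hx : x = y⁻¹ := eq_inv_of_mul_eq_one_left hxy
  refine ⟨s * x^n, ?_, ?_, zpow_closed hxy h1 h2 n s hP⟩
  · rw [hx, inv_zpow]
    have hyn : 0 < y^n := zpow_pos hy0 n
    rw [le_div_iff₀ hL] at hn1
    rw [← div_eq_mul_inv, le_div_iff₀ hyn]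
    linarith
  · rw [hx, inv_zpow]
    have hyn : 0 < y^n := zpow_pos hy0 n
    rw [div_lt_iff₀ hL, zpow_add_one₀ hy0.ne'] at hn2
    rw [← div_eq_mul_inv, div_le_iff₀ hyn]
    nlinarith

lemma Good.pos (H : Fac a b th S T) {s : ℝ} (h : Good a b th s) : 0 < s := by
  obtain ⟨A, B, C, hA, hB, hC, hN, hs⟩ := h
  rw [hs, abs_pos]
  intro h0
  have h1 := H.norm A B C
  rw [h0, zero_mul] at h1
  have h2 : Nf a b A B C = 0 := by exact_mod_cast h1
  rw [h2] at hN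
  simp at hN

/-- the key inequality -/
lemma Good.key (H : Fac a b th S T) {s : ℝ} (h : Good a b th s) :
    (T - S^2/4) * (s * ((th^2 - th*S + T) - s)^2) ≤ 4*(th^2 - th*S + T) ∨
      th^2 - th*S + T ≤ s := by
  have hs0 := h.pos H
  obtain ⟨A, B, C, hA, hB, hC, hN, hs⟩ := h
  set D : ℝ := th^2 - th*S + T with hD
  set r : ℝ := (A:ℝ) + B*th + C*th^2 with hr
  set Q : ℝ := (A:ℝ)^2 + A*B*S + B^2*T + A*C*(S^2-2*T) + B*C*T*S + C^2*T^2 with hQ
  have hE := H.hE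
  have hDpos : 0 < D := by nlinarith [sq_nonneg (th - S/2)]
  by_cases hDs : D ≤ s
  · right; exact hDs
  left
  push Not at hDs
  have hnorm : |r| * |Q| = 4 := by
    rw [← abs_mul, ← H.norm A B C]
    have h1 : ((|Nf a b A B C| : ℤ) : ℝ) = 4 := by rw [hN]; norm_num
    rwa [Int.cast_abs] at h1
  have hQid : Q*D = (T - S^2/4)*(C*D - r)^2
      + ((A + B*S/2 + C*(S^2/2 - T))*(th - S/2) - (T - S^2/4)*(B + C*S))^2 := by
    rw [hQ, hD, hr]; ring
  have hQ0 : 0 ≤ Q := by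
    have h1 : 0 ≤ Q*D := by
      rw [hQid]
      have : 0 ≤ T - S^2/4 := by linarith
      positivity
    exact nonneg_of_mul_nonneg_left h1 hDpos
  rw [abs_of_nonneg hQ0, ← hs] at hnorm
  have hle : (T - S^2/4)*(C*D - r)^2 ≤ Q*D := by
    rw [hQid]; nlinarith [sq_nonneg ((A + B*S/2 + C*(S^2/2 - T))*(th - S/2) - (T - S^2/4)*(B + C*S))]
  have hC1 : (1:ℝ) ≤ |(C:ℝ)| := by
    have h0 : C ≠ 0 := by rintro rfl; simp at hC
    have := Int.one_le_abs h0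
    exact_mod_cast this
  have hge : D - s ≤ |(C:ℝ)*D - r| := by
    have h1 := abs_sub_abs_le_abs_sub ((C:ℝ)*D) r
    rw [abs_mul, abs_of_pos hDpos, ← hs] at h1
    nlinarith
  have hsq : (D - s)^2 ≤ ((C:ℝ)*D - r)^2 := by
    rw [← sq_abs ((C:ℝ)*D - r)]
    exact pow_le_pow_left₀ (by linarith) hge 2
  have hT4 : 0 ≤ T - S^2/4 := by linarith
  calc (T - S^2/4) * (s * (D - s)^2) = s * ((T - S^2/4) * (D - s)^2) := by ring
    _ ≤ s * ((T - S^2/4) * (C*D - r)^2) :=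
        mul_le_mul_of_nonneg_left (mul_le_mul_of_nonneg_left hsq hT4) hs0.le
    _ ≤ s * (Q*D) := mul_le_mul_of_nonneg_left hle hs0.le
    _ = (s*Q)*D := by ring
    _ = 4*D := by rw [hnorm]

lemma mono1 {D x s : ℝ} (hx : x ≤ s) (hs : 3*s ≤ D) (hD : 0 ≤ D) :
    x*(D-x)^2 ≤ s*(D-s)^2 := by
  have h : s*(D-s)^2 - x*(D-x)^2
      = (s-x)*(D*((D/3-s)+(D/3-x)) + ((D/3-s)^2 + (D/3-s)*(D/3-x) + (D/3-x)^2)) := by ring
  have h1 : 0 ≤ D/3 - s := by linarith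
  have h2 : 0 ≤ D/3 - x := by linarith
  have h3 : 0 ≤ (s-x)*(D*((D/3-s)+(D/3-x)) + ((D/3-s)^2 + (D/3-s)*(D/3-x) + (D/3-x)^2)) := by
    apply mul_nonneg (by linarith)
    positivity
  linarith

lemma mono2 {D y s : ℝ} (hy : s ≤ y) (hs : D ≤ 3*s) (hyD : y ≤ D) :
    y*(D-y)^2 ≤ s*(D-s)^2 := by
  have h : s*(D-s)^2 - y*(D-y)^2
      = (y-s)*(D*((s-D/3)+(y-D/3)) - ((s-D/3)^2 + (s-D/3)*(y-D/3) + (y-D/3)^2)) := by ring
  have h1 : 0 ≤ s - D/3 := by linarith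
  have h2 : 0 ≤ y - D/3 := by linarith
  have h4 : s - D/3 ≤ 2*D/3 := by linarith
  have h5 : y - D/3 ≤ 2*D/3 := by linarith
  have h3 : 0 ≤ (y-s)*(D*((s-D/3)+(y-D/3)) - ((s-D/3)^2 + (s-D/3)*(y-D/3) + (y-D/3)^2)) := by
    apply mul_nonneg (by linarith)
    nlinarith [mul_nonneg h1 (sub_nonneg.mpr h4), mul_nonneg h2 (sub_nonneg.mpr h5),
      mul_nonneg h1 (sub_nonneg.mpr h5), mul_nonneg h2 (sub_nonneg.mpr h4)]
  linarith

/-- exclusion -/
lemma exclude (H : Fac a b th S T) {L R : ℝ} (hL : 0 < L) (hR : R < th^2 - th*S + T)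
    (c1 : 4*(th^2 - th*S + T) < (T - S^2/4) * (L * ((th^2 - th*S + T) - L)^2))
    (c2 : 4*(th^2 - th*S + T) < (T - S^2/4) * (R * ((th^2 - th*S + T) - R)^2))
    {s : ℝ} (h : Good a b th s) (h1 : L ≤ s) (h2 : s ≤ R) : False := by
  set D : ℝ := th^2 - th*S + T with hD
  have hE : 0 ≤ T - S^2/4 := by linarith [H.hE]
  have hDpos : 0 < D := by linarith
  rcases h.key H with hk | hk
  · rcases le_total (3*s) D with h3 | h3
    · have h4 := mono1 h1 h3 hDpos.le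
      have h5 := mul_le_mul_of_nonneg_left h4 hE
      linarith
    · have h4 := mono2 h2 h3 hR.le
      have h5 := mul_le_mul_of_nonneg_left h4 hE
      linarith
  · linarith

end Pool.Agent.R989.Hess
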