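import Mathlib
import Pool.Agent.R989.HessA

/-!
The region analysis for the cubics `t^3 - 2k t^2 + (k^2+c) t - 1` (helper file for `MP_d44d58_nt`).
-/

namespace Pool.Agent.R989.Hess

/-- nonnegative case -/
lemma caseP {T d sg s0 T0 : ℝ} (hd : 0 ≤ d) (hs : s0 ≤ sg) (hT : T0 ≤ T) (hs0 : 0 < s0)
    (hT0 : 1 ≤ T0) (g1 : 32 < s0*T0^2) (g2 : 8*T0 < (T0-1/2)^2*s0) :
    T/2 < T + 2*d ∧ 4*(T+2*d) < sg*(1/2*((T+2*d)-1/2)^2) ∧
      4*(T+2*d) < sg*(T/2*((T+2*d)-T/2)^2) := by
  refine ⟨by linarith, ?_, ?_⟩
  · set D := T + 2*d with hD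
    have hDT : T0 ≤ D := by linarith
    have h1 : s0*(1/2*(D-1/2)^2) ≤ sg*(1/2*(D-1/2)^2) :=
      mul_le_mul_of_nonneg_right hs (by positivity)
    have h2 : 8*D*T0 < (D-1/2)^2*s0*T0 := by
      have h3 : 0 ≤ (D - T0) * (D*T0 - 1/4) := by
        apply mul_nonneg (by linarith); nlinarith
      -- (D-1/2)^2 T0 - (T0-1/2)^2 D = (D-T0)(D T0 - 1/4)
      have h4 : (D-1/2)^2*T0 - (T0-1/2)^2*D = (D-T0)*(D*T0-1/4) := by ring
      have h5 : (T0-1/2)^2*D ≤ (D-1/2)^2*T0 := by linarith
      have h6 : (T0-1/2)^2*D*s0 ≤ (D-1/2)^2*T0*s0 := mul_le_mul_of_nonneg_right h5 hs0.le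
      have h7 : 8*T0*D < (T0-1/2)^2*s0*D := mul_lt_mul_of_pos_right g2 (by linarith)
      nlinarith
    have h8 : 8*D < (D-1/2)^2*s0 := lt_of_mul_lt_mul_right h2 (by linarith)
    linarith
  · set m := T/2 + 2*d with hm
    have e : (T+2*d) - T/2 = m := by rw [hm]; ring
    rw [e]
    have hm1 : T/2 ≤ m := by linarith
    have hTpos : 0 < T := by linarith
    have hmpos : 0 < m := by linarith
    have h1 : s0*(T/2*m^2) ≤ sg*(T/2*m^2) :=
      mul_le_mul_of_nonneg_right hs (by positivity)
    have h2 : 16 < s0*T*m := by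
      have h3 : T0^2 ≤ T^2 := pow_le_pow_left₀ (by linarith) hT 2
      have h4 : s0*T0^2 ≤ s0*T^2 := mul_le_mul_of_nonneg_left h3 hs0.le
      have h5 : s0*T*(T/2) ≤ s0*T*m := mul_le_mul_of_nonneg_left hm1 (by positivity)
      nlinarith
    have h6 : 16*m < s0*T*m*m := mul_lt_mul_of_pos_right h2 hmpos
    nlinarith

/-- negative case -/
lemma caseN {T d sg s0 T0 d0 : ℝ} (hd : -d0 ≤ d) (hd' : d ≤ 0) (hs : s0 ≤ sg) (hT : T0 ≤ T)
    (hs0 : 0 < s0) (g0 : 0 < T0/2 - 2*d0) (hT0 : 1 ≤ T0 - 2*d0) (g1 : 8 < s0*(T0/2-2*d0)^2)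
    (g2 : 8*(T0-2*d0) < (T0-2*d0-1/2)^2*s0) :
    T/2 < T + 2*d ∧ 4*(T+2*d) < sg*(1/2*((T+2*d)-1/2)^2) ∧
      4*(T+2*d) < sg*(T/2*((T+2*d)-T/2)^2) := by
  refine ⟨by linarith, ?_, ?_⟩
  · set D := T + 2*d with hD
    set D0 := T0 - 2*d0 with hD0
    have hDT : D0 ≤ D := by linarith
    have h1 : s0*(1/2*(D-1/2)^2) ≤ sg*(1/2*(D-1/2)^2) :=
      mul_le_mul_of_nonneg_right hs (by positivity)
    have h2 : 8*D*D0 < (D-1/2)^2*s0*D0 := by
      have h3 : 0 ≤ (D - D0) * (D*D0 - 1/4) := by
        apply mul_nonneg (by linarith); nlinarith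
      have h4 : (D-1/2)^2*D0 - (D0-1/2)^2*D = (D-D0)*(D*D0-1/4) := by ring
      have h5 : (D0-1/2)^2*D ≤ (D-1/2)^2*D0 := by linarith
      have h6 : (D0-1/2)^2*D*s0 ≤ (D-1/2)^2*D0*s0 := mul_le_mul_of_nonneg_right h5 hs0.le
      have h7 : 8*D0*D < (D0-1/2)^2*s0*D := mul_lt_mul_of_pos_right g2 (by linarith)
      nlinarith
    have h8 : 8*D < (D-1/2)^2*s0 := lt_of_mul_lt_mul_right h2 (by linarith)
    linarith
  · set m := T/2 + 2*d with hm
    have e : (T+2*d) - T/2 = m := by rw [hm]; ring
    rw [e]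
    have hm1 : T0/2 - 2*d0 ≤ m := by linarith
    have hmpos : 0 < m := by linarith
    have hTpos : 0 < T := by linarith
    have h1 : s0*(T/2*m^2) ≤ sg*(T/2*m^2) :=
      mul_le_mul_of_nonneg_right hs (by positivity)
    have h3 : (T0/2-2*d0)^2 ≤ m^2 := pow_le_pow_left₀ g0.le hm1 2
    have h4 : s0*(T0/2-2*d0)^2 ≤ s0*m^2 := mul_le_mul_of_nonneg_left h3 hs0.le
    have h5 : 8 < s0*m^2 := by linarith
    have h6 : 8*(T/2) < s0*m^2*(T/2) := mul_lt_mul_of_pos_right h5 (by linarith)
    nlinarith

/-- Factorization data in the variables `k, c`. -/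
lemma fac_kc {k c : ℤ} {th : ℝ} (h0 : 0 < th) (hroot : th*((th-k)^2+c) = 1)
    (hE : 0 < c + (th-k)*th - th^2/4) :
    Fac (2*k) (k^2+c) th (th - 2*(th-k)) ((th-k)^2+c) := by
  refine ⟨h0, hroot, ?_, ?_, ?_⟩
  · push_cast; ring
  · push_cast; ring
  · nlinarith

/-- conclusion for `c ≥ 1` from the three inequalities -/
lemma finish {k c : ℤ} {th : ℝ} (hk : Even (k^2+c)) (h0 : 0 < th) (h1 : th < 1)
    (hroot : th*((th-k)^2+c) = 1) (hE : 0 < c + (th-k)*th - th^2/4)
    (hG : ∃ s, Good (2*k) (k^2+c) th s) {T d sg : ℝ} (hT : T = (th-k)^2+c) (hd : d = (th-k)*th)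
    (hsg : sg = c + (th-k)*th - th^2/4)
    (hh : T/2 < T + 2*d ∧ 4*(T+2*d) < sg*(1/2*((T+2*d)-1/2)^2) ∧
      4*(T+2*d) < sg*(T/2*((T+2*d)-T/2)^2)) : False := by
  obtain ⟨s, hs⟩ := hG
  have F := fac_kc h0 hroot hE
  have ha : Even (2*k) := even_two_mul k
  have hT1 : 1 < T := by
    have h2 : th*T = 1 := by rw [hT]; exact hroot
    by_contra hc
    push Not at hc
    nlinarith
  obtain ⟨s', hs1, hs2, hs3⟩ := normalize (P := Good (2*k) (k^2+c) th) (x := th) (y := T) hT1
    (by rw [hT]; exact hroot) (fun s h => h.mul F ha hk)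
    (fun s h => by rw [hT]; exact h.div F ha hk) (hs.pos F) hs (L := 1/2) (by norm_num)
  have eD : th^2 - th*(th - 2*(th-k)) + ((th-k)^2+c) = T + 2*d := by rw [hT, hd]; ring
  have eS : ((th-k)^2+c) - (th - 2*(th-k))^2/4 = sg := by rw [hsg]; ring
  refine exclude F (L := 1/2) (R := T/2) (by norm_num) ?_ ?_ ?_ hs3 hs1 (by linarith)
  · rw [eD]; exact hh.1
  · rw [eD, eS]; exact hh.2.1
  · rw [eD, eS]; exact hh.2.2

/-- the exceptional pairs -/
def exc : Finset (ℤ × ℤ) := {(-2,0), (-1,1), (0,2), (1,3), (2,2), (3,1)}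

theorem region {k c : ℤ} {th : ℝ} (hk : Even (k^2+c)) (h0 : 0 < th) (h1 : th < 1)
    (hroot : th*((th-k)^2+c) = 1) (hE : 0 < c + (th-k)*th - th^2/4)
    (hne1 : k^2+c ≠ 2*k) (hne2 : k^2+c+2*k ≠ -2)
    (hG : ∃ s, Good (2*k) (k^2+c) th s) : (k,c) ∈ exc := by
  by_contra hexc
  have hpar : k % 2 = c % 2 := by
    have h2 : (k^2+c) % 2 = 0 := Int.even_iff.mp hk
    rcases Int.emod_two_eq_zero_or_one k with hk2 | hk2 <;>
      rcases Int.emod_two_eq_zero_or_one c with hc2 | hc2 <;>
      simp [pow_two, Int.add_emod, Int.mul_emod, hk2, hc2] at h2 ⊢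
  set T : ℝ := (th-k)^2+c with hT
  set d : ℝ := (th-k)*th with hd
  have hTpos : 0 < T := by
    by_contra hc
    push Not at hc
    nlinarith
  have hth : th = 1/T := by
    rw [eq_div_iff hTpos.ne']; exact hroot
  have hsq : 0 ≤ (th-k)^2 := sq_nonneg _
  -- upper bound of th from a lower bound of T
  have thle : ∀ q : ℝ, 0 < q → q ≤ T → th ≤ 1/q := by
    intro q hq hqT
    rw [hth]
    exact one_div_le_one_div_of_le hq hqT
  have dsq : 4*c*d^2 ≤ 1 := by
    have h2 : (th*T)^2 = 1 := by rw [hroot]; norm_num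
    have h3 : (th*T)^2 - 4*c*d^2 = (th*((th-k)^2 - c))^2 := by rw [hT, hd]; ring
    nlinarith [sq_nonneg (th*((th-k)^2 - (c:ℝ)))]
  rcases lt_or_ge c 1 with hc | hc
  · -- c ≤ 0
    rcases lt_or_ge c 0 with hc0 | hc0
    · -- c ≤ -1
      have hcr : (c:ℝ) ≤ -1 := by exact_mod_cast (by omega : c ≤ -1)
      set u : ℝ := th - k with hu
      have hT1 : 1 < T := by
        by_contra hcon
        push Not at hcon
        nlinarith
      have hd1 : -(c:ℝ) < d := by nlinarith [sq_nonneg th]
      have hdT : d*T = u := by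
        rw [hd]
        have : u*th*T = u*(th*T) := by ring
        rw [this, hroot, mul_one]
      have hu1 : -(c:ℝ)*T < u := by
        rw [← hdT]; exact mul_lt_mul_of_pos_right hd1 hTpos
      rcases lt_or_ge c (-1) with hc2 | hc2
      · have hcr2 : (c:ℝ) ≤ -2 := by exact_mod_cast (by omega : c ≤ -2)
        -- u > e := -c, and e u^2 - u - e^2 < 0
        have h3 : -(c:ℝ) < u := by nlinarith
        have h4 : -(c:ℝ)*(u^2 + c) < u := hu1
        nlinarith [mul_pos (show (0:ℝ) < -c by linarith) (show (0:ℝ) < u + c by linarith),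
          mul_nonneg (show (0:ℝ) ≤ -c - 2 by linarith) (show (0:ℝ) ≤ -c by linarith),
          mul_nonneg (mul_nonneg (show (0:ℝ) ≤ -c - 2 by linarith) (show (0:ℝ) ≤ -c by linarith))
            (show (0:ℝ) ≤ -c by linarith)]
      · have hcm : c = -1 := by omega
        have hcm' : (c:ℝ) = -1 := by rw [hcm]; norm_num
        rw [hcm'] at hu1
        have h3 : 1*(u^2 - 1) < u := by
          have : T = u^2 + (-1) := by rw [hT, hcm']
          rw [this] at hu1; linarith
        have h5 : u < 1.7 := by nlinarith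
        have h6 : 1 < u := by nlinarith
        have h7 : (0:ℝ) < -(k:ℝ) := by rw [hu] at h6; linarith
        have h8 : -(k:ℝ) < 1.7 := by rw [hu] at h5; linarith
        have h9 : 0 < -k := by exact_mod_cast h7
        have h10 : -k < 2 := by
          have : -(k:ℝ) < 2 := by linarith
          exact_mod_cast this
        have hkm : k = -1 := by omega
        apply hne2
        rw [hkm, hcm]; norm_num
    · -- c = 0
      have hc00 : c = 0 := by omega
      subst hc00
      have hkev : k % 2 = 0 := by omega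
      set u : ℝ := th - k with hu
      have hTu : T = u^2 := by rw [hT]; push_cast; ring
      have hupos : 0 < u := by
        have h2 : 0 < d := by
          have : ((0:ℤ):ℝ) = 0 := by norm_num
          rw [this] at hE
          nlinarith [sq_nonneg th]
        rw [hd] at h2
        exact pos_of_mul_pos_left h2 h0.le
      have hk1 : k < 1 := by
        have : (k:ℝ) < 1 := by rw [hu] at hupos; linarith
        exact_mod_cast this
      have hk0 : k ≠ 0 := by
        rintro rfl
        have h2 : th*th^2 = 1 := by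
          have := hroot
          rw [hTu, hu] at this
          simpa using this
        nlinarith [mul_pos h0 h0]
      have hkm2 : k ≠ -2 := by
        rintro rfl
        apply hexc
        simp [exc]
      have hk4 : k ≤ -4 := by omega
      have hk4r : (k:ℝ) ≤ -4 := by exact_mod_cast hk4
      have hu4 : 4 ≤ u := by rw [hu]; linarith
      obtain ⟨s, hs⟩ := hG
      have F := fac_kc h0 hroot hE
      have hkE : Even k := Int.even_iff.mpr hkev
      have hrt : th*u^2 = 1 := by rw [← hTu]; exact hroot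
      have e0 : k^2 + 0 = k^2 := by ring
      rw [e0] at hs F
      have hphi : ∀ s, Good (2*k) (k^2) th s → Good (2*k) (k^2) th (s*u) := fun s h =>
        h.phi hkE hupos (by rw [hu]; ring) hrt
      have hphi' : ∀ s, Good (2*k) (k^2) th s → Good (2*k) (k^2) th (s*(th*u)) := fun s h => by
        have h2 := hphi _ (h.mul F (even_two_mul k) (hkE.pow_of_ne_zero two_ne_zero))
        have e : s*th*u = s*(th*u) := by ring
        rwa [e] at h2
      obtain ⟨s', hs1, hs2, hs3⟩ := normalize (P := Good (2*k) (k^2) th) (x := th*u) (y := u)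
        (by linarith) (by rw [← hrt]; ring) hphi' hphi (hs.pos F) hs (L := 3/2) (by norm_num)
      have hd1 : d = 1/u := by
        rw [eq_div_iff (by linarith), hd, ← hrt]; ring
      have hthu : th = 1/u^2 := by rw [eq_div_iff (by positivity)]; exact hrt
      have eD : th^2 - th*(th - 2*(th-k)) + ((th-k)^2+((0:ℤ):ℝ)) = u^2 + 2*d := by
        rw [hd, hu]; push_cast; ring
      have eS : ((th-k)^2+((0:ℤ):ℝ)) - (th - 2*(th-k))^2/4 = d - th^2/4 := by
        rw [hd, hu]; push_cast; ring
      have hdpos : 0 < d := by rw [hd1]; positivity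
      have hdle : d ≤ 1/4 := by rw [hd1]; exact one_div_le_one_div_of_le (by norm_num) hu4
      have hdu : d*u = 1 := by rw [hd1]; field_simp
      have hthd : th = d^2 := by rw [hthu, hd1]; ring
      have hsig : (255/256)*d ≤ d - th^2/4 := by
        rw [hthd]
        have h2 : d^3 ≤ (1/4)^3 := pow_le_pow_left₀ hdpos.le hdle 3
        have h3 : d^4 = d*d^3 := by ring
        have h4 : (d^2)^2 = d^4 := by ring
        rw [h4, h3]
        nlinarith
      refine exclude F (L := 3/2) (R := 3/2*u) (by norm_num) ?_ ?_ ?_ hs3 hs1 hs2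
      · rw [eD]; nlinarith
      · rw [eD, eS]
        have h2 : (255/256)*d*(3/2*((u^2+2*d)-3/2)^2) ≤ (d - th^2/4)*(3/2*((u^2+2*d)-3/2)^2) :=
          mul_le_mul_of_nonneg_right hsig (by positivity)
        refine lt_of_lt_of_le ?_ h2
        -- multiply by u
        have h3 : 4*(u^2+2*d)*u < (255/256)*d*(3/2*((u^2+2*d)-3/2)^2)*u := by
          have h4 : (255/256)*d*(3/2*((u^2+2*d)-3/2)^2)*u
              = (255/256)*(3/2)*((u^2+2*d)-3/2)^2*(d*u) := by ring
          rw [h4, hdu, mul_one]
          have h5 : (u^2-3/2)^2 ≤ ((u^2+2*d)-3/2)^2 := by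
            apply pow_le_pow_left₀ (by nlinarith); linarith
          have h6 : 4*(u^2+2*d)*u = 4*u^3 + 8*(d*u) := by ring
          rw [h6, hdu]
          have h7 : 4*u^3 + 8 < (255/256)*(3/2)*(u^2-3/2)^2 := by
            have h8 : 0 ≤ u - 4 := by linarith
            nlinarith [mul_nonneg h8 h8, mul_nonneg (mul_nonneg h8 h8) h8,
              mul_nonneg (mul_nonneg h8 h8) (mul_nonneg h8 h8)]
          linarith
        exact lt_of_mul_lt_mul_right h3 (by linarith)
      · rw [eD, eS]
        have h2 : (255/256)*d*(3/2*u*((u^2+2*d)-3/2*u)^2)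
            ≤ (d - th^2/4)*(3/2*u*((u^2+2*d)-3/2*u)^2) :=
          mul_le_mul_of_nonneg_right hsig (by positivity)
        refine lt_of_lt_of_le ?_ h2
        have h4 : (255/256)*d*(3/2*u*((u^2+2*d)-3/2*u)^2)
            = (255/256)*(3/2)*((u^2+2*d)-3/2*u)^2*(d*u) := by ring
        rw [h4, hdu, mul_one]
        have h5 : (u^2-3/2*u)^2 ≤ ((u^2+2*d)-3/2*u)^2 := by
          apply pow_le_pow_left₀ (by nlinarith); linarith
        have h7 : 4*(u^2+1/2) < (255/256)*(3/2)*(u^2-3/2*u)^2 := by
          have h8 : 0 ≤ u - 4 := by linarith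
          nlinarith [mul_nonneg h8 h8, mul_nonneg (mul_nonneg h8 h8) h8,
            mul_nonneg (mul_nonneg h8 h8) (mul_nonneg h8 h8)]
        linarith
  · -- c ≥ 1
    have hcr : (1:ℝ) ≤ c := by exact_mod_cast hc
    rcases lt_or_ge c 4 with hc4 | hc4
    · have hc123 : c = 1 ∨ c = 2 ∨ c = 3 := by omega
      rcases hc123 with rfl | rfl | rfl
      · -- c = 1
        have hkne : k ≠ 1 := by rintro rfl; exact hne1 (by norm_num)
        have hkne2 : k ≠ -1 := by rintro rfl; apply hexc; simp [exc]
        have hkne3 : k ≠ 3 := by rintro rfl; apply hexc; simp [exc]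
        have hkcase : k ≤ -3 ∨ 5 ≤ k := by omega
        rcases hkcase with hk' | hk'
        · have hkr : (k:ℝ) ≤ -3 := by exact_mod_cast hk'
          have hT10 : 10 ≤ T := by rw [hT]; push_cast; nlinarith
          have h2 := thle 10 (by norm_num) hT10
          refine finish hk h0 h1 hroot hE hG hT hd rfl (caseP (s0 := 0.99) (T0 := 10) ?_ ?_ hT10
            (by norm_num) (by norm_num) (by norm_num) (by norm_num))
          · rw [hd]; exact mul_nonneg (by linarith) h0.le
          · have : 0 ≤ (th-k)*th := mul_nonneg (by linarith) h0.le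
            push_cast; nlinarith
        · have hkr : (5:ℝ) ≤ k := by exact_mod_cast hk'
          have hu : th - k ≤ -4 := by linarith
          have hT17 : 17 ≤ T := by rw [hT]; push_cast; nlinarith
          have h2 := thle 17 (by norm_num) hT17
          have hdl : -(1/4) ≤ d := by
            have h3 : th*((th-k)^2+1) = 1 := by
              have h4 := hroot
              rw [hT] at h4
              push_cast at h4
              exact h4
            rw [hd]
            nlinarith [mul_nonneg h0.le (show 0 ≤ (th-k)^2 + 1 + 4*(th-k) by nlinarith)]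
          have hdn : d ≤ 0 := by rw [hd]; exact mul_nonpos_of_nonpos_of_nonneg (by linarith) h0.le
          refine finish hk h0 h1 hroot hE hG hT hd rfl (caseN (s0 := 0.74) (T0 := 17)
            (d0 := 1/4) hdl hdn ?_ hT17
            (by norm_num) (by norm_num) (by norm_num) (by norm_num) (by norm_num))
          rw [← hd]; push_cast; nlinarith
      · -- c = 2
        have hkne2 : k ≠ 0 := by rintro rfl; apply hexc; simp [exc]
        have hkne3 : k ≠ 2 := by rintro rfl; apply hexc; simp [exc]
        have hkcase : k ≤ -2 ∨ 4 ≤ k := by omega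
        rcases hkcase with hk' | hk'
        · have hkr : (k:ℝ) ≤ -2 := by exact_mod_cast hk'
          have hT6 : 6 ≤ T := by rw [hT]; push_cast; nlinarith
          have h2 := thle 6 (by norm_num) hT6
          refine finish hk h0 h1 hroot hE hG hT hd rfl (caseP (s0 := 1.98) (T0 := 6) ?_ ?_ hT6
            (by norm_num) (by norm_num) (by norm_num) (by norm_num))
          · rw [hd]; exact mul_nonneg (by linarith) h0.le
          · have : 0 ≤ (th-k)*th := mul_nonneg (by linarith) h0.le
            push_cast; nlinarith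
        · have hkr : (4:ℝ) ≤ k := by exact_mod_cast hk'
          have hu : th - k ≤ -3 := by linarith
          have hT11 : 11 ≤ T := by rw [hT]; push_cast; nlinarith
          have h2 := thle 11 (by norm_num) hT11
          have hdl : -0.36 ≤ d := by
            push_cast at dsq
            nlinarith
          have hdn : d ≤ 0 := by rw [hd]; exact mul_nonpos_of_nonpos_of_nonneg (by linarith) h0.le
          refine finish hk h0 h1 hroot hE hG hT hd rfl (caseN (s0 := 1.63) (T0 := 11)
            (d0 := 0.36) hdl hdn ?_ hT11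
            (by norm_num) (by norm_num) (by norm_num) (by norm_num) (by norm_num))
          rw [← hd]; push_cast; nlinarith
      · -- c = 3
        have hkne2 : k ≠ 1 := by rintro rfl; apply hexc; simp [exc]
        have hkcase : k ≤ -1 ∨ 3 ≤ k := by omega
        rcases hkcase with hk' | hk'
        · have hkr : (k:ℝ) ≤ -1 := by exact_mod_cast hk'
          have hT4 : 4 ≤ T := by rw [hT]; push_cast; nlinarith
          have h2 := thle 4 (by norm_num) hT4
          refine finish hk h0 h1 hroot hE hG hT hd rfl (caseP (s0 := 2.98) (T0 := 4) ?_ ?_ hT4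
            (by norm_num) (by norm_num) (by norm_num) (by norm_num))
          · rw [hd]; exact mul_nonneg (by linarith) h0.le
          · have : 0 ≤ (th-k)*th := mul_nonneg (by linarith) h0.le
            push_cast; nlinarith
        · have hkr : (3:ℝ) ≤ k := by exact_mod_cast hk'
          have hu : th - k ≤ -2 := by linarith
          have hT7 : 7 ≤ T := by rw [hT]; push_cast; nlinarith
          have h2 := thle 7 (by norm_num) hT7
          have hdl : -0.29 ≤ d := by
            push_cast at dsq
            nlinarith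
          have hdn : d ≤ 0 := by rw [hd]; exact mul_nonpos_of_nonpos_of_nonneg (by linarith) h0.le
          refine finish hk h0 h1 hroot hE hG hT hd rfl (caseN (s0 := 2.7) (T0 := 7)
            (d0 := 0.29) hdl hdn ?_ hT7
            (by norm_num) (by norm_num) (by norm_num) (by norm_num) (by norm_num))
          rw [← hd]; push_cast; nlinarith
    · -- c ≥ 4
      have hc4r : (4:ℝ) ≤ c := by exact_mod_cast hc4
      have hT4 : 4 ≤ T := by rw [hT]; linarith
      have h2 := thle 4 (by norm_num) hT4
      rcases lt_or_ge k 1 with hk1 | hk1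
      · have hkr : (k:ℝ) ≤ 0 := by exact_mod_cast (by omega : k ≤ 0)
        refine finish hk h0 h1 hroot hE hG hT hd rfl (caseP (s0 := 3.98) (T0 := 4) ?_ ?_ hT4
            (by norm_num) (by norm_num) (by norm_num) (by norm_num))
        · rw [hd]; exact mul_nonneg (by linarith) h0.le
        · have : 0 ≤ (th-k)*th := mul_nonneg (by linarith) h0.le
          nlinarith
      · have hkr : (1:ℝ) ≤ k := by exact_mod_cast hk1
        have hT5 : 5.5 ≤ T := by
          rcases eq_or_lt_of_le hk1 with he | he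
          · have hc5 : 5 ≤ c := by omega
            have hc5r : (5:ℝ) ≤ c := by exact_mod_cast hc5
            have hkr1 : (k:ℝ) = 1 := by rw [← he]; norm_num
            rw [hT, hkr1]
            nlinarith
          · have hkr2 : (2:ℝ) ≤ k := by exact_mod_cast (by omega : 2 ≤ k)
            rw [hT]
            nlinarith
        have hdl : -(1/4) ≤ d := by
          by_contra hcon
          push Not at hcon
          have h3 : 1/16 < d^2 := by nlinarith
          nlinarith
        have hdn : d ≤ 0 := by rw [hd]; exact mul_nonpos_of_nonpos_of_nonneg (by linarith) h0.le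
        refine finish hk h0 h1 hroot hE hG hT hd rfl (caseN (s0 := 3.7) (T0 := 5.5)
            (d0 := 1/4) hdl hdn ?_ hT5
            (by norm_num) (by norm_num) (by norm_num) (by norm_num) (by norm_num))
        rw [← hd]; nlinarith

end Pool.Agent.R989.Hess
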