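import Mathlib
import Pool.Agent.R989.HessB

/-!
Hessenberg matrices of type `<0,1|1,1,2>`: definitions, characteristic polynomial and the two
directions of the count (helper file for `MP_d44d58_nt`).
-/

open Polynomial Matrix

namespace Pool.Agent.R989.Hess

/-- The matrix `M(m,n)`. -/
def M (m n : ℤ) : Matrix (Fin 3) (Fin 3) ℤ :=
  !![0, 1, n+1; 1, 1, m+n; 0, 2, 2*n+1]

/-- NRS: the characteristic polynomial is irreducible over `ℚ` and has one real root `x` and two
non-real complex conjugate roots `z` and `conj z`. -/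
def IsNRS (A : Matrix (Fin 3) (Fin 3) ℤ) : Prop :=
  Irreducible (A.charpoly.map (Int.castRingHom ℚ)) ∧
  ∃ (x : ℝ) (z : ℂ), z.im ≠ 0 ∧ A.charpoly.map (Int.castRingHom ℂ)
    = (X - C (x:ℂ)) * (X - C z) * (X - C (starRingEnd ℂ z))

/-- `Δ_A(v) = |det(v, Av, A²v)|`. -/
def Delta (A : Matrix (Fin 3) (Fin 3) ℤ) (v : Fin 3 → ℤ) : ℤ :=
  |(Matrix.of ![v, A *ᵥ v, A *ᵥ (A *ᵥ v)])ᵀ.det|

/-- `Δ_A` attains its minimum over the nonzero integer vectors at `e₁ = (1,0,0)`. -/
def IsReduced (A : Matrix (Fin 3) (Fin 3) ℤ) : Prop :=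
  ∀ v : Fin 3 → ℤ, v ≠ 0 → Delta A ![1, 0, 0] ≤ Delta A v

lemma det_M (m n : ℤ) : (M m n).det = 1 := by
  rw [Matrix.det_fin_three]
  simp [M]
  ring

lemma charpoly_M (m n : ℤ) :
    (M m n).charpoly = X^3 - C (2*n+2) * X^2 - C (2*m) * X - 1 := by
  rw [Matrix.charpoly, Matrix.det_fin_three]
  simp [Matrix.charmatrix, M]
  ring

lemma det_eq (m n : ℤ) (v : Fin 3 → ℤ) :
    4 * (Matrix.of ![v, M m n *ᵥ v, M m n *ᵥ (M m n *ᵥ v)])ᵀ.det
      = Nf (2*n+2) (-2*m) (2*v 0 - v 2) (2*v 1 - v 2) (v 2) := by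
  rw [Matrix.det_fin_three]
  simp [M, dotProduct, Fin.sum_univ_three, Nf, Matrix.vecHead, Matrix.vecTail]
  ring

lemma four_Delta (m n : ℤ) (v : Fin 3 → ℤ) :
    4 * Delta (M m n) v = |Nf (2*n+2) (-2*m) (2*v 0 - v 2) (2*v 1 - v 2) (v 2)| := by
  rw [← det_eq, abs_mul]
  rfl

lemma Delta_e1 (m n : ℤ) : Delta (M m n) ![1, 0, 0] = 2 := by
  have h := four_Delta m n ![1, 0, 0]
  have h2 : Nf (2*n+2) (-2*m) (2*(![1, 0, 0] : Fin 3 → ℤ) 0 - (![1, 0, 0] : Fin 3 → ℤ) 2)
      (2*(![1, 0, 0] : Fin 3 → ℤ) 1 - (![1, 0, 0] : Fin 3 → ℤ) 2)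
      ((![1, 0, 0] : Fin 3 → ℤ) 2) = 8 := by
    simp [Nf]
  rw [h2] at h
  norm_num at h
  omega

lemma eval_C (m n : ℤ) (t : ℂ) : ((M m n).charpoly.map (Int.castRingHom ℂ)).eval t
    = t^3 - (2*n+2)*t^2 - 2*m*t - 1 := by
  rw [charpoly_M]
  simp only [Polynomial.map_sub, Polynomial.map_mul, Polynomial.map_pow, Polynomial.map_X,
    Polynomial.map_one, Polynomial.map_C, Polynomial.eval_sub, Polynomial.eval_mul,
    Polynomial.eval_pow, Polynomial.eval_X, Polynomial.eval_one, Polynomial.eval_C,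
    Int.coe_castRingHom]
  push_cast
  ring

lemma eval_Q (m n : ℤ) (t : ℚ) : ((M m n).charpoly.map (Int.castRingHom ℚ)).eval t
    = t^3 - (2*n+2)*t^2 - 2*m*t - 1 := by
  rw [charpoly_M]
  simp only [Polynomial.map_sub, Polynomial.map_mul, Polynomial.map_pow, Polynomial.map_X,
    Polynomial.map_one, Polynomial.map_C, Polynomial.eval_sub, Polynomial.eval_mul,
    Polynomial.eval_pow, Polynomial.eval_X, Polynomial.eval_one, Polynomial.eval_C,
    Int.coe_castRingHom]
  push_cast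
  ring

/-- coefficients from the complex factorization -/
lemma coeffs {m n : ℤ} {x : ℝ} {z : ℂ}
    (h : (M m n).charpoly.map (Int.castRingHom ℂ)
      = (X - C (x:ℂ)) * (X - C z) * (X - C (starRingEnd ℂ z))) :
    x * Complex.normSq z = 1 ∧ ((2*n+2 : ℤ) : ℝ) = x + 2*z.re ∧
      ((-2*m : ℤ) : ℝ) = x*(2*z.re) + Complex.normSq z := by
  have e0 := congrArg (fun p => Polynomial.eval 0 p) h
  have e1 := congrArg (fun p => Polynomial.eval 1 p) h
  have e2 := congrArg (fun p => Polynomial.eval (-1) p) h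
  simp only [eval_C] at e0 e1 e2
  simp only [Polynomial.eval_sub, Polynomial.eval_mul, Polynomial.eval_X,
    Polynomial.eval_C] at e0 e1 e2
  have hs : z + starRingEnd ℂ z = ((2*z.re : ℝ) : ℂ) := Complex.add_conj z
  have hp : z * starRingEnd ℂ z = ((Complex.normSq z : ℝ) : ℂ) := Complex.mul_conj z
  have c0 : (x:ℂ) * ((Complex.normSq z : ℝ) : ℂ) = 1 := by
    linear_combination e0 - (x:ℂ) * hp
  have c1 : (((2*n+2 : ℤ) : ℂ)) = (x:ℂ) + ((2*z.re : ℝ) : ℂ) := by
    push_cast at e1 e2 hs ⊢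
    linear_combination (-1/2 : ℂ) * e1 + (-1/2 : ℂ) * e2 + hs + c0 + (x:ℂ) * hp
  have c2 : (((-2*m : ℤ) : ℂ)) = (x:ℂ) * ((2*z.re : ℝ) : ℂ) + ((Complex.normSq z : ℝ) : ℂ) := by
    push_cast at e1 e2 hs ⊢
    linear_combination (1/2 : ℂ) * e1 - (1/2 : ℂ) * e2 + (x:ℂ) * hs + hp
  refine ⟨by exact_mod_cast c0, by exact_mod_cast c1, by exact_mod_cast c2⟩

lemma monic_M (m n : ℤ) : (M m n).charpoly.Monic := Matrix.charpoly_monic _

lemma natDegree_M (m n : ℤ) : (M m n).charpoly.natDegree = 3 := by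
  rw [Matrix.charpoly_natDegree_eq_dim]; rfl

/-- An irreducible characteristic polynomial has no integer root. -/
lemma no_int_root {m n : ℤ} (h : Irreducible ((M m n).charpoly.map (Int.castRingHom ℚ))) (e : ℤ) :
    e^3 - (2*n+2)*e^2 - 2*m*e - 1 ≠ 0 := by
  intro h0
  have hroot : IsRoot ((M m n).charpoly.map (Int.castRingHom ℚ)) (e:ℚ) := by
    rw [IsRoot.def, eval_Q]
    exact_mod_cast h0
  have hd := degree_eq_one_of_irreducible_of_root h hroot
  have hn : ((M m n).charpoly.map (Int.castRingHom ℚ)).natDegree = 3 := by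
    rw [(monic_M m n).natDegree_map, natDegree_M]
  have h1 : ((M m n).charpoly.map (Int.castRingHom ℚ)).natDegree = 1 :=
    natDegree_eq_of_degree_eq_some hd
  omega

/-- A root of an irreducible characteristic polynomial satisfies no integral quadratic equation. -/
lemma no_quadratic {m n : ℤ} (h : Irreducible ((M m n).charpoly.map (Int.castRingHom ℚ))) {t : ℂ}
    (ht : ((M m n).charpoly.map (Int.castRingHom ℂ)).eval t = 0) {A B C' : ℤ}
    (hq : (A:ℂ) + B*t + C'*t^2 = 0) : A = 0 ∧ B = 0 ∧ C' = 0 := by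
  set q : ℚ[X] := (M m n).charpoly.map (Int.castRingHom ℚ) with hqdef
  have hmonic : q.Monic := (monic_M m n).map _
  have haev : aeval t q = 0 := by
    rw [hqdef, aeval_def, eval₂_map]
    rw [eval_map] at ht
    convert! ht using 2
  have hmin : q = minpoly ℚ t := minpoly.eq_of_irreducible_of_monic h haev hmonic
  set g : ℚ[X] := C (A:ℚ) + C (B:ℚ) * X + C (C':ℚ) * X^2 with hg
  have hgz : aeval t g = 0 := by
    rw [hg]
    simp only [map_add, map_mul, map_pow, aeval_X, aeval_C]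
    simpa using hq
  have hg0 : g = 0 := by
    by_contra hne
    have h1 := minpoly.degree_le_of_ne_zero ℚ t hne hgz
    rw [← hmin] at h1
    have h2 : q.degree = 3 := by
      have hn : q.natDegree = 3 := by
        rw [hqdef, (monic_M m n).natDegree_map, natDegree_M]
      rw [degree_eq_natDegree hmonic.ne_zero, hn]; rfl
    have h3 : g.degree ≤ 2 := by
      rw [hg]
      compute_degree
    rw [h2] at h1
    have h4 := h1.trans h3
    exact absurd h4 (by decide)
  have c0 := congrArg (fun p => Polynomial.coeff p 0) hg0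
  have c1 := congrArg (fun p => Polynomial.coeff p 1) hg0
  have c2 := congrArg (fun p => Polynomial.coeff p 2) hg0
  simp [hg, coeff_X, coeff_C, coeff_X_pow, -map_intCast] at c0 c1 c2
  exact ⟨c0, c1, c2⟩

/-- Conversion to the variables `k, c`. -/
lemma coreI {a b k c : ℤ} (ha : a = 2*k) (hb : b = k^2+c) {th S T : ℝ} (F : Fac a b th S T)
    (hk : Even b) (h1 : th < 1) (hne1 : b ≠ a) (hne2 : b + a ≠ -2)
    (hG : ∃ s, Good a b th s) : (k,c) ∈ exc := by
  subst ha hb
  have hT := F.Teq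
  have ha := F.ha
  have hS : S = 2*k - th := by
    have := F.ha; push_cast at this; linarith
  have hT' : T = (th-k)^2 + c := by
    rw [hT]; push_cast; ring
  apply region hk F.pos h1 _ _ hne1 hne2 hG
  · rw [← hT']; exact F.hT
  · have hE := F.hE
    rw [hT', hS] at hE
    nlinarith

/-- The twelve pairs. -/
def twelve : Finset (ℤ × ℤ) :=
  {(-2,-3), (-1,-2), (-1,-1), (-2,0), (-3,1), (-5,2), (2,1), (1,0), (0,0), (-1,1), (-2,2), (-3,4)}

/-- Only the twelve pairs can occur. -/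
theorem only_twelve {m n : ℤ} (hN : IsNRS (M m n)) (hR : ¬ IsReduced (M m n)) :
    (m, n) ∈ twelve := by
  obtain ⟨hirr, x, z, hz, hfac⟩ := hN
  obtain ⟨hxT, hxa, hxb⟩ := coeffs hfac
  set T : ℝ := Complex.normSq z with hT
  set S : ℝ := 2*z.re with hS
  have hE : S^2 < 4*T := by
    rw [hS, hT, Complex.normSq_apply]
    have := mul_self_pos.mpr hz
    nlinarith
  have hT0 : 0 ≤ T := Complex.normSq_nonneg z
  have hx : 0 < x := by
    by_contra hc
    push Not at hc
    nlinarith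
  have F : Fac (2*n+2) (-2*m) x S T := ⟨hx, hxT, hxa, hxb, hE⟩
  have hp1 := no_int_root hirr 1
  have hpm := no_int_root hirr (-1)
  have hroots : ((M m n).charpoly.map (Int.castRingHom ℂ)).eval (x:ℂ) = 0 := by
    rw [hfac]; simp
  have hrootz : ((M m n).charpoly.map (Int.castRingHom ℂ)).eval z = 0 := by
    rw [hfac]; simp
  -- the vector
  unfold IsReduced at hR
  push Not at hR
  obtain ⟨v, hv, hlt⟩ := hR
  rw [Delta_e1] at hlt
  set A : ℤ := 2*v 0 - v 2 with hA
  set B : ℤ := 2*v 1 - v 2 with hB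
  have h4 := four_Delta m n v
  rw [← hA, ← hB] at h4
  have hge : 0 ≤ Delta (M m n) v := abs_nonneg _
  have hne0 : Nf (2*n+2) (-2*m) A B (v 2) ≠ 0 := by
    intro h0
    have h1 := F.norm A B (v 2)
    rw [h0] at h1
    have h2 := (mul_eq_zero.mp (by simpa using h1.symm :
      ((A:ℝ) + B*x + (v 2)*x^2) * ((A:ℝ)^2 + A*B*S + B^2*T + A*(v 2)*(S^2-2*T) + B*(v 2)*T*S
        + (v 2)^2*T^2) = 0))
    have h3 : A = 0 ∧ B = 0 ∧ v 2 = 0 := by
      rcases h2 with h2 | h2
      · apply no_quadratic hirr hroots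
        exact_mod_cast h2
      · have hs : z + starRingEnd ℂ z = (S : ℂ) := Complex.add_conj z
        have hp : z * starRingEnd ℂ z = (T : ℂ) := Complex.mul_conj z
        have h5 : ((A:ℂ) + B*z + (v 2)*z^2) * starRingEnd ℂ ((A:ℂ) + B*z + (v 2)*z^2) = 0 := by
          have h6 : ((((A:ℝ)^2 + A*B*S + B^2*T + A*(v 2)*(S^2-2*T) + B*(v 2)*T*S
            + (v 2)^2*T^2 : ℝ)) : ℂ) = 0 := by rw [h2]; rfl
          rw [← h6]
          push_cast
          rw [← hs, ← hp]
          simp only [map_add, map_mul, map_pow, map_intCast]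
          ring
        rcases mul_eq_zero.mp h5 with h6 | h6
        · exact no_quadratic hirr hrootz h6
        · have h7 : (A:ℂ) + B*z + (v 2)*z^2 = 0 := by
            have := congrArg (starRingEnd ℂ) h6
            simpa using this
          exact no_quadratic hirr hrootz h7
    apply hv
    obtain ⟨g1, g2, g3⟩ := h3
    rw [hA, g3] at g1
    rw [hB, g3] at g2
    funext i
    fin_cases i
    · simp only [Fin.zero_eta, Pi.zero_apply]; omega
    · simp only [Fin.mk_one, Pi.zero_apply]; omega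
    · simpa using g3
  have hD1 : Delta (M m n) v = 1 := by
    have : Delta (M m n) v ≠ 0 := by
      intro h0
      rw [h0] at h4
      exact hne0 (abs_eq_zero.mp h4.symm)
    omega
  rw [hD1] at h4
  have hN4 : |Nf (2*n+2) (-2*m) A B (v 2)| = 4 := by omega
  have hCodd : Odd (v 2) := by
    by_contra hc
    rw [Int.not_odd_iff_even] at hc
    obtain ⟨w, hw⟩ := hc
    have h1 : Nf (2*n+2) (-2*m) A B (v 2) = 8 * Nf (2*n+2) (-2*m) (v 0 - w) (v 1 - w) w := by
      rw [hA, hB, hw]; unfold Nf; ring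
    rw [h1, abs_mul] at hN4
    simp at hN4
    omega
  have hAodd : Odd A := by rw [hA]; exact (even_two_mul _).sub_odd hCodd
  have hBodd : Odd B := by rw [hB]; exact (even_two_mul _).sub_odd hCodd
  have hx1 : x ≠ 1 := by
    rintro rfl
    apply hp1
    have e1 : ((2*n+2 : ℤ) : ℝ) - ((-2*m : ℤ) : ℝ) = 0 := by
      rw [hxa, hxb]; linarith
    have e2 : (2*n+2 : ℤ) - (-2*m : ℤ) = 0 := by exact_mod_cast e1
    linarith
  have hevA : Even (2*n+2) := ⟨n+1, by ring⟩
  have hevB : Even (-2*m) := ⟨-m, by ring⟩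
  rcases lt_or_gt_of_ne hx1 with hlt1 | hgt1
  · have hmem := coreI (k := n+1) (c := -2*m - (n+1)^2) (by ring) (by ring) F hevB hlt1
      (by intro h0; apply hp1; linarith) (by intro h0; apply hpm; linarith)
      ⟨_, A, B, v 2, hAodd, hBodd, hCodd, hN4, rfl⟩
    simp only [exc, Finset.mem_insert, Finset.mem_singleton, Prod.mk.injEq] at hmem
    simp only [twelve, Finset.mem_insert, Finset.mem_singleton, Prod.mk.injEq]
    rcases hmem with ⟨g1, g2⟩ | ⟨g1, g2⟩ | ⟨g1, g2⟩ | ⟨g1, g2⟩ | ⟨g1, g2⟩ | ⟨g1, g2⟩ <;>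
      (rw [g1] at g2; norm_num at g2; omega)
  · have hTpos : 0 < T := F.Tpos
    have hT1 : T < 1 := by nlinarith
    have F' : Fac (-2*m) (2*n+2) T (S*x) x := by
      refine ⟨hTpos, by rw [mul_comm]; exact hxT, ?_, ?_, ?_⟩
      · rw [hxb]; ring
      · rw [hxa]
        linear_combination (-S) * hxT
      · have h1 : (S*x)^2 = S^2*x*x := by ring
        have h2 : S^2*x < 4*T*x := mul_lt_mul_of_pos_right hE hx
        have h3 : 4*T*x = 4 := by rw [mul_assoc, mul_comm T x, hxT]; ring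
        nlinarith
    have hmem := coreI (k := -m) (c := 2*n+2 - m^2) (by ring) (by ring) F' hevA hT1
      (by intro h0; apply hp1; linarith) (by intro h0; apply hpm; linarith)
      ⟨_, v 2, B, A, hCodd, hBodd, hAodd, by rw [Nf_swap]; exact hN4, rfl⟩
    simp only [exc, Finset.mem_insert, Finset.mem_singleton, Prod.mk.injEq] at hmem
    simp only [twelve, Finset.mem_insert, Finset.mem_singleton, Prod.mk.injEq]
    rcases hmem with ⟨g1, g2⟩ | ⟨g1, g2⟩ | ⟨g1, g2⟩ | ⟨g1, g2⟩ | ⟨g1, g2⟩ | ⟨g1, g2⟩ <;>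
      (have hm2 : (-m)*(-m) = _ := congrArg (fun t : ℤ => t*t) g1
       have hm3 : (-m)*(-m) = m^2 := by ring
       rw [hm3] at hm2
       omega)

/-- Criterion for NRS. -/
lemma isNRS_of {m n : ℤ} (h1 : (1:ℤ)^3 - (2*n+2)*1^2 - 2*m*1 - 1 ≠ 0)
    (hm1 : (-1:ℤ)^3 - (2*n+2)*(-1)^2 - 2*m*(-1) - 1 ≠ 0) {lo hi : ℝ} (hlo : 0 < lo)
    (hle : lo ≤ hi) (p0 : lo^3 - (2*n+2)*lo^2 - 2*m*lo - 1 ≤ 0)
    (p1 : 0 ≤ hi^3 - (2*n+2)*hi^2 - 2*m*hi - 1)
    (hE : ∀ x : ℝ, lo ≤ x → x ≤ hi → x*((2*n+2) - x)^2 < 4) : IsNRS (M m n) := by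
  constructor
  · have hdeg : ((M m n).charpoly.map (Int.castRingHom ℚ)).natDegree = 3 := by
      rw [(monic_M m n).natDegree_map, natDegree_M]
    apply irreducible_of_degree_le_three_of_not_isRoot
    · rw [hdeg]; decide
    · intro r hr
      have haev : aeval r (M m n).charpoly = 0 := by
        rw [IsRoot.def, eval_map] at hr
        rw [aeval_def]
        convert! hr using 2
      obtain ⟨e, he, hdvd⟩ := exists_integer_of_is_root_of_monic (monic_M m n) haev
      have hc0 : (M m n).charpoly.coeff 0 = -1 := by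
        rw [charpoly_M]; simp
      rw [hc0] at hdvd
      have he1 : e = 1 ∨ e = -1 := by
        have h2 : e ∣ 1 := (dvd_neg).mp hdvd
        exact Int.isUnit_iff.mp (isUnit_of_dvd_one h2)
      have h3 : (e:ℤ)^3 - (2*n+2)*e^2 - 2*m*e - 1 = 0 := by
        have h4 := haev
        rw [he, charpoly_M] at h4
        simp only [map_sub, map_mul, map_pow, aeval_X, map_one, aeval_C] at h4
        have h5 : (((e:ℤ)^3 - (2*n+2)*e^2 - 2*m*e - 1 : ℤ) : ℚ) = 0 := by
          push_cast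
          simpa using h4
        exact_mod_cast h5
      rcases he1 with rfl | rfl
      · exact h1 h3
      · exact hm1 h3
  · have hcont : ContinuousOn (fun t : ℝ => t^3 - (2*n+2)*t^2 - 2*m*t - 1) (Set.Icc lo hi) := by
      fun_prop
    obtain ⟨x, ⟨hx1, hx2⟩, hx⟩ := intermediate_value_Icc hle hcont ⟨p0, p1⟩
    simp only at hx
    have hxpos : 0 < x := by linarith
    have hEx := hE x hx1 hx2
    set S : ℝ := (2*n+2) - x with hS
    set T : ℝ := 1/x with hT
    have hxT : x*T = 1 := by rw [hT]; field_simp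
    have hpos : 0 < 4*T - S^2 := by
      have h2 : x*(4*T - S^2) = 4 - x*S^2 := by
        have : x*(4*T - S^2) = 4*(x*T) - x*S^2 := by ring
        rw [this, hxT]; ring
      have h3 : 0 < x*(4*T - S^2) := by rw [h2]; linarith
      exact pos_of_mul_pos_right h3 hxpos.le |>.trans_le le_rfl
    set y : ℝ := Real.sqrt (4*T - S^2) / 2 with hy
    have hypos : 0 < y := by rw [hy]; positivity
    have hy2 : y^2 = (4*T - S^2)/4 := by
      rw [hy, div_pow, Real.sq_sqrt hpos.le]; norm_num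
    refine ⟨x, ⟨S/2, y⟩, hypos.ne', ?_⟩
    set z : ℂ := ⟨S/2, y⟩ with hz
    have hs : z + starRingEnd ℂ z = (S : ℂ) := by
      rw [Complex.add_conj]; norm_cast; rw [hz]; ring
    have hp : z * starRingEnd ℂ z = (T : ℂ) := by
      rw [Complex.mul_conj]
      norm_cast
      rw [hz, Complex.normSq_mk]
      nlinarith
    rw [charpoly_M]
    have hfac2 : (X - C z) * (X - C (starRingEnd ℂ z)) = X^2 - C (S:ℂ) * X + C (T:ℂ) := by
      rw [← hs, ← hp, C_add, C_mul]; ring
    rw [mul_assoc, hfac2]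
    have e1 : ((2*n+2 : ℤ) : ℂ) = (x:ℂ) + (S:ℂ) := by
      have : ((2*n+2 : ℤ) : ℝ) = x + S := by rw [hS]; push_cast; ring
      exact_mod_cast this
    have e2 : ((2*m : ℤ) : ℂ) = -((x:ℂ)*(S:ℂ) + (T:ℂ)) := by
      have h6 : ((2*m : ℤ) : ℝ) = -(x*S + T) := by
        have h7 : x*((2*m : ℤ) : ℝ) = x*(-(x*S + T)) := by
          push_cast
          rw [hS]
          linear_combination -hx + hxT
        exact mul_left_cancel₀ hxpos.ne' h7
      exact_mod_cast h6
    have e3 : (C ((x:ℂ)*(T:ℂ)) : ℂ[X]) = 1 := by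
      have : (x:ℂ)*(T:ℂ) = 1 := by exact_mod_cast hxT
      rw [this, C_1]
    simp only [Polynomial.map_sub, Polynomial.map_mul, Polynomial.map_pow, Polynomial.map_X,
      Polynomial.map_one, Polynomial.map_C, Int.coe_castRingHom]
    rw [e1, e2]
    simp only [C_add, C_mul, C_neg] at e3 ⊢
    linear_combination e3

lemma not_reduced_of {m n : ℤ} (v : Fin 3 → ℤ) (hv : v ≠ 0)
    (h : |Nf (2*n+2) (-2*m) (2*v 0 - v 2) (2*v 1 - v 2) (v 2)| = 4) :
    ¬ IsReduced (M m n) := by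
  intro hR
  have h1 := hR v hv
  rw [Delta_e1] at h1
  have h2 := four_Delta m n v
  rw [h] at h2
  omega

end Pool.Agent.R989.Hess
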