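import Mathlib

open MeasureTheory Set Topology Filter
open scoped Pointwise

namespace Pool.Agent.R989.CHull

/-- The closed convex hull of the coordinate half-lines `{t e_i : t ≤ x_i}`. -/
def coordHull {ι : Type} [DecidableEq ι] (x : ι → ℝ) : Set (ι → ℝ) :=
  closure (convexHull ℝ {y | ∃ i : ι, ∃ t : ℝ, t ≤ x i ∧ y = Pi.single i t})

/-- The σ-algebra on the subsets of `E` generated by the sets `{F | F ∩ K ≠ ∅}`, `K` compact. -/
@[reducible] def hitSigma (E : Type) [TopologicalSpace E] : MeasurableSpace (Set E) :=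
  MeasurableSpace.generateFrom
    {𝒜 | ∃ K : Set E, IsCompact K ∧ 𝒜 = {F : Set E | (F ∩ K).Nonempty}}

/-- Equality in distribution of two random closed sets. -/
def SameLaw {E Ω Ω' : Type} [TopologicalSpace E] [MeasurableSpace Ω] [MeasurableSpace Ω']
    (P : Measure Ω) (X : Ω → Set E) (P' : Measure Ω') (X' : Ω' → Set E) : Prop :=
  ∀ 𝒜 : Set (Set E), MeasurableSet[hitSigma E] 𝒜 → P (X ⁻¹' 𝒜) = P' (X' ⁻¹' 𝒜)

/-- Convex-stability of a random closed convex set `X` defined on the probability space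
`(Ω, P)`. -/
def ConvexStable {E Ω : Type} [TopologicalSpace E] [AddCommGroup E] [Module ℝ E]
    [MeasurableSpace Ω] (P : Measure Ω) (X : Ω → Set E) : Prop :=
  ∀ n : ℕ, 1 ≤ n → ∃ a : ℝ, 0 < a ∧ ∃ K : Set E, IsCompact K ∧ Convex ℝ K ∧ K.Nonempty ∧
    SameLaw P (fun ω => a • X ω) (Measure.pi fun _ : Fin n => P)
      (fun ω => closure (convexHull ℝ (⋃ j, X (ω j))) + K)

variable {ι : Type} [Fintype ι] [DecidableEq ι]

/-- explicit form of the hull -/
def cH (x : ι → ℝ) : Set (ι → ℝ) :=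
  {y | ∃ lam ∈ stdSimplex ℝ ι, ∀ i, y i ≤ lam i * x i}

omit [DecidableEq ι] in
lemma isClosed_cH (x : ι → ℝ) : IsClosed (cH x) := by
  have h : cH x = Prod.snd '' {p : (stdSimplex ℝ ι) × (ι → ℝ) |
      ∀ i, p.2 i ≤ (p.1 : ι → ℝ) i * x i} := by
    ext y; constructor
    · rintro ⟨l, hl, h⟩; exact ⟨(⟨l, hl⟩, y), h, rfl⟩
    · rintro ⟨⟨l, y'⟩, h, rfl⟩; exact ⟨l.1, l.2, h⟩
  rw [h]
  apply isClosedMap_snd_of_compactSpace
  simp only [ofPred_forall]
  refine isClosed_iInter fun i => isClosed_le ?_ ?_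
  · exact (continuous_apply i).comp continuous_snd
  · exact ((continuous_apply i).comp (continuous_subtype_val.comp continuous_fst)).mul
      continuous_const

omit [DecidableEq ι] in
lemma isClosed_hit {K : Set (ι → ℝ)} (hK : IsCompact K) :
    IsClosed {x : ι → ℝ | (cH x ∩ K).Nonempty} := by
  have h : {x : ι → ℝ | (cH x ∩ K).Nonempty} = Prod.snd ''
      {p : ((stdSimplex ℝ ι) × K) × (ι → ℝ) |
      ∀ i, (p.1.2 : ι → ℝ) i ≤ (p.1.1 : ι → ℝ) i * p.2 i} := by
    ext x; constructor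
    · rintro ⟨y, ⟨l, hl, h⟩, hy⟩; exact ⟨((⟨l, hl⟩, ⟨y, hy⟩), x), h, rfl⟩
    · rintro ⟨⟨⟨l, y⟩, x'⟩, h, rfl⟩; exact ⟨y.1, ⟨l.1, l.2, h⟩, y.2⟩
  rw [h]
  have : CompactSpace K := isCompact_iff_compactSpace.mp hK
  apply isClosedMap_snd_of_compactSpace
  simp only [ofPred_forall]
  refine isClosed_iInter fun i => isClosed_le ?_ ?_
  · exact (continuous_apply i).comp (continuous_subtype_val.comp
      (continuous_snd.comp continuous_fst))
  · exact ((continuous_apply i).comp (continuous_subtype_val.comp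
      (continuous_fst.comp continuous_fst))).mul ((continuous_apply i).comp continuous_snd)

omit [DecidableEq ι] in
lemma measurable_cH : @Measurable _ _ _ (hitSigma (ι → ℝ)) (cH : (ι → ℝ) → Set (ι → ℝ)) := by
  apply measurable_generateFrom
  rintro _ ⟨K, hK, rfl⟩
  exact (isClosed_hit hK).measurableSet

omit [DecidableEq ι] in
lemma convex_cH (x : ι → ℝ) : Convex ℝ (cH x) := by
  rintro y ⟨l, hl, h⟩ z ⟨m, hm, h'⟩ a b ha hb hab
  refine ⟨a • l + b • m, convex_stdSimplex ℝ _ hl hm ha hb hab, fun i => ?_⟩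
  have h1 := mul_le_mul_of_nonneg_left (h i) ha
  have h2 := mul_le_mul_of_nonneg_left (h' i) hb
  simp only [Pi.add_apply, Pi.smul_apply, smul_eq_mul]
  nlinarith

omit [DecidableEq ι] in
lemma cH_mono {x x' : ι → ℝ} (h : x ≤ x') : cH x ⊆ cH x' := by
  rintro y ⟨l, hl, hy⟩
  exact ⟨l, hl, fun i => (hy i).trans (mul_le_mul_of_nonneg_left (h i) (hl.1 i))⟩

lemma single_mem_cH {x : ι → ℝ} {i : ι} {t : ℝ} (h : t ≤ x i) :
    (Pi.single i t : ι → ℝ) ∈ cH x := by
  refine ⟨Pi.single i 1, single_mem_stdSimplex ℝ i, fun k => ?_⟩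
  by_cases hk : k = i
  · subst hk; simpa using h
  · simp [hk]

lemma coordHull_eq [Nonempty ι] (x : ι → ℝ) : coordHull x = cH x := by
  apply Subset.antisymm
  · refine closure_minimal (convexHull_min ?_ (convex_cH x)) (isClosed_cH x)
    rintro y ⟨i, t, ht, rfl⟩
    exact single_mem_cH ht
  · rintro y ⟨l, hl, hy⟩
    have hcard : (0 : ℝ) < Fintype.card ι := by exact_mod_cast Fintype.card_pos
    set L : ℕ → ι → ℝ := fun n i => (1 - 1 / ((n : ℝ) + 1)) * l i +
      1 / ((n : ℝ) + 1) * (1 / Fintype.card ι) with hL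
    set Y : ℕ → ι → ℝ := fun n i => min (y i) (L n i * x i) with hY
    have hLpos : ∀ n i, 0 < L n i := by
      intro n i
      have h1 : (0 : ℝ) < 1 / ((n : ℝ) + 1) := by positivity
      have h2 : 1 / ((n : ℝ) + 1) ≤ 1 := by
        rw [div_le_one (by positivity)]; linarith [(Nat.cast_nonneg n : (0 : ℝ) ≤ n)]
      have h3 : 0 ≤ (1 - 1 / ((n : ℝ) + 1)) * l i := mul_nonneg (by linarith) (hl.1 i)
      have h4 : 0 < 1 / ((n : ℝ) + 1) * (1 / (Fintype.card ι : ℝ)) := by positivity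
      show 0 < (1 - 1 / ((n : ℝ) + 1)) * l i + 1 / ((n : ℝ) + 1) * (1 / Fintype.card ι)
      linarith
    have hLsum : ∀ n, ∑ i, L n i = 1 := by
      intro n
      simp only [hL]
      rw [Finset.sum_add_distrib, ← Finset.mul_sum, hl.2, Finset.sum_const, Finset.card_univ,
        nsmul_eq_mul]
      field_simp
      ring
    have hLlim : ∀ i, Tendsto (fun n => L n i) atTop (𝓝 (l i)) := by
      intro i
      have h0 := tendsto_one_div_add_atTop_nhds_zero_nat (𝕜 := ℝ)
      have := (((tendsto_const_nhds (x := (1 : ℝ))).sub h0).mul_const (l i)).add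
        (h0.mul_const (1 / (Fintype.card ι : ℝ)))
      simpa [hL] using this
    have hYlim : Tendsto Y atTop (𝓝 y) := by
      rw [tendsto_pi_nhds]
      intro i
      have := (tendsto_const_nhds (x := y i)).min ((hLlim i).mul_const (x i))
      rwa [min_eq_left (hy i)] at this
    refine mem_closure_of_tendsto hYlim (Eventually.of_forall fun n => ?_)
    have hsum : Y n = ∑ i, L n i • (Pi.single i (Y n i / L n i) : ι → ℝ) := by
      funext k
      rw [Finset.sum_apply]
      simp only [Pi.smul_apply, smul_eq_mul]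
      rw [Finset.sum_eq_single k]
      · rw [Pi.single_eq_same]; field_simp [(hLpos n k).ne']
      · intro b _ hb; rw [Pi.single_eq_of_ne hb.symm]; simp
      · simp
    rw [hsum]
    refine (convex_convexHull ℝ _).sum_mem (fun i _ => (hLpos n i).le) (hLsum n) (fun i _ => ?_)
    apply subset_convexHull
    refine ⟨i, _, ?_, rfl⟩
    rw [div_le_iff₀ (hLpos n i), mul_comm]
    exact min_le_right _ _

omit [DecidableEq ι] in
lemma smul_cH {a : ℝ} (ha : 0 < a) (x : ι → ℝ) : a • cH x = cH (a • x) := by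
  ext y
  rw [mem_smul_set_iff_inv_smul_mem₀ ha.ne']
  constructor
  · rintro ⟨l, hl, h⟩
    refine ⟨l, hl, fun i => ?_⟩
    have := mul_le_mul_of_nonneg_left (h i) ha.le
    simp only [Pi.smul_apply, smul_eq_mul] at this ⊢
    rw [mul_inv_cancel_left₀ ha.ne'] at this
    linarith
  · rintro ⟨l, hl, h⟩
    refine ⟨l, hl, fun i => ?_⟩
    have := mul_le_mul_of_nonneg_left (h i) (inv_pos.mpr ha).le
    simp only [Pi.smul_apply, smul_eq_mul] at this ⊢
    calc a⁻¹ * y i ≤ a⁻¹ * (l i * (a * x i)) := this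
      _ = l i * x i := by field_simp

/-- coordinatewise maximum of finitely many vectors -/
noncomputable def mx {κ : Type} (w : κ → ι → ℝ) : ι → ℝ := fun i => ⨆ j, w j i

lemma hull_union [Nonempty ι] {κ : Type} [Finite κ] [Nonempty κ] (w : κ → ι → ℝ) :
    closure (convexHull ℝ (⋃ j, cH (w j))) = cH (mx w) := by
  apply Subset.antisymm
  · refine closure_minimal (convexHull_min (iUnion_subset fun j => cH_mono fun i => ?_)
      (convex_cH _)) (isClosed_cH _)
    exact le_ciSup (f := fun j => w j i) (Set.finite_range _).bddAbove j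
  · rw [← coordHull_eq]
    refine closure_mono (convexHull_mono ?_)
    rintro y ⟨i, t, ht, rfl⟩
    obtain ⟨j, hj⟩ := exists_eq_ciSup_of_finite (f := fun j => w j i)
    refine mem_iUnion.mpr ⟨j, single_mem_cH ?_⟩
    rw [mx, ← hj] at ht
    exact ht

/-- linear functional with natural coefficients -/
def lin (u : ι → ℕ) (y : ι → ℝ) : ℝ := ∑ i, (u i : ℝ) * y i

/-- support function of the hull in a direction with natural coefficients -/
noncomputable def phi (u : ι → ℕ) (x : ι → ℝ) : ℝ := ⨆ i, (u i : ℝ) * x i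

omit [DecidableEq ι] in
lemma le_phi (u : ι → ℕ) (x : ι → ℝ) (i : ι) : (u i : ℝ) * x i ≤ phi u x :=
  le_ciSup (f := fun i => (u i : ℝ) * x i) (Set.finite_range _).bddAbove i

omit [DecidableEq ι] in
lemma phi_le [Nonempty ι] {u : ι → ℕ} {x : ι → ℝ} {t : ℝ} (h : ∀ i, (u i : ℝ) * x i ≤ t) :
    phi u x ≤ t := ciSup_le h

omit [DecidableEq ι] in
lemma exists_phi [Nonempty ι] (u : ι → ℕ) (x : ι → ℝ) : ∃ i, phi u x = (u i : ℝ) * x i := by
  obtain ⟨i, hi⟩ := exists_eq_ciSup_of_finite (f := fun i => (u i : ℝ) * x i)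
  exact ⟨i, hi.symm⟩

omit [DecidableEq ι] in
lemma lin_le_phi {u : ι → ℕ} {x y : ι → ℝ} (hy : y ∈ cH x) : lin u y ≤ phi u x := by
  obtain ⟨l, hl, h⟩ := hy
  calc lin u y ≤ ∑ i, l i * phi u x := by
        refine Finset.sum_le_sum fun i _ => ?_
        have h1 := mul_le_mul_of_nonneg_left (h i) (Nat.cast_nonneg (α := ℝ) (u i))
        have h2 := mul_le_mul_of_nonneg_left (le_phi u x i) (hl.1 i)
        linarith
    _ = phi u x := by rw [← Finset.sum_mul, hl.2, one_mul]

lemma exists_lin_eq_phi [Nonempty ι] (u : ι → ℕ) (x : ι → ℝ) : ∃ y ∈ cH x, lin u y = phi u x := by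
  obtain ⟨i, hi⟩ := exists_phi u x
  refine ⟨Pi.single i (x i), single_mem_cH le_rfl, ?_⟩
  rw [hi, lin, Finset.sum_eq_single i]
  · simp
  · intro b _ hb; simp [hb]
  · simp

end Pool.Agent.R989.CHull
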