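import Pool.Agent.R989.HullA

open MeasureTheory Set Topology Filter
open scoped Pointwise

namespace Pool.Agent.R989.CHull

variable {ι : Type} [Fintype ι] [DecidableEq ι]

/-- support function of a compact convex set -/
noncomputable def hK (K : Set (ι → ℝ)) (u : ι → ℕ) : ℝ := sSup (lin u '' K)

omit [DecidableEq ι] in
lemma continuous_lin (u : ι → ℕ) : Continuous (lin u) := by
  unfold lin; fun_prop

omit [DecidableEq ι] in
lemma le_hK {K : Set (ι → ℝ)} (hc : IsCompact K) {y : ι → ℝ} (hy : y ∈ K) (u : ι → ℕ) :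
    lin u y ≤ hK K u :=
  le_csSup (hc.image (continuous_lin u)).bddAbove (mem_image_of_mem _ hy)

omit [DecidableEq ι] in
lemma exists_hK {K : Set (ι → ℝ)} (hc : IsCompact K) (hne : K.Nonempty) (u : ι → ℕ) :
    ∃ y ∈ K, lin u y = hK K u := by
  obtain ⟨y, hy, h⟩ := (hc.image (continuous_lin u)).sSup_mem (hne.image _)
  exact ⟨y, hy, h⟩

omit [DecidableEq ι] in
lemma lin_add (u v : ι → ℕ) (y : ι → ℝ) : lin (u + v) y = lin u y + lin v y := by
  simp only [lin, Pi.add_apply, Nat.cast_add, add_mul, Finset.sum_add_distrib]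

omit [DecidableEq ι] in
lemma lin_add_right (u : ι → ℕ) (y z : ι → ℝ) : lin u (y + z) = lin u y + lin u z := by
  simp only [lin, Pi.add_apply, mul_add, Finset.sum_add_distrib]

omit [DecidableEq ι] in
lemma hK_add {K : Set (ι → ℝ)} (hc : IsCompact K) (hne : K.Nonempty) (u v : ι → ℕ) :
    hK K (u + v) ≤ hK K u + hK K v := by
  obtain ⟨y, hy, h⟩ := exists_hK hc hne (u + v)
  rw [← h, lin_add]
  exact add_le_add (le_hK hc hy u) (le_hK hc hy v)

lemma sum_le_iff [Nonempty ι] {m : ι → ℝ} {K : Set (ι → ℝ)} (hc : IsCompact K)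
    (hne : K.Nonempty) {u : ι → ℕ} {t : ℝ} :
    (∀ z ∈ cH m + K, lin u z ≤ t) ↔ phi u m + hK K u ≤ t := by
  constructor
  · intro h
    obtain ⟨y, hy, h1⟩ := exists_lin_eq_phi u m
    obtain ⟨z, hz, h2⟩ := exists_hK hc hne u
    rw [← h1, ← h2, ← lin_add_right]
    exact h _ (add_mem_add hy hz)
  · rintro h _ ⟨y, hy, z, hz, rfl⟩
    show lin u (y + z) ≤ t
    rw [lin_add_right]
    exact (add_le_add (lin_le_phi hy) (le_hK hc hz u)).trans h

lemma cH_le_iff [Nonempty ι] {m : ι → ℝ} {u : ι → ℕ} {t : ℝ} :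
    (∀ z ∈ cH m, lin u z ≤ t) ↔ phi u m ≤ t := by
  constructor
  · intro h
    obtain ⟨y, hy, h1⟩ := exists_lin_eq_phi u m
    rw [← h1]
    exact h _ hy
  · intro h y hy
    exact (lin_le_phi hy).trans h

/-- finite union of half-spaces -/
def Uset (F : Finset (ι → ℕ)) (t : (ι → ℕ) → ℝ) : Set (ι → ℝ) := {y | ∃ u ∈ F, t u < lin u y}

omit [DecidableEq ι] in
lemma measurable_hit (F : Finset (ι → ℕ)) (t : (ι → ℕ) → ℝ) :
    MeasurableSet[hitSigma (ι → ℝ)] {G : Set (ι → ℝ) | (G ∩ Uset F t).Nonempty} := by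
  set Km : ℕ → Set (ι → ℝ) := fun m => Metric.closedBall 0 (m : ℝ) ∩
    ⋃ u ∈ F, {y | t u + 1 / ((m : ℝ) + 1) ≤ lin u y} with hKm
  have hcomp : ∀ m, IsCompact (Km m) := by
    intro m
    refine (isCompact_closedBall _ _).inter_right ?_
    exact isClosed_biUnion_finset fun u _ => isClosed_le continuous_const (continuous_lin u)
  have h : {G : Set (ι → ℝ) | (G ∩ Uset F t).Nonempty} =
      ⋃ m, {G : Set (ι → ℝ) | (G ∩ Km m).Nonempty} := by
    ext G
    simp only [mem_iUnion, mem_ofPred_eq]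
    constructor
    · rintro ⟨y, hy, u, hu, hlt⟩
      obtain ⟨m1, hm1⟩ := exists_nat_one_div_lt (sub_pos.mpr hlt)
      obtain ⟨m2, hm2⟩ := exists_nat_ge ‖y‖
      refine ⟨max m1 m2, y, hy, ?_, ?_⟩
      · rw [mem_closedBall_zero_iff]
        exact hm2.trans (by exact_mod_cast le_max_right _ _)
      · refine mem_biUnion (x := u) hu ?_
        have : (1 : ℝ) / (((max m1 m2 : ℕ) : ℝ) + 1) ≤ 1 / ((m1 : ℝ) + 1) := by
          apply one_div_le_one_div_of_le (by positivity)
          have : (m1 : ℝ) ≤ ((max m1 m2 : ℕ) : ℝ) := by exact_mod_cast le_max_left _ _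
          linarith
        show t u + 1 / (((max m1 m2 : ℕ) : ℝ) + 1) ≤ lin u y
        linarith
    · rintro ⟨m, y, hy, _, hy2⟩
      obtain ⟨u, hu, h⟩ := mem_iUnion₂.mp hy2
      refine ⟨y, hy, u, hu, ?_⟩
      have h1 : (0 : ℝ) < 1 / ((m : ℝ) + 1) := by positivity
      have h2 : t u + 1 / ((m : ℝ) + 1) ≤ lin u y := h
      linarith
  rw [h]
  exact MeasurableSet.iUnion fun m => MeasurableSpace.measurableSet_generateFrom ⟨_, hcomp m, rfl⟩

/-- a probability measure on a countable product of copies of `ℝ` is determined by the finite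
dimensional distribution functions -/
lemma ext_Iic {S : Type} [Countable S] (P Q : Measure (S → ℝ)) [IsProbabilityMeasure P]
    [IsProbabilityMeasure Q]
    (h : ∀ (F : Finset S) (t : S → ℝ), P {f | ∀ u ∈ F, f u ≤ t u} = Q {f | ∀ u ∈ F, f u ≤ t u}) :
    P = Q := by
  classical
  set 𝒞 : Set (Set (S → ℝ)) := {A | ∃ (F : Finset S) (t : S → ℝ),
    A = {f : S → ℝ | ∀ u ∈ F, f u ≤ t u}} with h𝒞
  refine ext_of_generate_finite 𝒞 ?_ ?_ ?_ (by simp)
  · apply le_antisymm
    · refine iSup_le fun u => ?_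
      rw [← measurable_iff_comap_le]
      refine @measurable_of_Iic ℝ (S → ℝ) _ _ _ (MeasurableSpace.generateFrom 𝒞) _ _ _ _ fun t => ?_
      apply MeasurableSpace.measurableSet_generateFrom
      refine ⟨{u}, fun _ => t, ?_⟩
      ext f; simp
    · apply MeasurableSpace.generateFrom_le
      rintro _ ⟨F, t, rfl⟩
      have : {f : S → ℝ | ∀ u ∈ F, f u ≤ t u} = ⋂ u ∈ F, (fun f : S → ℝ => f u) ⁻¹' Iic (t u) := by
        ext f; simp
      rw [this]
      exact MeasurableSet.biInter (Finset.countable_toSet F) fun u _ =>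
        (measurable_pi_apply u) measurableSet_Iic
  · rintro _ ⟨F, t, rfl⟩ _ ⟨F', t', rfl⟩ _
    refine ⟨F ∪ F', fun u => if u ∈ F then (if u ∈ F' then min (t u) (t' u) else t u) else t' u,
      ?_⟩
    ext f
    simp only [mem_inter_iff, mem_ofPred_eq, Finset.mem_union]
    constructor
    · rintro ⟨h1, h2⟩ u hu
      by_cases hF : u ∈ F
      · by_cases hF' : u ∈ F'
        · simp only [hF, hF', if_true]; exact le_min (h1 u hF) (h2 u hF')
        · simp only [hF, hF', if_true, if_false]; exact h1 u hF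
      · simp only [hF, if_false]; exact h2 u (hu.resolve_left hF)
    · intro h1
      refine ⟨fun u hu => ?_, fun u hu => ?_⟩
      · have := h1 u (Or.inl hu)
        by_cases hF' : u ∈ F'
        · simp only [hu, hF', if_true] at this; exact this.trans (min_le_left _ _)
        · simpa only [hu, hF', if_true, if_false] using this
      · have := h1 u (Or.inr hu)
        by_cases hF : u ∈ F
        · simp only [hu, hF, if_true] at this; exact this.trans (min_le_right _ _)
        · simpa only [hF, if_false] using this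
  · rintro _ ⟨F, t, rfl⟩
    exact h F t

omit [DecidableEq ι] in
lemma measurable_phi (u : ι → ℕ) : Measurable (phi u) := by
  unfold phi
  exact Measurable.iSup fun i => measurable_const.mul (measurable_pi_apply i)

omit [Fintype ι] [DecidableEq ι] in
lemma measurable_mx {n : ℕ} : Measurable (mx : (Fin n → ι → ℝ) → (ι → ℝ)) := by
  unfold mx
  exact measurable_pi_lambda _ fun i => Measurable.iSup fun j =>
    (measurable_pi_apply i).comp (measurable_pi_apply j)

omit [Fintype ι] [DecidableEq ι] in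
lemma mx_le_iff {n : ℕ} (hn : 1 ≤ n) (w : Fin n → ι → ℝ) (i : ι) (t : ℝ) :
    mx w i ≤ t ↔ ∀ j, w j i ≤ t := by
  have : Nonempty (Fin n) := ⟨⟨0, hn⟩⟩
  exact ciSup_le_iff (Set.finite_range _).bddAbove

omit [Fintype ι] [DecidableEq ι] in
lemma mx_lt_iff {n : ℕ} (hn : 1 ≤ n) (w : Fin n → ι → ℝ) (i : ι) (t : ℝ) :
    mx w i < t ↔ ∀ j, w j i < t := by
  have : Nonempty (Fin n) := ⟨⟨0, hn⟩⟩
  constructor
  · intro h j
    exact (le_ciSup (f := fun j => w j i) (Set.finite_range _).bddAbove j).trans_lt h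
  · intro h
    obtain ⟨j, hj⟩ := exists_eq_ciSup_of_finite (f := fun j => w j i)
    show (⨆ j, w j i) < t
    rw [← hj]; exact h j

/-- the joint laws of the support functions agree -/
theorem PL [Nonempty ι] {μ : Measure (ι → ℝ)} [IsProbabilityMeasure μ] {n : ℕ} (hn : 1 ≤ n)
    {a : ℝ} (ha : 0 < a) {K : Set (ι → ℝ)} (hc : IsCompact K) (hne : K.Nonempty)
    (h : SameLaw μ (fun x => a • coordHull x) (Measure.pi fun _ : Fin n => μ)
      (fun w => closure (convexHull ℝ (⋃ j, coordHull (w j))) + K))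
    {C : Set ((ι → ℕ) → ℝ)} (hC : MeasurableSet C) :
    μ {x | (fun u => phi u (a • x)) ∈ C} =
      (Measure.pi fun _ : Fin n => μ) {w | (fun u => phi u (mx w) + hK K u) ∈ C} := by
  have : Nonempty (Fin n) := ⟨⟨0, hn⟩⟩
  have hm1 : Measurable (fun (x : ι → ℝ) (u : ι → ℕ) => phi u (a • x)) :=
    measurable_pi_lambda _ fun u => (measurable_phi u).comp (measurable_const_smul a)
  have hm2 : Measurable (fun (w : Fin n → ι → ℝ) (u : ι → ℕ) => phi u (mx w) + hK K u) :=
    measurable_pi_lambda _ fun u => ((measurable_phi u).comp measurable_mx).add_const _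
  have key : μ.map (fun (x : ι → ℝ) (u : ι → ℕ) => phi u (a • x)) =
      (Measure.pi fun _ : Fin n => μ).map
        (fun (w : Fin n → ι → ℝ) (u : ι → ℕ) => phi u (mx w) + hK K u) := by
    have := Measure.isProbabilityMeasure_map (μ := μ) hm1.aemeasurable
    have := Measure.isProbabilityMeasure_map (μ := (Measure.pi fun _ : Fin n => μ))
      hm2.aemeasurable
    apply ext_Iic
    intro F t
    have hms : MeasurableSet {f : (ι → ℕ) → ℝ | ∀ u ∈ F, f u ≤ t u} := by
      have : {f : (ι → ℕ) → ℝ | ∀ u ∈ F, f u ≤ t u} =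
          ⋂ u ∈ F, (fun f : (ι → ℕ) → ℝ => f u) ⁻¹' Iic (t u) := by
        ext f; simp
      rw [this]
      exact MeasurableSet.biInter (Finset.countable_toSet F) fun u _ =>
        (measurable_pi_apply u) measurableSet_Iic
    rw [Measure.map_apply hm1 hms, Measure.map_apply hm2 hms]
    have h1 := h _ (measurable_hit F t).compl
    convert! h1 using 2
    · ext x
      simp only [mem_preimage, mem_ofPred_eq, mem_compl_iff]
      rw [coordHull_eq, smul_cH ha]
      constructor
      · rintro h2 ⟨y, hy, u, hu, hlt⟩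
        exact absurd ((lin_le_phi hy).trans (h2 u hu)) (not_le.mpr hlt)
      · intro h2 u hu
        rw [← cH_le_iff]
        intro z hz
        by_contra hlt
        exact h2 ⟨z, hz, u, hu, not_le.mp hlt⟩
    · ext w
      simp only [mem_preimage, mem_ofPred_eq, mem_compl_iff]
      have h3 : closure (convexHull ℝ (⋃ j, coordHull (w j))) = cH (mx w) := by
        rw [← hull_union]; simp only [coordHull_eq]
      rw [h3]
      constructor
      · rintro h2 ⟨y, hy, u, hu, hlt⟩
        exact absurd ((sum_le_iff hc hne).mpr (h2 u hu) y hy) (not_le.mpr hlt)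
      · intro h2 u hu
        rw [← sum_le_iff hc hne]
        intro z hz
        by_contra hlt
        exact h2 ⟨z, hz, u, hu, not_le.mp hlt⟩
  have h1 := congrArg (fun P => P C) key
  rwa [Measure.map_apply hm1 hC, Measure.map_apply hm2 hC] at h1

end Pool.Agent.R989.CHull
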