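import Mathlib

open MeasureTheory Set Topology Filter

namespace Pool.Agent.R989.CHull

lemma exists_nat_ratio {x y : ℝ} (hx : 0 ≤ x) (hxy : x < y) :
    ∃ p q : ℕ, 1 ≤ p ∧ 1 ≤ q ∧ x < (q : ℝ) / p ∧ (q : ℝ) / p < y := by
  obtain ⟨r, h1, h2⟩ := exists_rat_btwn hxy
  have hr : (0 : ℝ) < r := hx.trans_lt h1
  have hr' : (0 : ℚ) < r := by exact_mod_cast hr
  have hnum : 0 < r.num := Rat.num_pos.mpr hr'
  have hcast : ((r.num.toNat : ℕ) : ℝ) = (r.num : ℝ) := by
    have : ((r.num.toNat : ℕ) : ℤ) = r.num := Int.toNat_of_nonneg hnum.le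
    exact_mod_cast this
  have hr2 : (r : ℝ) = (r.num.toNat : ℝ) / (r.den : ℝ) := by
    rw [hcast]; exact_mod_cast (Rat.num_div_den r).symm
  refine ⟨r.den, r.num.toNat, r.den_pos, by omega, ?_, ?_⟩
  · rw [← hr2]; exact h1
  · rw [← hr2]; exact h2

lemma kink_core {A B A' B' : ℝ} {h : ℕ → ℕ → ℝ}
    (hsub : ∀ p q p' q' : ℕ, 1 ≤ p → 1 ≤ q → 1 ≤ p' → 1 ≤ q' →
      h (p + p') (q + q') ≤ h p q + h p' q')
    (hf : ∀ p q : ℕ, 1 ≤ p → 1 ≤ q →
      max ((p : ℝ) * A) (q * B) + h p q = max ((p : ℝ) * A') (q * B'))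
    {p q p' q' : ℕ} (hp : 1 ≤ p) (hq : 1 ≤ q) (hp' : 1 ≤ p') (hq' : 1 ≤ q')
    (h1 : (q : ℝ) * B < p * A) (h2 : (p' : ℝ) * A < q' * B)
    (h3 : ((q : ℝ) * B' ≤ p * A' ∧ (q' : ℝ) * B' ≤ p' * A') ∨
      ((p : ℝ) * A' ≤ q * B' ∧ (p' : ℝ) * A' ≤ q' * B')) : False := by
  have e1 := hf p q hp hq
  have e2 := hf p' q' hp' hq'
  have e3 := hf (p + p') (q + q') (by omega) (by omega)
  have e4 := hsub p q p' q' hp hq hp' hq'
  push_cast at e3
  have e5 : max (((p : ℝ) + p') * A) ((q + q') * B) < p * A + q' * B := by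
    apply max_lt <;> nlinarith
  rw [max_eq_left h1.le] at e1
  rw [max_eq_right h2.le] at e2
  rcases h3 with ⟨h4, h5⟩ | ⟨h4, h5⟩
  · rw [max_eq_left h4] at e1
    rw [max_eq_left h5] at e2
    rw [max_eq_left (a := ((p : ℝ) + p') * A') (by nlinarith)] at e3
    linarith
  · rw [max_eq_right h4] at e1
    rw [max_eq_right h5] at e2
    rw [max_eq_right (a := ((p : ℝ) + p') * A') (by nlinarith)] at e3
    linarith

lemma kink {A B A' B' : ℝ} {h : ℕ → ℕ → ℝ}
    (hsub : ∀ p q p' q' : ℕ, 1 ≤ p → 1 ≤ q → 1 ≤ p' → 1 ≤ q' →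
      h (p + p') (q + q') ≤ h p q + h p' q')
    (hf : ∀ p q : ℕ, 1 ≤ p → 1 ≤ q →
      max ((p : ℝ) * A) (q * B) + h p q = max ((p : ℝ) * A') (q * B'))
    (hpos : (0 < A ∧ 0 < B ∧ 0 < A' ∧ 0 < B') ∨ (A < 0 ∧ B < 0 ∧ A' < 0 ∧ B' < 0)) :
    A' * B = A * B' := by
  by_contra hne
  have hB : B ≠ 0 := by rcases hpos with h | h; exacts [h.2.1.ne', h.2.1.ne]
  have hB' : B' ≠ 0 := by rcases hpos with h | h; exacts [h.2.2.2.ne', h.2.2.2.ne]
  have hr : 0 < A / B := by
    rcases hpos with h | h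
    exacts [div_pos h.1 h.2.1, div_pos_of_neg_of_neg h.1 h.2.1]
  have hr' : 0 < A' / B' := by
    rcases hpos with h | h
    exacts [div_pos h.2.2.1 h.2.2.2, div_pos_of_neg_of_neg h.2.2.1 h.2.2.2]
  have hrne : A / B ≠ A' / B' := by
    intro h
    rw [div_eq_div_iff hB hB'] at h
    exact hne h.symm
  -- find the two ratios
  obtain ⟨p, q, p', q', hp, hq, hp', hq', h1, h2, h3⟩ : ∃ p q p' q' : ℕ, 1 ≤ p ∧ 1 ≤ q ∧
      1 ≤ p' ∧ 1 ≤ q' ∧ (q : ℝ) / p < A / B ∧ A / B < (q' : ℝ) / p' ∧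
      (((q : ℝ) / p < A' / B' ∧ (q' : ℝ) / p' < A' / B') ∨
        (A' / B' < (q : ℝ) / p ∧ A' / B' < (q' : ℝ) / p')) := by
    rcases lt_or_gt_of_ne hrne with hlt | hlt
    · obtain ⟨p, q, hp, hq, h1, h2⟩ := exists_nat_ratio le_rfl hr
      obtain ⟨p', q', hp', hq', h3, h4⟩ := exists_nat_ratio hr.le hlt
      exact ⟨p, q, p', q', hp, hq, hp', hq', h2, h3, Or.inl ⟨h2.trans hlt, h4⟩⟩
    · obtain ⟨p, q, hp, hq, h1, h2⟩ := exists_nat_ratio hr'.le hlt
      obtain ⟨p', q', hp', hq', h3, h4⟩ := exists_nat_ratio hr.le (lt_add_one (A / B))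
      exact ⟨p, q, p', q', hp, hq, hp', hq', h2, h3, Or.inr ⟨h1, hlt.trans h3⟩⟩
  have hp0 : (0 : ℝ) < p := by exact_mod_cast hp
  have hp0' : (0 : ℝ) < p' := by exact_mod_cast hp'
  rcases hpos with ⟨hA, hB, hA', hB'⟩ | ⟨hA, hB, hA', hB'⟩
  · rw [div_lt_div_iff₀ hp0 hB] at h1
    rw [div_lt_div_iff₀ hB hp0'] at h2
    refine kink_core hsub hf hp hq hp' hq' (by linarith) (by linarith) ?_
    rcases h3 with ⟨h3, h4⟩ | ⟨h3, h4⟩
    · rw [div_lt_div_iff₀ hp0 hB'] at h3
      rw [div_lt_div_iff₀ hp0' hB'] at h4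
      left; constructor <;> linarith
    · rw [div_lt_div_iff₀ hB' hp0] at h3
      rw [div_lt_div_iff₀ hB' hp0'] at h4
      right; constructor <;> linarith
  · have e : ∀ x y : ℝ, x / y = -x / -y := fun x y => (neg_div_neg_eq x y).symm
    rw [e A B] at h1 h2
    rw [e A' B'] at h3
    have hB : 0 < -B := by linarith
    have hB' : 0 < -B' := by linarith
    rw [div_lt_div_iff₀ hp0 hB] at h1
    rw [div_lt_div_iff₀ hB hp0'] at h2
    refine kink_core hsub hf hp' hq' hp hq (by linarith) (by linarith) ?_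
    rcases h3 with ⟨h3, h4⟩ | ⟨h3, h4⟩
    · rw [div_lt_div_iff₀ hp0 hB'] at h3
      rw [div_lt_div_iff₀ hp0' hB'] at h4
      right; constructor <;> linarith
    · rw [div_lt_div_iff₀ hB' hp0] at h3
      rw [div_lt_div_iff₀ hB' hp0'] at h4
      left; constructor <;> linarith

/-- centering at the lower end point -/
lemma center_inf {S : Set ℝ} (hne : S.Nonempty) (hb : BddBelow S) {a k : ℝ} (ha : 0 < a)
    (h : ∀ s, s - k ∈ S ↔ s / a ∈ S) : k = (a - 1) * sInf S := by
  have h1 : a * sInf S - k ≤ sInf S := by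
    refine le_csInf hne fun t ht => ?_
    have h2 : (t + k) / a ∈ S := (h (t + k)).mp (by simpa using ht)
    have h3 := csInf_le hb h2
    rw [le_div_iff₀ ha] at h3
    linarith
  have h2 : (sInf S + k) / a ≤ sInf S := by
    refine le_csInf hne fun t ht => ?_
    have h2 : a * t - k ∈ S := (h (a * t)).mpr (by rwa [mul_div_cancel_left₀ _ ha.ne'])
    have h3 := csInf_le hb h2
    rw [div_le_iff₀ ha]
    linarith
  rw [div_le_iff₀ ha] at h2
  linarith

/-- centering at the upper end point -/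
lemma center_sup {S : Set ℝ} (hne : S.Nonempty) (hb : BddAbove S) {a k : ℝ} (ha : 0 < a)
    (h : ∀ s, s - k ∈ S ↔ s / a ∈ S) : k = (a - 1) * sSup S := by
  have h1 : sSup S ≤ a * sSup S - k := by
    refine csSup_le hne fun t ht => ?_
    have h2 : (t + k) / a ∈ S := (h (t + k)).mp (by simpa using ht)
    have h3 := le_csSup hb h2
    rw [div_le_iff₀ ha] at h3
    linarith
  have h2 : sSup S ≤ (sSup S + k) / a := by
    refine csSup_le hne fun t ht => ?_
    have h2 : a * t - k ∈ S := (h (a * t)).mpr (by rwa [mul_div_cancel_left₀ _ ha.ne'])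
    have h3 := le_csSup hb h2
    rw [le_div_iff₀ ha]
    linarith
  rw [le_div_iff₀ ha] at h2
  linarith

/-- The scaling functional equation `G(x / a_n) = G(x)^n` on `(0, ∞)`. -/
theorem frechet {G : ℝ → ℝ} {a : ℕ → ℝ} (ha : ∀ n, 1 ≤ n → 0 < a n)
    (hmono : ∀ x y, 0 < x → x ≤ y → G x ≤ G y) (hle : ∀ x, 0 < x → G x ≤ 1)
    (hG : ∀ n, 1 ≤ n → ∀ x, 0 < x → G (x / a n) = G x ^ n)
    {y0 : ℝ} (hy0 : 0 < y0) (hy1 : 0 < G y0) (hy2 : G y0 < 1) :
    ∃ α : ℝ, 0 < α ∧ (∀ n : ℕ, 1 ≤ n → a n = (n : ℝ) ^ (1 / α)) ∧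
      ∃ s : ℝ, 0 < s ∧ ∀ x : ℝ, 0 < x → G x = Real.exp (-(s * x ^ (-α))) := by
  have ha2 : 0 < a 2 := ha 2 (by norm_num)
  have ha2' : 1 < a 2 := by
    by_contra hle'
    push Not at hle'
    have h1 := hG 2 (by norm_num) y0 hy0
    have h2 : y0 ≤ y0 / a 2 := by
      rw [le_div_iff₀ ha2]; nlinarith
    have h3 := hmono y0 _ hy0 h2
    rw [h1] at h3
    nlinarith
  have hit : ∀ (k : ℕ) (x : ℝ), 0 < x → G (x / a 2 ^ k) = G x ^ (2 ^ k) := by
    intro k
    induction k with
    | zero => intro x hx; simp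
    | succ k ih =>
      intro x hx
      have h1 := ih (x / a 2) (div_pos hx ha2)
      rw [hG 2 (by norm_num) x hx] at h1
      rw [pow_succ' (a 2), ← div_div, h1, ← pow_mul, pow_succ' 2]
  have hGpos : ∀ x, 0 < x → 0 < G x := by
    intro x hx
    obtain ⟨k, hk⟩ := pow_unbounded_of_one_lt (y0 / x) ha2'
    have h1 : y0 / a 2 ^ k ≤ x := by
      rw [div_le_iff₀ (by positivity)]
      rw [div_lt_iff₀ hx] at hk
      linarith
    have h2 := hmono _ _ (by positivity) h1
    rw [hit k y0 hy0] at h2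
    exact (pow_pos hy1 _).trans_le h2
  have hGlt : ∀ x, 0 < x → G x < 1 := by
    intro x hx
    by_contra hge
    have h1 : G x = 1 := le_antisymm (hle x hx) (not_lt.mp hge)
    obtain ⟨k, hk⟩ := pow_unbounded_of_one_lt (x / y0) ha2'
    have h2 : x / a 2 ^ k ≤ y0 := by
      rw [div_le_iff₀ (by positivity)]
      rw [div_lt_iff₀ hy0] at hk
      linarith
    have h3 := hmono _ _ (by positivity) h2
    rw [hit k x hx, h1, one_pow] at h3
    linarith
  set g : ℝ → ℝ := fun x => -Real.log (G x) with hg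
  have hgpos : ∀ x, 0 < x → 0 < g x := fun x hx =>
    neg_pos.mpr (Real.log_neg (hGpos x hx) (hGlt x hx))
  have hganti : ∀ x y, 0 < x → x ≤ y → g y ≤ g x := fun x y hx hxy =>
    neg_le_neg (Real.log_le_log (hGpos x hx) (hmono x y hx hxy))
  have hgeq : ∀ n : ℕ, 1 ≤ n → ∀ x, 0 < x → g (x / a n) = n * g x := by
    intro n hn x hx
    simp only [hg]
    rw [hG n hn x hx, Real.log_pow]; ring
  have hastrict : ∀ m n : ℕ, 1 ≤ m → m < n → a m < a n := by
    intro m n hm hmn
    by_contra hle'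
    push Not at hle'
    have h1 : 1 / a m ≤ 1 / a n := one_div_le_one_div_of_le (ha n (by omega)) hle'
    have h2 := hganti _ _ (div_pos one_pos (ha m hm)) h1
    rw [hgeq n (by omega) 1 one_pos, hgeq m hm 1 one_pos] at h2
    have h3 : (m : ℝ) < n := by exact_mod_cast hmn
    have h4 := hgpos 1 one_pos
    nlinarith
  have noper : ∀ ρ : ℝ, 1 < ρ → (∀ y, 0 < y → g y = g (y / ρ)) → False := by
    intro ρ hρ hy
    have hk : ∀ k : ℕ, g 1 = g (1 / ρ ^ k) := by
      intro k
      induction k with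
      | zero => simp
      | succ k ih =>
        rw [ih, hy _ (by positivity), div_div, pow_succ]
    obtain ⟨k, hk'⟩ := pow_unbounded_of_one_lt (a 2) hρ
    have h1 : 1 / ρ ^ k ≤ 1 / a 2 := one_div_le_one_div_of_le ha2 hk'.le
    have h2 := hganti _ _ (by positivity) h1
    rw [← hk k, hgeq 2 (by norm_num) 1 one_pos] at h2
    have h4 := hgpos 1 one_pos
    push_cast at h2
    linarith
  have hmul : ∀ m n : ℕ, 1 ≤ m → 1 ≤ n → a (m * n) = a m * a n := by
    intro m n hm hn
    have hmn : 1 ≤ m * n := Nat.one_le_iff_ne_zero.mpr (by positivity)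
    have pm := ha m hm
    have pn := ha n hn
    have pmn := ha _ hmn
    have key : ∀ x, 0 < x → g (x / (a m * a n)) = g (x / a (m * n)) := by
      intro x hx
      rw [← div_div, hgeq n hn _ (div_pos hx pm), hgeq m hm x hx, hgeq _ hmn x hx]
      push_cast; ring
    rcases lt_trichotomy (a (m * n)) (a m * a n) with hlt | heq | hlt
    · exfalso
      refine noper (a m * a n / a (m * n)) (by rwa [lt_div_iff₀ pmn, one_mul]) fun y hy => ?_
      have := key (y * a (m * n)) (by positivity)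
      rw [mul_div_cancel_right₀ _ pmn.ne'] at this
      rw [← this]; congr 1; field_simp
    · exact heq
    · exfalso
      refine noper (a (m * n) / (a m * a n)) (by rwa [lt_div_iff₀ (by positivity), one_mul])
        fun y hy => ?_
      have := key (y * (a m * a n)) (by positivity)
      rw [mul_div_cancel_right₀ _ (by positivity)] at this
      rw [this]; congr 1; field_simp
  have ha1 : a 1 = 1 := by
    have h1 := hmul 1 1 le_rfl le_rfl
    rw [mul_one] at h1
    have h2 := ha 1 le_rfl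
    nlinarith
  have hpow : ∀ m : ℕ, 1 ≤ m → ∀ k : ℕ, a (m ^ k) = a m ^ k := by
    intro m hm k
    induction k with
    | zero => simpa using ha1
    | succ k ih => rw [pow_succ, hmul _ _ (Nat.one_le_pow _ _ hm) hm, ih, pow_succ]
  have hamono : ∀ m n : ℕ, 1 ≤ m → m ≤ n → a m ≤ a n := by
    intro m n hm hmn
    rcases hmn.eq_or_lt with rfl | h
    · exact le_rfl
    · exact (hastrict m n hm h).le
  have hl2 : 0 < Real.log 2 := Real.log_pos (by norm_num)
  have hla2 : 0 < Real.log (a 2) := Real.log_pos ha2'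
  have hα : 0 < Real.log 2 / Real.log (a 2) := div_pos hl2 hla2
  set α : ℝ := Real.log 2 / Real.log (a 2) with hαdef
  have halpha : ∀ n : ℕ, 1 ≤ n → a n = (n : ℝ) ^ (1 / α) := by
    intro m hm
    rcases hm.eq_or_lt with rfl | hm2
    · simp [ha1]
    have hm0 : (0 : ℝ) < m := by exact_mod_cast hm
    have hlm : 0 < Real.log m := Real.log_pos (by exact_mod_cast hm2)
    have ham1 : 1 < a m := by
      rw [← ha1]; exact hastrict 1 m le_rfl hm2
    have hlam : 0 < Real.log (a m) := Real.log_pos ham1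
    have key : Real.log m / Real.log 2 = Real.log (a m) / Real.log (a 2) := by
      rcases lt_trichotomy (Real.log m / Real.log 2) (Real.log (a m) / Real.log (a 2)) with
        hlt | heq | hlt
      · exfalso
        obtain ⟨q, p, hq, hp, h1, h2⟩ := exists_nat_ratio (by positivity) hlt
        have hq0 : (0 : ℝ) < q := by exact_mod_cast hq
        rw [div_lt_div_iff₀ hl2 hq0] at h1
        rw [div_lt_div_iff₀ hq0 hla2] at h2
        have h3 : (m : ℝ) ^ q ≤ 2 ^ p := by
          rw [← Real.log_le_log_iff (by positivity) (by positivity), Real.log_pow, Real.log_pow]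
          linarith
        have h4 : m ^ q ≤ 2 ^ p := by exact_mod_cast h3
        have h5 := hamono _ _ (Nat.one_le_pow _ _ hm) h4
        rw [hpow m hm, hpow 2 (by norm_num)] at h5
        have h6 := Real.log_le_log (by positivity) h5
        rw [Real.log_pow, Real.log_pow] at h6
        linarith
      · exact heq
      · exfalso
        obtain ⟨q, p, hq, hp, h1, h2⟩ := exists_nat_ratio (by positivity) hlt
        have hq0 : (0 : ℝ) < q := by exact_mod_cast hq
        rw [div_lt_div_iff₀ hla2 hq0] at h1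
        rw [div_lt_div_iff₀ hq0 hl2] at h2
        have h3 : (2 : ℝ) ^ p ≤ (m : ℝ) ^ q := by
          rw [← Real.log_le_log_iff (by positivity) (by positivity), Real.log_pow, Real.log_pow]
          linarith
        have h4 : 2 ^ p ≤ m ^ q := by exact_mod_cast h3
        have h5 := hamono _ _ (Nat.one_le_pow _ _ (by norm_num)) h4
        rw [hpow m hm, hpow 2 (by norm_num)] at h5
        have h6 := Real.log_le_log (by positivity) h5
        rw [Real.log_pow, Real.log_pow] at h6
        linarith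
    have h7 : Real.log (a m) = Real.log m * (1 / α) := by
      rw [hαdef, one_div_div]
      field_simp at key ⊢
      linarith
    rw [Real.rpow_def_of_pos hm0, ← h7, Real.exp_log (by linarith)]
  have hratio : ∀ p q : ℕ, 1 ≤ p → 1 ≤ q → g (((q : ℝ) / p) ^ (1 / α)) = g 1 / ((q : ℝ) / p) := by
    intro p q hp hq
    have hp0 : (0 : ℝ) < p := by exact_mod_cast hp
    have hq0 : (0 : ℝ) < q := by exact_mod_cast hq
    have e : ((q : ℝ) / p) ^ (1 / α) = a q / a p := by
      rw [halpha q hq, halpha p hp, Real.div_rpow hq0.le hp0.le]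
    have pq := ha q hq
    have pp := ha p hp
    have h1 := hgeq q hq (a q / a p) (by positivity)
    have h2 := hgeq p hp 1 one_pos
    have h3 : a q / a p / a q = 1 / a p := by field_simp
    rw [h3, h2] at h1
    rw [e]
    field_simp
    linarith
  refine ⟨α, hα, halpha, g 1, hgpos 1 one_pos, fun x hx => ?_⟩
  have hX : 0 < x ^ α := Real.rpow_pos_of_pos hx _
  have hxX : (x ^ α) ^ (1 / α) = x := by
    rw [← Real.rpow_mul hx.le, mul_one_div_cancel hα.ne', Real.rpow_one]
  have hs := hgpos 1 one_pos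
  have hgx := hgpos x hx
  have key : g x = g 1 / x ^ α := by
    rcases lt_trichotomy (g 1 / g x) (x ^ α) with hlt | heq | hlt
    · exfalso
      obtain ⟨p, q, hp, hq, h1, h2⟩ := exists_nat_ratio (by positivity) hlt
      have hp0 : (0 : ℝ) < p := by exact_mod_cast hp
      have hq0 : (0 : ℝ) < q := by exact_mod_cast hq
      have h3 : ((q : ℝ) / p) ^ (1 / α) ≤ x := by
        rw [← hxX]; exact Real.rpow_le_rpow (by positivity) h2.le (by positivity)
      have h4 := hganti _ _ (Real.rpow_pos_of_pos (by positivity) _) h3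
      rw [hratio p q hp hq] at h4
      rw [div_lt_iff₀ hgx] at h1
      rw [le_div_iff₀ (by positivity)] at h4
      linarith
    · rw [← heq]; field_simp
    · exfalso
      obtain ⟨p, q, hp, hq, h1, h2⟩ := exists_nat_ratio hX.le hlt
      have hp0 : (0 : ℝ) < p := by exact_mod_cast hp
      have hq0 : (0 : ℝ) < q := by exact_mod_cast hq
      have h3 : x ≤ ((q : ℝ) / p) ^ (1 / α) := by
        rw [← hxX]; exact Real.rpow_le_rpow (by positivity) h1.le (by positivity)
      have h4 := hganti _ _ hx h3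
      rw [hratio p q hp hq] at h4
      rw [lt_div_iff₀ hgx] at h2
      rw [div_le_iff₀ (by positivity)] at h4
      linarith
  have h5 : Real.log (G x) = -(g 1 * x ^ (-α)) := by
    rw [Real.rpow_neg hx.le, ← div_eq_mul_inv, ← key]
    simp [hg]
  rw [← h5, Real.exp_log (hGpos x hx)]

/-- a random variable whose distribution function takes only the values `0` and `1` is a.s.
constant -/
lemma ae_const {Ω : Type} [MeasurableSpace Ω] {μ : Measure Ω} [IsProbabilityMeasure μ]
    {η : Ω → ℝ} (hη : Measurable η)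
    (h : ∀ t, μ {x | η x ≤ t} = 0 ∨ μ {x | η x ≤ t} = 1) : ∃ c, ∀ᵐ x ∂μ, η x = c := by
  have hmono : ∀ s t, s ≤ t → μ {x | η x ≤ s} ≤ μ {x | η x ≤ t} := fun s t hst =>
    measure_mono fun x hx => le_trans hx hst
  set S : Set ℝ := {t | μ {x | η x ≤ t} = 1} with hS
  have hne : S.Nonempty := by
    by_contra hemp
    rw [not_nonempty_iff_eq_empty] at hemp
    have h0 : ∀ n : ℕ, μ {x | η x ≤ n} = 0 := by
      intro n
      rcases h n with h1 | h1
      · exact h1
      · exact absurd (show (n : ℝ) ∈ S from h1) (by simp [hemp])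
    have h1 : μ (⋃ n : ℕ, {x | η x ≤ n}) = 0 := measure_iUnion_null h0
    have h2 : (⋃ n : ℕ, {x | η x ≤ n}) = univ := by
      ext x; simp only [mem_iUnion, mem_ofPred_eq, mem_univ, iff_true]
      exact exists_nat_ge (η x)
    rw [h2, measure_univ] at h1
    exact one_ne_zero h1
  have hbdd : BddBelow S := by
    by_contra hb
    have h0 : ∀ n : ℕ, ∀ᵐ x ∂μ, η x ≤ -(n : ℝ) := by
      intro n
      rw [not_bddBelow_iff] at hb
      obtain ⟨t, ht, htn⟩ := hb (-(n : ℝ))
      have h1 : μ {x | η x ≤ -(n : ℝ)} = 1 :=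
        le_antisymm prob_le_one (ht ▸ hmono t _ htn.le)
      rw [prob_compl_eq_zero_iff (measurableSet_le hη measurable_const) |>.symm] at h1
      exact h1
    have h1 := ae_all_iff.mpr h0
    obtain ⟨x, hx⟩ := h1.exists
    obtain ⟨n, hn⟩ := exists_nat_gt (-η x)
    have := hx n
    linarith
  refine ⟨sInf S, ?_⟩
  have h1 : ∀ k : ℕ, ∀ᵐ x ∂μ, η x ≤ sInf S + 1 / ((k : ℝ) + 1) := by
    intro k
    obtain ⟨t, ht, htk⟩ := exists_lt_of_csInf_lt hne
      (show sInf S < sInf S + 1 / ((k : ℝ) + 1) by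
        have : (0 : ℝ) < 1 / ((k : ℝ) + 1) := by positivity
        linarith)
    have h1 : μ {x | η x ≤ sInf S + 1 / ((k : ℝ) + 1)} = 1 :=
      le_antisymm prob_le_one (ht ▸ hmono t _ htk.le)
    rw [prob_compl_eq_zero_iff (measurableSet_le hη measurable_const) |>.symm] at h1
    exact h1
  have h2 : ∀ k : ℕ, ∀ᵐ x ∂μ, sInf S - 1 / ((k : ℝ) + 1) < η x := by
    intro k
    have h3 : μ {x | η x ≤ sInf S - 1 / ((k : ℝ) + 1)} = 0 := by
      rcases h (sInf S - 1 / ((k : ℝ) + 1)) with h4 | h4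
      · exact h4
      · exfalso
        have h5 := csInf_le hbdd (show sInf S - 1 / ((k : ℝ) + 1) ∈ S from h4)
        have : (0 : ℝ) < 1 / ((k : ℝ) + 1) := by positivity
        linarith
    rw [ae_iff]
    simpa only [not_lt] using h3
  filter_upwards [ae_all_iff.mpr h1, ae_all_iff.mpr h2] with x hx1 hx2
  have hlim := tendsto_one_div_add_atTop_nhds_zero_nat (𝕜 := ℝ)
  apply le_antisymm
  · have := ge_of_tendsto' ((tendsto_const_nhds (x := sInf S)).add hlim) hx1
    simpa using this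
  · have := le_of_tendsto' ((tendsto_const_nhds (x := sInf S)).sub hlim) fun k => (hx2 k).le
    simpa using this

end Pool.Agent.R989.CHull
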