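import Pool.Agent.R989.HullB
import Pool.Agent.R989.HullC

open MeasureTheory Set Topology Filter
open scoped Pointwise

namespace Pool.Agent.R989.CHull

variable {ι : Type} [Fintype ι] [DecidableEq ι]

/-- data extracted from convex-stability -/
structure Dat (μ : Measure (ι → ℝ)) (a : ℕ → ℝ) (k : ℕ → (ι → ℕ) → ℝ) : Prop where
  apos : ∀ n, 1 ≤ n → 0 < a n
  law : ∀ n, 1 ≤ n → ∀ C : Set ((ι → ℕ) → ℝ), MeasurableSet C →
    μ {x | (fun u => phi u (a n • x)) ∈ C} =
      (Measure.pi fun _ : Fin n => μ) {w | (fun u => phi u (mx w) + k n u) ∈ C}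
  sub : ∀ n, 1 ≤ n → ∀ u v, k n (u + v) ≤ k n u + k n v
  mono : ∀ n, 1 ≤ n → (∀ i, k n (Pi.single i 1) ≤ 0) → ∀ u v, k n (u + v) ≤ k n u
  zero : ∀ n, 1 ≤ n → k n 0 = 0

lemma lin_single (i : ι) (y : ι → ℝ) : lin (Pi.single i 1) y = y i := by
  unfold lin
  rw [Finset.sum_eq_single i]
  · simp
  · intro b _ hb; simp [hb]
  · simp

lemma exists_dat [Nonempty ι] {μ : Measure (ι → ℝ)} [IsProbabilityMeasure μ]
    (h : ConvexStable μ coordHull) : ∃ a k, Dat μ a k := by
  have h' : ∀ n : ℕ, ∃ a : ℝ, ∃ K : Set (ι → ℝ), 1 ≤ n → 0 < a ∧ IsCompact K ∧ K.Nonempty ∧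
      SameLaw μ (fun ω => a • coordHull ω) (Measure.pi fun _ : Fin n => μ)
      (fun ω => closure (convexHull ℝ (⋃ j, coordHull (ω j))) + K) := by
    intro n
    by_cases hn : 1 ≤ n
    · obtain ⟨a, ha, K, h1, _, h3, h4⟩ := h n hn
      exact ⟨a, K, fun _ => ⟨ha, h1, h3, h4⟩⟩
    · exact ⟨0, ∅, fun h => absurd h hn⟩
  choose a K haK using h'
  refine ⟨a, fun n => hK (K n), ?_, ?_, ?_, ?_, ?_⟩
  · intro n hn; exact (haK n hn).1
  · intro n hn C hC
    obtain ⟨h1, h2, h3, h4⟩ := haK n hn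
    exact PL hn h1 h2 h3 h4 hC
  · intro n hn u v
    obtain ⟨h1, h2, h3, h4⟩ := haK n hn
    exact hK_add h2 h3 u v
  · intro n hn hk u v
    obtain ⟨h1, h2, h3, h4⟩ := haK n hn
    obtain ⟨y, hy, h5⟩ := exists_hK h2 h3 (u + v)
    rw [← h5, lin_add]
    have h6 : lin v y ≤ 0 := by
      refine Finset.sum_nonpos fun i _ => ?_
      have h7 : y i ≤ 0 := by
        have := le_hK h2 hy (Pi.single i 1)
        rw [lin_single] at this
        exact this.trans (hk i)
      exact mul_nonpos_of_nonneg_of_nonpos (Nat.cast_nonneg _) h7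
    have h8 := le_hK h2 hy u
    linarith
  · intro n hn
    obtain ⟨h1, h2, h3, h4⟩ := haK n hn
    obtain ⟨y, hy, h5⟩ := exists_hK h2 h3 (0 : ι → ℕ)
    show hK (K n) 0 = 0
    rw [← h5]; simp [lin]

lemma phi_single [Nontrivial ι] (i : ι) (x : ι → ℝ) : phi (Pi.single i 1) x = max (x i) 0 := by
  apply le_antisymm
  · refine phi_le fun k => ?_
    by_cases hk : k = i
    · subst hk; simp
    · simp [hk]
  · apply max_le
    · have := le_phi (Pi.single i 1) x i
      simpa using this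
    · obtain ⟨k, hk⟩ := exists_ne i
      have := le_phi (Pi.single i 1) x k
      simpa [hk] using this

lemma phi_two {i j : ι} (hij : i ≠ j) {x : ι → ℝ} (hi : 0 < x i) (hj : 0 < x j) (p q : ℕ) :
    phi (Pi.single i p + Pi.single j q) x = max ((p : ℝ) * x i) (q * x j) := by
  have : Nonempty ι := ⟨i⟩
  apply le_antisymm
  · refine phi_le fun k => ?_
    by_cases hk : k = i
    · subst hk; simp [hij]
    · by_cases hk' : k = j
      · subst hk'; simp [hk]
      · simp only [Pi.add_apply, Pi.single_eq_of_ne hk, Pi.single_eq_of_ne hk', add_zero,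
          Nat.cast_zero, zero_mul]
        exact le_max_of_le_left (by positivity)
  · apply max_le
    · have := le_phi (Pi.single i p + Pi.single j q) x i
      simpa [hij] using this
    · have := le_phi (Pi.single i p + Pi.single j q) x j
      simpa [hij.symm] using this

omit [Fintype ι] [DecidableEq ι] in
lemma pi_forall (μ : Measure (ι → ℝ)) [IsProbabilityMeasure μ] (n : ℕ) (B : Set (ι → ℝ)) :
    (Measure.pi fun _ : Fin n => μ) {w | ∀ j, w j ∈ B} = μ B ^ n := by
  have h : {w : Fin n → ι → ℝ | ∀ j, w j ∈ B} = Set.pi univ fun _ => B := by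
    ext w; simp
  rw [h, Measure.pi_pi]; simp

omit [Fintype ι] [DecidableEq ι] in
lemma pi_mx_le (μ : Measure (ι → ℝ)) [IsProbabilityMeasure μ] {n : ℕ} (hn : 1 ≤ n)
    (J : Finset ι) (t : ι → ℝ) :
    (Measure.pi fun _ : Fin n => μ) {w | ∀ i ∈ J, mx w i ≤ t i} =
      μ {x | ∀ i ∈ J, x i ≤ t i} ^ n := by
  rw [← pi_forall]
  congr 1
  ext w
  simp only [mem_ofPred_eq, mx_le_iff hn]
  exact ⟨fun h j i hi => h i hi j, fun h i hi j => h j i hi⟩

omit [Fintype ι] [DecidableEq ι] in
lemma ae_pi_of_ae {μ : Measure (ι → ℝ)} [IsProbabilityMeasure μ] {n : ℕ} {P : (ι → ℝ) → Prop}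
    (h : ∀ᵐ x ∂μ, P x) : ∀ᵐ w ∂(Measure.pi fun _ : Fin n => μ), ∀ j, P (w j) := by
  rw [ae_all_iff]
  intro j
  exact (Measure.tendsto_eval_ae_ae (μ := fun _ : Fin n => μ) (i := j)).eventually h

namespace Dat

variable {μ : Measure (ι → ℝ)} [IsProbabilityMeasure μ] {a : ℕ → ℝ} {k : ℕ → (ι → ℕ) → ℝ}

lemma ae_iff_ae (D : Dat μ a k) {n : ℕ} (hn : 1 ≤ n) {C : Set ((ι → ℕ) → ℝ)}
    (hC : MeasurableSet C) :
    (∀ᵐ x ∂μ, (fun u => phi u (a n • x)) ∈ C) ↔
      ∀ᵐ w ∂(Measure.pi fun _ : Fin n => μ), (fun u => phi u (mx w) + k n u) ∈ C := by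
  rw [MeasureTheory.ae_iff, MeasureTheory.ae_iff]
  have := D.law n hn Cᶜ hC.compl
  simp only [mem_compl_iff] at this
  rw [this]

lemma k_eq_zero [Nontrivial ι] (D : Dat μ a k) {i : ι} (hi : μ {x | x i ≤ 0} ≠ 0) {n : ℕ}
    (hn : 1 ≤ n) : k n (Pi.single i 1) = 0 := by
  have hpi : (Measure.pi fun _ : Fin n => μ) {w | mx w i ≤ 0} ≠ 0 := by
    have := pi_mx_le μ hn {i} (fun _ => 0)
    simp only [Finset.mem_singleton, forall_eq] at this
    rw [this]
    exact pow_ne_zero _ hi
  apply le_antisymm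
  · by_contra hk
    push Not at hk
    have h1 := D.law n hn {f | f (Pi.single i 1) ≤ 0}
      (measurableSet_le (measurable_pi_apply _) measurable_const)
    simp only [mem_ofPred_eq, phi_single] at h1
    have h2 : {w : Fin n → ι → ℝ | max (mx w i) 0 + k n (Pi.single i 1) ≤ 0} = ∅ := by
      ext w
      simp only [mem_ofPred_eq, mem_empty_iff_false, iff_false, not_le]
      have := le_max_right (mx w i) 0
      linarith
    rw [h2, measure_empty] at h1
    apply hi
    rw [← h1]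
    congr 1
    ext x
    simp only [mem_ofPred_eq, Pi.smul_apply, smul_eq_mul, max_le_iff, le_refl, and_true]
    have := D.apos n hn
    constructor
    · intro h; exact mul_nonpos_of_nonneg_of_nonpos this.le h
    · intro h; by_contra h'; push Not at h'; have := mul_pos this h'; linarith
  · by_contra hk
    push Not at hk
    have h1 := D.law n hn {f | f (Pi.single i 1) < 0}
      (measurableSet_lt (measurable_pi_apply _) measurable_const)
    simp only [mem_ofPred_eq, phi_single] at h1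
    have h2 : {x : ι → ℝ | max ((a n • x) i) 0 < 0} = ∅ := by
      ext x
      simp only [mem_ofPred_eq, mem_empty_iff_false, iff_false, not_lt]
      exact le_max_right _ _
    rw [h2, measure_empty] at h1
    apply hpi
    refine measure_mono_null ?_ h1.symm
    intro w hw
    have hw' : mx w i ≤ 0 := hw
    show max (mx w i) 0 + k n (Pi.single i 1) < 0
    rw [max_eq_right hw']; linarith

lemma dichotomy [Nontrivial ι] (D : Dat μ a k) {i : ι} (hi : μ {x | x i ≤ 0} ≠ 0) :
    μ {x | x i ≤ 0} = 1 := by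
  have hk := D.k_eq_zero hi (n := 2) (by norm_num)
  have h1 := D.law 2 (by norm_num) {f | f (Pi.single i 1) ≤ 0}
    (measurableSet_le (measurable_pi_apply _) measurable_const)
  simp only [mem_ofPred_eq, phi_single, hk, add_zero, max_le_iff, le_refl, and_true] at h1
  have h2 := pi_mx_le μ (n := 2) (by norm_num) {i} (fun _ => 0)
  simp only [Finset.mem_singleton, forall_eq] at h2
  rw [h2] at h1
  have h3 : {x : ι → ℝ | (a 2 • x) i ≤ 0} = {x | x i ≤ 0} := by
    ext x
    simp only [mem_ofPred_eq, Pi.smul_apply, smul_eq_mul]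
    have := D.apos 2 (by norm_num)
    constructor
    · intro h; by_contra h'; push Not at h'; have := mul_pos this h'; linarith
    · intro h; exact mul_nonpos_of_nonneg_of_nonpos this.le h
  rw [h3, sq] at h1
  have h4 : μ {x | x i ≤ 0} * 1 = μ {x | x i ≤ 0} * μ {x | x i ≤ 0} := by rw [mul_one]; exact h1
  exact ((ENNReal.mul_right_inj hi (measure_ne_top _ _)).mp h4).symm

/-- distribution functions in the positive case -/
lemma cdf [Nontrivial ι] (D : Dat μ a k) {J : Finset ι} (hJ : ∀ᵐ x ∂μ, ∀ i ∈ J, 0 < x i) {n : ℕ}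
    (hn : 1 ≤ n) (t : ι → ℝ) :
    μ {x | ∀ i ∈ J, a n * x i ≤ t i} =
      μ {x | ∀ i ∈ J, x i ≤ t i - k n (Pi.single i 1)} ^ n := by
  have hms : MeasurableSet {f : (ι → ℕ) → ℝ | ∀ i ∈ J, f (Pi.single i 1) ≤ t i} := by
    simp only [ofPred_forall]
    exact MeasurableSet.iInter fun i => MeasurableSet.iInter fun _ =>
      measurableSet_le (measurable_pi_apply _) measurable_const
  have h1 := D.law n hn _ hms
  simp only [mem_ofPred_eq, phi_single] at h1
  rw [← pi_mx_le μ hn]
  have ha := D.apos n hn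
  have e1 : μ {x | ∀ i ∈ J, a n * x i ≤ t i} = μ {x | ∀ i ∈ J, max ((a n • x) i) 0 ≤ t i} := by
    apply measure_congr
    filter_upwards [hJ] with x hx
    apply propext
    show (∀ i ∈ J, a n * x i ≤ t i) ↔ (∀ i ∈ J, max ((a n • x) i) 0 ≤ t i)
    refine forall_congr' fun i => forall_congr' fun hi => ?_
    have h2 : 0 < (a n • x) i := mul_pos ha (hx i hi)
    rw [max_eq_left h2.le]; rfl
  have e2 : (Measure.pi fun _ : Fin n => μ) {w | ∀ i ∈ J, mx w i ≤ t i - k n (Pi.single i 1)} =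
      (Measure.pi fun _ : Fin n => μ)
        {w | ∀ i ∈ J, max (mx w i) 0 + k n (Pi.single i 1) ≤ t i} := by
    apply measure_congr
    filter_upwards [ae_pi_of_ae (n := n) hJ] with w hw
    apply propext
    show (∀ i ∈ J, mx w i ≤ t i - k n (Pi.single i 1)) ↔
      (∀ i ∈ J, max (mx w i) 0 + k n (Pi.single i 1) ≤ t i)
    refine forall_congr' fun i => forall_congr' fun hi => ?_
    have h2 : 0 < mx w i := by
      have : Nonempty (Fin n) := ⟨⟨0, hn⟩⟩
      have h3 : w ⟨0, hn⟩ i ≤ mx w i :=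
        le_ciSup (f := fun j => w j i) (Set.finite_range _).bddAbove _
      exact (hw _ i hi).trans_le h3
    rw [max_eq_left h2.le]
    constructor <;> intro h <;> linarith
  rw [e1, e2, h1]

lemma ae_mx_pos {J : Finset ι} (hJ : ∀ᵐ x ∂μ, ∀ i ∈ J, 0 < x i) {n : ℕ}
    (hn : 1 ≤ n) : ∀ᵐ w ∂(Measure.pi fun _ : Fin n => μ), ∀ i ∈ J, 0 < mx w i := by
  filter_upwards [ae_pi_of_ae (n := n) hJ] with w hw i hi
  have : Nonempty (Fin n) := ⟨⟨0, hn⟩⟩
  have h3 : w ⟨0, hn⟩ i ≤ mx w i :=
    le_ciSup (f := fun j => w j i) (Set.finite_range _).bddAbove _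
  exact (hw _ i hi).trans_le h3

lemma ae_mx_add_pos [Nontrivial ι] (D : Dat μ a k) {J : Finset ι}
    (hJ : ∀ᵐ x ∂μ, ∀ i ∈ J, 0 < x i) {n : ℕ} (hn : 1 ≤ n) :
    ∀ᵐ w ∂(Measure.pi fun _ : Fin n => μ), ∀ i ∈ J, 0 < mx w i + k n (Pi.single i 1) := by
  have hms : MeasurableSet {f : (ι → ℕ) → ℝ | ∀ i ∈ J, 0 < f (Pi.single i 1)} := by
    simp only [ofPred_forall]
    exact MeasurableSet.iInter fun i => MeasurableSet.iInter fun _ =>
      measurableSet_lt measurable_const (measurable_pi_apply _)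
  have h1 := (D.ae_iff_ae hn hms).mp (by
    filter_upwards [hJ] with x hx i hi
    show 0 < phi (Pi.single i 1) (a n • x)
    rw [phi_single]
    exact lt_max_of_lt_left (mul_pos (D.apos n hn) (hx i hi)))
  filter_upwards [h1, ae_mx_pos hJ hn] with w hw hw' i hi
  have := hw i hi
  simp only [phi_single] at this
  rwa [max_eq_left (hw' i hi).le] at this

lemma pos_kink [Nontrivial ι] (D : Dat μ a k) {J : Finset ι} (hJ : ∀ᵐ x ∂μ, ∀ i ∈ J, 0 < x i)
    {n : ℕ} (hn : 1 ≤ n) {i j : ι} (hi : i ∈ J) (hj : j ∈ J) :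
    ∀ᵐ w ∂(Measure.pi fun _ : Fin n => μ),
      k n (Pi.single i 1) * mx w j = k n (Pi.single j 1) * mx w i := by
  by_cases hij : i = j
  · subst hij; exact Eventually.of_forall fun _ => rfl
  have hms : MeasurableSet {f : (ι → ℕ) → ℝ | ∀ p q : ℕ,
      f (Pi.single i p + Pi.single j q) =
        max ((p : ℝ) * f (Pi.single i 1)) (q * f (Pi.single j 1))} := by
    simp only [ofPred_forall]
    refine MeasurableSet.iInter fun p => MeasurableSet.iInter fun q => ?_
    have m1 : Measurable (fun f : (ι → ℕ) → ℝ => f (Pi.single i p + Pi.single j q)) :=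
      measurable_pi_apply _
    have m2 : Measurable (fun f : (ι → ℕ) → ℝ => f (Pi.single i 1)) := measurable_pi_apply _
    have m3 : Measurable (fun f : (ι → ℕ) → ℝ => f (Pi.single j 1)) := measurable_pi_apply _
    exact measurableSet_eq_fun m1 ((m2.const_mul _).max (m3.const_mul _))
  have h1 := (D.ae_iff_ae hn hms).mp (by
    filter_upwards [hJ] with x hx p q
    have h2 : 0 < (a n • x) i := mul_pos (D.apos n hn) (hx i hi)
    have h3 : 0 < (a n • x) j := mul_pos (D.apos n hn) (hx j hj)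
    rw [phi_two hij h2 h3, phi_single, phi_single, max_eq_left h2.le, max_eq_left h3.le])
  filter_upwards [h1, ae_mx_pos hJ hn, D.ae_mx_add_pos hJ hn] with w hw hw1 hw2
  have hA := hw1 i hi
  have hB := hw1 j hj
  have hA' := hw2 i hi
  have hB' := hw2 j hj
  have key := kink (A := mx w i) (B := mx w j) (A' := mx w i + k n (Pi.single i 1))
    (B' := mx w j + k n (Pi.single j 1))
    (h := fun p q => k n (Pi.single i p + Pi.single j q)) ?_ ?_ (Or.inl ⟨hA, hB, hA', hB'⟩)
  · linarith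
  · intro p q p' q' _ _ _ _
    have h4 : (Pi.single i (p + p') + Pi.single j (q + q') : ι → ℕ) =
        (Pi.single i p + Pi.single j q) + (Pi.single i p' + Pi.single j q') := by
      rw [Pi.single_add, Pi.single_add]
      exact add_add_add_comm _ _ _ _
    show k n (Pi.single i (p + p') + Pi.single j (q + q')) ≤ _
    rw [h4]
    exact D.sub n hn _ _
  · intro p q _ _
    have h5 := hw p q
    simp only [phi_single, phi_two hij hA hB, max_eq_left hA.le, max_eq_left hB.le] at h5
    exact h5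

end Dat

end Pool.Agent.R989.CHull
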