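import Pool.Agent.R989.HullD

open MeasureTheory Set Topology Filter
open scoped Pointwise

namespace Pool.Agent.R989.CHull

variable {ι : Type} [Fintype ι] [DecidableEq ι]

/-- The distribution function `F_I(t) = P(x_i ≤ t_i for i ∈ I)` satisfies
`F_I(t) = F_I(n^s t)^n` for all `n ≥ 1`. -/
def MaxStableOn (μ : Measure (ι → ℝ)) (I : Finset ι) (s : ℝ) : Prop :=
  ∀ n : ℕ, 1 ≤ n → ∀ t : ι → ℝ,
    μ {x | ∀ i ∈ I, x i ≤ t i} = μ {x | ∀ i ∈ I, x i ≤ (n : ℝ) ^ s * t i} ^ n

/-- marginal distribution function -/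
noncomputable def Fm (μ : Measure (ι → ℝ)) (i : ι) (t : ℝ) : ℝ := (μ {x | x i ≤ t}).toReal

omit [Fintype ι] [DecidableEq ι] in
lemma Fm_mono (μ : Measure (ι → ℝ)) [IsProbabilityMeasure μ] (i : ι) {s t : ℝ} (h : s ≤ t) :
    Fm μ i s ≤ Fm μ i t :=
  ENNReal.toReal_mono (measure_ne_top _ _) (measure_mono fun _ hx => le_trans hx h)

omit [Fintype ι] [DecidableEq ι] in
lemma Fm_le_one (μ : Measure (ι → ℝ)) [IsProbabilityMeasure μ] (i : ι) (t : ℝ) :
    Fm μ i t ≤ 1 := by
  have := ENNReal.toReal_mono ENNReal.one_ne_top (prob_le_one (μ := μ) (s := {x | x i ≤ t}))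
  simpa [Fm] using this

omit [Fintype ι] [DecidableEq ι] in
lemma Fm_nonneg (μ : Measure (ι → ℝ)) (i : ι) (t : ℝ) : 0 ≤ Fm μ i t := ENNReal.toReal_nonneg

omit [Fintype ι] [DecidableEq ι] in
lemma zero_one_or (μ : Measure (ι → ℝ)) [IsProbabilityMeasure μ] (i : ι) :
    (∃ c, ∀ᵐ x ∂μ, x i = c) ∨ ∃ t0, 0 < Fm μ i t0 ∧ Fm μ i t0 < 1 := by
  by_cases h : ∃ t0, 0 < Fm μ i t0 ∧ Fm μ i t0 < 1
  · exact Or.inr h
  · left
    apply ae_const (measurable_pi_apply i)
    intro t
    by_contra hcon
    rw [not_or] at hcon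
    apply h
    refine ⟨t, ENNReal.toReal_pos hcon.1 (measure_ne_top _ _), ?_⟩
    have h1 : μ {x | x i ≤ t} < 1 := lt_of_le_of_ne prob_le_one hcon.2
    have h2 := (ENNReal.toReal_lt_toReal (measure_ne_top _ _) ENNReal.one_ne_top).mpr h1
    simpa [Fm] using h2

namespace Dat

variable {μ : Measure (ι → ℝ)} [IsProbabilityMeasure μ] {a : ℕ → ℝ} {k : ℕ → (ι → ℕ) → ℝ}

lemma marg [Nontrivial ι] (D : Dat μ a k) {i : ι} (hi : ∀ᵐ x ∂μ, 0 < x i) {n : ℕ}
    (hn : 1 ≤ n) (t : ℝ) : Fm μ i (t / a n) = Fm μ i (t - k n (Pi.single i 1)) ^ n := by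
  have h1 := D.cdf (J := {i}) (by simpa using hi) hn (fun _ => t)
  simp only [Finset.mem_singleton, forall_eq] at h1
  have h2 : {x : ι → ℝ | a n * x i ≤ t} = {x | x i ≤ t / a n} := by
    ext x
    simp only [mem_ofPred_eq]
    rw [le_div_iff₀ (D.apos n hn), mul_comm]
  rw [h2] at h1
  unfold Fm
  rw [h1, ENNReal.toReal_pow]

theorem positive_case [Nontrivial ι] (D : Dat μ a k) {I : Finset ι}
    (hI : ∀ᵐ x ∂μ, ∀ i ∈ I, 0 < x i) :
    (∃ c : ι → ℝ, ∀ᵐ x ∂μ, ∀ i ∈ I, x i = c i) ∨
    (∃ α : ℝ, 0 < α ∧ MaxStableOn μ I (1 / α)) ∨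
    (∃ (c : ι → ℝ) (h α : ℝ) (ζ : (ι → ℝ) → ℝ), (∀ i ∈ I, 0 < c i) ∧ 0 < h ∧ 0 < α ∧
      Measurable ζ ∧ (∀ᵐ x ∂μ, ∀ i ∈ I, x i = c i * (h + ζ x)) ∧
      ∀ t : ℝ, 0 < t → μ {x | ζ x ≤ t} = ENNReal.ofReal (Real.exp (-(t ^ (-α))))) := by
  have hIi : ∀ i ∈ I, ∀ᵐ x ∂μ, 0 < x i := fun i hi => by
    filter_upwards [hI] with x hx using hx i hi
  have hF0 : ∀ i ∈ I, ∀ t, t ≤ 0 → Fm μ i t = 0 := by
    intro i hi t ht
    have : μ {x | x i ≤ t} = 0 := by
      have h1 := hIi i hi
      rw [MeasureTheory.ae_iff] at h1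
      refine measure_mono_null (fun x hx => ?_) h1
      have hx' : x i ≤ t := hx
      show ¬ 0 < x i
      linarith
    simp [Fm, this]
  by_cases hk : ∀ n, 1 ≤ n → ∀ i ∈ I, k n (Pi.single i 1) = 0
  · -- the strict case
    by_cases hex : ∃ i ∈ I, ∃ t0, 0 < Fm μ i t0 ∧ Fm μ i t0 < 1
    · right; left
      obtain ⟨i, hi, t0, h1, h2⟩ := hex
      have ht0 : 0 < t0 := by
        by_contra hle
        push Not at hle
        rw [hF0 i hi t0 hle] at h1
        exact lt_irrefl _ h1
      obtain ⟨α, hα, han, _⟩ := frechet (G := Fm μ i) (a := a) D.apos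
        (fun x y _ hxy => Fm_mono μ i hxy) (fun x _ => Fm_le_one μ i x)
        (fun n hn x _ => by rw [D.marg (hIi i hi) hn, hk n hn i hi, sub_zero]) ht0 h1 h2
      refine ⟨α, hα, fun n hn t => ?_⟩
      have h3 := D.cdf hI hn (fun i => a n * t i)
      have h4 : {x : ι → ℝ | ∀ i ∈ I, a n * x i ≤ a n * t i} = {x | ∀ i ∈ I, x i ≤ t i} := by
        ext x
        simp only [mem_ofPred_eq]
        exact forall_congr' fun i => forall_congr' fun _ =>
          mul_le_mul_iff_of_pos_left (D.apos n hn)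
      have h5 : {x : ι → ℝ | ∀ i ∈ I, x i ≤ a n * t i - k n (Pi.single i 1)} =
          {x | ∀ i ∈ I, x i ≤ (n : ℝ) ^ (1 / α) * t i} := by
        ext x
        simp only [mem_ofPred_eq]
        refine forall_congr' fun i => forall_congr' fun hi => ?_
        rw [hk n hn i hi, sub_zero, han n hn]
      rw [h4, h5] at h3
      exact h3
    · left
      have h1 : ∀ i : ι, ∃ c, i ∈ I → ∀ᵐ x ∂μ, x i = c := by
        intro i
        rcases zero_one_or μ i with ⟨c, hc⟩ | h2
        · exact ⟨c, fun _ => hc⟩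
        · exact ⟨0, fun hi => absurd ⟨i, hi, h2⟩ hex⟩
      choose c hc using h1
      refine ⟨c, ?_⟩
      rw [ae_all_iff]
      intro i
      by_cases hi : i ∈ I
      · filter_upwards [hc i hi] with x hx _ using hx
      · exact Eventually.of_forall fun x hi' => absurd hi' hi
  · push Not at hk
    obtain ⟨n0, hn0, i0, hi0, hk0⟩ := hk
    set c : ι → ℝ := fun j => k n0 (Pi.single j 1) / k n0 (Pi.single i0 1) with hc
    have : Nonempty (Fin n0) := ⟨⟨0, hn0⟩⟩
    have hw : ∀ j ∈ I, ∀ᵐ w ∂(Measure.pi fun _ : Fin n0 => μ),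
        mx w j = c j * mx w i0 := by
      intro j hj
      filter_upwards [D.pos_kink hI hn0 hi0 hj] with w hw
      simp only [hc]; field_simp; linarith
    have hcpos : ∀ j ∈ I, 0 < c j := by
      intro j hj
      obtain ⟨w, h1, h2⟩ := ((hw j hj).and (ae_mx_pos hI hn0)).exists
      have h3 := h2 j hj
      have h4 := h2 i0 hi0
      rw [h1] at h3
      exact (mul_pos_iff_of_pos_right h4).mp h3
    have hrel : ∀ j ∈ I, ∀ᵐ x ∂μ, x j = c j * x i0 := by
      intro j hj
      have m2 : Measurable (fun f : (ι → ℕ) → ℝ => f (Pi.single i0 1)) := measurable_pi_apply _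
      have m3 : Measurable (fun f : (ι → ℕ) → ℝ => f (Pi.single j 1)) := measurable_pi_apply _
      have hms : MeasurableSet {f : (ι → ℕ) → ℝ | f (Pi.single j 1) = c j * f (Pi.single i0 1)} :=
        measurableSet_eq_fun m3 (m2.const_mul _)
      have h1 := (D.ae_iff_ae hn0 hms).mpr (by
        filter_upwards [hw j hj, ae_mx_pos hI hn0] with w hw1 hw2
        show phi (Pi.single j 1) (mx w) + k n0 (Pi.single j 1) =
          c j * (phi (Pi.single i0 1) (mx w) + k n0 (Pi.single i0 1))
        rw [phi_single, phi_single, max_eq_left (hw2 j hj).le, max_eq_left (hw2 i0 hi0).le, hw1]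
        simp only [hc]; field_simp)
      filter_upwards [h1, hI] with x hx hx2
      have h2 : phi (Pi.single j 1) (a n0 • x) = c j * phi (Pi.single i0 1) (a n0 • x) := hx
      have h3 : 0 < (a n0 • x) i0 := mul_pos (D.apos n0 hn0) (hx2 i0 hi0)
      have h4 : 0 < (a n0 • x) j := mul_pos (D.apos n0 hn0) (hx2 j hj)
      rw [phi_single, phi_single, max_eq_left h3.le, max_eq_left h4.le] at h2
      simp only [Pi.smul_apply, smul_eq_mul] at h2
      have h5 := D.apos n0 hn0
      have h6 : a n0 * x j = a n0 * (c j * x i0) := by rw [h2]; ring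
      exact mul_left_cancel₀ h5.ne' h6
    have hrel' : ∀ᵐ x ∂μ, ∀ j ∈ I, x j = c j * x i0 := by
      rw [ae_all_iff]
      intro i
      by_cases hi : i ∈ I
      · filter_upwards [hrel i hi] with x hx _ using hx
      · exact Eventually.of_forall fun x hi' => absurd hi' hi
    rcases zero_one_or μ i0 with ⟨c0, hc0⟩ | ⟨t0, ht1, ht2⟩
    · left
      refine ⟨fun j => c j * c0, ?_⟩
      filter_upwards [hrel', hc0] with x hx hx2 j hj
      rw [hx j hj, hx2]
    · right; right
      set F := Fm μ i0 with hF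
      set S : Set ℝ := {t | 0 < F t} with hS
      have hSne : S.Nonempty := ⟨t0, ht1⟩
      have hSpos : ∀ t ∈ S, 0 < t := by
        intro t ht
        by_contra hle
        push Not at hle
        have h1 : 0 < F t := ht
        rw [hF, hF0 i0 hi0 t hle] at h1
        exact lt_irrefl _ h1
      have hSb : BddBelow S := ⟨0, fun t ht => (hSpos t ht).le⟩
      set l := sInf S with hl
      have hl0 : 0 ≤ l := le_csInf hSne fun t ht => (hSpos t ht).le
      have hm : ∀ n, 1 ≤ n → ∀ t, F (t / a n) = F (t - k n (Pi.single i0 1)) ^ n :=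
        fun n hn t => D.marg (hIi i0 hi0) hn t
      have hcen : ∀ n, 1 ≤ n → k n (Pi.single i0 1) = (a n - 1) * l := by
        intro n hn
        refine center_inf hSne hSb (D.apos n hn) fun s => ?_
        show 0 < F (s - k n (Pi.single i0 1)) ↔ 0 < F (s / a n)
        rw [hm n hn]
        constructor
        · intro h; exact pow_pos h n
        · intro h
          rcases (Fm_nonneg μ i0 (s - k n (Pi.single i0 1))).eq_or_lt with h0 | h0
          · rw [hF, ← h0, zero_pow (by omega)] at h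
            exact absurd h (lt_irrefl _)
          · exact h0
      have hG : ∀ n, 1 ≤ n → ∀ x, F (l + x / a n) = F (l + x) ^ n := by
        intro n hn x
        have h1 := hm n hn (l * a n + x)
        have h2 : (l * a n + x) / a n = l + x / a n := by
          have := (D.apos n hn).ne'
          field_simp
        rw [h2, hcen n hn] at h1
        rw [h1]; congr 2; ring
      have hlt : l < t0 := by
        refine lt_of_le_of_ne (csInf_le hSb ht1) fun heq => ?_
        have h1 := hG 2 (by norm_num) 0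
        rw [zero_div, add_zero, heq] at h1
        nlinarith
      obtain ⟨α, hα, han, s, hs, hGs⟩ := frechet (G := fun x => F (l + x)) (a := a) D.apos
        (fun x y _ hxy => Fm_mono μ i0 (by linarith)) (fun x _ => Fm_le_one μ i0 _)
        (fun n hn x _ => hG n hn x) (y0 := t0 - l) (by linarith) (by simpa using ht1)
        (by simpa using ht2)
      have hlpos : 0 < l := by
        refine lt_of_le_of_ne hl0 fun h0 => ?_
        apply hk0
        rw [hcen n0 hn0, ← h0, mul_zero]
      have hσ : 0 < s ^ (1 / α) := Real.rpow_pos_of_pos hs _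
      set σ := s ^ (1 / α) with hσdef
      refine ⟨fun j => σ * c j, l / σ, α, fun x => (x i0 - l) / σ, fun j hj =>
        mul_pos hσ (hcpos j hj), div_pos hlpos hσ, hα,
        ((measurable_pi_apply i0).sub_const _).div_const _, ?_, ?_⟩
      · filter_upwards [hrel'] with x hx j hj
        rw [hx j hj]
        field_simp
        ring
      · intro t ht
        have h1 : {x : ι → ℝ | (x i0 - l) / σ ≤ t} = {x | x i0 ≤ l + σ * t} := by
          ext x
          simp only [mem_ofPred_eq]
          rw [div_le_iff₀ hσ]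
          constructor <;> intro h <;> linarith
        rw [h1]
        have h2 := hGs (σ * t) (mul_pos hσ ht)
        have h3 : s * (σ * t) ^ (-α) = t ^ (-α) := by
          rw [Real.mul_rpow hσ.le ht.le, hσdef, ← Real.rpow_mul hs.le]
          have h4 : 1 / α * -α = -1 := by field_simp
          rw [h4, Real.rpow_neg_one, ← mul_assoc, mul_inv_cancel₀ hs.ne', one_mul]
        rw [h3] at h2
        rw [← h2]
        show _ = ENNReal.ofReal (Fm μ i0 (l + σ * t))
        rw [Fm, ENNReal.ofReal_toReal (measure_ne_top _ _)]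

end Dat

end Pool.Agent.R989.CHull
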