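import Pool.Agent.R989.HullE

open MeasureTheory Set Topology Filter
open scoped Pointwise

namespace Pool.Agent.R989.CHull

variable {ι : Type} [Fintype ι] [DecidableEq ι]

/-- direction `1` at `i`, `U` elsewhere -/
def dir1 (i : ι) (U : ℕ) : ι → ℕ := fun k => if k = i then 1 else U

/-- direction `p` at `i`, `q` at `j`, `U` elsewhere -/
def dir2 (i j : ι) (p q U : ℕ) : ι → ℕ := fun k => if k = i then p else if k = j then q else U

omit [DecidableEq ι] in
lemma exists_large {x : ι → ℝ} (hx : ∀ i, x i < 0) (c : ℝ) :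
    ∃ N : ℕ, ∀ U : ℕ, N ≤ U → ∀ k, (U : ℝ) * x k ≤ c := by
  obtain ⟨B, hB⟩ := (Set.finite_range (fun k => c / x k)).bddAbove
  obtain ⟨N, hN⟩ := exists_nat_ge B
  refine ⟨N, fun U hU k => ?_⟩
  have h1 : c / x k ≤ U := (hB (mem_range_self k)).trans (hN.trans (by exact_mod_cast hU))
  rw [div_le_iff_of_neg (hx k)] at h1
  exact h1

lemma ev_dir1 {x : ι → ℝ} (hx : ∀ i, x i < 0) (i : ι) :
    ∃ N : ℕ, ∀ U : ℕ, N ≤ U → phi (dir1 i U) x = x i := by
  have : Nonempty ι := ⟨i⟩
  obtain ⟨N, hN⟩ := exists_large hx (x i)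
  refine ⟨N, fun U hU => le_antisymm (phi_le fun k => ?_) ?_⟩
  · by_cases hk : k = i
    · subst hk; simp [dir1]
    · simpa [dir1, hk] using hN U hU k
  · have := le_phi (dir1 i U) x i
    simpa [dir1] using this

lemma ev_dir2 {x : ι → ℝ} (hx : ∀ i, x i < 0) {i j : ι} (hij : i ≠ j) (p q : ℕ) :
    ∃ N : ℕ, ∀ U : ℕ, N ≤ U → phi (dir2 i j p q U) x = max ((p : ℝ) * x i) (q * x j) := by
  have : Nonempty ι := ⟨i⟩
  obtain ⟨N, hN⟩ := exists_large hx ((p : ℝ) * x i)
  refine ⟨N, fun U hU => le_antisymm (phi_le fun k => ?_) (max_le ?_ ?_)⟩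
  · by_cases hk : k = i
    · subst hk; simp [dir2]
    · by_cases hk' : k = j
      · subst hk'; simp [dir2, hk]
      · have := hN U hU k
        simp only [dir2, hk, hk', if_false]
        exact le_max_of_le_left this
  · have := le_phi (dir2 i j p q U) x i
    simpa [dir2] using this
  · have := le_phi (dir2 i j p q U) x j
    simpa [dir2, hij.symm] using this

lemma meas_ev {P : ℕ → ((ι → ℕ) → ℝ) → Prop} (h : ∀ U, MeasurableSet {f | P U f}) :
    MeasurableSet {f : (ι → ℕ) → ℝ | ∃ N : ℕ, ∀ U : ℕ, N ≤ U → P U f} := by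
  simp only [ofPred_exists, ofPred_forall]
  exact MeasurableSet.iUnion fun N => MeasurableSet.iInter fun U => MeasurableSet.iInter fun _ =>
    h U

namespace Dat

variable {μ : Measure (ι → ℝ)} [IsProbabilityMeasure μ] {a : ℕ → ℝ} {k : ℕ → (ι → ℕ) → ℝ}

omit [Fintype ι] [DecidableEq ι] in
lemma ae_mx_neg (hneg : ∀ᵐ x ∂μ, ∀ i, x i < 0) {n : ℕ} (hn : 1 ≤ n) :
    ∀ᵐ w ∂(Measure.pi fun _ : Fin n => μ), ∀ i, mx w i < 0 := by
  filter_upwards [ae_pi_of_ae (n := n) hneg] with w hw i
  rw [mx_lt_iff hn]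
  exact fun j => hw j i

lemma smul_neg' (D : Dat μ a k) {n : ℕ} (hn : 1 ≤ n) {x : ι → ℝ} (hx : ∀ i, x i < 0) :
    ∀ i, (a n • x) i < 0 := fun i => mul_neg_of_pos_of_neg (D.apos n hn) (hx i)

lemma exists_kap (D : Dat μ a k) (hneg : ∀ᵐ x ∂μ, ∀ i, x i < 0) {n : ℕ} (hn : 1 ≤ n) (i : ι) :
    ∃ (κ : ℝ) (N : ℕ), ∀ U, N ≤ U → k n (dir1 i U) = κ := by
  have hms : MeasurableSet {f : (ι → ℕ) → ℝ | ∃ c : ℕ, ∀ U : ℕ, c ≤ U →
      f (dir1 i U) = f (dir1 i c)} := by
    simp only [ofPred_exists, ofPred_forall]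
    exact MeasurableSet.iUnion fun N => MeasurableSet.iInter fun U => MeasurableSet.iInter fun _ =>
      measurableSet_eq_fun (measurable_pi_apply _) (measurable_pi_apply _)
  have h1 := (D.ae_iff_ae hn hms).mp (by
    filter_upwards [hneg] with x hx
    obtain ⟨N, hN⟩ := ev_dir1 (D.smul_neg' hn hx) i
    refine ⟨N, fun U hU => ?_⟩
    rw [hN U hU, hN N le_rfl])
  obtain ⟨w, ⟨N, hN⟩, hw⟩ := (h1.and (ae_mx_neg hneg hn)).exists
  obtain ⟨N', hN'⟩ := ev_dir1 hw i
  refine ⟨phi (dir1 i N) (mx w) + k n (dir1 i N) - mx w i, max N N', fun U hU => ?_⟩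
  have h2 := hN U ((le_max_left _ _).trans hU)
  simp only at h2
  rw [hN' U ((le_max_right _ _).trans hU)] at h2
  linarith

lemma exists_kap2 (D : Dat μ a k) (hneg : ∀ᵐ x ∂μ, ∀ i, x i < 0) {n : ℕ} (hn : 1 ≤ n) {i j : ι}
    (hij : i ≠ j) (p q : ℕ) :
    ∃ (κ : ℝ) (N : ℕ), ∀ U, N ≤ U → k n (dir2 i j p q U) = κ := by
  have hms : MeasurableSet {f : (ι → ℕ) → ℝ | ∃ c : ℕ, ∀ U : ℕ, c ≤ U →
      f (dir2 i j p q U) = f (dir2 i j p q c)} := by
    simp only [ofPred_exists, ofPred_forall]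
    exact MeasurableSet.iUnion fun N => MeasurableSet.iInter fun U => MeasurableSet.iInter fun _ =>
      measurableSet_eq_fun (measurable_pi_apply _) (measurable_pi_apply _)
  have h1 := (D.ae_iff_ae hn hms).mp (by
    filter_upwards [hneg] with x hx
    obtain ⟨N, hN⟩ := ev_dir2 (D.smul_neg' hn hx) hij p q
    refine ⟨N, fun U hU => ?_⟩
    rw [hN U hU, hN N le_rfl])
  obtain ⟨w, ⟨N, hN⟩, hw⟩ := (h1.and (ae_mx_neg hneg hn)).exists
  obtain ⟨N', hN'⟩ := ev_dir2 hw hij p q
  refine ⟨phi (dir2 i j p q N) (mx w) + k n (dir2 i j p q N) - max (p * mx w i) (q * mx w j),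
    max N N', fun U hU => ?_⟩
  have h2 := hN U ((le_max_left _ _).trans hU)
  simp only at h2
  rw [hN' U ((le_max_right _ _).trans hU)] at h2
  linarith

/-- the data in the negative case -/
structure Neg (μ : Measure (ι → ℝ)) (a : ℕ → ℝ) (k : ℕ → (ι → ℕ) → ℝ) (κ : ℕ → ι → ℝ) : Prop where
  neg : ∀ᵐ x ∂μ, ∀ i, x i < 0
  nonpos : ∀ n, 1 ≤ n → ∀ i, κ n i ≤ 0
  ev : ∀ n, 1 ≤ n → ∀ i, ∃ N : ℕ, ∀ U, N ≤ U → k n (dir1 i U) = κ n i

lemma exists_neg (D : Dat μ a k) (hneg : ∀ᵐ x ∂μ, ∀ i, x i < 0)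
    (hk : ∀ n, 1 ≤ n → ∀ u, k n u ≤ 0) : ∃ κ, Neg μ a k κ := by
  have h : ∀ (n : ℕ) (i : ι), ∃ κ : ℝ, 1 ≤ n → ∃ N : ℕ, ∀ U, N ≤ U → k n (dir1 i U) = κ := by
    intro n i
    by_cases hn : 1 ≤ n
    · obtain ⟨κ, hκ⟩ := D.exists_kap hneg hn i
      exact ⟨κ, fun _ => hκ⟩
    · exact ⟨0, fun h => absurd h hn⟩
  choose κ hκ using h
  refine ⟨κ, hneg, fun n hn i => ?_, fun n hn i => hκ n i hn⟩
  obtain ⟨N, hN⟩ := hκ n i hn
  rw [← hN N le_rfl]
  exact hk n hn _

/-- transfer of eventual properties -/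
lemma neg_transfer (D : Dat μ a k) {κ : ℕ → ι → ℝ} (E : Neg μ a k κ) {n : ℕ} (hn : 1 ≤ n)
    {P : (ι → ℝ) → Prop} (hP : MeasurableSet {y | P y}) :
    μ {x | P (a n • x)} =
      (Measure.pi fun _ : Fin n => μ) {w | P (fun i => mx w i + κ n i)} := by
  have hms : MeasurableSet {f : (ι → ℕ) → ℝ | ∃ N : ℕ, ∀ U : ℕ, N ≤ U →
      P (fun i => f (dir1 i U))} := by
    refine meas_ev fun U => ?_
    have hm : Measurable (fun (f : (ι → ℕ) → ℝ) (i : ι) => f (dir1 i U)) :=
      measurable_pi_lambda _ fun i => measurable_pi_apply _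
    exact hm hP
  have h1 := D.law n hn _ hms
  have key : ∀ (x : ι → ℝ), (∀ i, x i < 0) → ∃ N : ℕ, ∀ U : ℕ, N ≤ U →
      (fun i => phi (dir1 i U) x) = x := by
    intro x hx
    choose N hN using fun i => ev_dir1 hx i
    refine ⟨Finset.univ.sup N, fun U hU => funext fun i => hN i U ?_⟩
    exact (Finset.le_sup (Finset.mem_univ i)).trans hU
  have e1 : μ {x | P (a n • x)} = μ {x | (fun u => phi u (a n • x)) ∈
      {f : (ι → ℕ) → ℝ | ∃ N : ℕ, ∀ U : ℕ, N ≤ U → P (fun i => f (dir1 i U))}} := by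
    apply measure_congr
    filter_upwards [E.neg] with x hx
    apply propext
    show P (a n • x) ↔ ∃ N : ℕ, ∀ U : ℕ, N ≤ U → P (fun i => phi (dir1 i U) (a n • x))
    obtain ⟨N, hN⟩ := key _ (D.smul_neg' hn hx)
    constructor
    · intro h
      exact ⟨N, fun U hU => by rw [hN U hU]; exact h⟩
    · rintro ⟨N', hN'⟩
      have := hN' (max N N') (le_max_right _ _)
      rwa [hN _ (le_max_left _ _)] at this
  have e2 : (Measure.pi fun _ : Fin n => μ) {w | P (fun i => mx w i + κ n i)} =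
      (Measure.pi fun _ : Fin n => μ) {w | (fun u => phi u (mx w) + k n u) ∈
      {f : (ι → ℕ) → ℝ | ∃ N : ℕ, ∀ U : ℕ, N ≤ U → P (fun i => f (dir1 i U))}} := by
    apply measure_congr
    filter_upwards [ae_mx_neg E.neg hn] with w hw
    apply propext
    show P (fun i => mx w i + κ n i) ↔ ∃ N : ℕ, ∀ U : ℕ, N ≤ U →
      P (fun i => phi (dir1 i U) (mx w) + k n (dir1 i U))
    obtain ⟨N, hN⟩ := key _ hw
    choose N2 hN2 using fun i => E.ev n hn i
    have hall : ∀ U, max N (Finset.univ.sup N2) ≤ U →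
        (fun i => phi (dir1 i U) (mx w) + k n (dir1 i U)) = fun i => mx w i + κ n i := by
      intro U hU
      funext i
      have h3 := congrFun (hN U ((le_max_left _ _).trans hU)) i
      rw [h3, hN2 i U ((Finset.le_sup (Finset.mem_univ i)).trans ((le_max_right _ _).trans hU))]
    constructor
    · intro h
      exact ⟨max N (Finset.univ.sup N2), fun U hU => by rw [hall U hU]; exact h⟩
    · rintro ⟨N', hN'⟩
      have := hN' (max (max N (Finset.univ.sup N2)) N') (le_max_right _ _)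
      rwa [hall _ (le_max_left _ _)] at this
  rw [e1, e2, h1]

lemma neg_transfer_ae (D : Dat μ a k) {κ : ℕ → ι → ℝ} (E : Neg μ a k κ) {n : ℕ} (hn : 1 ≤ n)
    {P : (ι → ℝ) → Prop} (hP : MeasurableSet {y | P y}) :
    (∀ᵐ x ∂μ, P (a n • x)) ↔
      ∀ᵐ w ∂(Measure.pi fun _ : Fin n => μ), P (fun i => mx w i + κ n i) := by
  rw [MeasureTheory.ae_iff, MeasureTheory.ae_iff]
  have := D.neg_transfer E hn (P := fun y => ¬ P y) hP.compl
  rw [this]

lemma neg_cdf (D : Dat μ a k) {κ : ℕ → ι → ℝ} (E : Neg μ a k κ) {n : ℕ} (hn : 1 ≤ n)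
    (J : Finset ι) (t : ι → ℝ) :
    μ {x | ∀ i ∈ J, a n * x i ≤ t i} = μ {x | ∀ i ∈ J, x i ≤ t i - κ n i} ^ n := by
  have hms : MeasurableSet {y : ι → ℝ | ∀ i ∈ J, y i ≤ t i} := by
    simp only [ofPred_forall]
    exact MeasurableSet.iInter fun i => MeasurableSet.iInter fun _ =>
      measurableSet_le (measurable_pi_apply _) measurable_const
  have h1 := D.neg_transfer E hn hms
  rw [← pi_mx_le μ hn]
  convert! h1 using 2
  ext w
  simp only [mem_ofPred_eq]
  refine forall_congr' fun i => forall_congr' fun hi => ?_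
  constructor <;> intro h <;> linarith

lemma neg_marg (D : Dat μ a k) {κ : ℕ → ι → ℝ} (E : Neg μ a k κ) {n : ℕ} (hn : 1 ≤ n) (i : ι)
    (t : ℝ) : Fm μ i (t / a n) = Fm μ i (t - κ n i) ^ n := by
  have h1 := D.neg_cdf E hn {i} (fun _ => t)
  simp only [Finset.mem_singleton, forall_eq] at h1
  have h2 : {x : ι → ℝ | a n * x i ≤ t} = {x | x i ≤ t / a n} := by
    ext x
    simp only [mem_ofPred_eq]
    rw [le_div_iff₀ (D.apos n hn), mul_comm]
  rw [h2] at h1
  unfold Fm
  rw [h1, ENNReal.toReal_pow]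

lemma neg_kink (D : Dat μ a k) {κ : ℕ → ι → ℝ} (E : Neg μ a k κ) {n : ℕ} (hn : 1 ≤ n) (i j : ι) :
    ∀ᵐ w ∂(Measure.pi fun _ : Fin n => μ), κ n i * mx w j = κ n j * mx w i := by
  by_cases hij : i = j
  · subst hij; exact Eventually.of_forall fun _ => rfl
  have h2 : ∀ p q : ℕ, ∃ (κ' : ℝ) (N : ℕ), ∀ U, N ≤ U → k n (dir2 i j p q U) = κ' :=
    fun p q => D.exists_kap2 E.neg hn hij p q
  choose κ2 N2 hκ2 using h2
  have hrel : ∀ p q : ℕ, ∀ᵐ w ∂(Measure.pi fun _ : Fin n => μ),
      max ((p : ℝ) * mx w i) (q * mx w j) + κ2 p q =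
        max ((p : ℝ) * (mx w i + κ n i)) (q * (mx w j + κ n j)) := by
    intro p q
    have hms : MeasurableSet {f : (ι → ℕ) → ℝ | ∃ N : ℕ, ∀ U : ℕ, N ≤ U →
        f (dir2 i j p q U) = max ((p : ℝ) * f (dir1 i U)) (q * f (dir1 j U))} := by
      refine meas_ev fun U => ?_
      have m1 : Measurable (fun f : (ι → ℕ) → ℝ => f (dir2 i j p q U)) := measurable_pi_apply _
      have m2 : Measurable (fun f : (ι → ℕ) → ℝ => f (dir1 i U)) := measurable_pi_apply _
      have m3 : Measurable (fun f : (ι → ℕ) → ℝ => f (dir1 j U)) := measurable_pi_apply _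
      exact measurableSet_eq_fun m1 ((m2.const_mul _).max (m3.const_mul _))
    have h1 := (D.ae_iff_ae hn hms).mp (by
      filter_upwards [E.neg] with x hx
      have hx' := D.smul_neg' hn hx
      obtain ⟨N, hN⟩ := ev_dir2 hx' hij p q
      obtain ⟨N', hN'⟩ := ev_dir1 hx' i
      obtain ⟨N'', hN''⟩ := ev_dir1 hx' j
      refine ⟨max N (max N' N''), fun U hU => ?_⟩
      have h4 : N ≤ U := (le_max_left _ _).trans hU
      have h5 : N' ≤ U := ((le_max_left _ _).trans (le_max_right _ _)).trans hU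
      have h6 : N'' ≤ U := ((le_max_right _ _).trans (le_max_right _ _)).trans hU
      rw [hN U h4, hN' U h5, hN'' U h6])
    filter_upwards [h1, ae_mx_neg E.neg hn] with w hw hw'
    obtain ⟨N0, hN0⟩ := hw
    obtain ⟨N, hN⟩ := ev_dir2 hw' hij p q
    obtain ⟨N', hN'⟩ := ev_dir1 hw' i
    obtain ⟨N'', hN''⟩ := ev_dir1 hw' j
    obtain ⟨N3, hN3⟩ := E.ev n hn i
    obtain ⟨N4, hN4⟩ := E.ev n hn j
    set U := N0 + N + N' + N'' + N3 + N4 + N2 p q with hU
    have h7 := hN0 U (by omega)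
    rwa [hN U (by omega), hN' U (by omega), hN'' U (by omega), hN3 U (by omega),
      hN4 U (by omega), hκ2 p q U (by omega)] at h7
  have hA' : ∀ᵐ w ∂(Measure.pi fun _ : Fin n => μ), ∀ i, mx w i + κ n i < 0 := by
    have hms : MeasurableSet {y : ι → ℝ | ∀ i, y i < 0} := by
      simp only [ofPred_forall]
      exact MeasurableSet.iInter fun i =>
        measurableSet_lt (measurable_pi_apply _) measurable_const
    have h1 := (D.neg_transfer_ae E hn hms).mp (by
      filter_upwards [E.neg] with x hx using D.smul_neg' hn hx)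
    exact h1
  have hrel' := ae_all_iff.mpr fun p => ae_all_iff.mpr fun q => hrel p q
  filter_upwards [hrel', ae_mx_neg E.neg hn, hA'] with w hw hw1 hw2
  have key := kink (A := mx w i) (B := mx w j) (A' := mx w i + κ n i)
    (B' := mx w j + κ n j) (h := κ2) ?_ (fun p q _ _ => hw p q)
    (Or.inr ⟨hw1 i, hw1 j, hw2 i, hw2 j⟩)
  · linarith
  · intro p q p' q' _ _ _ _
    set U := N2 p q + N2 p' q' + N2 (p + p') (q + q') with hU
    have h4 : dir2 i j (p + p') (q + q') (U + U) = dir2 i j p q U + dir2 i j p' q' U := by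
      funext l
      simp only [dir2, Pi.add_apply]
      split_ifs <;> rfl
    have h5 := D.sub n hn (dir2 i j p q U) (dir2 i j p' q' U)
    rw [← h4, hκ2 _ _ _ (by omega), hκ2 _ _ _ (by omega), hκ2 _ _ _ (by omega)] at h5
    exact h5

lemma strictly_neg [Nontrivial ι] (D : Dat μ a k) {κ : ℕ → ι → ℝ} (E : Neg μ a k κ) :
    (∃ c : ι → ℝ, ∀ᵐ x ∂μ, x = c) ∨
      ∃ α : ℝ, 0 < α ∧ MaxStableOn μ Finset.univ (-1 / α) := by
  have hF1 : ∀ i, ∀ t, 0 ≤ t → Fm μ i t = 1 := by
    intro i t ht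
    have : μ {x | x i ≤ t} = 1 := by
      rw [← prob_compl_eq_zero_iff (measurableSet_le (measurable_pi_apply _) measurable_const)]
      have h1 := E.neg
      rw [MeasureTheory.ae_iff] at h1
      refine measure_mono_null (fun x hx => ?_) h1
      intro hcon
      apply hx
      show x i ≤ t
      linarith [hcon i]
    simp [Fm, this]
  by_cases hk : ∀ n, 1 ≤ n → ∀ i, κ n i = 0
  · by_cases hex : ∃ i, ∃ t0, 0 < Fm μ i t0 ∧ Fm μ i t0 < 1
    · right
      obtain ⟨i, t0, h1, h2⟩ := hex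
      have ht0 : t0 < 0 := by
        by_contra hle
        push Not at hle
        rw [hF1 i t0 hle] at h2
        exact lt_irrefl _ h2
      obtain ⟨α, hα, han, _⟩ := frechet (G := fun y => Fm μ i (-1 / y)) (a := fun n => 1 / a n)
        (fun n hn => one_div_pos.mpr (D.apos n hn))
        (fun x y hx hxy => Fm_mono μ i (by
          rw [neg_div, neg_div]; exact neg_le_neg (one_div_le_one_div_of_le hx hxy)))
        (fun x _ => Fm_le_one μ i _)
        (fun n hn x hx => by
          have h3 := D.neg_marg E hn i (-1 / x)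
          rw [hk n hn i, sub_zero] at h3
          show Fm μ i (-1 / (x / (1 / a n))) = Fm μ i (-1 / x) ^ n
          rw [← h3]
          congr 1
          have := (D.apos n hn).ne'
          field_simp) (y0 := -1 / t0) (div_pos_of_neg_of_neg (by norm_num) ht0)
        (by
          have : -1 / (-1 / t0) = t0 := by field_simp
          simp only [this]; exact h1)
        (by
          have : -1 / (-1 / t0) = t0 := by field_simp
          simp only [this]; exact h2)
      refine ⟨α, hα, fun n hn t => ?_⟩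
      have han' : a n = (n : ℝ) ^ (-1 / α) := by
        have h3 := han n hn
        have h4 := D.apos n hn
        rw [neg_div, Real.rpow_neg (Nat.cast_nonneg _), ← h3]
        simp
      have h3 := D.neg_cdf E hn Finset.univ (fun i => a n * t i)
      have h4 : {x : ι → ℝ | ∀ i ∈ Finset.univ, a n * x i ≤ a n * t i} =
          {x | ∀ i ∈ Finset.univ, x i ≤ t i} := by
        ext x
        simp only [mem_ofPred_eq]
        exact forall_congr' fun i => forall_congr' fun _ =>
          mul_le_mul_iff_of_pos_left (D.apos n hn)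
      have h5 : {x : ι → ℝ | ∀ i ∈ Finset.univ, x i ≤ a n * t i - κ n i} =
          {x | ∀ i ∈ Finset.univ, x i ≤ (n : ℝ) ^ (-1 / α) * t i} := by
        ext x
        simp only [mem_ofPred_eq]
        refine forall_congr' fun i => forall_congr' fun hi => ?_
        rw [hk n hn i, sub_zero, han']
      rw [h4, h5] at h3
      exact h3
    · left
      have h1 : ∀ i : ι, ∃ c, ∀ᵐ x ∂μ, x i = c := by
        intro i
        rcases zero_one_or μ i with hc | h2
        · exact hc
        · exact absurd ⟨i, h2⟩ hex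
      choose c hc using h1
      refine ⟨c, ?_⟩
      filter_upwards [ae_all_iff.mpr hc] with x hx using funext hx
  · left
    push Not at hk
    obtain ⟨n0, hn0, i0, hk0⟩ := hk
    set c : ι → ℝ := fun j => κ n0 j / κ n0 i0 with hc
    have hw : ∀ j, ∀ᵐ w ∂(Measure.pi fun _ : Fin n0 => μ), mx w j = c j * mx w i0 := by
      intro j
      filter_upwards [D.neg_kink E hn0 i0 j] with w hw
      simp only [hc]; field_simp; linarith
    have hrel : ∀ j, ∀ᵐ x ∂μ, x j = c j * x i0 := by
      intro j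
      have m2 : Measurable (fun f : ι → ℝ => f i0) := measurable_pi_apply _
      have m3 : Measurable (fun f : ι → ℝ => f j) := measurable_pi_apply _
      have hms : MeasurableSet {f : ι → ℝ | f j = c j * f i0} :=
        measurableSet_eq_fun m3 (m2.const_mul _)
      have h1 := (D.neg_transfer_ae E hn0 hms).mpr (by
        filter_upwards [hw j] with w hw1
        show mx w j + κ n0 j = c j * (mx w i0 + κ n0 i0)
        rw [hw1]
        simp only [hc]; field_simp)
      filter_upwards [h1] with x hx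
      simp only [Pi.smul_apply, smul_eq_mul] at hx
      have h5 := D.apos n0 hn0
      have h6 : a n0 * x j = a n0 * (c j * x i0) := by rw [hx]; ring
      exact mul_left_cancel₀ h5.ne' h6
    rcases zero_one_or μ i0 with ⟨c0, hc0⟩ | ⟨t0, ht1, ht2⟩
    · refine ⟨fun j => c j * c0, ?_⟩
      filter_upwards [ae_all_iff.mpr hrel, hc0] with x hx hx2
      funext j
      rw [hx j, hx2]
    · exfalso
      set F := Fm μ i0 with hF
      set S : Set ℝ := {t | F t < 1} with hS
      have hSne : S.Nonempty := ⟨t0, ht2⟩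
      have hSneg : ∀ t ∈ S, t < 0 := by
        intro t ht
        by_contra hle
        push Not at hle
        have h1 : F t < 1 := ht
        rw [hF, hF1 i0 t hle] at h1
        exact lt_irrefl _ h1
      have hSb : BddAbove S := ⟨0, fun t ht => (hSneg t ht).le⟩
      set e := sSup S with he
      have he0 : e ≤ 0 := csSup_le hSne fun t ht => (hSneg t ht).le
      have hm : ∀ n, 1 ≤ n → ∀ t, F (t / a n) = F (t - κ n i0) ^ n :=
        fun n hn t => D.neg_marg E hn i0 t
      have hcen : ∀ n, 1 ≤ n → κ n i0 = (a n - 1) * e := by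
        intro n hn
        refine center_sup hSne hSb (D.apos n hn) fun s => ?_
        show F (s - κ n i0) < 1 ↔ F (s / a n) < 1
        rw [hm n hn]
        constructor
        · intro h; exact pow_lt_one₀ (Fm_nonneg μ i0 _) h (by omega)
        · intro h
          by_contra hge
          push Not at hge
          have h1 : (1 : ℝ) ≤ F (s - κ n i0) ^ n := one_le_pow₀ hge
          linarith
      have hene : e ≠ 0 := by
        intro h0
        apply hk0
        rw [hcen n0 hn0, h0, mul_zero]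
      have heneg : e < 0 := lt_of_le_of_ne he0 hene
      have ha2 : 1 ≤ a 2 := by
        have h1 := E.nonpos 2 (by norm_num) i0
        rw [hcen 2 (by norm_num)] at h1
        nlinarith
      have hte : t0 ≤ e := le_csSup hSb ht2
      have h1 := hm 2 (by norm_num) (e * a 2 + (t0 - e))
      have h2 : (e * a 2 + (t0 - e)) / a 2 = e + (t0 - e) / a 2 := by
        have : a 2 ≠ 0 := by linarith
        field_simp
      have h3 : e * a 2 + (t0 - e) - κ 2 i0 = t0 := by
        rw [hcen 2 (by norm_num)]; ring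
      rw [h2, h3] at h1
      have h4 : t0 ≤ e + (t0 - e) / a 2 := by
        have h5 : t0 - e ≤ (t0 - e) / a 2 := by
          rw [le_div_iff₀ (by linarith)]
          nlinarith
        linarith
      have h5 : F t0 ≤ F (e + (t0 - e) / a 2) := Fm_mono μ i0 h4
      rw [h1] at h5
      nlinarith

theorem negative_case [Nontrivial ι] (D : Dat μ a k) (hall : ∀ᵐ x ∂μ, ∀ i, x i ≤ 0) :
    (∀ᵐ x ∂μ, (∀ i, x i ≤ 0) ∧ ∃ i, x i = 0) ∨
    ((∀ᵐ x ∂μ, ∀ i, x i < 0) ∧ ((∃ c : ι → ℝ, ∀ᵐ x ∂μ, x = c) ∨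
      ∃ α : ℝ, 0 < α ∧ MaxStableOn μ Finset.univ (-1 / α))) := by
  have hk0 : ∀ n, 1 ≤ n → ∀ i, k n (Pi.single i 1) = 0 := by
    intro n hn i
    apply D.k_eq_zero _ hn
    have : ∀ᵐ x ∂μ, x i ≤ 0 := by filter_upwards [hall] with x hx using hx i
    intro h0
    have h1 : ∀ᵐ x ∂μ, ¬ (x i ≤ 0) := by
      rw [MeasureTheory.ae_iff]; simpa using h0
    obtain ⟨x, hx1, hx2⟩ := (this.and h1).exists
    exact hx2 hx1
  have hk : ∀ n, 1 ≤ n → ∀ u, k n u ≤ 0 := by
    intro n hn u
    have := D.mono n hn (fun i => (hk0 n hn i).le) 0 u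
    rwa [zero_add, D.zero n hn] at this
  have hphi : ∀ x : ι → ℝ, phi 1 x < 0 ↔ ∀ i, x i < 0 := by
    intro x
    constructor
    · intro h i
      have := le_phi 1 x i
      simp only [Pi.one_apply, Nat.cast_one, one_mul] at this
      linarith
    · intro h
      obtain ⟨i, hi⟩ := exists_phi 1 x
      rw [hi]; simpa using h i
  have hsm : ∀ n, 1 ≤ n → ∀ x : ι → ℝ, (∀ i, (a n • x) i < 0) ↔ ∀ i, x i < 0 := by
    intro n hn x
    refine forall_congr' fun i => ?_
    have := D.apos n hn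
    constructor
    · intro h
      by_contra h'
      push Not at h'
      have h2 : (a n • x) i = a n * x i := rfl
      rw [h2] at h
      have := mul_nonneg this.le h'
      linarith
    · intro h; exact mul_neg_of_pos_of_neg this h
  by_cases hr : ∀ᵐ x ∂μ, ∀ i, x i < 0
  · right
    obtain ⟨κ, E⟩ := D.exists_neg hr hk
    exact ⟨hr, D.strictly_neg E⟩
  · left
    have hms : MeasurableSet {f : (ι → ℕ) → ℝ | f 1 < 0} :=
      measurableSet_lt (measurable_pi_apply _) measurable_const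
    have hκ : k 2 1 = 0 := by
      by_contra hne
      have hlt : k 2 1 < 0 := lt_of_le_of_ne (hk 2 (by norm_num) 1) hne
      apply hr
      have h1 := (D.ae_iff_ae (n := 2) (by norm_num) hms).mpr (by
        filter_upwards [ae_pi_of_ae (n := 2) hall] with w hw
        show phi 1 (mx w) + k 2 1 < 0
        have h2 : phi 1 (mx w) ≤ 0 := by
          refine phi_le fun i => ?_
          simp only [Pi.one_apply, Nat.cast_one, one_mul]
          rw [mx_le_iff (by norm_num)]
          exact fun j => hw j i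
        linarith)
      filter_upwards [h1] with x hx
      have h2 : phi 1 (a 2 • x) < 0 := hx
      rw [hphi, hsm 2 (by norm_num)] at h2
      exact h2
    have h1 := D.law 2 (by norm_num) _ hms
    simp only [mem_ofPred_eq, hκ, add_zero, hphi, hsm 2 (by norm_num)] at h1
    have h2 : (Measure.pi fun _ : Fin 2 => μ) {w | ∀ i, mx w i < 0} =
        μ {x | ∀ i, x i < 0} ^ 2 := by
      rw [← pi_forall]
      congr 1
      ext w
      simp only [mem_ofPred_eq, mx_lt_iff (show 1 ≤ 2 by norm_num)]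
      exact ⟨fun h j i => h i j, fun h i j => h j i⟩
    rw [h2] at h1
    have h3 : μ {x | ∀ i, x i < 0} = 0 := by
      by_contra hne
      have h4 : μ {x | ∀ i, x i < 0} * 1 = μ {x | ∀ i, x i < 0} * μ {x | ∀ i, x i < 0} := by
        rw [mul_one, ← sq]; exact h1
      have h5 := ((ENNReal.mul_right_inj hne (measure_ne_top _ _)).mp h4).symm
      apply hr
      have hms2 : MeasurableSet {x : ι → ℝ | ∀ i, x i < 0} := by
        simp only [ofPred_forall]
        exact MeasurableSet.iInter fun i =>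
          measurableSet_lt (measurable_pi_apply _) measurable_const
      rw [← prob_compl_eq_zero_iff hms2] at h5
      exact h5
    have h4 : ∀ᵐ x ∂μ, ¬ ∀ i, x i < 0 := by
      rw [MeasureTheory.ae_iff]; simpa only [not_not] using h3
    filter_upwards [hall, h4] with x hx hx2
    refine ⟨hx, ?_⟩
    push Not at hx2
    obtain ⟨i, hi⟩ := hx2
    exact ⟨i, le_antisymm (hx i) hi⟩

end Dat

end Pool.Agent.R989.CHull
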