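import Pool.Agent.R989.HullF

open MeasureTheory Set Topology Filter
open scoped Pointwise

namespace Pool.Agent.R989.CHull

variable {ι : Type} [Fintype ι] [DecidableEq ι]

/-- equality in law from a common representation -/
lemma sameLaw_core {E Ω Ω' T : Type} [TopologicalSpace E] [MeasurableSpace Ω]
    [MeasurableSpace Ω'] [MeasurableSpace T] {P : Measure Ω} {P' : Measure Ω'} {X : Ω → Set E}
    {X' : Ω' → Set E} {Z : Ω → T} {Z' : Ω' → T} (hZ : Measurable Z) (hZ' : Measurable Z')
    (hlaw : P.map Z = P'.map Z') {Ψ : T → Set E} (hΨ : @Measurable _ _ _ (hitSigma E) Ψ)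
    (h : ∀ᵐ ω ∂P, X ω = Ψ (Z ω)) (h' : ∀ᵐ ω ∂P', X' ω = Ψ (Z' ω)) : SameLaw P X P' X' := by
  intro 𝒜 h𝒜
  have hm : MeasurableSet (Ψ ⁻¹' 𝒜) := hΨ h𝒜
  have e1 : P (X ⁻¹' 𝒜) = P (Z ⁻¹' (Ψ ⁻¹' 𝒜)) := by
    apply measure_congr
    filter_upwards [h] with ω hω
    apply propext
    show X ω ∈ 𝒜 ↔ Ψ (Z ω) ∈ 𝒜
    rw [hω]
  have e2 : P' (X' ⁻¹' 𝒜) = P' (Z' ⁻¹' (Ψ ⁻¹' 𝒜)) := by
    apply measure_congr
    filter_upwards [h'] with ω hω
    apply propext
    show X' ω ∈ 𝒜 ↔ Ψ (Z' ω) ∈ 𝒜
    rw [hω]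
  rw [e1, e2, ← Measure.map_apply hZ hm, ← Measure.map_apply hZ' hm, hlaw]

/-- sufficient condition with `K = {0}` -/
lemma stable_of [Nonempty ι] {μ : Measure (ι → ℝ)} [IsProbabilityMeasure μ]
    (h : ∀ n : ℕ, 1 ≤ n → ∃ a : ℝ, 0 < a ∧ ∃ (Z : (ι → ℝ) → (ι → ℝ))
      (Z' : (Fin n → ι → ℝ) → (ι → ℝ)), Measurable Z ∧ Measurable Z' ∧
      μ.map Z = (Measure.pi fun _ : Fin n => μ).map Z' ∧ (∀ᵐ x ∂μ, cH (a • x) = cH (Z x)) ∧
      ∀ᵐ w ∂(Measure.pi fun _ : Fin n => μ), cH (mx w) = cH (Z' w)) :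
    ConvexStable μ coordHull := by
  intro n hn
  obtain ⟨a, ha, Z, Z', hZ, hZ', hlaw, h1, h2⟩ := h n hn
  have : Nonempty (Fin n) := ⟨⟨0, hn⟩⟩
  refine ⟨a, ha, {0}, isCompact_singleton, convex_singleton 0, singleton_nonempty 0, ?_⟩
  refine sameLaw_core hZ hZ' hlaw measurable_cH ?_ ?_
  · filter_upwards [h1] with x hx
    rw [coordHull_eq, smul_cH ha, hx]
  · filter_upwards [h2] with w hw
    have h3 : closure (convexHull ℝ (⋃ j, coordHull (w j))) = cH (mx w) := by
      rw [← hull_union]; simp only [coordHull_eq]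
    rw [h3, hw]
    simp

lemma ext_Iic_fin (P Q : Measure (ι → ℝ)) [IsProbabilityMeasure P] [IsProbabilityMeasure Q]
    (h : ∀ t : ι → ℝ, P {f | ∀ u, f u ≤ t u} = Q {f | ∀ u, f u ≤ t u}) : P = Q := by
  apply ext_Iic
  intro F t
  have e : {f : ι → ℝ | ∀ u ∈ F, f u ≤ t u} =
      ⋃ m : ℕ, {f : ι → ℝ | ∀ u, f u ≤ if u ∈ F then t u else (m : ℝ)} := by
    ext f
    simp only [mem_ofPred_eq, mem_iUnion]
    constructor
    · intro h1
      obtain ⟨B, hB⟩ := (Set.finite_range f).bddAbove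
      obtain ⟨m, hm⟩ := exists_nat_ge B
      refine ⟨m, fun u => ?_⟩
      by_cases hu : u ∈ F
      · simpa [hu] using h1 u hu
      · simpa [hu] using (hB (mem_range_self u)).trans hm
    · rintro ⟨m, hm⟩ u hu
      simpa [hu] using hm u
  have hmono : Monotone fun m : ℕ => {f : ι → ℝ | ∀ u, f u ≤ if u ∈ F then t u else (m : ℝ)} := by
    intro m m' hmm f hf u
    have h1 : f u ≤ if u ∈ F then t u else (m : ℝ) := hf u
    by_cases hu : u ∈ F
    · simpa [hu] using h1
    · simp only [hu, if_false] at h1 ⊢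
      exact h1.trans (by exact_mod_cast hmm)
  rw [e, hmono.measure_iUnion, hmono.measure_iUnion]
  simp only [h]

/-- restriction to `I`, extended by zero -/
def res (I : Finset ι) (x : ι → ℝ) : ι → ℝ := fun i => if i ∈ I then x i else 0

lemma res_univ (x : ι → ℝ) : res Finset.univ x = x := by
  funext i; simp [res]

omit [Fintype ι] in
lemma measurable_res (I : Finset ι) : Measurable (res I) := by
  refine measurable_pi_lambda _ fun i => ?_
  unfold res
  by_cases hi : i ∈ I
  · simpa [hi] using measurable_pi_apply i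
  · simp [hi]

lemma cH_res {I : Finset ι} (hI : I.Nonempty) {x : ι → ℝ} (h1 : ∀ i ∈ I, 0 < x i)
    (h2 : ∀ i ∉ I, x i ≤ 0) : cH x = cH (res I x) := by
  apply Subset.antisymm
  · apply cH_mono
    intro i
    by_cases hi : i ∈ I
    · simp [res, hi]
    · simpa [res, hi] using h2 i hi
  · rintro y ⟨l, hl, hy⟩
    obtain ⟨i0, hi0⟩ := hI
    set s := ∑ i, (if i ∈ I then 0 else l i) with hs
    have hs0 : 0 ≤ s := Finset.sum_nonneg fun i _ => by
      split_ifs
      · exact le_rfl
      · exact hl.1 i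
    refine ⟨fun i => res I l i + s * (Pi.single i0 1 : ι → ℝ) i, ⟨fun i => ?_, ?_⟩, fun i => ?_⟩
    · have h3 : 0 ≤ res I l i := by
        unfold res; split_ifs
        · exact hl.1 i
        · exact le_rfl
      have h4 : (0 : ℝ) ≤ (Pi.single i0 1 : ι → ℝ) i := by
        by_cases h : i = i0
        · subst h; simp
        · simp [h]
      positivity
    · rw [Finset.sum_add_distrib, ← Finset.mul_sum]
      have h5 : ∑ i, (Pi.single i0 1 : ι → ℝ) i = 1 := by simp
      rw [h5, mul_one, hs, ← Finset.sum_add_distrib, ← hl.2]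
      refine Finset.sum_congr rfl fun i _ => ?_
      unfold res; split_ifs <;> simp
    · by_cases hi : i ∈ I
      · have h3 := hy i
        simp only [res, hi, if_true] at h3 ⊢
        have h4 : 0 ≤ s * (Pi.single i0 1 : ι → ℝ) i := by
          apply mul_nonneg hs0
          by_cases h : i = i0
          · subst h; simp
          · simp [h]
        have h5 := mul_nonneg h4 (h1 i hi).le
        nlinarith
      · have h3 := hy i
        have hne : i ≠ i0 := fun h => hi (h ▸ hi0)
        simp only [res, hi, if_false, mul_zero] at h3 ⊢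
        simpa [hne] using h3

lemma cH_zero {x : ι → ℝ} (h1 : ∀ i, x i ≤ 0) (h2 : ∃ i, x i = 0) : cH x = cH 0 := by
  apply Subset.antisymm
  · exact cH_mono h1
  · rintro y ⟨l, hl, hy⟩
    obtain ⟨i, hi⟩ := h2
    refine ⟨Pi.single i 1, single_mem_stdSimplex ℝ i, fun k => ?_⟩
    have h3 := hy k
    simp only [Pi.zero_apply, mul_zero] at h3
    by_cases hk : k = i
    · subst hk; simpa [hi] using h3
    · simpa [hk] using h3

lemma map_const_eq {Ω Ω' T : Type} [MeasurableSpace Ω] [MeasurableSpace Ω'] [MeasurableSpace T]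
    (P : Measure Ω) (P' : Measure Ω') [IsProbabilityMeasure P] [IsProbabilityMeasure P'] (c : T) :
    P.map (fun _ => c) = P'.map (fun _ => c) := by
  rw [Measure.map_const, Measure.map_const, measure_univ, measure_univ]

lemma stable_A [Nonempty ι] {μ : Measure (ι → ℝ)} [IsProbabilityMeasure μ]
    (h : ∀ᵐ x ∂μ, (∀ i, x i ≤ 0) ∧ ∃ i, x i = 0) : ConvexStable μ coordHull := by
  apply stable_of
  intro n hn
  refine ⟨1, one_pos, fun _ => 0, fun _ => 0, measurable_const, measurable_const,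
    map_const_eq _ _ _, ?_, ?_⟩
  · filter_upwards [h] with x hx
    rw [one_smul, cH_zero hx.1 hx.2]
  · filter_upwards [ae_pi_of_ae (n := n) h] with w hw
    apply cH_zero
    · intro i
      rw [mx_le_iff hn]
      exact fun j => (hw j).1 i
    · obtain ⟨i, hi⟩ := (hw ⟨0, hn⟩).2
      refine ⟨i, le_antisymm ?_ ?_⟩
      · rw [mx_le_iff hn]
        exact fun j => (hw j).1 i
      · have : Nonempty (Fin n) := ⟨⟨0, hn⟩⟩
        have h3 : w ⟨0, hn⟩ i ≤ mx w i :=
          le_ciSup (f := fun j => w j i) (Set.finite_range _).bddAbove _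
        rwa [hi] at h3

lemma stable_B1 [Nonempty ι] {μ : Measure (ι → ℝ)} [IsProbabilityMeasure μ] {c : ι → ℝ}
    (h : ∀ᵐ x ∂μ, x = c) : ConvexStable μ coordHull := by
  apply stable_of
  intro n hn
  refine ⟨1, one_pos, fun _ => c, fun _ => c, measurable_const, measurable_const,
    map_const_eq _ _ _, ?_, ?_⟩
  · filter_upwards [h] with x hx
    rw [one_smul, hx]
  · filter_upwards [ae_pi_of_ae (n := n) h] with w hw
    have : Nonempty (Fin n) := ⟨⟨0, hn⟩⟩
    congr 1
    funext i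
    show (⨆ j, w j i) = c i
    simp only [hw, ciSup_const]

lemma law_res {μ : Measure (ι → ℝ)} [IsProbabilityMeasure μ] {I : Finset ι} {s : ℝ}
    (h : MaxStableOn μ I s) {n : ℕ} (hn : 1 ≤ n) :
    μ.map (fun x => res I (((n : ℝ) ^ s) • x)) =
      (Measure.pi fun _ : Fin n => μ).map (fun w => res I (mx w)) := by
  have hn0 : (0 : ℝ) < n := by exact_mod_cast hn
  have hpos : 0 < (n : ℝ) ^ s := Real.rpow_pos_of_pos hn0 _
  have hm1 : Measurable (fun x : ι → ℝ => res I (((n : ℝ) ^ s) • x)) :=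
    (measurable_res I).comp (measurable_const_smul _)
  have hm2 : Measurable (fun w : Fin n → ι → ℝ => res I (mx w)) :=
    (measurable_res I).comp measurable_mx
  have := Measure.isProbabilityMeasure_map (μ := μ) hm1.aemeasurable
  have := Measure.isProbabilityMeasure_map (μ := (Measure.pi fun _ : Fin n => μ))
    hm2.aemeasurable
  apply ext_Iic_fin
  intro t
  have hms : MeasurableSet {f : ι → ℝ | ∀ u, f u ≤ t u} := by
    simp only [ofPred_forall]
    exact MeasurableSet.iInter fun i => measurableSet_le (measurable_pi_apply _) measurable_const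
  rw [Measure.map_apply hm1 hms, Measure.map_apply hm2 hms]
  by_cases ht : ∀ u ∉ I, 0 ≤ t u
  · have e1 : (fun x : ι → ℝ => res I (((n : ℝ) ^ s) • x)) ⁻¹' {f | ∀ u, f u ≤ t u} =
        {x | ∀ i ∈ I, x i ≤ t i / (n : ℝ) ^ s} := by
      ext x
      simp only [mem_preimage, mem_ofPred_eq, res, Pi.smul_apply, smul_eq_mul]
      constructor
      · intro h1 i hi
        have := h1 i
        simp only [hi, if_true] at this
        rw [le_div_iff₀ hpos]; linarith
      · intro h1 i
        by_cases hi : i ∈ I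
        · have := h1 i hi
          rw [le_div_iff₀ hpos] at this
          simp only [hi, if_true]; linarith
        · simpa [hi] using ht i hi
    have e2 : (fun w : Fin n → ι → ℝ => res I (mx w)) ⁻¹' {f | ∀ u, f u ≤ t u} =
        {w | ∀ i ∈ I, mx w i ≤ t i} := by
      ext w
      simp only [mem_preimage, mem_ofPred_eq, res]
      constructor
      · intro h1 i hi
        simpa [hi] using h1 i
      · intro h1 i
        by_cases hi : i ∈ I
        · simpa [hi] using h1 i hi
        · simpa [hi] using ht i hi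
    rw [e1, e2, pi_mx_le μ hn, h n hn]
    congr 2
    ext x
    simp only [mem_ofPred_eq]
    refine forall_congr' fun i => forall_congr' fun _ => ?_
    rw [mul_div_cancel₀ _ hpos.ne']
  · push Not at ht
    obtain ⟨u, hu, hlt⟩ := ht
    have e1 : (fun x : ι → ℝ => res I (((n : ℝ) ^ s) • x)) ⁻¹' {f | ∀ u, f u ≤ t u} = ∅ := by
      ext x
      simp only [mem_preimage, mem_ofPred_eq, mem_empty_iff_false, iff_false]
      intro h1
      have := h1 u
      simp only [res, hu, if_false] at this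
      linarith
    have e2 : (fun w : Fin n → ι → ℝ => res I (mx w)) ⁻¹' {f | ∀ u, f u ≤ t u} = ∅ := by
      ext x
      simp only [mem_preimage, mem_ofPred_eq, mem_empty_iff_false, iff_false]
      intro h1
      have := h1 u
      simp only [res, hu, if_false] at this
      linarith
    rw [e1, e2, measure_empty, measure_empty]

lemma stable_B2 [Nonempty ι] {μ : Measure (ι → ℝ)} [IsProbabilityMeasure μ] {s : ℝ}
    (h : MaxStableOn μ Finset.univ s) : ConvexStable μ coordHull := by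
  apply stable_of
  intro n hn
  have hn0 : (0 : ℝ) < n := by exact_mod_cast hn
  refine ⟨(n : ℝ) ^ s, Real.rpow_pos_of_pos hn0 _, fun x => res Finset.univ (((n : ℝ) ^ s) • x),
    fun w => res Finset.univ (mx w), (measurable_res _).comp (measurable_const_smul _),
    (measurable_res _).comp measurable_mx, law_res h hn, ?_, ?_⟩
  · exact Eventually.of_forall fun x => by simp only [res_univ]
  · exact Eventually.of_forall fun x => by simp only [res_univ]

section pos

variable {μ : Measure (ι → ℝ)} [IsProbabilityMeasure μ] {I : Finset ι}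

lemma ae_cH_smul (hIne : I.Nonempty) (hI : ∀ᵐ x ∂μ, (∀ i ∈ I, 0 < x i) ∧ ∀ i ∉ I, x i ≤ 0)
    {a : ℝ} (ha : 0 < a) : ∀ᵐ x ∂μ, cH (a • x) = cH (res I (a • x)) := by
  filter_upwards [hI] with x hx
  apply cH_res hIne
  · exact fun i hi => mul_pos ha (hx.1 i hi)
  · exact fun i hi => mul_nonpos_of_nonneg_of_nonpos ha.le (hx.2 i hi)

lemma ae_mx_sign (hI : ∀ᵐ x ∂μ, (∀ i ∈ I, 0 < x i) ∧ ∀ i ∉ I, x i ≤ 0)
    {n : ℕ} (hn : 1 ≤ n) : ∀ᵐ w ∂(Measure.pi fun _ : Fin n => μ),
      (∀ i ∈ I, 0 < mx w i) ∧ ∀ i ∉ I, mx w i ≤ 0 := by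
  filter_upwards [ae_pi_of_ae (n := n) hI] with w hw
  constructor
  · intro i hi
    have : Nonempty (Fin n) := ⟨⟨0, hn⟩⟩
    have h3 : w ⟨0, hn⟩ i ≤ mx w i :=
      le_ciSup (f := fun j => w j i) (Set.finite_range _).bddAbove _
    exact ((hw _).1 i hi).trans_le h3
  · intro i hi
    rw [mx_le_iff hn]
    exact fun j => (hw j).2 i hi

lemma ae_cH_mx (hIne : I.Nonempty) (hI : ∀ᵐ x ∂μ, (∀ i ∈ I, 0 < x i) ∧ ∀ i ∉ I, x i ≤ 0)
    {n : ℕ} (hn : 1 ≤ n) : ∀ᵐ w ∂(Measure.pi fun _ : Fin n => μ),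
      cH (mx w) = cH (res I (mx w)) := by
  filter_upwards [ae_mx_sign hI hn] with w hw
  exact cH_res hIne hw.1 hw.2

lemma stable_C1 (hIne : I.Nonempty) (hI : ∀ᵐ x ∂μ, (∀ i ∈ I, 0 < x i) ∧ ∀ i ∉ I, x i ≤ 0)
    {c : ι → ℝ} (h : ∀ᵐ x ∂μ, ∀ i ∈ I, x i = c i) : ConvexStable μ coordHull := by
  have : Nonempty ι := ⟨hIne.choose⟩
  apply stable_of
  intro n hn
  refine ⟨1, one_pos, fun _ => res I c, fun _ => res I c, measurable_const, measurable_const,
    map_const_eq _ _ _, ?_, ?_⟩
  · filter_upwards [h, ae_cH_smul hIne hI one_pos] with x hx hx2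
    rw [hx2, one_smul]
    congr 1
    funext i
    simp only [res]
    split_ifs with hi
    · exact hx i hi
    · rfl
  · filter_upwards [ae_pi_of_ae (n := n) h, ae_cH_mx hIne hI hn] with w hw hw2
    rw [hw2]
    have : Nonempty (Fin n) := ⟨⟨0, hn⟩⟩
    congr 1
    funext i
    simp only [res]
    split_ifs with hi
    · show (⨆ j, w j i) = c i
      simp only [hw _ i hi, ciSup_const]
    · rfl

lemma stable_C2 (hIne : I.Nonempty) (hI : ∀ᵐ x ∂μ, (∀ i ∈ I, 0 < x i) ∧ ∀ i ∉ I, x i ≤ 0)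
    {s : ℝ} (h : MaxStableOn μ I s) : ConvexStable μ coordHull := by
  have : Nonempty ι := ⟨hIne.choose⟩
  apply stable_of
  intro n hn
  have hn0 : (0 : ℝ) < n := by exact_mod_cast hn
  exact ⟨(n : ℝ) ^ s, Real.rpow_pos_of_pos hn0 _, fun x => res I (((n : ℝ) ^ s) • x),
    fun w => res I (mx w), (measurable_res _).comp (measurable_const_smul _),
    (measurable_res _).comp measurable_mx, law_res h hn,
    ae_cH_smul hIne hI (Real.rpow_pos_of_pos hn0 _), ae_cH_mx hIne hI hn⟩

/-- the compact convex set `r conv{c_i e_i}` -/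
def KC (r : ℝ) (c : ι → ℝ) : Set (ι → ℝ) := (fun (l : ι → ℝ) i => r * (l i * c i)) '' stdSimplex ℝ ι

omit [DecidableEq ι] in
lemma isCompact_KC (r : ℝ) (c : ι → ℝ) : IsCompact (KC r c) :=
  (isCompact_stdSimplex ℝ ι).image (by fun_prop)

omit [DecidableEq ι] in
lemma convex_KC (r : ℝ) (c : ι → ℝ) : Convex ℝ (KC r c) := by
  rintro _ ⟨l, hl, rfl⟩ _ ⟨m, hm, rfl⟩ p q hp hq hpq
  refine ⟨p • l + q • m, convex_stdSimplex ℝ _ hl hm hp hq hpq, ?_⟩
  funext i
  simp only [Pi.add_apply, Pi.smul_apply, smul_eq_mul]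
  ring

lemma nonempty_KC [Nonempty ι] (r : ℝ) (c : ι → ℝ) : (KC r c).Nonempty :=
  ⟨_, ⟨_, single_mem_stdSimplex ℝ (Classical.arbitrary ι), rfl⟩⟩

omit [DecidableEq ι] in
lemma cH_add_KC {r m : ℝ} (hr : 0 ≤ r) (hm : 0 < m) (c : ι → ℝ) :
    cH (fun i => m * c i) + KC r c = cH (fun i => (m + r) * c i) := by
  have hmr : 0 < m + r := by linarith
  apply Subset.antisymm
  · rintro _ ⟨y, ⟨l, hl, hy⟩, _, ⟨l', hl', rfl⟩, rfl⟩
    refine ⟨(m / (m + r)) • l + (r / (m + r)) • l', convex_stdSimplex ℝ _ hl hl'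
      (by positivity) (by positivity) (by field_simp), fun i => ?_⟩
    have h1 := hy i
    simp only [Pi.add_apply, Pi.smul_apply, smul_eq_mul]
    have h2 : (m / (m + r) * l i + r / (m + r) * l' i) * ((m + r) * c i) =
        l i * (m * c i) + r * (l' i * c i) := by
      field_simp
    rw [h2]
    linarith
  · rintro y ⟨l, hl, hy⟩
    refine ⟨fun i => y i - r * (l i * c i), ⟨l, hl, fun i => ?_⟩, fun i => r * (l i * c i),
      ⟨l, hl, rfl⟩, ?_⟩
    · have h1 := hy i
      simp only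
      nlinarith
    · funext i
      simp only [Pi.add_apply]
      ring

lemma stable_C3 (hIne : I.Nonempty) (hI : ∀ᵐ x ∂μ, (∀ i ∈ I, 0 < x i) ∧ ∀ i ∉ I, x i ≤ 0)
    {c : ι → ℝ} {h α : ℝ} {ζ : (ι → ℝ) → ℝ} (hc : ∀ i ∈ I, 0 < c i) (hh : 0 < h) (hα : 0 < α)
    (hζ : Measurable ζ) (hx : ∀ᵐ x ∂μ, ∀ i ∈ I, x i = c i * (h + ζ x))
    (hF : ∀ t : ℝ, 0 < t → μ {x | ζ x ≤ t} = ENNReal.ofReal (Real.exp (-(t ^ (-α))))) :
    ConvexStable μ coordHull := by
  have : Nonempty ι := ⟨hIne.choose⟩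
  intro n hn
  have hne : Nonempty (Fin n) := ⟨⟨0, hn⟩⟩
  have hn0 : (0 : ℝ) < n := by exact_mod_cast hn
  set a : ℝ := (n : ℝ) ^ (1 / α) with ha
  have hapos : 0 < a := Real.rpow_pos_of_pos hn0 _
  have ha1 : 1 ≤ a := Real.one_le_rpow (by exact_mod_cast hn) (by positivity)
  have hr : 0 ≤ (a - 1) * h := mul_nonneg (by linarith) hh.le
  have hm2 : Measurable (fun w : Fin n → ι → ℝ => ⨆ j, ζ (w j)) :=
    Measurable.iSup fun j => hζ.comp (measurable_pi_apply j)
  have hle_iff : ∀ (w : Fin n → ι → ℝ) (t : ℝ), (⨆ j, ζ (w j)) ≤ t ↔ ∀ j, ζ (w j) ≤ t :=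
    fun w t => ciSup_le_iff (Set.finite_range _).bddAbove
  refine ⟨a, hapos, KC ((a - 1) * h) (res I c), isCompact_KC _ _, convex_KC _ _,
    nonempty_KC _ _, ?_⟩
  refine sameLaw_core (Z := fun x => a * ζ x) (Z' := fun w : Fin n → ι → ℝ => ⨆ j, ζ (w j))
    (hζ.const_mul a) hm2 ?_ (Ψ := fun z : ℝ => cH (fun i => (a * h + z) * res I c i)) ?_ ?_ ?_
  · -- equality of laws on the line
    have := Measure.isProbabilityMeasure_map (μ := μ) (hζ.const_mul a).aemeasurable
    have := Measure.isProbabilityMeasure_map (μ := (Measure.pi fun _ : Fin n => μ))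
      hm2.aemeasurable
    apply Measure.ext_of_Iic
    intro t
    rw [Measure.map_apply (hζ.const_mul a) measurableSet_Iic,
      Measure.map_apply hm2 measurableSet_Iic]
    have e1 : (fun x : ι → ℝ => a * ζ x) ⁻¹' Iic t = {x | ζ x ≤ t / a} := by
      ext x
      simp only [mem_preimage, mem_Iic, mem_ofPred_eq]
      rw [le_div_iff₀ hapos, mul_comm]
    have e2 : (Measure.pi fun _ : Fin n => μ) ((fun w : Fin n → ι → ℝ => ⨆ j, ζ (w j)) ⁻¹' Iic t)
        = μ {x | ζ x ≤ t} ^ n := by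
      rw [← pi_forall]
      congr 1
      ext w
      simp only [mem_preimage, mem_Iic, mem_ofPred_eq, hle_iff]
    rw [e1, e2]
    rcases lt_or_ge 0 t with ht | ht
    · rw [hF t ht, hF (t / a) (div_pos ht hapos), ← ENNReal.ofReal_pow (Real.exp_pos _).le,
        ← Real.exp_nat_mul]
      congr 2
      rw [Real.div_rpow ht.le hapos.le, ha, ← Real.rpow_mul hn0.le]
      have h4 : 1 / α * -α = -1 := by field_simp
      rw [h4, Real.rpow_neg_one]
      field_simp
    · have h0 : μ {x | ζ x ≤ 0} = 0 := by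
        have hb : ∀ M : ℕ, μ {x | ζ x ≤ 0} ≤ ENNReal.ofReal (Real.exp (-((M : ℝ) + 1))) := by
          intro M
          have hM : (0 : ℝ) < (M : ℝ) + 1 := by positivity
          have ht' : (0 : ℝ) < ((M : ℝ) + 1) ^ (-(1 / α)) := Real.rpow_pos_of_pos hM _
          have h5 := hF _ ht'
          rw [← Real.rpow_mul hM.le] at h5
          have h6 : -(1 / α) * -α = 1 := by field_simp
          rw [h6, Real.rpow_one] at h5
          rw [← h5]
          exact measure_mono fun x hx => le_trans hx ht'.le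
        have hlim : Tendsto (fun M : ℕ => ENNReal.ofReal (Real.exp (-((M : ℝ) + 1)))) atTop
            (𝓝 0) := by
          rw [← ENNReal.ofReal_zero]
          refine (ENNReal.continuous_ofReal.tendsto 0).comp ?_
          refine Real.tendsto_exp_neg_atTop_nhds_zero.comp ?_
          exact tendsto_atTop_add_const_right _ _ tendsto_natCast_atTop_atTop
        exact le_antisymm (ge_of_tendsto' hlim hb) bot_le
      have h1 : μ {x | ζ x ≤ t / a} = 0 :=
        measure_mono_null (fun x hx => le_trans hx (div_nonpos_of_nonpos_of_nonneg ht hapos.le)) h0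
      have h2 : μ {x | ζ x ≤ t} = 0 := measure_mono_null (fun x hx => le_trans hx ht) h0
      rw [h1, h2, zero_pow (by omega)]
  · refine measurable_cH.comp ?_
    exact measurable_pi_lambda _ fun i => (measurable_const.add measurable_id).mul_const _
  · filter_upwards [hx, ae_cH_smul hIne hI hapos] with x h1 h2
    rw [coordHull_eq, smul_cH hapos, h2]
    congr 1
    funext i
    simp only [res, Pi.smul_apply, smul_eq_mul]
    split_ifs with hi
    · rw [h1 i hi]; ring
    · simp
  · filter_upwards [ae_pi_of_ae (n := n) hx, ae_cH_mx hIne hI hn, ae_mx_sign hI hn] with w h1 h2 h5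
    have h3 : closure (convexHull ℝ (⋃ j, coordHull (w j))) = cH (mx w) := by
      rw [← hull_union]; simp only [coordHull_eq]
    rw [h3, h2]
    have h4 : ∀ i ∈ I, mx w i = (h + ⨆ j, ζ (w j)) * c i := by
      intro i hi
      show (⨆ j, w j i) = _
      apply le_antisymm
      · refine ciSup_le fun j => ?_
        rw [h1 j i hi, mul_comm]
        refine mul_le_mul_of_nonneg_right ?_ (hc i hi).le
        have := le_ciSup (f := fun j => ζ (w j)) (Set.finite_range _).bddAbove j
        linarith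
      · obtain ⟨j, hj⟩ := exists_eq_ciSup_of_finite (f := fun j => ζ (w j))
        have h6 := le_ciSup (f := fun j => w j i) (Set.finite_range _).bddAbove j
        rw [h1 j i hi, hj] at h6
        linarith
    have h7 : res I (mx w) = fun i => (h + ⨆ j, ζ (w j)) * res I c i := by
      funext i
      simp only [res]
      split_ifs with hi
      · exact h4 i hi
      · simp
    have h8 : 0 < h + ⨆ j, ζ (w j) := by
      obtain ⟨i0, hi0⟩ := hIne
      have h9 := h5.1 i0 hi0
      rw [h4 i0 hi0] at h9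
      exact (mul_pos_iff_of_pos_right (hc i0 hi0)).mp h9
    rw [h7, cH_add_KC hr h8]
    congr 1
    funext i
    ring

end pos

/-- The list of laws for which the coordinate hull is convex-stable (dimension at least two). -/
def Answer (μ : Measure (ι → ℝ)) : Prop :=
  (∀ᵐ x ∂μ, (∀ i, x i ≤ 0) ∧ ∃ i, x i = 0) ∨
  ((∀ᵐ x ∂μ, ∀ i, x i < 0) ∧ ((∃ c : ι → ℝ, ∀ᵐ x ∂μ, x = c) ∨
    ∃ α : ℝ, 0 < α ∧ MaxStableOn μ Finset.univ (-1 / α))) ∨
  (∃ I : Finset ι, I.Nonempty ∧ (∀ᵐ x ∂μ, (∀ i ∈ I, 0 < x i) ∧ ∀ i ∉ I, x i ≤ 0) ∧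
    ((∃ c : ι → ℝ, ∀ᵐ x ∂μ, ∀ i ∈ I, x i = c i) ∨
     (∃ α : ℝ, 0 < α ∧ MaxStableOn μ I (1 / α)) ∨
     (∃ (c : ι → ℝ) (h α : ℝ) (ζ : (ι → ℝ) → ℝ), (∀ i ∈ I, 0 < c i) ∧ 0 < h ∧ 0 < α ∧
       Measurable ζ ∧ (∀ᵐ x ∂μ, ∀ i ∈ I, x i = c i * (h + ζ x)) ∧
       ∀ t : ℝ, 0 < t → μ {x | ζ x ≤ t} = ENNReal.ofReal (Real.exp (-(t ^ (-α)))))))

theorem main [Nontrivial ι] (μ : Measure (ι → ℝ)) [IsProbabilityMeasure μ] :
    ConvexStable μ coordHull ↔ Answer μ := by
  constructor
  · intro hCS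
    obtain ⟨a, k, D⟩ := exists_dat hCS
    classical
    set I : Finset ι := Finset.univ.filter fun i => μ {x : ι → ℝ | x i ≤ 0} = 0 with hIdef
    have h1 : ∀ᵐ x ∂μ, (∀ i ∈ I, 0 < x i) ∧ ∀ i ∉ I, x i ≤ 0 := by
      have h2 : ∀ i : ι, ∀ᵐ x ∂μ, (i ∈ I → 0 < x i) ∧ (i ∉ I → x i ≤ 0) := by
        intro i
        by_cases hi : i ∈ I
        · have h3 : μ {x : ι → ℝ | x i ≤ 0} = 0 := by
            simpa [hIdef] using hi
          have h4 : ∀ᵐ x ∂μ, ¬ (x i ≤ 0) := by
            rw [MeasureTheory.ae_iff]; simpa using h3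
          filter_upwards [h4] with x hx
          exact ⟨fun _ => not_le.mp hx, fun h => absurd hi h⟩
        · have h3 : μ {x : ι → ℝ | x i ≤ 0} ≠ 0 := by
            simpa [hIdef] using hi
          have h4 := D.dichotomy h3
          rw [← prob_compl_eq_zero_iff
            (measurableSet_le (measurable_pi_apply _) measurable_const)] at h4
          have h5 : ∀ᵐ x ∂μ, x i ≤ 0 := h4
          filter_upwards [h5] with x hx
          exact ⟨fun h => absurd h hi, fun _ => hx⟩
      filter_upwards [ae_all_iff.mpr h2] with x hx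
      exact ⟨fun i hi => (hx i).1 hi, fun i hi => (hx i).2 hi⟩
    by_cases hIne : I.Nonempty
    · right; right
      refine ⟨I, hIne, h1, D.positive_case ?_⟩
      filter_upwards [h1] with x hx using hx.1
    · rw [Finset.not_nonempty_iff_eq_empty] at hIne
      have hall : ∀ᵐ x ∂μ, ∀ i, x i ≤ 0 := by
        filter_upwards [h1] with x hx i
        exact hx.2 i (by simp [hIne])
      rcases D.negative_case hall with h | h
      · exact Or.inl h
      · exact Or.inr (Or.inl h)
  · rintro (h | ⟨-, ⟨c, hc⟩ | ⟨α, -, h⟩⟩ | ⟨I, hIne, hI, ⟨c, hc⟩ | ⟨α, -, h⟩ |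
      ⟨c, h, α, ζ, h1, h2, h3, h4, h5, h6⟩⟩)
    · exact stable_A h
    · exact stable_B1 hc
    · exact stable_B2 h
    · exact stable_C1 hIne hI hc
    · exact stable_C2 hIne hI h
    · exact stable_C3 hIne hI h1 h2 h3 h4 h5 h6

/-- dimension one -/
theorem main_one (μ : Measure (Fin 1 → ℝ)) [IsProbabilityMeasure μ] :
    ConvexStable μ coordHull ↔ ∀ n : ℕ, 1 ≤ n → ∃ a : ℝ, 0 < a ∧ ∃ k : ℝ, ∀ t : ℝ,
      μ {x | x 0 ≤ t} ^ n = μ {x | a * x 0 ≤ t + k} := by
  have hphi : ∀ x : Fin 1 → ℝ, phi 1 x = x 0 := by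
    intro x
    unfold phi
    simp
  constructor
  · intro hCS n hn
    obtain ⟨a, k, D⟩ := exists_dat hCS
    refine ⟨a n, D.apos n hn, k n 1, fun t => ?_⟩
    have h1 := D.law n hn {f | f 1 ≤ t + k n 1}
      (measurableSet_le (measurable_pi_apply _) measurable_const)
    simp only [mem_ofPred_eq, hphi, add_le_add_iff_right] at h1
    have h2 := pi_mx_le μ hn {0} (fun _ => t)
    simp only [Finset.mem_singleton, forall_eq] at h2
    rw [h2] at h1
    rw [← h1]
    rfl
  · intro h n hn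
    obtain ⟨a, ha, k, hk⟩ := h n hn
    have hne : Nonempty (Fin n) := ⟨⟨0, hn⟩⟩
    refine ⟨a, ha, {fun _ => k}, isCompact_singleton, convex_singleton _, singleton_nonempty _, ?_⟩
    have hm2 : Measurable (fun (w : Fin n → Fin 1 → ℝ) (i : Fin 1) => mx w i + k) :=
      measurable_pi_lambda _ fun i => ((measurable_pi_apply i).comp measurable_mx).add_const k
    refine sameLaw_core (Z := fun x => a • x)
      (Z' := fun (w : Fin n → Fin 1 → ℝ) (i : Fin 1) => mx w i + k)
      (measurable_const_smul a) hm2 ?_ measurable_cH ?_ ?_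
    · have := Measure.isProbabilityMeasure_map (μ := μ)
        (measurable_const_smul a : Measurable fun x : Fin 1 → ℝ => a • x).aemeasurable
      have := Measure.isProbabilityMeasure_map (μ := (Measure.pi fun _ : Fin n => μ))
        hm2.aemeasurable
      apply ext_Iic_fin
      intro t
      have hms : MeasurableSet {f : Fin 1 → ℝ | ∀ u, f u ≤ t u} := by
        simp only [ofPred_forall]
        exact MeasurableSet.iInter fun i =>
          measurableSet_le (measurable_pi_apply _) measurable_const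
      rw [Measure.map_apply (measurable_const_smul a) hms, Measure.map_apply hm2 hms]
      have h1 := hk (t 0 - k)
      have h2 := pi_mx_le μ hn {0} (fun _ => t 0 - k)
      simp only [Finset.mem_singleton, forall_eq] at h2
      rw [← h2] at h1
      have e1 : (fun x : Fin 1 → ℝ => a • x) ⁻¹' {f | ∀ u, f u ≤ t u} =
          {x | a * x 0 ≤ t 0 - k + k} := by
        ext x
        simp only [mem_preimage, mem_ofPred_eq, Fin.forall_fin_one, Pi.smul_apply, smul_eq_mul,
          sub_add_cancel]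
      have e2 : (fun (w : Fin n → Fin 1 → ℝ) (i : Fin 1) => mx w i + k) ⁻¹'
          {f | ∀ u, f u ≤ t u} = {w | mx w 0 ≤ t 0 - k} := by
        ext w
        simp only [mem_preimage, mem_ofPred_eq, Fin.forall_fin_one]
        constructor <;> intro h <;> linarith
      rw [e1, e2, h1]
    · exact Eventually.of_forall fun x => by rw [coordHull_eq, smul_cH ha]
    · refine Eventually.of_forall fun w => ?_
      have h3 : closure (convexHull ℝ (⋃ j, coordHull (w j))) = cH (mx w) := by
        rw [← hull_union]; simp only [coordHull_eq]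
      rw [h3]
      have h4 : ∀ x : Fin 1 → ℝ, cH x = {y | y 0 ≤ x 0} := by
        intro x
        ext y
        constructor
        · rintro ⟨l, hl, hy⟩
          have h5 := hl.2
          simp only [Fin.sum_univ_one] at h5
          have h6 := hy 0
          rw [h5, one_mul] at h6
          exact h6
        · intro hy
          refine ⟨fun _ => 1, ⟨fun _ => zero_le_one, by simp⟩, fun i => ?_⟩
          rw [Fin.fin_one_eq_zero i, one_mul]
          exact hy
      rw [h4, h4]
      ext y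
      rw [add_singleton]
      constructor
      · rintro ⟨z, hz, rfl⟩
        have hz' : z 0 ≤ mx w 0 := hz
        show z 0 + k ≤ mx w 0 + k
        linarith
      · intro hy
        have hy' : y 0 ≤ mx w 0 + k := hy
        refine ⟨fun i => y i - k, ?_, ?_⟩
        · show y 0 - k ≤ mx w 0
          linarith
        · funext i; simp

end Pool.Agent.R989.CHull
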