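import Pool.Agent.R989.Sub

/-! The local mass of a stationary field at large scales (helper989). -/

set_option autoImplicit false

open MeasureTheory Filter Topology
open scoped ENNReal Pointwise

namespace Pool.Agent.R989.Erg

open Pool.Agent.Results.MP_6b977f_mp.PlanckScaleMass (mean)

/-- the normalised indicator of the unit disc -/
noncomputable def chi : ℂ → ℝ := (Metric.ball (0 : ℂ) 1).indicator fun _ => 1 / Real.pi

theorem chi_meas : Measurable chi := measurable_const.indicator measurableSet_ball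

theorem chi_int : Integrable chi := by
  unfold chi
  rw [integrable_indicator_iff measurableSet_ball]
  exact integrableOn_const measure_ball_lt_top.ne

theorem chi_one : ∫ z, chi z = 1 := by
  unfold chi
  rw [integral_indicator measurableSet_ball, setIntegral_const, measureReal_def, Complex.volume_ball]
  simp only [ENNReal.ofReal_one, one_pow, one_mul, smul_eq_mul]
  rw [ENNReal.coe_toReal, NNReal.coe_real_pi]
  field_simp

/-- the square of the value at the origin -/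
def x2 (ω : ℂ → ℝ) : ℝ := ω 0 ^ 2

theorem x2_meas : Measurable x2 := (measurable_pi_apply 0).pow_const 2

theorem mean_V {S : Type*} (F : S → ℂ → ℝ) {R : ℝ} (hR : 0 < R) (b : ℂ) (s : S) :
    mean R (fun w => F s w ^ 2) b = V (fun s => sh b (F s)) chi R x2 s := by
  unfold mean V
  have e1 : ∀ z : ℂ, chi z * x2 (sh (R * z) (sh b (F s))) =
      (Metric.ball (0 : ℂ) 1).indicator (fun z => 1 / Real.pi * F s (b + R • z) ^ 2) z := by
    intro z
    unfold chi x2 sh
    by_cases hz : z ∈ Metric.ball (0 : ℂ) 1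
    · rw [Set.indicator_of_mem hz, Set.indicator_of_mem hz, zero_add, Complex.real_smul, add_comm b]
    · rw [Set.indicator_of_notMem hz, Set.indicator_of_notMem hz, zero_mul]
  simp only [e1]
  rw [integral_indicator measurableSet_ball, integral_const_mul]
  have h1 := Measure.setIntegral_comp_smul_of_pos (volume : Measure ℂ) (fun w => F s (b + w) ^ 2)
    (Metric.ball (0 : ℂ) 1) hR
  rw [Complex.finrank_real_complex] at h1
  have h2 : R • Metric.ball (0 : ℂ) 1 = Metric.ball (0 : ℂ) R := by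
    rw [smul_ball hR.ne', Real.norm_eq_abs, abs_of_pos hR, smul_zero, mul_one]
  rw [h2, smul_eq_mul] at h1
  rw [h1]
  have h3 : ∫ w in Metric.ball (0 : ℂ) R, F s (b + w) ^ 2 = ∫ w in Metric.ball b R, F s w ^ 2 := by
    have hmp := measurePreserving_add_left (volume : Measure ℂ) b
    have hme : MeasurableEmbedding fun z : ℂ => b + z := measurableEmbedding_addLeft b
    rw [← hmp.setIntegral_preimage_emb hme (fun z => F s z ^ 2)]
    congr 2
    ext w
    simp
  rw [h3]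
  field_simp

set_option linter.unusedSectionVars false

section
variable {μ : Measure (ℂ → ℝ)} [IsProbabilityMeasure μ] (hμ : ∀ a, MeasurePreserving (sh a) μ μ)
variable {S : Type*} [MeasurableSpace S] {P : Measure S} [IsProbabilityMeasure P]
variable {F : S → ℂ → ℝ} (hF : Fld P μ F) (h2 : MemLp x2 2 μ)

include hμ hF in
theorem Fld.shift (b : ℂ) : Fld P μ fun s => sh b (F s) := by
  refine ⟨?_, ?_⟩
  · have : Measurable fun p : S × ℂ => (p.1, p.2 + b) := by fun_prop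
    exact hF.meas.comp this
  · rw [hF.st hμ b, hF.law]

include hμ hF h2 in
theorem mass_L2 : ∀ ε : ℝ≥0∞, 0 < ε → ∀ᶠ R : ℝ in atTop, ∀ b : ℂ,
    eLpNorm (fun s => mean R (fun w => F s w ^ 2) b - (μ[x2 | inv μ]) (F s)) 2 P ≤ ε := by
  intro ε hε
  filter_upwards [L2 (S := S) (P := P) hμ chi chi_meas chi_int x2 x2_meas h2 ε hε,
    eventually_gt_atTop 0] with R h1 hR b
  have h3 := h1 _ (Fld.shift hμ hF b)
  refine le_trans (le_of_eq ?_) h3
  refine eLpNorm_congr_ae ?_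
  have h4 : (fun ω => (μ[x2 | inv μ]) (sh b ω)) =ᵐ[μ] μ[x2 | inv μ] :=
    inv_fix _ stronglyMeasurable_condExp.measurable b
  have h5 : ∀ᵐ s ∂P, (μ[x2 | inv μ]) (sh b (F s)) = (μ[x2 | inv μ]) (F s) := by
    have := (mp0 (P := P) hF.meas).quasiMeasurePreserving.ae (p := fun ω =>
      (μ[x2 | inv μ]) (sh b ω) = (μ[x2 | inv μ]) ω) (by rw [hF.law]; exact h4)
    exact this
  filter_upwards [h5] with s hs
  rw [mean_V F hR b s, chi_one, one_mul, hs]

include hF in
theorem mean_meas {R : ℝ} (hR : 0 < R) (t : ℝ) :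
    Measurable fun p : S × ℂ => mean R (fun w => F p.1 w ^ 2) (t * p.2) := by
  have h1 : (fun p : S × ℂ => mean R (fun w => F p.1 w ^ 2) (t * p.2)) =
      fun p : S × ℂ => ∫ z, chi z * F p.1 (0 + R * z + t * p.2) ^ 2 := by
    funext p
    rw [mean_V F hR _ p.1]
    rfl
  rw [h1]
  have hm : StronglyMeasurable fun q : (S × ℂ) × ℂ =>
      chi q.2 * F q.1.1 (0 + R * q.2 + t * q.1.2) ^ 2 := by
    refine Measurable.stronglyMeasurable ?_
    refine (chi_meas.comp measurable_snd).mul ?_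
    have : Measurable fun q : (S × ℂ) × ℂ => (q.1.1, 0 + (R : ℂ) * q.2 + t * q.1.2) := by
      fun_prop
    exact (hF.meas.comp this).pow_const 2
  exact hm.integral_prod_right'.measurable

/-- the weighted deviation of the squared local mass -/
noncomputable def Dv (μ : Measure (ℂ → ℝ)) (F : S → ℂ → ℝ) (φ : ℂ → ℝ) (t R : ℝ) (s : S) : ℝ≥0∞ :=
  ∫⁻ z, ‖φ z‖ₑ * ‖mean R (fun w => F s w ^ 2) (t * z) ^ 2 - (μ[x2 | inv μ]) (F s) ^ 2‖ₑ

omit [IsProbabilityMeasure μ] in
theorem q_meas : Measurable (μ[x2 | inv μ]) :=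
  stronglyMeasurable_condExp.measurable.mono (inv_le _) le_rfl

include hF in
theorem Dv_m2 (φ : ℂ → ℝ) (hφ : Measurable φ) (t : ℝ) {R : ℝ} (hR : 0 < R) :
    Measurable fun p : S × ℂ => ‖φ p.2‖ₑ *
      ‖mean R (fun w => F p.1 w ^ 2) (t * p.2) ^ 2 - (μ[x2 | inv μ]) (F p.1) ^ 2‖ₑ :=
  (hφ.comp measurable_snd).enorm.mul ((((mean_meas hF hR t).pow_const 2).sub
    ((q_meas.comp ((F_meas hF.meas).comp measurable_fst)).pow_const 2)).enorm)

theorem cs2 {a b : S → ℝ} (ha : Measurable a) (hb : Measurable b) :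
    ∫⁻ s, ‖a s‖ₑ * ‖b s‖ₑ ∂P ≤ eLpNorm a 2 P * eLpNorm b 2 P := by
  have h4 := ENNReal.lintegral_mul_le_Lp_mul_Lq P Real.HolderConjugate.two_two
    ha.enorm.aemeasurable hb.enorm.aemeasurable
  have e2 : ∀ g : S → ℝ, (∫⁻ s, ‖g s‖ₑ ^ (2 : ℝ) ∂P) ^ (1 / (2 : ℝ)) = eLpNorm g 2 P := by
    intro g
    rw [eLpNorm_eq_lintegral_rpow_enorm_toReal (by norm_num) (by norm_num)]
    simp only [ENNReal.toReal_ofNat]
  rw [← e2, ← e2]
  exact h4

theorem add2 {a q : S → ℝ} (ha : Measurable a) (hq : Measurable q) :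
    eLpNorm (fun s => a s + q s) 2 P ≤ eLpNorm (fun s => a s - q s) 2 P + 2 * eLpNorm q 2 P := by
  have e3 : (fun s => a s + q s) = (fun s => a s - q s) + (q + q) := by
    funext s
    simp only [Pi.add_apply]
    ring
  rw [e3]
  refine (eLpNorm_add_le (ha.sub hq).aestronglyMeasurable (hq.add hq).aestronglyMeasurable
    (by norm_num)).trans ?_
  refine add_le_add le_rfl ?_
  rw [two_mul]
  exact eLpNorm_add_le hq.aestronglyMeasurable hq.aestronglyMeasurable (by norm_num)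

theorem sqdiff (c : ℝ) {a q : S → ℝ} (ha : Measurable a) (hq : Measurable q) :
    ∫⁻ s, ‖c‖ₑ * ‖a s ^ 2 - q s ^ 2‖ₑ ∂P ≤ ‖c‖ₑ * (eLpNorm (fun s => a s - q s) 2 P *
      (eLpNorm (fun s => a s - q s) 2 P + 2 * eLpNorm q 2 P)) := by
  have hm : Measurable fun s => ‖a s ^ 2 - q s ^ 2‖ₑ :=
    ((ha.pow_const 2).sub (hq.pow_const 2)).enorm
  rw [lintegral_const_mul _ hm]
  refine mul_le_mul_right ?_ _
  have e1 : ∀ s, ‖a s ^ 2 - q s ^ 2‖ₑ = ‖a s - q s‖ₑ * ‖a s + q s‖ₑ := by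
    intro s
    rw [← enorm_mul]
    congr 1
    ring
  simp only [e1]
  refine (cs2 (P := P) (ha.sub hq) (ha.add hq)).trans ?_
  exact mul_le_mul' le_rfl (add2 ha hq)

include hμ hF h2 in
theorem Dv_small (φ : ℂ → ℝ) (hφ : Measurable φ) (hφi : Integrable φ) : ∀ η : ℝ≥0∞, 0 < η →
    ∀ᶠ R : ℝ in atTop, ∀ t : ℝ, ∫⁻ s, Dv μ F φ t R s ∂P ≤ η := by
  intro η hη
  by_cases hηt : η = ∞
  · exact Eventually.of_forall fun _ _ => hηt ▸ le_top
  set c : ℝ≥0∞ := ∫⁻ z, ‖φ z‖ₑ with hc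
  have hct : c ≠ ∞ := hφi.2.ne
  have key := fun (ε : ℝ≥0∞) (hε : 0 < ε) => mass_L2 hμ hF h2 ε hε
  have mm := fun (t : ℝ) {R : ℝ} (hR : 0 < R) => Dv_m2 hF φ hφ t hR
  have e4 := (h2.condExp (m := inv μ)) (by norm_num)
  have hqm := q_meas (μ := μ)
  unfold Dv
  obtain ⟨q, hq⟩ : ∃ q : (ℂ → ℝ) → ℝ, q = μ[x2 | inv μ] := ⟨_, rfl⟩
  rw [← hq] at key mm e4 hqm ⊢
  set Q : ℝ≥0∞ := eLpNorm (fun s => q (F s)) 2 P with hQ
  have hQt : Q ≠ ∞ := by
    have e2 := eLpNorm_comp_measurePreserving (p := 2) hqm.aestronglyMeasurable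
      (mp0 (P := P) hF.meas)
    rw [hF.law] at e2
    have e3 : Q = eLpNorm q 2 μ := e2
    rw [e3]
    exact e4.2.ne
  set M : ℝ≥0∞ := c * (1 + 2 * Q) + 1 with hM
  have hM0 : M ≠ 0 := by
    rw [hM]
    exact (lt_of_lt_of_le one_pos le_add_self).ne'
  have hMt : M ≠ ∞ := by
    rw [hM]
    finiteness
  set ε : ℝ≥0∞ := min 1 (η / M) with hε
  have hε0 : 0 < ε := lt_min one_pos (ENNReal.div_pos hη.ne' hMt)
  have hε1 : ε ≤ 1 := min_le_left _ _
  have hεM : M * ε ≤ η := (mul_le_mul_right (min_le_right 1 (η / M)) M).trans ENNReal.mul_div_le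
  filter_upwards [key ε hε0, eventually_gt_atTop 0] with R h1 hR t
  rw [lintegral_lintegral_swap (mm t hR).aemeasurable]
  have h3 : ∀ z : ℂ, ∫⁻ s, ‖φ z‖ₑ * ‖mean R (fun w => F s w ^ 2) (t * z) ^ 2 - q (F s) ^ 2‖ₑ ∂P ≤
      ‖φ z‖ₑ * (ε * (1 + 2 * Q)) := by
    intro z
    have ma : Measurable fun s => mean R (fun w => F s w ^ 2) (t * z) := by
      have hz : Measurable fun s : S => (s, z) := measurable_id.prodMk measurable_const
      have h := (mean_meas hF hR t).comp hz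
      simpa only [Function.comp_def] using h
    have mq : Measurable fun s => q (F s) := hqm.comp (F_meas hF.meas)
    refine (sqdiff (P := P) (φ z) ma mq).trans (mul_le_mul_right ?_ _)
    exact mul_le_mul' (h1 (t * z)) (add_le_add ((h1 (t * z)).trans hε1) le_rfl)
  refine (lintegral_mono h3).trans ?_
  rw [lintegral_mul_const _ hφ.enorm]
  calc c * (ε * (1 + 2 * Q)) = c * (1 + 2 * Q) * ε := by ring
    _ ≤ M * ε := mul_le_mul_left le_self_add _
    _ ≤ η := hεM

include hμ hF h2 in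
/-- the local mass at suitable large scales -/
theorem mass_freq (φ : ℂ → ℝ) (hφ : Measurable φ) (hφi : Integrable φ) (t : ℕ → ℝ) :
    ∀ᵐ s ∂P, ∀ ε : ℝ≥0∞, 0 < ε → ∀ R0 : ℝ, ∃ R : ℝ, R0 ≤ R ∧
      ∃ᶠ n in atTop, Dv μ F φ (t n) R s < ε := by
  have h1 : ∀ k : ℕ, ∃ R : ℝ, (k : ℝ) + 1 ≤ R ∧ ∀ t : ℝ,
      ∫⁻ s, Dv μ F φ t R s ∂P ≤ (2⁻¹ : ℝ≥0∞) ^ k := fun k =>
    ((eventually_ge_atTop _).and (Dv_small hμ hF h2 φ hφ hφi _
      (ENNReal.pow_pos (by norm_num) k))).exists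
  choose R hR1 hR2 using h1
  have hR0 : ∀ k, 0 < R k := fun k => by
    have : (0 : ℝ) ≤ k := Nat.cast_nonneg k
    linarith [hR1 k]
  have hm : ∀ n k, Measurable fun s => Dv μ F φ (t n) (R k) s := fun n k =>
    (Dv_m2 hF φ hφ (t n) (hR0 k)).lintegral_prod_right'
  have h3 : ∀ k, ∫⁻ s, liminf (fun n => Dv μ F φ (t n) (R k) s) atTop ∂P ≤ (2⁻¹ : ℝ≥0∞) ^ k := by
    intro k
    refine (lintegral_liminf_le fun n => hm n k).trans ?_
    refine liminf_le_of_le (by isBoundedDefault) fun b hb => ?_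
    obtain ⟨n, hn⟩ := hb.exists
    exact hn.trans (hR2 k (t n))
  have h4 : ∫⁻ s, ∑' k, liminf (fun n => Dv μ F φ (t n) (R k) s) atTop ∂P ≠ ∞ := by
    rw [lintegral_tsum fun k => (Measurable.liminf fun n => hm n k).aemeasurable]
    refine ne_top_of_le_ne_top ?_ (ENNReal.tsum_le_tsum h3)
    rw [ENNReal.tsum_geometric]
    norm_num
  have h5 := ae_lt_top (Measurable.tsum fun k => (Measurable.liminf fun n => hm n k)) h4
  filter_upwards [h5] with s hs ε hε R0
  have h6 := ENNReal.tendsto_atTop_zero_of_tsum_ne_top hs.ne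
  have h7 := h6.eventually (gt_mem_nhds hε)
  have h8 : ∀ᶠ k : ℕ in atTop, R0 ≤ (k : ℝ) := tendsto_natCast_atTop_atTop.eventually_ge_atTop R0
  obtain ⟨k, hk1, hk2⟩ := (h7.and h8).exists
  refine ⟨R k, by linarith [hR1 k], ?_⟩
  exact frequently_lt_of_liminf_lt (by isBoundedDefault) hk1

end

end Pool.Agent.R989.Erg
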