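import Mathlib

open scoped Matrix.Norms.L2Operator Matrix
open Matrix

namespace Pool.Agent.R989.Sch

variable {ι κ : Type*} [Fintype ι] [DecidableEq ι] [Fintype κ] [DecidableEq κ]

/-- `A` is a contraction, elementary form. -/
def Contr (A : Matrix ι ι ℂ) : Prop :=
  ∀ x : ι → ℂ, ∑ i, ‖(A *ᵥ x) i‖ ^ 2 ≤ ∑ j, ‖x j‖ ^ 2

/-- the form `y^* (M ∘ A) x`. -/
noncomputable def form (M A : Matrix ι ι ℂ) (x y : ι → ℂ) : ℂ :=
  ∑ i, star (y i) * ∑ j, M i j * A i j * x j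

theorem norm_toLp_sq (x : ι → ℂ) : ‖(WithLp.toLp 2 x : EuclideanSpace ℂ ι)‖ ^ 2 = ∑ i, ‖x i‖ ^ 2 := by
  rw [EuclideanSpace.norm_sq_eq]

theorem contr_of_norm {A : Matrix ι ι ℂ} (h : ‖A‖ ≤ 1) : Contr A := by
  intro x
  have h1 := Matrix.l2_opNorm_mulVec A (WithLp.toLp 2 x)
  have h2 : ‖(WithLp.toLp 2 (A *ᵥ x) : EuclideanSpace ℂ ι)‖ ≤ ‖(WithLp.toLp 2 x : EuclideanSpace ℂ ι)‖ := by
    refine h1.trans ?_
    have := mul_le_mul_of_nonneg_right h (norm_nonneg (WithLp.toLp 2 x : EuclideanSpace ℂ ι))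
    rwa [one_mul] at this
  rw [← norm_toLp_sq, ← norm_toLp_sq]
  exact pow_le_pow_left₀ (norm_nonneg _) h2 2

theorem norm_of_contr {A : Matrix ι ι ℂ} (h : Contr A) : ‖A‖ ≤ 1 := by
  rw [Matrix.cstar_norm_def]
  refine ContinuousLinearMap.opNorm_le_bound _ zero_le_one ?_
  intro x
  rw [one_mul]
  have h1 := h (WithLp.ofLp x)
  have e1 : ‖(Matrix.toEuclideanCLM (n := ι) (𝕜 := ℂ) A) x‖ ^ 2 = ∑ i, ‖(A *ᵥ (WithLp.ofLp x)) i‖ ^ 2 := by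
    rw [EuclideanSpace.norm_sq_eq]
    simp
  have e2 : ‖x‖ ^ 2 = ∑ i, ‖(WithLp.ofLp x) i‖ ^ 2 := by
    rw [EuclideanSpace.norm_sq_eq]
  rw [← e1, ← e2] at h1
  exact le_of_sq_le_sq h1 (norm_nonneg _)
where
  le_of_sq_le_sq {a b : ℝ} (h : a ^ 2 ≤ b ^ 2) (hb : 0 ≤ b) : a ≤ b := by
    nlinarith [abs_le_of_sq_le_sq' h hb]

theorem Contr.mul {A B : Matrix ι ι ℂ} (hA : Contr A) (hB : Contr B) : Contr (A * B) := by
  intro x
  rw [← Matrix.mulVec_mulVec]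
  exact (hA _).trans (hB x)

theorem sum_sq_eq (v : ι → ℂ) : ((∑ i, ‖v i‖ ^ 2 : ℝ) : ℂ) = star v ⬝ᵥ v := by
  simp only [dotProduct, Pi.star_apply]
  push_cast
  refine Finset.sum_congr rfl fun i _ => ?_
  rw [← Complex.conj_mul']
  rfl

theorem contr_of_unitary {A : Matrix ι ι ℂ} (h : Aᴴ * A = 1) : Contr A := by
  intro x
  have e : ((∑ i, ‖(A *ᵥ x) i‖ ^ 2 : ℝ) : ℂ) = ((∑ i, ‖x i‖ ^ 2 : ℝ) : ℂ) := by
    rw [sum_sq_eq, sum_sq_eq, Matrix.star_mulVec, ← Matrix.dotProduct_mulVec, Matrix.mulVec_mulVec, h,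
      Matrix.one_mulVec]
  exact le_of_eq (Complex.ofReal_injective e)

theorem contr_diag {A : Matrix ι ι ℂ} (hA : Contr A) :
    Contr (Matrix.fromBlocks A 0 0 (1 : Matrix κ κ ℂ)) := by
  intro x
  rw [Fintype.sum_sum_type, Fintype.sum_sum_type]
  have h1 : ∀ i, ((Matrix.fromBlocks A 0 0 (1 : Matrix κ κ ℂ)) *ᵥ x) (Sum.inl i) = (A *ᵥ (x ∘ Sum.inl)) i := by
    intro i
    rw [Matrix.fromBlocks_mulVec]
    simp
  have h2 : ∀ i, ((Matrix.fromBlocks A 0 0 (1 : Matrix κ κ ℂ)) *ᵥ x) (Sum.inr i) = x (Sum.inr i) := by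
    intro i
    rw [Matrix.fromBlocks_mulVec]
    simp
  simp only [h1, h2]
  exact add_le_add (hA (x ∘ Sum.inl)) le_rfl

theorem Contr.reindex {A : Matrix ι ι ℂ} (hA : Contr A) (e : κ ≃ ι) : Contr (A.submatrix e e) := by
  intro x
  have h := hA (x ∘ e.symm)
  have e1 : ∑ j, ‖(x ∘ e.symm) j‖ ^ 2 = ∑ j, ‖x j‖ ^ 2 := by
    rw [← e.sum_comp]; simp
  have e2 : ∑ i, ‖(A *ᵥ (x ∘ e.symm)) i‖ ^ 2 = ∑ i, ‖((A.submatrix e e) *ᵥ x) i‖ ^ 2 := by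
    rw [← e.sum_comp]
    refine Finset.sum_congr rfl fun i _ => ?_
    congr 2
    simp only [Matrix.mulVec, dotProduct, Matrix.submatrix_apply]
    rw [← e.sum_comp]
    simp
  rw [e1, e2] at h
  exact h

theorem unitary_block {n : ℕ} (u : Matrix (Fin n) (Fin 1) ℂ) (hu : uᴴ * u = 1) (c s : ℝ)
    (h : c ^ 2 + s ^ 2 = 1) :
    (Matrix.fromBlocks (1 - ((1 - c : ℝ) : ℂ) • (u * uᴴ)) ((s : ℂ) • u) (-((s : ℂ) • uᴴ)) ((c : ℂ) • (1 : Matrix (Fin 1) (Fin 1) ℂ)))ᴴ *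
    (Matrix.fromBlocks (1 - ((1 - c : ℝ) : ℂ) • (u * uᴴ)) ((s : ℂ) • u) (-((s : ℂ) • uᴴ)) ((c : ℂ) • (1 : Matrix (Fin 1) (Fin 1) ℂ))) = 1 := by
  have huu : (u * uᴴ) * (u * uᴴ) = u * uᴴ := by
    rw [Matrix.mul_assoc, ← Matrix.mul_assoc uᴴ, hu, Matrix.one_mul]
  have huu2 : (u * uᴴ) * u = u := by
    rw [Matrix.mul_assoc, hu, Matrix.mul_one]
  have huu3 : uᴴ * (u * uᴴ) = uᴴ := by
    rw [← Matrix.mul_assoc, hu, Matrix.one_mul]
  have hc : (c : ℂ) ^ 2 + (s : ℂ) ^ 2 = 1 := by exact_mod_cast h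
  rw [Matrix.fromBlocks_conjTranspose, Matrix.fromBlocks_multiply, ← Matrix.fromBlocks_one]
  have hH : (1 - ((1 - c : ℝ) : ℂ) • (u * uᴴ))ᴴ = 1 - ((1 - c : ℝ) : ℂ) • (u * uᴴ) := by
    rw [Matrix.conjTranspose_sub, Matrix.conjTranspose_one, Matrix.conjTranspose_smul,
      Matrix.conjTranspose_mul, Matrix.conjTranspose_conjTranspose]
    congr 2
    exact Complex.conj_ofReal _
  have hs1 : (-((s : ℂ) • uᴴ))ᴴ = -((s : ℂ) • u) := by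
    rw [Matrix.conjTranspose_neg, Matrix.conjTranspose_smul, Matrix.conjTranspose_conjTranspose]
    congr 2
    exact Complex.conj_ofReal _
  have hs2 : ((s : ℂ) • u)ᴴ = (s : ℂ) • uᴴ := by
    rw [Matrix.conjTranspose_smul]
    congr 1
    exact Complex.conj_ofReal _
  have hs3 : ((c : ℂ) • (1 : Matrix (Fin 1) (Fin 1) ℂ))ᴴ = (c : ℂ) • 1 := by
    rw [Matrix.conjTranspose_smul, Matrix.conjTranspose_one]
    congr 1
    exact Complex.conj_ofReal _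
  rw [hH, hs1, hs2, hs3]
  congr 1
  · rw [Matrix.sub_mul, Matrix.mul_sub, Matrix.mul_sub, Matrix.one_mul, Matrix.mul_one, Matrix.one_mul,
      Matrix.smul_mul, Matrix.mul_smul, huu, Matrix.neg_mul, Matrix.mul_neg, neg_neg, Matrix.smul_mul,
      Matrix.mul_smul]
    have : ((s : ℂ) * (s : ℂ)) = 1 - (c : ℂ) ^ 2 := by linear_combination hc
    rw [smul_smul, smul_smul, this]
    have e2 : (((1 - c : ℝ) : ℂ)) = 1 - (c : ℂ) := by push_cast; ring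
    rw [e2]
    module
  · rw [Matrix.sub_mul, Matrix.one_mul, Matrix.smul_mul, Matrix.mul_smul, huu2, Matrix.neg_mul,
      Matrix.mul_smul, Matrix.mul_one]
    have e2 : (((1 - c : ℝ) : ℂ)) = 1 - (c : ℂ) := by push_cast; ring
    rw [e2]
    module
  · rw [Matrix.mul_sub, Matrix.mul_one, Matrix.mul_smul, Matrix.smul_mul, huu3, Matrix.smul_mul,
      Matrix.one_mul]
    have e2 : (((1 - c : ℝ) : ℂ)) = 1 - (c : ℂ) := by push_cast; ring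
    rw [e2]
    module
  · rw [Matrix.smul_mul, Matrix.mul_smul, hu, Matrix.smul_mul, Matrix.mul_smul, Matrix.one_mul,
      smul_smul, smul_smul, ← add_smul]
    have : ((s : ℂ) * (s : ℂ)) + (c : ℂ) * (c : ℂ) = 1 := by linear_combination hc
    rw [this, one_smul]

end Pool.Agent.R989.Sch
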