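import Pool.Agent.R989.Sch1

open scoped Matrix.Norms.L2Operator Matrix
open Matrix

namespace Pool.Agent.R989.Sch

section gen
variable {ι : Type*} [Fintype ι] [DecidableEq ι]

theorem exists_max (M : Matrix ι ι ℂ) :
    ∃ A : Matrix ι ι ℂ, ‖A‖ ≤ 1 ∧ ∀ B : Matrix ι ι ℂ, ‖B‖ ≤ 1 → ‖M ⊙ B‖ ≤ ‖M ⊙ A‖ := by
  haveI : ProperSpace (Matrix ι ι ℂ) := FiniteDimensional.proper ℂ _
  have hc : Continuous fun A : Matrix ι ι ℂ => ‖M ⊙ A‖ := by
    refine continuous_norm.comp ?_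
    let L : Matrix ι ι ℂ →ₗ[ℂ] Matrix ι ι ℂ :=
      { toFun := fun A => M ⊙ A
        map_add' := fun A B => Matrix.hadamard_add M A B
        map_smul' := fun c A => by
          ext i j
          simp [Matrix.hadamard_apply]
          ring }
    exact L.continuous_of_finiteDimensional
  obtain ⟨A, hA, hmax⟩ := (isCompact_closedBall (0 : Matrix ι ι ℂ) 1).exists_isMaxOn
    ⟨0, by simp⟩ hc.continuousOn
  refine ⟨A, by simpa using hA, fun B hB => ?_⟩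
  exact hmax (by simpa using hB)

theorem exists_unit (T : EuclideanSpace ℂ ι →L[ℂ] EuclideanSpace ℂ ι) (hT : 0 < ‖T‖) :
    ∃ x y : EuclideanSpace ℂ ι, ‖x‖ = 1 ∧ ‖y‖ = 1 ∧ T x = (‖T‖ : ℂ) • y ∧
      (ContinuousLinearMap.adjoint T) y = (‖T‖ : ℂ) • x := by
  haveI : ProperSpace (EuclideanSpace ℂ ι) := FiniteDimensional.proper ℂ _
  obtain ⟨x, hx, hmax⟩ := (isCompact_closedBall (0 : EuclideanSpace ℂ ι) 1).exists_isMaxOn
    ⟨0, by simp⟩ (T.continuous.norm.continuousOn)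
  have hx1 : ‖x‖ ≤ 1 := by simpa using hx
  have h1 : ‖T‖ ≤ ‖T x‖ := by
    rw [← ContinuousLinearMap.sSup_unitClosedBall_eq_norm]
    refine csSup_le ⟨_, ⟨0, by simp, rfl⟩⟩ ?_
    rintro _ ⟨z, hz, rfl⟩
    exact hmax hz
  have h2 : ‖T x‖ ≤ ‖T‖ * ‖x‖ := T.le_opNorm x
  have hx2 : ‖x‖ = 1 := by
    refine le_antisymm hx1 ?_
    by_contra hcon
    push Not at hcon
    nlinarith
  have h3 : ‖T x‖ = ‖T‖ := by
    rw [hx2, mul_one] at h2
    exact le_antisymm h2 h1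
  have hTc : (‖T‖ : ℂ) ≠ 0 := by exact_mod_cast hT.ne'
  refine ⟨x, ((‖T‖ : ℂ)⁻¹) • T x, hx2, ?_, ?_, ?_⟩
  · rw [norm_smul, h3, norm_inv, Complex.norm_real, Real.norm_of_nonneg hT.le]
    exact inv_mul_cancel₀ hT.ne'
  · rw [smul_smul, mul_inv_cancel₀ hTc, one_smul]
  · set y := ((‖T‖ : ℂ)⁻¹) • T x with hy
    have hTy : T x = (‖T‖ : ℂ) • y := by rw [hy, smul_smul, mul_inv_cancel₀ hTc, one_smul]
    have hyn : ‖y‖ = 1 := by
      rw [hy, norm_smul, h3, norm_inv, Complex.norm_real, Real.norm_of_nonneg hT.le]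
      exact inv_mul_cancel₀ hT.ne'
    have hn : ‖(ContinuousLinearMap.adjoint T) y‖ ≤ ‖T‖ := by
      have := (ContinuousLinearMap.adjoint T).le_opNorm y
      rw [hyn, mul_one] at this
      rwa [LinearIsometryEquiv.norm_map] at this
    have hz : ‖(ContinuousLinearMap.adjoint T) y - (‖T‖ : ℂ) • x‖ ^ 2 ≤ 0 := by
      rw [@norm_sub_sq ℂ]
      have e1 : RCLike.re (inner ℂ ((ContinuousLinearMap.adjoint T) y) ((‖T‖ : ℂ) • x)) = ‖T‖ ^ 2 := by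
        rw [inner_smul_right, ContinuousLinearMap.adjoint_inner_left, hTy, inner_smul_right,
          inner_self_eq_norm_sq_to_K, hyn]
        simp
        norm_cast
        ring
      have e2 : ‖(‖T‖ : ℂ) • x‖ = ‖T‖ := by
        rw [norm_smul, hx2, mul_one, Complex.norm_real, Real.norm_of_nonneg hT.le]
      rw [e1, e2]
      have := pow_le_pow_left₀ (norm_nonneg _) hn 2
      linarith
    have hz0 : ‖(ContinuousLinearMap.adjoint T) y - (‖T‖ : ℂ) • x‖ = 0 := by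
      have := sq_nonneg ‖(ContinuousLinearMap.adjoint T) y - (‖T‖ : ℂ) • x‖
      exact pow_eq_zero_iff (two_ne_zero) |>.1 (le_antisymm hz this)
    exact sub_eq_zero.1 (norm_eq_zero.1 hz0)

/-- elementary form of the extremal equations for a matrix of positive norm. -/
theorem exists_kkt (B : Matrix ι ι ℂ) (hB : 0 < ‖B‖) :
    ∃ x y : ι → ℂ, ∑ j, ‖x j‖ ^ 2 = 1 ∧ ∑ i, ‖y i‖ ^ 2 = 1 ∧
      (∀ i, ∑ j, B i j * x j = (‖B‖ : ℂ) * y i) ∧
      (∀ j, ∑ i, star (y i) * B i j = (‖B‖ : ℂ) * star (x j)) := by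
  have hn : ‖Matrix.toEuclideanCLM (n := ι) (𝕜 := ℂ) B‖ = ‖B‖ := (Matrix.cstar_norm_def B).symm
  obtain ⟨x, y, hx, hy, h1, h2⟩ := exists_unit (Matrix.toEuclideanCLM (n := ι) (𝕜 := ℂ) B)
    (by rw [hn]; exact hB)
  rw [hn] at h1 h2
  refine ⟨WithLp.ofLp x, WithLp.ofLp y, ?_, ?_, ?_, ?_⟩
  · rw [← norm_toLp_sq]; simp [hx]
  · rw [← norm_toLp_sq]; simp [hy]
  · intro i
    have := congrFun (congrArg WithLp.ofLp h1) i
    simpa [Matrix.mulVec, dotProduct] using this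
  · intro j
    have e : ContinuousLinearMap.adjoint (Matrix.toEuclideanCLM (n := ι) (𝕜 := ℂ) B) =
        Matrix.toEuclideanCLM (n := ι) (𝕜 := ℂ) Bᴴ := by
      rw [← ContinuousLinearMap.star_eq_adjoint, ← map_star, Matrix.star_eq_conjTranspose]
    rw [e] at h2
    have := congrFun (congrArg WithLp.ofLp h2) j
    simp only [Matrix.ofLp_toEuclideanCLM, Matrix.mulVec, dotProduct, Matrix.conjTranspose_apply] at this
    have h3 := congrArg star this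
    rw [star_sum] at h3
    simp only [star_mul', star_star] at h3
    rw [show star ((WithLp.ofLp ((‖B‖ : ℂ) • x)) j) = (‖B‖ : ℂ) * star ((WithLp.ofLp x) j) by
      simp] at h3
    rw [← h3]
    exact Finset.sum_congr rfl fun i _ => mul_comm _ _

end gen

/-- The Schur multiplier norm. -/
noncomputable def schurNorm {n : ℕ} (M : Matrix (Fin n) (Fin n) ℂ) : ℝ :=
  sSup {t : ℝ | ∃ A : Matrix (Fin n) (Fin n) ℂ, ‖A‖ ≤ 1 ∧ t = ‖M ⊙ A‖}

theorem schurNorm_spec {n : ℕ} (M : Matrix (Fin n) (Fin n) ℂ) :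
    ∃ A : Matrix (Fin n) (Fin n) ℂ, ‖A‖ ≤ 1 ∧ schurNorm M = ‖M ⊙ A‖ ∧
      ∀ B : Matrix (Fin n) (Fin n) ℂ, ‖B‖ ≤ 1 → ‖M ⊙ B‖ ≤ schurNorm M := by
  obtain ⟨A, hA, hmax⟩ := exists_max M
  have hg : IsGreatest {t : ℝ | ∃ A : Matrix (Fin n) (Fin n) ℂ, ‖A‖ ≤ 1 ∧ t = ‖M ⊙ A‖} ‖M ⊙ A‖ := by
    refine ⟨⟨A, hA, rfl⟩, ?_⟩
    rintro _ ⟨B, hB, rfl⟩
    exact hmax B hB
  have e : schurNorm M = ‖M ⊙ A‖ := hg.csSup_eq
  exact ⟨A, hA, e, fun B hB => e ▸ hmax B hB⟩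

theorem form_eq {ι : Type*} [Fintype ι] (M A : Matrix ι ι ℂ) (x y : ι → ℂ) :
    form M A x y = star y ⬝ᵥ ((M ⊙ A) *ᵥ x) := by
  simp [form, dotProduct, Matrix.mulVec, Matrix.hadamard_apply]

theorem form_le {n : ℕ} (M A : Matrix (Fin n) (Fin n) ℂ) (hA : Contr A) (x y : Fin n → ℂ) :
    ‖form M A x y‖ ≤ schurNorm M * (Real.sqrt (∑ i, ‖x i‖ ^ 2) * Real.sqrt (∑ i, ‖y i‖ ^ 2)) := by
  obtain ⟨-, -, -, hmax⟩ := schurNorm_spec M
  have h1 := hmax A (norm_of_contr hA)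
  have h2 := Matrix.l2_opNorm_mulVec (M ⊙ A) (WithLp.toLp 2 x)
  have hx : ‖(WithLp.toLp 2 x : EuclideanSpace ℂ (Fin n))‖ = Real.sqrt (∑ i, ‖x i‖ ^ 2) := by
    rw [← norm_toLp_sq, Real.sqrt_sq (norm_nonneg _)]
  have hy : ‖(WithLp.toLp 2 y : EuclideanSpace ℂ (Fin n))‖ = Real.sqrt (∑ i, ‖y i‖ ^ 2) := by
    rw [← norm_toLp_sq, Real.sqrt_sq (norm_nonneg _)]
  have h3 : form M A x y = inner ℂ (WithLp.toLp 2 y : EuclideanSpace ℂ (Fin n))
      (WithLp.toLp 2 ((M ⊙ A) *ᵥ x)) := by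
    rw [form_eq, EuclideanSpace.inner_eq_star_dotProduct]
    simp [dotProduct_comm]
  rw [h3]
  refine (norm_inner_le_norm _ _).trans ?_
  rw [← hx, ← hy]
  have h4 : ‖(WithLp.toLp 2 ((M ⊙ A) *ᵥ x) : EuclideanSpace ℂ (Fin n))‖ ≤
      schurNorm M * ‖(WithLp.toLp 2 x : EuclideanSpace ℂ (Fin n))‖ :=
    h2.trans (mul_le_mul_of_nonneg_right h1 (norm_nonneg _))
  calc ‖(WithLp.toLp 2 y : EuclideanSpace ℂ (Fin n))‖ * ‖(WithLp.toLp 2 ((M ⊙ A) *ᵥ x) : EuclideanSpace ℂ (Fin n))‖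
      ≤ ‖(WithLp.toLp 2 y : EuclideanSpace ℂ (Fin n))‖ * (schurNorm M * ‖(WithLp.toLp 2 x : EuclideanSpace ℂ (Fin n))‖) :=
        mul_le_mul_of_nonneg_left h4 (norm_nonneg _)
    _ = _ := by ring

/-- The set of values of the Schur norm on sign matrices. -/
def signNorms (n : ℕ) : Set ℝ :=
  {t : ℝ | ∃ M : Matrix (Fin n) (Fin n) ℂ, (∀ i j, M i j = 1 ∨ M i j = -1) ∧ t = schurNorm M}

/-- `r n`, the maximal Schur norm of an `n × n` sign matrix. -/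
noncomputable def r (n : ℕ) : ℝ := sSup (signNorms n)

theorem signNorms_finite (n : ℕ) : (signNorms n).Finite := by
  have h1 : ({M : Fin n → Fin n → ℂ | ∀ i, M i ∈ {v : Fin n → ℂ | ∀ j, v j ∈ ({1, -1} : Set ℂ)}}).Finite :=
    Set.Finite.pi' fun i => Set.Finite.pi' fun j => Set.toFinite _
  have h2 : signNorms n ⊆ (fun M : Fin n → Fin n → ℂ => schurNorm (Matrix.of M)) ''
      {M : Fin n → Fin n → ℂ | ∀ i, M i ∈ {v : Fin n → ℂ | ∀ j, v j ∈ ({1, -1} : Set ℂ)}} := by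
    rintro _ ⟨M, hM, rfl⟩
    exact ⟨fun i j => M i j, fun i j => hM i j, rfl⟩
  exact (h1.image _).subset h2

theorem r_greatest (n : ℕ) : IsGreatest (signNorms n) (r n) := by
  have hne : (signNorms n).Nonempty := ⟨_, fun _ _ => 1, fun i j => Or.inl rfl, rfl⟩
  refine ⟨hne.csSup_mem (signNorms_finite n), ?_⟩
  intro t ht
  exact le_csSup (signNorms_finite n).bddAbove ht

theorem schurNorm_pos {n : ℕ} (hn : 1 ≤ n) (M : Matrix (Fin n) (Fin n) ℂ)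
    (hM : ∀ i j, M i j = 1 ∨ M i j = -1) : 0 < schurNorm M := by
  have hc : Contr (1 : Matrix (Fin n) (Fin n) ℂ) := contr_of_unitary (by simp)
  let i0 : Fin n := ⟨0, hn⟩
  have h := form_le M 1 hc (Pi.single i0 1) (Pi.single i0 1)
  have e1 : form M 1 (Pi.single i0 1) (Pi.single i0 1) = M i0 i0 := by
    rw [form, Finset.sum_eq_single i0, Finset.sum_eq_single i0]
    · simp
    · intro j _ hj; simp [hj]
    · simp
    · intro j _ hj; simp [hj]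
    · simp
  have e2 : ∑ i, ‖(Pi.single i0 1 : Fin n → ℂ) i‖ ^ 2 = 1 := by
    rw [Finset.sum_eq_single i0]
    · simp
    · intro j _ hj; simp [hj]
    · simp
  rw [e1, e2] at h
  have e3 : ‖M i0 i0‖ = 1 := by rcases hM i0 i0 with h | h <;> simp [h]
  rw [e3] at h
  simp at h
  linarith

end Pool.Agent.R989.Sch
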