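import Pool.Agent.R989.Sch2

open scoped Matrix.Norms.L2Operator Matrix
open Matrix

namespace Pool.Agent.R989.Sch

variable {n : ℕ}

/-- sign of a unit integer as a complex number -/
noncomputable def sg (b : ℤˣ) : ℂ := ((b : ℤ) : ℂ)

theorem sg_sq (b : ℤˣ) : sg b * sg b = 1 := by
  rcases Int.units_eq_one_or b with h | h <;> simp [sg, h]

theorem sg_or (b : ℤˣ) : sg b = 1 ∨ sg b = -1 := by
  rcases Int.units_eq_one_or b with h | h <;> simp [sg, h]

theorem sg_star (b : ℤˣ) : star (sg b) = sg b := by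
  rcases Int.units_eq_one_or b with h | h <;> simp [sg, h]

theorem sg_mul (a b : ℤˣ) : sg (a * b) = sg a * sg b := by
  simp [sg]

theorem sum_flip (i : Fin n) (f : (Fin n → ℤˣ) → ℂ)
    (hf : ∀ b, f (Pi.mulSingle i (-1) * b) = - f b) : ∑ b, f b = 0 := by
  have h := Equiv.sum_comp (Equiv.mulLeft (Pi.mulSingle i (-1 : ℤˣ) : Fin n → ℤˣ)) f
  simp only [Equiv.coe_mulLeft, hf, Finset.sum_neg_distrib] at h
  have : (2 : ℂ) * ∑ b, f b = 0 := by linear_combination -h
  simpa using this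

theorem sum_sg (i : Fin n) : ∑ b : Fin n → ℤˣ, sg (b i) = 0 := by
  refine sum_flip i _ fun b => ?_
  simp [sg_mul]
  simp [sg]

theorem sum_sg_sg (i j : Fin n) :
    ∑ b : Fin n → ℤˣ, sg (b i) * sg (b j) = if i = j then (Fintype.card (Fin n → ℤˣ) : ℂ) else 0 := by
  split_ifs with h
  · subst h
    simp [sg_sq]
  · refine sum_flip i _ fun b => ?_
    have h1 : (Pi.mulSingle i (-1 : ℤˣ) : Fin n → ℤˣ) j = 1 := by
      rw [Pi.mulSingle_eq_of_ne]; exact fun h' => h h'.symm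
    simp [sg_mul, h1]
    simp [sg]

/-- the random column with weights `w` -/
noncomputable def uv (w : Fin n → ℂ) (b : Fin n → ℤˣ) : Matrix (Fin n) (Fin 1) ℂ :=
  Matrix.of fun i _ => sg (b i) * w i

theorem uv_unit (w : Fin n → ℂ) (hw : ∑ i, ‖w i‖ ^ 2 = 1) (b : Fin n → ℤˣ) :
    (uv w b)ᴴ * uv w b = 1 := by
  ext i j
  rw [Subsingleton.elim i 0, Subsingleton.elim j 0, Matrix.mul_apply, Matrix.one_apply_eq]
  have h : ∀ k, (uv w b)ᴴ 0 k * uv w b k 0 = ((‖w k‖ ^ 2 : ℝ) : ℂ) := by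
    intro k
    rw [Matrix.conjTranspose_apply]
    simp only [uv, Matrix.of_apply, star_mul', sg_star]
    have h1 := sg_sq (b k)
    have h2 : star (w k) * w k = ((‖w k‖ ^ 2 : ℝ) : ℂ) := by
      push_cast; rw [← Complex.conj_mul']; rfl
    rw [← h2]
    linear_combination (star (w k) * w k) * h1
  rw [Finset.sum_congr rfl fun k _ => h k, ← Complex.ofReal_sum, hw]
  simp

theorem sum_uv (w : Fin n → ℂ) : ∑ b : Fin n → ℤˣ, uv w b = 0 := by
  ext i j
  rw [Matrix.sum_apply]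
  simp only [uv, Matrix.of_apply, Matrix.zero_apply]
  rw [← Finset.sum_mul, sum_sg, zero_mul]

theorem sum_uvH (w : Fin n → ℂ) : ∑ b : Fin n → ℤˣ, (uv w b)ᴴ = 0 := by
  rw [← Matrix.conjTranspose_sum, sum_uv, Matrix.conjTranspose_zero]

/-- the diagonal matrix of squared weights -/
noncomputable def dg (w : Fin n → ℂ) : Matrix (Fin n) (Fin n) ℂ :=
  Matrix.diagonal fun i => ((‖w i‖ ^ 2 : ℝ) : ℂ)

theorem sum_uv_uvH (w : Fin n → ℂ) :
    ∑ b : Fin n → ℤˣ, uv w b * (uv w b)ᴴ = (Fintype.card (Fin n → ℤˣ) : ℂ) • dg w := by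
  ext i j
  rw [Matrix.sum_apply]
  have h : ∀ b : Fin n → ℤˣ, (uv w b * (uv w b)ᴴ) i j = (sg (b i) * sg (b j)) * (w i * star (w j)) := by
    intro b
    rw [Matrix.mul_apply, Fin.sum_univ_one, Matrix.conjTranspose_apply]
    simp only [uv, Matrix.of_apply, star_mul', sg_star]
    ring
  rw [Finset.sum_congr rfl fun b _ => h b, ← Finset.sum_mul, sum_sg_sg, Matrix.smul_apply, dg,
    Matrix.diagonal_apply]
  split_ifs with hij
  · subst hij
    rw [smul_eq_mul]
    congr 1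
    push_cast
    rw [← Complex.mul_conj']
    rfl
  · simp

/-- the bordered matrix -/
noncomputable def bord (M : Matrix (Fin n) (Fin n) ℂ) (b c : Fin n → ℤˣ) :
    Matrix (Fin n ⊕ Fin 1) (Fin n ⊕ Fin 1) ℂ :=
  Matrix.fromBlocks M (Matrix.of fun i _ => sg (b i)) (Matrix.of fun _ j => sg (c j)) 1

/-- the rotation -/
noncomputable def rot (u : Matrix (Fin n) (Fin 1) ℂ) (c s : ℝ) :
    Matrix (Fin n ⊕ Fin 1) (Fin n ⊕ Fin 1) ℂ :=
  Matrix.fromBlocks (1 - ((1 - c : ℝ) : ℂ) • (u * uᴴ)) ((s : ℂ) • u) (-((s : ℂ) • uᴴ))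
    ((c : ℂ) • (1 : Matrix (Fin 1) (Fin 1) ℂ))

/-- the new contraction -/
noncomputable def nA (A : Matrix (Fin n) (Fin n) ℂ) (u v : Matrix (Fin n) (Fin 1) ℂ) (c s c' s' : ℝ) :
    Matrix (Fin n ⊕ Fin 1) (Fin n ⊕ Fin 1) ℂ :=
  rot u c s * Matrix.fromBlocks A 0 0 1 * rot v c' s'

theorem nA_contr {A : Matrix (Fin n) (Fin n) ℂ} (hA : Contr A) {u v : Matrix (Fin n) (Fin 1) ℂ}
    (hu : uᴴ * u = 1) (hv : vᴴ * v = 1) {c s c' s' : ℝ} (h : c ^ 2 + s ^ 2 = 1)
    (h' : c' ^ 2 + s' ^ 2 = 1) : Contr (nA A u v c s c' s') :=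
  ((contr_of_unitary (unitary_block u hu c s h)).mul (contr_diag hA)).mul
    (contr_of_unitary (unitary_block v hv c' s' h'))

/-- the four blocks -/
noncomputable def b11 (A : Matrix (Fin n) (Fin n) ℂ) (u v : Matrix (Fin n) (Fin 1) ℂ) (c s c' s' : ℝ) :
    Matrix (Fin n) (Fin n) ℂ :=
  (1 - ((1 - c : ℝ) : ℂ) • (u * uᴴ)) * A * (1 - ((1 - c' : ℝ) : ℂ) • (v * vᴴ)) -
    ((s : ℂ) * s') • (u * vᴴ)

noncomputable def b12 (A : Matrix (Fin n) (Fin n) ℂ) (u v : Matrix (Fin n) (Fin 1) ℂ) (c s c' s' : ℝ) :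
    Matrix (Fin n) (Fin 1) ℂ :=
  (s' : ℂ) • ((1 - ((1 - c : ℝ) : ℂ) • (u * uᴴ)) * A * v) + ((s : ℂ) * c') • u

noncomputable def b21 (A : Matrix (Fin n) (Fin n) ℂ) (u v : Matrix (Fin n) (Fin 1) ℂ) (c s c' s' : ℝ) :
    Matrix (Fin 1) (Fin n) ℂ :=
  -((s : ℂ) • (uᴴ * A * (1 - ((1 - c' : ℝ) : ℂ) • (v * vᴴ)))) - ((c : ℂ) * s') • vᴴ

noncomputable def b22 (A : Matrix (Fin n) (Fin n) ℂ) (u v : Matrix (Fin n) (Fin 1) ℂ) (c s c' s' : ℝ) :
    Matrix (Fin 1) (Fin 1) ℂ :=
  -(((s : ℂ) * s') • (uᴴ * A * v)) + ((c : ℂ) * c') • 1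

theorem nA_eq (A : Matrix (Fin n) (Fin n) ℂ) (u v : Matrix (Fin n) (Fin 1) ℂ) (c s c' s' : ℝ) :
    nA A u v c s c' s' = Matrix.fromBlocks (b11 A u v c s c' s') (b12 A u v c s c' s')
      (b21 A u v c s c' s') (b22 A u v c s c' s') := by
  rw [nA, rot, rot, Matrix.fromBlocks_multiply, Matrix.fromBlocks_multiply]
  congr 1
  · rw [b11]
    simp only [Matrix.mul_zero, add_zero, zero_add, Matrix.mul_one, Matrix.smul_mul, Matrix.mul_smul,
      Matrix.mul_neg, smul_smul]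
    module
  · rw [b12]
    simp only [Matrix.mul_zero, add_zero, zero_add, Matrix.mul_one, Matrix.smul_mul, Matrix.mul_smul,
      Matrix.mul_neg, smul_smul]
    module
  · rw [b21]
    simp only [Matrix.mul_zero, add_zero, zero_add, Matrix.mul_one, Matrix.one_mul, Matrix.smul_mul, Matrix.mul_smul,
      Matrix.mul_neg, Matrix.neg_mul, smul_smul]
    module
  · rw [b22]
    simp only [Matrix.mul_zero, add_zero, zero_add, Matrix.mul_one, Matrix.one_mul, Matrix.smul_mul, Matrix.mul_smul,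
      Matrix.mul_neg, Matrix.neg_mul, smul_smul, smul_neg]
    module

theorem form_bord (M A : Matrix (Fin n) (Fin n) ℂ) (b c : Fin n → ℤˣ)
    (B12 : Matrix (Fin n) (Fin 1) ℂ) (B21 : Matrix (Fin 1) (Fin n) ℂ) (B22 : Matrix (Fin 1) (Fin 1) ℂ)
    (x y : Fin n → ℂ) (β : ℝ) :
    form (bord M b c) (Matrix.fromBlocks A B12 B21 B22) (Sum.elim x fun _ => (β : ℂ))
      (Sum.elim y fun _ => (β : ℂ)) =
    form M A x y + β * ∑ i, star (y i) * sg (b i) * B12 i 0 + β * ∑ j, sg (c j) * x j * B21 0 j +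
      β ^ 2 * B22 0 0 := by
  rw [form, form, Fintype.sum_sum_type, Fin.sum_univ_one]
  simp only [Fintype.sum_sum_type, Fin.sum_univ_one, bord, Matrix.fromBlocks_apply₁₁,
    Matrix.fromBlocks_apply₁₂, Matrix.fromBlocks_apply₂₁, Matrix.fromBlocks_apply₂₂, Sum.elim_inl,
    Sum.elim_inr, Matrix.of_apply, Matrix.one_apply_eq, mul_add, Finset.sum_add_distrib]
  have hb : star (β : ℂ) = β := Complex.conj_ofReal β
  rw [hb]
  have e1 : ∑ i, star (y i) * (sg (b i) * B12 i 0 * (β : ℂ)) = β * ∑ i, star (y i) * sg (b i) * B12 i 0 := by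
    rw [Finset.mul_sum]
    exact Finset.sum_congr rfl fun i _ => by ring
  have e2 : (β : ℂ) * ∑ j, sg (c j) * B21 0 j * x j = β * ∑ j, sg (c j) * x j * B21 0 j := by
    congr 1
    exact Finset.sum_congr rfl fun i _ => by ring
  rw [e1, e2]
  ring

theorem form_add (M A B : Matrix (Fin n) (Fin n) ℂ) (x y : Fin n → ℂ) :
    form M (A + B) x y = form M A x y + form M B x y := by
  simp only [form, Matrix.add_apply]
  rw [← Finset.sum_add_distrib]
  refine Finset.sum_congr rfl fun i _ => ?_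
  rw [← mul_add, ← Finset.sum_add_distrib]
  congr 1
  exact Finset.sum_congr rfl fun j _ => by ring

theorem form_smul (M A : Matrix (Fin n) (Fin n) ℂ) (t : ℂ) (x y : Fin n → ℂ) :
    form M (t • A) x y = t * form M A x y := by
  simp only [form, Matrix.smul_apply, smul_eq_mul]
  rw [Finset.mul_sum]
  refine Finset.sum_congr rfl fun i _ => ?_
  rw [Finset.mul_sum, Finset.mul_sum, Finset.mul_sum]
  exact Finset.sum_congr rfl fun j _ => by ring

theorem form_sum {α : Type*} (s : Finset α) (M : Matrix (Fin n) (Fin n) ℂ) (F : α → Matrix (Fin n) (Fin n) ℂ)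
    (x y : Fin n → ℂ) : ∑ a ∈ s, form M (F a) x y = form M (∑ a ∈ s, F a) x y := by
  classical
  induction s using Finset.induction_on with
  | empty => simp [form]
  | insert a s ha ih => rw [Finset.sum_insert ha, Finset.sum_insert ha, form_add, ih]

/-- sum over all signs of the form. -/
theorem total (M A : Matrix (Fin n) (Fin n) ℂ) (w z : Fin n → ℂ) (c s c' s' β : ℝ)
    (x y : Fin n → ℂ) :
    ∑ b : Fin n → ℤˣ, ∑ d : Fin n → ℤˣ,
      form (bord M b d) (nA A (uv w b) (uv z d) c s c' s') (Sum.elim x fun _ => (β : ℂ))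
      (Sum.elim y fun _ => (β : ℂ)) =
    (Fintype.card (Fin n → ℤˣ) : ℂ) ^ 2 *
      (form M A x y - ((1 - c : ℝ) : ℂ) * form M (dg w * A) x y
        - ((1 - c' : ℝ) : ℂ) * form M (A * dg z) x y
        + ((1 - c : ℝ) : ℂ) * ((1 - c' : ℝ) : ℂ) * form M (dg w * A * dg z) x y
        + β * (s * c') * ∑ i, star (y i) * w i
        - β * (c * s') * ∑ j, x j * star (z j)
        + β ^ 2 * (c * c')) := by
  set N : ℂ := (Fintype.card (Fin n → ℤˣ) : ℂ) with hN
  simp only [nA_eq, form_bord, Finset.sum_add_distrib]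
  -- first block
  have h11 : ∑ b : Fin n → ℤˣ, ∑ d : Fin n → ℤˣ, form M (b11 A (uv w b) (uv z d) c s c' s') x y =
      N ^ 2 * (form M A x y - ((1 - c : ℝ) : ℂ) * form M (dg w * A) x y
        - ((1 - c' : ℝ) : ℂ) * form M (A * dg z) x y
        + ((1 - c : ℝ) : ℂ) * ((1 - c' : ℝ) : ℂ) * form M (dg w * A * dg z) x y) := by
    simp only [form_sum]
    have hF : ∑ b : Fin n → ℤˣ, (1 - ((1 - c : ℝ) : ℂ) • (uv w b * (uv w b)ᴴ)) =
        N • (1 - ((1 - c : ℝ) : ℂ) • dg w) := by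
      rw [Finset.sum_sub_distrib, ← Finset.smul_sum, sum_uv_uvH, Finset.sum_const, Finset.card_univ,
        smul_sub, smul_comm N, hN]
      congr 1
      exact (Nat.cast_smul_eq_nsmul ℂ _ _).symm
    have hG : ∑ b : Fin n → ℤˣ, (1 - ((1 - c' : ℝ) : ℂ) • (uv z b * (uv z b)ᴴ)) =
        N • (1 - ((1 - c' : ℝ) : ℂ) • dg z) := by
      rw [Finset.sum_sub_distrib, ← Finset.smul_sum, sum_uv_uvH, Finset.sum_const, Finset.card_univ,
        smul_sub, smul_comm N, hN]
      congr 1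
      exact (Nat.cast_smul_eq_nsmul ℂ _ _).symm
    have hS : ∑ b : Fin n → ℤˣ, ∑ d : Fin n → ℤˣ, b11 A (uv w b) (uv z d) c s c' s' =
        (N • (1 - ((1 - c : ℝ) : ℂ) • dg w)) * A * (N • (1 - ((1 - c' : ℝ) : ℂ) • dg z)) := by
      rw [← hF, ← hG]
      simp only [b11, Finset.sum_sub_distrib]
      have e1 : ∑ b : Fin n → ℤˣ, ∑ d : Fin n → ℤˣ, ((s : ℂ) * s') • (uv w b * (uv z d)ᴴ) = 0 := by
        have : ∀ b : Fin n → ℤˣ, ∑ d : Fin n → ℤˣ, ((s : ℂ) * s') • (uv w b * (uv z d)ᴴ) = 0 := by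
          intro b
          rw [← Finset.smul_sum, ← Matrix.mul_sum, sum_uvH, Matrix.mul_zero, smul_zero]
        simp [this]
      rw [e1, sub_zero]
      simp only [← Matrix.mul_sum, ← Matrix.sum_mul, Finset.sum_sub_distrib]
    rw [hS]
    have hS2 : (N • (1 - ((1 - c : ℝ) : ℂ) • dg w)) * A * (N • (1 - ((1 - c' : ℝ) : ℂ) • dg z)) =
        (N ^ 2) • (A + (-((1 - c : ℝ) : ℂ)) • (dg w * A) + (-((1 - c' : ℝ) : ℂ)) • (A * dg z)
          + (((1 - c : ℝ) : ℂ) * ((1 - c' : ℝ) : ℂ)) • (dg w * A * dg z)) := by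
      rw [Matrix.smul_mul, Matrix.smul_mul, Matrix.mul_smul, Matrix.sub_mul, Matrix.one_mul,
        Matrix.mul_sub, Matrix.mul_one, Matrix.sub_mul, Matrix.smul_mul, Matrix.mul_smul,
        Matrix.mul_smul, Matrix.smul_mul]
      module
    rw [hS2, form_smul, form_add, form_add, form_add, form_smul, form_smul, form_smul]
    ring
  have h12 : ∑ b : Fin n → ℤˣ, ∑ d : Fin n → ℤˣ, (β : ℂ) * ∑ i, star (y i) * sg (b i) *
      b12 A (uv w b) (uv z d) c s c' s' i 0 = N ^ 2 * (β * (s * c') * ∑ i, star (y i) * w i) := by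
    have hb : ∀ b : Fin n → ℤˣ, ∑ d : Fin n → ℤˣ, (β : ℂ) * ∑ i, star (y i) * sg (b i) *
      b12 A (uv w b) (uv z d) c s c' s' i 0 = N * (β * (s * c') * ∑ i, star (y i) * w i) := by
      intro b
      have hs : ∑ d : Fin n → ℤˣ, b12 A (uv w b) (uv z d) c s c' s' = (N * (s * c')) • uv w b := by
        simp only [b12, Finset.sum_add_distrib]
        rw [← Finset.smul_sum, ← Matrix.mul_sum, sum_uv, Matrix.mul_zero, smul_zero, zero_add,
          Finset.sum_const, Finset.card_univ, ← Nat.cast_smul_eq_nsmul ℂ, smul_smul]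
      rw [← Finset.mul_sum, Finset.sum_comm]
      have h2 : ∀ i, ∑ d : Fin n → ℤˣ, star (y i) * sg (b i) *
          b12 A (uv w b) (uv z d) c s c' s' i 0 = (N * (s * c')) * (star (y i) * w i) := by
        intro i
        rw [← Finset.mul_sum]
        have h3 := congrFun (congrFun hs i) 0
        rw [Matrix.sum_apply] at h3
        rw [h3, Matrix.smul_apply, uv, Matrix.of_apply, smul_eq_mul]
        linear_combination (star (y i) * w i * N * s * c') * sg_sq (b i)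
      rw [Finset.sum_congr rfl fun i _ => h2 i, ← Finset.mul_sum]
      ring
    rw [Finset.sum_congr rfl fun b _ => hb b, Finset.sum_const, Finset.card_univ, nsmul_eq_mul, ← hN]
    ring
  have h21 : ∑ b : Fin n → ℤˣ, ∑ d : Fin n → ℤˣ, (β : ℂ) * ∑ j, sg (d j) * x j *
      b21 A (uv w b) (uv z d) c s c' s' 0 j = N ^ 2 * (-(β * (c * s') * ∑ j, x j * star (z j))) := by
    rw [Finset.sum_comm]
    have hb : ∀ d : Fin n → ℤˣ, ∑ b : Fin n → ℤˣ, (β : ℂ) * ∑ j, sg (d j) * x j *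
      b21 A (uv w b) (uv z d) c s c' s' 0 j = N * (-(β * (c * s') * ∑ j, x j * star (z j))) := by
      intro d
      have hs : ∑ b : Fin n → ℤˣ, b21 A (uv w b) (uv z d) c s c' s' = (-(N * (c * s'))) • (uv z d)ᴴ := by
        simp only [b21, Finset.sum_sub_distrib, Finset.sum_neg_distrib]
        rw [← Finset.smul_sum, ← Matrix.sum_mul, ← Matrix.sum_mul, sum_uvH, Matrix.zero_mul,
          Matrix.zero_mul, smul_zero, neg_zero, zero_sub,
          Finset.sum_const, Finset.card_univ, ← Nat.cast_smul_eq_nsmul ℂ, smul_smul, neg_smul]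
      rw [← Finset.mul_sum, Finset.sum_comm]
      have h2 : ∀ j, ∑ b : Fin n → ℤˣ, sg (d j) * x j *
          b21 A (uv w b) (uv z d) c s c' s' 0 j = (-(N * (c * s'))) * (x j * star (z j)) := by
        intro j
        rw [← Finset.mul_sum]
        have h3 := congrFun (congrFun hs 0) j
        rw [Matrix.sum_apply] at h3
        rw [h3, Matrix.smul_apply, Matrix.conjTranspose_apply, uv, Matrix.of_apply, smul_eq_mul,
          star_mul', sg_star]
        linear_combination (-(x j * star (z j) * N * c * s')) * sg_sq (d j)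
      rw [Finset.sum_congr rfl fun i _ => h2 i, ← Finset.mul_sum]
      ring
    rw [Finset.sum_congr rfl fun b _ => hb b, Finset.sum_const, Finset.card_univ, nsmul_eq_mul, ← hN]
    ring
  have h22 : ∑ b : Fin n → ℤˣ, ∑ d : Fin n → ℤˣ, (β : ℂ) ^ 2 *
      b22 A (uv w b) (uv z d) c s c' s' 0 0 = N ^ 2 * (β ^ 2 * (c * c')) := by
    have hs : ∑ b : Fin n → ℤˣ, ∑ d : Fin n → ℤˣ, b22 A (uv w b) (uv z d) c s c' s' =
        (N ^ 2 * (c * c')) • 1 := by
      have hb : ∀ b : Fin n → ℤˣ, ∑ d : Fin n → ℤˣ, b22 A (uv w b) (uv z d) c s c' s' =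
          (N * (c * c')) • 1 := by
        intro b
        simp only [b22, Finset.sum_add_distrib, Finset.sum_neg_distrib]
        rw [← Finset.smul_sum, ← Matrix.mul_sum, sum_uv, Matrix.mul_zero, smul_zero, neg_zero,
          zero_add, Finset.sum_const, Finset.card_univ, ← Nat.cast_smul_eq_nsmul ℂ, smul_smul]
      rw [Finset.sum_congr rfl fun b _ => hb b, Finset.sum_const, Finset.card_univ,
        ← Nat.cast_smul_eq_nsmul ℂ, smul_smul, ← hN]
      congr 1
      ring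
    simp only [← Finset.mul_sum]
    have h3 := congrFun (congrFun hs 0) 0
    rw [Matrix.sum_apply] at h3
    simp only [Matrix.sum_apply] at h3
    rw [h3, Matrix.smul_apply, Matrix.one_apply_eq, smul_eq_mul]
    ring
  rw [h11, h12, h21, h22]
  ring

end Pool.Agent.R989.Sch
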