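import Pool.Agent.R989.Sch3

open scoped Matrix.Norms.L2Operator Matrix
open Matrix

namespace Pool.Agent.R989.Sch

variable {n : ℕ}

theorem row_le {A : Matrix (Fin n) (Fin n) ℂ} (hA : Contr A) (i : Fin n) : ∑ j, ‖A i j‖ ^ 2 ≤ 1 := by
  set R := ∑ j, ‖A i j‖ ^ 2 with hR
  have h := hA (fun j => star (A i j))
  have h1 : ‖(A *ᵥ fun j => star (A i j)) i‖ ^ 2 ≤ ∑ k, ‖(A *ᵥ fun j => star (A i j)) k‖ ^ 2 :=
    Finset.single_le_sum (f := fun k => ‖(A *ᵥ fun j => star (A i j)) k‖ ^ 2)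
      (fun k _ => by positivity) (Finset.mem_univ i)
  have h2 : (A *ᵥ fun j => star (A i j)) i = ((R : ℝ) : ℂ) := by
    rw [Matrix.mulVec, dotProduct, hR]
    push_cast
    refine Finset.sum_congr rfl fun j _ => ?_
    rw [← Complex.mul_conj']; rfl
  have h3 : ∑ j, ‖star (A i j)‖ ^ 2 = R := by simp [hR]
  rw [h2] at h1
  rw [h3] at h
  rw [Complex.norm_real, Real.norm_eq_abs, sq_abs] at h1
  have h4 : R ^ 2 ≤ R := h1.trans h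
  by_contra hcon
  push Not at hcon
  nlinarith

theorem col_le {A : Matrix (Fin n) (Fin n) ℂ} (hA : Contr A) (j : Fin n) : ∑ i, ‖A i j‖ ^ 2 ≤ 1 := by
  have h := hA (Pi.single j 1)
  have h2 : ∀ i, (A *ᵥ (Pi.single j (1 : ℂ))) i = A i j := by
    intro i; simp
  have h3 : ∑ k, ‖(Pi.single j (1 : ℂ) : Fin n → ℂ) k‖ ^ 2 = 1 := by
    rw [Finset.sum_eq_single j]
    · simp
    · intro k _ hk; simp [hk]
    · simp
  simp only [h2] at h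
  rw [h3] at h
  exact h

theorem cs_le (a b : Fin n → ℂ) : ‖∑ j, a j * b j‖ ^ 2 ≤ (∑ j, ‖a j‖ ^ 2) * ∑ j, ‖b j‖ ^ 2 := by
  have h1 : ‖∑ j, a j * b j‖ ≤ ∑ j, ‖a j‖ * ‖b j‖ := by
    refine (norm_sum_le _ _).trans (le_of_eq ?_)
    exact Finset.sum_congr rfl fun j _ => norm_mul _ _
  have h2 := Finset.sum_mul_sq_le_sq_mul_sq Finset.univ (fun j => ‖a j‖) (fun j => ‖b j‖)
  exact (pow_le_pow_left₀ (norm_nonneg _) h1 2).trans h2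

/-- number of nonzero entries -/
noncomputable def supp (y : Fin n → ℂ) : ℝ := ∑ i, ‖y i‖ ^ 2 * (‖y i‖ ^ 2)⁻¹

theorem le_supp (y : Fin n → ℂ) (g : ℝ) (h1 : ∑ i, ‖y i‖ ^ 2 = 1) (h : ∀ i, g ^ 2 * ‖y i‖ ^ 2 ≤ 1) :
    g ^ 2 ≤ supp y := by
  have : g ^ 2 = ∑ i, g ^ 2 * ‖y i‖ ^ 2 := by rw [← Finset.mul_sum, h1, mul_one]
  rw [this, supp]
  refine Finset.sum_le_sum fun i _ => ?_
  by_cases hy : y i = 0
  · simp [hy]
  · rw [mul_inv_cancel₀ (by positivity)]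
    exact h i

theorem wsum_pos (y : Fin n → ℂ) (h1 : ∑ i, ‖y i‖ ^ 2 = 1) : 0 < ∑ i, (‖y i‖ ^ 2)⁻¹ := by
  have : ∃ i, y i ≠ 0 := by
    by_contra hcon
    push Not at hcon
    simp [hcon] at h1
  obtain ⟨i, hi⟩ := this
  exact Finset.sum_pos' (fun i _ => by positivity) ⟨i, Finset.mem_univ i, by positivity⟩

/-- the weights -/
noncomputable def wt (y : Fin n → ℂ) (i : Fin n) : ℂ :=
  (star (y i) * (Real.sqrt (∑ k, (‖y k‖ ^ 2)⁻¹) : ℂ))⁻¹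

theorem wt_norm (y : Fin n → ℂ) (i : Fin n) :
    ‖wt y i‖ ^ 2 = (‖y i‖ ^ 2)⁻¹ / (∑ k, (‖y k‖ ^ 2)⁻¹) := by
  have h0 : 0 ≤ ∑ k, (‖y k‖ ^ 2)⁻¹ := Finset.sum_nonneg fun k _ => by positivity
  rw [wt, norm_inv, norm_mul, norm_star, Complex.norm_real, Real.norm_of_nonneg (Real.sqrt_nonneg _),
    inv_pow, mul_pow, Real.sq_sqrt h0, mul_inv, div_eq_mul_inv]

theorem wt_sum (y : Fin n → ℂ) (h1 : ∑ i, ‖y i‖ ^ 2 = 1) : ∑ i, ‖wt y i‖ ^ 2 = 1 := by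
  have h := wsum_pos y h1
  simp only [wt_norm]
  rw [← Finset.sum_div]
  exact div_self h.ne'

theorem wt_pair (y : Fin n → ℂ) :
    ∑ i, star (y i) * wt y i = ((supp y / Real.sqrt (∑ k, (‖y k‖ ^ 2)⁻¹) : ℝ) : ℂ) := by
  rw [supp]
  push_cast
  rw [Finset.sum_div]
  refine Finset.sum_congr rfl fun i _ => ?_
  rw [wt, mul_inv, ← mul_assoc, ← div_eq_mul_inv (star (y i) * (star (y i))⁻¹)]
  congr 1
  by_cases hy : y i = 0
  · simp [hy]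
  · have h1 : star (y i) ≠ 0 := by simpa using hy
    have h2 : ((‖y i‖ : ℂ)) ^ 2 ≠ 0 := by
      have : ‖y i‖ ≠ 0 := by simpa using hy
      exact pow_ne_zero 2 (by exact_mod_cast this)
    rw [mul_inv_cancel₀ h1, mul_inv_cancel₀ h2]

theorem wt_sq (y : Fin n → ℂ) :
    ∑ i, ‖wt y i‖ ^ 2 * ‖y i‖ ^ 2 = supp y / (∑ k, (‖y k‖ ^ 2)⁻¹) := by
  simp only [wt_norm]
  rw [supp, Finset.sum_div]
  exact Finset.sum_congr rfl fun i _ => by ring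

theorem form_reindex {ι κ : Type*} [Fintype ι] [Fintype κ] (e : κ ≃ ι) (M A : Matrix ι ι ℂ)
    (x y : ι → ℂ) :
    form (M.submatrix e e) (A.submatrix e e) (x ∘ e) (y ∘ e) = form M A x y := by
  simp only [form, Matrix.submatrix_apply, Function.comp_apply]
  rw [← e.sum_comp]
  refine Finset.sum_congr rfl fun i _ => ?_
  rw [← e.sum_comp]

theorem bord_bound (M : Matrix (Fin n) (Fin n) ℂ) (hM : ∀ i j, M i j = 1 ∨ M i j = -1)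
    (b d : Fin n → ℤˣ) (A' : Matrix (Fin n ⊕ Fin 1) (Fin n ⊕ Fin 1) ℂ) (hA : Contr A')
    (x y : Fin n → ℂ) (β : ℝ) (hx : ∑ i, ‖x i‖ ^ 2 = 1) (hy : ∑ i, ‖y i‖ ^ 2 = 1) :
    ‖form (bord M b d) A' (Sum.elim x fun _ => (β : ℂ)) (Sum.elim y fun _ => (β : ℂ))‖ ≤
      r (n + 1) * (1 + β ^ 2) := by
  let e : Fin (n + 1) ≃ Fin n ⊕ Fin 1 := finSumFinEquiv.symm
  have hs : ∀ i j, ((bord M b d).submatrix e e) i j = 1 ∨ ((bord M b d).submatrix e e) i j = -1 := by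
    intro i j
    rw [Matrix.submatrix_apply, bord]
    rcases e i with i' | i' <;> rcases e j with j' | j'
    · exact hM i' j'
    · exact sg_or _
    · exact sg_or _
    · left
      rw [Matrix.fromBlocks_apply₂₂, Subsingleton.elim i' j', Matrix.one_apply_eq]
  have h1 : schurNorm ((bord M b d).submatrix e e) ≤ r (n + 1) :=
    (r_greatest (n + 1)).2 ⟨_, hs, rfl⟩
  have h2 := form_le ((bord M b d).submatrix e e) (A'.submatrix e e) (hA.reindex e)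
    ((Sum.elim x fun _ => (β : ℂ)) ∘ e) ((Sum.elim y fun _ => (β : ℂ)) ∘ e)
  rw [form_reindex] at h2
  have hn : ∀ x : Fin n → ℂ, ∑ i, ‖x i‖ ^ 2 = 1 →
      ∑ i, ‖((Sum.elim x fun _ : Fin 1 => (β : ℂ)) ∘ e) i‖ ^ 2 = 1 + β ^ 2 := by
    intro x hx
    simp only [Function.comp_apply]
    rw [e.sum_comp (fun k => ‖(Sum.elim x fun _ : Fin 1 => (β : ℂ)) k‖ ^ 2), Fintype.sum_sum_type]
    simp [hx]
  rw [hn x hx, hn y hy, Real.mul_self_sqrt (by positivity)] at h2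
  exact h2.trans (mul_le_mul_of_nonneg_right h1 (by positivity))

theorem ineq_t {γ Wy Wx ny nx T : ℝ} (hγ : 0 < γ) (hny : γ ^ 2 ≤ ny) (hnx : γ ^ 2 ≤ nx)
    (hWy : 0 < Wy) (hWx : 0 < Wx)
    (h : ∀ t : ℝ, t ≠ 0 → ∀ c s c' s' : ℝ,
      c = (1 - Wy * t ^ 2 / 4) / (1 + Wy * t ^ 2 / 4) → s = (Real.sqrt Wy * t) / (1 + Wy * t ^ 2 / 4) →
      c' = (1 - Wx * t ^ 2 / 4) / (1 + Wx * t ^ 2 / 4) → s' = (Real.sqrt Wx * t) / (1 + Wx * t ^ 2 / 4) →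
      γ - (1 - c) * (γ * (ny / Wy)) - (1 - c') * (γ * (nx / Wx)) + (1 - c) * (1 - c') * T
        + (γ * t) * (s * c') * (ny / Real.sqrt Wy) + (γ * t) * (c * s') * (nx / Real.sqrt Wx)
        + (γ * t) ^ 2 * (c * c') ≤ γ * (1 + (γ * t) ^ 2)) : False := by
  let g : ℝ → ℝ := fun t =>
    -γ * (ny / 2) / (1 + Wy * t ^ 2 / 4) - γ * (nx / 2) / (1 + Wx * t ^ 2 / 4)
    + (Wy * Wx * t ^ 2 / 4) / ((1 + Wy * t ^ 2 / 4) * (1 + Wx * t ^ 2 / 4)) * T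
    + γ * (ny * ((1 - Wx * t ^ 2 / 4) / (1 + Wx * t ^ 2 / 4)) / (1 + Wy * t ^ 2 / 4)
      + nx * ((1 - Wy * t ^ 2 / 4) / (1 + Wy * t ^ 2 / 4)) / (1 + Wx * t ^ 2 / 4))
    + γ ^ 2 * (((1 - Wy * t ^ 2 / 4) / (1 + Wy * t ^ 2 / 4)) * ((1 - Wx * t ^ 2 / 4) / (1 + Wx * t ^ 2 / 4)))
    - γ ^ 3
  have hg0 : 0 < g 0 := by
    simp only [g]
    norm_num
    nlinarith [mul_pos hγ hγ, mul_le_mul_of_nonneg_left hny hγ.le, mul_le_mul_of_nonneg_left hnx hγ.le]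
  have hcont : ContinuousAt g 0 := by
    simp only [g]
    fun_prop (disch := norm_num)
  have hev : ∀ᶠ t in nhds (0 : ℝ), 0 < g t := hcont.eventually (lt_mem_nhds hg0)
  have hev2 : ∀ᶠ t in nhdsWithin (0 : ℝ) {0}ᶜ, 0 < g t := hev.filter_mono nhdsWithin_le_nhds
  obtain ⟨t, ht, ht0⟩ := (hev2.and (eventually_mem_nhdsWithin)).exists
  have ht0' : t ≠ 0 := by simpa using ht0
  have h1 := h t ht0' _ _ _ _ rfl rfl rfl rfl
  have hD : 0 < 1 + Wy * t ^ 2 / 4 := by positivity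
  have hD' : 0 < 1 + Wx * t ^ 2 / 4 := by positivity
  have hsy : 0 < Real.sqrt Wy := Real.sqrt_pos.2 hWy
  have hsx : 0 < Real.sqrt Wx := Real.sqrt_pos.2 hWx
  have key : γ - (1 - (1 - Wy * t ^ 2 / 4) / (1 + Wy * t ^ 2 / 4)) * (γ * (ny / Wy))
      - (1 - (1 - Wx * t ^ 2 / 4) / (1 + Wx * t ^ 2 / 4)) * (γ * (nx / Wx))
      + (1 - (1 - Wy * t ^ 2 / 4) / (1 + Wy * t ^ 2 / 4)) * (1 - (1 - Wx * t ^ 2 / 4) / (1 + Wx * t ^ 2 / 4)) * T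
        + (γ * t) * (((Real.sqrt Wy * t) / (1 + Wy * t ^ 2 / 4)) * ((1 - Wx * t ^ 2 / 4) / (1 + Wx * t ^ 2 / 4))) * (ny / Real.sqrt Wy)
        + (γ * t) * (((1 - Wy * t ^ 2 / 4) / (1 + Wy * t ^ 2 / 4)) * ((Real.sqrt Wx * t) / (1 + Wx * t ^ 2 / 4))) * (nx / Real.sqrt Wx)
        + (γ * t) ^ 2 * (((1 - Wy * t ^ 2 / 4) / (1 + Wy * t ^ 2 / 4)) * ((1 - Wx * t ^ 2 / 4) / (1 + Wx * t ^ 2 / 4)))
        - γ * (1 + (γ * t) ^ 2) = t ^ 2 * g t := by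
    simp only [g]
    field_simp
    ring
  have h2 : 0 < t ^ 2 * g t := by positivity
  linarith [h1, key, h2]

end Pool.Agent.R989.Sch
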