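import Pool.Agent.R989.Erg2
import Pool.Agent.R989.Det2

/-! Subsequences, test functions and conditional expectations (helper989). -/

set_option autoImplicit false

open MeasureTheory Filter Topology
open scoped ENNReal

namespace Pool.Agent.R989.Erg

open Pool.Agent.W745.RW

section
variable {μ : Measure (ℂ → ℝ)} [IsProbabilityMeasure μ] (hμ : ∀ a, MeasurePreserving (sh a) μ μ)
variable {S : Type*} [MeasurableSpace S] {P : Measure S} [IsProbabilityMeasure P]

include hμ in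
/-- almost sure convergence along a subsequence, for countably many averages -/
theorem subseq {ι : Type*} [Countable ι] (φ : ι → ℂ → ℝ) (hφ : ∀ i, Measurable (φ i))
    (hφi : ∀ i, Integrable (φ i)) (x : ι → (ℂ → ℝ) → ℝ) (hx : ∀ i, Measurable (x i))
    (hxi : ∀ i, Integrable (x i) μ) {F : S → ℂ → ℝ} (hF : Fld P μ F) :
    ∃ t : ℕ → ℝ, (∀ n, 1 ≤ t n) ∧ Tendsto t atTop atTop ∧ ∀ᵐ s ∂P, ∀ i,
      Tendsto (fun n => V F (φ i) (t n) (x i) s) atTop
        (𝓝 ((∫ z, φ i z) * (μ[x i | inv μ]) (F s))) := by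
  let _ : Encodable ι := Encodable.ofCountable ι
  have h1 : ∀ n : ℕ, ∀ᶠ t : ℝ in atTop, ∀ i : ι, i ∈ {i : ι | Encodable.encode i ≤ n} →
      eLpNorm (fun s => V F (φ i) t (x i) s - (∫ z, φ i z) * (μ[x i | inv μ]) (F s)) 1 P ≤
        (2⁻¹ : ℝ≥0∞) ^ n := by
    intro n
    have hfin : {i : ι | Encodable.encode i ≤ n}.Finite :=
      (Set.finite_Iic n).preimage Encodable.encode_injective.injOn
    rw [Filter.eventually_all_finite hfin]
    intro i _
    have h2 : (0 : ℝ≥0∞) < 2⁻¹ ^ n := ENNReal.pow_pos (by norm_num) n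
    exact (L1 (S := S) (P := P) hμ (φ i) (hφ i) (hφi i) (x i) (hx i) (hxi i) _ h2).mono
      fun t ht => ht F hF
  have h2 : ∀ n : ℕ, ∃ t : ℝ, (n : ℝ) + 1 ≤ t ∧ ∀ i : ι, i ∈ {i : ι | Encodable.encode i ≤ n} →
      eLpNorm (fun s => V F (φ i) t (x i) s - (∫ z, φ i z) * (μ[x i | inv μ]) (F s)) 1 P ≤
        (2⁻¹ : ℝ≥0∞) ^ n := fun n => ((eventually_ge_atTop _).and (h1 n)).exists
  choose t ht1 ht2 using h2
  refine ⟨t, fun n => ?_, ?_, ?_⟩
  · have : (0 : ℝ) ≤ n := Nat.cast_nonneg n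
    linarith [ht1 n]
  · refine tendsto_atTop_mono (fun n => ?_) tendsto_natCast_atTop_atTop
    linarith [ht1 n]
  · rw [ae_all_iff]
    intro i
    set N := Encodable.encode i with hN
    have hym : Measurable (μ[x i | inv μ]) :=
      stronglyMeasurable_condExp.measurable.mono (inv_le _) le_rfl
    have hm : ∀ n, Measurable fun s => V F (φ i) (t n) (x i) s -
        (∫ z, φ i z) * (μ[x i | inv μ]) (F s) := fun n =>
      (V_meas hF.meas (φ i) (hφ i) (t n) (x i) (hx i)).sub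
        ((hym.comp (F_meas hF.meas)).const_mul _)
    have h3 : ∫⁻ s, ∑' n, ‖V F (φ i) (t (n + N)) (x i) s -
        (∫ z, φ i z) * (μ[x i | inv μ]) (F s)‖ₑ ∂P ≠ ∞ := by
      rw [lintegral_tsum fun n => (hm (n + N)).enorm.aemeasurable]
      have h4 : ∀ n, ∫⁻ s, ‖V F (φ i) (t (n + N)) (x i) s -
          (∫ z, φ i z) * (μ[x i | inv μ]) (F s)‖ₑ ∂P ≤ (2⁻¹ : ℝ≥0∞) ^ n := by
        intro n
        have h5 := ht2 (n + N) i (show Encodable.encode i ≤ n + N from Nat.le_add_left _ _)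
        rw [eLpNorm_one_eq_lintegral_enorm] at h5
        refine h5.trans ?_
        exact pow_le_pow_right_of_le_one' (by norm_num) (Nat.le_add_right _ _)
      refine ne_top_of_le_ne_top ?_ (ENNReal.tsum_le_tsum h4)
      rw [ENNReal.tsum_geometric]
      norm_num
    have h4 := ae_lt_top (Measurable.tsum fun n => (hm (n + N)).enorm) h3
    filter_upwards [h4] with s hs
    have h5 := ENNReal.tendsto_atTop_zero_of_tsum_ne_top hs.ne
    have h6 : Tendsto (fun n => ‖V F (φ i) (t n) (x i) s -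
        (∫ z, φ i z) * (μ[x i | inv μ]) (F s)‖ₑ) atTop (𝓝 0) :=
      (tendsto_add_atTop_iff_nat N).1 h5
    rw [tendsto_iff_edist_tendsto_0]
    refine h6.congr fun n => ?_
    rw [edist_eq_enorm_sub]

end

/-! ### test functions -/

/-- test functions vanishing outside the disc of radius `N` -/
def TN (N : ℕ) : Type := {φ : ℂ → ℝ // TF Set.univ φ ∧ ∀ z ∉ Metric.closedBall (0 : ℂ) N, φ z = 0}

theorem TF_zero : TF Set.univ (fun _ : ℂ => (0 : ℝ)) :=
  ⟨contDiff_const, by
    have : (fun _ : ℂ => (0 : ℝ)) = 0 := rfl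
    rw [this]
    exact HasCompactSupport.zero, Set.subset_univ _⟩

theorem dense_TF : ∃ T : ℕ × ℕ → ℂ → ℝ, (∀ i, TF Set.univ (T i)) ∧ ∀ φ, TF Set.univ φ →
    ∃ N : ℕ, (∀ z ∉ Metric.closedBall (0 : ℂ) N, φ z = 0) ∧ ∀ ε : ℝ, 0 < ε → ∃ i,
      (∀ z, |φ z - T i z| ≤ ε) ∧ ∀ z ∉ Metric.closedBall (0 : ℂ) N, T i z = 0 := by
  have h1 : ∀ N : ℕ, ∃ D : ℕ → TN N, ∀ φ : TN N, ∀ ε : ℝ, 0 < ε → ∃ k, ∀ z,
      |φ.1 z - (D k).1 z| ≤ ε := by
    intro N
    let K : Set ℂ := Metric.closedBall (0 : ℂ) N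
    have hKc : CompactSpace K := isCompact_iff_compactSpace.1 (isCompact_closedBall _ _)
    let r : TN N → C(K, ℝ) := fun φ => ⟨fun z => φ.1 z, φ.2.1.1.continuous.comp
      continuous_subtype_val⟩
    let _ : TopologicalSpace (TN N) := TopologicalSpace.induced r inferInstance
    have : SecondCountableTopology (TN N) :=
      TopologicalSpace.secondCountableTopology_induced _ _ r
    have : Nonempty (TN N) := ⟨⟨fun _ => 0, TF_zero, fun _ _ => rfl⟩⟩
    refine ⟨TopologicalSpace.denseSeq (TN N), fun φ ε hε => ?_⟩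
    have h2 : IsOpen (r ⁻¹' Metric.ball (r φ) ε) := Metric.isOpen_ball.preimage continuous_induced_dom
    have h3 : (r ⁻¹' Metric.ball (r φ) ε).Nonempty := ⟨φ, Metric.mem_ball_self hε⟩
    obtain ⟨ψ, hψ1, k, rfl⟩ := (TopologicalSpace.denseRange_denseSeq (TN N)).inter_open_nonempty _ h2 h3
    refine ⟨k, fun z => ?_⟩
    by_cases hz : z ∈ K
    · have h4 := ContinuousMap.dist_apply_le_dist (f := r (TopologicalSpace.denseSeq (TN N) k))
        (g := r φ) ⟨z, hz⟩
      have h5 : dist (r (TopologicalSpace.denseSeq (TN N) k)) (r φ) < ε := hψ1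
      rw [Real.dist_eq, abs_sub_comm] at h4
      exact h4.trans h5.le
    · rw [φ.2.2 z hz, (TopologicalSpace.denseSeq (TN N) k).2.2 z hz]
      simpa using hε.le
  choose D hD using h1
  refine ⟨fun i => (D i.1 i.2).1, fun i => (D i.1 i.2).2.1, fun φ hφ => ?_⟩
  obtain ⟨r, hr⟩ := hφ.2.1.isCompact.isBounded.subset_closedBall (0 : ℂ)
  obtain ⟨N, hN⟩ := exists_nat_ge r
  have h0 : ∀ z ∉ Metric.closedBall (0 : ℂ) N, φ z = 0 := fun z hz =>
    image_eq_zero_of_notMem_tsupport fun h =>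
      hz (Metric.closedBall_subset_closedBall hN (hr h))
  refine ⟨N, h0, fun ε hε => ?_⟩
  obtain ⟨k, hk⟩ := hD N ⟨φ, hφ, h0⟩ ε hε
  exact ⟨(N, k), hk, (D N k).2.2⟩

/-! ### transfer of conditional expectations -/

section
variable {S : Type*} [MeasurableSpace S] {P : Measure S} [IsProbabilityMeasure P]

theorem ce_transfer {F : S → ℂ → ℝ} (hF : Measurable F) (x : (ℂ → ℝ) → ℝ)
    (hxi : Integrable x (P.map F)) (hx : Measurable x) :
    P[fun s => x (F s) | (inv (P.map F)).comap F] =ᵐ[P] fun s => ((P.map F)[x | inv (P.map F)]) (F s) := by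
  have hlp : IsProbabilityMeasure (P.map F) := Measure.isProbabilityMeasure_map hF.aemeasurable
  have hle : (inv (P.map F)).comap F ≤ ‹MeasurableSpace S› := by
    intro A hA
    obtain ⟨B, hB, rfl⟩ := hA
    exact hF (inv_le _ _ hB)
  have hsm : StronglyMeasurable[inv (P.map F)] ((P.map F)[x | inv (P.map F)]) :=
    stronglyMeasurable_condExp
  symm
  refine ae_eq_condExp_of_forall_setIntegral_eq hle ?_ ?_ ?_ ?_
  · exact (integrable_map_measure hx.aestronglyMeasurable hF.aemeasurable).1 hxi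
  · intro A _ _
    have h1 : Integrable ((P.map F)[x | inv (P.map F)]) (P.map F) := integrable_condExp
    exact (h1.comp_measurable hF).integrableOn
  · intro A hA _
    obtain ⟨B, hB, rfl⟩ := hA
    have hBm : MeasurableSet B := inv_le _ _ hB
    have h1 := setIntegral_condExp (inv_le (P.map F)) hxi hB
    have h2 : ∫ s in F ⁻¹' B, ((P.map F)[x | inv (P.map F)]) (F s) ∂P =
        ∫ ω in B, ((P.map F)[x | inv (P.map F)]) ω ∂(P.map F) :=
      (setIntegral_map hBm (integrable_condExp.aestronglyMeasurable) hF.aemeasurable).symm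
    have h3 : ∫ s in F ⁻¹' B, x (F s) ∂P = ∫ ω in B, x ω ∂(P.map F) :=
      (setIntegral_map hBm hx.aestronglyMeasurable hF.aemeasurable).symm
    rw [h2, h3, h1]
  · refine (StronglyMeasurable.aestronglyMeasurable ?_)
    exact hsm.comp_measurable (comap_measurable F)

end

end Pool.Agent.R989.Erg
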