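import Mathlib
import Pool.Agent.R989.GauI

set_option linter.style.haveILetI false

open MeasureTheory ProbabilityTheory Module Filter Matrix
open scoped ENNReal

namespace Pool.Agent.R989.Svd

open Pool.Agent.R989.GauA Pool.Agent.R989.Pinv Pool.Agent.R989.GauH

variable {K : Type*} [RCLike K] {n l d p r : ℕ}

instance matBorel {m n : ℕ} : BorelSpace (Matrix (Fin m) (Fin n) K) :=
  inferInstanceAs (BorelSpace (Fin m → Fin n → K))

/-- the unitary group -/
abbrev UG (K : Type*) [RCLike K] (n : ℕ) := Matrix.unitaryGroup (Fin n) K

instance : BorelSpace (UG K n) := Subtype.borelSpace _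

instance : CompactSpace (UG K n) := by
  suffices h : IsCompact ((UG K n : Submonoid (Matrix (Fin n) (Fin n) K)) : Set (Matrix (Fin n) (Fin n) K)) from
    isCompact_iff_compactSpace.mp h
  have h1 : IsCompact (Set.pi Set.univ (fun _ : Fin n => Set.pi Set.univ
      (fun _ : Fin n => Metric.closedBall (0 : K) 1)) : Set (Fin n → Fin n → K)) :=
    isCompact_univ_pi fun _ => isCompact_univ_pi fun _ => isCompact_closedBall _ _
  refine IsCompact.of_isClosed_subset h1 ?_ ?_
  · exact isClosed_unitary
  · intro U hU i _ j _
    exact mem_closedBall_zero_iff.mpr (entry_norm_bound_of_unitary hU i j)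

/-- the invariant probability measure -/
noncomputable def haarU (K : Type*) [RCLike K] (n : ℕ) : Measure (UG K n) := Measure.haarMeasure ⊤

instance : IsProbabilityMeasure (haarU K n) := by
  constructor
  unfold haarU
  exact Measure.haarMeasure_self

instance : Measure.IsMulLeftInvariant (haarU K n) := by
  unfold haarU
  infer_instance

lemma haarU_left (g : UG K n) (f : UG K n → ℝ≥0∞) :
    ∫⁻ x, f (g * x) ∂(haarU K n) = ∫⁻ x, f x ∂(haarU K n) :=
  lintegral_mul_left_eq_self f g

end Pool.Agent.R989.Svd
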