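import Mathlib
import Pool.Agent.R989.SvdA

set_option linter.style.haveILetI false

open MeasureTheory ProbabilityTheory Module Filter Matrix
open scoped ENNReal

namespace Pool.Agent.R989.Svd

open Pool.Agent.R989.GauA Pool.Agent.R989.Pinv Pool.Agent.R989.GauH

variable {K : Type*} [RCLike K] {n l d p r m k q : ℕ}

lemma frobSq_trace (M : Matrix (Fin m) (Fin n) K) : frobSq M = RCLike.re (trace (Mᴴ * M)) := by
  unfold frobSq trace
  rw [Finset.sum_comm, map_sum]
  apply Finset.sum_congr rfl
  intro j _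
  rw [diag_apply, Matrix.mul_apply, map_sum]
  apply Finset.sum_congr rfl
  intro i _
  rw [conjTranspose_apply, RCLike.star_def, RCLike.conj_mul]
  norm_cast

lemma frobSq_left {X : Matrix (Fin m) (Fin k) K} (hX : Xᴴ * X = 1) (M : Matrix (Fin k) (Fin n) K) :
    frobSq (X * M) = frobSq M := by
  rw [frobSq_trace, frobSq_trace, conjTranspose_mul, Matrix.mul_assoc, ← Matrix.mul_assoc Xᴴ, hX,
    Matrix.one_mul]

lemma frobSq_right {Y : Matrix (Fin k) (Fin n) K} (hY : Y * Yᴴ = 1) (M : Matrix (Fin m) (Fin k) K) :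
    frobSq (M * Y) = frobSq M := by
  rw [frobSq_trace, frobSq_trace, conjTranspose_mul, Matrix.mul_assoc, trace_mul_comm,
    Matrix.mul_assoc, Matrix.mul_assoc, hY, Matrix.mul_one]

lemma frobSq_smul (c : ℝ) (M : Matrix (Fin m) (Fin n) K) :
    frobSq (((c : ℝ) : K) • M) = c ^ 2 * frobSq M := by
  unfold frobSq
  rw [Finset.mul_sum]
  apply Finset.sum_congr rfl
  intro i _
  rw [Finset.mul_sum]
  apply Finset.sum_congr rfl
  intro j _
  rw [Matrix.smul_apply, norm_smul, mul_pow, RCLike.norm_ofReal, sq_abs]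

lemma frobSq_par (A B C : Matrix (Fin m) (Fin n) K) :
    frobSq (A - B) ≤ 2 * (frobSq (A - C) + frobSq (B - C)) := by
  unfold frobSq
  rw [← Finset.sum_add_distrib, Finset.mul_sum]
  apply Finset.sum_le_sum
  intro i _
  rw [← Finset.sum_add_distrib, Finset.mul_sum]
  apply Finset.sum_le_sum
  intro j _
  simp only [Matrix.sub_apply]
  have h1 : ‖A i j - B i j‖ ≤ ‖A i j - C i j‖ + ‖B i j - C i j‖ := by
    have : A i j - B i j = (A i j - C i j) - (B i j - C i j) := by ring
    rw [this]
    exact norm_sub_le _ _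
  nlinarith [norm_nonneg (A i j - B i j), norm_nonneg (A i j - C i j), norm_nonneg (B i j - C i j),
    sq_nonneg (‖A i j - C i j‖ - ‖B i j - C i j‖)]

/-- the diagonal matrix of singular values -/
noncomputable def Dm (K : Type*) [RCLike K] (q r : ℕ) (σ : ℝ) : Matrix (Fin r) (Fin r) K :=
  diagonal (fun i => if (i : ℕ) < q then ((σ : ℝ) : K) else 1)

/-- the coordinate embedding -/
noncomputable def emb (K : Type*) [RCLike K] (n r : ℕ) : Matrix (Fin n) (Fin r) K :=
  Matrix.of fun i j => if (i : ℕ) = (j : ℕ) then 1 else 0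

lemma emb_isom (hrn : r ≤ n) : (emb K n r)ᴴ * emb K n r = 1 := by
  ext i j
  rw [Matrix.mul_apply]
  simp only [conjTranspose_apply, emb, Matrix.of_apply]
  rw [Finset.sum_eq_single (Fin.castLE hrn i)]
  · by_cases h : i = j
    · subst h; simp
    · have h2 : ¬ ((i : ℕ) = (j : ℕ)) := fun e => h (Fin.ext e)
      simp [h2, Matrix.one_apply_ne h]
  · intro b _ hb
    have : ¬ ((b : ℕ) = (i : ℕ)) := fun e => hb (Fin.ext e)
    simp [this]
  · intro h
    exact absurd (Finset.mem_univ _) h

/-- the limiting error functional of a subspace -/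
noncomputable def Phi (q : ℕ) (σ : ℝ) (S : Submodule K (EuclideanSpace K (Fin r))) : ℝ :=
  ∑ j : Fin r, (if (j : ℕ) < q then σ ^ 2 else 1) *
    ‖(Sᗮ).starProjection (EuclideanSpace.single j (1 : K))‖ ^ 2

lemma frob_proj (σ : ℝ) (X : Matrix (Fin r) (Fin l) K) :
    frobSq ((1 - X * pinv X) * Dm K q r σ) = Phi q σ (colSpan X) := by
  unfold frobSq Phi Dm
  rw [Finset.sum_comm]
  apply Finset.sum_congr rfl
  intro j _
  have h1 : ((colSpan X)ᗮ).starProjection (EuclideanSpace.single j (1 : K)) =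
      EuclideanSpace.single j (1 : K) - Matrix.toEuclideanLin (X * pinv X) (EuclideanSpace.single j (1 : K)) := by
    rw [← proj_pinv, Submodule.starProjection_orthogonal']
    rfl
  rw [h1, EuclideanSpace.norm_sq_eq, Finset.mul_sum]
  apply Finset.sum_congr rfl
  intro i _
  rw [Matrix.mul_diagonal, norm_mul, mul_pow, mul_comm]
  congr 1
  · by_cases h : (j : ℕ) < q
    · simp [h]
    · simp [h]
  · congr 2
    simp only [Matrix.sub_apply, PiLp.sub_apply, Matrix.toLpLin_apply, Matrix.one_apply,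
      PiLp.single_apply]
    simp [Matrix.mulVec_single]

lemma colSpan_mul (X : Matrix (Fin r) (Fin n) K) (Y : Matrix (Fin n) (Fin l) K) :
    colSpan (X * Y) = (colSpan Y).map (Matrix.toEuclideanLin X) := by
  rw [colSpan, colSpan, Submodule.map_span, ← Set.range_comp]
  congr 2

/-- the reflection matrix through the column span -/
lemma refl_mem (X : Matrix (Fin r) (Fin l) K) :
    ((2 : K) • (X * pinv X) - 1) ∈ Matrix.unitaryGroup (Fin r) K := by
  have hP := pinv_spec X
  rw [Matrix.mem_unitaryGroup_iff, star_eq_conjTranspose, conjTranspose_sub, conjTranspose_smul,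
    hP.2.2.1, conjTranspose_one]
  have h2 : star (2 : K) = 2 := by
    rw [RCLike.star_def]
    have h : (2 : K) = ((2 : ℝ) : K) := by push_cast; rfl
    rw [h, RCLike.conj_ofReal]
  rw [h2]
  have hPP : (X * pinv X) * (X * pinv X) = X * pinv X := by
    rw [← Matrix.mul_assoc, hP.1]
  rw [Matrix.sub_mul, Matrix.mul_sub, Matrix.mul_sub, Matrix.smul_mul, Matrix.mul_smul, hPP]
  simp only [Matrix.mul_one, Matrix.one_mul, smul_smul]
  have : (2 : K) * 2 = 2 + 2 := by norm_num
  rw [this, add_smul]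
  abel

end Pool.Agent.R989.Svd
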