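import Mathlib
import Pool.Agent.R989.SvdB

set_option linter.style.haveILetI false

open MeasureTheory ProbabilityTheory Module Filter Matrix
open scoped ENNReal

namespace Pool.Agent.R989.Svd

open Pool.Agent.R989.GauA Pool.Agent.R989.Pinv Pool.Agent.R989.GauH

variable {K : Type*} [RCLike K] {n l d p r m k q : ℕ}

instance matSec {m n : ℕ} : SecondCountableTopology (Matrix (Fin m) (Fin n) K) :=
  inferInstanceAs (SecondCountableTopology (Fin m → Fin n → K))

lemma cont_frobSq : Continuous (fun M : Matrix (Fin m) (Fin n) K => frobSq M) := by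
  unfold frobSq
  refine continuous_finsetSum _ fun i _ => continuous_finsetSum _ fun j _ => ?_
  have : Continuous (fun M : Matrix (Fin m) (Fin n) K => M i j) := continuous_id.matrix_elem i j
  fun_prop

lemma cont_A (C : Matrix (Fin d) (Fin r) K) (B : Matrix (Fin r) (Fin n) K) :
    Continuous (fun H : UG K r => C * ((H : Matrix (Fin r) (Fin r) K))ᴴ * B) := by
  have h1 : Continuous (fun H : UG K r => (H : Matrix (Fin r) (Fin r) K)) := continuous_subtype_val
  exact (continuous_const.matrix_mul h1.matrix_conjTranspose).matrix_mul continuous_const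

/-- The reflection argument: for a fixed right factor, no reconstruction from the two sketches beats the
projection. -/
lemma bayesU (hrd : r ≤ d) (q : ℕ) (σ : ℝ) {Y : Matrix (Fin r) (Fin n) K} (hY : Y * Yᴴ = 1)
    (Ω : Matrix (Fin n) (Fin l) K)
    {f : Matrix (Fin d) (Fin l) K × Matrix (Fin n) (Fin l) K → Matrix (Fin d) (Fin n) K}
    (hf : Measurable f) :
    ENNReal.ofReal (Phi q σ (colSpan (Dm K q r σ * Y * Ω))) ≤
    ∫⁻ H : UG K r, ENNReal.ofReal (frobSq (emb K d r * (H : Matrix (Fin r) (Fin r) K)ᴴ * (Dm K q r σ * Y) -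
      f (emb K d r * (H : Matrix (Fin r) (Fin r) K)ᴴ * (Dm K q r σ * Y) * Ω,
        (emb K d r * (H : Matrix (Fin r) (Fin r) K)ᴴ * (Dm K q r σ * Y))ᴴ *
        (emb K d r * (H : Matrix (Fin r) (Fin r) K)ᴴ * (Dm K q r σ * Y)) * Ω))) ∂(haarU K r) := by
  set B : Matrix (Fin r) (Fin n) K := Dm K q r σ * Y with hB
  set X : Matrix (Fin r) (Fin l) K := B * Ω with hX
  have hP := pinv_spec X
  set P : Matrix (Fin r) (Fin r) K := X * pinv X with hPdef
  set R : UG K r := ⟨(2 : K) • P - 1, refl_mem X⟩ with hR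
  have hRH : ((R : Matrix (Fin r) (Fin r) K))ᴴ = (2 : K) • P - 1 := by
    change ((2 : K) • P - 1)ᴴ = (2 : K) • P - 1
    rw [conjTranspose_sub, conjTranspose_smul, hP.2.2.1, conjTranspose_one]
    have h2 : star (2 : K) = 2 := by
      rw [RCLike.star_def]
      have h : (2 : K) = ((2 : ℝ) : K) := by push_cast; rfl
      rw [h, RCLike.conj_ofReal]
    rw [h2]
  have hRX : ((R : Matrix (Fin r) (Fin r) K))ᴴ * X = X := by
    rw [hRH, Matrix.sub_mul, Matrix.smul_mul, hPdef, hP.1, Matrix.one_mul, two_smul]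
    abel
  have hRR : (R : Matrix (Fin r) (Fin r) K) * ((R : Matrix (Fin r) (Fin r) K))ᴴ = 1 :=
    Matrix.mem_unitaryGroup_iff.mp R.2
  have hHH : ∀ H : UG K r, (H : Matrix (Fin r) (Fin r) K) * ((H : Matrix (Fin r) (Fin r) K))ᴴ = 1 :=
    fun H => Matrix.mem_unitaryGroup_iff.mp H.2
  have hE : (emb K d r)ᴴ * emb K d r = 1 := emb_isom hrd
  set A : UG K r → Matrix (Fin d) (Fin n) K := fun H => emb K d r * (H : Matrix (Fin r) (Fin r) K)ᴴ * B with hA
  have hUH : ∀ H : UG K r, (emb K d r * (H : Matrix (Fin r) (Fin r) K)ᴴ)ᴴ *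
      (emb K d r * (H : Matrix (Fin r) (Fin r) K)ᴴ) = 1 := by
    intro H
    rw [conjTranspose_mul, conjTranspose_conjTranspose]
    calc (H : Matrix (Fin r) (Fin r) K) * (emb K d r)ᴴ * (emb K d r * (H : Matrix (Fin r) (Fin r) K)ᴴ)
        = (H : Matrix (Fin r) (Fin r) K) * ((emb K d r)ᴴ * emb K d r) * (H : Matrix (Fin r) (Fin r) K)ᴴ := by
          simp only [Matrix.mul_assoc]
      _ = 1 := by rw [hE, Matrix.mul_one, hHH]
  have hgram : ∀ H : UG K r, (A H)ᴴ * (A H) = Bᴴ * B := by
    intro H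
    calc (A H)ᴴ * (A H) = Bᴴ * ((emb K d r * (H : Matrix (Fin r) (Fin r) K)ᴴ)ᴴ *
          (emb K d r * (H : Matrix (Fin r) (Fin r) K)ᴴ)) * B := by
          rw [hA]
          simp only [conjTranspose_mul, Matrix.mul_assoc]
      _ = _ := by rw [hUH, Matrix.mul_one]
  have hAR : ∀ H : UG K r, A (R * H) = emb K d r * (H : Matrix (Fin r) (Fin r) K)ᴴ * ((R : Matrix (Fin r) (Fin r) K))ᴴ * B := by
    intro H
    rw [hA]
    change emb K d r * ((R : Matrix (Fin r) (Fin r) K) * (H : Matrix (Fin r) (Fin r) K))ᴴ * B = _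
    rw [conjTranspose_mul]
    simp only [Matrix.mul_assoc]
  have hsk1 : ∀ H : UG K r, A (R * H) * Ω = A H * Ω := by
    intro H
    rw [hAR]
    calc emb K d r * (H : Matrix (Fin r) (Fin r) K)ᴴ * ((R : Matrix (Fin r) (Fin r) K))ᴴ * B * Ω
        = emb K d r * (H : Matrix (Fin r) (Fin r) K)ᴴ * (((R : Matrix (Fin r) (Fin r) K))ᴴ * X) := by
          rw [hX]; simp only [Matrix.mul_assoc]
      _ = _ := by rw [hRX, hX, hA]; simp only [Matrix.mul_assoc]
  set F : UG K r → ℝ≥0∞ := fun H => ENNReal.ofReal (frobSq (A H - f (A H * Ω, (A H)ᴴ * (A H) * Ω))) with hF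
  have hAc : Continuous A := cont_A _ _
  have hFm : Measurable F := by
    have h1 : Measurable A := hAc.measurable
    have h2 : Measurable (fun H : UG K r => A H * Ω) := (hAc.matrix_mul continuous_const).measurable
    have h3 : Measurable (fun H : UG K r => (A H)ᴴ * (A H) * Ω) :=
      ((hAc.matrix_conjTranspose.matrix_mul hAc).matrix_mul continuous_const).measurable
    have h4 : Measurable (fun H : UG K r => f (A H * Ω, (A H)ᴴ * (A H) * Ω)) := hf.comp (h2.prodMk h3)
    have h5 : Measurable (fun H : UG K r => A H - f (A H * Ω, (A H)ᴴ * (A H) * Ω)) := by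
      apply meas_mk
      intro i j
      exact ((meas_entry i j).comp h1).sub ((meas_entry i j).comp h4)
    exact ENNReal.measurable_ofReal.comp (cont_frobSq.measurable.comp h5)
  have hdiff : ∀ H : UG K r, frobSq (A H - A (R * H)) = 4 * Phi q σ (colSpan X) := by
    intro H
    have e1 : A H - A (R * H) = (emb K d r * (H : Matrix (Fin r) (Fin r) K)ᴴ) *
        ((((2 : ℝ) : K)) • (((1 - P) * Dm K q r σ) * Y)) := by
      rw [hAR, hRH]
      have h2 : (((2 : ℝ) : K)) = 2 := by push_cast; rfl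
      rw [h2]
      have e2 : (2 : K) • ((1 - P) * Dm K q r σ * Y) = B - ((2 : K) • P - 1) * B := by
        rw [Matrix.sub_mul, Matrix.sub_mul, Matrix.sub_mul, Matrix.one_mul, Matrix.one_mul, ← hB,
          Matrix.smul_mul, Matrix.mul_assoc, ← hB, smul_sub, two_smul K B]
        abel
      rw [e2, hA]
      generalize (2 : K) • P - 1 = S
      change emb K d r * (H : Matrix (Fin r) (Fin r) K)ᴴ * B - _ = _
      rw [Matrix.mul_sub, ← Matrix.mul_assoc (emb K d r * (H : Matrix (Fin r) (Fin r) K)ᴴ) S B]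
    rw [e1, frobSq_left (hUH H), frobSq_smul, frobSq_right hY, frob_proj]
    norm_num
  have hpt : ∀ H : UG K r, 2 * ENNReal.ofReal (Phi q σ (colSpan X)) ≤ F H + F (R * H) := by
    intro H
    have e1 := frobSq_par (A H) (A (R * H)) (f (A H * Ω, (A H)ᴴ * (A H) * Ω))
    rw [hdiff] at e1
    have e2 : F (R * H) = ENNReal.ofReal (frobSq (A (R * H) - f (A H * Ω, (A H)ᴴ * (A H) * Ω))) := by
      rw [hF]
      simp only [hsk1, hgram]
    have e0 : ∀ a : ℝ, 2 * ENNReal.ofReal a = ENNReal.ofReal (2 * a) := by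
      intro a
      rw [ENNReal.ofReal_mul (by norm_num)]
      simp
    rw [e2, hF, e0, ← ENNReal.ofReal_add (frobSq_nonneg _) (frobSq_nonneg _)]
    apply ENNReal.ofReal_le_ofReal
    linarith
  have hint := lintegral_mono (μ := haarU K r) hpt
  rw [lintegral_const, measure_univ, mul_one, lintegral_add_left hFm, haarU_left, ← two_mul] at hint
  exact (ENNReal.mul_le_mul_iff_right (by norm_num) (by norm_num)).mp hint

end Pool.Agent.R989.Svd
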