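import Mathlib
import Pool.Agent.R989.SvdC

set_option linter.style.haveILetI false

open MeasureTheory ProbabilityTheory Module Filter Matrix
open scoped ENNReal

namespace Pool.Agent.R989.Svd

open Pool.Agent.R989.GauA Pool.Agent.R989.Pinv Pool.Agent.R989.GauH

variable {K : Type*} [RCLike K] {n l d p r m k q : ℕ}

/-! ### measurability of the projection on the column span -/

lemma mem_colSpan_iff (X : Matrix (Fin r) (Fin l) K) (y : EuclideanSpace K (Fin r)) :
    y ∈ colSpan X ↔ ∃ w : Fin l → K, (WithLp.toLp 2 (X *ᵥ w) : EuclideanSpace K (Fin r)) = y := by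
  rw [colSpan, Submodule.mem_span_range_iff_exists_fun]
  have h : ∀ w : Fin l → K, ∑ i, w i • (WithLp.toLp 2 (fun j => X j i) : EuclideanSpace K (Fin r)) =
      WithLp.toLp 2 (X *ᵥ w) := by
    intro w
    ext i
    simp [Matrix.mulVec, dotProduct, mul_comm]
  simp only [h]

lemma meas_proj (e : EuclideanSpace K (Fin r)) :
    Measurable (fun X : Matrix (Fin r) (Fin l) K => ‖((colSpan X)ᗮ).starProjection e‖) := by
  apply measurable_of_Iio
  intro c
  have h : (fun X : Matrix (Fin r) (Fin l) K => ‖((colSpan X)ᗮ).starProjection e‖) ⁻¹' (Set.Iio c) =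
      ⋃ w : Fin l → K, {X | ‖e - (WithLp.toLp 2 (X *ᵥ w) : EuclideanSpace K (Fin r))‖ < c} := by
    ext X
    simp only [Set.mem_preimage, Set.mem_Iio, Set.mem_iUnion, Set.mem_ofPred_eq]
    have hp : ∀ w : Fin l → K, ‖((colSpan X)ᗮ).starProjection e‖ ≤
        ‖e - (WithLp.toLp 2 (X *ᵥ w) : EuclideanSpace K (Fin r))‖ := by
      intro w
      have h1 : ((colSpan X)ᗮ).starProjection (WithLp.toLp 2 (X *ᵥ w) : EuclideanSpace K (Fin r)) = 0 := by
        rw [Submodule.starProjection_apply_eq_zero_iff, Submodule.orthogonal_orthogonal]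
        exact (mem_colSpan_iff X _).mpr ⟨w, rfl⟩
      have h2 : ((colSpan X)ᗮ).starProjection e = ((colSpan X)ᗮ).starProjection
          (e - (WithLp.toLp 2 (X *ᵥ w) : EuclideanSpace K (Fin r))) := by
        rw [map_sub, h1, sub_zero]
      rw [h2]
      exact Submodule.norm_starProjection_apply_le _ _
    constructor
    · intro hX
      obtain ⟨w, hw⟩ := (mem_colSpan_iff X ((colSpan X).starProjection e)).mp
        (Submodule.starProjection_apply_mem _ _)
      refine ⟨w, ?_⟩
      rw [hw]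
      have : ((colSpan X)ᗮ).starProjection e = e - (colSpan X).starProjection e := by
        rw [Submodule.starProjection_orthogonal']
        rfl
      rw [← this]
      exact hX
    · rintro ⟨w, hw⟩
      exact lt_of_le_of_lt (hp w) hw
  rw [h]
  apply IsOpen.measurableSet
  apply isOpen_iUnion
  intro w
  have hc : Continuous (fun X : Matrix (Fin r) (Fin l) K =>
      ‖e - (WithLp.toLp 2 (X *ᵥ w) : EuclideanSpace K (Fin r))‖) := by
    have h1 : Continuous (fun X : Matrix (Fin r) (Fin l) K => X *ᵥ w) :=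
      continuous_id.matrix_mulVec continuous_const
    have h2 : Continuous (fun X : Matrix (Fin r) (Fin l) K =>
      (WithLp.toLp 2 (X *ᵥ w) : EuclideanSpace K (Fin r))) :=
      (PiLp.continuous_toLp 2 _).comp h1
    exact (continuous_const.sub h2).norm
  exact hc.isOpen_preimage (Set.Iio c) isOpen_Iio

lemma meas_Phi (q : ℕ) (σ : ℝ) :
    Measurable (fun X : Matrix (Fin r) (Fin l) K => ENNReal.ofReal (Phi q σ (colSpan X))) := by
  unfold Phi
  apply ENNReal.measurable_ofReal.comp
  apply Finset.measurable_sum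
  intro j _
  exact ((meas_proj (EuclideanSpace.single j (1 : K))).pow_const 2).const_mul _

/-! ### transitivity of the unitary group -/

lemma exists_unitary (S S' : Submodule K (EuclideanSpace K (Fin n))) (h : finrank K S = finrank K S') :
    ∃ N : UG K n, S'.map (Matrix.toEuclideanLin (N : Matrix (Fin n) (Fin n) K)) = S := by
  let e : S' ≃ₗᵢ[K] S := (stdOrthonormalBasis K S').equiv (stdOrthonormalBasis K S) (finCongr h.symm)
  let L : S' →ₗᵢ[K] EuclideanSpace K (Fin n) := S.subtypeₗᵢ.comp e.toLinearIsometry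
  let L' : EuclideanSpace K (Fin n) ≃ₗᵢ[K] EuclideanSpace K (Fin n) :=
    L.extend.toLinearIsometryEquiv rfl
  have hL' : ∀ x : S', L' (x : EuclideanSpace K (Fin n)) = (e x : EuclideanSpace K (Fin n)) := by
    intro x
    exact L.extend_apply x
  let u : unitary (EuclideanSpace K (Fin n) →L[K] EuclideanSpace K (Fin n)) :=
    Unitary.linearIsometryEquiv.symm L'
  let N0 : Matrix (Fin n) (Fin n) K := (Matrix.toEuclideanCLM (n := Fin n) (𝕜 := K)).symm (u : _ →L[K] _)
  have hN0 : N0 ∈ Matrix.unitaryGroup (Fin n) K := by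
    rw [Matrix.mem_unitaryGroup_iff']
    have h1 : star N0 = (Matrix.toEuclideanCLM (n := Fin n) (𝕜 := K)).symm
        (star (u : EuclideanSpace K (Fin n) →L[K] EuclideanSpace K (Fin n))) := by
      exact ((Matrix.toEuclideanCLM (n := Fin n) (𝕜 := K)).symm.map_star' _).symm
    rw [h1, ← map_mul, Unitary.star_mul_self_of_mem u.2, map_one]
  have hN1 : ∀ x, Matrix.toEuclideanLin N0 x = L' x := by
    intro x
    have h1 : Matrix.toEuclideanCLM (n := Fin n) (𝕜 := K) N0 =
        (u : EuclideanSpace K (Fin n) →L[K] EuclideanSpace K (Fin n)) :=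
      StarAlgEquiv.apply_symm_apply _ _
    have h2 := congrArg (fun T : EuclideanSpace K (Fin n) →L[K] EuclideanSpace K (Fin n) => T x) h1
    exact h2
  refine ⟨⟨N0, hN0⟩, ?_⟩
  ext y
  rw [Submodule.mem_map]
  constructor
  · rintro ⟨x, hx, rfl⟩
    change Matrix.toEuclideanLin N0 x ∈ S
    rw [hN1]
    have := hL' ⟨x, hx⟩
    simp only at this
    rw [this]
    exact (e ⟨x, hx⟩).2
  · intro hy
    refine ⟨(e.symm ⟨y, hy⟩ : S'), (e.symm ⟨y, hy⟩).2, ?_⟩
    change Matrix.toEuclideanLin N0 _ = y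
    rw [hN1, hL', e.apply_symm_apply]

lemma inner_toLin (X : Matrix (Fin m) (Fin n) K) (x : EuclideanSpace K (Fin n))
    (y : EuclideanSpace K (Fin m)) :
    inner K (Matrix.toEuclideanLin X x) y = inner K x (Matrix.toEuclideanLin Xᴴ y) := by
  rw [Matrix.toEuclideanLin_conjTranspose_eq_adjoint, LinearMap.adjoint_inner_right]

lemma norm_toLin {X : Matrix (Fin m) (Fin n) K} (hX : Xᴴ * X = 1) (x : EuclideanSpace K (Fin n)) :
    ‖Matrix.toEuclideanLin X x‖ = ‖x‖ := by
  have h1 : inner K (Matrix.toEuclideanLin X x) (Matrix.toEuclideanLin X x) = inner K x x := by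
    rw [inner_toLin]
    congr 1
    rw [Matrix.toLpLin_apply, Matrix.toLpLin_apply, Matrix.mulVec_mulVec, hX, Matrix.one_mulVec]
  rw [inner_self_eq_norm_sq_to_K, inner_self_eq_norm_sq_to_K] at h1
  have h2 : ‖Matrix.toEuclideanLin X x‖ ^ 2 = ‖x‖ ^ 2 := by exact_mod_cast h1
  exact (sq_eq_sq₀ (norm_nonneg _) (norm_nonneg _)).mp h2

end Pool.Agent.R989.Svd
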