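import Mathlib
import Pool.Agent.R989.SvdD

set_option linter.style.haveILetI false

open MeasureTheory ProbabilityTheory Module Filter Matrix
open scoped ENNReal

namespace Pool.Agent.R989.Svd

open Pool.Agent.R989.GauA Pool.Agent.R989.Pinv Pool.Agent.R989.GauH

variable {K : Type*} [RCLike K] {n l d p r m k q : ℕ}

lemma meas_mul {X : Type*} [MeasurableSpace X] {F : X → Matrix (Fin m) (Fin k) K}
    {G : X → Matrix (Fin k) (Fin n) K} (hF : Measurable F) (hG : Measurable G) :
    Measurable (fun x => F x * G x) := by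
  have h : Measurable (fun p : Matrix (Fin m) (Fin k) K × Matrix (Fin k) (Fin n) K => p.1 * p.2) :=
    (continuous_fst.matrix_mul continuous_snd).measurable
  exact h.comp (hF.prodMk hG)

lemma meas_sub {X : Type*} [MeasurableSpace X] {F : X → Matrix (Fin m) (Fin k) K}
    {G : X → Matrix (Fin m) (Fin k) K} (hF : Measurable F) (hG : Measurable G) :
    Measurable (fun x => F x - G x) := by
  apply meas_mk
  intro i j
  exact ((meas_entry i j).comp hF).sub ((meas_entry i j).comp hG)

lemma meas_conjT {X : Type*} [MeasurableSpace X] {F : X → Matrix (Fin m) (Fin k) K} (hF : Measurable F) :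
    Measurable (fun x => (F x)ᴴ) := by
  have h : Measurable (fun p : Matrix (Fin m) (Fin k) K => pᴴ) :=
    (continuous_id.matrix_conjTranspose).measurable
  exact h.comp hF

lemma meas_coe : Measurable (fun M : UG K n => (M : Matrix (Fin n) (Fin n) K)) :=
  measurable_subtype_coe

/-- the matrix with given rows -/
noncomputable def rowMat (γ : HH (EuclideanSpace K (Fin l)) r) : Matrix (Fin r) (Fin l) K :=
  Matrix.of fun k a => γ k a

/-- the matrix with given columns -/
noncomputable def colM (Γ : HH (EuclideanSpace K (Fin n)) l) : Matrix (Fin n) (Fin l) K :=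
  Matrix.of fun i a => Γ a i

lemma colM_eq (Γ : HH (EuclideanSpace K (Fin n)) l) : colM Γ = zMat l Γ.ofLp := by
  ext i a
  simp [colM, zMat]

lemma meas_rowMat : Measurable (rowMat (K := K) (l := l) (r := r)) := by
  apply meas_mk
  intro i j
  exact (meas_coord j).comp (meas_comp i)

lemma meas_colM : Measurable (colM (K := K) (n := n) (l := l)) := by
  apply meas_mk
  intro i j
  exact (meas_coord i).comp (meas_comp j)

lemma psi_const (C : Matrix (Fin r) (Fin n) K) (q : ℕ) (σ : ℝ) {Ω Ω' : Matrix (Fin n) (Fin l) K}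
    (h : Ω.rank = Ω'.rank) :
    ∫⁻ M : UG K n, ENNReal.ofReal (Phi q σ (colSpan (C * (M : Matrix (Fin n) (Fin n) K)ᴴ * Ω))) ∂(haarU K n) =
    ∫⁻ M : UG K n, ENNReal.ofReal (Phi q σ (colSpan (C * (M : Matrix (Fin n) (Fin n) K)ᴴ * Ω'))) ∂(haarU K n) := by
  obtain ⟨N, hN⟩ := exists_unitary (colSpan Ω) (colSpan Ω') (by rw [finrank_colSpan, finrank_colSpan, h])
  have h1 : ∀ M : UG K n, colSpan (C * (M : Matrix (Fin n) (Fin n) K)ᴴ * Ω) =
      colSpan (C * ((star N * M : UG K n) : Matrix (Fin n) (Fin n) K)ᴴ * Ω') := by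
    intro M
    have e1 : ((star N * M : UG K n) : Matrix (Fin n) (Fin n) K)ᴴ =
        (M : Matrix (Fin n) (Fin n) K)ᴴ * (N : Matrix (Fin n) (Fin n) K) := by
      change ((N : Matrix (Fin n) (Fin n) K)ᴴ * (M : Matrix (Fin n) (Fin n) K))ᴴ = _
      rw [conjTranspose_mul, conjTranspose_conjTranspose]
    rw [e1, colSpan_mul, ← hN, ← colSpan_mul, ← colSpan_mul]
    congr 1
    simp only [Matrix.mul_assoc]
  simp_rw [h1]
  exact haarU_left (star N) (fun M : UG K n =>
    ENNReal.ofReal (Phi q σ (colSpan (C * (M : Matrix (Fin n) (Fin n) K)ᴴ * Ω'))))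

lemma gauss_inv (M : UG K n) {g : Matrix (Fin n) (Fin l) K → ℝ≥0∞} (hg : Measurable g) :
    ∫⁻ Γ, g ((M : Matrix (Fin n) (Fin n) K)ᴴ * colM Γ) ∂(gau K (HH (EuclideanSpace K (Fin n)) l)) =
    ∫⁻ Γ, g (colM Γ) ∂(gau K (HH (EuclideanSpace K (Fin n)) l)) := by
  have hM1 : (M : Matrix (Fin n) (Fin n) K)ᴴ * (M : Matrix (Fin n) (Fin n) K) = 1 :=
    Matrix.mem_unitaryGroup_iff'.mp M.2
  have h := lint_gau1 (K := K) (E := HH (EuclideanSpace K (Fin n)) l) (E₁ := HH (EuclideanSpace K (Fin n)) l)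
    (A := fun Γ => WithLp.toLp 2 (fun a => Matrix.toEuclideanLin (M : Matrix (Fin n) (Fin n) K)ᴴ (Γ a)))
    (fun Γ => WithLp.toLp 2 (fun a => Matrix.toEuclideanLin (M : Matrix (Fin n) (Fin n) K) (Γ a)))
    ?_ (fun u t => ?_) (fun t => ?_) (f := fun Γ => g (colM Γ)) (hg.comp meas_colM)
  · rw [h]
    apply lintegral_congr
    intro Γ
    congr 1
  · apply (WithLp.measurable_toLp 2 _).comp
    apply measurable_pi_lambda
    intro a
    have hc : Continuous (Matrix.toEuclideanLin (M : Matrix (Fin n) (Fin n) K)ᴴ) :=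
      LinearMap.continuous_of_finiteDimensional _
    exact hc.measurable.comp (meas_comp a)
  · rw [PiLp.inner_apply, PiLp.inner_apply]
    apply Finset.sum_congr rfl
    intro a _
    have := inner_toLin (M : Matrix (Fin n) (Fin n) K)ᴴ (u a) (t a)
    rw [conjTranspose_conjTranspose] at this
    exact this
  · rw [← sq_eq_sq₀ (norm_nonneg _) (norm_nonneg _), PiLp.norm_sq_eq_of_L2, PiLp.norm_sq_eq_of_L2]
    apply Finset.sum_congr rfl
    intro a _
    congr 1
    exact norm_toLin hM1 (t a)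

lemma rows_cols (hrn : r ≤ n) {g : Matrix (Fin r) (Fin l) K → ℝ≥0∞} (hg : Measurable g) :
    ∫⁻ Γ, g ((emb K n r)ᴴ * colM Γ) ∂(gau K (HH (EuclideanSpace K (Fin n)) l)) =
    ∫⁻ γ, g (rowMat γ) ∂(gau K (HH (EuclideanSpace K (Fin l)) r)) := by
  have h := lint_gau1 (K := K) (E := HH (EuclideanSpace K (Fin l)) r) (E₁ := HH (EuclideanSpace K (Fin n)) l)
    (A := fun Γ => WithLp.toLp 2 (fun k => WithLp.toLp 2 (fun a => Γ a (Fin.castLE hrn k))))
    (fun γ => WithLp.toLp 2 (fun a => WithLp.toLp 2 (fun i => if h : (i : ℕ) < r then γ ⟨i, h⟩ a else 0)))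
    ?_ (fun u t => ?_) (fun t => ?_) (f := fun γ => g (rowMat γ)) (hg.comp meas_rowMat)
  · rw [h]
    apply lintegral_congr
    intro Γ
    congr 1
    ext k a
    rw [Matrix.mul_apply]
    simp only [rowMat, colM, emb, Matrix.of_apply, conjTranspose_apply]
    rw [Finset.sum_eq_single (Fin.castLE hrn k)]
    · simp
    · intro b _ hb
      have : ¬ ((b : ℕ) = (k : ℕ)) := fun e => hb (Fin.ext e)
      simp [this]
    · intro h
      exact absurd (Finset.mem_univ _) h
  · apply (WithLp.measurable_toLp 2 _).comp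
    apply measurable_pi_lambda
    intro k
    apply (WithLp.measurable_toLp 2 _).comp
    apply measurable_pi_lambda
    intro a
    exact (meas_coord _).comp (meas_comp a)
  · simp only [PiLp.inner_apply]
    rw [Finset.sum_comm]
    apply Finset.sum_congr rfl
    intro a _
    rw [sum_castLE hrn]
    · apply Finset.sum_congr rfl
      intro k _
      simp
    · intro j hj
      simp [hj]
  · rw [← sq_eq_sq₀ (norm_nonneg _) (norm_nonneg _)]
    simp only [PiLp.norm_sq_eq_of_L2]
    rw [Finset.sum_comm]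
    rw [sum_castLE hrn]
    · apply Finset.sum_congr rfl
      intro k _
      simp
    · intro j hj
      simp [hj]

lemma haar_to_gauss (hrn : r ≤ n) (hln : l ≤ n) (q : ℕ) (σ : ℝ) {Ω : Matrix (Fin n) (Fin l) K}
    (hΩ : Ω.rank = l) :
    ∫⁻ M : UG K n, ENNReal.ofReal (Phi q σ (colSpan (Dm K q r σ * ((emb K n r)ᴴ *
      (M : Matrix (Fin n) (Fin n) K)ᴴ) * Ω))) ∂(haarU K n) =
    ∫⁻ γ, ENNReal.ofReal (Phi q σ (colSpan (Dm K q r σ * rowMat γ)))
      ∂(gau K (HH (EuclideanSpace K (Fin l)) r)) := by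
  set C : Matrix (Fin r) (Fin n) K := Dm K q r σ * (emb K n r)ᴴ with hC
  have e0 : ∀ M : UG K n, Dm K q r σ * ((emb K n r)ᴴ * (M : Matrix (Fin n) (Fin n) K)ᴴ) * Ω =
      C * (M : Matrix (Fin n) (Fin n) K)ᴴ * Ω := by
    intro M
    rw [hC]
    simp only [Matrix.mul_assoc]
  simp_rw [e0]
  have hmeasG : Measurable (fun Z : Matrix (Fin r) (Fin l) K => ENNReal.ofReal (Phi q σ (colSpan Z))) :=
    meas_Phi q σ
  have hae : ∀ᵐ Γ ∂(gau K (HH (EuclideanSpace K (Fin n)) l)), (colM Γ).rank = l := by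
    have hr' : l ≤ finrank K (⊤ : Submodule K (EuclideanSpace K (Fin n))) := by
      rw [finrank_top]; simp; omega
    filter_upwards [ae_indep (K := K) (E := EuclideanSpace K (Fin n)) ⊤ hr'] with z hz
    have hz' : LinearIndependent K z.ofLp := by
      have : (fun i => (⊤ : Submodule K (EuclideanSpace K (Fin n))).starProjection (z i)) = z.ofLp := by
        funext i
        exact Submodule.starProjection_eq_self_iff.mpr Submodule.mem_top
      rw [this] at hz
      exact hz
    rw [colM_eq]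
    exact rank_zMat (le_refl l) hz'
  calc ∫⁻ M : UG K n, ENNReal.ofReal (Phi q σ (colSpan (C * (M : Matrix (Fin n) (Fin n) K)ᴴ * Ω))) ∂(haarU K n)
      = ∫⁻ _Γ : HH (EuclideanSpace K (Fin n)) l, (∫⁻ M : UG K n, ENNReal.ofReal (Phi q σ (colSpan (C * (M : Matrix (Fin n) (Fin n) K)ᴴ * Ω))) ∂(haarU K n))
        ∂(gau K (HH (EuclideanSpace K (Fin n)) l)) := by simp
    _ = ∫⁻ Γ : HH (EuclideanSpace K (Fin n)) l, (∫⁻ M : UG K n, ENNReal.ofReal (Phi q σ (colSpan (C * (M : Matrix (Fin n) (Fin n) K)ᴴ * colM Γ))) ∂(haarU K n))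
        ∂(gau K (HH (EuclideanSpace K (Fin n)) l)) := by
        apply lintegral_congr_ae
        filter_upwards [hae] with Γ hΓ
        exact psi_const C q σ (by rw [hΩ, hΓ])
    _ = ∫⁻ M : UG K n, (∫⁻ Γ : HH (EuclideanSpace K (Fin n)) l, ENNReal.ofReal (Phi q σ (colSpan (C * (M : Matrix (Fin n) (Fin n) K)ᴴ * colM Γ)))
        ∂(gau K (HH (EuclideanSpace K (Fin n)) l))) ∂(haarU K n) := by
        apply lintegral_lintegral_swap
        apply Measurable.aemeasurable
        apply hmeasG.comp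
        apply meas_mul
        · apply meas_mul measurable_const
          exact meas_conjT (meas_coe.comp measurable_snd)
        · exact meas_colM.comp measurable_fst
    _ = ∫⁻ _M : UG K n, (∫⁻ Γ : HH (EuclideanSpace K (Fin n)) l, ENNReal.ofReal (Phi q σ (colSpan (C * colM Γ)))
        ∂(gau K (HH (EuclideanSpace K (Fin n)) l))) ∂(haarU K n) := by
        apply lintegral_congr
        intro M
        simp_rw [Matrix.mul_assoc]
        exact gauss_inv M (g := fun Z => ENNReal.ofReal (Phi q σ (colSpan (C * Z))))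
          (hmeasG.comp (meas_mul measurable_const measurable_id))
    _ = ∫⁻ Γ : HH (EuclideanSpace K (Fin n)) l, ENNReal.ofReal (Phi q σ (colSpan (C * colM Γ)))
        ∂(gau K (HH (EuclideanSpace K (Fin n)) l)) := by simp
    _ = _ := by
        rw [hC]
        simp_rw [Matrix.mul_assoc]
        exact rows_cols hrn (g := fun Z => ENNReal.ofReal (Phi q σ (colSpan (Dm K q r σ * Z))))
          (hmeasG.comp (meas_mul measurable_const measurable_id))

end Pool.Agent.R989.Svd
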