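import Mathlib
import Pool.Agent.R989.SvdE

set_option linter.style.haveILetI false

open MeasureTheory ProbabilityTheory Module Filter Matrix
open scoped ENNReal

namespace Pool.Agent.R989.Svd

open Pool.Agent.R989.GauA Pool.Agent.R989.Pinv Pool.Agent.R989.GauH

variable {K : Type*} [RCLike K] {n l d p r m k q : ℕ}

lemma sum_proj_sq (T : Submodule K (EuclideanSpace K (Fin r))) :
    ∑ j : Fin r, ‖T.starProjection (EuclideanSpace.single j (1 : K))‖ ^ 2 = (finrank K T : ℝ) := by
  have h1 : LinearMap.IsProj T (T.starProjection : EuclideanSpace K (Fin r) →ₗ[K] EuclideanSpace K (Fin r)) :=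
    ⟨fun x => Submodule.starProjection_apply_mem T x, fun x hx => Submodule.starProjection_eq_self_iff.mpr hx⟩
  have h2 := h1.trace
  rw [LinearMap.trace_eq_sum_inner _ (EuclideanSpace.basisFun (Fin r) K)] at h2
  have h3 : ∀ j : Fin r, inner K ((EuclideanSpace.basisFun (Fin r) K) j)
      (T.starProjection ((EuclideanSpace.basisFun (Fin r) K) j)) =
      ((‖T.starProjection (EuclideanSpace.single j (1 : K))‖ ^ 2 : ℝ) : K) := by
    intro j
    rw [EuclideanSpace.basisFun_apply]
    have h4 : T.starProjection (EuclideanSpace.single j (1 : K)) =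
        T.starProjection (T.starProjection (EuclideanSpace.single j (1 : K))) :=
      (Submodule.starProjection_eq_self_iff.mpr (Submodule.starProjection_apply_mem T _)).symm
    rw [h4, ← Submodule.inner_starProjection_left_eq_right, ← h4, inner_self_eq_norm_sq_to_K]
    push_cast
    rfl
  have h5 : ∑ j : Fin r, ((‖T.starProjection (EuclideanSpace.single j (1 : K))‖ ^ 2 : ℝ) : K) =
      ((finrank K T : ℝ) : K) := by
    have h6 : ∀ j, inner K ((EuclideanSpace.basisFun (Fin r) K) j)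
      ((T.starProjection : EuclideanSpace K (Fin r) →ₗ[K] EuclideanSpace K (Fin r)) ((EuclideanSpace.basisFun (Fin r) K) j)) =
      ((‖T.starProjection (EuclideanSpace.single j (1 : K))‖ ^ 2 : ℝ) : K) := h3
    simp_rw [h6] at h2
    rw [h2]
    simp
  have h7 : ((∑ j : Fin r, ‖T.starProjection (EuclideanSpace.single j (1 : K))‖ ^ 2 : ℝ) : K) =
      ((finrank K T : ℝ) : K) := by
    rw [← h5]
    push_cast
    rfl
  exact_mod_cast h7

/-- lower bound of the functional -/
lemma Phi_ge {X : Matrix (Fin r) (Fin l) K} (σ : ℝ) :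
    ((r : ℝ) - l) + ∑ j : Fin r, (if (j : ℕ) < q then (σ ^ 2 - 1) *
      ‖((colSpan X)ᗮ).starProjection (EuclideanSpace.single j (1 : K))‖ ^ 2 else 0) ≤
    Phi q σ (colSpan X) := by
  have h1 := sum_proj_sq ((colSpan X)ᗮ)
  have h2 : ((r : ℝ) - l) ≤ (finrank K ((colSpan X)ᗮ : Submodule K (EuclideanSpace K (Fin r))) : ℝ) := by
    have h3 := Submodule.finrank_add_finrank_orthogonal (colSpan X)
    rw [finrank_colSpan] at h3
    simp only [finrank_euclideanSpace, Fintype.card_fin] at h3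
    have h4 : X.rank ≤ l := by simpa using X.rank_le_width
    have h5 : r ≤ l + finrank K ((colSpan X)ᗮ : Submodule K (EuclideanSpace K (Fin r))) := by omega
    have : (r : ℝ) ≤ l + (finrank K ((colSpan X)ᗮ : Submodule K (EuclideanSpace K (Fin r))) : ℝ) := by
      exact_mod_cast h5
    linarith
  have h3 : Phi q σ (colSpan X) = ∑ j : Fin r, ‖((colSpan X)ᗮ).starProjection (EuclideanSpace.single j (1 : K))‖ ^ 2 +
      ∑ j : Fin r, (if (j : ℕ) < q then (σ ^ 2 - 1) *
      ‖((colSpan X)ᗮ).starProjection (EuclideanSpace.single j (1 : K))‖ ^ 2 else 0) := by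
    unfold Phi
    rw [← Finset.sum_add_distrib]
    apply Finset.sum_congr rfl
    intro j _
    by_cases h : (j : ℕ) < q
    · simp only [if_pos h]; ring
    · simp only [if_neg h]; ring
  rw [h3, h1]
  linarith

lemma relbound {γ : HH (EuclideanSpace K (Fin l)) r} {i : Fin r} (hi : (i : ℕ) < q) {a : Fin r → K}
    (ha : ∑ k, a k • γ k = 0) {σ : ℝ} (hσ : 0 < σ) :
    ‖a i‖ ^ 2 ≤ ‖((colSpan (Dm K q r σ * rowMat γ))ᗮ).starProjection (EuclideanSpace.single i (1 : K))‖ ^ 2 *
      (∑ k : Fin r, (if (k : ℕ) < q then 1 else σ ^ 2) * ‖a k‖ ^ 2) := by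
  set S := colSpan (Dm K q r σ * rowMat γ) with hS
  set D : Fin r → ℝ := fun k => if (k : ℕ) < q then σ else 1 with hD
  have hDpos : ∀ k, 0 < D k := by
    intro k
    simp only [hD]
    split_ifs
    · exact hσ
    · norm_num
  have hDi : D i = σ := by simp [hD, hi]
  set y : EuclideanSpace K (Fin r) := WithLp.toLp 2 (fun k => (starRingEnd K) (a k) / ((D k : ℝ) : K)) with hy
  have hyS : y ∈ Sᗮ := by
    rw [hS, colSpan, Submodule.mem_orthogonal]
    intro u hu
    induction hu using Submodule.span_induction with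
    | mem u hu =>
        obtain ⟨c, rfl⟩ := hu
        rw [inner_col]
        have h1 : ∀ k, star ((Dm K q r σ * rowMat γ) k c) * y k = star (a k * γ k c) := by
          intro k
          have h2 : (Dm K q r σ * rowMat γ) k c = ((D k : ℝ) : K) * γ k c := by
            rw [Dm, Matrix.diagonal_mul]
            simp only [hD, rowMat, Matrix.of_apply]
            by_cases h : (k : ℕ) < q
            · simp [h]
            · simp [h]
          have hDk : ((D k : ℝ) : K) ≠ 0 := by
            have := (hDpos k).ne'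
            exact_mod_cast this
          rw [h2]
          change star (((D k : ℝ) : K) * γ k c) * ((starRingEnd K) (a k) / ((D k : ℝ) : K)) = _
          simp only [star_mul, RCLike.star_def, RCLike.conj_ofReal]
          field_simp
        rw [Finset.sum_congr rfl (fun k _ => h1 k), ← star_sum]
        have h3 := congrArg (fun v : EuclideanSpace K (Fin l) => v c) ha
        simp only [WithLp.ofLp_sum, WithLp.ofLp_smul, Finset.sum_apply, Pi.smul_apply, smul_eq_mul] at h3
        rw [h3]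
        simp
    | zero => simp
    | add x y _ _ hx hy => rw [inner_add_left, hx, hy, add_zero]
    | smul c x _ hx => rw [inner_smul_left, hx, mul_zero]
  have hynorm : ‖y‖ ^ 2 = ∑ k, ‖a k‖ ^ 2 / (D k) ^ 2 := by
    rw [EuclideanSpace.norm_sq_eq]
    apply Finset.sum_congr rfl
    intro k _
    change ‖(starRingEnd K) (a k) / ((D k : ℝ) : K)‖ ^ 2 = _
    rw [norm_div, RCLike.norm_conj, RCLike.norm_ofReal, div_pow, sq_abs]
  have hinner : ‖inner K (EuclideanSpace.single i (1 : K)) y‖ = ‖a i‖ / σ := by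
    rw [EuclideanSpace.inner_single_left]
    change ‖(starRingEnd K) (1 : K) * ((starRingEnd K) (a i) / ((D i : ℝ) : K))‖ = _
    rw [norm_mul, norm_div, RCLike.norm_conj, RCLike.norm_conj, RCLike.norm_ofReal, hDi, abs_of_pos hσ]
    simp
  have hcs : ‖a i‖ / σ ≤ ‖(Sᗮ).starProjection (EuclideanSpace.single i (1 : K))‖ * ‖y‖ := by
    rw [← hinner]
    have h1 : inner K (EuclideanSpace.single i (1 : K)) y =
        inner K ((Sᗮ).starProjection (EuclideanSpace.single i (1 : K))) y := by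
      rw [Submodule.inner_starProjection_left_eq_right, Submodule.starProjection_eq_self_iff.mpr hyS]
    rw [h1]
    exact norm_inner_le_norm _ _
  have h2 : (‖a i‖ / σ) ^ 2 ≤ (‖(Sᗮ).starProjection (EuclideanSpace.single i (1 : K))‖ * ‖y‖) ^ 2 := by
    gcongr
  rw [mul_pow, hynorm, div_pow] at h2
  have h3 : ∑ k : Fin r, (if (k : ℕ) < q then 1 else σ ^ 2) * ‖a k‖ ^ 2 = σ ^ 2 * ∑ k, ‖a k‖ ^ 2 / (D k) ^ 2 := by
    rw [Finset.mul_sum]
    apply Finset.sum_congr rfl
    intro k _
    simp only [hD]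
    by_cases h : (k : ℕ) < q
    · simp only [if_pos h]; field_simp
    · simp only [if_neg h]; field_simp
  rw [h3]
  have h4 : ‖a i‖ ^ 2 = σ ^ 2 * (‖a i‖ ^ 2 / σ ^ 2) := by field_simp
  rw [h4]
  calc σ ^ 2 * (‖a i‖ ^ 2 / σ ^ 2) ≤ σ ^ 2 * (‖(Sᗮ).starProjection (EuclideanSpace.single i (1 : K))‖ ^ 2 *
        ∑ k, ‖a k‖ ^ 2 / (D k) ^ 2) := by gcongr
    _ = _ := by ring

/-- the quantity whose limit inferior is studied -/
noncomputable def Yk (q : ℕ) (i : Fin r) (k : ℕ) (γ : HH (EuclideanSpace K (Fin l)) r) : ℝ≥0∞ :=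
  ENNReal.ofReal ((((k : ℝ) + 1) ^ 2 - 1) *
    ‖((colSpan (Dm K q r ((k : ℝ) + 1) * rowMat γ))ᗮ).starProjection (EuclideanSpace.single i (1 : K))‖ ^ 2)

lemma meas_Yk (q : ℕ) (i : Fin r) (k : ℕ) : Measurable (Yk (K := K) (l := l) q i k) := by
  unfold Yk
  have h1 : Measurable (fun γ : HH (EuclideanSpace K (Fin l)) r =>
      ‖((colSpan (Dm K q r ((k : ℝ) + 1) * rowMat γ))ᗮ).starProjection (EuclideanSpace.single i (1 : K))‖) :=
    (meas_proj (EuclideanSpace.single i (1 : K))).comp (meas_mul measurable_const meas_rowMat)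
  exact ENNReal.measurable_ofReal.comp ((h1.pow_const 2).const_mul _)

lemma Zbound {γ : HH (EuclideanSpace K (Fin l)) r} {i : Fin r} (hi : (i : ℕ) < q) {a : Fin r → K}
    (ha : ∑ k, a k • γ k = 0) {t : ℝ} (hai : ‖a i‖ = t)
    (hS2 : ∑ k : Fin r, (if (k : ℕ) < q then 0 else ‖a k‖ ^ 2) = t) :
    ENNReal.ofReal t ≤ liminf (fun k : ℕ => Yk q i k γ) atTop := by
  have ht : 0 ≤ t := by rw [← hai]; exact norm_nonneg _
  rcases ht.eq_or_lt with h0 | hpos
  · rw [← h0]; simp
  set S1 : ℝ := ∑ k : Fin r, (if (k : ℕ) < q then ‖a k‖ ^ 2 else 0) with hS1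
  have hS1nn : 0 ≤ S1 := Finset.sum_nonneg fun k _ => by split_ifs <;> positivity
  have hb : ∀ k : ℕ, ENNReal.ofReal (t ^ 2 * (1 - (((k : ℝ) + 1) ^ 2)⁻¹) / ((((k : ℝ) + 1) ^ 2)⁻¹ * S1 + t)) ≤
      Yk q i k γ := by
    intro k
    have hσ : (0 : ℝ) < (k : ℝ) + 1 := by positivity
    have h1 := relbound hi ha hσ
    have h2 : ∑ k_1 : Fin r, (if (k_1 : ℕ) < q then 1 else ((k : ℝ) + 1) ^ 2) * ‖a k_1‖ ^ 2 =
        S1 + ((k : ℝ) + 1) ^ 2 * t := by
      rw [← hS2, hS1, Finset.mul_sum, ← Finset.sum_add_distrib]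
      apply Finset.sum_congr rfl
      intro x _
      split_ifs <;> ring
    rw [h2, hai] at h1
    unfold Yk
    apply ENNReal.ofReal_le_ofReal
    set X := ‖((colSpan (Dm K q r ((k : ℝ) + 1) * rowMat γ))ᗮ).starProjection
      (EuclideanSpace.single i (1 : K))‖ ^ 2 with hX
    set s : ℝ := ((k : ℝ) + 1) ^ 2 with hs
    have hs1 : 1 ≤ s := by
      rw [hs]
      have : (0 : ℝ) ≤ k := Nat.cast_nonneg k
      nlinarith
    have hs0 : 0 < s := by linarith
    have hden : 0 < s⁻¹ * S1 + t := by positivity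
    rw [div_le_iff₀ hden]
    have h3 : X * (S1 + s * t) = s * (X * (s⁻¹ * S1 + t)) := by field_simp
    rw [h3] at h1
    have h4 : t ^ 2 * (1 - s⁻¹) = (t ^ 2) * ((s - 1) / s) := by field_simp
    rw [h4]
    calc t ^ 2 * ((s - 1) / s) ≤ (s * (X * (s⁻¹ * S1 + t))) * ((s - 1) / s) := by
          apply mul_le_mul_of_nonneg_right h1
          apply div_nonneg <;> linarith
      _ = _ := by field_simp
  have hlim : Tendsto (fun k : ℕ => ENNReal.ofReal (t ^ 2 * (1 - (((k : ℝ) + 1) ^ 2)⁻¹) /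
      ((((k : ℝ) + 1) ^ 2)⁻¹ * S1 + t))) atTop (nhds (ENNReal.ofReal t)) := by
    apply ENNReal.tendsto_ofReal
    have h1 : Tendsto (fun k : ℕ => (k : ℝ) + 1) atTop atTop :=
      tendsto_atTop_add_const_right _ _ tendsto_natCast_atTop_atTop
    have h2 : Tendsto (fun k : ℕ => (((k : ℝ) + 1) ^ 2)⁻¹) atTop (nhds 0) :=
      ((tendsto_pow_atTop (two_ne_zero)).comp h1).inv_tendsto_atTop
    have h3 := (((tendsto_const_nhds (x := (1 : ℝ))).sub h2).const_mul (t ^ 2)).div
      ((h2.mul_const S1).add_const t) (by simpa using hpos.ne')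
    have h4 : t ^ 2 * (1 - 0) / (0 * S1 + t) = t := by field_simp; ring
    rw [h4] at h3
    exact h3
  rw [← hlim.liminf_eq]
  exact liminf_le_liminf (Eventually.of_forall hb)

end Pool.Agent.R989.Svd
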