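import Mathlib
import Pool.Agent.R989.SvdF

set_option linter.style.haveILetI false

open MeasureTheory ProbabilityTheory Module Filter Matrix
open scoped ENNReal

namespace Pool.Agent.R989.Svd

open Pool.Agent.R989.GauA Pool.Agent.R989.Pinv Pool.Agent.R989.GauH

section general

variable {K : Type*} [RCLike K] {E : Type*} [NormedAddCommGroup E] [InnerProductSpace K E]
  [FiniteDimensional K E] [MeasurableSpace E] [BorelSpace E]
variable {E₁ : Type*} [NormedAddCommGroup E₁] [InnerProductSpace K E₁] [FiniteDimensional K E₁]
  [MeasurableSpace E₁] [BorelSpace E₁]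

lemma gau_map1re {A : E₁ → E} (A' : E → E₁) (hA : Measurable A)
    (hAA : ∀ u t, RCLike.re (inner K (A u) t) = RCLike.re (inner K u (A' t)))
    (hn : ∀ t, ‖A' t‖ = ‖t‖) :
    (gau K E₁).map A = gau K E := by
  haveI : IsProbabilityMeasure ((gau K E₁).map A) := Measure.isProbabilityMeasure_map hA.aemeasurable
  apply ext_char (K := K)
  intro t
  have hm2 : Measurable (fun x : E => Complex.exp ((RCLike.re (inner K x t) : ℝ) * Complex.I)) := by
    haveI : ProperSpace E := FiniteDimensional.proper K E
    fun_prop
  rw [integral_map hA.aemeasurable hm2.aestronglyMeasurable, gau_char]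
  simp_rw [hAA]
  rw [gau_char, hn]

lemma lint_gau1re {A : E₁ → E} (A' : E → E₁) (hA : Measurable A)
    (hAA : ∀ u t, RCLike.re (inner K (A u) t) = RCLike.re (inner K u (A' t)))
    (hn : ∀ t, ‖A' t‖ = ‖t‖) {f : E → ℝ≥0∞} (hf : Measurable f) :
    ∫⁻ x, f x ∂(gau K E) = ∫⁻ u, f (A u) ∂(gau K E₁) := by
  rw [← gau_map1re A' hA hAA hn, lintegral_map hf hA]

lemma ae_indep_card {r : ℕ} (s : Finset (Fin r)) (hs : s.card ≤ finrank K E) :
    ∀ᵐ y ∂(gau K (HH E r)), LinearIndepOn K (fun i => y i) (s : Set (Fin r)) := by
  classical
  induction s using Finset.induction_on with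
  | empty =>
      refine Filter.Eventually.of_forall fun y => ?_
      simp
  | insert a s ha ih =>
      have ih' := ih ((Finset.card_le_card (Finset.subset_insert a s)).trans hs)
      have hopen : IsOpen {y : HH E r | LinearIndepOn K (fun i => y i)
          ((insert a s : Finset (Fin r)) : Set (Fin r))} := by
        have h1 := isOpen_setOfPred_linearIndependent (𝕜 := K) (E := E)
          (ι := ((insert a s : Finset (Fin r)) : Set (Fin r)))
        have hc : Continuous (fun (y : HH E r) (i : ((insert a s : Finset (Fin r)) : Set (Fin r))) =>
          y i) := by fun_prop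
        exact h1.preimage hc
      set D : Set (HH E r) := {y | ¬ LinearIndepOn K (fun i => y i)
        ((insert a s : Finset (Fin r)) : Set (Fin r))} with hD
      have hDm : MeasurableSet D := by
        have : D = {y : HH E r | LinearIndepOn K (fun i => y i)
          ((insert a s : Finset (Fin r)) : Set (Fin r))}ᶜ := rfl
        rw [this]
        exact hopen.measurableSet.compl
      have hz : ∫⁻ y, D.indicator 1 y ∂(gau K (HH E r)) = 0 := by
        rw [split_coord a (measurable_one.indicator hDm)]
        rw [← lintegral_zero (μ := gau K (HH E r))]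
        apply lintegral_congr_ae
        filter_upwards [ih'] with v hv
        set T : Submodule K E := Submodule.span K ((fun i => v i) '' (s : Set (Fin r))) with hT
        have hTne : T ≠ ⊤ := by
          intro htop
          have h2 : finrank K T ≤ s.card := by
            rw [hT, ← Finset.coe_image]
            exact (finrank_span_finset_le_card _).trans Finset.card_image_le
          rw [htop, finrank_top] at h2
          rw [Finset.card_insert_of_notMem ha] at hs
          omega
        have hsub : ∀ u : E, D.indicator (1 : HH E r → ℝ≥0∞) (eras a v + sing a u) = (T : Set E).indicator 1 u := by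
          intro u
          have hiff : (eras a v + sing a u ∈ D) ↔ u ∈ (T : Set E) := by
            rw [hD, Set.mem_ofPred_eq, Finset.coe_insert, linearIndepOn_insert (by simpa using ha)]
            have e1 : LinearIndepOn K (fun i => (eras a v + sing a u) i) (s : Set (Fin r)) ↔
                LinearIndepOn K (fun i => v i) (s : Set (Fin r)) := by
              apply linearIndepOn_congr
              intro i hi
              have : i ≠ a := fun h => ha (h ▸ (by simpa using hi))
              simp [eras, sing, this]
            have e2 : (fun i => (eras a v + sing a u) i) '' (s : Set (Fin r)) =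
                (fun i => v i) '' (s : Set (Fin r)) := by
              apply Set.image_congr
              intro i hi
              have : i ≠ a := fun h => ha (h ▸ (by simpa using hi))
              simp [eras, sing, this]
            rw [e1, e2]
            have e3 : (eras a v + sing a u) a = u := by simp [eras, sing]
            rw [e3]
            simp only [hv, true_and, not_not]
            rfl
          by_cases hu : u ∈ (T : Set E)
          · rw [Set.indicator_of_mem hu, Set.indicator_of_mem (hiff.mpr hu)]; rfl
          · rw [Set.indicator_of_notMem hu, Set.indicator_of_notMem (fun h => hu (hiff.mp h))]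
        simp_rw [hsub]
        have hcl : IsClosed (T : Set E) := T.closed_of_finiteDimensional
        rw [lintegral_indicator_one hcl.measurableSet]
        exact gau_null hTne
      rw [lintegral_indicator_one hDm] at hz
      exact hz

/-- keep the places `< q` -/
noncomputable def lo {r : ℕ} (q : ℕ) (v : HH E r) : HH E r :=
  WithLp.toLp 2 (fun k => if (k : ℕ) < q then v k else 0)

/-- keep the places `≥ q` -/
noncomputable def hi {r : ℕ} (q : ℕ) (v : HH E r) : HH E r :=
  WithLp.toLp 2 (fun k => if (k : ℕ) < q then 0 else v k)

omit [InnerProductSpace K E] [FiniteDimensional K E] [BorelSpace E] in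
lemma meas_lo {r : ℕ} (q : ℕ) : Measurable (lo (E := E) (r := r) q) := by
  apply (WithLp.measurable_toLp 2 _).comp
  apply measurable_pi_lambda
  intro i
  by_cases h : (i : ℕ) < q
  · simp only [h, if_true]; exact meas_comp i
  · simp only [h, if_false]; exact measurable_const

omit [InnerProductSpace K E] [FiniteDimensional K E] [BorelSpace E] in
lemma meas_hi {r : ℕ} (q : ℕ) : Measurable (hi (E := E) (r := r) q) := by
  apply (WithLp.measurable_toLp 2 _).comp
  apply measurable_pi_lambda
  intro i
  by_cases h : (i : ℕ) < q
  · simp only [h, if_true]; exact measurable_const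
  · simp only [h, if_false]; exact meas_comp i

lemma split_lohi {r : ℕ} (q : ℕ) {f : HH E r → ℝ≥0∞} (hf : Measurable f) :
    ∫⁻ y, f y ∂(gau K (HH E r)) =
      ∫⁻ v, ∫⁻ u, f (lo q v + hi q u) ∂(gau K (HH E r)) ∂(gau K (HH E r)) := by
  apply lint_gau2 (lo q) (hi q) (meas_lo q) (meas_hi q) _ _ _ hf
  · intro u t
    simp only [PiLp.inner_apply]
    apply Finset.sum_congr rfl
    intro i _
    by_cases h : (i : ℕ) < q
    · simp [lo, h]
    · simp [lo, h]
  · intro u t
    simp only [PiLp.inner_apply]
    apply Finset.sum_congr rfl
    intro i _
    by_cases h : (i : ℕ) < q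
    · simp [hi, h]
    · simp [hi, h]
  · intro t
    simp only [PiLp.norm_sq_eq_of_L2]
    rw [← Finset.sum_add_distrib]
    apply Finset.sum_congr rfl
    intro i _
    by_cases h : (i : ℕ) < q
    · simp [lo, hi, h]
    · simp [lo, hi, h]

omit [InnerProductSpace K E] [FiniteDimensional K E] [MeasurableSpace E] [BorelSpace E] in
lemma span_fun [Module K E] {r : ℕ} {v : Fin r → E} {s : Finset (Fin r)} {x : E}
    (hx : x ∈ Submodule.span K (v '' (s : Set (Fin r)))) :
    ∃ c : Fin r → K, ∑ i ∈ s, c i • v i = x := by
  classical
  rw [Submodule.mem_span_image_finset_iff_exists_fun] at hx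
  obtain ⟨c0, hc0⟩ := hx
  refine ⟨fun i => if h : i ∈ s then c0 ⟨i, h⟩ else 0, ?_⟩
  rw [← hc0, ← Finset.sum_coe_sort]
  apply Finset.sum_congr rfl
  intro i _
  beta_reduce
  rw [dif_pos i.2]

end general

end Pool.Agent.R989.Svd
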