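import Mathlib
import Pool.Agent.R989.SvdG

set_option linter.style.haveILetI false

open MeasureTheory ProbabilityTheory Module Filter Matrix
open scoped ENNReal

namespace Pool.Agent.R989.Svd

open Pool.Agent.R989.GauA Pool.Agent.R989.Pinv Pool.Agent.R989.GauH

variable {K : Type*} [RCLike K] {l r q : ℕ}

/-- the vector of inner products -/
noncomputable def gbar (w : EuclideanSpace K (Fin l)) (t : HH (EuclideanSpace K (Fin l)) r) :
    EuclideanSpace K (Fin r) := WithLp.toLp 2 (fun k => inner K (t k) w)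

lemma meas_gbar (w : EuclideanSpace K (Fin l)) : Measurable (gbar (r := r) w) := by
  apply (WithLp.measurable_toLp 2 _).comp
  apply measurable_pi_lambda
  intro k
  have h : Measurable (fun t : HH (EuclideanSpace K (Fin l)) r => t k) := meas_comp k
  fun_prop

lemma gbar_sq {w : EuclideanSpace K (Fin l)} (hw : w ≠ 0) (C : Submodule K (EuclideanSpace K (Fin r))) :
    ∫⁻ t, ENNReal.ofReal (‖C.starProjection (gbar w t)‖ ^ 2) ∂(gau K (HH (EuclideanSpace K (Fin l)) r)) =
    ENNReal.ofReal (‖w‖ ^ 2) * ((finrank ℝ K * finrank K C : ℕ) : ℝ≥0∞) := by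
  have hwn : 0 < ‖w‖ := norm_pos_iff.mpr hw
  have hwK : ((‖w‖ : ℝ) : K) ≠ 0 := by exact_mod_cast hwn.ne'
  have hAm : Measurable (fun t : HH (EuclideanSpace K (Fin l)) r => ((‖w‖⁻¹ : ℝ) : K) • gbar w t) := by
    have := meas_gbar (r := r) w
    fun_prop
  have h := lint_gau1re (K := K) (E := EuclideanSpace K (Fin r)) (E₁ := HH (EuclideanSpace K (Fin l)) r)
    (A := fun t => ((‖w‖⁻¹ : ℝ) : K) • gbar w t)
    (fun s => WithLp.toLp 2 (fun k => (((‖w‖⁻¹ : ℝ) : K) * (starRingEnd K) (s k)) • w))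
    hAm (fun u t => ?_) (fun t => ?_)
    (f := fun x => ENNReal.ofReal (‖C.starProjection x‖ ^ 2)) (by fun_prop)
  · rw [gau_proj_sq] at h
    have h2 : ∀ t, ENNReal.ofReal (‖C.starProjection (gbar w t)‖ ^ 2) = ENNReal.ofReal (‖w‖ ^ 2) *
        ENNReal.ofReal (‖C.starProjection (((‖w‖⁻¹ : ℝ) : K) • gbar w t)‖ ^ 2) := by
      intro t
      rw [← ENNReal.ofReal_mul (by positivity), map_smul, norm_smul, mul_pow, RCLike.norm_ofReal, sq_abs]
      congr 1
      field_simp
    simp_rw [h2]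
    rw [lintegral_const_mul, ← h]
    fun_prop
  · rw [inner_smul_left, RCLike.conj_ofReal, PiLp.inner_apply, PiLp.inner_apply]
    have h4 : ∑ i, inner K (u i) (((((‖w‖⁻¹ : ℝ) : K) * (starRingEnd K) (t i)) • w)) =
        (starRingEnd K) (((‖w‖⁻¹ : ℝ) : K) * ∑ i, inner K ((gbar w u) i) (t i)) := by
      rw [map_mul, RCLike.conj_ofReal, map_sum, Finset.mul_sum]
      apply Finset.sum_congr rfl
      intro i _
      rw [inner_smul_right]
      change _ = ((‖w‖⁻¹ : ℝ) : K) * (starRingEnd K) (inner K (inner K (u i) w) (t i))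
      rw [RCLike.inner_apply, map_mul, RCLike.conj_conj]
      ring
    change _ = RCLike.re (∑ i, inner K (u i) (((((‖w‖⁻¹ : ℝ) : K) * (starRingEnd K) (t i)) • w)))
    rw [h4, RCLike.conj_re]
  · rw [← sq_eq_sq₀ (norm_nonneg _) (norm_nonneg _), PiLp.norm_sq_eq_of_L2, EuclideanSpace.norm_sq_eq]
    apply Finset.sum_congr rfl
    intro k _
    change ‖(((‖w‖⁻¹ : ℝ) : K) * (starRingEnd K) (t k)) • w‖ ^ 2 = _
    rw [norm_smul, norm_mul, RCLike.norm_conj, RCLike.norm_ofReal, mul_pow, mul_pow, sq_abs]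
    field_simp

/-- the constraint map -/
noncomputable def Lam (hq : q ≤ r) {N : Submodule K (EuclideanSpace K (Fin l))} (nn : Fin r → N) :
    EuclideanSpace K (Fin r) →ₗ[K] (Fin q → K) × N where
  toFun c := (fun k => c (Fin.castLE hq k), ∑ k, c k • nn k)
  map_add' x y := by
    ext
    · simp
    · simp [add_smul, Finset.sum_add_distrib]
  map_smul' a x := by
    ext
    · simp
    · simp [mul_smul, Finset.smul_sum]

lemma finrank_ker_Lam (hq : q ≤ r) {N : Submodule K (EuclideanSpace K (Fin l))} (nn : Fin r → N)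
    (hN : finrank K N = l - q) (hql : q ≤ l) : r - l ≤ finrank K (LinearMap.ker (Lam hq nn)) := by
  have h1 := LinearMap.finrank_range_add_finrank_ker (Lam hq nn)
  have h2 : finrank K (LinearMap.range (Lam hq nn)) ≤ finrank K ((Fin q → K) × N) :=
    Submodule.finrank_le _
  rw [Module.finrank_prod, hN] at h2
  simp only [Module.finrank_fintype_fun_eq_card, Fintype.card_fin] at h2
  simp only [finrank_euclideanSpace, Fintype.card_fin] at h1
  omega

/-- the pointwise estimate -/
lemma point_bound (hq : q ≤ r) {i : Fin r} (hiq : (i : ℕ) < q) (v : HH (EuclideanSpace K (Fin l)) r)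
    {G : Submodule K (EuclideanSpace K (Fin l))}
    (hG : G = Submodule.span K (v.ofLp '' ((Finset.univ.filter (fun j : Fin r => (j : ℕ) < q) : Finset (Fin r)) : Set (Fin r))))
    {w : EuclideanSpace K (Fin l)} (hwG : w ∈ G) (hwi : inner K w (v i) = 1)
    (hwj : ∀ j : Fin r, (j : ℕ) < q → j ≠ i → inner K w (v j) = 0)
    (y t : HH (EuclideanSpace K (Fin l)) r) :
    ENNReal.ofReal (‖(LinearMap.ker (Lam hq (fun k => Gᗮ.orthogonalProjectionOnto (y k)))).starProjection
      (gbar w t)‖ ^ 2) ≤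
    liminf (fun k : ℕ => Yk q i k (lo q v + hi q (pH Gᗮ y + pH Gᗮᗮ t))) atTop := by
  set N := Gᗮ with hN
  set C := LinearMap.ker (Lam hq (fun k => N.orthogonalProjectionOnto (y k))) with hC
  set c := C.starProjection (gbar w t) with hc
  have hcC : c ∈ C := Submodule.starProjection_apply_mem _ _
  have hcC' := hcC
  rw [hC, LinearMap.mem_ker] at hcC'
  have hC1 : ∀ k : Fin r, (k : ℕ) < q → c k = 0 := by
    intro k hk
    have := congrFun (congrArg Prod.fst hcC') ⟨k, hk⟩
    exact this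
  have hC2 : ∑ k, c k • N.starProjection (y k) = 0 := by
    have h1 := congrArg Prod.snd hcC'
    have h2 := congrArg (fun x : N => (x : EuclideanSpace K (Fin l))) h1
    simp only [Lam, LinearMap.coe_mk, AddHom.coe_mk, Prod.snd_zero, ZeroMemClass.coe_zero,
      Submodule.coe_sum, Submodule.coe_smul] at h2
    exact h2
  set γ := lo q v + hi q (pH N y + pH Nᗮ t) with hγ
  have hγlo : ∀ k : Fin r, (k : ℕ) < q → γ k = v k := by
    intro k hk
    change (if (k : ℕ) < q then v k else 0) + (if (k : ℕ) < q then 0 else _) = v k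
    rw [if_pos hk, if_pos hk, add_zero]
  have hγhi : ∀ k : Fin r, ¬ (k : ℕ) < q → γ k = N.starProjection (y k) + Nᗮ.starProjection (t k) := by
    intro k hk
    change (if (k : ℕ) < q then v k else 0) + (if (k : ℕ) < q then 0 else
      (N.starProjection (y k) + Nᗮ.starProjection (t k))) = _
    rw [if_neg hk, if_neg hk, zero_add]
  have hsum : ∑ k, c k • γ k = ∑ k, c k • Nᗮ.starProjection (t k) := by
    have h1 : ∑ k, c k • γ k = ∑ k, (c k • N.starProjection (y k) + c k • Nᗮ.starProjection (t k)) := by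
      apply Finset.sum_congr rfl
      intro k _
      by_cases hk : (k : ℕ) < q
      · rw [hC1 k hk]; simp
      · rw [hγhi k hk, smul_add]
    rw [h1, Finset.sum_add_distrib, hC2, zero_add]
  have hNG : Nᗮ = G := by rw [hN, Submodule.orthogonal_orthogonal]
  have hmem : ∑ k, c k • γ k ∈ G := by
    rw [hsum]
    apply hNG.le
    exact Submodule.sum_mem _ fun k _ => Submodule.smul_mem _ _ (Submodule.starProjection_apply_mem _ _)
  rw [hG] at hmem
  obtain ⟨b, hb⟩ := span_fun hmem
  have hwN : w ∈ Nᗮ := by rw [hNG]; exact hwG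
  -- the coefficient of `v i`
  have hbi : b i = ((‖c‖ ^ 2 : ℝ) : K) := by
    have h1 : inner K w (∑ j ∈ Finset.univ.filter (fun j : Fin r => (j : ℕ) < q), b j • v.ofLp j) = b i := by
      rw [inner_sum, Finset.sum_eq_single i]
      · rw [inner_smul_right, hwi, mul_one]
      · intro j hj hji
        rw [inner_smul_right, hwj j (Finset.mem_filter.mp hj).2 hji, mul_zero]
      · intro h
        exfalso
        apply h
        simp [hiq]
    rw [hb, hsum, inner_sum] at h1
    have h2 : ∀ k, inner K w (c k • Nᗮ.starProjection (t k)) = inner K ((gbar w t) k) (c k) := by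
      intro k
      rw [inner_smul_right, ← Submodule.inner_starProjection_left_eq_right,
        Submodule.starProjection_eq_self_iff.mpr hwN]
      change _ = inner K (inner K (t k) w) (c k)
      rw [RCLike.inner_apply, inner_conj_symm]
    simp_rw [h2] at h1
    rw [← PiLp.inner_apply] at h1
    rw [← h1]
    have h3 : inner K (gbar w t) c = inner K c c := by
      conv_rhs => rw [hc, Submodule.inner_starProjection_left_eq_right]
      rw [Submodule.starProjection_eq_self_iff.mpr (Submodule.starProjection_apply_mem _ _)]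
    rw [h3, inner_self_eq_norm_sq_to_K]
    push_cast
    rfl
  set a : Fin r → K := fun k => if (k : ℕ) < q then - b k else c k with ha
  have hrel : ∑ k, a k • γ k = 0 := by
    have h1 : ∑ k, a k • γ k = ∑ k, c k • γ k -
        ∑ j ∈ Finset.univ.filter (fun j : Fin r => (j : ℕ) < q), b j • v.ofLp j := by
      rw [Finset.sum_filter, ← Finset.sum_sub_distrib]
      apply Finset.sum_congr rfl
      intro k _
      simp only [ha]
      by_cases hk : (k : ℕ) < q
      · rw [if_pos hk, if_pos hk, hC1 k hk, hγlo k hk, zero_smul, neg_smul, zero_sub]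
      · rw [if_neg hk, if_neg hk, sub_zero]
    rw [h1, hb, sub_self]
  apply Zbound hiq hrel (t := ‖c‖ ^ 2)
  · simp only [ha]
    rw [if_pos hiq, norm_neg, hbi, RCLike.norm_ofReal, abs_of_nonneg (by positivity)]
  · rw [EuclideanSpace.norm_sq_eq]
    apply Finset.sum_congr rfl
    intro k _
    simp only [ha]
    by_cases hk : (k : ℕ) < q
    · rw [if_pos hk, hC1 k hk]; simp
    · rw [if_neg hk, if_neg hk]

lemma inner_part (hq : q ≤ r) (hql : q ≤ l) {i : Fin r} (hiq : (i : ℕ) < q)
    (v : HH (EuclideanSpace K (Fin l)) r)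
    {G : Submodule K (EuclideanSpace K (Fin l))}
    (hG : G = Submodule.span K (v.ofLp '' ((Finset.univ.filter (fun j : Fin r => (j : ℕ) < q) : Finset (Fin r)) : Set (Fin r))))
    (hGr : finrank K G = q)
    {x : EuclideanSpace K (Fin l)} (hx0 : x ≠ 0) (hxG : x ∈ G)
    (hxi : inner K x (v i) = ((‖x‖ ^ 2 : ℝ) : K))
    (hxj : ∀ j : Fin r, (j : ℕ) < q → j ≠ i → inner K x (v j) = 0) :
    ((finrank ℝ K * (r - l) : ℕ) : ℝ≥0∞) * (ENNReal.ofReal (‖x‖ ^ 2))⁻¹ ≤
    ∫⁻ u, liminf (fun k : ℕ => Yk q i k (lo q v + hi q u)) atTop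
      ∂(gau K (HH (EuclideanSpace K (Fin l)) r)) := by
  have hxn : 0 < ‖x‖ ^ 2 := by positivity
  have hxK : ((‖x‖ ^ 2 : ℝ) : K) ≠ 0 := by exact_mod_cast hxn.ne'
  set w : EuclideanSpace K (Fin l) := (((‖x‖ ^ 2)⁻¹ : ℝ) : K) • x with hw
  have hwnorm : ‖w‖ ^ 2 = (‖x‖ ^ 2)⁻¹ := by
    rw [hw, norm_smul, mul_pow, RCLike.norm_ofReal, sq_abs]
    field_simp
  have hw0 : w ≠ 0 := by
    intro h
    have h2 : (‖x‖ ^ 2)⁻¹ = 0 := by rw [← hwnorm, h]; simp
    exact (inv_pos.mpr hxn).ne' h2
  have hwG : w ∈ G := Submodule.smul_mem _ _ hxG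
  have hwi : inner K w (v i) = 1 := by
    rw [hw, inner_smul_left, hxi, RCLike.conj_ofReal, ← RCLike.ofReal_mul, inv_mul_cancel₀ hxn.ne',
      RCLike.ofReal_one]
  have hwj : ∀ j : Fin r, (j : ℕ) < q → j ≠ i → inner K w (v j) = 0 := by
    intro j hj hji
    rw [hw, inner_smul_left, hxj j hj hji, mul_zero]
  have hNr : finrank K (Gᗮ : Submodule K (EuclideanSpace K (Fin l))) = l - q := by
    have := Submodule.finrank_add_finrank_orthogonal G
    rw [hGr] at this
    simp at this
    omega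
  have hZm : Measurable (fun γ : HH (EuclideanSpace K (Fin l)) r => liminf (fun k : ℕ => Yk q i k γ) atTop) :=
    Measurable.liminf (fun k => meas_Yk q i k)
  have hm2 : Measurable (fun u : HH (EuclideanSpace K (Fin l)) r =>
      liminf (fun k : ℕ => Yk q i k (lo q v + hi q u)) atTop) := by
    have h1 : Measurable (fun u : HH (EuclideanSpace K (Fin l)) r => lo q v + hi q u) :=
      (meas_hi q).const_add _
    exact hZm.comp h1
  rw [split_H Gᗮ hm2]
  have hconst : ((finrank ℝ K * (r - l) : ℕ) : ℝ≥0∞) * (ENNReal.ofReal (‖x‖ ^ 2))⁻¹ =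
      ∫⁻ _y : HH (EuclideanSpace K (Fin l)) r, ((finrank ℝ K * (r - l) : ℕ) : ℝ≥0∞) * (ENNReal.ofReal (‖x‖ ^ 2))⁻¹
        ∂(gau K (HH (EuclideanSpace K (Fin l)) r)) := by simp
  rw [hconst]
  apply lintegral_mono
  intro y
  calc ((finrank ℝ K * (r - l) : ℕ) : ℝ≥0∞) * (ENNReal.ofReal (‖x‖ ^ 2))⁻¹
      ≤ ENNReal.ofReal (‖w‖ ^ 2) * ((finrank ℝ K * finrank K
        (LinearMap.ker (Lam hq (fun k => Gᗮ.orthogonalProjectionOnto (y k)))) : ℕ) : ℝ≥0∞) := by
        rw [hwnorm, ENNReal.ofReal_inv_of_pos hxn, mul_comm]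
        gcongr
        exact finrank_ker_Lam hq _ hNr hql
    _ = ∫⁻ t, ENNReal.ofReal (‖(LinearMap.ker (Lam hq (fun k => Gᗮ.orthogonalProjectionOnto (y k)))).starProjection
      (gbar w t)‖ ^ 2) ∂(gau K (HH (EuclideanSpace K (Fin l)) r)) := (gbar_sq hw0 _).symm
    _ ≤ _ := lintegral_mono fun t => point_bound hq hiq v hG hwG hwi hwj y t

end Pool.Agent.R989.Svd
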