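import Mathlib
import Pool.Agent.R989.SvdH

set_option linter.style.haveILetI false

open MeasureTheory ProbabilityTheory Module Filter Matrix
open scoped ENNReal

namespace Pool.Agent.R989.Svd

open Pool.Agent.R989.GauA Pool.Agent.R989.Pinv Pool.Agent.R989.GauH

variable {K : Type*} [RCLike K] {n l d r q : ℕ}

lemma outer (hq : q ≤ r) (hql : q ≤ l) {i : Fin r} (hiq : (i : ℕ) < q)
    (hm : 2 < finrank ℝ K * (l - q + 1)) :
    ((finrank ℝ K * (r - l) : ℕ) : ℝ≥0∞) *
      ENNReal.ofReal (1 / (((finrank ℝ K * (l - q + 1) : ℕ) : ℝ) - 2)) ≤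
    ∫⁻ γ, liminf (fun k : ℕ => Yk q i k γ) atTop ∂(gau K (HH (EuclideanSpace K (Fin l)) r)) := by
  classical
  have hZm : Measurable (fun γ : HH (EuclideanSpace K (Fin l)) r => liminf (fun k : ℕ => Yk q i k γ) atTop) :=
    Measurable.liminf (fun k => meas_Yk q i k)
  rw [split_lohi q hZm]
  have hZ2 : Measurable (fun v : HH (EuclideanSpace K (Fin l)) r => ∫⁻ u, liminf (fun k : ℕ =>
      Yk q i k (lo q v + hi q u)) atTop ∂(gau K (HH (EuclideanSpace K (Fin l)) r))) := by
    apply Measurable.lintegral_prod_right' (f := fun p : HH (EuclideanSpace K (Fin l)) r ×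
      HH (EuclideanSpace K (Fin l)) r => liminf (fun k : ℕ => Yk q i k (lo q p.1 + hi q p.2)) atTop)
    have h1 : Measurable (fun p : HH (EuclideanSpace K (Fin l)) r × HH (EuclideanSpace K (Fin l)) r =>
        lo q p.1 + hi q p.2) := ((meas_lo q).comp measurable_fst).add ((meas_hi q).comp measurable_snd)
    exact hZm.comp h1
  rw [split_coord i hZ2]
  set J : Finset (Fin r) := Finset.univ.filter (fun j : Fin r => (j : ℕ) < q) with hJ
  have hiJ : i ∈ J := by simp [hJ, hiq]
  have hJcard : J.card = q := by
    have h1 : J = Finset.univ.map (Fin.castLEEmb hq) := by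
      ext j
      simp only [hJ, Finset.mem_filter, Finset.mem_univ, true_and, Finset.mem_map]
      constructor
      · intro h
        exact ⟨⟨j, h⟩, Fin.ext rfl⟩
      · rintro ⟨a, rfl⟩
        exact a.2
    rw [h1]
    simp
  set c' : ℝ≥0∞ := ((finrank ℝ K * (r - l) : ℕ) : ℝ≥0∞) *
      ENNReal.ofReal (1 / (((finrank ℝ K * (l - q + 1) : ℕ) : ℝ) - 2)) with hc'
  have hconst : c' = ∫⁻ _v : HH (EuclideanSpace K (Fin l)) r, c' ∂(gau K (HH (EuclideanSpace K (Fin l)) r)) := by
    simp
  rw [hconst]
  apply lintegral_mono_ae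
  have hcard : (J.erase i).card ≤ finrank K (EuclideanSpace K (Fin l)) := by
    rw [Finset.card_erase_of_mem hiJ, hJcard]
    simp
    omega
  filter_upwards [ae_indep_card (K := K) (J.erase i) hcard] with v hv
  set F : Submodule K (EuclideanSpace K (Fin l)) := Submodule.span K
    (v.ofLp '' ((J.erase i : Finset (Fin r)) : Set (Fin r))) with hF
  have hFr : finrank K F = q - 1 := by
    have h2 : F = Submodule.span K (Set.range (fun j : ((J.erase i : Finset (Fin r)) : Set (Fin r)) =>
        v.ofLp j)) := by
      rw [hF, Set.image_eq_range]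
    rw [h2, finrank_span_eq_card hv]
    simp only [Finset.coe_sort_coe, Fintype.card_coe]
    rw [Finset.card_erase_of_mem hiJ, hJcard]
  have hqpos : 0 < q := by omega
  have hFo : finrank K (Fᗮ : Submodule K (EuclideanSpace K (Fin l))) = l - q + 1 := by
    have := Submodule.finrank_add_finrank_orthogonal F
    rw [hFr] at this
    simp at this
    omega
  have hFne : F ≠ ⊤ := by
    intro h
    rw [h, finrank_top] at hFr
    simp at hFr
    omega
  calc c' ≤ ((finrank ℝ K * (r - l) : ℕ) : ℝ≥0∞) *
        ∫⁻ s, (ENNReal.ofReal (‖(Fᗮ).starProjection s‖ ^ 2))⁻¹ ∂(gau K (EuclideanSpace K (Fin l))) := by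
        rw [hc']
        apply mul_le_mul_right
        have := gau_proj_inv (K := K) (Fᗮ) (by rw [hFo]; exact hm)
        rw [hFo] at this
        exact this
    _ = ∫⁻ s, ((finrank ℝ K * (r - l) : ℕ) : ℝ≥0∞) * (ENNReal.ofReal (‖(Fᗮ).starProjection s‖ ^ 2))⁻¹
        ∂(gau K (EuclideanSpace K (Fin l))) := by
        rw [lintegral_const_mul _ (by fun_prop)]
    _ ≤ _ := by
        apply lintegral_mono_ae
        have hae : ∀ᵐ s ∂(gau K (EuclideanSpace K (Fin l))), s ∉ F := by
          rw [ae_iff]
          simp only [not_not]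
          exact gau_null hFne
        filter_upwards [hae] with s hs
        set v' := eras i v + sing i s with hv'
        have hv'i : v'.ofLp i = s := by simp [hv', eras, sing]
        have hv'j : ∀ j, j ≠ i → v'.ofLp j = v.ofLp j := by
          intro j hj
          simp [hv', eras, sing, hj]
        set x := (Fᗮ).starProjection s with hx
        have hx0 : x ≠ 0 := by
          intro h
          rw [hx, Submodule.starProjection_apply_eq_zero_iff, Submodule.orthogonal_orthogonal] at h
          exact hs h
        have hxs : x = s - F.starProjection s := by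
          rw [hx, Submodule.starProjection_orthogonal']
          rfl
        set G : Submodule K (EuclideanSpace K (Fin l)) := Submodule.span K
          (v'.ofLp '' ((Finset.univ.filter (fun j : Fin r => (j : ℕ) < q) : Finset (Fin r)) : Set (Fin r))) with hG
        have himg : v'.ofLp '' ((J.erase i : Finset (Fin r)) : Set (Fin r)) =
            v.ofLp '' ((J.erase i : Finset (Fin r)) : Set (Fin r)) := by
          apply Set.image_congr
          intro j hj
          exact hv'j j (Finset.ne_of_mem_erase hj)
        have hFG : F ≤ G := by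
          rw [hF, ← himg, hG]
          apply Submodule.span_mono
          apply Set.image_mono
          intro j hj
          exact Finset.mem_of_mem_erase hj
        have hsG : s ∈ G := by
          rw [hG]
          apply Submodule.subset_span
          exact ⟨i, by simpa using hiq, hv'i⟩
        have hxG : x ∈ G := by
          rw [hxs]
          exact Submodule.sub_mem _ hsG (hFG (Submodule.starProjection_apply_mem F s))
        have hGr : finrank K G = q := by
          have hins : insert i (J.erase i) = J := Finset.insert_erase hiJ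
          have hLI : LinearIndepOn K v'.ofLp ((J : Finset (Fin r)) : Set (Fin r)) := by
            rw [← hins, Finset.coe_insert, linearIndepOn_insert (by simp)]
            constructor
            · have : LinearIndepOn K (fun j => v.ofLp j) ((J.erase i : Finset (Fin r)) : Set (Fin r)) := hv
              rw [linearIndepOn_congr (v := fun j => v.ofLp j) (w := v'.ofLp)] at this
              · exact this
              · intro j hj
                exact (hv'j j (Finset.ne_of_mem_erase hj)).symm
            · rw [hv'i, himg]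
              exact hs
          have h2 : G = Submodule.span K (Set.range (fun j : ((J : Finset (Fin r)) : Set (Fin r)) =>
              v'.ofLp j)) := by
            rw [hG, Set.image_eq_range]
          rw [h2, finrank_span_eq_card hLI]
          simp only [Finset.coe_sort_coe, Fintype.card_coe]
          exact hJcard
        apply inner_part hq hql hiq v' hG hGr hx0 hxG
        · rw [hv'i]
          have h2 : x ∈ Fᗮ := Submodule.starProjection_apply_mem _ _
          have h3 : inner K x (F.starProjection s) = 0 :=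
            Submodule.inner_left_of_mem_orthogonal (Submodule.starProjection_apply_mem F s) h2
          have h5 : s = x + F.starProjection s := by rw [hxs]; abel
          have h4 : inner K x s = inner K x x := by
            calc inner K x s = inner K x (x + F.starProjection s) := by rw [← h5]
              _ = _ := by rw [inner_add_right, h3, add_zero]
          rw [h4, inner_self_eq_norm_sq_to_K]
          push_cast
          rfl
        · intro j hj hji
          rw [hv'j j hji]
          have h1 : v.ofLp j ∈ F := Submodule.subset_span ⟨j, by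
            rw [Finset.mem_coe, Finset.mem_erase]
            exact ⟨hji, by simp [hJ, hj]⟩, rfl⟩
          have h2 : x ∈ Fᗮ := Submodule.starProjection_apply_mem _ _
          exact Submodule.inner_left_of_mem_orthogonal h1 h2

/-- the constant lower bound of the averaged risk -/
noncomputable def cbar (K : Type*) [RCLike K] (l r q k : ℕ) : ℝ≥0∞ :=
  ∫⁻ γ, ENNReal.ofReal (Phi q ((k : ℝ) + 1) (colSpan (Dm K q r ((k : ℝ) + 1) * rowMat γ)))
    ∂(gau K (HH (EuclideanSpace K (Fin l)) r))

lemma Phi_ge' (hq : q ≤ r) (hlr : l ≤ r) (k : ℕ) (γ : HH (EuclideanSpace K (Fin l)) r) :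
    ((r - l : ℕ) : ℝ≥0∞) + ∑ j : Fin q, Yk q (Fin.castLE hq j) k γ ≤
      ENNReal.ofReal (Phi q ((k : ℝ) + 1) (colSpan (Dm K q r ((k : ℝ) + 1) * rowMat γ))) := by
  have h1 := Phi_ge (q := q) (X := Dm K q r ((k : ℝ) + 1) * rowMat γ) ((k : ℝ) + 1)
  refine le_trans (le_of_eq ?_) (ENNReal.ofReal_le_ofReal h1)
  have hσ : (0 : ℝ) ≤ ((k : ℝ) + 1) ^ 2 - 1 := by
    have : (0 : ℝ) ≤ k := Nat.cast_nonneg k
    nlinarith
  have hlr' : (0 : ℝ) ≤ (r : ℝ) - l := by
    have : (l : ℝ) ≤ r := by exact_mod_cast hlr
    linarith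
  have hnn : ∀ j : Fin r, 0 ≤ (if (j : ℕ) < q then (((k : ℝ) + 1) ^ 2 - 1) *
      ‖((colSpan (Dm K q r ((k : ℝ) + 1) * rowMat γ))ᗮ).starProjection (EuclideanSpace.single j (1 : K))‖ ^ 2 else 0) := by
    intro j
    split_ifs
    · positivity
    · exact le_refl _
  rw [ENNReal.ofReal_add hlr' (Finset.sum_nonneg fun j _ => hnn j),
    ENNReal.ofReal_sum_of_nonneg (fun j _ => hnn j), sum_castLE hq]
  · congr 1
    · rw [← ENNReal.ofReal_natCast]
      push_cast [Nat.cast_sub hlr]
      rfl
    · apply Finset.sum_congr rfl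
      intro j _
      rw [if_pos (by simp)]
      rfl
  · intro j hj
    rw [if_neg hj]
    simp

theorem cbar_liminf (hq : q ≤ r) (hql : q ≤ l) (hlr : l ≤ r) (hm : 2 < finrank ℝ K * (l - q + 1)) :
    ((r - l : ℕ) : ℝ≥0∞) + (q : ℝ≥0∞) * (((finrank ℝ K * (r - l) : ℕ) : ℝ≥0∞) *
      ENNReal.ofReal (1 / (((finrank ℝ K * (l - q + 1) : ℕ) : ℝ) - 2))) ≤
    liminf (fun k : ℕ => cbar K l r q k) atTop := by
  set τ : ℝ≥0∞ := ((finrank ℝ K * (r - l) : ℕ) : ℝ≥0∞) *
      ENNReal.ofReal (1 / (((finrank ℝ K * (l - q + 1) : ℕ) : ℝ) - 2)) with hτ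
  set α : ℝ≥0∞ := ((r - l : ℕ) : ℝ≥0∞) with hα
  have h1 : ∀ j : Fin q, τ ≤ liminf (fun k : ℕ => ∫⁻ γ, Yk q (Fin.castLE hq j) k γ
      ∂(gau K (HH (EuclideanSpace K (Fin l)) r))) atTop := by
    intro j
    exact (outer hq hql (i := Fin.castLE hq j) (by simp) hm).trans
      (lintegral_liminf_le fun k => meas_Yk q _ k)
  have h2 : (q : ℝ≥0∞) * τ ≤ liminf (fun k : ℕ => ∑ j : Fin q, ∫⁻ γ, Yk q (Fin.castLE hq j) k γ
      ∂(gau K (HH (EuclideanSpace K (Fin l)) r))) atTop := by
    refine le_trans ?_ (sum_liminf_le _)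
    calc (q : ℝ≥0∞) * τ = ∑ _j : Fin q, τ := by simp
      _ ≤ _ := Finset.sum_le_sum fun j _ => h1 j
  have hmono : Monotone (fun s : ℝ≥0∞ => α + s) := by
    intro a b hab
    dsimp only
    gcongr
  have hcont : Continuous (fun s : ℝ≥0∞ => α + s) := continuous_const_add α
  have h3 := hmono.map_liminf_of_continuousAt
    (fun k : ℕ => ∑ j : Fin q, ∫⁻ γ, Yk q (Fin.castLE hq j) k γ
      ∂(gau K (HH (EuclideanSpace K (Fin l)) r))) (F := atTop) hcont.continuousAt
  calc α + q * τ ≤ α + liminf (fun k : ℕ => ∑ j : Fin q, ∫⁻ γ, Yk q (Fin.castLE hq j) k γ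
      ∂(gau K (HH (EuclideanSpace K (Fin l)) r))) atTop := hmono h2
    _ = _ := h3
    _ ≤ _ := by
        refine liminf_le_liminf (Eventually.of_forall fun k => ?_)
        simp only [Function.comp_apply]
        calc α + ∑ j : Fin q, ∫⁻ γ, Yk q (Fin.castLE hq j) k γ ∂(gau K (HH (EuclideanSpace K (Fin l)) r))
            = ∫⁻ γ, (α + ∑ j : Fin q, Yk q (Fin.castLE hq j) k γ)
              ∂(gau K (HH (EuclideanSpace K (Fin l)) r)) := by
              rw [lintegral_add_left measurable_const, lintegral_finsetSum _ (fun j _ => meas_Yk q _ k)]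
              simp
          _ ≤ _ := lintegral_mono fun γ => Phi_ge' hq hlr k γ

end Pool.Agent.R989.Svd
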