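import Mathlib
import Pool.Agent.R989.SvdI

set_option linter.style.haveILetI false

open MeasureTheory ProbabilityTheory Module Filter Matrix
open scoped ENNReal

namespace Pool.Agent.R989.Svd

open Pool.Agent.R989.GauA Pool.Agent.R989.Pinv Pool.Agent.R989.GauH

variable {K : Type*} [RCLike K] {n l d r q : ℕ}

/-- squared Frobenius error of a best approximation of rank at most `q` -/
noncomputable def bestErr (q : ℕ) (A : Matrix (Fin d) (Fin n) K) : ℝ :=
  sInf {e : ℝ | ∃ X : Matrix (Fin d) (Fin n) K, X.rank ≤ q ∧ e = frobSq (A - X)}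

lemma bestErr_le {q : ℕ} {A X : Matrix (Fin d) (Fin n) K} (hX : X.rank ≤ q) :
    bestErr q A ≤ frobSq (A - X) := by
  apply csInf_le
  · refine ⟨0, ?_⟩
    rintro e ⟨Y, _, rfl⟩
    exact frobSq_nonneg _
  · exact ⟨X, hX, rfl⟩

/-- the leading part of the diagonal matrix -/
noncomputable def D1 (K : Type*) [RCLike K] (q r : ℕ) (σ : ℝ) : Matrix (Fin r) (Fin r) K :=
  diagonal (fun i => if (i : ℕ) < q then ((σ : ℝ) : K) else 0)

lemma rank_D1 (q r : ℕ) (σ : ℝ) : (D1 K q r σ).rank ≤ q := by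
  classical
  rw [D1, Matrix.rank_diagonal]
  have h : Fintype.card {i : Fin r // (if (i : ℕ) < q then ((σ : ℝ) : K) else 0) ≠ 0} ≤ Fintype.card (Fin q) := by
    apply Fintype.card_le_of_injective (fun x => (⟨x.1, by
      by_contra h
      exact x.2 (if_neg h)⟩ : Fin q))
    intro x y hxy
    have := congrArg Fin.val hxy
    exact Subtype.ext (Fin.ext this)
  simpa using h

lemma frobSq_D (hq : q ≤ r) (σ : ℝ) : frobSq (Dm K q r σ - D1 K q r σ) = (r : ℝ) - q := by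
  have h1 : Dm K q r σ - D1 K q r σ = diagonal (fun i : Fin r => if (i : ℕ) < q then (0 : K) else 1) := by
    rw [Dm, D1, diagonal_sub]
    congr 1
    funext i
    split_ifs <;> simp
  rw [h1]
  unfold frobSq
  have h2 : ∀ i : Fin r, ∑ j : Fin r, ‖(diagonal (fun i : Fin r => if (i : ℕ) < q then (0 : K) else 1)) i j‖ ^ 2 =
      1 - (if (i : ℕ) < q then (1 : ℝ) else 0) := by
    intro i
    rw [Finset.sum_eq_single i]
    · rw [diagonal_apply_eq]
      split_ifs <;> simp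
    · intro j _ hj
      rw [diagonal_apply_ne _ (Ne.symm hj)]
      simp
    · intro h
      exact absurd (Finset.mem_univ _) h
  simp_rw [h2]
  have h3 : ∑ i : Fin r, (if (i : ℕ) < q then (1 : ℝ) else 0) = q := by
    rw [sum_castLE hq]
    · simp
    · intro j hj
      simp [hj]
  rw [Finset.sum_sub_distrib, h3]
  simp

lemma rank_Dm (q r : ℕ) {σ : ℝ} (hσ : 0 < σ) : (Dm K q r σ).rank = r := by
  classical
  rw [Dm, Matrix.rank_diagonal]
  have h : ∀ i : Fin r, (if (i : ℕ) < q then ((σ : ℝ) : K) else 1) ≠ 0 := by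
    intro i
    split_ifs
    · exact_mod_cast hσ.ne'
    · exact one_ne_zero
  simp [h]

lemma rank_UDY {U : Matrix (Fin d) (Fin r) K} {Y : Matrix (Fin r) (Fin n) K} (hU : Uᴴ * U = 1)
    (hY : Y * Yᴴ = 1) {σ : ℝ} (hσ : 0 < σ) : (U * (Dm K q r σ * Y)).rank = r := by
  apply le_antisymm
  · calc (U * (Dm K q r σ * Y)).rank ≤ U.rank := Matrix.rank_mul_le_left _ _
      _ ≤ r := by simpa using U.rank_le_width
  · have h1 : Uᴴ * (U * (Dm K q r σ * Y)) * Yᴴ = Dm K q r σ := by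
      rw [← Matrix.mul_assoc, hU, Matrix.one_mul, Matrix.mul_assoc, hY, Matrix.mul_one]
    calc r = (Dm K q r σ).rank := (rank_Dm q r hσ).symm
      _ = (Uᴴ * (U * (Dm K q r σ * Y)) * Yᴴ).rank := by rw [h1]
      _ ≤ (Uᴴ * (U * (Dm K q r σ * Y))).rank := Matrix.rank_mul_le_left _ _
      _ ≤ (U * (Dm K q r σ * Y)).rank := Matrix.rank_mul_le_right _ _

lemma bestErr_UDY (hq : q ≤ r) {U : Matrix (Fin d) (Fin r) K} {Y : Matrix (Fin r) (Fin n) K} (hU : Uᴴ * U = 1)
    (hY : Y * Yᴴ = 1) (σ : ℝ) : bestErr q (U * (Dm K q r σ * Y)) ≤ (r : ℝ) - q := by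
  have h1 : (U * (D1 K q r σ * Y)).rank ≤ q :=
    calc (U * (D1 K q r σ * Y)).rank ≤ (D1 K q r σ * Y).rank := Matrix.rank_mul_le_right _ _
      _ ≤ (D1 K q r σ).rank := Matrix.rank_mul_le_left _ _
      _ ≤ q := rank_D1 q r σ
  refine (bestErr_le h1).trans (le_of_eq ?_)
  rw [← Matrix.mul_sub, ← Matrix.sub_mul, frobSq_left hU, frobSq_right hY, frobSq_D hq]

lemma Y_isom (hrn : r ≤ n) (M : UG K n) :
    ((emb K n r)ᴴ * (M : Matrix (Fin n) (Fin n) K)ᴴ) * ((emb K n r)ᴴ * (M : Matrix (Fin n) (Fin n) K)ᴴ)ᴴ = 1 := by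
  rw [conjTranspose_mul, conjTranspose_conjTranspose, conjTranspose_conjTranspose]
  have hM : (M : Matrix (Fin n) (Fin n) K)ᴴ * (M : Matrix (Fin n) (Fin n) K) = 1 :=
    Matrix.mem_unitaryGroup_iff'.mp M.2
  calc (emb K n r)ᴴ * (M : Matrix (Fin n) (Fin n) K)ᴴ * ((M : Matrix (Fin n) (Fin n) K) * emb K n r)
      = (emb K n r)ᴴ * ((M : Matrix (Fin n) (Fin n) K)ᴴ * (M : Matrix (Fin n) (Fin n) K)) * emb K n r := by
        simp only [Matrix.mul_assoc]
    _ = 1 := by rw [hM, Matrix.mul_one, emb_isom hrn]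

lemma U_isom (hrd : r ≤ d) (H : UG K r) :
    (emb K d r * (H : Matrix (Fin r) (Fin r) K)ᴴ)ᴴ * (emb K d r * (H : Matrix (Fin r) (Fin r) K)ᴴ) = 1 := by
  rw [conjTranspose_mul, conjTranspose_conjTranspose]
  have hH : (H : Matrix (Fin r) (Fin r) K) * (H : Matrix (Fin r) (Fin r) K)ᴴ = 1 :=
    Matrix.mem_unitaryGroup_iff.mp H.2
  calc (H : Matrix (Fin r) (Fin r) K) * (emb K d r)ᴴ * (emb K d r * (H : Matrix (Fin r) (Fin r) K)ᴴ)
      = (H : Matrix (Fin r) (Fin r) K) * ((emb K d r)ᴴ * emb K d r) * (H : Matrix (Fin r) (Fin r) K)ᴴ := by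
        simp only [Matrix.mul_assoc]
    _ = 1 := by rw [emb_isom hrd, Matrix.mul_one, hH]

theorem svd_main (hqr : q ≤ r) (hql : q ≤ l) (hlr : l ≤ r) (hrd : r ≤ d) (hrn : r ≤ n)
    (hm : 2 < finrank ℝ K * (l - q + 1))
    (μ : Measure (Matrix (Fin n) (Fin l) K)) [IsProbabilityMeasure μ] (hμ : ∀ᵐ Ω ∂μ, Ω.rank = l)
    (ALG : Matrix (Fin n) (Fin l) K → Matrix (Fin d) (Fin l) K → Matrix (Fin n) (Fin l) K →
      Matrix (Fin d) (Fin n) K)
    (hALG : Measurable fun p : Matrix (Fin n) (Fin l) K × Matrix (Fin d) (Fin l) K × Matrix (Fin n) (Fin l) K =>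
      ALG p.1 p.2.1 p.2.2)
    (s : ℝ≥0∞)
    (hs : ∀ A : Matrix (Fin d) (Fin n) K, A.rank = r →
      ∫⁻ Ω, ENNReal.ofReal (frobSq (A - ALG Ω (A * Ω) (Aᴴ * A * Ω))) ∂μ ≤ s * ENNReal.ofReal (bestErr q A)) :
    ((r - l : ℕ) : ℝ≥0∞) + (q : ℝ≥0∞) * (((finrank ℝ K * (r - l) : ℕ) : ℝ≥0∞) *
      ENNReal.ofReal (1 / (((finrank ℝ K * (l - q + 1) : ℕ) : ℝ) - 2))) ≤
    s * ENNReal.ofReal ((r : ℝ) - q) := by
  refine (cbar_liminf hqr hql hlr hm).trans ?_
  have key : ∀ k : ℕ, cbar K l r q k ≤ s * ENNReal.ofReal ((r : ℝ) - q) := by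
    intro k
    have hσ : (0 : ℝ) < (k : ℝ) + 1 := by positivity
    set σ : ℝ := (k : ℝ) + 1 with hσdef
    set AA : UG K n → UG K r → Matrix (Fin d) (Fin n) K := fun M H =>
      emb K d r * (H : Matrix (Fin r) (Fin r) K)ᴴ * (Dm K q r σ * ((emb K n r)ᴴ *
        (M : Matrix (Fin n) (Fin n) K)ᴴ)) with hAA
    -- upper bound
    have hup : ∫⁻ M, ∫⁻ H, ∫⁻ Ω, ENNReal.ofReal (frobSq (AA M H - ALG Ω (AA M H * Ω)
        ((AA M H)ᴴ * (AA M H) * Ω))) ∂μ ∂(haarU K r) ∂(haarU K n) ≤ s * ENNReal.ofReal ((r : ℝ) - q) := by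
      have hconst : s * ENNReal.ofReal ((r : ℝ) - q) = ∫⁻ _M : UG K n, (∫⁻ _H : UG K r,
          s * ENNReal.ofReal ((r : ℝ) - q) ∂(haarU K r)) ∂(haarU K n) := by simp
      rw [hconst]
      apply lintegral_mono
      intro M
      apply lintegral_mono
      intro H
      have h1 : (AA M H).rank = r := rank_UDY (U_isom hrd H) (Y_isom hrn M) hσ
      exact (hs _ h1).trans (mul_le_mul' le_rfl
        (ENNReal.ofReal_le_ofReal (bestErr_UDY hqr (U_isom hrd H) (Y_isom hrn M) σ)))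
    -- joint measurability
    have hmA : Measurable (fun p : (UG K n × UG K r) => AA p.1 p.2) := by
      apply meas_mul
      · exact meas_mul measurable_const (meas_conjT (meas_coe.comp measurable_snd))
      · apply meas_mul measurable_const
        exact meas_mul measurable_const (meas_conjT (meas_coe.comp measurable_fst))
    have hmF : Measurable (fun p : (UG K n × UG K r) × Matrix (Fin n) (Fin l) K =>
        ENNReal.ofReal (frobSq (AA p.1.1 p.1.2 - ALG p.2 (AA p.1.1 p.1.2 * p.2)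
          ((AA p.1.1 p.1.2)ᴴ * (AA p.1.1 p.1.2) * p.2)))) := by
      have h1 : Measurable (fun p : (UG K n × UG K r) × Matrix (Fin n) (Fin l) K => AA p.1.1 p.1.2) :=
        hmA.comp measurable_fst
      have h2 : Measurable (fun p : (UG K n × UG K r) × Matrix (Fin n) (Fin l) K => AA p.1.1 p.1.2 * p.2) :=
        meas_mul h1 measurable_snd
      have h3 : Measurable (fun p : (UG K n × UG K r) × Matrix (Fin n) (Fin l) K =>
          (AA p.1.1 p.1.2)ᴴ * (AA p.1.1 p.1.2) * p.2) :=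
        meas_mul (meas_mul (meas_conjT h1) h1) measurable_snd
      have h4 : Measurable (fun p : (UG K n × UG K r) × Matrix (Fin n) (Fin l) K =>
          ALG p.2 (AA p.1.1 p.1.2 * p.2) ((AA p.1.1 p.1.2)ᴴ * (AA p.1.1 p.1.2) * p.2)) :=
        hALG.comp (measurable_snd.prodMk (h2.prodMk h3))
      exact ENNReal.measurable_ofReal.comp (cont_frobSq.measurable.comp (meas_sub h1 h4))
    -- swap
    have hswap : ∫⁻ M, ∫⁻ H, ∫⁻ Ω, ENNReal.ofReal (frobSq (AA M H - ALG Ω (AA M H * Ω)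
        ((AA M H)ᴴ * (AA M H) * Ω))) ∂μ ∂(haarU K r) ∂(haarU K n) =
        ∫⁻ Ω, ∫⁻ M, ∫⁻ H, ENNReal.ofReal (frobSq (AA M H - ALG Ω (AA M H * Ω)
        ((AA M H)ᴴ * (AA M H) * Ω))) ∂(haarU K r) ∂(haarU K n) ∂μ := by
      have e1 : ∫⁻ M, ∫⁻ H, ∫⁻ Ω, ENNReal.ofReal (frobSq (AA M H - ALG Ω (AA M H * Ω)
        ((AA M H)ᴴ * (AA M H) * Ω))) ∂μ ∂(haarU K r) ∂(haarU K n) =
          ∫⁻ p : UG K n × UG K r, ∫⁻ Ω, ENNReal.ofReal (frobSq (AA p.1 p.2 - ALG Ω (AA p.1 p.2 * Ω)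
        ((AA p.1 p.2)ᴴ * (AA p.1 p.2) * Ω))) ∂μ ∂((haarU K n).prod (haarU K r)) := by
        rw [lintegral_prod]
        exact (hmF.lintegral_prod_right').aemeasurable
      rw [e1, lintegral_lintegral_swap hmF.aemeasurable]
      apply lintegral_congr
      intro Ω
      rw [lintegral_prod]
      exact (hmF.comp (measurable_id.prodMk measurable_const)).aemeasurable
    rw [hswap] at hup
    refine le_trans ?_ hup
    calc cbar K l r q k = ∫⁻ _Ω, cbar K l r q k ∂μ := by simp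
      _ ≤ _ := by
        apply lintegral_mono_ae
        filter_upwards [hμ] with Ω hΩ
        have hf : Measurable (fun p : Matrix (Fin d) (Fin l) K × Matrix (Fin n) (Fin l) K => ALG Ω p.1 p.2) :=
          hALG.comp (measurable_const.prodMk measurable_id)
        calc cbar K l r q k = ∫⁻ M : UG K n, ENNReal.ofReal (Phi q σ (colSpan (Dm K q r σ * ((emb K n r)ᴴ *
              (M : Matrix (Fin n) (Fin n) K)ᴴ) * Ω))) ∂(haarU K n) :=
              (haar_to_gauss hrn (by omega) q σ hΩ).symm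
          _ ≤ _ := by
              apply lintegral_mono
              intro M
              have hb := bayesU hrd q σ (Y_isom hrn M) Ω hf
              simp only at hb
              simp only [hAA]
              exact hb
  calc liminf (fun k : ℕ => cbar K l r q k) atTop ≤
      liminf (fun _k : ℕ => s * ENNReal.ofReal ((r : ℝ) - q)) atTop :=
        liminf_le_liminf (Eventually.of_forall key)
    _ = _ := by simp

end Pool.Agent.R989.Svd
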