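import Mathlib
import Pool.Agent.R989.SvdJ

open MeasureTheory ProbabilityTheory Module Filter Matrix
open scoped ENNReal

namespace Pool.Agent.R989.Svd

open Pool.Agent.R989.GauA Pool.Agent.R989.Pinv Pool.Agent.R989.GauH

variable {K : Type*} [RCLike K] {n l d r q : ℕ}

lemma norm_mulVec_sq_le (M : Matrix (Fin d) (Fin n) K) (v : EuclideanSpace K (Fin n)) :
    ‖Matrix.toEuclideanLin M v‖ ^ 2 ≤ frobSq M * ‖v‖ ^ 2 := by
  rw [EuclideanSpace.norm_sq_eq, EuclideanSpace.norm_sq_eq, frobSq, Finset.sum_mul]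
  apply Finset.sum_le_sum
  intro i _
  have h1 : ‖(Matrix.toEuclideanLin M v) i‖ ≤ ∑ j, ‖M i j‖ * ‖v j‖ := by
    have h2 : (Matrix.toEuclideanLin M v) i = ∑ j, M i j * v j := rfl
    rw [h2]
    refine (norm_sum_le _ _).trans (le_of_eq ?_)
    apply Finset.sum_congr rfl
    intro j _
    rw [norm_mul]
  calc ‖(Matrix.toEuclideanLin M v) i‖ ^ 2 ≤ (∑ j, ‖M i j‖ * ‖v j‖) ^ 2 := by gcongr
    _ ≤ (∑ j, ‖M i j‖ ^ 2) * ∑ j, ‖v j‖ ^ 2 := Finset.sum_mul_sq_le_sq_mul_sq _ _ _

lemma finrank_range_toLin (A : Matrix (Fin d) (Fin n) K) :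
    finrank K (LinearMap.range (Matrix.toEuclideanLin A)) = A.rank := by
  have h : LinearMap.range (Matrix.toEuclideanLin A) = colSpan A := by
    ext y
    rw [mem_colSpan_iff, LinearMap.mem_range]
    constructor
    · rintro ⟨x, rfl⟩
      exact ⟨x.ofLp, rfl⟩
    · rintro ⟨w, rfl⟩
      exact ⟨WithLp.toLp 2 w, rfl⟩
  rw [h, finrank_colSpan]

/-- the best error is positive for matrices of larger rank -/
theorem bestErr_pos {A : Matrix (Fin d) (Fin n) K} (h : q < A.rank) : 0 < bestErr q A := by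
  set T := Matrix.toEuclideanLin A with hT
  set V := (LinearMap.ker T)ᗮ with hV
  have hVr : finrank K V = A.rank := by
    have h1 := LinearMap.finrank_range_add_finrank_ker T
    have h2 := Submodule.finrank_add_finrank_orthogonal (LinearMap.ker T)
    have h3 := finrank_range_toLin A
    rw [← hT] at h3
    rw [hV]
    omega
  have hker : LinearMap.ker (T.domRestrict V) = ⊥ := by
    rw [LinearMap.ker_eq_bot']
    intro v hv
    have h1 : (v : EuclideanSpace K (Fin n)) ∈ LinearMap.ker T := hv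
    have h2 : (v : EuclideanSpace K (Fin n)) ∈ (LinearMap.ker T)ᗮ := v.2
    have h3 : inner K (v : EuclideanSpace K (Fin n)) (v : EuclideanSpace K (Fin n)) = 0 :=
      Submodule.inner_right_of_mem_orthogonal h1 h2
    exact Subtype.ext (inner_self_eq_zero.mp h3)
  obtain ⟨c, hc, hanti⟩ := LinearMap.exists_antilipschitzWith (T.domRestrict V) hker
  have hcpos : (0 : ℝ) < (c : ℝ) := by exact_mod_cast hc
  have hlow : ∀ X : Matrix (Fin d) (Fin n) K, X.rank ≤ q → ((c : ℝ)⁻¹) ^ 2 ≤ frobSq (A - X) := by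
    intro X hX
    have h1 := LinearMap.finrank_range_add_finrank_ker ((Matrix.toEuclideanLin X).domRestrict V)
    have h2 : finrank K (LinearMap.range ((Matrix.toEuclideanLin X).domRestrict V)) ≤ X.rank := by
      rw [← finrank_range_toLin]
      apply Submodule.finrank_mono
      rintro y ⟨x, rfl⟩
      exact ⟨x, rfl⟩
    have h3 : 0 < finrank K (LinearMap.ker ((Matrix.toEuclideanLin X).domRestrict V)) := by omega
    rw [Module.finrank_pos_iff, Submodule.nontrivial_iff_ne_bot, Submodule.ne_bot_iff] at h3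
    obtain ⟨v, hv, hv0⟩ := h3
    have h4 : Matrix.toEuclideanLin X (v : EuclideanSpace K (Fin n)) = 0 := hv
    have h5 : ‖(v : EuclideanSpace K (Fin n))‖ ≤ c * ‖T (v : EuclideanSpace K (Fin n))‖ := by
      have := hanti.le_mul_dist v 0
      simpa using this
    have h6 : Matrix.toEuclideanLin (A - X) (v : EuclideanSpace K (Fin n)) = T (v : EuclideanSpace K (Fin n)) := by
      rw [map_sub, LinearMap.sub_apply, h4, sub_zero]
    have h7 := norm_mulVec_sq_le (A - X) (v : EuclideanSpace K (Fin n))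
    rw [h6] at h7
    have hvn : 0 < ‖(v : EuclideanSpace K (Fin n))‖ := by
      rw [norm_pos_iff]
      intro h
      exact hv0 (Subtype.ext h)
    have h8 : ‖(v : EuclideanSpace K (Fin n))‖ ^ 2 ≤ (c : ℝ) ^ 2 * ‖T (v : EuclideanSpace K (Fin n))‖ ^ 2 := by
      rw [← mul_pow]
      gcongr
    have h9 : ‖(v : EuclideanSpace K (Fin n))‖ ^ 2 * 1 ≤
        ‖(v : EuclideanSpace K (Fin n))‖ ^ 2 * ((c : ℝ) ^ 2 * frobSq (A - X)) := by
      calc ‖(v : EuclideanSpace K (Fin n))‖ ^ 2 * 1 ≤ (c : ℝ) ^ 2 * ‖T (v : EuclideanSpace K (Fin n))‖ ^ 2 := by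
            rw [mul_one]; exact h8
        _ ≤ (c : ℝ) ^ 2 * (frobSq (A - X) * ‖(v : EuclideanSpace K (Fin n))‖ ^ 2) := by gcongr
        _ = _ := by ring
    have h10 := le_of_mul_le_mul_left h9 (by positivity)
    rw [inv_pow, inv_le_iff_one_le_mul₀ (by positivity)]
    linarith
  have : ((c : ℝ)⁻¹) ^ 2 ≤ bestErr q A := by
    apply le_csInf
    · exact ⟨frobSq (A - 0), 0, by simp, rfl⟩
    · rintro e ⟨X, hX, rfl⟩
      exact hlow X hX
  exact lt_of_lt_of_le (by positivity) this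

end Pool.Agent.R989.Svd
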