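import Pool.Agent.TH294.RG.Gen
import Pool.Agent.TH294.RG.Psd2

/-!
Third order moments (helper989): algebra of the third order moments and the weights.
-/

set_option autoImplicit false
open MeasureTheory Filter Topology Complex

namespace Pool.Agent.R989.Th3

noncomputable section

/-- the third order moment of three unit waves at angles `2π/3` -/
def tt (a b c : ℤ) : ℝ :=
  if a % 3 = b % 3 ∧ b % 3 = c % 3 then 1 else if (a + b + c) % 3 = 0 then -(1 / 2) else 0

/-- the weights -/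
def th (j : ℕ) : ℝ := if j % 3 = 0 then 1 else -(1 / 2)

lemma alg3 (T : ℤ → ℤ → ℤ → ℂ) (s12 : ∀ a b c, T a b c = T b a c)
    (s23 : ∀ a b c, T a b c = T a c b)
    (up : ∀ a b c, T (a + 1) b c + T a (b + 1) c + T a b (c + 1) = 0)
    (dn : ∀ a b c, T (a - 1) b c + T a (b - 1) c + T a b (c - 1) = 0) (a b c : ℤ) :
    T a b c = (tt a b c : ℂ) * T (a + b + c) 0 0 := by
  have rel : ∀ a b c, T a b c + T (a + 1) (b - 1) c + T (a - 1) (b + 1) c = 0 := by
    intro a b c
    have h1 := dn (a + 1) b c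
    have h2 := dn a (b + 1) c
    have h3 := up a b (c - 1)
    rw [add_sub_cancel_right] at h1 h2
    rw [sub_add_cancel] at h3
    linear_combination h1 + h2 - h3
  have per : ∀ a b c, T (a + 3) (b - 3) c = T a b c := by
    intro a b c
    have h1 := rel (a + 1) (b - 1) c
    have h2 := rel (a + 2) (b - 2) c
    rw [show a + 1 + 1 = a + 2 by ring, show b - 1 - 1 = b - 2 by ring, add_sub_cancel_right,
      sub_add_cancel] at h1
    rw [show a + 2 + 1 = a + 3 by ring, show b - 2 - 1 = b - 3 by ring,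
      show a + 2 - 1 = a + 1 by ring, show b - 2 + 1 = b - 1 by ring] at h2
    linear_combination h2 - h1
  have per' : ∀ a b c, T (a + 3) b (c - 3) = T a b c := by
    intro a b c
    rw [s23, per, s23]
  have main : ∀ s : ℤ, ∀ b c : ℤ, T (s - b - c) b c = T (s - b % 3 - c % 3) (b % 3) (c % 3) := by
    intro s
    have pb : ∀ c, Function.Periodic (fun b => T (s - b - c) b c) 3 := by
      intro c b
      show T (s - (b + 3) - c) (b + 3) c = T (s - b - c) b c
      rw [← per (s - (b + 3) - c) (b + 3) c]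
      congr 1 <;> ring
    have pc : ∀ b, Function.Periodic (fun c => T (s - b - c) b c) 3 := by
      intro b c
      show T (s - b - (c + 3)) b (c + 3) = T (s - b - c) b c
      rw [← per' (s - b - (c + 3)) b (c + 3)]
      congr 1 <;> ring
    intro b c
    have h1 := (pb c).sub_int_mul_eq (b / 3) (x := b)
    have h2 := (pc (b % 3)).sub_int_mul_eq (c / 3) (x := c)
    have e1 : b - b / 3 * 3 = b % 3 := by omega
    have e2 : c - c / 3 * 3 = c % 3 := by omega
    simp only [Int.cast_id, e1, e2] at h1 h2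
    rw [← h1, ← h2]
  -- values
  have vals : ∀ s : ℤ, T (s - 1 - 0) 1 0 = -(1 / 2) * T s 0 0 ∧
      T (s - 2 - 0) 2 0 = -(1 / 2) * T s 0 0 ∧ T (s - 1 - 1) 1 1 = T s 0 0 ∧
      T (s - 2 - 2) 2 2 = T s 0 0 ∧ T (s - 1 - 2) 1 2 = -(1 / 2) * T s 0 0 := by
    intro s
    have r1 := rel (s - 1 - 0) 1 0
    rw [show s - 1 - 0 + 1 = s by ring, show s - 1 - 0 - 1 = s - 2 - 0 by ring,
      show (1 : ℤ) - 1 = 0 by ring, show (1 : ℤ) + 1 = 2 by ring] at r1
    -- relation between the last two entries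
    have rel' : ∀ a b c, T a b c + T a (b + 1) (c - 1) + T a (b - 1) (c + 1) = 0 := by
      intro a b c
      have := rel b c a
      rw [s12 b c a, s23 c b a, s12 c a b, s23 a c b, s12 (b + 1) (c - 1) a,
        s23 (c - 1) (b + 1) a, s12 (c - 1) a (b + 1), s23 a (c - 1) (b + 1),
        s12 (b - 1) (c + 1) a, s23 (c + 1) (b - 1) a, s12 (c + 1) a (b - 1),
        s23 a (c + 1) (b - 1)] at this
      exact this
    have q1 := rel' (s - 1 - 2) 1 2
    rw [show (1 : ℤ) + 1 = 2 by ring, show (2 : ℤ) - 1 = 1 by ring,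
      show (1 : ℤ) - 1 = 0 by ring, show (2 : ℤ) + 1 = 3 by ring, s23 (s - 1 - 2) 2 1] at q1
    have q2 := main s 0 3
    norm_num at q2
    rw [show s - 1 - 2 = s - 3 by ring, q2] at q1
    have q3 := rel' (s - 2) 1 1
    rw [show (1 : ℤ) + 1 = 2 by ring, show (1 : ℤ) - 1 = 0 by ring, s23 (s - 2) 0 2] at q3
    have q4 := rel (s - 1 - 1) 1 1
    rw [show s - 1 - 1 + 1 = s - 1 by ring, show s - 1 - 1 - 1 = s - 3 by ring,
      show (1 : ℤ) - 1 = 0 by ring, show (1 : ℤ) + 1 = 2 by ring, s23 (s - 1) 0 1,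
      s23 (s - 3) 2 1] at q4
    have q5 := rel (s - 2 - 2) 2 2
    rw [show s - 2 - 2 + 1 = s - 3 by ring, show (2 : ℤ) - 1 = 1 by ring,
      show s - 2 - 2 - 1 = s - 3 - 2 by ring, show (2 : ℤ) + 1 = 3 by ring] at q5
    have q6 := main s 3 2
    norm_num at q6
    rw [q6, s23 (s - 2) 0 2] at q5
    rw [show s - 1 - 0 = s - 1 by ring, show s - 2 - 0 = s - 2 by ring] at r1
    rw [show s - 1 - 1 = s - 2 by ring] at q4
    rw [show s - 1 - 0 = s - 1 by ring, show s - 2 - 0 = s - 2 by ring,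
      show s - 1 - 1 = s - 2 by ring, show s - 1 - 2 = s - 3 by ring]
    have w12 : T (s - 3) 1 2 = -(1 / 2) * T s 0 0 := by linear_combination (1 / 2) * q1
    have w10 : T (s - 1) 1 0 = -(1 / 2) * T s 0 0 := by
      linear_combination (2 / 3) * r1 - (1 / 3) * q3 + (1 / 3) * q4 - (1 / 3) * w12
    have w20 : T (s - 2) 2 0 = -(1 / 2) * T s 0 0 := by linear_combination r1 - w10
    refine ⟨w10, w20, ?_, ?_, w12⟩
    · linear_combination q3 - 2 * w20
    · linear_combination q5 - w12 - w20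
  have zero : ∀ s : ℤ, s % 3 ≠ 0 → T s 0 0 = 0 := by
    intro s hs
    have h1 : T s 0 0 = T (s - s - 0) s 0 := by
      rw [s12 s 0 0, show s - s - 0 = 0 by ring]
    have h2 := main s s 0
    obtain ⟨v1, v2, -, -, -⟩ := vals s
    rw [← h1] at h2
    have h3 : s % 3 = 1 ∨ s % 3 = 2 := by omega
    rcases h3 with h3 | h3
    · rw [h3, Int.zero_emod, v1] at h2
      linear_combination (2 / 3) * h2
    · rw [h3, Int.zero_emod, v2] at h2
      linear_combination (2 / 3) * h2
  have h0 := main (a + b + c) b c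
  rw [show a + b + c - b - c = a by ring] at h0
  obtain ⟨s, hs⟩ : ∃ s, s = a + b + c := ⟨_, rfl⟩
  rw [← hs] at h0 ⊢
  obtain ⟨v1, v2, v3, v4, v5⟩ := vals s
  by_cases hs3 : s % 3 = 0
  · have hb : b % 3 = 0 ∨ b % 3 = 1 ∨ b % 3 = 2 := by omega
    have hc : c % 3 = 0 ∨ c % 3 = 1 ∨ c % 3 = 2 := by omega
    have eq1 : b % 3 = c % 3 → tt a b c = 1 := by
      intro h
      unfold tt
      rw [if_pos ⟨by omega, h⟩]
    have ne1 : b % 3 ≠ c % 3 → tt a b c = -(1 / 2) := by
      intro h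
      unfold tt
      rw [if_neg (by tauto), if_pos (by omega)]
    rcases hb with hb | hb | hb <;> rcases hc with hc | hc | hc
    · rw [hb, hc, show s - 0 - 0 = s by ring] at h0
      rw [h0, eq1 (by omega)]; push_cast; ring
    · rw [hb, hc, s23 (s - 0 - 1) 0 1, show s - 0 - 1 = s - 1 - 0 by ring, v1] at h0
      rw [h0, ne1 (by omega)]; push_cast; ring
    · rw [hb, hc, s23 (s - 0 - 2) 0 2, show s - 0 - 2 = s - 2 - 0 by ring, v2] at h0
      rw [h0, ne1 (by omega)]; push_cast; ring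
    · rw [hb, hc, v1] at h0
      rw [h0, ne1 (by omega)]; push_cast; ring
    · rw [hb, hc, v3] at h0
      rw [h0, eq1 (by omega)]; push_cast; ring
    · rw [hb, hc, v5] at h0
      rw [h0, ne1 (by omega)]; push_cast; ring
    · rw [hb, hc, v2] at h0
      rw [h0, ne1 (by omega)]; push_cast; ring
    · rw [hb, hc, s23 (s - 2 - 1) 2 1, show s - 2 - 1 = s - 1 - 2 by ring, v5] at h0
      rw [h0, ne1 (by omega)]; push_cast; ring
    · rw [hb, hc, v4] at h0
      rw [h0, eq1 (by omega)]; push_cast; ring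
  · have hz := zero s hs3
    rw [hz, mul_zero] at v1 v2 v5
    rw [hz] at v3 v4 ⊢
    have hb : b % 3 = 0 ∨ b % 3 = 1 ∨ b % 3 = 2 := by omega
    have hc : c % 3 = 0 ∨ c % 3 = 1 ∨ c % 3 = 2 := by omega
    rw [mul_zero]
    rcases hb with hb | hb | hb <;> rcases hc with hc | hc | hc
    · rw [hb, hc, show s - 0 - 0 = s by ring] at h0
      rw [h0, hz]
    · rw [hb, hc, s23 (s - 0 - 1) 0 1, show s - 0 - 1 = s - 1 - 0 by ring, v1] at h0
      exact h0
    · rw [hb, hc, s23 (s - 0 - 2) 0 2, show s - 0 - 2 = s - 2 - 0 by ring, v2] at h0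
      exact h0
    · rw [hb, hc, v1] at h0
      exact h0
    · rw [hb, hc, v3] at h0
      exact h0
    · rw [hb, hc, v5] at h0
      exact h0
    · rw [hb, hc, v2] at h0
      exact h0
    · rw [hb, hc, s23 (s - 2 - 1) 2 1, show s - 2 - 1 = s - 1 - 2 by ring, v5] at h0
      exact h0
    · rw [hb, hc, v4] at h0
      exact h0

lemma tt_le (a b c : ℤ) : |tt a b c| ≤ 1 := by
  unfold tt
  split_ifs <;> norm_num

lemma tt_th {s : ℤ} (hs : s % 3 = 0) (j : ℕ) : tt s j (-j) = th j := by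
  unfold tt th
  by_cases hj : j % 3 = 0
  · rw [if_pos (by omega), if_pos hj]
  · rw [if_neg (by omega), if_pos (by omega), if_neg hj]

lemma tt_zero {s : ℤ} (hs : s % 3 ≠ 0) : tt s 0 0 = 0 := by
  unfold tt
  rw [if_neg (by omega), if_neg (by omega)]

lemma th_bd (j : ℕ) : |th j| ≤ 1 := by
  unfold th
  split_ifs <;> norm_num

/-- sums over complete periods -/
lemma per6 (f : ℕ → ℝ) (hf : ∀ j, f (j + 6) = f j) (N : ℕ) :
    ∑ j ∈ Finset.Icc 1 (6 * N), f j = N * (f 1 + f 2 + f 3 + f 4 + f 5 + f 6) := by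
  have hp : ∀ i N : ℕ, f (6 * N + i) = f i := by
    intro i N
    induction N with
    | zero => simp
    | succ N ih =>
      rw [show 6 * (N + 1) + i = (6 * N + i) + 6 by ring, hf, ih]
  induction N with
  | zero => simp
  | succ N ih =>
    rw [show 6 * (N + 1) = 6 * N + 1 + 1 + 1 + 1 + 1 + 1 by ring,
      Finset.sum_Icc_succ_top (by omega), Finset.sum_Icc_succ_top (by omega),
      Finset.sum_Icc_succ_top (by omega), Finset.sum_Icc_succ_top (by omega),
      Finset.sum_Icc_succ_top (by omega), Finset.sum_Icc_succ_top (by omega), ih]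
    rw [show 6 * N + 1 + 1 = 6 * N + 2 by ring, show 6 * N + 2 + 1 = 6 * N + 3 by ring,
      show 6 * N + 3 + 1 = 6 * N + 4 by ring, show 6 * N + 4 + 1 = 6 * N + 5 by ring,
      show 6 * N + 5 + 1 = 6 * N + 6 by ring, hp, hp, hp, hp, hp, hp]
    push_cast; ring

lemma th6 (j : ℕ) : th (j + 6) = th j := by
  unfold th
  rw [show (j + 6) % 3 = j % 3 by omega]

lemma th_vals : th 1 = -(1 / 2) ∧ th 2 = -(1 / 2) ∧ th 3 = 1 ∧ th 4 = -(1 / 2) ∧
    th 5 = -(1 / 2) ∧ th 6 = 1 := by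
  unfold th
  norm_num

lemma sum_th (N : ℕ) : ∑ j ∈ Finset.Icc 1 (6 * N), th j = 0 := by
  rw [per6 th th6]
  obtain ⟨e1, e2, e3, e4, e5, e6⟩ := th_vals
  rw [e1, e2, e3, e4, e5, e6]; ring

lemma sum_thm (N : ℕ) : ∑ j ∈ Finset.Icc 1 (6 * N), (-1) ^ j * th j = 0 := by
  rw [per6 (fun j => (-1) ^ j * th j) (fun j => by
    rw [th6, pow_add]; norm_num)]
  obtain ⟨e1, e2, e3, e4, e5, e6⟩ := th_vals
  rw [e1, e2, e3, e4, e5, e6]; norm_num

lemma sum_th2 (N : ℕ) : ∑ j ∈ Finset.Icc 1 (6 * N), th j * th j = 3 * N := by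
  rw [per6 (fun j => th j * th j) (fun j => by rw [th6])]
  obtain ⟨e1, e2, e3, e4, e5, e6⟩ := th_vals
  rw [e1, e2, e3, e4, e5, e6]; norm_num; ring

end

end Pool.Agent.R989.Th3
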