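import Pool.Agent.R989.T3a

/-!
Third order moments (helper989): the third order moments of an approximate ladder system.
-/

set_option autoImplicit false
open MeasureTheory Filter Topology Complex
open scoped ContDiff

namespace Pool.Agent.R989.Th3

open Pool.Agent.W745.RW Pool.Agent.TH294.RS Pool.Agent.TH294.RG

noncomputable section

variable {B : Set ℂ} {a : ℂ → ℝ} {h : ℕ → ℝ} {w : ℤ → ℕ → ℂ → ℂ} {M : ℕ → ℂ → ℂ}

/-- products of three -/
def F3 (w : ℤ → ℕ → ℂ → ℂ) (i j k : ℤ) (n : ℕ) (z : ℂ) : ℂ := w i n z * w j n z * w k n z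

/-- the first translation relation -/
lemma tr3 (H : AG B a h w M) (hB : IsOpen B) (i j k : ℤ) :
    WN B (fun n z => F3 w (i + 1) j k n z + F3 w i (j + 1) k n z + F3 w i j (k + 1) n z) := by
  obtain ⟨e1, he1, g1⟩ := H.up i
  obtain ⟨e2, he2, g2⟩ := H.up j
  obtain ⟨e3, he3, g3⟩ := H.up k
  have lo : ∀ k, LB B 2 (w k) := fun k => (H.bd k).low (p := 2)
  have l1 : LB B 1 (fun n z => (w i n z * w j n z) * w k n z) :=
    ((H.bd i).mul4 (H.bd j)).mul2 (lo k)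
  have l2 : LB B 1 (fun n z => (e1 n z * w j n z) * w k n z +
      (w i n z * e2 n z) * w k n z + (w i n z * w j n z) * e3 n z) :=
    ((((he1.mul4 (H.bd j)).mul2 (lo k))).add
      (((H.bd i).mul4 he2).mul2 (lo k))).add
      (((H.bd i).mul4 (H.bd j)).mul2 (he3.low (p := 2)))
  refine ((l1.wnP hB H.hlim H.sa).sub (l2.wn H.hlim)).congr fun n z hz => ?_
  have c1 := g1 n z hz
  have c2 := g2 n z hz
  have c3 := g3 n z hz
  have d1 := da hB ((H.bd i).sm n) hz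
  have d2 := da hB ((H.bd j).sm n) hz
  have d3 := da hB ((H.bd k).sm n) hz
  simp only [DP, F3] at c1 c2 c3 ⊢
  rw [dd_mul (f := fun z => w i n z * w j n z) (g := w k n) (d1.mul d2) d3, dd_mul d1 d2]
  linear_combination (-(w j n z * w k n z)) * c1 - (w i n z * w k n z) * c2
    - (w i n z * w j n z) * c3

/-- the second translation relation -/
lemma tr3' (H : AG B a h w M) (hB : IsOpen B) (i j k : ℤ) :
    WN B (fun n z => F3 w (i - 1) j k n z + F3 w i (j - 1) k n z + F3 w i j (k - 1) n z) := by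
  obtain ⟨e1, he1, g1⟩ := H.dn i
  obtain ⟨e2, he2, g2⟩ := H.dn j
  obtain ⟨e3, he3, g3⟩ := H.dn k
  have lo : ∀ k, LB B 2 (w k) := fun k => (H.bd k).low (p := 2)
  have l1 : LB B 1 (fun n z => (w i n z * w j n z) * w k n z) :=
    ((H.bd i).mul4 (H.bd j)).mul2 (lo k)
  have l2 : LB B 1 (fun n z => (e1 n z * w j n z) * w k n z +
      (w i n z * e2 n z) * w k n z + (w i n z * w j n z) * e3 n z) :=
    ((((he1.mul4 (H.bd j)).mul2 (lo k))).add
      (((H.bd i).mul4 he2).mul2 (lo k))).add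
      (((H.bd i).mul4 (H.bd j)).mul2 (he3.low (p := 2)))
  refine ((l2.wn H.hlim).sub (l1.wnM hB H.hlim H.sa)).congr fun n z hz => ?_
  have c1 := g1 n z hz
  have c2 := g2 n z hz
  have c3 := g3 n z hz
  have d1 := da hB ((H.bd i).sm n) hz
  have d2 := da hB ((H.bd j).sm n) hz
  have d3 := da hB ((H.bd k).sm n) hz
  simp only [DM, F3] at c1 c2 c3 ⊢
  rw [db_mul (f := fun z => w i n z * w j n z) (g := w k n) (d1.mul d2) d3, db_mul d1 d2]
  linear_combination ((w j n z * w k n z)) * c1 + (w i n z * w k n z) * c2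
    + (w i n z * w j n z) * c3

lemma F3_co (H : AG B a h w M) (i j k : ℤ) (n : ℕ) : ContinuousOn (F3 w i j k n) B :=
  (((H.bd i).co n).mul ((H.bd j).co n)).mul ((H.bd k).co n)

lemma F3_int (H : AG B a h w M) {φ : ℂ → ℝ} (hφ : TF B φ) (i j k : ℤ) (n : ℕ) :
    Integrable (fun z => (φ z : ℂ) * F3 w i j k n z) := TF.cint hφ (F3_co H i j k n)

lemma add3 {f g k : ℂ → ℂ} (hf : Integrable f) (hg : Integrable g) (hk : Integrable k) :
    (∫ z, f z) + (∫ z, g z) + (∫ z, k z) = ∫ z, (f z + g z + k z) := by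
  have e1 := integral_add hf hg
  have e2 := integral_add (hf.add hg) hk
  simp only [Pi.add_apply] at e1 e2
  rw [e2, e1]

/-- third order moments along an ultrafilter -/
theorem U3 (H : AG B a h w M) (hB : IsOpen B) {φ : ℂ → ℝ} (hφ : TF B φ) (U : Ultrafilter ℕ)
    (hU : (U : Filter ℕ) ≤ atTop) : ∃ x : ℤ → ℂ, (∀ s, s % 3 ≠ 0 → x s = 0) ∧ ∀ i j k,
    Tendsto (fun n => ∫ z, (φ z : ℂ) * F3 w i j k n z) U
      (𝓝 ((tt i j k : ℂ) * x (i + j + k))) := by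
  have lo : ∀ k, LB B 2 (w k) := fun k => (H.bd k).low (p := 2)
  have ex : ∀ i j k, ∃ L, Tendsto (fun n => ∫ z, (φ z : ℂ) * F3 w i j k n z) U (𝓝 L) := by
    intro i j k
    obtain ⟨C, hC⟩ := (((H.bd i).mul4 (H.bd j)).mul2 (lo k)).bdd hφ
    exact ul_ex U (hU hC)
  choose T hT using ex
  have uq : ∀ {f : ℕ → ℂ} {L L' : ℂ}, Tendsto f U (𝓝 L) → Tendsto f U (𝓝 L') → L = L' :=
    fun h1 h2 => tendsto_nhds_unique h1 h2
  have key := alg3 T
    (fun a b c => uq (hT a b c) ((hT b a c).congr fun n => by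
      congr 1; funext z; simp only [F3]; ring))
    (fun a b c => uq (hT a b c) ((hT a c b).congr fun n => by
      congr 1; funext z; simp only [F3]; ring))
    (fun i j k => uq (((hT _ _ _).add (hT _ _ _)).add (hT _ _ _))
      ((((tr3 H hB i j k).nul φ hφ).mono_left hU).congr fun n => by
        rw [add3 (F3_int H hφ _ _ _ _) (F3_int H hφ _ _ _ _) (F3_int H hφ _ _ _ _)]
        congr 1; funext z; ring))
    (fun i j k => uq (((hT _ _ _).add (hT _ _ _)).add (hT _ _ _))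
      ((((tr3' H hB i j k).nul φ hφ).mono_left hU).congr fun n => by
        rw [add3 (F3_int H hφ _ _ _ _) (F3_int H hφ _ _ _ _) (F3_int H hφ _ _ _ _)]
        congr 1; funext z; ring))
  refine ⟨fun s => T s 0 0, fun s hs => ?_, fun i j k => ?_⟩
  · have := key s 0 0
    rw [tt_zero hs] at this
    simpa using this
  · rw [← key i j k]; exact hT i j k

lemma ep2_v (j k : ℕ) : ep2 (j : ℤ) (-(j : ℤ)) k (-(k : ℤ)) =
    2 / 3 * ((-1) ^ j * (-1) ^ k) + 1 / 3 := by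
  unfold ep2 eps
  rw [if_pos ⟨0, by ring⟩]
  rcases Nat.even_or_odd j with hj | hj <;> rcases Nat.even_or_odd k with hk | hk
  · rw [hj.neg_one_pow, hk.neg_one_pow, if_pos (by
      obtain ⟨a, ha⟩ := hj
      obtain ⟨b, hb⟩ := hk
      omega)]
    norm_num
  · rw [hj.neg_one_pow, hk.neg_one_pow, if_neg (by
      obtain ⟨a, ha⟩ := hj
      obtain ⟨b, hb⟩ := hk
      omega)]
    norm_num
  · rw [hj.neg_one_pow, hk.neg_one_pow, if_neg (by
      obtain ⟨a, ha⟩ := hj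
      obtain ⟨b, hb⟩ := hk
      omega)]
    norm_num
  · rw [hj.neg_one_pow, hk.neg_one_pow, if_pos (by
      obtain ⟨a, ha⟩ := hj
      obtain ⟨b, hb⟩ := hk
      omega)]
    norm_num

/-- the weighted averages -/
def SS (w : ℤ → ℕ → ℂ → ℂ) (N : ℕ) (n : ℕ) (z : ℂ) : ℝ :=
  ((6 * N : ℕ) : ℝ)⁻¹ * ∑ j ∈ Finset.Icc 1 (6 * N), th j * ((-1) ^ j * ‖w (j : ℤ) n z‖ ^ 2)

/-- their limiting variance -/
def RR (M : ℕ → ℂ → ℂ) (φ : ℂ → ℝ) (N : ℕ) : ℝ :=
  (((6 * N : ℕ) : ℝ) ^ 2)⁻¹ * ∑ j ∈ Finset.Icc 1 (6 * N), ∑ k ∈ Finset.Icc 1 (6 * N),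
    th j * th k * ∫ z, φ z * ss M j k z

lemma SS_co (H : AG B a h w M) (N n : ℕ) : ContinuousOn (SS w N n) B := by
  unfold SS
  refine continuousOn_const.mul (continuousOn_finsetSum _ fun j _ => continuousOn_const.mul
    (continuousOn_const.mul ?_))
  exact (((H.bd (j : ℤ)).co n).norm).pow 2

lemma ss_i (hml : ∀ k, ML B (M k)) {φ : ℂ → ℝ} (hφ : TF B φ) (j k : ℕ) :
    Integrable (fun z => φ z * ss M j k z) := by
  have i1 : Integrable (fun z => φ z * (‖M (j + k) z‖ * ‖M (j + k) z‖)) :=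
    int2 hφ ((hml _).nn hφ) ((hml _).nn hφ)
  have i2 : Integrable (fun z => φ z * (‖M ((j : ℤ) - k).natAbs z‖ *
      ‖M ((j : ℤ) - k).natAbs z‖)) := int2 hφ ((hml _).nn hφ) ((hml _).nn hφ)
  by_cases hjk : Even (j + k)
  · refine (i1.add i2).congr (ae_of_all _ fun z => ?_)
    simp only [Pi.add_apply, ss, if_pos hjk]; ring
  · simp only [ss, if_neg hjk, mul_zero]; exact integrable_zero _ _ _

lemma sum2i {s : Finset ℕ} {G : ℕ → ℕ → ℂ → ℂ} (hG : ∀ j i, Integrable (G j i)) :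
    ∑ j ∈ s, ∑ i ∈ s, ∫ z, G j i z = ∫ z, ∑ j ∈ s, ∑ i ∈ s, G j i z := by
  rw [integral_finsetSum _ fun j _ => integrable_finsetSum _ fun i _ => hG j i]
  refine Finset.sum_congr rfl fun j _ => ?_
  rw [integral_finsetSum _ fun i _ => hG j i]

/-- the limit of the mean squares of the averages -/
lemma SS_lim (H : AG B a h w M) {φ : ℂ → ℝ} (hφ : TF B φ) {U : Ultrafilter ℕ}
    {x : ℤ → ℂ}
    (hx : ∀ i j k l, Tendsto (fun n => ∫ z, (φ z : ℂ) * F4 w i j k l n z) U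
      (𝓝 ((∫ z, (φ z : ℂ) * GG' M i j k l z) + ep2 i j k l * x (i + j + k + l)))) (N : ℕ) :
    Tendsto (fun n => ∫ z, φ z * SS w N n z ^ 2) U (𝓝 (RR M φ N)) := by
  set c : ℝ := ((6 * N : ℕ) : ℝ)⁻¹ with hc
  have c4 : ∀ i j k l n, Integrable (fun z => (φ z : ℂ) * F4 w i j k l n z) :=
    fun i j k l n => TF.cint hφ (((((H.bd i).co n).mul ((H.bd j).co n)).mul
      ((H.bd k).co n)).mul ((H.bd l).co n))
  have t4 : Tendsto (fun n => (((∫ z, φ z * SS w N n z ^ 2 : ℝ)) : ℂ)) U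
      (𝓝 (((c ^ 2 : ℝ) : ℂ) * ∑ j ∈ Finset.Icc 1 (6 * N), ∑ k ∈ Finset.Icc 1 (6 * N),
        ((th j * th k : ℝ) : ℂ) * ((∫ z, (φ z : ℂ) * GG' M (j : ℤ) (-(j : ℤ)) k (-(k : ℤ)) z) +
        ep2 (j : ℤ) (-(j : ℤ)) k (-(k : ℤ)) * x ((j : ℤ) + -(j : ℤ) + k + -(k : ℤ))))) := by
    have := (tendsto_finsetSum (Finset.Icc 1 (6 * N)) fun j _ => tendsto_finsetSum
      (Finset.Icc 1 (6 * N)) fun k _ => (hx (j : ℤ) (-(j : ℤ)) k (-(k : ℤ))).const_mul
        ((th j * th k : ℝ) : ℂ)).const_mul (((c ^ 2 : ℝ) : ℂ))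
    refine this.congr fun n => ?_
    simp only [← integral_const_mul]
    rw [sum2i (fun j i => (c4 _ _ _ _ n).const_mul _), ← integral_const_mul,
      ← integral_complex_ofReal]
    congr 1; funext z
    by_cases hz : z ∈ B
    · have e1 : ∀ j k : ℕ, F4 w (j : ℤ) (-(j : ℤ)) k (-(k : ℤ)) n z =
          (((-1) ^ j * ‖w (j : ℤ) n z‖ ^ 2 * ((-1) ^ k * ‖w (k : ℤ) n z‖ ^ 2) : ℝ) : ℂ) := by
        intro j k
        have a1 := H.wj j n z hz
        have a2 := H.wj k n z hz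
        have b1 := sgn_sq j
        have b2 := sgn_sq k
        push_cast at a1 a2 ⊢
        rw [← a1, ← a2]
        simp only [F4]
        linear_combination (-(w (j : ℤ) n z * w (-(j : ℤ)) n z * (w (k : ℤ) n z *
          w (-(k : ℤ)) n z)) * ((-1) ^ k * (-1) ^ k)) * b1 -
          (w (j : ℤ) n z * w (-(j : ℤ)) n z * (w (k : ℤ) n z * w (-(k : ℤ)) n z)) * b2
      simp only [e1, SS]
      rw [← hc, mul_pow, sq (∑ j ∈ Finset.Icc 1 (6 * N), _), Finset.sum_mul_sum]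
      push_cast
      simp only [Finset.mul_sum]
      refine Finset.sum_congr rfl fun j _ => Finset.sum_congr rfl fun i _ => ?_
      ring
    · rw [TF.zero hφ hz]; simp
  have iM : Integrable (fun z => φ z * ((M 0 z).re * (M 0 z).re)) :=
    int2 hφ ((H.ml 0).rr hφ) ((H.ml 0).rr hφ)
  have eG : ∀ j k : ℕ, ∫ z, (φ z : ℂ) * GG' M (j : ℤ) (-(j : ℤ)) k (-(k : ℤ)) z =
      (-1) ^ j * (-1) ^ k * ((∫ z, φ z * ((M 0 z).re * (M 0 z).re) : ℝ) : ℂ) +
        ((∫ z, φ z * ss M j k z : ℝ) : ℂ) := by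
    intro j k
    rw [← integral_complex_ofReal, ← integral_complex_ofReal, ← integral_const_mul,
      ← integral_add (iM.ofReal.const_mul _) ((ss_i H.ml hφ j k).ofReal)]
    congr 1; funext z
    have g := GGss H.m0 j k z
    have b1 := sgn_sq j
    have b2 := sgn_sq k
    have b3 : ((-1 : ℂ)) ^ j * (-1) ^ k * ((ss M j k z : ℝ) : ℂ) = ((ss M j k z : ℝ) : ℂ) := by
      by_cases hjk : Even (j + k)
      · rw [← pow_add, hjk.neg_one_pow, one_mul]
      · simp only [ss, if_neg hjk]; simp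
    push_cast at g ⊢
    linear_combination (((-1) ^ j * (-1) ^ k) * (φ z : ℂ)) * g + (φ z : ℂ) * b3 -
      ((φ z : ℂ) * GG' M (j : ℤ) (-(j : ℤ)) k (-(k : ℤ)) z * ((-1) ^ k * (-1) ^ k)) * b1 -
      ((φ z : ℂ) * GG' M (j : ℤ) (-(j : ℤ)) k (-(k : ℤ)) z) * b2
  have es : ((c ^ 2 : ℝ) : ℂ) * ∑ j ∈ Finset.Icc 1 (6 * N), ∑ k ∈ Finset.Icc 1 (6 * N),
        ((th j * th k : ℝ) : ℂ) * ((∫ z, (φ z : ℂ) * GG' M (j : ℤ) (-(j : ℤ)) k (-(k : ℤ)) z) +
        ep2 (j : ℤ) (-(j : ℤ)) k (-(k : ℤ)) * x ((j : ℤ) + -(j : ℤ) + k + -(k : ℤ))) =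
      ((RR M φ N : ℝ) : ℂ) := by
    obtain ⟨Q, hQ⟩ : ∃ Q : ℂ, Q = ((∫ z, φ z * ((M 0 z).re * (M 0 z).re) : ℝ) : ℂ) := ⟨_, rfl⟩
    have s1 : (∑ j ∈ Finset.Icc 1 (6 * N), ((th j : ℝ) : ℂ)) = 0 := by
      have := congrArg (fun r : ℝ => (r : ℂ)) (sum_th N)
      push_cast at this
      exact this
    have s2 : (∑ j ∈ Finset.Icc 1 (6 * N), (-1) ^ j * ((th j : ℝ) : ℂ)) = 0 := by
      have := congrArg (fun r : ℝ => (r : ℂ)) (sum_thm N)
      push_cast at this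
      exact this
    have e2 : ∀ j k : ℕ, ((th j * th k : ℝ) : ℂ) *
        ((∫ z, (φ z : ℂ) * GG' M (j : ℤ) (-(j : ℤ)) k (-(k : ℤ)) z) +
        ep2 (j : ℤ) (-(j : ℤ)) k (-(k : ℤ)) * x ((j : ℤ) + -(j : ℤ) + k + -(k : ℤ))) =
        ((th j * th k * (∫ z, φ z * ss M j k z) : ℝ) : ℂ) +
        ((Q + 2 / 3 * x 0) * (((-1) ^ j * ((th j : ℝ) : ℂ)) * ((-1) ^ k * ((th k : ℝ) : ℂ))) +
        (1 / 3 * x 0) * (((th j : ℝ) : ℂ) * ((th k : ℝ) : ℂ))) := by
      intro j k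
      rw [eG, ep2_v, ← hQ, show (j : ℤ) + -(j : ℤ) + k + -(k : ℤ) = 0 by ring]
      push_cast
      ring
    simp only [e2, Finset.sum_add_distrib, ← Finset.mul_sum, ← Finset.sum_mul]
    rw [s1, s2]
    unfold RR
    rw [hc, inv_pow]
    push_cast
    simp only [mul_zero, add_zero]
  rw [es] at t4
  have := (Complex.continuous_re.tendsto _).comp t4
  simpa [Function.comp_def] using this

end

end Pool.Agent.R989.Th3
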