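import Pool.Agent.R989.T3b

/-!
Third order moments (helper989): the bound for the third order moments of an approximate ladder
system.
-/

set_option autoImplicit false
open MeasureTheory Filter Topology Complex
open scoped ContDiff

namespace Pool.Agent.R989.Th3

open Pool.Agent.W745.RW Pool.Agent.TH294.RS Pool.Agent.TH294.RG

noncomputable section

variable {B : Set ℂ} {a : ℂ → ℝ} {h : ℕ → ℝ} {w : ℤ → ℕ → ℂ → ℂ} {M : ℕ → ℂ → ℂ}

lemma nsq (H : AG B a h w M) (s : ℤ) (n : ℕ) {z : ℂ} (hz : z ∈ B) :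
    ((‖w s n z‖ ^ 2 : ℝ) : ℂ) = (-1) ^ s.natAbs * (w s n z * w (-s) n z) := by
  have h4 := H.cj s n z hz
  rw [← Complex.normSq_eq_norm_sq, ← Complex.mul_conj, h4]
  ring

/-- the mean squares -/
lemma sqlim (H : AG B a h w M) (hB : IsOpen B) {φ : ℂ → ℝ} (hφ : TF B φ) (s : ℤ) :
    Tendsto (fun n => ∫ z, φ z * ‖w s n z‖ ^ 2) atTop (𝓝 (∫ z, φ z * (M 0 z).re)) := by
  have e := ((H.two hB s (-s)).cmul ((-1) ^ s.natAbs)).congr
      (f' := fun n z => ((‖w s n z‖ ^ 2 : ℝ) : ℂ)) (g' := M 0)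
      (fun n z hz => nsq H s n hz) fun z _ => by
        have h0 : Even (0 : ℤ) := by simp
        have : cc M s (-s) z = (-1) ^ s.natAbs * M 0 z := by
          simp only [cc, add_neg_cancel, if_pos h0, MZ, le_refl, if_true, Int.natAbs_zero]
        rw [this]
        have := sgn_sq s.natAbs
        linear_combination (-(M 0 z)) * this
  have e1 := e.lim φ hφ
  have e2 := (Complex.continuous_re.tendsto _).comp e1
  have hr : ∀ z, (((M 0 z).re : ℝ) : ℂ) = M 0 z := fun z => conj_eq_iff_re.1 (H.m0 z)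
  have e3 : (∫ z, (φ z : ℂ) * M 0 z).re = ∫ z, φ z * (M 0 z).re := by
    have : ∫ z, (φ z : ℂ) * M 0 z = ((∫ z, φ z * (M 0 z).re : ℝ) : ℂ) := by
      rw [← integral_complex_ofReal]
      congr 1; funext z
      rw [← hr z]; push_cast; simp
    rw [this, ofReal_re]
  rw [e3] at e2
  refine e2.congr fun n => ?_
  simp only [Function.comp_def]
  have : ∫ z, (φ z : ℂ) * ((‖w s n z‖ ^ 2 : ℝ) : ℂ) = ((∫ z, φ z * ‖w s n z‖ ^ 2 : ℝ) : ℂ) := by
    rw [← integral_complex_ofReal]
    congr 1; funext z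
    push_cast; ring
  rw [this, ofReal_re]

/-- the pairing with the averages -/
lemma pairlim (H : AG B a h w M) {φ : ℂ → ℝ} (hφ : TF B φ) {U : Ultrafilter ℕ} {x : ℤ → ℂ}
    (hx : ∀ i j k, Tendsto (fun n => ∫ z, (φ z : ℂ) * F3 w i j k n z) U
      (𝓝 ((tt i j k : ℂ) * x (i + j + k)))) {s : ℤ} (hs : s % 3 = 0) {N : ℕ} (hN : 0 < N) :
    Tendsto (fun n => ∫ z, (φ z : ℂ) * (w s n z * (SS w N n z : ℂ))) U (𝓝 (x s / 2)) := by
  set c : ℝ := ((6 * N : ℕ) : ℝ)⁻¹ with hc
  have t := (tendsto_finsetSum (Finset.Icc 1 (6 * N)) fun j _ =>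
    (hx s (j : ℤ) (-(j : ℤ))).const_mul ((th j : ℝ) : ℂ)).const_mul ((c : ℝ) : ℂ)
  have e1 : ((c : ℝ) : ℂ) * ∑ j ∈ Finset.Icc 1 (6 * N), ((th j : ℝ) : ℂ) *
      ((tt s (j : ℤ) (-(j : ℤ)) : ℂ) * x (s + (j : ℤ) + -(j : ℤ))) = x s / 2 := by
    have e2 : ∀ j : ℕ, ((th j : ℝ) : ℂ) * ((tt s (j : ℤ) (-(j : ℤ)) : ℂ) *
        x (s + (j : ℤ) + -(j : ℤ))) = ((th j * th j : ℝ) : ℂ) * x s := by
      intro j
      rw [tt_th hs, show s + (j : ℤ) + -(j : ℤ) = s by ring]
      push_cast; ring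
    simp only [e2, ← Finset.sum_mul]
    have e3 : ∑ j ∈ Finset.Icc 1 (6 * N), ((th j * th j : ℝ) : ℂ) = 3 * (N : ℂ) := by
      have := congrArg (fun r : ℝ => (r : ℂ)) (sum_th2 N)
      push_cast at this ⊢
      exact this
    rw [e3, hc]
    have hN0 : (N : ℂ) ≠ 0 := by exact_mod_cast hN.ne'
    push_cast
    field_simp
    ring
  rw [e1] at t
  refine t.congr fun n => ?_
  simp only [← integral_const_mul]
  rw [← integral_finsetSum _ fun j _ => (F3_int H hφ _ _ _ n).const_mul _, ← integral_const_mul]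
  congr 1; funext z
  by_cases hz : z ∈ B
  · have e2 : ∀ j : ℕ, F3 w s (j : ℤ) (-(j : ℤ)) n z =
        w s n z * ((((-1) ^ j * ‖w (j : ℤ) n z‖ ^ 2) : ℝ) : ℂ) := by
      intro j
      have a1 := H.wj j n z hz
      have b1 := sgn_sq j
      push_cast at a1 ⊢
      rw [← a1]
      simp only [F3]
      linear_combination (-(w s n z * (w (j : ℤ) n z * w (-(j : ℤ)) n z))) * b1
    simp only [e2, SS]
    rw [← hc]
    push_cast
    simp only [Finset.mul_sum]
    refine Finset.sum_congr rfl fun j _ => ?_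
    ring
  · rw [TF.zero hφ hz]; simp

/-- **The bound for the third order moments** -/
theorem third (H : AG B a h w M) (hB : IsOpen B) {φ : ℂ → ℝ} (hφ : TF B φ)
    (hφ0 : ∀ z, 0 ≤ φ z) {R : ℝ} (hR : Tendsto (fun N => RR M φ N) atTop (𝓝 (R / 4)))
    (i j k : ℤ) {ε : ℝ} (hε : 0 < ε) :
    ∀ᶠ n in atTop, ‖∫ z, (φ z : ℂ) * F3 w i j k n z‖ ≤
      |tt i j k| * √((∫ z, φ z * (M 0 z).re) * R) + ε := by
  by_contra hcon
  rw [not_eventually] at hcon
  obtain ⟨A, hA⟩ : ∃ A : ℝ, A = ∫ z, φ z * (M 0 z).re := ⟨_, rfl⟩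
  rw [← hA] at hcon
  set S : Set ℕ := {n | ¬ ‖∫ z, (φ z : ℂ) * F3 w i j k n z‖ ≤ |tt i j k| * √(A * R) + ε} with hS
  have hne : (atTop ⊓ 𝓟 S : Filter ℕ).NeBot := frequently_mem_iff_neBot.1 hcon
  obtain ⟨U, hU0⟩ : ∃ U : Ultrafilter ℕ, (U : Filter ℕ) ≤ atTop ⊓ 𝓟 S :=
    ⟨Ultrafilter.of _, Ultrafilter.of_le _⟩
  have hU : (U : Filter ℕ) ≤ atTop := hU0.trans inf_le_left
  have hUS : ∀ᶠ n in (U : Filter ℕ), n ∈ S := (le_principal_iff.1 (hU0.trans inf_le_right))
  obtain ⟨x4, hx4⟩ := H.U4 hB hφ U hU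
  obtain ⟨x, hx0, hx⟩ := U3 H hB hφ U hU
  have hRn : ∀ N, 0 ≤ RR M φ N := fun N =>
    ge_of_tendsto (SS_lim H hφ hx4 N) (Eventually.of_forall fun n =>
      integral_nonneg fun z => mul_nonneg (hφ0 z) (sq_nonneg _))
  have hR0 : 0 ≤ R := by
    have := ge_of_tendsto hR (Eventually.of_forall hRn)
    linarith
  have hA0 : 0 ≤ A := by
    rw [hA]
    exact ge_of_tendsto (sqlim H hB hφ 0) (Eventually.of_forall fun n =>
      integral_nonneg fun z => mul_nonneg (hφ0 z) (sq_nonneg _))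
  have claim : ∀ s, ‖x s‖ ≤ √(A * R) := by
    intro s
    by_cases hs : s % 3 = 0
    · have key : ∀ t : ℝ, 0 < t → 4 * t * ‖x s‖ ≤ 4 * t ^ 2 * A + R := by
        intro t ht
        have hN : ∀ N : ℕ, 0 < N → ‖x s / 2‖ ≤ t / 2 * A + 1 / (2 * t) * RR M φ N := by
          intro N hN
          have l1 := (pairlim H hφ hx hs hN).norm
          have l2 := ((((sqlim H hB hφ s).mono_left hU).const_mul (t / 2))).add
            ((SS_lim H hφ hx4 N).const_mul (1 / (2 * t)))
          rw [← hA] at l2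
          refine le_of_tendsto_of_tendsto' l1 l2 fun n => ?_
          have i1 : Integrable (fun z => φ z * ‖w s n z‖ ^ 2) :=
            (ML.smooth ((H.bd s).co n)).n2 hφ
          have i2 : Integrable (fun z => φ z * SS w N n z ^ 2) := by
            have := (ML.smooth (B := B) (f := fun z => ((SS w N n z : ℝ) : ℂ))
              (continuous_ofReal.comp_continuousOn (SS_co H N n))).n2 hφ
            refine this.congr (ae_of_all _ fun z => ?_)
            simp only [norm_real, Real.norm_eq_abs, sq_abs]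
          have i3 : Integrable (fun z => t / 2 * (φ z * ‖w s n z‖ ^ 2) +
            1 / (2 * t) * (φ z * SS w N n z ^ 2)) := (i1.const_mul _).add (i2.const_mul _)
          rw [← integral_const_mul, ← integral_const_mul, ← integral_add (i1.const_mul _)
            (i2.const_mul _)]
          refine norm_integral_le_of_norm_le i3 (ae_of_all _ fun z => ?_)
          rw [norm_mul, norm_mul, norm_real, norm_real, Real.norm_eq_abs, Real.norm_eq_abs,
            abs_of_nonneg (hφ0 z)]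
          have h1 : 0 ≤ 1 / (2 * t) * (t * ‖w s n z‖ - |SS w N n z|) ^ 2 := by positivity
          have h2 : 1 / (2 * t) * (t * ‖w s n z‖ - |SS w N n z|) ^ 2 =
              t / 2 * ‖w s n z‖ ^ 2 + 1 / (2 * t) * SS w N n z ^ 2 -
              ‖w s n z‖ * |SS w N n z| := by
            rw [← sq_abs (SS w N n z)]
            field_simp
            ring
          rw [h2] at h1
          have h3 := mul_nonneg (hφ0 z) h1
          nlinarith
        have l3 := (hR.const_mul (1 / (2 * t))).const_add (t / 2 * A)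
        have h4 := ge_of_tendsto l3 ((eventually_gt_atTop 0).mono fun N h => hN N h)
        rw [norm_div] at h4
        have e2 : ‖(2 : ℂ)‖ = 2 := by simp
        rw [e2] at h4
        have h5 := mul_le_mul_of_nonneg_left h4 (show (0 : ℝ) ≤ 8 * t by positivity)
        have e3 : 8 * t * (t / 2 * A + 1 / (2 * t) * (R / 4)) = 4 * t ^ 2 * A + R := by
          field_simp
          ring
        rw [e3] at h5
        linarith
      have key2 : ∀ t : ℝ, 0 ≤ (4 * A) * (t * t) + (-(4 * ‖x s‖)) * t + R := by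
        intro t
        rcases lt_or_ge 0 t with ht | ht
        · have := key t ht
          nlinarith
        · have h1 : 0 ≤ ‖x s‖ * (-t) := mul_nonneg (norm_nonneg _) (by linarith)
          have h2 : 0 ≤ A * (t * t) := mul_nonneg hA0 (mul_self_nonneg t)
          nlinarith
      have hd := discrim_le_zero key2
      unfold discrim at hd
      have h6 : ‖x s‖ ^ 2 ≤ A * R := by nlinarith
      have h7 := Real.abs_le_sqrt h6
      rwa [abs_of_nonneg (norm_nonneg _)] at h7
    · rw [hx0 s hs, norm_zero]; exact Real.sqrt_nonneg _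
  have h8 := ge_of_tendsto (hx i j k).norm (hUS.mono fun n hn => (not_le.1 hn).le)
  rw [norm_mul, norm_real, Real.norm_eq_abs] at h8
  have h9 := mul_le_mul_of_nonneg_left (claim (i + j + k)) (abs_nonneg (tt i j k))
  linarith

end

end Pool.Agent.R989.Th3
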