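import Pool.Agent.R989.T3c

/-!
Third order moments (helper989): the limiting variance and the probability of a resonance.
-/

set_option autoImplicit false
open MeasureTheory Filter Topology Complex ProbabilityTheory
open scoped ContDiff

namespace Pool.Agent.R989.Th3

open Pool.Agent.W745.RW Pool.Agent.TH294.RS Pool.Agent.TH294.RG

noncomputable section

/-- a primitive cube root of unity -/
def om : ℂ := ⟨-1 / 2, √3 / 2⟩

lemma om2 : om * om = (starRingEnd ℂ) om := by
  have h3 : √3 * √3 = 3 := Real.mul_self_sqrt (by norm_num)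
  apply Complex.ext
  · simp only [om, mul_re, conj_re]; nlinarith
  · simp only [om, mul_im, conj_im]; ring

lemma om3 : om * (starRingEnd ℂ) om = 1 := by
  have h3 : √3 * √3 = 3 := Real.mul_self_sqrt (by norm_num)
  apply Complex.ext
  · simp only [om, mul_re, conj_re, conj_im, one_re]; nlinarith
  · simp only [om, mul_im, conj_re, conj_im, one_im]; ring

lemma om_cube : om ^ 3 = 1 := by
  rw [show (3 : ℕ) = 2 + 1 by rfl, pow_succ, sq, om2, mul_comm, om3]

lemma om_sum : om + (starRingEnd ℂ) om = -1 := by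
  apply Complex.ext
  · simp only [om, add_re, conj_re, neg_re, one_re]; norm_num
  · simp only [om, add_im, conj_im, neg_im, one_im]; norm_num

lemma om_norm : ‖om‖ = 1 := by
  have h := om3
  rw [Complex.mul_conj, Complex.normSq_eq_norm_sq] at h
  have h2 : ‖om‖ ^ 2 = 1 := by exact_mod_cast h
  have := norm_nonneg om
  nlinarith

lemma om_ne : om ≠ (starRingEnd ℂ) om := by
  intro h
  have h2 := congrArg Complex.im h
  simp only [om, conj_im] at h2
  have h3 : 0 < √3 := Real.sqrt_pos.2 (by norm_num)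
  linarith

lemma th_om (j : ℕ) : (om ^ j).re = th j := by
  have h1 : om ^ j = om ^ (j % 3) := by
    conv_lhs => rw [← Nat.div_add_mod j 3]
    rw [pow_add, pow_mul, om_cube, one_pow, one_mul]
  rw [h1]
  have hj : j % 3 = 0 ∨ j % 3 = 1 ∨ j % 3 = 2 := by omega
  unfold th
  rcases hj with hj | hj | hj
  · rw [hj]; simp
  · rw [hj]; norm_num [om]
  · rw [hj, sq, om2]; norm_num [om]

lemma pt (ζ : ℂ) (j : ℕ) : th j * (ζ ^ j).re =
    1 / 2 * (((ζ * om) ^ j).re + ((ζ * (starRingEnd ℂ) om) ^ j).re) := by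
  rw [← th_om, mul_pow, mul_pow, ← map_pow]
  simp only [mul_re, conj_re, conj_im]
  ring

lemma t6 : Tendsto (fun N : ℕ => 6 * N) atTop atTop :=
  tendsto_id.const_mul_atTop' (by norm_num)

/-- weighted Cesàro means -/
lemma cth {ζ : ℂ} (h1 : ‖ζ‖ = 1) :
    Tendsto (fun N : ℕ => (((6 * N : ℕ) : ℝ))⁻¹ * ∑ j ∈ Finset.Icc 1 (6 * N), th j * (ζ ^ j).re)
      atTop (𝓝 (1 / 2 * ((if ζ * om = 1 then 1 else 0) +
        (if ζ * (starRingEnd ℂ) om = 1 then 1 else 0)))) := by
  have n1 : ‖ζ * om‖ = 1 := by rw [norm_mul, h1, om_norm, one_mul]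
  have n2 : ‖ζ * (starRingEnd ℂ) om‖ = 1 := by rw [norm_mul, RCLike.norm_conj, h1, om_norm, one_mul]
  have c1 := (cesre n1).comp t6
  have c2 := (cesre n2).comp t6
  refine ((c1.add c2).const_mul (1 / 2)).congr fun N => ?_
  simp only [Function.comp_def, pt, ← Finset.mul_sum, Finset.sum_add_distrib]
  ring

variable {Y : Type*} {e : Y → ℂ}

/-- the kernels -/
def KT (e : Y → ℂ) (N : ℕ) (p : Y × Y) : ℝ :=
  (((6 * N : ℕ) : ℝ) ^ 2)⁻¹ * ∑ j ∈ Finset.Icc 1 (6 * N), ∑ k ∈ Finset.Icc 1 (6 * N),
    th j * th k * (if Even (j + k) then 2 * (qq e j p * qq e k p) else 0)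

lemma KT_eq (N : ℕ) (p : Y × Y) : KT e N p =
    ((((6 * N : ℕ) : ℝ))⁻¹ * ∑ j ∈ Finset.Icc 1 (6 * N), th j * qq e j p) ^ 2 +
    ((((6 * N : ℕ) : ℝ))⁻¹ * ∑ j ∈ Finset.Icc 1 (6 * N), th j * ((-1) ^ j * qq e j p)) ^ 2 := by
  have h1 : ∀ j k : ℕ, th j * th k * (if Even (j + k) then 2 * (qq e j p * qq e k p) else 0) =
      (th j * qq e j p) * (th k * qq e k p) +
        (th j * ((-1) ^ j * qq e j p)) * (th k * ((-1) ^ k * qq e k p)) := by
    intro j k
    have h2 : ((-1 : ℝ)) ^ j * (-1) ^ k = if Even (j + k) then 1 else -1 := by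
      rw [← pow_add]
      split_ifs with h
      · exact h.neg_one_pow
      · exact (Nat.not_even_iff_odd.1 h).neg_one_pow
    have h3 : (th j * ((-1) ^ j * qq e j p)) * (th k * ((-1) ^ k * qq e k p)) =
        ((-1 : ℝ) ^ j * (-1) ^ k) * ((th j * qq e j p) * (th k * qq e k p)) := by ring
    rw [h3, h2]
    split_ifs <;> ring
  unfold KT
  simp only [h1, Finset.sum_add_distrib]
  rw [mul_pow, mul_pow, sq (∑ j ∈ Finset.Icc 1 (6 * N), th j * qq e j p),
    sq (∑ j ∈ Finset.Icc 1 (6 * N), th j * ((-1) ^ j * qq e j p)), Finset.sum_mul_sum,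
    Finset.sum_mul_sum]
  ring

/-- the set of resonant pairs -/
def RS (e : Y → ℂ) : Set (Y × Y) := {p | e p.1 ^ 6 = e p.2 ^ 6 ∧ e p.1 ^ 2 ≠ e p.2 ^ 2}

lemma RS_meas [MeasurableSpace Y] (he : Measurable e) : MeasurableSet (RS e) :=
  (measurableSet_eq_fun ((he.comp measurable_fst).pow_const 6)
    ((he.comp measurable_snd).pow_const 6)).inter (PS_meas he).compl

lemma KT_lim (h1 : ∀ y, ‖e y‖ = 1) (p : Y × Y) :
    Tendsto (fun N => KT e N p) atTop (𝓝 ((RS e).indicator (fun _ => 1 / 4) p)) := by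
  set ζ : ℂ := e p.1 * (starRingEnd ℂ) (e p.2) with hζ
  have hζ1 : ‖ζ‖ = 1 := zn h1 p
  have hζ2 : ‖-ζ‖ = 1 := by rw [norm_neg, hζ1]
  have t1 := (cth hζ1).pow 2
  have t2 := (cth hζ2).pow 2
  have t := t1.add t2
  have e1 : ∀ j : ℕ, ((-ζ) ^ j).re = (-1) ^ j * (ζ ^ j).re := by
    intro j
    rw [neg_pow]
    rcases Nat.even_or_odd j with hj | hj
    · rw [hj.neg_one_pow, hj.neg_one_pow]; simp
    · rw [hj.neg_one_pow, hj.neg_one_pow]; simp
  have hb : e p.2 * (starRingEnd ℂ) (e p.2) = 1 := by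
    rw [Complex.mul_conj, Complex.normSq_eq_norm_sq, h1]; simp
  -- values of ζ
  have z1 : ζ * om = 1 ↔ ζ = (starRingEnd ℂ) om := by
    constructor
    · intro h
      linear_combination ((starRingEnd ℂ) om) * h - ζ * om3
    · intro h
      rw [h]; linear_combination om3
  have z2 : ζ * (starRingEnd ℂ) om = 1 ↔ ζ = om := by
    constructor
    · intro h
      linear_combination om * h - ζ * om3
    · intro h
      rw [h]; exact om3
  have z3 : -ζ * om = 1 ↔ ζ = -(starRingEnd ℂ) om := by
    constructor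
    · intro h
      linear_combination (-(starRingEnd ℂ) om) * h - ζ * om3
    · intro h
      rw [h]; linear_combination om3
  have z4 : -ζ * (starRingEnd ℂ) om = 1 ↔ ζ = -om := by
    constructor
    · intro h
      linear_combination (-om) * h - ζ * om3
    · intro h
      rw [h]; linear_combination om3
  have hsq : ζ ^ 2 = 1 ↔ e p.1 ^ 2 = e p.2 ^ 2 := by
    constructor
    · intro h3
      have h4 : ζ ^ 2 * e p.2 ^ 2 = e p.1 ^ 2 * (e p.2 * (starRingEnd ℂ) (e p.2)) ^ 2 := by
        rw [hζ]; ring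
      rw [h3, hb] at h4
      rw [one_pow, mul_one, one_mul] at h4
      exact h4.symm
    · intro h3
      rw [hζ, mul_pow, h3, ← mul_pow, hb, one_pow]
  have hs6 : ζ ^ 6 = 1 ↔ e p.1 ^ 6 = e p.2 ^ 6 := by
    constructor
    · intro h3
      have h4 : ζ ^ 6 * e p.2 ^ 6 = e p.1 ^ 6 * (e p.2 * (starRingEnd ℂ) (e p.2)) ^ 6 := by
        rw [hζ]; ring
      rw [h3, hb] at h4
      rw [one_pow, mul_one, one_mul] at h4
      exact h4.symm
    · intro h3
      rw [hζ, mul_pow, h3, ← mul_pow, hb, one_pow]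
  have oms := om_sum
  have omm := om2
  have oc := om_cube
  have occ : ((starRingEnd ℂ) om) ^ 3 = 1 := by rw [← map_pow, oc, map_one]
  have one_ne : om ≠ 1 := by
    intro h
    have := oms
    rw [h, map_one] at this
    norm_num at this
  have cne : (starRingEnd ℂ) om ≠ 1 := by
    intro h
    apply one_ne
    rw [← conj_conj om, h, map_one]
  have e2 : (1 / 2 * ((if ζ * om = 1 then 1 else 0) +
        (if ζ * (starRingEnd ℂ) om = 1 then 1 else 0) : ℝ)) ^ 2 +
        (1 / 2 * ((if -ζ * om = 1 then 1 else 0) +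
        (if -ζ * (starRingEnd ℂ) om = 1 then 1 else 0))) ^ 2 =
      (RS e).indicator (fun _ => 1 / 4) p := by
    simp only [z1, z2, z3, z4]
    by_cases hp : p ∈ RS e
    · rw [Set.indicator_of_mem hp]
      have h6 : ζ ^ 6 = 1 := hs6.2 hp.1
      have h2 : ζ ^ 2 ≠ 1 := fun h => hp.2 (hsq.1 h)
      have f1 : (ζ ^ 2 - 1) * ((ζ - om) * (ζ - (starRingEnd ℂ) om) *
          ((ζ + om) * (ζ + (starRingEnd ℂ) om))) = 0 := by
        have a1 : (ζ - om) * (ζ - (starRingEnd ℂ) om) = ζ ^ 2 + ζ + 1 := by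
          linear_combination (-ζ) * oms + om3
        have a2 : (ζ + om) * (ζ + (starRingEnd ℂ) om) = ζ ^ 2 - ζ + 1 := by
          linear_combination ζ * oms + om3
        rw [a1, a2]
        linear_combination h6
      rcases mul_eq_zero.1 f1 with f | f
      · exact absurd (sub_eq_zero.1 f) h2
      · have ne1 : om ≠ (starRingEnd ℂ) om := om_ne
        have ne2 : om ≠ -om := by
          intro h
          have : om = 0 := by linear_combination (1 / 2) * h
          rw [this] at oc
          norm_num at oc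
        have ne3 : om ≠ -(starRingEnd ℂ) om := by
          intro h
          have : (0 : ℂ) = -1 := by linear_combination oms - h
          norm_num at this
        have ne4 : (starRingEnd ℂ) om ≠ -om := by
          intro h
          have : (0 : ℂ) = -1 := by linear_combination oms - h
          norm_num at this
        have ne5 : (starRingEnd ℂ) om ≠ -(starRingEnd ℂ) om := by
          intro h
          have : (starRingEnd ℂ) om = 0 := by linear_combination (1 / 2) * h
          rw [this] at occ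
          norm_num at occ
        have ne6 : -om ≠ -(starRingEnd ℂ) om := fun h => ne1 (neg_injective h)
        rcases mul_eq_zero.1 f with f | f
        · rcases mul_eq_zero.1 f with f | f
          · have : ζ = om := sub_eq_zero.1 f
            rw [this, if_neg ne1, if_pos rfl, if_neg ne3, if_neg ne2]; norm_num
          · have : ζ = (starRingEnd ℂ) om := sub_eq_zero.1 f
            rw [this, if_pos rfl, if_neg ne1.symm, if_neg ne5, if_neg ne4]; norm_num
        · rcases mul_eq_zero.1 f with f | f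
          · have : ζ = -om := eq_neg_of_add_eq_zero_left f
            rw [this, if_neg ne4.symm, if_neg ne2.symm, if_neg ne6, if_pos rfl]; norm_num
          · have : ζ = -(starRingEnd ℂ) om := eq_neg_of_add_eq_zero_left f
            rw [this, if_neg ne5.symm, if_neg ne3.symm, if_pos rfl, if_neg ne6.symm]; norm_num
    · rw [Set.indicator_of_notMem hp]
      have hn : ¬ (ζ ^ 6 = 1 ∧ ζ ^ 2 ≠ 1) := by
        rintro ⟨h6, h2⟩
        exact hp ⟨hs6.1 h6, fun h => h2 (hsq.2 h)⟩
      have g : ∀ η : ℂ, η ^ 3 = 1 → η ≠ 1 → ζ ≠ η ∧ ζ ≠ -η := by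
        intro η h3 hne
        have k6 : η ^ 6 = 1 := by rw [show (6 : ℕ) = 3 * 2 by rfl, pow_mul, h3, one_pow]
        have k2 : η ^ 2 ≠ 1 := by
          intro h
          apply hne
          have : η ^ 3 = η ^ 2 * η := by ring
          rw [h3, h, one_mul] at this
          exact this.symm
        constructor
        · intro h
          apply hn
          rw [h]; exact ⟨k6, k2⟩
        · intro h
          apply hn
          rw [h, Even.neg_pow (by decide), Even.neg_pow (by decide)]
          exact ⟨k6, k2⟩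
      obtain ⟨g1, g2⟩ := g om oc one_ne
      obtain ⟨g3, g4⟩ := g _ occ cne
      rw [if_neg g1, if_neg g2, if_neg g3, if_neg g4]
      norm_num
  rw [e2] at t
  refine t.congr fun N => ?_
  rw [KT_eq]
  simp only [e1]
  rfl

lemma KT_bd (h1 : ∀ y, ‖e y‖ = 1) (N : ℕ) (p : Y × Y) : |KT e N p| ≤ 2 := by
  have hN : ∀ (N : ℕ) (f : ℕ → ℝ), (∀ j, |f j| ≤ 1) →
      ((N : ℝ)⁻¹ * ∑ j ∈ Finset.Icc 1 N, f j) ^ 2 ≤ 1 := by
    intro N f hf
    rw [sq_le_one_iff_abs_le_one, abs_mul]
    have h2 : |∑ j ∈ Finset.Icc 1 N, f j| ≤ N := by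
      refine (Finset.abs_sum_le_sum_abs _ _).trans ?_
      refine (Finset.sum_le_sum fun j _ => hf j).trans ?_
      simp
    have h3 : |(N : ℝ)⁻¹| = (N : ℝ)⁻¹ := abs_of_nonneg (by positivity)
    rw [h3]
    by_cases hN0 : (N : ℝ) = 0
    · rw [hN0]; simp
    · have : 0 < (N : ℝ) := lt_of_le_of_ne (by positivity) (Ne.symm hN0)
      rw [inv_mul_le_iff₀ this, mul_one]
      exact h2
  have a1 := hN (6 * N) (fun j => th j * qq e j p) fun j => by
    rw [abs_mul]
    have := mul_le_mul (th_bd j) (qq_bd h1 j p) (abs_nonneg _) zero_le_one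
    linarith
  have a2 := hN (6 * N) (fun j => th j * ((-1) ^ j * qq e j p)) fun j => by
    rw [abs_mul, abs_mul, abs_pow, abs_neg, abs_one, one_pow, one_mul]
    have := mul_le_mul (th_bd j) (qq_bd h1 j p) (abs_nonneg _) zero_le_one
    linarith
  rw [KT_eq, abs_of_nonneg (by positivity)]
  linarith

variable [MeasurableSpace Y]

lemma KT_meas (he : Measurable e) (N : ℕ) : Measurable (KT e N) := by
  unfold KT
  refine Measurable.const_mul ?_ _
  refine Finset.measurable_fun_sum _ fun j _ => Finset.measurable_fun_sum _ fun k _ => ?_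
  by_cases hjk : Even (j + k)
  · simp only [if_pos hjk]
    exact (((qq_meas he j).mul (qq_meas he k)).const_mul 2).const_mul _
  · simp only [if_neg hjk]; exact measurable_const

/-- the probability of a resonance -/
def res (e : Y → ℂ) (ν : Measure Y) : ℝ := (ν.prod ν).real (RS e)

lemma KT_int_lim (he : Measurable e) (h1 : ∀ y, ‖e y‖ = 1) (ν : Measure Y)
    [IsProbabilityMeasure ν] :
    Tendsto (fun N => ∫ p, KT e N p ∂(ν.prod ν)) atTop (𝓝 (res e ν / 4)) := by
  have h2 := tendsto_integral_of_dominated_convergence (μ := ν.prod ν) (F := fun N p => KT e N p)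
    (f := (RS e).indicator (fun _ => 1 / 4)) (fun _ => (2 : ℝ))
    (fun N => (KT_meas he N).aestronglyMeasurable) (integrable_const 2)
    (fun N => ae_of_all _ fun p => KT_bd h1 N p) (ae_of_all _ fun p => KT_lim h1 p)
  rw [integral_indicator_const (1 / 4 : ℝ) (RS_meas he), smul_eq_mul] at h2
  have e3 : (ν.prod ν).real (RS e) * (1 / 4) = res e ν / 4 := by unfold res; ring
  rw [e3] at h2
  exact h2

lemma KT_int_bd (h1 : ∀ y, ‖e y‖ = 1) (ν : Measure Y) [IsProbabilityMeasure ν] (N : ℕ) :
    |∫ p, KT e N p ∂(ν.prod ν)| ≤ 2 := by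
  have := norm_integral_le_of_norm_le_const (μ := ν.prod ν) (f := KT e N) (C := 2)
    (ae_of_all _ fun p => KT_bd h1 N p)
  simpa using this

lemma cmT_sum (he : Measurable e) (h1 : ∀ y, ‖e y‖ = 1) (ν : Measure Y) [IsProbabilityMeasure ν]
    (N : ℕ) : (((6 * N : ℕ) : ℝ) ^ 2)⁻¹ * (∑ j ∈ Finset.Icc 1 (6 * N),
      ∑ k ∈ Finset.Icc 1 (6 * N), th j * th k *
      (if Even (j + k) then ‖cm e ν (j + k)‖ ^ 2 + ‖cm e ν ((j : ℤ) - k).natAbs‖ ^ 2 else 0)) =
      ∫ p, KT e N p ∂(ν.prod ν) := by
  have i1 : ∀ j k : ℕ, Integrable (fun p => (if Even (j + k) then 2 * (qq e j p * qq e k p)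
      else 0)) (ν.prod ν) := by
    intro j k
    refine Integrable.of_bound (C := 2) ?_ (ae_of_all _ fun p => ?_)
    · by_cases hjk : Even (j + k)
      · simp only [if_pos hjk]
        exact (((qq_meas he j).mul (qq_meas he k)).const_mul 2).aestronglyMeasurable
      · simp only [if_neg hjk]; exact aestronglyMeasurable_const
    · split_ifs
      · rw [Real.norm_eq_abs, abs_mul, abs_mul]
        have a1 := qq_bd h1 j p
        have a2 := qq_bd h1 k p
        have a3 := mul_le_mul a1 a2 (abs_nonneg _) zero_le_one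
        rw [abs_of_pos (show (0 : ℝ) < 2 by norm_num)]
        linarith
      · simp
  unfold KT
  rw [integral_const_mul, integral_finsetSum _ (fun j _ => integrable_finsetSum _ fun k _ =>
    (i1 j k).const_mul _)]
  congr 1
  refine Finset.sum_congr rfl fun j _ => ?_
  rw [integral_finsetSum _ (fun k _ => (i1 j k).const_mul _)]
  refine Finset.sum_congr rfl fun k _ => ?_
  rw [integral_const_mul]
  by_cases hjk : Even (j + k)
  · simp only [if_pos hjk]
    rw [cm_pair he h1 ν j k]
  · simp only [if_neg hjk, integral_zero]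

lemma res_nn (e : Y → ℂ) (ν : Measure Y) : 0 ≤ res e ν := measureReal_nonneg
lemma res_le (e : Y → ℂ) (ν : Measure Y) [IsProbabilityMeasure ν] : res e ν ≤ 1 :=
  measureReal_le_one

variable {m : ℂ → ℝ} {ν : Kernel ℂ Y}

/-- the limiting variances -/
lemma RR_lim [IsMarkovKernel ν] {B : Set ℂ} (he : Measurable e) (h1 : ∀ y, ‖e y‖ = 1)
    (hm : ∀ K : Set ℂ, IsCompact K → K ⊆ B → MemLp m 2 (volume.restrict K)) {φ : ℂ → ℝ}
    (hφ : TF B φ) :
    Tendsto (fun N : ℕ => RR (MM m e ν) φ N) atTop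
      (𝓝 ((∫ z, φ z * (m z ^ 2 * res e (ν z))) / 4)) := by
  have iss := fun j k => ss_int (ν := ν) he h1 hm hφ j k
  have e0 : ∀ N : ℕ, RR (MM m e ν) φ N =
      ∫ z, φ z * (m z ^ 2 * ∫ p, KT e N p ∂((ν z).prod (ν z))) := by
    intro N
    unfold RR
    have e1 : ∀ j k : ℕ, th j * th k * ∫ z, φ z * ss (MM m e ν) j k z =
        ∫ z, th j * th k * (φ z * ss (MM m e ν) j k z) := fun j k => (integral_const_mul _ _).symm
    simp only [e1]
    have e2 : ∀ j ∈ Finset.Icc 1 (6 * N), ∑ k ∈ Finset.Icc 1 (6 * N),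
        ∫ z, th j * th k * (φ z * ss (MM m e ν) j k z) =
        ∫ z, ∑ k ∈ Finset.Icc 1 (6 * N), th j * th k * (φ z * ss (MM m e ν) j k z) := fun j _ =>
      (integral_finsetSum _ fun k _ => (iss j k).const_mul _).symm
    rw [Finset.sum_congr rfl e2, ← integral_finsetSum _ (fun j _ => integrable_finsetSum _
      fun k _ => (iss j k).const_mul _), ← integral_const_mul]
    congr 1; funext z
    rw [← cmT_sum he h1 (ν z) N]
    simp only [MM_ss, Finset.mul_sum]
    refine Finset.sum_congr rfl fun j _ => Finset.sum_congr rfl fun k _ => ?_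
    ring
  simp only [e0]
  have mm := hm _ hφ.2.1 hφ.2.2
  have im : Integrable (fun z => φ z * (m z * m z)) := int2 hφ mm mm
  have e3 : (∫ z, φ z * (m z ^ 2 * res e (ν z))) / 4 =
      ∫ z, φ z * (m z ^ 2 * (res e (ν z) / 4)) := by
    rw [← integral_div]; congr 1; funext z; ring
  rw [e3]
  refine tendsto_integral_of_dominated_convergence (fun z => 2 * ‖φ z * (m z * m z)‖) ?_
    (im.norm.const_mul 2) ?_ ?_
  · intro N
    have h2 : Measurable (fun z => ∫ p, KT e N p ∂((ν z).prod (ν z))) := by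
      simp only [← cmT_sum he h1]
      refine Measurable.const_mul ?_ _
      refine Finset.measurable_fun_sum _ fun j _ => Finset.measurable_fun_sum _ fun k _ => ?_
      by_cases hjk : Even (j + k)
      · simp only [if_pos hjk]
        exact (((cm_meas he ν _).measurable.norm.pow_const 2).add
          ((cm_meas he ν _).measurable.norm.pow_const 2)).const_mul _
      · simp only [if_neg hjk]; exact measurable_const
    refine (im.aestronglyMeasurable.mul h2.aestronglyMeasurable).congr (ae_of_all _ fun z => ?_)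
    show φ z * (m z * m z) * (∫ p, KT e N p ∂((ν z).prod (ν z))) = _
    ring
  · intro N
    refine ae_of_all _ fun z => ?_
    have h3 := KT_int_bd h1 (ν z) N
    have e1 : φ z * (m z ^ 2 * ∫ p, KT e N p ∂((ν z).prod (ν z))) =
        (∫ p, KT e N p ∂((ν z).prod (ν z))) * (φ z * (m z * m z)) := by ring
    rw [e1, norm_mul]
    exact mul_le_mul_of_nonneg_right h3 (norm_nonneg _)
  · refine ae_of_all _ fun z => ?_
    exact ((KT_int_lim he h1 (ν z)).const_mul _).const_mul _

end

end Pool.Agent.R989.Th3
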