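import Pool.Agent.R989.T3d
import Pool.Agent.TH294.RG.Mom

/-!
Third order moments (helper989): third order moments relative to the fourth moment.
-/

set_option autoImplicit false
open MeasureTheory Filter Topology Complex ProbabilityTheory
open scoped ContDiff ENNReal

namespace Pool.Agent.R989.Th3

open Pool.Agent.W745.RW Pool.Agent.TH294.RS Pool.Agent.TH294.RG

noncomputable section

variable {Y : Type*} [MeasurableSpace Y] {m : ℂ → ℝ} {e : Y → ℂ} {ν : Kernel ℂ Y}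

/-- bounded fourth moments -/
lemma raw3b [IsMarkovKernel ν] {B : Set ℂ} (hB : IsOpen B) {a : ℂ → ℝ} {h : ℕ → ℝ}
    {u : ℕ → ℂ → ℝ} (he : Measurable e) (h1 : ∀ y, ‖e y‖ = 1)
    (hm : ∀ K : Set ℂ, IsCompact K → K ⊆ B → MemLp m 2 (volume.restrict K))
    (H : RawG B a h u (MM m e ν)) (hb : ∀ K : Set ℂ, IsCompact K → K ⊆ B →
      ∃ C : ℝ, ∀ᶠ n in atTop, ∫ z in K, u n z ^ 4 ≤ C) {φ : ℂ → ℝ} (hφ : TF B φ)
    (hφ0 : ∀ z, 0 ≤ φ z) (i j k : ℤ) {ε : ℝ} (hε : 0 < ε) :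
    ∀ᶠ n in atTop, ‖∫ z, (φ z : ℂ) * F3 (ww a h (fun n z => (u n z : ℂ))) i j k n z‖ ≤
      |tt i j k| * √((∫ z, φ z * m z) * ∫ z, φ z * (m z ^ 2 * res e (ν z))) + ε := by
  have A := H.as hB (fun k => MM_ml he h1 hm k) (fun z => by rw [MM_0, conj_ofReal]) hb
  have key := third A hB hφ hφ0 (RR_lim he h1 hm hφ) i j k hε
  have e1 : ∫ z, φ z * (MM m e ν 0 z).re = ∫ z, φ z * m z := by
    congr 1; funext z; rw [MM_0, ofReal_re]
  rw [e1] at key
  exact key

/-- **Third order moments** relative to the fourth moment -/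
theorem raw3 [IsMarkovKernel ν] {Ω : Set ℂ} {a : ℂ → ℝ} {h : ℕ → ℝ}
    {u : ℕ → ℂ → ℝ} (he : Measurable e) (h1 : ∀ y, ‖e y‖ = 1)
    (hm : ∀ K : Set ℂ, IsCompact K → K ⊆ Ω → MemLp m 2 (volume.restrict K))
    (H : RawG Ω a h u (MM m e ν)) {K : Set ℂ} (hK : IsCompact K) (hKΩ : K ⊆ Ω)
    {φ : ℂ → ℝ} (hφ : TF (interior K) φ) (hφ0 : ∀ z, 0 ≤ φ z) (i j k : ℤ) {ε : ℝ} (hε : 0 < ε) :
    ∀ᶠ n in atTop, ‖∫ z, (φ z : ℂ) * F3 (ww a h (fun n z => (u n z : ℂ))) i j k n z‖ ≤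
      |tt i j k| * √((∫ z, φ z * m z) * ∫ z, φ z * (m z ^ 2 * res e (ν z))) +
        ε * (1 + ∫ z in K, u n z ^ 4) ^ (3 / 4 : ℝ) := by
  set B : Set ℂ := interior K with hBdef
  have hB : IsOpen B := isOpen_interior
  have hBK : B ⊆ K := interior_subset
  have hBΩ : B ⊆ Ω := hBK.trans hKΩ
  have hmB : ∀ K' : Set ℂ, IsCompact K' → K' ⊆ B → MemLp m 2 (volume.restrict K') :=
    fun K' hK' hKB => hm K' hK' (hKB.trans hBΩ)
  have cu : ∀ n, ContinuousOn (fun z => u n z ^ 4) K := fun n =>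
    ((H.sm n).continuousOn.mono hKΩ).pow 4
  have T0 : ∀ n, 0 ≤ ∫ z in K, u n z ^ 4 := fun n => integral_nonneg fun z => by positivity
  have sub4 : ∀ n (K' : Set ℂ), K' ⊆ B → ∫ z in K', u n z ^ 4 ≤ ∫ z in K, u n z ^ 4 := by
    intro n K' hK'
    refine setIntegral_mono_set ((cu n).integrableOn_compact hK)
      (ae_of_all _ fun z => by positivity) ?_
    exact (hK'.trans hBK).eventuallyLE
  by_contra hcon
  rw [not_eventually] at hcon
  obtain ⟨ns, hns, hnsf⟩ := extraction_of_frequently_atTop hcon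
  have H1 := H.cmp hBΩ hns.tendsto_atTop
  by_cases hbd : ∃ C : ℝ, ∃ᶠ n in atTop, ∫ z in K, u (ns n) z ^ 4 ≤ C
  · obtain ⟨C, hC⟩ := hbd
    obtain ⟨τ, hτ, hτC⟩ := extraction_of_frequently_atTop hC
    have H2 := H1.cmp (le_refl B) hτ.tendsto_atTop
    have key := raw3b hB he h1 hmB H2 (fun K' _ hKB => ⟨C, Eventually.of_forall fun n =>
      (sub4 _ K' hKB).trans (hτC n)⟩) hφ hφ0 i j k hε
    obtain ⟨n, hn⟩ := key.exists
    apply hnsf (τ n)
    have e1 : ∀ k n, ww a (fun n => h (ns (τ n))) (fun n z => ((u (ns (τ n)) z : ℝ) : ℂ)) k n =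
        ww a h (fun n z => (u n z : ℂ)) k (ns (τ n)) := fun k n =>
      ww_sub a h (fun n z => (u n z : ℂ)) (fun n => ns (τ n)) k n
    simp only [F3, e1] at hn ⊢
    refine hn.trans ?_
    have h2 : 1 ≤ (1 + ∫ z in K, u (ns (τ n)) z ^ 4) ^ (3 / 4 : ℝ) :=
      Real.one_le_rpow (by linarith [T0 (ns (τ n))]) (by norm_num)
    have := mul_le_mul_of_nonneg_left h2 hε.le
    linarith
  · push Not at hbd
    obtain ⟨T, hT⟩ : ∃ T : ℕ → ℝ, ∀ n, T n = 1 + ∫ z in K, u (ns n) z ^ 4 := ⟨_, fun _ => rfl⟩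
    have T1 : ∀ n, 1 ≤ T n := fun n => by rw [hT]; linarith [T0 (ns n)]
    have Tlim : Tendsto T atTop atTop := by
      rw [tendsto_atTop]
      intro C
      refine (hbd C).mono fun n hn => ?_
      rw [hT]; linarith
    obtain ⟨c, hc⟩ : ∃ c : ℕ → ℝ, ∀ n, c n = (T n) ^ (-(1 / 4 : ℝ)) := ⟨_, fun _ => rfl⟩
    have cpos : ∀ n, 0 < c n := fun n => by
      rw [hc]; exact Real.rpow_pos_of_pos (by linarith [T1 n]) _
    have c4 : ∀ n, c n ^ 4 = (T n)⁻¹ := by
      intro n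
      rw [hc, ← Real.rpow_natCast, ← Real.rpow_mul (by linarith [T1 n])]
      norm_num
      rw [Real.rpow_neg_one]
    have c3 : ∀ n, c n ^ 3 * (T n) ^ (3 / 4 : ℝ) = 1 := by
      intro n
      have hTn : 0 < T n := by linarith [T1 n]
      rw [hc, ← Real.rpow_natCast, ← Real.rpow_mul hTn.le, ← Real.rpow_add hTn]
      norm_num
    have clim : Tendsto c atTop (𝓝 0) := by
      have := (tendsto_rpow_neg_atTop (show (0 : ℝ) < 1 / 4 by norm_num)).comp Tlim
      exact this.congr fun n => (hc n).symm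
    have H2 := H1.scale hB clim
    have e0 : (fun (_ : ℕ) (_ : ℂ) => (0 : ℂ)) = MM (fun _ => 0) e ν := by
      funext k z; simp [Pool.Agent.TH294.RG.MM]
    rw [e0] at H2
    have key := raw3b (m := fun _ => 0) hB he h1 (fun K' _ _ => MemLp.zero) H2
      (fun K' hK' hKB => ⟨1, Eventually.of_forall fun n => by
        have e1 : ∀ z, (c n * u (ns n) z) ^ 4 = (T n)⁻¹ * u (ns n) z ^ 4 := by
          intro z; rw [mul_pow, c4]
        simp only [e1]
        rw [integral_const_mul, inv_mul_le_iff₀ (by linarith [T1 n]), mul_one, hT]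
        have := sub4 (ns n) K' hKB
        linarith⟩) hφ hφ0 i j k hε
    obtain ⟨n, hn⟩ := key.exists
    apply hnsf n
    have ce : ∫ z, (φ z : ℂ) * F3 (ww a (fun n => h (ns n))
        (fun n z => ((c n * u (ns n) z : ℝ) : ℂ))) i j k n z = ((c n ^ 3 : ℝ) : ℂ) *
        ∫ z, (φ z : ℂ) * F3 (ww a h (fun n z => (u n z : ℂ))) i j k (ns n) z := by
      rw [← integral_const_mul]
      congr 1; funext z
      by_cases hz : z ∈ B
      · have e1 : ∀ k, ww a (fun n => h (ns n)) (fun n z => ((c n * u (ns n) z : ℝ) : ℂ)) k n z =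
            (c n : ℂ) * ww a h (fun n z => (u n z : ℂ)) k (ns n) z := by
          intro k
          rw [ww_scale hB H1.sa (fun n => h (ns n)) H1.sm c k n hz]
          have := ww_sub a h (fun n z => (u n z : ℂ)) ns k n
          rw [← this]
        simp only [F3, e1]
        push_cast; ring
      · rw [TF.zero hφ hz]; simp
    rw [ce, norm_mul, norm_real, Real.norm_eq_abs, abs_of_pos (pow_pos (cpos n) 3)] at hn
    simp only [mul_zero, integral_zero, zero_mul, Real.sqrt_zero, zero_add] at hn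
    rw [← hT]
    obtain ⟨X, hX⟩ : ∃ X : ℝ, X = ‖∫ z, (φ z : ℂ) * F3 (ww a h (fun n z => (u n z : ℂ)))
      i j k (ns n) z‖ := ⟨_, rfl⟩
    rw [← hX] at hn ⊢
    have hTp : 0 ≤ (T n) ^ (3 / 4 : ℝ) := Real.rpow_nonneg (by linarith [T1 n]) _
    have h5 := mul_le_mul_of_nonneg_right hn hTp
    have e5 : c n ^ 3 * X * T n ^ (3 / 4 : ℝ) = X := by
      have := c3 n
      linear_combination X * this
    rw [e5] at h5
    have h6 : 0 ≤ |tt i j k| * √((∫ z, φ z * m z) * ∫ z, φ z * (m z ^ 2 * res e (ν z))) := by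
      positivity
    linarith

end

end Pool.Agent.R989.Th3
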