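import Pool.Agent.R989.T3e
import Pool.Agent.TH294.RG.Fo

/-!
Third order moments (helper989): eigenfunctions on surfaces.
-/

set_option autoImplicit false
open MeasureTheory Filter Topology Complex ProbabilityTheory
open scoped ContDiff ENNReal

namespace Pool.Agent.R989.Th3

open Pool.Agent.W745.RW Pool.Agent.TH294.RS Pool.Agent.TH294.RG

noncomputable section

lemma ea6 (α : ℝ) : ea α ^ 6 = ea (3 * α) ^ 2 := by
  unfold ea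
  rw [mul_pow, mul_pow, ← Complex.exp_nat_mul, ← Complex.exp_nat_mul]
  have h1 : I ^ 6 = I ^ 2 := by
    rw [show (6 : ℕ) = 2 * 3 by rfl, pow_mul, I_sq]; norm_num
  rw [h1]
  congr 2
  push_cast; ring

lemma RS_ea : RS ea = {p : ℝ × ℝ | Real.sin (3 * (p.1 - p.2)) = 0 ∧ Real.sin (p.1 - p.2) ≠ 0} := by
  ext p
  have h1 : ea p.1 ^ 2 = ea p.2 ^ 2 ↔ Real.sin (p.1 - p.2) = 0 := by
    have := Set.ext_iff.1 ea_par p
    exact this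
  have h2 : ea p.1 ^ 6 = ea p.2 ^ 6 ↔ Real.sin (3 * (p.1 - p.2)) = 0 := by
    rw [ea6, ea6]
    have := Set.ext_iff.1 ea_par (3 * p.1, 3 * p.2)
    rw [mul_sub]
    exact this
  show (ea p.1 ^ 6 = ea p.2 ^ 6 ∧ ea p.1 ^ 2 ≠ ea p.2 ^ 2) ↔ _
  rw [h2, Ne, h1]
  rfl

/-- third order moments of eigenfunctions -/
theorem third_met {Ω : Set ℂ} (hΩ : IsOpen Ω) {ρ : ℂ → ℝ} (hρ : ContDiffOn ℝ ∞ ρ Ω)
    (hρ0 : ∀ z ∈ Ω, 0 < ρ z) {lam : ℕ → ℝ} (hpos : ∀ n, 0 < lam n)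
    (hlam : Tendsto lam atTop atTop) {u : ℕ → ℂ → ℝ} (hu : ∀ n, ContDiffOn ℝ ∞ (u n) Ω)
    (heq : ∀ n, ∀ z ∈ Ω, lap (u n) z + lam n * (ρ z * u n z) = 0)
    {m : ℂ → ℝ} (hm : ∀ K : Set ℂ, IsCompact K → K ⊆ Ω → MemLp m 2 (volume.restrict K))
    {ν : Kernel ℂ ℝ} [IsMarkovKernel ν]
    (hsc : ∀ φ, TF Ω φ → ∀ k : ℕ, Tendsto (fun n => ∫ z, ((φ z * ρ z : ℝ) : ℂ) *
      ((u n z : ℂ) * (RD ρ (lam n))^[k] (fun w => (u n w : ℂ)) z)) atTop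
      (𝓝 (∫ z, ((φ z * ρ z : ℝ) : ℂ) * ((m z : ℂ) * ∫ α, ea α ^ k ∂(ν z)))))
    {K : Set ℂ} (hK : IsCompact K) (hKΩ : K ⊆ Ω) {φ : ℂ → ℝ} (hφ : TF (interior K) φ)
    (hφ0 : ∀ z, 0 ≤ φ z) (a b c : ℤ) {ε : ℝ} (hε : 0 < ε) :
    ∀ᶠ n in atTop, ‖∫ z, ((φ z * ρ z : ℝ) : ℂ) * (WW ρ (lam n) (u n) a z *
        WW ρ (lam n) (u n) b z * WW ρ (lam n) (u n) c z)‖ ≤
      |tt a b c| * √((∫ z, φ z * ρ z * m z) * ∫ z, φ z * ρ z * (m z ^ 2 * res ea (ν z))) +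
        ε * (1 + ∫ z in K, u n z ^ 4) ^ (3 / 4 : ℝ) := by
  have H := rawG_met (M := MM m ea ν) hΩ hpos hlam hρ hρ0 hu heq hsc
  have hφ' : TF (interior K) (fun z => φ z * ρ z) :=
    TF.mulc isOpen_interior hφ (hρ.mono (interior_subset.trans hKΩ))
  have hφ0' : ∀ z, 0 ≤ φ z * ρ z := by
    intro z
    by_cases hz : z ∈ interior K
    · exact mul_nonneg (hφ0 z) (hρ0 z (hKΩ (interior_subset hz))).le
    · rw [TF.zero hφ hz]; simp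
  have key := raw3 ea_meas ea_norm hm H hK hKΩ hφ' hφ0' a b c hε
  refine key.mono fun n hn => ?_
  simp only [F3, WW_eq ρ hpos u] at hn
  exact hn

end

end Pool.Agent.R989.Th3
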