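import Pool.Agent.Y663.Tr
import Pool.Agent.R989.Fin2

/-! Dimension two: the theorem for the uniform law (helper989). -/

set_option autoImplicit false

open scoped BigOperators ENNReal
open MeasureTheory

namespace Pool.Agent.R989.Th2

open Pool.Agent.Y663.Tr

theorem unif_mean : ∫ t, t ∂(unif 1) = 0 := by
  have h := unif_neg 1
  have h1 : ∫ t, t ∂((unif 1).map fun t => -t) = ∫ t, -t ∂(unif 1) :=
    integral_map (by fun_prop) (by fun_prop)
  rw [h, integral_neg] at h1
  linarith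

theorem result :
    ∃ k K : ℝ, 0 < k ∧ 0 < K ∧ ∀ c : ℝ, 0 < c → c ≤ k →
      ∀ κ : ℝ, K * c ^ 2 * Real.log (1 / c) ≤ κ → κ ≤ 1 →
        ∀ᵐ ω ∂(Measure.infinitePi fun _ : Fin 2 → ℤ => unif c),
          Localized (H ω) {E | E ≤ -κ ∨ 8 + κ ≤ E}
            (k * Real.sqrt κ / Real.log (2 / (κ * c))) := by
  have hP1 : IsProbabilityMeasure (unif 1) := unif_prob 1 one_pos
  obtain ⟨k, K, hk, hk4, hK, HF⟩ := Fin2.fin2 (1 + 4 * 1 ^ 2) (by norm_num)
  refine ⟨k, K, hk, hK, ?_⟩
  intro c hc hck κ hκ hκ1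
  have H2 := HF (unif 1) unif_supp unif_mean unif_reg c hc hck κ hκ hκ1
  have hc1 : c < 1 := by linarith
  have hl : 0 < Real.log (1 / c) := Real.log_pos (by rw [lt_div_iff₀ hc]; linarith)
  have hκ0 : 0 < κ := lt_of_lt_of_le (by positivity) hκ
  have hbase : 2 ≤ 2 / (κ * c) := by
    rw [le_div_iff₀ (by positivity)]
    have : κ * c ≤ 1 := by nlinarith
    linarith
  have hX : 0 < Real.log (2 / (κ * c)) := Real.log_pos (by linarith)
  have h2 := transport 2 c hc (-κ) (k * Real.sqrt κ / Real.log (2 / (κ * c)))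
    (by positivity) H2
  filter_upwards [h2] with ω hω
  have e : {E : ℝ | E ≤ -κ ∨ 8 + κ ≤ E} = {E | E ≤ -κ ∨ 4 * ((2 : ℕ) : ℝ) - -κ ≤ E} := by
    ext E
    constructor
    · rintro (h | h)
      · exact Or.inl h
      · refine Or.inr ?_
        push_cast
        linarith
    · rintro (h | h)
      · exact Or.inl h
      · refine Or.inr ?_
        push_cast at h
        linarith
  rw [e]
  exact hω

end Pool.Agent.R989.Th2
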