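import Mathlib

open Complex MeasureTheory Set intervalIntegral

namespace Pool.Agent.R989.Tr

/-- Averaging lemma: a slowly varying function against a fast periodic one. -/
theorem slow_fast (a b : ℝ → ℂ) (ha : Continuous a) (hb : Continuous b)
    (hper : Function.Periodic b (2 * Real.pi)) (K : ℕ) (hK : 0 < K) (η : ℝ)
    (hη : ∀ s t : ℝ, |s - t| ≤ 2 * Real.pi / K → ‖a s - a t‖ ≤ η) :
    ‖(∫ t in (0 : ℝ)..(2 * Real.pi), a t * b (K * t)) -
      (∫ t in (0 : ℝ)..(2 * Real.pi), a t) * ((1 / (2 * Real.pi) : ℝ) * ∫ t in (0 : ℝ)..(2 * Real.pi), b t)‖ ≤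
      2 * η * ∫ t in (0 : ℝ)..(2 * Real.pi), ‖b t‖ := by
  have hpi : 0 < 2 * Real.pi := by positivity
  have hKr : (0 : ℝ) < K := by exact_mod_cast hK
  set m : ℂ := ((1 / (2 * Real.pi) : ℝ) : ℂ) * ∫ t in (0 : ℝ)..(2 * Real.pi), b t with hm
  have hη0 : 0 ≤ η := (norm_nonneg _).trans (hη 0 0 (by simp; positivity))
  -- integral of b over a shifted period
  have hbper : ∀ j : ℕ, ∫ t in (2 * Real.pi * j : ℝ)..(2 * Real.pi * (j + 1 : ℕ)), b t =
      ∫ t in (0 : ℝ)..(2 * Real.pi), b t := by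
    intro j
    have h1 := hper.intervalIntegral_add_eq (2 * Real.pi * j) 0
    rw [zero_add] at h1
    rw [← h1]
    congr 1
    push_cast; ring
  have hnper : Function.Periodic (fun t => ‖b t‖) (2 * Real.pi) := fun t => by
    simp only [hper t]
  have hbnper : ∀ j : ℕ, ∫ t in (2 * Real.pi * j : ℝ)..(2 * Real.pi * (j + 1 : ℕ)), ‖b t‖ =
      ∫ t in (0 : ℝ)..(2 * Real.pi), ‖b t‖ := by
    intro j
    have h1 := hnper.intervalIntegral_add_eq (2 * Real.pi * j) 0
    rw [zero_add] at h1
    rw [← h1]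
    congr 1
    push_cast; ring
  have hint : ∀ (f : ℝ → ℂ), Continuous f → ∀ x y, IntervalIntegrable f volume x y :=
    fun f hf x y => hf.intervalIntegrable x y
  -- rewrite
  have e1 : (∫ t in (0 : ℝ)..(2 * Real.pi), a t * b (K * t)) - (∫ t in (0 : ℝ)..(2 * Real.pi), a t) * m
      = ∫ t in (0 : ℝ)..(2 * Real.pi), a t * (b (K * t) - m) := by
    rw [← intervalIntegral.integral_mul_const, ← intervalIntegral.integral_sub]
    · congr 1
      ext t
      ring
    · exact hint _ (by fun_prop) _ _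
    · exact hint _ (by fun_prop) _ _
  have e2 : ∫ t in (0 : ℝ)..(2 * Real.pi), a t * (b (K * t) - m) =
      ((1 / K : ℝ) : ℂ) * ∫ s in (0 : ℝ)..(2 * Real.pi * K), a (s / K) * (b s - m) := by
    have h := intervalIntegral.smul_integral_comp_mul_left (a := 0) (b := 2 * Real.pi)
      (fun s : ℝ => a (s / K) * (b s - m)) (K : ℝ)
    rw [mul_zero, mul_comm (K : ℝ) (2 * Real.pi)] at h
    rw [← h, Complex.real_smul, ← mul_assoc, ← Complex.ofReal_mul, one_div_mul_cancel hKr.ne',
      Complex.ofReal_one, one_mul]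
    congr 1
    ext t
    congr 2
    rw [mul_comm, mul_div_assoc, div_self hKr.ne', mul_one]
  have e3 : ∫ s in (0 : ℝ)..(2 * Real.pi * K), a (s / K) * (b s - m) =
      ∑ j ∈ Finset.range K, ∫ s in (2 * Real.pi * j : ℝ)..(2 * Real.pi * (j + 1 : ℕ)), a (s / K) * (b s - m) := by
    have h := intervalIntegral.sum_integral_adjacent_intervals (f := fun s : ℝ => a (s / K) * (b s - m))
      (μ := volume) (a := fun j : ℕ => 2 * Real.pi * (j : ℝ)) (n := K)
      (fun k _ => hint _ (by fun_prop) _ _)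
    rw [h]
    simp
  have hbm : ∀ j : ℕ, ∫ s in (2 * Real.pi * j : ℝ)..(2 * Real.pi * (j + 1 : ℕ)), (b s - m) = 0 := by
    intro j
    rw [intervalIntegral.integral_sub (hint _ hb _ _) (hint _ continuous_const _ _), hbper,
      intervalIntegral.integral_const, hm]
    have : (2 * Real.pi * ((j + 1 : ℕ) : ℝ) - 2 * Real.pi * j) = 2 * Real.pi := by push_cast; ring
    rw [this, Complex.real_smul, ← mul_assoc, ← Complex.ofReal_mul, mul_one_div_cancel hpi.ne']
    simp
  have hj : ∀ j : ℕ, ‖∫ s in (2 * Real.pi * j : ℝ)..(2 * Real.pi * (j + 1 : ℕ)), a (s / K) * (b s - m)‖ ≤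
      η * (2 * ∫ t in (0 : ℝ)..(2 * Real.pi), ‖b t‖) := by
    intro j
    have hle : (2 * Real.pi * j : ℝ) ≤ 2 * Real.pi * (j + 1 : ℕ) := by
      push_cast; nlinarith
    have e4 : ∫ s in (2 * Real.pi * j : ℝ)..(2 * Real.pi * (j + 1 : ℕ)), a (s / K) * (b s - m) =
        ∫ s in (2 * Real.pi * j : ℝ)..(2 * Real.pi * (j + 1 : ℕ)), (a (s / K) - a (2 * Real.pi * j / K)) * (b s - m) := by
      have : ∫ s in (2 * Real.pi * j : ℝ)..(2 * Real.pi * (j + 1 : ℕ)), a (2 * Real.pi * j / K) * (b s - m) = 0 := by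
        rw [intervalIntegral.integral_const_mul, hbm, mul_zero]
      rw [← sub_zero (∫ s in (2 * Real.pi * j : ℝ)..(2 * Real.pi * (j + 1 : ℕ)), a (s / K) * (b s - m)), ← this,
        ← intervalIntegral.integral_sub]
      · congr 1
        ext s
        ring
      · exact hint _ (by fun_prop) _ _
      · exact hint _ (by fun_prop) _ _
    rw [e4]
    have h1 : ‖∫ s in (2 * Real.pi * j : ℝ)..(2 * Real.pi * (j + 1 : ℕ)), (a (s / K) - a (2 * Real.pi * j / K)) * (b s - m)‖ ≤
        ∫ s in (2 * Real.pi * j : ℝ)..(2 * Real.pi * (j + 1 : ℕ)), η * (‖b s‖ + ‖m‖) := by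
      refine intervalIntegral.norm_integral_le_of_norm_le hle ?_ ?_
      · refine Filter.Eventually.of_forall fun s hs => ?_
        rw [norm_mul]
        refine mul_le_mul ?_ (norm_sub_le _ _) (norm_nonneg _) hη0
        refine hη _ _ ?_
        rw [← sub_div, abs_div, abs_of_pos hKr]
        refine div_le_div_of_nonneg_right ?_ hKr.le
        have h2 := hs.1
        have h3 := hs.2
        push_cast at h3
        rw [abs_le]
        constructor <;> nlinarith
      · exact Continuous.intervalIntegrable (by fun_prop) _ _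
    refine h1.trans ?_
    rw [intervalIntegral.integral_const_mul]
    refine mul_le_mul_of_nonneg_left ?_ hη0
    rw [intervalIntegral.integral_add (hb.norm.intervalIntegrable _ _) (continuous_const.intervalIntegrable _ _),
      hbnper, intervalIntegral.integral_const]
    have : (2 * Real.pi * ((j + 1 : ℕ) : ℝ) - 2 * Real.pi * j) = 2 * Real.pi := by push_cast; ring
    rw [this, smul_eq_mul]
    have hmle : 2 * Real.pi * ‖m‖ ≤ ∫ t in (0 : ℝ)..(2 * Real.pi), ‖b t‖ := by
      rw [hm, norm_mul, Complex.norm_real, Real.norm_of_nonneg (by positivity), ← mul_assoc,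
        mul_one_div_cancel hpi.ne', one_mul]
      exact intervalIntegral.norm_integral_le_integral_norm hpi.le
    linarith
  rw [e1, e2, e3, norm_mul, Complex.norm_real, Real.norm_of_nonneg (by positivity)]
  refine (mul_le_mul_of_nonneg_left ((norm_sum_le _ _).trans (Finset.sum_le_sum fun j _ => hj j)) (by positivity)).trans ?_
  rw [Finset.sum_const, Finset.card_range, nsmul_eq_mul]
  have : 1 / (K : ℝ) * (K * (η * (2 * ∫ t in (0 : ℝ)..(2 * Real.pi), ‖b t‖))) =
      2 * η * ∫ t in (0 : ℝ)..(2 * Real.pi), ‖b t‖ := by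
    field_simp
  exact le_of_eq this

/-- small oscillation for large `K`. -/
theorem exists_osc (a : ℝ → ℂ) (ha : Continuous a) (hper : Function.Periodic a (2 * Real.pi))
    (η : ℝ) (hη : 0 < η) :
    ∃ K0 : ℕ, ∀ K : ℕ, K0 ≤ K → ∀ s t : ℝ, |s - t| ≤ 2 * Real.pi / K → ‖a s - a t‖ ≤ η := by
  have huc : UniformContinuous a := by
    have hp : (0 : ℝ) < 2 * Real.pi := by positivity
    haveI : Fact (0 < 2 * Real.pi) := ⟨hp⟩
    have h1 : Continuous (hper.lift : AddCircle (2 * Real.pi) → ℂ) := by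
      exact continuous_coinduced_dom.mpr ha
    have h2 : UniformContinuous (hper.lift : AddCircle (2 * Real.pi) → ℂ) :=
      CompactSpace.uniformContinuous_of_continuous h1
    have h3 : UniformContinuous (fun t : ℝ => (t : AddCircle (2 * Real.pi))) := by
      exact uniformContinuous_of_continuousAt_zero (QuotientAddGroup.mk' _) (AddCircle.continuous_mk' _).continuousAt
    exact h2.comp h3
  obtain ⟨δ, hδ, h⟩ := Metric.uniformContinuous_iff.1 huc η hη
  obtain ⟨K0, hK0⟩ := exists_nat_gt (2 * Real.pi / δ)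
  refine ⟨K0 + 1, fun K hK s t hst => ?_⟩
  have hKr : (0 : ℝ) < K := by
    have : (0 : ℕ) < K := by omega
    exact_mod_cast this
  have h1 : 2 * Real.pi / K < δ := by
    rw [div_lt_iff₀ hKr]
    rw [div_lt_iff₀ hδ] at hK0
    have : (K0 : ℝ) ≤ K := by
      have : K0 ≤ K := by omega
      exact_mod_cast this
    nlinarith
  have h2 := h (a := s) (b := t) (by rw [Real.dist_eq]; exact hst.trans_lt h1)
  rw [dist_eq_norm] at h2
  exact h2.le

end Pool.Agent.R989.Tr
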