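import Pool.Agent.R989.Tr1

open Complex MeasureTheory Set intervalIntegral Polynomial

namespace Pool.Agent.R989.Tr

/-- radial truncation of a complex number to the closed unit disc -/
noncomputable def phi (a : ℂ) : ℂ := (a / (‖a‖ : ℂ)) * ((min ‖a‖ 1 : ℝ) : ℂ)

/-- the coefficient truncation operator -/
noncomputable def trunc (P : ℂ[X]) : ℂ[X] := ∑ j ∈ P.support, Polynomial.monomial j (phi (P.coeff j))

/-- value on the unit circle at the angle `t` -/
noncomputable def ev (P : ℂ[X]) (t : ℝ) : ℂ := P.eval (Complex.exp (t * Complex.I))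

/-- all coefficients vanish or have modulus at least one -/
def adm (P : ℂ[X]) : Prop := ∀ j, P.coeff j = 0 ∨ 1 ≤ ‖P.coeff j‖

/-- all coefficients vanish or have modulus one -/
def uni (P : ℂ[X]) : Prop := ∀ j, P.coeff j = 0 ∨ ‖P.coeff j‖ = 1

theorem phi_zero : phi 0 = 0 := by simp [phi]

theorem phi_of_one_le {a : ℂ} (h : 1 ≤ ‖a‖) : phi a = a / (‖a‖ : ℂ) := by
  rw [phi, min_eq_right h]; simp

theorem phi_of_eq_one {a : ℂ} (h : ‖a‖ = 1) : phi a = a := by
  rw [phi_of_one_le h.ge, h]; simp

theorem phi_mul {a b : ℂ} (ha : a = 0 ∨ 1 ≤ ‖a‖) (hb : b = 0 ∨ 1 ≤ ‖b‖) : phi (a * b) = phi a * phi b := by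
  rcases ha with ha | ha
  · simp [ha, phi_zero]
  rcases hb with hb | hb
  · simp [hb, phi_zero]
  have : 1 ≤ ‖a * b‖ := by rw [norm_mul]; nlinarith
  rw [phi_of_one_le ha, phi_of_one_le hb, phi_of_one_le this, norm_mul]
  push_cast
  rw [mul_div_mul_comm]

theorem trunc_coeff (P : ℂ[X]) (j : ℕ) : (trunc P).coeff j = phi (P.coeff j) := by
  rw [trunc, Polynomial.finsetSum_coeff]
  simp only [Polynomial.coeff_monomial]
  rw [Finset.sum_ite_eq']
  split_ifs with h
  · rfl
  · rw [Polynomial.mem_support_iff, not_not] at h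
    rw [h, phi_zero]

theorem trunc_natDegree (P : ℂ[X]) : (trunc P).natDegree ≤ P.natDegree := by
  rw [Polynomial.natDegree_le_iff_coeff_eq_zero]
  intro N hN
  rw [trunc_coeff, Polynomial.coeff_eq_zero_of_natDegree_lt hN, phi_zero]

theorem coeff_mul_expand (P Q : ℂ[X]) (K : ℕ) (hK : P.natDegree < K) (i j : ℕ) (hi : i < K) :
    (P * Polynomial.expand ℂ K Q).coeff (i + K * j) = P.coeff i * Q.coeff j := by
  have hK0 : 0 < K := by omega
  rw [Polynomial.coeff_mul, Finset.sum_eq_single (i, K * j)]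
  · simp only
    rw [Polynomial.coeff_expand hK0, if_pos (dvd_mul_right K j), Nat.mul_div_cancel_left _ hK0]
  · rintro ⟨a, b⟩ hab hne
    simp only
    rw [Finset.HasAntidiagonal.mem_antidiagonal] at hab
    simp only at hab
    by_cases ha : P.natDegree < a
    · rw [Polynomial.coeff_eq_zero_of_natDegree_lt ha, zero_mul]
    · push Not at ha
      rw [Polynomial.coeff_expand hK0]
      split_ifs with hd
      · exfalso
        obtain ⟨c, rfl⟩ := hd
        have haK : a < K := lt_of_le_of_lt ha hK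
        have h1 : a = i := by
          have h2 := congrArg (· % K) hab
          simp only [Nat.add_mul_mod_self_left] at h2
          rwa [Nat.mod_eq_of_lt haK, Nat.mod_eq_of_lt hi] at h2
        subst h1
        have : K * c = K * j := by omega
        exact hne (by rw [this])
      · rw [mul_zero]
  · intro h
    exfalso
    exact h (by rw [Finset.HasAntidiagonal.mem_antidiagonal])

theorem coeff_mul_expand' (P Q : ℂ[X]) (K : ℕ) (hK : P.natDegree < K) (m : ℕ) :
    (P * Polynomial.expand ℂ K Q).coeff m = P.coeff (m % K) * Q.coeff (m / K) := by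
  have hK0 : 0 < K := by omega
  have h := coeff_mul_expand P Q K hK (m % K) (m / K) (Nat.mod_lt _ hK0)
  rwa [Nat.mod_add_div] at h

theorem trunc_mul (P Q : ℂ[X]) (K : ℕ) (hK : P.natDegree < K) (hP : adm P) (hQ : adm Q) :
    trunc (P * Polynomial.expand ℂ K Q) = trunc P * Polynomial.expand ℂ K (trunc Q) := by
  ext m
  rw [trunc_coeff, coeff_mul_expand' P Q K hK,
    coeff_mul_expand' _ _ K ((trunc_natDegree P).trans_lt hK), trunc_coeff, trunc_coeff,
    phi_mul (hP _) (hQ _)]

theorem adm_mul (P Q : ℂ[X]) (K : ℕ) (hK : P.natDegree < K) (hP : adm P) (hQ : adm Q) :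
    adm (P * Polynomial.expand ℂ K Q) := by
  intro m
  rw [coeff_mul_expand' P Q K hK]
  rcases hP (m % K) with h | h
  · left; rw [h, zero_mul]
  · rcases hQ (m / K) with h' | h'
    · left; rw [h', mul_zero]
    · right; rw [norm_mul]; nlinarith

theorem uni_mul (P Q : ℂ[X]) (K : ℕ) (hK : P.natDegree < K) (hP : uni P) (hQ : uni Q) :
    uni (P * Polynomial.expand ℂ K Q) := by
  intro m
  rw [coeff_mul_expand' P Q K hK]
  rcases hP (m % K) with h | h
  · left; rw [h, zero_mul]
  · rcases hQ (m / K) with h' | h'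
    · left; rw [h', mul_zero]
    · right; rw [norm_mul, h, h', one_mul]

theorem trunc_uni {P : ℂ[X]} (hP : uni P) : trunc P = P := by
  ext j
  rw [trunc_coeff]
  rcases hP j with h | h
  · rw [h, phi_zero]
  · exact phi_of_eq_one h

theorem ev_continuous (P : ℂ[X]) : Continuous (ev P) := by
  unfold ev
  fun_prop

theorem ev_periodic (P : ℂ[X]) : Function.Periodic (ev P) (2 * Real.pi) := by
  intro t
  unfold ev
  congr 1
  rw [Complex.ofReal_add, add_mul, Complex.exp_add]
  have : Complex.exp (((2 * Real.pi : ℝ) : ℂ) * Complex.I) = 1 := by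
    push_cast
    exact Complex.exp_two_pi_mul_I
  rw [this, mul_one]

theorem ev_mul_expand (P Q : ℂ[X]) (K : ℕ) (t : ℝ) :
    ev (P * Polynomial.expand ℂ K Q) t = ev P t * ev Q (K * t) := by
  unfold ev
  rw [Polynomial.eval_mul, Polynomial.expand_eval, ← Complex.exp_nat_mul]
  congr 3
  push_cast
  ring

theorem natDegree_mul_expand (P Q : ℂ[X]) (K R : ℕ) (hK : P.natDegree < K) (hQ : Q.natDegree < K ^ R) :
    (P * Polynomial.expand ℂ K Q).natDegree < K ^ (R + 1) := by
  refine lt_of_le_of_lt Polynomial.natDegree_mul_le ?_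
  rw [Polynomial.natDegree_expand]
  have h1 : Q.natDegree + 1 ≤ K ^ R := hQ
  have h2 : (Q.natDegree + 1) * K ≤ K ^ R * K := Nat.mul_le_mul_right K h1
  rw [pow_succ]
  nlinarith

end Pool.Agent.R989.Tr
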