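import Pool.Agent.R989.Tr2

open Complex MeasureTheory Set intervalIntegral Polynomial

namespace Pool.Agent.R989.Tr

/-- the dual density -/
noncomputable def psi (p : ℝ) (P : ℂ[X]) (k : ℕ) (t : ℝ) : ℂ :=
  ((‖ev P t‖ ^ (p - 2) : ℝ) : ℂ) * (ev P t * Complex.exp (-(k * t) * Complex.I))

noncomputable def val (p : ℝ) (P : ℂ[X]) (k : ℕ) : ℂ :=
  ((1 / (2 * Real.pi) : ℝ) : ℂ) * ∫ t in (0 : ℝ)..(2 * Real.pi), psi p P k t

theorem psi_continuous (p : ℝ) (P : ℂ[X]) (k : ℕ) (h : ∀ t, ev P t ≠ 0) : Continuous (psi p P k) := by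
  unfold psi
  have h1 := ev_continuous P
  have h2 : Continuous fun t => ‖ev P t‖ ^ (p - 2) :=
    h1.norm.rpow_const fun t => Or.inl (by simpa using h t)
  fun_prop

theorem psi_periodic (p : ℝ) (P : ℂ[X]) (k : ℕ) : Function.Periodic (psi p P k) (2 * Real.pi) := by
  intro t
  unfold psi
  rw [ev_periodic P t]
  congr 2
  have : (-((k : ℂ) * ((t + 2 * Real.pi : ℝ) : ℂ)) * Complex.I) =
      -(k * t) * Complex.I + (-(k : ℤ) : ℤ) * (2 * Real.pi * Complex.I) := by
    push_cast; ring
  rw [this, Complex.exp_add, Complex.exp_int_mul_two_pi_mul_I, mul_one]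

theorem psi_mul (p : ℝ) (P Q : ℂ[X]) (k l K : ℕ) (t : ℝ) :
    psi p (P * Polynomial.expand ℂ K Q) (k + K * l) t = psi p P k t * psi p Q l (K * t) := by
  unfold psi
  rw [ev_mul_expand, norm_mul, Real.mul_rpow (norm_nonneg _) (norm_nonneg _)]
  have : Complex.exp (-(((k + K * l : ℕ) : ℂ) * t) * Complex.I) =
      Complex.exp (-(k * t) * Complex.I) * Complex.exp (-(l * ((K * t : ℝ) : ℂ)) * Complex.I) := by
    rw [← Complex.exp_add]
    congr 1
    push_cast
    ring
  rw [this]
  push_cast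
  ring

theorem val_mul_limit (p : ℝ) (P Q : ℂ[X]) (k l : ℕ) (hP : ∀ t, ev P t ≠ 0) (hQ : ∀ t, ev Q t ≠ 0)
    (δ : ℝ) (hδ : 0 < δ) (N : ℕ) :
    ∃ K : ℕ, N < K ∧ ‖val p (P * Polynomial.expand ℂ K Q) (k + K * l) - val p P k * val p Q l‖ < δ := by
  have hpi : 0 < 2 * Real.pi := by positivity
  set B := ∫ t in (0 : ℝ)..(2 * Real.pi), ‖psi p Q l t‖ with hB
  have hB0 : 0 ≤ B := intervalIntegral.integral_nonneg hpi.le fun t _ => norm_nonneg _
  set η := Real.pi * δ / (2 * (B + 1)) with hη
  have hη0 : 0 < η := by positivity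
  obtain ⟨K0, hK0⟩ := exists_osc (psi p P k) (psi_continuous p P k hP) (psi_periodic p P k) η hη0
  refine ⟨max K0 N + 1, by omega, ?_⟩
  set K := max K0 N + 1 with hK
  have h := slow_fast (psi p P k) (psi p Q l) (psi_continuous p P k hP) (psi_continuous p Q l hQ)
    (psi_periodic p Q l) K (by omega) η (hK0 K (by omega))
  have e : val p (P * Polynomial.expand ℂ K Q) (k + K * l) - val p P k * val p Q l =
      ((1 / (2 * Real.pi) : ℝ) : ℂ) * ((∫ t in (0 : ℝ)..(2 * Real.pi), psi p P k t * psi p Q l (K * t)) -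
      (∫ t in (0 : ℝ)..(2 * Real.pi), psi p P k t) * ((1 / (2 * Real.pi) : ℝ) * ∫ t in (0 : ℝ)..(2 * Real.pi), psi p Q l t)) := by
    unfold val
    simp only [psi_mul]
    ring
  rw [e, norm_mul, Complex.norm_real, Real.norm_of_nonneg (by positivity)]
  have h2 : 2 * η * B < 2 * Real.pi * δ := by
    rw [hη]
    have : 2 * (Real.pi * δ / (2 * (B + 1))) * B = Real.pi * δ * (B / (B + 1)) := by
      field_simp
    rw [this]
    have h3 : B / (B + 1) ≤ 1 := by rw [div_le_one (by positivity)]; linarith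
    have h4 : 0 < Real.pi * δ := by positivity
    nlinarith
  refine lt_of_le_of_lt (mul_le_mul_of_nonneg_left h (by positivity)) ?_
  rw [one_div, inv_mul_lt_iff₀ hpi]
  exact h2

/-- the base polynomial -/
noncomputable def uu : ℂ := 3 / 5 + 4 / 5 * Complex.I

noncomputable def base : ℂ[X] := Polynomial.C uu + Polynomial.X + Polynomial.C uu * Polynomial.X ^ 2

theorem norm_uu : ‖uu‖ = 1 := by
  have h : ‖uu‖ ^ 2 = 1 := by
    rw [← Complex.normSq_eq_norm_sq, uu, Complex.normSq_apply]
    simp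
    norm_num
  have := norm_nonneg uu
  nlinarith

theorem base_uni : uni base := by
  intro j
  unfold base
  rw [Polynomial.coeff_add, Polynomial.coeff_add, Polynomial.coeff_C, Polynomial.coeff_X,
    Polynomial.coeff_C_mul, Polynomial.coeff_X_pow]
  rcases eq_or_ne j 0 with h | h
  · right; subst h; simp [norm_uu]
  rcases eq_or_ne j 1 with h1 | h1
  · right; subst h1; simp
  rcases eq_or_ne j 2 with h2 | h2
  · right; subst h2; simp [norm_uu]
  · left
    simp [h, h1.symm, h2]

theorem base_coeff : base.coeff 1 = 1 := by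
  unfold base
  simp [Polynomial.coeff_X, Polynomial.coeff_C]

theorem ev_base (t : ℝ) : ev base t * Complex.exp (-((1 : ℕ) * t) * Complex.I) = 1 + 2 * uu * Real.cos t := by
  unfold ev base
  simp only [Polynomial.eval_add, Polynomial.eval_C, Polynomial.eval_X, Polynomial.eval_mul,
    Polynomial.eval_pow]
  have h1 : Complex.exp (t * Complex.I) * Complex.exp (-((1 : ℕ) * t) * Complex.I) = 1 := by
    rw [← Complex.exp_add]; simp
  have h2 : (2 : ℂ) * Real.cos t = Complex.exp (t * Complex.I) + Complex.exp (-((1 : ℕ) * t) * Complex.I) := by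
    rw [Complex.ofReal_cos, Complex.two_cos]
    simp
  linear_combination (1 + uu * Complex.exp (t * Complex.I)) * h1 - uu * h2

theorem norm_exp_k (k : ℕ) (t : ℝ) : ‖Complex.exp (-(k * t) * Complex.I)‖ = 1 := by
  have : (-((k : ℂ) * t) * Complex.I) = ((-(k * t) : ℝ) : ℂ) * Complex.I := by push_cast; ring
  rw [this, Complex.norm_exp_ofReal_mul_I]

theorem norm_ev_base (t : ℝ) : ‖ev base t‖ ^ 2 = 1 + 12 / 5 * Real.cos t + 4 * Real.cos t ^ 2 := by
  have h1 : ‖ev base t‖ = ‖1 + 2 * uu * Real.cos t‖ := by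
    rw [← ev_base, norm_mul, norm_exp_k, mul_one]
  rw [h1, ← Complex.normSq_eq_norm_sq, uu, Complex.normSq_apply]
  simp [Complex.cos_ofReal_re]
  ring

theorem q_pos (t : ℝ) : 0 < 1 + 12 / 5 * Real.cos t + 4 * Real.cos t ^ 2 := by
  nlinarith [sq_nonneg (2 * Real.cos t + 3 / 5)]

theorem ev_base_ne (t : ℝ) : ev base t ≠ 0 := by
  intro h
  have h1 := norm_ev_base t
  rw [h] at h1
  have := q_pos t
  simp at h1
  linarith

theorem norm_ev_base_rpow (p : ℝ) (t : ℝ) :
    ‖ev base t‖ ^ (p - 2) = (1 + 12 / 5 * Real.cos t + 4 * Real.cos t ^ 2) ^ ((p - 2) / 2) := by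
  rw [← norm_ev_base, ← Real.rpow_natCast, ← Real.rpow_mul (norm_nonneg _)]
  congr 1
  push_cast
  ring

theorem val_base_im (p : ℝ) (hp : p < 2) : (val p base 1).im < 0 := by
  have hpi : 0 < 2 * Real.pi := by positivity
  let W : ℝ → ℝ := fun t => (1 + 12 / 5 * Real.cos t + 4 * Real.cos t ^ 2) ^ ((p - 2) / 2)
  have hW : Continuous W := by
    refine Continuous.rpow_const (by fun_prop) fun t => Or.inl (q_pos t).ne'
  have e1 : val p base 1 = ((1 / (2 * Real.pi) : ℝ) : ℂ) * ∫ t in (0 : ℝ)..(2 * Real.pi), ((W t : ℝ) : ℂ) * (1 + 2 * uu * Real.cos t) := by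
    unfold val
    congr 1
    refine intervalIntegral.integral_congr fun t _ => ?_
    simp only [psi]
    rw [ev_base, norm_ev_base_rpow]
  have e2 : (∫ t in (0 : ℝ)..(2 * Real.pi), ((W t : ℝ) : ℂ) * (1 + 2 * uu * Real.cos t)).im =
      8 / 5 * ∫ t in (0 : ℝ)..(2 * Real.pi), W t * Real.cos t := by
    have h1 : (∫ t in (0 : ℝ)..(2 * Real.pi), ((W t : ℝ) : ℂ) * (1 + 2 * uu * Real.cos t)) =
        (∫ t in (0 : ℝ)..(2 * Real.pi), ((W t * (1 + 6 / 5 * Real.cos t) : ℝ) : ℂ)) +
        (∫ t in (0 : ℝ)..(2 * Real.pi), ((8 / 5 * (W t * Real.cos t) : ℝ) : ℂ)) * Complex.I := by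
      rw [← intervalIntegral.integral_mul_const, ← intervalIntegral.integral_add]
      · refine intervalIntegral.integral_congr fun t _ => ?_
        simp only [uu]
        push_cast
        ring
      · exact Continuous.intervalIntegrable (by fun_prop) _ _
      · exact Continuous.intervalIntegrable (by fun_prop) _ _
    rw [h1, intervalIntegral.integral_ofReal, intervalIntegral.integral_ofReal,
      intervalIntegral.integral_const_mul]
    simp
  have e3 : ∫ t in (0 : ℝ)..(2 * Real.pi), W t * Real.cos t =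
      ∫ t in (0 : ℝ)..Real.pi, (W t - W (t + Real.pi)) * Real.cos t := by
    have h1 : ∫ t in (0 : ℝ)..(2 * Real.pi), W t * Real.cos t =
        (∫ t in (0 : ℝ)..Real.pi, W t * Real.cos t) + ∫ t in Real.pi..(2 * Real.pi), W t * Real.cos t := by
      rw [intervalIntegral.integral_add_adjacent_intervals]
      · exact Continuous.intervalIntegrable (by fun_prop) _ _
      · exact Continuous.intervalIntegrable (by fun_prop) _ _
    have h2 : ∫ t in Real.pi..(2 * Real.pi), W t * Real.cos t =
        ∫ t in (0 : ℝ)..Real.pi, W (t + Real.pi) * Real.cos (t + Real.pi) := by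
      rw [intervalIntegral.integral_comp_add_right (fun t => W t * Real.cos t)]
      congr 1 <;> ring
    rw [h1, h2, ← intervalIntegral.integral_add]
    · refine intervalIntegral.integral_congr fun t _ => ?_
      simp only [Real.cos_add_pi]
      ring
    · exact Continuous.intervalIntegrable (by fun_prop) _ _
    · exact Continuous.intervalIntegrable (by fun_prop) _ _
  have hneg : (p - 2) / 2 < 0 := by linarith
  have h3 : 0 < ∫ t in (0 : ℝ)..Real.pi, (W (t + Real.pi) - W t) * Real.cos t := by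
    have hmono : ∀ t : ℝ, 0 < Real.cos t → W t < W (t + Real.pi) := by
      intro t ht
      refine Real.rpow_lt_rpow_of_neg (q_pos _) ?_ hneg
      rw [Real.cos_add_pi]
      nlinarith
    have hmono' : ∀ t : ℝ, Real.cos t < 0 → W (t + Real.pi) < W t := by
      intro t ht
      refine Real.rpow_lt_rpow_of_neg (q_pos _) ?_ hneg
      rw [Real.cos_add_pi]
      nlinarith
    have h0 : ∫ t in (0 : ℝ)..Real.pi, (0 : ℝ) = 0 := by simp
    refine lt_of_eq_of_lt h0.symm ?_
    refine intervalIntegral.integral_lt_integral_of_continuousOn_of_le_of_exists_lt Real.pi_pos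
      continuousOn_const
      (by fun_prop : Continuous fun t => (W (t + Real.pi) - W t) * Real.cos t).continuousOn ?_ ?_
    · intro t _
      rcases lt_trichotomy (Real.cos t) 0 with h | h | h
      · have := hmono' t h
        nlinarith
      · rw [h, mul_zero]
      · have := hmono t h
        nlinarith
    · refine ⟨0, ⟨le_rfl, Real.pi_pos.le⟩, ?_⟩
      have := hmono 0 (by simp)
      rw [Real.cos_zero, mul_one]
      linarith
  have e4 : ∫ t in (0 : ℝ)..Real.pi, (W t - W (t + Real.pi)) * Real.cos t =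
      -∫ t in (0 : ℝ)..Real.pi, (W (t + Real.pi) - W t) * Real.cos t := by
    rw [← intervalIntegral.integral_neg]
    refine intervalIntegral.integral_congr fun t _ => ?_
    ring
  rw [e1, Complex.im_ofReal_mul, e2, e3, e4]
  have : 0 < 1 / (2 * Real.pi) := by positivity
  nlinarith [mul_pos this h3]

end Pool.Agent.R989.Tr
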