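import Pool.Agent.R989.Tr3

open Complex MeasureTheory Set intervalIntegral Polynomial

namespace Pool.Agent.R989.Tr

/-- powers of a non real number enter the left half plane. -/
theorem exists_pow_re_neg (z : ℂ) (hz : z.im ≠ 0) : ∃ M : ℕ, (z ^ M).re < 0 := by
  by_contra hcon
  push Not at hcon
  have hre : ∀ k : ℕ, (z ^ (2 ^ (k + 1))).re = (z ^ (2 ^ k)).re ^ 2 - (z ^ (2 ^ k)).im ^ 2 := by
    intro k
    rw [pow_succ 2 k, pow_mul, pow_two (z ^ 2 ^ k), Complex.mul_re]
    ring
  have him : ∀ k : ℕ, (z ^ (2 ^ (k + 1))).im = 2 * (z ^ (2 ^ k)).re * (z ^ (2 ^ k)).im := by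
    intro k
    rw [pow_succ 2 k, pow_mul, pow_two (z ^ 2 ^ k), Complex.mul_im]
    ring
  have hnn : ∀ k : ℕ, 0 ≤ (z ^ (2 ^ k)).re := fun k => hcon _
  have him0 : ∀ k : ℕ, (z ^ (2 ^ k)).im ≠ 0 := by
    intro k
    induction k with
    | zero => simpa using hz
    | succ k ih =>
      rw [him]
      have h1 := hnn (k + 1)
      rw [hre] at h1
      have h2 : 0 < (z ^ 2 ^ k).im ^ 2 := by positivity
      have h3 : (z ^ 2 ^ k).re ≠ 0 := by
        intro h
        rw [h] at h1
        nlinarith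
      positivity
  have key : ∀ k : ℕ, 4 ^ k * z.im ^ 2 * (z ^ (2 ^ k)).re ^ 2 ≤ z.re ^ 2 * (z ^ (2 ^ k)).im ^ 2 := by
    intro k
    induction k with
    | zero => simp [mul_comm]
    | succ k ih =>
      have h1 := hnn (k + 1)
      rw [hre] at h1
      rw [hre, him]
      have h2 : 0 < (z ^ 2 ^ k).im ^ 2 := by have := him0 k; positivity
      set r := (z ^ 2 ^ k).re
      set i := (z ^ 2 ^ k).im
      have h3 : (r ^ 2 - i ^ 2) ^ 2 ≤ (r ^ 2) ^ 2 := by
        apply pow_le_pow_left₀ h1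
        linarith
      have h4 : 4 ^ (k + 1) * z.im ^ 2 * (r ^ 2 - i ^ 2) ^ 2 ≤ 4 ^ (k + 1) * z.im ^ 2 * (r ^ 2) ^ 2 :=
        mul_le_mul_of_nonneg_left h3 (by positivity)
      have h5 : 4 * r ^ 2 * (4 ^ k * z.im ^ 2 * r ^ 2) ≤ 4 * r ^ 2 * (z.re ^ 2 * i ^ 2) :=
        mul_le_mul_of_nonneg_left ih (by positivity)
      calc 4 ^ (k + 1) * z.im ^ 2 * (r ^ 2 - i ^ 2) ^ 2 ≤ 4 ^ (k + 1) * z.im ^ 2 * (r ^ 2) ^ 2 := h4
        _ = 4 * r ^ 2 * (4 ^ k * z.im ^ 2 * r ^ 2) := by ring
        _ ≤ 4 * r ^ 2 * (z.re ^ 2 * i ^ 2) := h5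
        _ = _ := by ring
  have hz2 : 0 < z.im ^ 2 := by positivity
  have hbd : ∀ k : ℕ, 4 ^ k ≤ z.re ^ 2 / z.im ^ 2 := by
    intro k
    have h1 := hnn (k + 1)
    rw [hre] at h1
    have h2 : 0 < (z ^ 2 ^ k).im ^ 2 := by have := him0 k; positivity
    have h3 : 0 < (z ^ 2 ^ k).re ^ 2 := by linarith
    have h4 := key k
    have h5 : z.re ^ 2 * (z ^ 2 ^ k).im ^ 2 ≤ z.re ^ 2 * (z ^ 2 ^ k).re ^ 2 :=
      mul_le_mul_of_nonneg_left (by linarith) (sq_nonneg _)
    have h6 := le_of_mul_le_mul_right (h4.trans h5) h3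
    rw [le_div_iff₀ hz2]
    exact h6
  obtain ⟨k, hk⟩ := pow_unbounded_of_one_lt (z.re ^ 2 / z.im ^ 2) (by norm_num : (1 : ℝ) < 4)
  exact absurd (hbd k) (not_le.2 hk)

/-- products of dilated copies of the base polynomial. -/
theorem exists_prod (p : ℝ) (M : ℕ) : ∀ δ : ℝ, 0 < δ → ∃ (P : ℂ[X]) (k : ℕ), uni P ∧ P.coeff k = 1 ∧
    (∀ t, ev P t ≠ 0) ∧ ‖val p P k - (val p base 1) ^ M‖ < δ := by
  induction M with
  | zero =>
    intro δ hδ
    refine ⟨1, 0, ?_, ?_, ?_, ?_⟩
    · intro j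
      rw [Polynomial.coeff_one]
      split_ifs with h
      · right; simp
      · left; rfl
    · simp
    · intro t
      simp [ev]
    · have : val p 1 0 = 1 := by
        unfold val psi ev
        simp
        have : (Real.pi : ℂ) ≠ 0 := by exact_mod_cast Real.pi_ne_zero
        field_simp
      rw [this]
      simpa using hδ
  | succ M ih =>
    intro δ hδ
    set I := val p base 1 with hI
    obtain ⟨P, k, hU, hk, hne, hv⟩ := ih (δ / (2 * (‖I‖ + 1))) (by positivity)
    obtain ⟨K, hK, hlim⟩ := val_mul_limit p P base k 1 hne ev_base_ne (δ / 2) (by positivity) P.natDegree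
    refine ⟨P * Polynomial.expand ℂ K base, k + K * 1, uni_mul P base K hK hU base_uni, ?_, ?_, ?_⟩
    · have hkK : k < K := by
        refine lt_of_le_of_lt ?_ hK
        exact Polynomial.le_natDegree_of_ne_zero (by rw [hk]; exact one_ne_zero)
      rw [coeff_mul_expand P base K hK k 1 hkK, hk, base_coeff, one_mul]
    · intro t
      rw [ev_mul_expand]
      exact mul_ne_zero (hne t) (ev_base_ne _)
    · have h1 : ‖val p P k * I - I ^ M * I‖ ≤ δ / (2 * (‖I‖ + 1)) * ‖I‖ := by
        rw [← sub_mul, norm_mul]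
        exact mul_le_mul_of_nonneg_right hv.le (norm_nonneg _)
      have h2 : δ / (2 * (‖I‖ + 1)) * ‖I‖ ≤ δ / 2 := by
        have h3 : 0 ≤ ‖I‖ := norm_nonneg _
        rw [div_mul_eq_mul_div, div_le_div_iff₀ (by positivity) (by positivity)]
        nlinarith
      rw [pow_succ]
      calc ‖val p (P * Polynomial.expand ℂ K base) (k + K * 1) - I ^ M * I‖
          ≤ ‖val p (P * Polynomial.expand ℂ K base) (k + K * 1) - val p P k * I‖ + ‖val p P k * I - I ^ M * I‖ :=
            norm_sub_le_norm_sub_add_norm_sub _ _ _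
        _ < δ / 2 + δ / 2 := by linarith
        _ = δ := by ring

/-- concavity bound. -/
theorem rpow_shift_le (p : ℝ) (hp0 : 0 < p) (hp2 : p ≤ 2) (h : ℂ) (hh : h ≠ 0) (ε : ℝ) :
    ‖h + ε‖ ^ p ≤ ‖h‖ ^ p + p * ε * (‖h‖ ^ (p - 2) * h.re) + p / 2 * ε ^ 2 * ‖h‖ ^ (p - 2) := by
  have hn : 0 < ‖h‖ := norm_pos_iff.2 hh
  have hA : 0 < ‖h‖ ^ 2 := by positivity
  set x := (2 * ε * h.re + ε ^ 2) / ‖h‖ ^ 2 with hx
  have e1 : ‖h + ε‖ ^ 2 = ‖h‖ ^ 2 * (1 + x) := by
    rw [hx, mul_add, mul_one, mul_div_cancel₀ _ hA.ne', ← Complex.normSq_eq_norm_sq,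
      ← Complex.normSq_eq_norm_sq, Complex.normSq_apply, Complex.normSq_apply]
    simp
    ring
  have hx1 : -1 ≤ x := by
    have : 0 ≤ ‖h‖ ^ 2 * (1 + x) := by rw [← e1]; positivity
    have := (mul_nonneg_iff_of_pos_left hA).1 this
    linarith
  have e2 : ‖h + ε‖ ^ p = (‖h + ε‖ ^ 2) ^ (p / 2) := by
    rw [← Real.rpow_natCast, ← Real.rpow_mul (norm_nonneg _)]
    congr 1
    push_cast
    ring
  have e3 : (‖h‖ ^ 2) ^ (p / 2) = ‖h‖ ^ p := by
    rw [← Real.rpow_natCast, ← Real.rpow_mul (norm_nonneg _)]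
    congr 1
    push_cast
    ring
  have e4 : ‖h‖ ^ (p - 2) = ‖h‖ ^ p / ‖h‖ ^ 2 := by
    rw [Real.rpow_sub hn]
    norm_num
  rw [e2, e1, Real.mul_rpow hA.le (by linarith), e3]
  have h1 : (1 + x) ^ (p / 2) ≤ 1 + p / 2 * x :=
    rpow_one_add_le_one_add_mul_self hx1 (by linarith) (by linarith)
  have h2 : 0 ≤ ‖h‖ ^ p := by positivity
  refine (mul_le_mul_of_nonneg_left h1 h2).trans (le_of_eq ?_)
  rw [e4, hx]
  field_simp
  ring

/-- integral of the `p`-th power of the modulus over the circle -/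
noncomputable def Ip (p : ℝ) (P : ℂ[X]) : ℝ := ∫ t in (0 : ℝ)..(2 * Real.pi), ‖ev P t‖ ^ p

theorem ev_rpow_continuous {p : ℝ} (hp : 0 < p) (P : ℂ[X]) : Continuous fun t => ‖ev P t‖ ^ p :=
  (ev_continuous P).norm.rpow_const fun _ => Or.inr hp.le

/-- the basic pair. -/
theorem exists_pair (p : ℝ) (hp0 : 0 < p) (hp2 : p < 2) : ∃ F : ℂ[X], adm F ∧ adm (trunc F) ∧
    (∀ t, ev F t ≠ 0) ∧ (∀ t, ev (trunc F) t ≠ 0) ∧ Ip p F < Ip p (trunc F) := by
  have hpi : 0 < 2 * Real.pi := by positivity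
  obtain ⟨M, hM⟩ := exists_pow_re_neg (val p base 1) (val_base_im p hp2).ne
  obtain ⟨P, k, hU, hk, hne, hv⟩ := exists_prod p M (-((val p base 1) ^ M).re) (by linarith)
  have hre : (val p P k).re < 0 := by
    have h1 := (Complex.re_le_norm (val p P k - (val p base 1) ^ M)).trans_lt hv
    rw [Complex.sub_re] at h1
    linarith
  -- real part of the integral
  have hψc := psi_continuous p P k hne
  set c := ∫ t in (0 : ℝ)..(2 * Real.pi), (psi p P k t).re with hc
  have hc0 : c < 0 := by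
    have e : (∫ t in (0 : ℝ)..(2 * Real.pi), psi p P k t).re = c := by
      rw [hc]
      exact (intervalIntegral.intervalIntegral_re (hψc.intervalIntegrable _ _)).symm
    have h1 : (val p P k).re = 1 / (2 * Real.pi) * c := by
      rw [val, Complex.re_ofReal_mul, e]
    rw [h1] at hre
    have : 0 < 1 / (2 * Real.pi) := by positivity
    by_contra hcon
    push Not at hcon
    have := mul_nonneg this.le hcon
    linarith
  have hQc : Continuous fun t => ‖ev P t‖ ^ (p - 2) :=
    (ev_continuous P).norm.rpow_const fun t => Or.inl (by simpa using hne t)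
  set D := ∫ t in (0 : ℝ)..(2 * Real.pi), ‖ev P t‖ ^ (p - 2) with hD
  have hD0 : 0 ≤ D := intervalIntegral.integral_nonneg hpi.le fun t _ => by positivity
  -- lower bound of |P|
  obtain ⟨m, hm0, hm⟩ : ∃ m : ℝ, 0 < m ∧ ∀ t, m ≤ ‖ev P t‖ := by
    obtain ⟨t0, -, ht0⟩ := (isCompact_Icc (a := (0 : ℝ)) (b := 2 * Real.pi)).exists_isMinOn
      ⟨0, by constructor <;> positivity⟩ (ev_continuous P).norm.continuousOn
    refine ⟨‖ev P t0‖, norm_pos_iff.2 (hne t0), fun t => ?_⟩
    obtain ⟨s, hs, hst⟩ := (ev_periodic P).exists_mem_Ico₀ hpi t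
    rw [hst]
    exact ht0 ⟨hs.1, hs.2.le⟩
  obtain ⟨ε, hε0, hε1, hε2⟩ : ∃ ε : ℝ, 0 < ε ∧ ε < m ∧ p * ε * c + p / 2 * ε ^ 2 * D < 0 := by
    refine ⟨min (m / 2) (-c / (D + 1)), lt_min (by positivity) (div_pos (by linarith) (by positivity)), ?_, ?_⟩
    · exact (min_le_left _ _).trans_lt (by linarith)
    · set ε := min (m / 2) (-c / (D + 1)) with hε
      have hεp : 0 < ε := lt_min (by positivity) (div_pos (by linarith) (by positivity))
      have h1 : ε ≤ -c / (D + 1) := min_le_right _ _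
      rw [le_div_iff₀ (by positivity)] at h1
      have h2 : p * ε * c + p / 2 * ε ^ 2 * D = p * ε * (c + ε * D / 2) := by ring
      rw [h2]
      have h3 : c + ε * D / 2 < 0 := by nlinarith
      have h4 : 0 < p * ε := by positivity
      exact mul_neg_of_pos_of_neg h4 h3
  set F : ℂ[X] := P + Polynomial.monomial k (ε : ℂ) with hF
  have hcoeff : ∀ j, F.coeff j = if j = k then 1 + (ε : ℂ) else P.coeff j := by
    intro j
    rw [hF, Polynomial.coeff_add, Polynomial.coeff_monomial]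
    split_ifs with h1 h2 h2
    · rw [h2, hk]
    · exact absurd h1.symm h2
    · exact absurd h2.symm h1
    · rw [add_zero]
  have hn1 : ‖(1 + (ε : ℂ))‖ = 1 + ε := by
    rw [← Complex.ofReal_one, ← Complex.ofReal_add, Complex.norm_real, Real.norm_of_nonneg (by linarith)]
  have hadm : adm F := by
    intro j
    rw [hcoeff]
    split_ifs with h
    · right; rw [hn1]; linarith
    · rcases hU j with h' | h'
      · left; exact h'
      · right; exact h'.ge
  have htr : trunc F = P := by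
    ext j
    rw [trunc_coeff, hcoeff]
    split_ifs with h
    · rw [phi_of_one_le (by rw [hn1]; linarith), hn1, h, hk]
      have : (1 + (ε : ℂ)) ≠ 0 := by
        intro h0
        rw [h0, norm_zero] at hn1
        linarith
      push_cast
      exact div_self this
    · rcases hU j with h' | h'
      · rw [h', phi_zero]
      · exact phi_of_eq_one h'
  have hevF : ∀ t, ev F t = ev P t + ε * Complex.exp (k * t * Complex.I) := by
    intro t
    unfold ev
    rw [hF, Polynomial.eval_add, Polynomial.eval_monomial, ← Complex.exp_nat_mul]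
    congr 3
    ring
  have hnormF : ∀ t, ‖ev F t‖ = ‖ev P t * Complex.exp (-(k * t) * Complex.I) + ε‖ := by
    intro t
    have : ev P t * Complex.exp (-(k * t) * Complex.I) + ε = ev F t * Complex.exp (-(k * t) * Complex.I) := by
      rw [hevF, add_mul, mul_assoc (ε : ℂ), ← Complex.exp_add]
      have : (k * t * Complex.I + -(k * t) * Complex.I : ℂ) = 0 := by ring
      rw [this, Complex.exp_zero, mul_one]
    rw [this, norm_mul, norm_exp_k, mul_one]
  refine ⟨F, hadm, ?_, ?_, ?_, ?_⟩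
  · rw [htr]
    intro j
    rcases hU j with h' | h'
    · left; exact h'
    · right; exact h'.ge
  · intro t h0
    have h1 := hm t
    rw [hevF] at h0
    have h2 : ev P t = -(ε * Complex.exp (k * t * Complex.I)) := eq_neg_of_add_eq_zero_left h0
    rw [h2, norm_neg, norm_mul, Complex.norm_real, Real.norm_of_nonneg hε0.le] at h1
    have h3 : ‖Complex.exp (k * t * Complex.I)‖ = 1 := by
      have : ((k : ℂ) * t * Complex.I) = ((k * t : ℝ) : ℂ) * Complex.I := by push_cast; ring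
      rw [this, Complex.norm_exp_ofReal_mul_I]
    rw [h3, mul_one] at h1
    linarith
  · rw [htr]; exact hne
  · rw [htr]
    have hpt : ∀ t, ‖ev F t‖ ^ p ≤ ‖ev P t‖ ^ p + p * ε * (psi p P k t).re + p / 2 * ε ^ 2 * ‖ev P t‖ ^ (p - 2) := by
      intro t
      have h0 : ev P t * Complex.exp (-(k * t) * Complex.I) ≠ 0 := mul_ne_zero (hne t) (Complex.exp_ne_zero _)
      have h1 := rpow_shift_le p hp0 hp2.le _ h0 ε
      have h2 : ‖ev P t * Complex.exp (-(k * t) * Complex.I)‖ = ‖ev P t‖ := by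
        rw [norm_mul, norm_exp_k, mul_one]
      rw [h2] at h1
      rw [hnormF]
      have h3 : (psi p P k t).re = ‖ev P t‖ ^ (p - 2) * (ev P t * Complex.exp (-(k * t) * Complex.I)).re := by
        rw [psi, Complex.re_ofReal_mul]
      rw [h3]
      exact h1
    have hre_cont : Continuous fun t => (psi p P k t).re := Complex.continuous_re.comp hψc
    have hPc := ev_rpow_continuous hp0 P
    have h1 : Ip p F ≤ ∫ t in (0 : ℝ)..(2 * Real.pi), (‖ev P t‖ ^ p + p * ε * (psi p P k t).re + p / 2 * ε ^ 2 * ‖ev P t‖ ^ (p - 2)) := by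
      refine intervalIntegral.integral_mono_on hpi.le ((ev_rpow_continuous hp0 F).intervalIntegrable _ _) ?_ fun t _ => hpt t
      exact Continuous.intervalIntegrable (by fun_prop) _ _
    have h2 : ∫ t in (0 : ℝ)..(2 * Real.pi), (‖ev P t‖ ^ p + p * ε * (psi p P k t).re + p / 2 * ε ^ 2 * ‖ev P t‖ ^ (p - 2)) =
        Ip p P + p * ε * c + p / 2 * ε ^ 2 * D := by
      rw [intervalIntegral.integral_add, intervalIntegral.integral_add, intervalIntegral.integral_const_mul,
        intervalIntegral.integral_const_mul]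
      · rfl
      · exact hPc.intervalIntegrable _ _
      · exact Continuous.intervalIntegrable (by fun_prop) _ _
      · exact Continuous.intervalIntegrable (by fun_prop) _ _
      · exact Continuous.intervalIntegrable (by fun_prop) _ _
    rw [h2] at h1
    linarith

end Pool.Agent.R989.Tr
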