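import Pool.Agent.R989.Tr4

open Complex MeasureTheory Set intervalIntegral Polynomial

namespace Pool.Agent.R989.Tr

/-- the `L_p` (quasi) norm on the unit circle with respect to arc length -/
noncomputable def Lp (p : ℝ) (P : ℂ[X]) : ℝ := (∫ t in (0 : ℝ)..(2 * Real.pi), ‖ev P t‖ ^ p) ^ (1 / p)

/-- the norm of the truncation operator on complex polynomials of degree at most `n` -/
noncomputable def normS (p : ℝ) (n : ℕ) : ENNReal :=
  ⨆ P ∈ {P : ℂ[X] | P.natDegree ≤ n ∧ P ≠ 0}, ENNReal.ofReal (Lp p (trunc P) / Lp p P)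

/-- iterated products -/
noncomputable def itp (F : ℂ[X]) (K : ℕ) : ℕ → ℂ[X]
  | 0 => 1
  | R + 1 => F * Polynomial.expand ℂ K (itp F K R)

theorem Ip_mul_bound {p : ℝ} (hp : 0 < p) (F G : ℂ[X]) (K : ℕ) (hK : 0 < K) (η : ℝ)
    (hη : ∀ s t : ℝ, |s - t| ≤ 2 * Real.pi / K →
      ‖((‖ev F s‖ ^ p : ℝ) : ℂ) - ((‖ev F t‖ ^ p : ℝ) : ℂ)‖ ≤ η) :
    |Ip p (F * Polynomial.expand ℂ K G) - Ip p F * (1 / (2 * Real.pi) * Ip p G)| ≤ 2 * η * Ip p G := by
  have h := slow_fast (fun t => ((‖ev F t‖ ^ p : ℝ) : ℂ)) (fun t => ((‖ev G t‖ ^ p : ℝ) : ℂ))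
    (Complex.continuous_ofReal.comp (ev_rpow_continuous hp F))
    (Complex.continuous_ofReal.comp (ev_rpow_continuous hp G))
    (fun t => by simp only [ev_periodic G t]) K hK η hη
  have e1 : ∫ t in (0 : ℝ)..(2 * Real.pi), ((‖ev F t‖ ^ p : ℝ) : ℂ) * ((‖ev G (K * t)‖ ^ p : ℝ) : ℂ) =
      ((Ip p (F * Polynomial.expand ℂ K G) : ℝ) : ℂ) := by
    rw [Ip, ← intervalIntegral.integral_ofReal]
    refine intervalIntegral.integral_congr fun t _ => ?_
    rw [← Complex.ofReal_mul, ev_mul_expand, norm_mul, Real.mul_rpow (norm_nonneg _) (norm_nonneg _)]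
  have e2 : ∫ t in (0 : ℝ)..(2 * Real.pi), ((‖ev F t‖ ^ p : ℝ) : ℂ) = ((Ip p F : ℝ) : ℂ) := by
    rw [Ip, ← intervalIntegral.integral_ofReal]
  have e3 : ∫ t in (0 : ℝ)..(2 * Real.pi), ((‖ev G t‖ ^ p : ℝ) : ℂ) = ((Ip p G : ℝ) : ℂ) := by
    rw [Ip, ← intervalIntegral.integral_ofReal]
  have e4 : ∫ t in (0 : ℝ)..(2 * Real.pi), ‖((‖ev G t‖ ^ p : ℝ) : ℂ)‖ = Ip p G := by
    rw [Ip]
    refine intervalIntegral.integral_congr fun t _ => ?_
    rw [Complex.norm_real, Real.norm_of_nonneg (by positivity)]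
  rw [e1, e2, e3, e4] at h
  have e5 : ((Ip p (F * Polynomial.expand ℂ K G) : ℝ) : ℂ) - ((Ip p F : ℝ) : ℂ) * (((1 / (2 * Real.pi) : ℝ) : ℂ) * ((Ip p G : ℝ) : ℂ)) =
      ((Ip p (F * Polynomial.expand ℂ K G) - Ip p F * (1 / (2 * Real.pi) * Ip p G) : ℝ) : ℂ) := by
    push_cast; ring
  rw [e5, Complex.norm_real, Real.norm_eq_abs] at h
  exact h

theorem Ip_nonneg (p : ℝ) (P : ℂ[X]) : 0 ≤ Ip p P :=
  intervalIntegral.integral_nonneg (by positivity) fun t _ => by positivity

theorem Ip_pos {p : ℝ} (hp : 0 < p) (P : ℂ[X]) (h : ∀ t, ev P t ≠ 0) : 0 < Ip p P := by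
  refine intervalIntegral.intervalIntegral_pos_of_pos ((ev_rpow_continuous hp P).intervalIntegrable _ _)
    (fun t => ?_) (by positivity)
  have : 0 < ‖ev P t‖ := norm_pos_iff.2 (h t)
  positivity

theorem Ip_one (p : ℝ) : Ip p 1 = 2 * Real.pi := by
  simp [Ip, ev]

theorem trunc_one : trunc 1 = 1 := by
  refine trunc_uni fun j => ?_
  rw [Polynomial.coeff_one]
  split_ifs with h
  · right; simp
  · left; rfl

theorem adm_one : adm 1 := by
  intro j
  rw [Polynomial.coeff_one]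
  split_ifs with h
  · right; simp
  · left; rfl

theorem itp_adm (F : ℂ[X]) (hF : adm F) (K : ℕ) (hK : F.natDegree < K) (R : ℕ) : adm (itp F K R) := by
  induction R with
  | zero => exact adm_one
  | succ R ih => exact adm_mul F _ K hK hF ih

theorem itp_trunc (F : ℂ[X]) (hF : adm F) (K : ℕ) (hK : F.natDegree < K) (R : ℕ) :
    trunc (itp F K R) = itp (trunc F) K R := by
  induction R with
  | zero => exact trunc_one
  | succ R ih =>
    rw [itp, itp, trunc_mul F _ K hK hF (itp_adm F hF K hK R), ih]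

theorem itp_ne (F : ℂ[X]) (hF : ∀ t, ev F t ≠ 0) (K : ℕ) (R : ℕ) : ∀ t, ev (itp F K R) t ≠ 0 := by
  induction R with
  | zero => intro t; simp [itp, ev]
  | succ R ih =>
    intro t
    rw [itp, ev_mul_expand]
    exact mul_ne_zero (hF t) (ih _)

theorem itp_natDegree (F : ℂ[X]) (K : ℕ) (hK : F.natDegree < K) (R : ℕ) :
    (itp F K R).natDegree < K ^ R := by
  induction R with
  | zero => simp [itp]
  | succ R ih => exact natDegree_mul_expand F _ K R hK ih

/-- polynomial growth -/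
theorem growth (p : ℝ) (hp0 : 0 < p) (hp2 : p < 2) :
    ∃ c δ : ℝ, 0 < c ∧ 0 < δ ∧ ∀ n : ℕ, 1 ≤ n → ENNReal.ofReal (c * (n : ℝ) ^ δ) ≤ normS p n := by
  have hpi : 0 < 2 * Real.pi := by positivity
  obtain ⟨F, hF, -, hne, hne', hlt⟩ := exists_pair p hp0 hp2
  set η := (Ip p (trunc F) - Ip p F) / (16 * Real.pi) with hη
  have hη0 : 0 < η := by
    rw [hη]; exact div_pos (by linarith) (by positivity)
  obtain ⟨K1, hK1⟩ := exists_osc (fun t => ((‖ev F t‖ ^ p : ℝ) : ℂ))
    (Complex.continuous_ofReal.comp (ev_rpow_continuous hp0 F)) (fun t => by simp only [ev_periodic F t]) η hη0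
  obtain ⟨K2, hK2⟩ := exists_osc (fun t => ((‖ev (trunc F) t‖ ^ p : ℝ) : ℂ))
    (Complex.continuous_ofReal.comp (ev_rpow_continuous hp0 _)) (fun t => by simp only [ev_periodic (trunc F) t]) η hη0
  set K := F.natDegree + K1 + K2 + 2 with hK
  have hKF : F.natDegree < K := by omega
  have hK0 : 0 < K := by omega
  set A := Ip p F / (2 * Real.pi) + 2 * η with hA
  set B := Ip p (trunc F) / (2 * Real.pi) - 2 * η with hB
  have hA0 : 0 < A := by have := Ip_nonneg p F; positivity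
  have hAB : A < B := by
    have e1 : Ip p (trunc F) / (2 * Real.pi) - Ip p F / (2 * Real.pi) = 8 * η := by
      rw [hη]; field_simp; ring
    rw [hA, hB]
    linarith
  have hB0 : 0 < B := hA0.trans hAB
  have hup : ∀ R, Ip p (itp F K R) ≤ A ^ R * (2 * Real.pi) := by
    intro R
    induction R with
    | zero => simp [itp, Ip_one]
    | succ R ih =>
      have h := Ip_mul_bound hp0 F (itp F K R) K hK0 η (hK1 K (by omega))
      have h1 := (abs_le.1 h).2
      have h2 : Ip p (itp F K (R + 1)) ≤ A * Ip p (itp F K R) := by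
        rw [itp, hA]
        have : (Ip p F / (2 * Real.pi) + 2 * η) * Ip p (itp F K R) =
          Ip p F * (1 / (2 * Real.pi) * Ip p (itp F K R)) + 2 * η * Ip p (itp F K R) := by ring
        linarith
      refine h2.trans ?_
      rw [pow_succ]
      nlinarith [mul_le_mul_of_nonneg_left ih hA0.le]
  have hlo : ∀ R, B ^ R * (2 * Real.pi) ≤ Ip p (itp (trunc F) K R) := by
    intro R
    induction R with
    | zero => simp [itp, Ip_one]
    | succ R ih =>
      have h := Ip_mul_bound hp0 (trunc F) (itp (trunc F) K R) K hK0 η (hK2 K (by omega))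
      have h1 := (abs_le.1 h).1
      have h2 : B * Ip p (itp (trunc F) K R) ≤ Ip p (itp (trunc F) K (R + 1)) := by
        rw [itp, hB]
        have : (Ip p (trunc F) / (2 * Real.pi) - 2 * η) * Ip p (itp (trunc F) K R) =
          Ip p (trunc F) * (1 / (2 * Real.pi) * Ip p (itp (trunc F) K R)) - 2 * η * Ip p (itp (trunc F) K R) := by ring
        linarith
      refine le_trans ?_ h2
      rw [pow_succ]
      nlinarith [mul_le_mul_of_nonneg_left ih hB0.le]
  set θ := (B / A) ^ (1 / p) with hθ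
  have hBA : 1 < B / A := (one_lt_div hA0).2 hAB
  have hθ1 : 1 < θ := Real.one_lt_rpow hBA (by positivity)
  have hθ0 : 0 < θ := by linarith
  have hratio : ∀ R, θ ^ R ≤ Lp p (trunc (itp F K R)) / Lp p (itp F K R) := by
    intro R
    have hpos := Ip_pos hp0 (itp F K R) (itp_ne F hne K R)
    have e1 : Lp p (trunc (itp F K R)) / Lp p (itp F K R) =
        (Ip p (itp (trunc F) K R) / Ip p (itp F K R)) ^ (1 / p) := by
      rw [itp_trunc F hF K hKF, Real.div_rpow (Ip_nonneg _ _) (Ip_nonneg _ _)]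
      rfl
    have e2 : θ ^ R = ((B / A) ^ R) ^ (1 / p) := by
      rw [hθ, ← Real.rpow_natCast, ← Real.rpow_mul (by positivity), ← Real.rpow_natCast,
        ← Real.rpow_mul (by positivity), mul_comm]
    rw [e1, e2]
    refine Real.rpow_le_rpow (by positivity) ?_ (by positivity)
    rw [le_div_iff₀ hpos, div_pow]
    have h1 := hup R
    have h2 := hlo R
    have hAR : 0 < A ^ R := by positivity
    rw [div_mul_eq_mul_div, div_le_iff₀ hAR]
    calc B ^ R * Ip p (itp F K R) ≤ B ^ R * (A ^ R * (2 * Real.pi)) :=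
          mul_le_mul_of_nonneg_left h1 (by positivity)
      _ = (B ^ R * (2 * Real.pi)) * A ^ R := by ring
      _ ≤ _ := mul_le_mul_of_nonneg_right h2 hAR.le
  have hK1r : (1 : ℝ) < K := by
    have : 1 < K := by omega
    exact_mod_cast this
  set δ := Real.log θ / Real.log K with hδ
  have hδ0 : 0 < δ := div_pos (Real.log_pos hθ1) (Real.log_pos hK1r)
  have hKδ : (K : ℝ) ^ δ = θ := by
    rw [hδ, Real.rpow_def_of_pos (by linarith), mul_div_cancel₀ _ (Real.log_pos hK1r).ne', Real.exp_log hθ0]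
  refine ⟨θ⁻¹, δ, by positivity, hδ0, fun n hn => ?_⟩
  set R := Nat.log K n with hR
  have h1 : K ^ R ≤ n := Nat.pow_log_le_self K (by omega)
  have h2 : n < K ^ (R + 1) := Nat.lt_pow_succ_log_self (by omega) n
  have h3 : (n : ℝ) ^ δ ≤ θ ^ (R + 1) := by
    have h4 : (n : ℝ) ≤ (K : ℝ) ^ (R + 1) := by exact_mod_cast h2.le
    have h5 := Real.rpow_le_rpow (by positivity) h4 hδ0.le
    refine h5.trans (le_of_eq ?_)
    rw [← hKδ, ← Real.rpow_natCast, ← Real.rpow_mul (by positivity), ← Real.rpow_natCast,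
      ← Real.rpow_mul (by positivity), mul_comm]
  have h6 : θ⁻¹ * (n : ℝ) ^ δ ≤ θ ^ R := by
    rw [pow_succ] at h3
    rw [inv_mul_le_iff₀ hθ0]
    linarith
  have h7 : ENNReal.ofReal (θ⁻¹ * (n : ℝ) ^ δ) ≤
      ENNReal.ofReal (Lp p (trunc (itp F K R)) / Lp p (itp F K R)) :=
    ENNReal.ofReal_le_ofReal (h6.trans (hratio R))
  refine h7.trans ?_
  have hmem : itp F K R ∈ {P : ℂ[X] | P.natDegree ≤ n ∧ P ≠ 0} := by
    refine ⟨((itp_natDegree F K hKF R).le).trans h1, ?_⟩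
    intro h0
    have := itp_ne F hne K R 0
    rw [h0] at this
    simp [ev] at this
  exact le_iSup₂ (f := fun (P : ℂ[X]) (_ : P ∈ {P : ℂ[X] | P.natDegree ≤ n ∧ P ≠ 0}) =>
    ENNReal.ofReal (Lp p (trunc P) / Lp p P)) (itp F K R) hmem

end Pool.Agent.R989.Tr
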