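import Pool.Agent.R989.Asm

/-! The conditional four point function of a stationary wave (helper989). -/

set_option autoImplicit false

open MeasureTheory Filter Topology Complex ProbabilityTheory
open scoped ENNReal

namespace Pool.Agent.R989.Asm

open Pool.Agent.W745.RW Pool.Agent.R989.Erg Pool.Agent.R989.Det Pool.Agent.R989.Der
open Pool.Agent.Results.MP_6b977f_mp.FourPointFunctions (cov gauss parallel)
open Pool.Agent.Results.MP_6b977f_mp.PlanckScaleMass (mean)

section
variable {S : Type*} [MeasurableSpace S] {P : Measure S} [IsProbabilityMeasure P]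
  {F : S → ℂ → ℝ}

/-- stationary waves with finite fourth moment -/
structure Wv (P : Measure S) (F : S → ℂ → ℝ) : Prop where
  meas : ∀ y, Measurable fun s => F s y
  smooth : ∀ s, ContDiff ℝ ((⊤ : ℕ∞) : WithTop ℕ∞) (F s)
  eigen : ∀ s y, lap (F s) y + F s y = 0
  stat : ∀ x : ℂ, P.map (fun s y => F s (y + x)) = P.map F
  mom : Integrable (fun s => F s 0 ^ 4) P

theorem Wv.joint (H : Wv P F) : Measurable fun p : S × ℂ => F p.1 p.2 := by
  have h1 := measurable_uncurry_of_continuous_of_measurable (u := fun (y : ℂ) (s : S) => F s y)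
    (fun s => (H.smooth s).continuous) H.meas
  exact h1.comp measurable_swap

theorem Wv.fld (H : Wv P F) : Fld P (P.map F) F := ⟨H.joint, rfl⟩

theorem Wv.mps (H : Wv P F) (a : ℂ) : MeasurePreserving (sh a) (P.map F) (P.map F) :=
  Erg.mps H.joint (fun b => H.stat b) a

theorem Wv.pow4 (H : Wv P F) (a : ℂ) : Integrable (fun ω : ℂ → ℝ => ω a ^ 4) (P.map F) := by
  have hFm : Measurable F := F_meas H.joint
  have h0 : Integrable X4 (P.map F) :=
    (integrable_map_measure X4_meas.aestronglyMeasurable hFm.aemeasurable).2 H.mom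
  have h1 := (H.mps a).integrable_comp_of_integrable h0
  refine h1.congr (Eventually.of_forall fun ω => ?_)
  simp only [Function.comp_apply, X4, sh, zero_add]

theorem Wv.xa (H : Wv P F) (w : Fin 4 → ℂ) : Integrable (XA w) (P.map F) := by
  refine Integrable.mono' ((((H.pow4 (w 0)).add (H.pow4 (w 1))).add (H.pow4 (w 2))).add
    (H.pow4 (w 3))) (XA_meas w).aestronglyMeasurable (Eventually.of_forall fun ω => ?_)
  simp only [Pi.add_apply, XA, Fin.prod_univ_four]
  rw [Real.norm_eq_abs, abs_mul, abs_mul, abs_mul]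
  have e : ∀ x : ℝ, x ^ 4 = |x| ^ 4 := fun x => (Even.pow_abs (by decide) x).symm
  rw [e (ω (w 0)), e (ω (w 1)), e (ω (w 2)), e (ω (w 3))]
  have h := Pool.Agent.TH294.RG.amgm4 |ω (w 0)| |ω (w 1)| |ω (w 2)| |ω (w 3)|
  have p0 := pow_nonneg (abs_nonneg (ω (w 0))) 4
  have p1 := pow_nonneg (abs_nonneg (ω (w 1))) 4
  have p2 := pow_nonneg (abs_nonneg (ω (w 2))) 4
  have p3 := pow_nonneg (abs_nonneg (ω (w 3))) 4
  linarith

theorem Wv.xw (H : Wv P F) (w : ℂ) : Integrable (XW w) (P.map F) := by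
  have hlp : IsProbabilityMeasure (P.map F) := law_prob H.joint
  refine Integrable.mono' (((H.pow4 0).add (H.pow4 w)).add (integrable_const 1))
    (XW_meas w).aestronglyMeasurable (Eventually.of_forall fun ω => ?_)
  simp only [Pi.add_apply, XW]
  rw [Real.norm_eq_abs, abs_mul]
  have e : ∀ x : ℝ, x ^ 4 = |x| ^ 4 := fun x => (Even.pow_abs (by decide) x).symm
  rw [e (ω 0), e (ω w)]
  nlinarith [sq_nonneg (|ω 0| - |ω w|), sq_nonneg (|ω 0| ^ 2 - 1), sq_nonneg (|ω w| ^ 2 - 1)]

theorem Wv.x2 (H : Wv P F) : MemLp Erg.x2 2 (P.map F) := by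
  rw [memLp_two_iff_integrable_sq Erg.x2_meas.aestronglyMeasurable]
  refine (H.pow4 0).congr (Eventually.of_forall fun ω => ?_)
  simp only [Erg.x2]
  ring

/-- the index type of all the averages -/
abbrev Ix := ((ℕ × ℕ) × (ℚ × ℚ)) ⊕ ((ℕ × (ℚ × ℚ)) ⊕ (ℕ ⊕ Bool))

/-- weights -/
noncomputable def wt (T : ℕ × ℕ → ℂ → ℝ) (φ0 : ℂ → ℝ) : Ix → ℂ → ℝ
  | Sum.inl p => T p.1
  | Sum.inr (Sum.inl p) => ind p.1
  | Sum.inr (Sum.inr (Sum.inl N)) => ind N
  | Sum.inr (Sum.inr (Sum.inr _)) => φ0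

/-- functionals -/
noncomputable def fn (w : Fin 4 → ℂ) : Ix → (ℂ → ℝ) → ℝ
  | Sum.inl p => XW (pt p.2)
  | Sum.inr (Sum.inl p) => AXW (pt p.2)
  | Sum.inr (Sum.inr (Sum.inl _)) => X4
  | Sum.inr (Sum.inr (Sum.inr true)) => X4
  | Sum.inr (Sum.inr (Sum.inr false)) => XA w

theorem cov_zero (ν : Measure ℝ) [IsProbabilityMeasure ν] : cov ν 0 = 1 := by
  unfold cov
  simp

theorem main (H : Wv P F) (m : S → ℝ) (ν : Kernel S ℝ) [IsMarkovKernel ν]
    (hcov : ∀ w : ℂ, P[fun s => F s 0 * F s w | (inv (P.map F)).comap F] =ᵐ[P]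
      fun s => m s * cov (ν s) w)
    (w : Fin 4 → ℂ) :
    (P[fun s => F s 0 ^ 4 | (inv (P.map F)).comap F] =ᵐ[P]
      fun s => m s ^ 2 * (3 - 3 / 2 * parallel (ν s))) ∧
    ((∀ᵐ s ∂P, parallel (ν s) = 0) → P[fun s => ∏ i, F s (w i) | (inv (P.map F)).comap F] =ᵐ[P]
      fun s => m s ^ 2 * gauss (ν s) w) := by
  have hlp : IsProbabilityMeasure (P.map F) := law_prob H.joint
  have hFm : Measurable F := F_meas H.joint
  obtain ⟨T, hT, hdense⟩ := dense_TF
  -- a fixed test function
  obtain ⟨φ0, hφ0, hφnn, hφpos⟩ : ∃ φ0 : ℂ → ℝ, TF (interior (Metric.closedBall (0 : ℂ) (2 : ℕ))) φ0 ∧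
      (∀ z, 0 ≤ φ0 z) ∧ 0 < ∫ z, φ0 z := by
    let b : ContDiffBump (0 : ℂ) := ⟨1 / 2, 1, by norm_num, by norm_num⟩
    refine ⟨fun z => b z, ⟨b.contDiff, b.hasCompactSupport, ?_⟩, fun z => b.nonneg, ?_⟩
    · rw [b.tsupport_eq]
      refine (Metric.closedBall_subset_ball (?_ : (1 : ℝ) < 2)).trans ?_
      · norm_num
      · push_cast
        exact Metric.ball_subset_interior_closedBall
    · exact b.integral_pos
  have hφu : TF Set.univ φ0 := ⟨hφ0.1, hφ0.2.1, Set.subset_univ _⟩
  have hTm : ∀ i, Measurable (T i) := fun i => (hT i).1.continuous.measurable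
  have hTi : ∀ i, Integrable (T i) := fun i =>
    (hT i).1.continuous.integrable_of_hasCompactSupport (hT i).2.1
  have wm : ∀ i, Measurable (wt T φ0 i) := by
    rintro (p | p | N | b)
    · exact hTm p.1
    · exact ind_meas p.1
    · exact ind_meas N
    · exact hφ0.1.continuous.measurable
  have wi : ∀ i, Integrable (wt T φ0 i) := by
    rintro (p | p | N | b)
    · exact hTi p.1
    · exact ind_int p.1
    · exact ind_int N
    · exact hφ0.1.continuous.integrable_of_hasCompactSupport hφ0.2.1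
  have fm : ∀ i, Measurable (fn w i) := by
    rintro (p | p | N | b)
    · exact XW_meas _
    · exact AXW_meas _
    · exact X4_meas
    · cases b
      · exact XA_meas w
      · exact X4_meas
  have fi : ∀ i, Integrable (fn w i) (P.map F) := by
    rintro (p | p | N | b)
    · exact H.xw _
    · exact (H.xw _).abs
    · exact H.pow4 0
    · cases b
      · exact H.xa w
      · exact H.pow4 0
  obtain ⟨t, ht1, ht2, hsub⟩ := subseq (P := P) H.mps (wt T φ0) wm wi (fn w) fm fi H.fld
  have hmass := mass_freq H.mps H.fld H.x2 φ0 hφ0.1.continuous.measurable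
    (hφ0.1.continuous.integrable_of_hasCompactSupport hφ0.2.1) t
  -- the conditional two point functions
  have hc1 : ∀ a : ℚ × ℚ, ∀ᵐ s ∂P, ((P.map F)[XW (pt a) | inv (P.map F)]) (F s) =
      m s * cov (ν s) (pt a) := by
    intro a
    have h1 := ce_transfer (P := P) hFm (XW (pt a)) (H.xw _) (XW_meas _)
    exact h1.symm.trans (hcov (pt a))
  have hc2 : ∀ᵐ s ∂P, ((P.map F)[Erg.x2 | inv (P.map F)]) (F s) = m s := by
    have h1 := ce_transfer (P := P) hFm Erg.x2 (H.x2.integrable (by norm_num)) Erg.x2_meas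
    have h2 := hcov 0
    have h3 : (fun s => Erg.x2 (F s)) = fun s => F s 0 * F s 0 := by
      funext s
      simp only [Erg.x2]
      ring
    rw [h3] at h1
    filter_upwards [h1.symm.trans h2] with s hs
    rw [hs, cov_zero, mul_one]
  have hfin := ce_transfer (P := P) hFm (XA w) (H.xa w) (XA_meas w)
  have hfin4 := ce_transfer (P := P) hFm X4 (H.pow4 0) X4_meas
  have key : ∀ᵐ s ∂P, ((P.map F)[X4 | inv (P.map F)]) (F s) =
      m s ^ 2 * (3 - 3 / 2 * parallel (ν s)) ∧ (parallel (ν s) = 0 →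
      ((P.map F)[XA w | inv (P.map F)]) (F s) = m s ^ 2 * gauss (ν s) w) := by
    filter_upwards [hsub, hmass, ae_all_iff.2 hc1, hc2] with s h1 h2 h3 h4
    have hfc : Continuous (F s) := (H.smooth s).continuous
    have c4 : ∀ N : ℕ, ∃ C : ℝ, ∀ᶠ n in atTop,
        ∫ z in Metric.closedBall (0 : ℂ) N, F s ((t n : ℂ) * z) ^ 4 ≤ C := by
      intro N
      have h6 := lim_of_tendsto (h1 (Sum.inr (Sum.inr (Sum.inl N))))
      refine ⟨_, h6.mono fun n hn => le_trans (le_of_eq ?_) hn⟩
      show _ = V F (ind N) (t n) X4 s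
      rw [V_ind]
      refine setIntegral_congr_fun measurableSet_closedBall fun z _ => ?_
      simp only [X4, sh, zero_add]
    have c2 : ∀ a : ℚ × ℚ, ∀ N : ℕ, ∃ C : ℝ, ∀ᶠ n in atTop,
        ∫ z in Metric.closedBall (0 : ℂ) N,
          |F s ((t n : ℂ) * z) * F s ((t n : ℂ) * z + pt a)| ≤ C := by
      intro a N
      have h6 := lim_of_tendsto (h1 (Sum.inr (Sum.inl (N, a))))
      refine ⟨_, h6.mono fun n hn => le_trans (le_of_eq ?_) hn⟩
      show _ = V F (ind N) (t n) (AXW (pt a)) s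
      rw [V_ind]
      refine setIntegral_congr_fun measurableSet_closedBall fun z _ => ?_
      simp only [AXW, sh, add_comm, add_zero]
    have D : Dat (F s) t (m s) (ν s) := by
      refine ⟨H.smooth s, H.eigen s, fun n => lt_of_lt_of_le one_pos (ht1 n), ht2, c4, ?_⟩
      intro φ hφ w' hw'
      obtain ⟨p, q, rfl⟩ := hw'
      refine two_ext hfc hT hdense _ _ (fun i => ?_) (c2 (p, q)) φ hφ
      have h6 := h1 (Sum.inl (i, (p, q)))
      have h7 : wt T φ0 (Sum.inl (i, (p, q))) = T i := rfl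
      have h8 : fn w (Sum.inl (i, (p, q))) = XW (pt (p, q)) := rfl
      rw [h7, h8, h3 (p, q)] at h6
      refine h6.congr fun n => ?_
      unfold V
      refine integral_congr_ae (Eventually.of_forall fun z => ?_)
      simp only [XW, sh, pt, add_comm, add_zero]
    have hB := h1 (Sum.inr (Sum.inr (Sum.inr true)))
    have hA := h1 (Sum.inr (Sum.inr (Sum.inr false)))
    have hB' : Tendsto (fun n => ∫ z, φ0 z * F s ((t n : ℂ) * z) ^ 4) atTop
        (𝓝 ((∫ z, φ0 z) * ((P.map F)[X4 | inv (P.map F)]) (F s))) := by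
      refine Tendsto.congr (fun n => ?_) hB
      show V F φ0 (t n) X4 s = _
      unfold V
      refine integral_congr_ae (Eventually.of_forall fun z => ?_)
      simp only [X4, sh, zero_add]
    have hBv := fin_B D _ (isCompact_closedBall (0 : ℂ) (2 : ℕ)) φ0 hφ0 hφpos
      (((P.map F)[X4 | inv (P.map F)]) (F s)) hB' (c4 2) (by
        intro ε hε R0
        obtain ⟨R, hR, hfr⟩ := h2 ε hε R0
        refine ⟨R, hR, hfr.mono fun n hn => ?_⟩
        unfold Dv at hn
        rw [h4] at hn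
        exact hn)
    refine ⟨hBv, fun h5 => ?_⟩
    refine fin_s D h5 _ (isCompact_closedBall (0 : ℂ) (2 : ℕ)) φ0 hφ0 hφnn hφpos
      (((P.map F)[X4 | inv (P.map F)]) (F s)) hB' (c4 2) hBv w _ ?_
    refine Tendsto.congr (fun n => ?_) hA
    show V F φ0 (t n) (XA w) s = _
    unfold V
    refine integral_congr_ae (Eventually.of_forall fun z => ?_)
    simp only [XA, sh, add_comm]
  refine ⟨?_, fun hpar => ?_⟩
  · refine hfin4.trans ?_
    filter_upwards [key] with s hs
    exact hs.1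
  · refine hfin.trans ?_
    filter_upwards [key, hpar] with s hs hs'
    exact hs.2 hs'

end

end Pool.Agent.R989.Asm
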